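import Pool.Agent.P.MP_d8da86_an.C.Df

/-!
Boolean valued fields and vector spaces: supports, localisation, gluing, quasi-inverses.
Hints. `exists_partB`: Zorn. `BMod.loc_eq`: look at the support of v - w.
-/

open scoped InnerProductSpace ComplexConjugate

set_option linter.unusedSectionVars false
set_option linter.unusedVariables false

noncomputable section

namespace Pool.Agent.P.MP_d8da86_an.CR

universe u

theorem exists_partB {B : Type*} [CompleteBooleanAlgebra B] (w₀ : B) (Q : B → Prop)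
    (hQ : ∀ z, z ≠ ⊥ → z ≤ w₀ → ∃ w, w ≠ ⊥ ∧ w ≤ z ∧ Q w) :
    ∃ S : Set B, S.Pairwise Disjoint ∧ sSup S = w₀ ∧ ∀ w ∈ S, w ≠ ⊥ ∧ Q w := by
  obtain ⟨S, hS⟩ := zorn_subset {S : Set B | S.Pairwise Disjoint ∧ ∀ w ∈ S, w ≠ ⊥ ∧ w ≤ w₀ ∧ Q w}
    fun c hc hch => ⟨⋃₀ c, ⟨hch.pairwise_sUnion.2 fun s hs => (hc hs).1,
      fun w ⟨s, hs, hw⟩ => (hc hs).2 w hw⟩, fun s hs => Set.subset_sUnion_of_mem hs⟩
  refine ⟨S, hS.1.1, le_antisymm (sSup_le fun w hw => (hS.1.2 w hw).2.1) ?_,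
    fun w hw => ⟨(hS.1.2 w hw).1, (hS.1.2 w hw).2.2⟩⟩
  rw [← sdiff_eq_bot_iff]
  by_contra h0
  obtain ⟨w, n, l, q⟩ := hQ _ h0 sdiff_le
  have hd : ∀ x ∈ S, Disjoint w x := fun x hx =>
    (disjoint_sdiff_self_left.mono_left l).mono_right (le_sSup hx)
  have hw : w ∈ S := hS.2 (y := insert w S) ⟨Set.pairwise_insert.2
    ⟨hS.1.1, fun x hx _ => ⟨hd x hx, (hd x hx).symm⟩⟩, by
      rintro x (rfl | hx)
      exacts [⟨n, l.trans sdiff_le, q⟩, hS.1.2 x hx]⟩ (Set.subset_insert _ _) (Set.mem_insert _ _)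
  exact n (disjoint_self.1 (hd w hw))

variable {B : Type*} [CompleteBooleanAlgebra B] {R : Type*} [CommRing R] {ε : B → R}
  {E : Type*} [AddCommGroup E] [Module R E] {a b z w : B} {r s : R} {u v : E}

namespace Reg

theorem bot (h : Reg ε) : ε ⊥ = 0 := by
  rw [← compl_top, h.compl, h.top, sub_self]

theorem idem (h : Reg ε) (z : B) : ε z * ε z = ε z := by
  rw [← h.inf, inf_idem]

theorem mul_compl (h : Reg ε) (z : B) : ε z * ε zᶜ = 0 := by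
  rw [← h.inf, inf_compl_self, h.bot]

theorem add_compl (h : Reg ε) (z : B) : ε z + ε zᶜ = 1 := by
  rw [h.compl, add_sub_cancel]

theorem of_le (h : Reg ε) (hab : a ≤ b) : ε a * ε b = ε a := by
  rw [← h.inf, inf_eq_left.2 hab]

theorem of_disjoint (h : Reg ε) (hab : Disjoint a b) : ε a * ε b = 0 := by
  rw [← h.inf, hab.eq_bot, h.bot]

theorem sup (h : Reg ε) (a b : B) : ε (a ⊔ b) = ε a + ε b - ε a * ε b := by
  rw [← compl_compl (a ⊔ b), h.compl, compl_sup, h.inf, h.compl, h.compl]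
  ring

theorem inj (h : Reg ε) : Function.Injective ε := fun a b e => by
  have key : ∀ {a b : B}, ε a = ε b → a ≤ b := fun {a b} e => by
    rw [← sdiff_eq_bot_iff, sdiff_eq]
    exact h.eq_bot _ (by rw [h.inf, e, h.mul_compl])
  exact le_antisymm (key e) (key e.symm)

theorem bmod (h : Reg ε) : BMod ε R := by
  refine ⟨fun r => ?_, h.mix⟩
  obtain ⟨z, k, rfl⟩ := h.reg r
  refine ⟨z, fun w => ?_⟩
  rw [smul_eq_mul, ← mul_assoc, Units.mul_left_eq_zero, ← h.inf]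
  exact ⟨h.eq_bot _, fun e => by rw [e, h.bot]⟩

/-- support `z` and quasi-inverse `s` of `r` -/
theorem qinv (h : Reg ε) (r : R) : ∃ (z : B) (s : R), r * s = ε z ∧ ε z * r = r ∧
    ε z * s = s ∧ ∀ w, ε w * r = 0 ↔ w ⊓ z = ⊥ := by
  obtain ⟨z, k, rfl⟩ := h.reg r
  refine ⟨z, ε z * (k⁻¹ : Rˣ), ?_, by rw [← mul_assoc, h.idem], by rw [← mul_assoc, h.idem],
    fun w => ?_⟩
  · rw [mul_mul_mul_comm, h.idem, Units.mul_inv, mul_one]
  · rw [← mul_assoc, Units.mul_left_eq_zero, ← h.inf]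
    exact ⟨h.eq_bot _, fun e => by rw [e, h.bot]⟩

theorem isUnit_of_full (h : Reg ε) (hr : ∀ z, ε z * r = 0 → z = ⊥) : IsUnit r := by
  obtain ⟨z, k, rfl⟩ := h.reg r
  have h1 : zᶜ = ⊥ := hr _ (by rw [← mul_assoc, mul_comm (ε zᶜ), h.mul_compl, zero_mul])
  rw [compl_eq_bot.1 h1, h.top, one_mul]
  exact k.isUnit

theorem eq_bot_of_unit (h : Reg ε) (k : Rˣ) (h0 : ε z * k = 0) : z = ⊥ :=
  h.eq_bot _ (by rwa [Units.mul_left_eq_zero] at h0)

theorem eq_zero_of_sq (h : Reg ε) (h0 : r * r = 0) : r = 0 := by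
  obtain ⟨z, s, h1, h2, -⟩ := h.qinv r
  rw [← h2, ← h1, mul_right_comm, h0, zero_mul]

/-- locally an element is zero or a unit -/
theorem dich (h : Reg ε) (r : R) (hz : z ≠ ⊥) :
    ∃ w, w ≠ ⊥ ∧ w ≤ z ∧ (ε w * r = 0 ∨ ∃ k : Rˣ, ε w * r = ε w * k) := by
  obtain ⟨y, k, rfl⟩ := h.reg r
  by_cases h0 : z ⊓ y = ⊥
  · exact ⟨z, hz, le_rfl, Or.inl (by rw [← mul_assoc, ← h.inf, h0, h.bot, zero_mul])⟩
  · exact ⟨z ⊓ y, h0, inf_le_left, Or.inr ⟨k, by rw [← mul_assoc, h.of_le inf_le_right]⟩⟩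

/-- a product vanishes only if locally one factor vanishes -/
theorem split_mul (h : Reg ε) (h0 : r * s = 0) : ∃ z, ε z * r = 0 ∧ ε zᶜ * s = 0 := by
  obtain ⟨z, t, h1, h2, -⟩ := h.qinv r
  refine ⟨zᶜ, by rw [← h2, ← mul_assoc, mul_comm (ε zᶜ), h.mul_compl, zero_mul], ?_⟩
  rw [compl_compl, ← h1, mul_right_comm, h0, zero_mul]

theorem loc_eq (h : Reg ε)
    (hl : ∀ z, z ≠ ⊥ → ∃ w, w ≠ ⊥ ∧ w ≤ z ∧ ε w * r = ε w * s) : r = s := by
  obtain ⟨y, t, -, h2, -, h3⟩ := h.qinv (r - s)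
  rw [← sub_eq_zero, ← h2]
  by_cases h0 : y = ⊥
  · rw [h0, h.bot, zero_mul]
  · obtain ⟨w, n, l, e⟩ := hl y h0
    exact absurd (by rw [← (h3 w).1 (by rw [mul_sub, e, sub_self]), inf_eq_left.2 l]) n

theorem glue (h : Reg ε) (Q : B → R → Prop)
    (hQ : ∀ z, z ≠ ⊥ → ∃ w, w ≠ ⊥ ∧ w ≤ z ∧ ∃ r, Q w r) :
    ∃ (r : R) (S : Set B), S.Pairwise Disjoint ∧ sSup S = ⊤ ∧
      ∀ w ∈ S, ∃ r', Q w r' ∧ ε w * r = ε w * r' := by
  obtain ⟨S, h1, h2, h3⟩ := exists_partB ⊤ (fun w => ∃ r, Q w r) fun z n _ => hQ z n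
  choose! g hg using fun w hw => (h3 w hw).2
  obtain ⟨r, hr⟩ := h.mix S h1 g
  exact ⟨r, S, h1, h2, fun w hw => ⟨g w, hg w hw, hr w hw⟩⟩

theorem eq_of_part (h : Reg ε) {S : Set B} (hS : sSup S = ⊤)
    (hl : ∀ w ∈ S, ε w * r = ε w * s) : r = s :=
  h.loc_eq fun z n => by
    by_contra h0
    refine n ?_
    rw [← inf_top_eq z, ← hS, inf_sSup_eq, iSup₂_eq_bot]
    intro w hw
    by_contra h1
    exact h0 ⟨z ⊓ w, h1, inf_le_left, by rw [h.inf, mul_assoc, hl w hw, mul_assoc]⟩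

theorem smul_smul_of_le (h : Reg ε) (hab : a ≤ b) (v : E) : ε a • ε b • v = ε a • v := by
  rw [smul_smul, h.of_le hab]

theorem smul_add_compl (h : Reg ε) (z : B) (v : E) : ε z • v + ε zᶜ • v = v := by
  rw [← add_smul, h.add_compl, one_smul]

theorem smul_mono (h : Reg ε) (hab : a ≤ b) (huv : ε b • u = ε b • v) : ε a • u = ε a • v := by
  rw [← h.smul_smul_of_le hab u, huv, h.smul_smul_of_le hab]

theorem eq_of_cases (h : Reg ε) (h1 : ε z • u = ε z • v) (h2 : ε zᶜ • u = ε zᶜ • v) : u = v := by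
  rw [← h.smul_add_compl z u, h1, h2, h.smul_add_compl]

/-- if `r • v = 0` then `v` vanishes on the support of `r` -/
theorem smul_eq_zero (h : Reg ε) (h0 : r • v = 0) : ∃ z, ε z * r = 0 ∧ ε zᶜ • v = 0 := by
  obtain ⟨z, t, h1, h2, -⟩ := h.qinv r
  refine ⟨zᶜ, by rw [← h2, ← mul_assoc, mul_comm (ε zᶜ), h.mul_compl, zero_mul], ?_⟩
  rw [compl_compl, ← h1, mul_comm, mul_smul, h0, smul_zero]

theorem eq_zero_of_full (h : Reg ε) (hv : Full ε v) (h0 : r • v = 0) : r = 0 := by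
  obtain ⟨z, h1, h2⟩ := h.smul_eq_zero h0
  rwa [compl_eq_bot.1 (hv _ h2), h.top, one_mul] at h1

end Reg

namespace BMod

theorem sSup_smul (m : BMod ε E) {S : Set B} (hS : ∀ z ∈ S, ε z • v = 0) :
    ε (sSup S) • v = 0 := by
  obtain ⟨s, hs⟩ := m.supp v
  rw [hs, sSup_inf_eq, iSup₂_eq_bot]
  exact fun z hz => (hs z).1 (hS z hz)

theorem loc_eq (m : BMod ε E) (h : Reg ε)
    (hl : ∀ z, z ≠ ⊥ → ∃ w, w ≠ ⊥ ∧ w ≤ z ∧ ε w • u = ε w • v) : u = v := by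
  obtain ⟨s, hs⟩ := m.supp (u - v)
  have h0 : s = ⊥ := by
    by_contra h0
    obtain ⟨w, n, l, e⟩ := hl s h0
    exact n (by rw [← (hs w).1 (by rw [smul_sub, e, sub_self]), inf_eq_left.2 l])
  have := (hs ⊤).2 (by rw [h0, inf_bot_eq])
  rwa [h.top, one_smul, sub_eq_zero] at this

theorem loc_eq_on (m : BMod ε E) (h : Reg ε)
    (hl : ∀ z', z' ≠ ⊥ → z' ≤ z → ∃ w, w ≠ ⊥ ∧ w ≤ z' ∧ ε w • u = ε w • v) :
    ε z • u = ε z • v :=
  m.loc_eq h fun y n => by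
    by_cases h0 : y ⊓ z = ⊥
    · exact ⟨y, n, le_rfl, by rw [smul_smul, smul_smul, ← h.inf, h0, h.bot, zero_smul, zero_smul]⟩
    · obtain ⟨w, n1, l, e⟩ := hl _ h0 inf_le_right
      exact ⟨w, n1, l.trans inf_le_left, by
        rw [h.smul_smul_of_le (l.trans inf_le_right), h.smul_smul_of_le (l.trans inf_le_right), e]⟩

theorem eq_of_part (m : BMod ε E) (h : Reg ε) {S : Set B} (hS : sSup S = ⊤)
    (hl : ∀ w ∈ S, ε w • u = ε w • v) : u = v := by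
  have := m.sSup_smul (v := u - v) (S := S) fun z hz => by rw [smul_sub, hl z hz, sub_self]
  rwa [hS, h.top, one_smul, sub_eq_zero] at this

/-- the support of a vector -/
theorem supp' (m : BMod ε E) (h : Reg ε) (v : E) : ∃ s : B, ε s • v = v ∧ ε sᶜ • v = 0 ∧
    ∀ z, ε z • v = 0 ↔ z ⊓ s = ⊥ := by
  obtain ⟨s, hs⟩ := m.supp v
  have h1 := (hs sᶜ).2 (compl_inf_self s)
  refine ⟨s, ?_, h1, hs⟩
  have := h.smul_add_compl s v
  rwa [h1, add_zero] at this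

theorem glue (m : BMod ε E) (h : Reg ε) (w₀ : B) (Q : B → E → Prop)
    (hQ : ∀ z, z ≠ ⊥ → z ≤ w₀ → ∃ w, w ≠ ⊥ ∧ w ≤ z ∧ ∃ v, Q w v) :
    ∃ (v : E) (S : Set B), S.Pairwise Disjoint ∧ sSup S = w₀ ∧ ε w₀ • v = v ∧
      ∀ w ∈ S, ∃ v', Q w v' ∧ ε w • v = ε w • v' := by
  obtain ⟨S, h1, h2, h3⟩ := exists_partB w₀ (fun w => ∃ v, Q w v) hQ
  choose! g hg using fun w hw => (h3 w hw).2
  obtain ⟨v, hv⟩ := m.mix S h1 g
  exact ⟨ε w₀ • v, S, h1, h2, h.smul_smul_of_le le_rfl v, fun w hw => ⟨g w, hg w hw, by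
    rw [h.smul_smul_of_le (h2 ▸ le_sSup hw), hv w hw]⟩⟩

theorem prod {E' : Type*} [AddCommGroup E'] [Module R E'] (m : BMod ε E) (m' : BMod ε E')
    (h : Reg ε) : BMod ε (E × E') := by
  refine ⟨fun v => ?_, fun S hS g => ?_⟩
  · obtain ⟨s, hs⟩ := m.supp v.1
    obtain ⟨t, ht⟩ := m'.supp v.2
    refine ⟨s ⊔ t, fun z => ?_⟩
    rw [inf_sup_left, sup_eq_bot_iff, ← hs, ← ht, Prod.ext_iff]
    rfl
  · obtain ⟨a, ha⟩ := m.mix S hS fun z => (g z).1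
    obtain ⟨c, hc⟩ := m'.mix S hS fun z => (g z).2
    exact ⟨(a, c), fun z hz => Prod.ext (ha z hz) (hc z hz)⟩

end BMod

namespace IsForm

variable [StarRing R] {f : E → E → R}

theorem zero_right (h : IsForm f) (v : E) : f v 0 = 0 := by
  have := h.smul 0 v 0
  rwa [zero_smul, zero_mul] at this

theorem zero_left (h : IsForm f) (v : E) : f 0 v = 0 := by
  rw [← h.herm, h.zero_right, star_zero]

theorem add_left (h : IsForm f) (u v w : E) : f (u + v) w = f u w + f v w := by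
  rw [← h.herm, h.add, star_add, h.herm, h.herm]

theorem smul_left (h : IsForm f) (r : R) (v w : E) : f (r • v) w = star r * f v w := by
  rw [← h.herm, h.smul, star_mul', h.herm]

theorem neg_right (h : IsForm f) (v w : E) : f v (-w) = -f v w := by
  rw [← neg_one_smul R w, h.smul, neg_one_mul]

theorem neg_left (h : IsForm f) (v w : E) : f (-v) w = -f v w := by
  rw [← h.herm, h.neg_right, star_neg, h.herm]

theorem sub_right (h : IsForm f) (u v w : E) : f u (v - w) = f u v - f u w := by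
  rw [sub_eq_add_neg, h.add, h.neg_right, sub_eq_add_neg]

theorem sub_left (h : IsForm f) (u v w : E) : f (u - v) w = f u w - f v w := by
  rw [sub_eq_add_neg, h.add_left, h.neg_left, sub_eq_add_neg]

theorem zero_symm (h : IsForm f) {v w : E} (h0 : f v w = 0) : f w v = 0 := by
  rw [← h.herm, h0, star_zero]

end IsForm

end Pool.Agent.P.MP_d8da86_an.CR
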