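import Pool.Agent.P.MP_d8da86_an.C.O3

/-!
Points: exchange, modularity, lines.
Hints. `exch`: u = (x ⊔ a) ⊓ o x is a point, v = (x ⊔ b) ⊓ o x ≤ u, c = cov v, v = c ⊓ u,
c ⊓ (a ⊔ x) = c ⊓ x ⊔ c ⊓ u ≤ x ⊔ v = b ⊔ x, and o c ⊓ b ≤ x gives b ≤ c.
`modular`: `loc_le` and `pt_dich`; if w ⊓ a ⊓ y = ⊥ then t = w ⊓ (x ⊔ a) ⊓ y ⊓ o x is a point,
`exch` gives cov t ⊓ a ≤ y so t = ⊥, then `eq_of_le`.
`pt_of_le_sup`: for t ≤ x take z = cov ((t ⊔ a) ⊓ o a) and show t = x ⊓ z with `modular`.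
`veb'`: l = a ⊔ c, u = (y ⊔ a) ⊓ o y, y = (a ⊔ y) ⊓ o u, b = l ⊓ o u, s = (o l ⊔ u) ⊓ l is a point,
l ⊓ o s = b, l = s ⊔ b, then `exch` for a ≤ s ⊔ b; below o (cov a) one has c ≤ y.
`veb`: below cov (a ⊓ y) take c itself, elsewhere use `veb'`.
`third_of_line`: z = cov a ⊓ cov e, s = (z ⊓ e ⊔ z ⊓ a) ⊓ o (z ⊓ e); among c 0, c 1, c 2 one
avoids a and e locally (cov (c t ⊓ a) are pairwise disjoint, also cov (c t ⊓ e)); mix.
-/

open scoped InnerProductSpace ComplexConjugate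

set_option linter.unusedSectionVars false
set_option linter.unusedVariables false

noncomputable section

namespace Pool.Agent.P.MP_d8da86_an.CR

universe u

variable {L : Type*} [CompleteLattice L] {o : L → L} {a b c d e x y z w p q : L}

theorem o3b_k (h : OM o) (hz : Cen o z) (h0 : z ⊓ x = ⊥) (y : L) : z ⊓ (x ⊔ y) ≤ y := by
  rw [h.inf_sup hz, h0, bot_sup_eq]
  exact inf_le_right

theorem o3b_miss (h : OM o) (hz : Cen o z) (h1 : z ⊓ x ⊓ a = ⊥) (h2 : w ⊓ y ⊓ a = ⊥) :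
    (z ⊔ w) ⊓ (z ⊓ x ⊔ o z ⊓ y) ⊓ a = ⊥ := by
  refine le_bot_iff.1 (h.le_of_cases hz ?_ ?_)
  · rw [← h1]
    exact le_inf ((inf_le_inf_left _ (inf_le_left.trans inf_le_right)).trans
      (h.inf_mix2 hz x y).le) (inf_le_right.trans inf_le_right)
  · rw [← h2]
    refine le_inf (le_inf ?_ ?_) (inf_le_right.trans inf_le_right)
    · exact (inf_le_inf_left _ (inf_le_left.trans inf_le_left)).trans
        (o3b_k h (h.cen_o hz) (h.o_inf_self z) w)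
    · exact (inf_le_inf_left _ (inf_le_left.trans inf_le_right)).trans
        ((h.o_inf_mix2 hz x y).le.trans inf_le_right)

theorem o3b_mix (h : OM o) (hz : Cen o z) (hd : Cen o d)
    (hx : Pt o x ∧ x ≤ b ∧ cov o x = d ∧ z ⊓ x ⊓ a = ⊥ ∧ z ⊓ x ⊓ e = ⊥)
    (hy : Pt o y ∧ y ≤ b ∧ cov o y = d ∧ w ⊓ y ⊓ a = ⊥ ∧ w ⊓ y ⊓ e = ⊥) :
    ∃ c, Pt o c ∧ c ≤ b ∧ cov o c = d ∧ (z ⊔ w) ⊓ c ⊓ a = ⊥ ∧ (z ⊔ w) ⊓ c ⊓ e = ⊥ := by
  refine ⟨z ⊓ x ⊔ o z ⊓ y, h.pt_mix2 hz hx.1 hy.1,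
    sup_le (inf_le_right.trans hx.2.1) (inf_le_right.trans hy.2.1), ?_,
    o3b_miss h hz hx.2.2.2.1 hy.2.2.2.1, o3b_miss h hz hx.2.2.2.2 hy.2.2.2.2⟩
  rw [h.cov_sup, h.cov_inf hz, h.cov_inf (h.cen_o hz), hx.2.2.1, hy.2.2.1,
    ← h.sup_inf hz (h.cen_o hz), h.sup_o, top_inf_eq]

theorem o3b_three (h : OM o) {A E : ℝ → L} (hA : ∀ t, Cen o (A t)) (hE : ∀ t, Cen o (E t))
    (dA : ∀ s t, s ≠ t → A s ⊓ A t = ⊥) (dE : ∀ s t, s ≠ t → E s ⊓ E t = ⊥) :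
    o (A 0 ⊔ E 0) ⊔ (o (A 1 ⊔ E 1) ⊔ o (A 2 ⊔ E 2)) = ⊤ := by
  rw [← h.o_inf, ← h.o_inf, ← h.o_bot]
  refine congrArg o ?_
  rw [h.sup_inf (hA 0) (hE 0)]
  refine sup_eq_bot_iff.2 ⟨le_bot_iff.1 ?_, le_bot_iff.1 ?_⟩
  · rw [← dE 1 2 (by norm_num)]
    exact le_inf ((inf_le_inf_left _ inf_le_left).trans
        (o3b_k h (hA 0) (dA 0 1 (by norm_num)) _))
      ((inf_le_inf_left _ inf_le_right).trans (o3b_k h (hA 0) (dA 0 2 (by norm_num)) _))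
  · rw [← dA 1 2 (by norm_num), sup_comm (A 1), sup_comm (A 2)]
    exact le_inf ((inf_le_inf_left _ inf_le_left).trans
        (o3b_k h (hE 0) (dE 0 1 (by norm_num)) _))
      ((inf_le_inf_left _ inf_le_right).trans (o3b_k h (hE 0) (dE 0 2 (by norm_num)) _))

namespace Geo

theorem third_of_line (h : Geo o) (hl : LineAx o) : Proj o := by
  refine ⟨h, fun a e ha he h0 => ?_⟩
  have m := h.toOM
  set z := cov o a ⊓ cov o e with hzd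
  have hz : Cen o z := m.cen_inf (m.cen_cov a) (m.cen_cov e)
  have ce : cov o (z ⊓ e) = z := by rw [m.cov_inf hz]; exact inf_eq_left.2 inf_le_right
  have ca : cov o (z ⊓ a) = z := by rw [m.cov_inf hz]; exact inf_eq_left.2 inf_le_left
  have lz : z ⊓ e ⊔ z ⊓ a ≤ z := sup_le inf_le_left inf_le_left
  have sp := h.sup_sasaki (z ⊓ e) (z ⊓ a)
  have cs : cov o ((z ⊓ e ⊔ z ⊓ a) ⊓ o (z ⊓ e)) = z := by
    refine le_antisymm ((m.cov_le_iff hz).2 (inf_le_left.trans lz)) (ca.ge.trans ?_)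
    refine h.cov_le_of_le_sup (x := z ⊓ e) ?_ (le_bot_iff.1 ?_)
    · rw [sup_comm, sp]
      exact le_sup_right
    · exact (inf_le_inf inf_le_right inf_le_right).trans h0.le
  obtain ⟨c, h1, h2, -⟩ := hl (z ⊓ e) ((z ⊓ e ⊔ z ⊓ a) ⊓ o (z ⊓ e))
    (m.pt_mono he inf_le_right) (h.cover _ _ (m.pt_mono ha inf_le_right))
    (m.perp_comm.1 inf_le_right) (m.cov_iff.2 (by rw [ce, cs])) (m.cov_iff.2 (by rw [ce, cs]))
  rw [sp] at h1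
  have cc : ∀ t, Cen o (o (cov o (c t ⊓ a) ⊔ cov o (c t ⊓ e))) := fun t =>
    m.cen_o (m.cen_sup (m.cen_cov _) (m.cen_cov _))
  have G : ∀ t, Pt o (c t) ∧ c t ≤ a ⊔ e ∧ cov o (c t) = z ∧
      o (cov o (c t ⊓ a) ⊔ cov o (c t ⊓ e)) ⊓ c t ⊓ a = ⊥ ∧
      o (cov o (c t ⊓ a) ⊔ cov o (c t ⊓ e)) ⊓ c t ⊓ e = ⊥ := fun t => by
    refine ⟨(h1 t).1, (h1 t).2.1.trans (sup_le (inf_le_right.trans le_sup_right)
      (inf_le_right.trans le_sup_left)), le_antisymm ((m.cov_le_iff hz).2 ((h1 t).2.1.trans lz))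
      (ce.ge.trans (m.cov_iff.1 (h1 t).2.2)), le_bot_iff.1 ?_, le_bot_iff.1 ?_⟩
    · rw [← h.o_cov_inf (c t) a]
      exact inf_le_inf_right _ (inf_le_inf_right _ (m.anti le_sup_left))
    · rw [← h.o_cov_inf (c t) e]
      exact inf_le_inf_right _ (inf_le_inf_right _ (m.anti le_sup_right))
  have D : ∀ x, Pt o x → ∀ s t, s ≠ t → cov o (c s ⊓ x) ⊓ cov o (c t ⊓ x) = ⊥ :=
    fun x hx s t hst => h.cov_disj hx inf_le_right inf_le_right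
      (le_bot_iff.1 ((inf_le_inf inf_le_left inf_le_left).trans (h2 s t hst).le))
  obtain ⟨y, hy⟩ := o3b_mix m (cc 1) hz (G 1) (G 2)
  obtain ⟨x, hx⟩ := o3b_mix m (cc 0) hz (G 0) hy
  rw [o3b_three m (A := fun t => cov o (c t ⊓ a)) (E := fun t => cov o (c t ⊓ e))
    (fun t => m.cen_cov _) (fun t => m.cen_cov _) (D a ha) (D e he), top_inf_eq] at hx
  exact ⟨x, hx⟩

/-- dimension one, two, or at least three -/
theorem trichotomy (h : Geo o) (hz : Cen o z) (h0 : z ≠ ⊥) :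
    ∃ w, Cen o w ∧ w ≠ ⊥ ∧ w ≤ z ∧ (Pt o w ∨
      (∃ p q, Pt o p ∧ Pt o q ∧ p ≤ o q ∧ cov o p = w ∧ cov o q = w ∧ p ⊔ q = w) ∨
      ∃ p, Spatial o p ∧ cov o p = w) := by
  have m := h.toOM
  obtain ⟨p, hp, p0, pz⟩ := h.dense z h0
  have l1 : cov o p ≤ z := (m.cov_le_iff hz).2 pz
  by_cases e1 : cov o p ⊓ o p = ⊥
  · refine ⟨cov o p, m.cen_cov p, mt m.cov_eq_bot.1 p0, l1, Or.inl ?_⟩
    rwa [← m.eq_of_le (m.le_cov p) e1]
  obtain ⟨q, hq, q0, qz⟩ := h.dense _ e1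
  have l2 : cov o q ≤ cov o p := (m.cov_le_iff (m.cen_cov p)).2 (qz.trans inf_le_left)
  have qp : q ≤ o p := qz.trans inf_le_right
  have c2 : cov o (cov o q ⊓ p) = cov o q := by
    rw [m.cov_inf (m.cen_cov q)]
    exact inf_eq_left.2 l2
  by_cases e2 : cov o q ⊓ o (cov o q ⊓ p ⊔ q) = ⊥
  · exact ⟨cov o q, m.cen_cov q, mt m.cov_eq_bot.1 q0, l2.trans l1, Or.inr (Or.inl
      ⟨cov o q ⊓ p, q, m.pt_mono hp inf_le_right, hq, inf_le_right.trans (m.perp_comm.1 qp), c2,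
        rfl, m.eq_of_le (sup_le inf_le_left (m.le_cov q)) e2⟩)⟩
  obtain ⟨r, hr, r0, rz⟩ := h.dense _ e2
  have l3 : cov o r ≤ cov o q := (m.cov_le_iff (m.cen_cov q)).2 (rz.trans inf_le_left)
  have ro : cov o q ⊓ p ⊔ q ≤ o r := m.perp_comm.1 (rz.trans inf_le_right)
  have c3 : cov o (cov o r ⊓ p) = cov o r := by
    rw [m.cov_inf (m.cen_cov r)]
    exact inf_eq_left.2 (l3.trans l2)
  exact ⟨cov o r, m.cen_cov r, mt m.cov_eq_bot.1 r0, l3.trans (l2.trans l1), Or.inr (Or.inr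
    ⟨cov o r ⊓ p, ⟨m.pt_mono hp inf_le_right, q, r, hq, hr, qp.trans (m.anti inf_le_right),
      m.perp_comm.1 ((inf_le_inf_right _ l3).trans (le_sup_left.trans ro)),
      le_sup_right.trans ro, m.cov_iff.2 (c3.le.trans l3), m.cov_iff.2 c3.le⟩, c3⟩)⟩

end Geo

end Pool.Agent.P.MP_d8da86_an.CR
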