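import Pool.Agent.P.MP_d8da86_an.C.H6b
import Pool.Agent.P.MP_d8da86_an.C.O3b
import Pool.Agent.P.MP_d8da86_an.SA

/-!
The lattice of a self-adjoint operator: basic facts, centre, induced automorphisms.
Hints. `commute_of_proj`: for self-adjoint T use `exists_setup` for T: the spectral projections
commute with A and their ranges are in Lat A, so Q commutes with them; T is a limit of step
functions (`SpecCalc.tendsto`, or the lemma `commute_of_spec`); split T into real and imaginary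
part. `cen_iff`: Cen z says that pr (V z) maps every V x into itself.
-/

open scoped InnerProductSpace ComplexConjugate

set_option linter.unusedSectionVars false
set_option linter.unusedVariables false

noncomputable section

namespace Pool.Agent.P.MP_d8da86_an.CR

universe u

variable {H : Type*} [NormedAddCommGroup H] [InnerProductSpace ℂ H] [CompleteSpace H]
  {L : Type*} [CompleteLattice L] {o : L → L} {A : H →L[ℂ] H} {V : L → Submodule ℂ H}
  {a b p q x y z w : L} {S T X Y : H →L[ℂ] H} {g k : L ≃o L}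

/-- an operator which commutes with all spectral projections commutes with the calculus -/
theorem commute_of_spec {Ω : Type} [MeasurableSpace Ω] (E : SpecCalc Ω H) {Q : H →L[ℂ] H}
    (hQ : ∀ s, MeasurableSet s → Commute Q (E.Pr s)) {f : Ω → ℂ} (hf : BM f) :
    Commute Q (E.Φ f) := by
  have hb : ∀ φ : MeasureTheory.SimpleFunc Ω ℂ, BM φ := fun φ =>
    ⟨φ.measurable, φ.exists_forall_norm_le⟩
  have hs : ∀ φ : MeasureTheory.SimpleFunc Ω ℂ, Commute Q (E.Φ φ) := fun φ => by
    induction φ using MeasureTheory.SimpleFunc.induction with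
    | @const c s hs =>
      have e : ((MeasureTheory.SimpleFunc.piecewise s hs (MeasureTheory.SimpleFunc.const Ω c)
          (MeasureTheory.SimpleFunc.const Ω 0) : MeasureTheory.SimpleFunc Ω ℂ) : Ω → ℂ) =
          fun x => c * s.indicator (fun _ => 1) x := by
        funext x
        by_cases hx : x ∈ s <;> simp [hx]
      rw [e, E.map_smul c (BM.indicator_one hs)]
      exact (hQ s hs).smul_right c
    | @add φ ψ _ h1 h2 =>
      have e : ((φ + ψ : MeasureTheory.SimpleFunc Ω ℂ) : Ω → ℂ) = fun x => φ x + ψ x := rfl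
      rw [e, E.map_add (hb φ) (hb ψ)]
      exact h1.add_right h2
  obtain ⟨K, hK⟩ := hf.2
  have hm := hf.1.stronglyMeasurable
  have ht : ∀ ξ, Filter.Tendsto (fun n => E.Φ (hm.approxBounded (max K 0) n) ξ) Filter.atTop
      (nhds (E.Φ f ξ)) := fun ξ =>
    E.tendsto (max K 0) (Filter.Eventually.of_forall fun n => ⟨(hb _).1,
      hm.norm_approxBounded_le (le_max_right _ _) n⟩) hf (Filter.Eventually.of_forall fun x =>
        hm.tendsto_approxBounded_of_norm_le ((hK x).trans (le_max_left _ _)))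
  ext1 ξ
  refine tendsto_nhds_unique ((Q.continuous.tendsto _).comp (ht ξ)) ((ht (Q ξ)).congr fun n => ?_)
  exact (DFunLike.congr_fun (hs _) ξ).symm

theorem exists_conc (hA : IsSelfAdjoint A) (e : L ≃o Lat A) :
    ∃ o : L → L, Conc o A fun x => (e x).1 := by
  refine ⟨fun x => e.symm ⟨(e x).1ᗮ, reductive_of_selfAdjoint hA _ (e x).2⟩, hA,
    fun x y => e.le_iff_le, fun M => ⟨?_, fun hM => ⟨e.symm ⟨M, hM⟩, by simp⟩⟩, fun x => by simp⟩
  rintro ⟨x, rfl⟩
  exact (e x).2

theorem exists_conc' {H : Type u} [NormedAddCommGroup H] [InnerProductSpace ℂ H] [CompleteSpace H]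
    {A : H →L[ℂ] H} (hA : IsSelfAdjoint A) : ∃ (L : Type u) (_ : CompleteLattice L) (o : L → L)
      (V : L → Submodule ℂ H), Conc o A V := by
  let i : InfSet (Lat A) := ⟨fun S => ⟨⨅ M ∈ S, M.1, by
    simp only [Submodule.coe_iInf]
    exact isClosed_iInter fun M => isClosed_iInter fun _ => M.2.1, fun ξ hξ => by
    simp only [Submodule.mem_iInf] at hξ ⊢
    exact fun M hM => M.2.2 ξ (hξ M hM)⟩⟩
  let c : CompleteLattice (Lat A) := completeLatticeOfInf (Lat A) fun S =>
    ⟨fun M hM => (biInf_le (fun N : Lat A => N.1) hM : (⨅ N ∈ S, N.1) ≤ M.1),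
      fun M hM => (le_iInf₂ fun N hN => hM hN : M.1 ≤ ⨅ N ∈ S, N.1)⟩
  obtain ⟨o, ho⟩ := exists_conc (L := Lat A) hA (OrderIso.refl _)
  exact ⟨Lat A, c, o, _, ho⟩

namespace Conc

theorem mem (C : Conc o A V) (x : L) : V x ∈ Lat A := by
  exact (C.range _).1 ⟨x, rfl⟩

theorem closed (C : Conc o A V) (x : L) : IsClosed (V x : Set H) := by
  exact (C.mem x).1

theorem inj (C : Conc o A V) : Function.Injective V := by
  exact fun x y h => le_antisymm ((C.le_iff _ _).1 h.le) ((C.le_iff _ _).1 h.ge)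

theorem map_bot (C : Conc o A V) : V ⊥ = ⊥ := by
  obtain ⟨c, hc⟩ := (C.range _).2 (bot_mem_Lat A)
  exact le_bot_iff.1 (hc ▸ (C.le_iff _ _).2 bot_le)

theorem map_top (C : Conc o A V) : V ⊤ = ⊤ := by
  obtain ⟨c, hc⟩ := (C.range _).2 (top_mem_Lat A)
  exact top_le_iff.1 (hc ▸ (C.le_iff _ _).2 le_top)

theorem map_inf (C : Conc o A V) (x y : L) : V (x ⊓ y) = V x ⊓ V y := by
  refine le_antisymm (le_inf ((C.le_iff _ _).2 inf_le_left) ((C.le_iff _ _).2 inf_le_right)) ?_
  obtain ⟨c, h⟩ := (C.range _).2 (inf_mem_Lat (C.mem x) (C.mem y))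
  rw [← h, C.le_iff]
  exact le_inf ((C.le_iff _ _).1 (h ▸ inf_le_left)) ((C.le_iff _ _).1 (h ▸ inf_le_right))

theorem map_sup (C : Conc o A V) (x y : L) : V (x ⊔ y) = (V x ⊔ V y).topologicalClosure := by
  refine le_antisymm ?_ (clo_le (C.closed _)
    (sup_le ((C.le_iff _ _).2 le_sup_left) ((C.le_iff _ _).2 le_sup_right)))
  obtain ⟨c, h⟩ := (C.range _).2 (sup_mem_Lat (C.mem x) (C.mem y))
  rw [← h, C.le_iff]
  exact sup_le ((C.le_iff _ _).1 (h ▸ le_sup_left.trans (Submodule.le_topologicalClosure _)))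
    ((C.le_iff _ _).1 (h ▸ le_sup_right.trans (Submodule.le_topologicalClosure _)))

theorem map_sSup (C : Conc o A V) (T : Set L) :
    V (sSup T) = (⨆ x ∈ T, V x).topologicalClosure := by
  refine le_antisymm ?_ (clo_le (C.closed _) (iSup₂_le fun x hx => (C.le_iff _ _).2 (le_sSup hx)))
  have h1 : (⨆ x ∈ T, V x) ≤ (⨆ x ∈ T, V x).comap (A : H →ₗ[ℂ] H) :=
    iSup₂_le fun x hx ξ hξ => le_iSup₂ (f := fun x (_ : x ∈ T) => V x) x hx ((C.mem x).2 ξ hξ)
  obtain ⟨c, h⟩ := (C.range (⨆ x ∈ T, V x).topologicalClosure).2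
    (clo_mem_Lat fun ξ hξ => Submodule.le_topologicalClosure _ (h1 hξ))
  rw [← h, C.le_iff]
  refine sSup_le fun x hx => ?_
  rw [← C.le_iff, h]
  exact (le_iSup₂ (f := fun x (_ : x ∈ T) => V x) x hx).trans (Submodule.le_topologicalClosure _)

theorem om (C : Conc o A V) : OM o := by
  refine ⟨fun a b h => ?_, fun a => C.inj ?_, fun a => C.inj ?_, fun a b h => ?_⟩
  · rw [← C.le_iff, C.orth, C.orth]
    exact Submodule.orthogonal_le ((C.le_iff _ _).2 h)
  · rw [C.orth, C.orth, orth_orth (C.closed a)]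
  · rw [C.map_inf, C.orth, C.map_bot, Submodule.inf_orthogonal_eq_bot]
  · refine le_antisymm (sup_le h inf_le_left) ?_
    have hP := isProj_pr (C.closed a)
    rw [← C.le_iff, C.map_sup, C.map_inf, C.orth]
    exact fun ξ hξ => Submodule.le_topologicalClosure _ (Submodule.mem_sup.2 ⟨pr (V a) ξ, hP.mem ξ,
      ξ - pr (V a) ξ, ⟨(V b).sub_mem hξ ((C.le_iff _ _).2 h (hP.mem ξ)), hP.sub ξ⟩,
      add_sub_cancel _ _⟩)

theorem commute_pr (C : Conc o A V) (x : L) : Commute (pr (V x)) A := by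
  exact (isProj_pr (C.closed x)).commute (C.mem x).2 (reductive_of_selfAdjoint C.sa _ (C.mem x)).2

theorem commute_star (C : Conc o A V) (hT : Commute T A) : Commute (star T) A := by
  have h := hT.star_star
  rwa [C.sa.star_eq] at h

theorem pr_o (C : Conc o A V) (x : L) : pr (V (o x)) = 1 - pr (V x) := by
  rw [C.orth, pr_orth (C.closed x)]

theorem pr_eq_zero (C : Conc o A V) : pr (V x) = 0 ↔ x = ⊥ := by
  constructor
  · intro h
    refine C.inj (C.map_bot.symm ▸ (Submodule.eq_bot_iff _).2 fun ξ hξ => ?_)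
    rw [← (isProj_pr (C.closed x)).self hξ, h]
    rfl
  · rintro rfl
    ext1 ξ
    have h := (isProj_pr (C.closed ⊥)).mem ξ
    exact (Submodule.eq_bot_iff _).1 C.map_bot _ h

theorem exists_proj (C : Conc o A V) {Q : H →L[ℂ] H} (h1 : Q * Q = Q) (h2 : star Q = Q)
    (h3 : Commute Q A) : ∃ x, pr (V x) = Q := by
  obtain ⟨h4, h5⟩ := pr_range h1 h2
  obtain ⟨x, hx⟩ := (C.range (LinearMap.range (Q : H →ₗ[ℂ] H))).2 ⟨h4, by
    rintro _ ⟨ξ, rfl⟩
    exact ⟨A ξ, DFunLike.congr_fun h3 ξ⟩⟩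
  exact ⟨x, hx ▸ h5⟩

theorem exists_im (C : Conc o A V) (hT : Commute T A) (x : L) : ∃ y, V y = im T (V x) := by
  refine (C.range _).2 (clo_mem_Lat ?_)
  rintro _ ⟨ξ, hξ, rfl⟩
  exact Submodule.le_topologicalClosure _ ⟨A ξ, (C.mem x).2 ξ hξ, DFunLike.congr_fun hT ξ⟩

end Conc

end Pool.Agent.P.MP_d8da86_an.CR
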