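import Pool.Agent.P.MP_d8da86_an.C.C1b

/-!
From operators to representations, and doubling of a multiplicity free operator.
Hints. `rep_of_att`: `exists_conc` for L' = Set.Iic w gives o'. Φ x = V ⟨w ⊓ x, _⟩. By
`OM.cen_iff` an element of Set.Iic w is central for o' iff it is central for o, and
`compl_unique` gives o' z = w ⊓ o z. Then `red_of_cen`, `mem_of_red`.
`exists_double`: B ≃o Lat A1, every element of Lat A1 is central (`cen_map`, `cen_compl`), so
invariant under the commutant of A1. H = WithLp 2 (H1 × H1), A = A1 ⊕ A1, L' from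
`exists_conc'`, p' = H1 ⊕ 0, q' = 0 ⊕ H1, j' b = M b ⊕ M b. The entries of an operator commuting with A
commute with A1, so j' b is central (`cen_of_inv`); a central z is invariant under the flip and
the coordinate projections, so it is some j' b; an element below p' is M b ⊕ 0 = p' ⊓ j' b.
-/

open scoped InnerProductSpace ComplexConjugate

set_option linter.unusedSectionVars false
set_option linter.unusedVariables false

noncomputable section

namespace Pool.Agent.P.MP_d8da86_an.CR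

universe u

theorem rep_of_att {L : Type u} [CompleteLattice L] {o : L → L} (h : OM o) {w : L}
    (hw : Cen o w) (ha : Att (Set.Iic w)) : Rep o w := by
  obtain ⟨H, i1, i2, i3, A, hA, ⟨e⟩⟩ := ha
  obtain ⟨o', C⟩ := exists_conc hA e
  have h' := C.om
  have b1 : ∀ z : Set.Iic w, z ⊓ (⟨w ⊓ o z.1, inf_le_left⟩ : Set.Iic w) = ⊥ := fun z =>
    Subtype.ext (le_bot_iff.1 ((inf_le_inf_left _ inf_le_right).trans (h.inf_o z.1).le))
  have k1 : ∀ z : Set.Iic w, Cen o z.1 → Cen o' z := fun z hz =>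
    h'.cen_iff.2 ⟨⟨w ⊓ o z.1, inf_le_left⟩, b1 z, fun x => Subtype.ext (by
      show x.1 = x.1 ⊓ z.1 ⊔ x.1 ⊓ (w ⊓ o z.1)
      rw [← inf_assoc, inf_eq_left.2 (show x.1 ≤ w from x.2)]
      exact hz x.1)⟩
  have k2 : ∀ z : Set.Iic w, Cen o' z → Cen o z.1 := fun z hz => by
    refine h.cen_iff.2 ⟨(o' z).1 ⊔ o w, ?_, fun x => ?_⟩
    · have h1 : z.1 ⊓ (o' z).1 = ⊥ := congrArg Subtype.val (h'.inf_o z)
      have h2 : w ⊓ ((o' z).1 ⊔ o w) = (o' z).1 := h.om' (o' z).2
      rw [← inf_eq_left.2 (show z.1 ≤ w from z.2), inf_assoc, h2, h1]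
    · refine le_antisymm ?_ (sup_le inf_le_left inf_le_left)
      have h1 : x ⊓ w = x ⊓ w ⊓ z.1 ⊔ x ⊓ w ⊓ (o' z).1 :=
        congrArg Subtype.val (hz ⟨x ⊓ w, inf_le_right⟩)
      refine (hw x).le.trans (sup_le (h1.le.trans (sup_le_sup ?_ ?_)) ?_)
      · exact inf_le_inf_right _ inf_le_left
      · exact inf_le_inf inf_le_left le_sup_left
      · exact le_sup_of_le_right (inf_le_inf_left _ le_sup_right)
  have k3 : ∀ z : Set.Iic w, Cen o z.1 → (⟨w ⊓ o z.1, inf_le_left⟩ : Set.Iic w) = o' z :=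
    fun z hz => h'.compl_unique (k1 z hz) (b1 z) (Subtype.ext (h.om z.1 w z.2))
  have e1 : ∀ x (hx : x ≤ w), (⟨w ⊓ x, inf_le_left⟩ : Set.Iic w) = ⟨x, hx⟩ := fun x hx =>
    Subtype.ext (inf_eq_right.2 hx)
  refine ⟨H, i1, i2, i3, fun x => (e ⟨w ⊓ x, inf_le_left⟩).1, fun x => C.closed _, ?_, ?_, ?_, ?_⟩
  · intro x y hx hy
    rw [e1 x hx, e1 y hy]
    exact C.le_iff ⟨x, hx⟩ ⟨y, hy⟩
  · intro z hz hzw
    rw [e1 z hzw, e1 (w ⊓ o z) inf_le_left, k3 ⟨z, hzw⟩ hz]
    exact C.orth _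
  · intro x z hx hz hzw
    rw [e1 z hzw]
    exact C.red_of_cen (k1 ⟨z, hzw⟩ hz) _
  · intro M hM hr
    have h1 : M ∈ Lat A := C.mem_of_red hM fun z hz => by
      have h2 := hr z.1 (k2 z hz) z.2
      rwa [e1 z.1 z.2] at h2
    obtain ⟨x, hx⟩ := (C.range M).2 h1
    exact ⟨x.1, x.2, by rw [e1 x.1 x.2]; exact hx⟩

end Pool.Agent.P.MP_d8da86_an.CR
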