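import Pool.Agent.P.MP_d8da86_an.C.C10

/-!
From operators to representations, and doubling of a multiplicity free operator.
Hints. `rep_of_att`: `exists_conc` for L' = Set.Iic w gives o'. Φ x = V ⟨w ⊓ x, _⟩. By
`OM.cen_iff` an element of Set.Iic w is central for o' iff it is central for o, and
`compl_unique` gives o' z = w ⊓ o z. Then `red_of_cen`, `mem_of_red`.
`exists_double`: B ≃o Lat A1, every element of Lat A1 is central (`cen_map`, `cen_compl`), so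
invariant under the commutant of A1. H = WithLp 2 (H1 × H1), A = A1 ⊕ A1, L' from
`exists_conc'`, p' = H1 ⊕ 0, q' = 0 ⊕ H1, j' b = M b ⊕ M b. The entries of an operator commuting with A
commute with A1, so j' b is central (`cen_of_inv`); a central z is invariant under the flip and
the coordinate projections, so it is some j' b; an element below p' is M b ⊕ 0 = p' ⊓ j' b.
-/

open scoped InnerProductSpace ComplexConjugate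

set_option linter.unusedSectionVars false
set_option linter.unusedVariables false

noncomputable section

namespace Pool.Agent.P.MP_d8da86_an.CR

universe u

section

variable {H₁ : Type*} [NormedAddCommGroup H₁] [InnerProductSpace ℂ H₁] [CompleteSpace H₁]
  {H : Type*} [NormedAddCommGroup H] [InnerProductSpace ℂ H] [CompleteSpace H]

/-- `(H, A)` is the sum of two copies of `(H₁, A₁)` -/
structure c10b_D (A₁ : H₁ →L[ℂ] H₁) (A : H →L[ℂ] H) (π π' : H →L[ℂ] H₁) (ι ι' : H₁ →L[ℂ] H) :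
    Prop where
  p11 : ∀ x, π (ι x) = x
  p22 : ∀ x, π' (ι' x) = x
  p21 : ∀ x, π' (ι x) = 0
  p12 : ∀ x, π (ι' x) = 0
  sum : ∀ ξ, ι (π ξ) + ι' (π' ξ) = ξ
  a1 : ∀ ξ, π (A ξ) = A₁ (π ξ)
  a2 : ∀ ξ, π' (A ξ) = A₁ (π' ξ)
  inn : ∀ ξ η, ⟪ξ, η⟫_ℂ = ⟪π ξ, π η⟫_ℂ + ⟪π' ξ, π' η⟫_ℂ

variable {A₁ : H₁ →L[ℂ] H₁} {A : H →L[ℂ] H} {π π' : H →L[ℂ] H₁} {ι ι' : H₁ →L[ℂ] H}
  {L : Type*} [CompleteLattice L] {o : L → L} {V : L → Submodule ℂ H}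
  {B : Type*} [CompleteBooleanAlgebra B] {o₁ : B → B} {W : B → Submodule ℂ H₁} {j : B → L}
  {p q z : L}

theorem c10b_D.swap (D : c10b_D A₁ A π π' ι ι') : c10b_D A₁ A π' π ι' ι :=
  ⟨D.p22, D.p11, D.p12, D.p21, fun ξ => by rw [add_comm, D.sum], D.a2, D.a1,
    fun ξ η => by rw [add_comm, D.inn]⟩

theorem c10b_D.ai (D : c10b_D A₁ A π π' ι ι') (x : H₁) : A (ι x) = ι (A₁ x) := by
  rw [← D.sum (A (ι x)), D.a1, D.a2, D.p11, D.p21, map_zero, map_zero, add_zero]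

theorem c10b_D.sa (D : c10b_D A₁ A π π' ι ι') (h : IsSelfAdjoint A₁) : IsSelfAdjoint A := by
  rw [ContinuousLinearMap.isSelfAdjoint_iff_isSymmetric] at h ⊢
  intro ξ η
  have h1 : ∀ x y, ⟪A₁ x, y⟫_ℂ = ⟪x, A₁ y⟫_ℂ := h
  change ⟪A ξ, η⟫_ℂ = ⟪ξ, A η⟫_ℂ
  rw [D.inn, D.inn ξ, D.a1, D.a2, D.a1, D.a2, h1, h1]

theorem c10b_up {α : H₁ →L[ℂ] H} {β : H →L[ℂ] H₁} (hα : ∀ x, A (α x) = α (A₁ x))
    (hβ : ∀ ξ, β (A ξ) = A₁ (β ξ)) : Commute (α ∘L β) A := by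
  ext1 ξ
  change α (β (A ξ)) = A (α (β ξ))
  rw [hβ, hα]

theorem c10b_down {α : H₁ →L[ℂ] H} {β : H →L[ℂ] H₁} (hα : ∀ x, A (α x) = α (A₁ x))
    (hβ : ∀ ξ, β (A ξ) = A₁ (β ξ)) {T : H →L[ℂ] H} (hT : Commute T A) :
    Commute (β ∘L T ∘L α) A₁ := by
  ext1 x
  have h1 : T (A (α x)) = A (T (α x)) := DFunLike.congr_fun hT (α x)
  change β (T (α (A₁ x))) = A₁ (β (T (α x)))
  rw [← hα, h1, hβ]

theorem c10b_inv (C : Conc o A V) (hz : Cen o z) {T : H →L[ℂ] H} (hT : Commute T A) {ξ : H}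
    (hξ : ξ ∈ V z) : T ξ ∈ V z :=
  (isProj_pr (C.closed z)).inv_of_commute (C.cen_iff.1 hz T hT) hξ

theorem c10b_cenB (C₁ : Conc o₁ A₁ W) (b : B) : Cen o₁ b :=
  C₁.om.cen_iff.2 ⟨bᶜ, inf_compl_self b, fun x => by
    rw [← inf_sup_left, sup_compl_eq_top, inf_top_eq]⟩

theorem c10b_D.ker (D : c10b_D A₁ A π π' ι ι') (C : Conc o A V) :
    ∃ p, ∀ ξ, ξ ∈ V p ↔ π' ξ = 0 := by
  obtain ⟨p, hp⟩ := (C.range (LinearMap.ker (π' : H →ₗ[ℂ] H₁))).2 ⟨π'.isClosed_ker, fun ξ hξ => by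
    have h1 : π' ξ = 0 := hξ
    change π' (A ξ) = 0
    rw [D.a2, h1, map_zero]⟩
  exact ⟨p, fun ξ => by rw [hp]; rfl⟩

theorem c10b_D.dbl (D : c10b_D A₁ A π π' ι ι') (C : Conc o A V) (C₁ : Conc o₁ A₁ W) (b : B) :
    ∃ y, ∀ ξ, ξ ∈ V y ↔ π ξ ∈ W b ∧ π' ξ ∈ W b := by
  obtain ⟨y, hy⟩ := (C.range ((W b).comap (π : H →ₗ[ℂ] H₁) ⊓ (W b).comap (π' : H →ₗ[ℂ] H₁))).2
    ⟨((C₁.closed b).preimage π.continuous).inter ((C₁.closed b).preimage π'.continuous),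
      fun ξ hξ => by
        change π (A ξ) ∈ W b ∧ π' (A ξ) ∈ W b
        rw [D.a1, D.a2]
        exact ⟨(C₁.mem b).2 _ hξ.1, (C₁.mem b).2 _ hξ.2⟩⟩
  exact ⟨y, fun ξ => by rw [hy]; rfl⟩

theorem c10b_D.res (D : c10b_D A₁ A π π' ι ι') (C : Conc o A V) (C₁ : Conc o₁ A₁ W) (y : L) :
    ∃ b, ∀ x, x ∈ W b ↔ ι x ∈ V y := by
  obtain ⟨b, hb⟩ := (C₁.range ((V y).comap (ι : H₁ →ₗ[ℂ] H))).2
    ⟨(C.closed y).preimage ι.continuous, fun x hx => by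
      change ι (A₁ x) ∈ V y
      rw [← D.ai]
      exact (C.mem y).2 _ hx⟩
  exact ⟨b, fun x => by rw [hb]; rfl⟩

theorem c10b_D.entry (D : c10b_D A₁ A π π' ι ι') (C₁ : Conc o₁ A₁ W) {T : H →L[ℂ] H}
    (hT : Commute T A) {b : B} {ξ : H} (h1 : π ξ ∈ W b) (h2 : π' ξ ∈ W b) : π (T ξ) ∈ W b := by
  rw [← D.sum ξ, map_add, map_add]
  exact (W b).add_mem (c10b_inv C₁ (c10b_cenB C₁ b) (c10b_down D.ai D.a1 hT) h1)
    (c10b_inv C₁ (c10b_cenB C₁ b) (c10b_down D.swap.ai D.a1 hT) h2)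

theorem c10b_D.cen (D : c10b_D A₁ A π π' ι ι') (C : Conc o A V) (C₁ : Conc o₁ A₁ W)
    (hj : ∀ b ξ, ξ ∈ V (j b) ↔ π ξ ∈ W b ∧ π' ξ ∈ W b) (b : B) : Cen o (j b) :=
  C.cen_of_inv fun T hT ξ hξ => (hj b _).2
    ⟨D.entry C₁ hT ((hj b ξ).1 hξ).1 ((hj b ξ).1 hξ).2,
      D.swap.entry C₁ hT ((hj b ξ).1 hξ).2 ((hj b ξ).1 hξ).1⟩

theorem c10b_D.mem_cen (D : c10b_D A₁ A π π' ι ι') (C : Conc o A V) (hz : Cen o z) {ξ : H}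
    (h1 : ι (π ξ) ∈ V z) (h2 : ι (π' ξ) ∈ V z) : ξ ∈ V z := by
  have h3 : ι' (π (ι (π' ξ))) ∈ V z := c10b_inv C hz (c10b_up D.swap.ai D.a1) h2
  rw [D.p11] at h3
  rw [← D.sum ξ]
  exact (V z).add_mem h1 h3

theorem c10b_D.rep (D : c10b_D A₁ A π π' ι ι') (C : Conc o A V) (C₁ : Conc o₁ A₁ W)
    (hj : ∀ b ξ, ξ ∈ V (j b) ↔ π ξ ∈ W b ∧ π' ξ ∈ W b) : CenRep o ⊤ j := by
  refine ⟨fun a b => ?_, fun z => ⟨?_, fun hz => ?_⟩⟩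
  · rw [← C.le_iff, ← C₁.le_iff]
    refine ⟨fun h x hx => ?_, fun h ξ hξ =>
      (hj b ξ).2 ⟨h ((hj a ξ).1 hξ).1, h ((hj a ξ).1 hξ).2⟩⟩
    have h1 := (hj b _).1 (h ((hj a (ι x)).2 (by
      rw [D.p11, D.p21]
      exact ⟨hx, (W a).zero_mem⟩)))
    rw [D.p11] at h1
    exact h1.1
  · rintro ⟨b, rfl⟩
    exact ⟨D.cen C C₁ hj b, le_top⟩
  · obtain ⟨b, hb⟩ := D.res C C₁ z
    refine ⟨b, C.inj (Submodule.ext fun ξ => ?_)⟩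
    rw [hj, hb, hb]
    exact ⟨fun h => D.mem_cen C hz.1 h.1 h.2, fun h =>
      ⟨c10b_inv C hz.1 (c10b_up D.ai D.a1) h, c10b_inv C hz.1 (c10b_up D.ai D.a2) h⟩⟩

theorem c10b_D.pt (D : c10b_D A₁ A π π' ι ι') (C : Conc o A V) (C₁ : Conc o₁ A₁ W)
    (hj : ∀ b ξ, ξ ∈ V (j b) ↔ π ξ ∈ W b ∧ π' ξ ∈ W b) (hp : ∀ ξ, ξ ∈ V p ↔ π' ξ = 0) :
    Pt o p := by
  intro x hx
  obtain ⟨b, hb⟩ := D.res C C₁ x
  refine ⟨j b, D.cen C C₁ hj b, C.inj (Submodule.ext fun ξ => ?_)⟩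
  have h1 : π' ξ = 0 → ι (π ξ) = ξ := fun h => by
    have h2 := D.sum ξ
    rwa [h, map_zero, add_zero] at h2
  rw [C.map_inf, Submodule.mem_inf, hp, hj, hb]
  refine ⟨fun h => ?_, fun h => h1 h.1 ▸ h.2.1⟩
  have h2 := (hp ξ).1 ((C.le_iff x p).2 hx h)
  rw [h1 h2, h2]
  exact ⟨rfl, h, (W b).zero_mem⟩

theorem c10b_D.cov (D : c10b_D A₁ A π π' ι ι') (C : Conc o A V)
    (hp : ∀ ξ, ξ ∈ V p ↔ π' ξ = 0) : cov o p = ⊤ := by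
  have h1 : ∀ x, ι x ∈ V (CR.cov o p) := fun x =>
    (C.le_iff _ _).2 (C.om.le_cov p) ((hp _).2 (D.p21 x))
  exact top_le_iff.1 ((C.le_iff _ _).1 fun ξ _ => D.mem_cen C (C.om.cen_cov p) (h1 _) (h1 _))

theorem c10b_exists (A₁ : H₁ →L[ℂ] H₁) : ∃ (A : WithLp 2 (H₁ × H₁) →L[ℂ] WithLp 2 (H₁ × H₁))
    (π π' : WithLp 2 (H₁ × H₁) →L[ℂ] H₁) (ι ι' : H₁ →L[ℂ] WithLp 2 (H₁ × H₁)),
      c10b_D A₁ A π π' ι ι' := by
  let e := (WithLp.prodContinuousLinearEquiv 2 ℂ H₁ H₁).symm.toContinuousLinearMap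
  refine ⟨e ∘L (A₁ ∘L WithLp.fstL 2 ℂ H₁ H₁).prod (A₁ ∘L WithLp.sndL 2 ℂ H₁ H₁),
    WithLp.fstL 2 ℂ H₁ H₁, WithLp.sndL 2 ℂ H₁ H₁, e ∘L ContinuousLinearMap.inl ℂ H₁ H₁,
    e ∘L ContinuousLinearMap.inr ℂ H₁ H₁, fun x => rfl, fun x => rfl, fun x => rfl, fun x => rfl,
    fun ξ => ?_, fun ξ => rfl, fun ξ => rfl, fun ξ η => WithLp.prod_inner_apply ξ η⟩
  change WithLp.toLp 2 (ξ.fst, (0 : H₁)) + WithLp.toLp 2 ((0 : H₁), ξ.snd) = ξ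
  rw [← WithLp.toLp_add, Prod.mk_add_mk, add_zero, zero_add]
  rfl

end

theorem exists_double {B : Type u} [CompleteBooleanAlgebra B] (ha : Att B) :
    ∃ (H : Type u) (_ : NormedAddCommGroup H) (_ : InnerProductSpace ℂ H) (_ : CompleteSpace H)
      (A : H →L[ℂ] H) (L' : Type u) (_ : CompleteLattice L') (o' : L' → L')
      (V : L' → Submodule ℂ H) (p' q' : L') (j' : B → L'), Conc o' A V ∧ Pt o' p' ∧ Pt o' q' ∧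
        p' ≤ o' q' ∧ p' ⊔ q' = ⊤ ∧ cov o' p' = ⊤ ∧ cov o' q' = ⊤ ∧ CenRep o' ⊤ j' := by
  obtain ⟨H₁, _, _, _, A₁, hA₁, ⟨e⟩⟩ := ha
  obtain ⟨o₁, C₁⟩ := exists_conc hA₁ e
  obtain ⟨A, π, π', ι, ι', D⟩ := c10b_exists A₁
  obtain ⟨L', _, o', V, C⟩ := exists_conc' (D.sa hA₁)
  obtain ⟨p, hp⟩ := D.ker C
  obtain ⟨q, hq⟩ := D.swap.ker C
  choose j hj using D.dbl C C₁
  refine ⟨_, inferInstance, inferInstance, inferInstance, A, L', inferInstance, o', V, p, q, j, C,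
    D.pt C C₁ hj hp, D.swap.pt C C₁ (fun b ξ => (hj b ξ).trans and_comm) hq, ?_, ?_, D.cov C hp,
    D.swap.cov C hq, D.rep C C₁ hj⟩
  · rw [← C.le_iff, C.orth]
    intro ξ hξ
    refine mem_orth.2 fun η hη => ?_
    rw [D.inn, (hp ξ).1 hξ, (hq η).1 hη, inner_zero_left, inner_zero_right, add_zero]
  · refine top_le_iff.1 ((C.le_iff _ _).1 fun ξ _ => ?_)
    rw [← D.sum ξ]
    exact (V _).add_mem ((C.le_iff _ _).2 le_sup_left ((hp _).2 (D.p21 _)))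
      ((C.le_iff _ _).2 le_sup_right ((hq _).2 (D.p12 _)))

end Pool.Agent.P.MP_d8da86_an.CR
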