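import Pool.Agent.P.MP_d8da86_an.C.C1

/-!
The lattice of a self-adjoint operator: basic facts, centre, induced automorphisms.
Hints. `commute_of_proj`: for self-adjoint T use `exists_setup` for T: the spectral projections
commute with A and their ranges are in Lat A, so Q commutes with them; T is a limit of step
functions (`SpecCalc.tendsto`, or the lemma `commute_of_spec`); split T into real and imaginary
part. `cen_iff`: Cen z says that pr (V z) maps every V x into itself.
-/

open scoped InnerProductSpace ComplexConjugate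

set_option linter.unusedSectionVars false
set_option linter.unusedVariables false

noncomputable section

namespace Pool.Agent.P.MP_d8da86_an.CR

universe u

variable {H : Type*} [NormedAddCommGroup H] [InnerProductSpace ℂ H] [CompleteSpace H]
  {L : Type*} [CompleteLattice L] {o : L → L} {A : H →L[ℂ] H} {V : L → Submodule ℂ H}
  {a b p q x y z w : L} {S T X Y : H →L[ℂ] H} {g k : L ≃o L}

theorem c1b_sa (C : Conc o A V) {Q : H →L[ℂ] H} (hQ : ∀ x, Commute Q (pr (V x)))
    (hs : IsSelfAdjoint T) (hT : Commute T A) : Commute Q T := by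
  obtain ⟨X, _, E, Z, hZ, hE, hc⟩ := exists_setup T hs.isStarNormal
  rw [← hE]
  refine commute_of_spec E (fun s hs => ?_) hZ
  have hP := E.Pr_proj hs
  obtain ⟨x, hx⟩ := C.exists_proj hP.isIdempotentElem hP.isSelfAdjoint
    (hc A hT.symm _ (BM.indicator_one hs)).symm
  exact hx ▸ hQ x

theorem c1b_map_map (h : S * T = 1) (M : Submodule ℂ H) :
    (M.map (T : H →ₗ[ℂ] H)).map (S : H →ₗ[ℂ] H) = M := by
  have e : (S : H →ₗ[ℂ] H).comp (T : H →ₗ[ℂ] H) = LinearMap.id :=
    LinearMap.ext fun ξ => DFunLike.congr_fun h ξ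
  rw [← Submodule.map_comp, e, Submodule.map_id]

theorem c1b_map (C : Conc o A V) (hT : Commute T A) (h1 : T * S = 1) (h2 : S * T = 1) (x : L) :
    ∃ y, V y = (V x).map (T : H →ₗ[ℂ] H) := by
  refine (C.range _).2 ⟨?_, ?_⟩
  · have e : ((V x).map (T : H →ₗ[ℂ] H) : Set H) = S ⁻¹' (V x) := by
      ext η
      refine ⟨?_, fun h => ⟨S η, h, DFunLike.congr_fun h1 η⟩⟩
      rintro ⟨ξ, hξ, rfl⟩
      have e : S (T ξ) = ξ := DFunLike.congr_fun h2 ξ
      change S (T ξ) ∈ V x
      rwa [e]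
    rw [e]
    exact (C.closed x).preimage S.continuous
  · rintro _ ⟨ξ, hξ, rfl⟩
    exact ⟨A ξ, (C.mem x).2 ξ hξ, DFunLike.congr_fun hT ξ⟩

theorem c1b_loc (C : Conc o A V) (hg : Ind V T g) (hk : Ind V S k) (hT : Commute (pr (V z)) T)
    (hx : Commute (pr (V z)) (pr (V x))) (he : T * pr (V z) = S * pr (V z)) :
    z ⊓ g x ≤ z ⊓ k x := by
  rw [← C.le_iff, C.map_inf, C.map_inf, hg, hk]
  rintro _ ⟨h1, ξ, hξ, rfl⟩
  refine ⟨h1, pr (V z) ξ, (isProj_pr (C.closed x)).inv_of_commute hx.symm hξ, ?_⟩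
  have h2 : pr (V z) (T ξ) = T (pr (V z) ξ) := DFunLike.congr_fun hT ξ
  have h3 : T (pr (V z) ξ) = S (pr (V z) ξ) := DFunLike.congr_fun he ξ
  exact h3.symm.trans (h2.symm.trans ((isProj_pr (C.closed z)).self h1))

namespace Conc

theorem commute_of_proj (C : Conc o A V) {Q : H →L[ℂ] H} (hQ : ∀ x, Commute Q (pr (V x)))
    (hT : Commute T A) : Commute Q T := by
  have h1 := c1b_sa C hQ (IsSelfAdjoint.add_star_self T) (hT.add_left (C.commute_star hT))
  have hs : IsSelfAdjoint (Complex.I • (T - star T)) := by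
    rw [IsSelfAdjoint, star_smul, star_sub, star_star, Complex.star_def, Complex.conj_I, neg_smul,
      ← smul_neg, neg_sub]
  have h2 := c1b_sa C hQ hs ((hT.sub_left (C.commute_star hT)).smul_left _)
  have e : T = (2⁻¹ : ℂ) • ((T + star T) - Complex.I • (Complex.I • (T - star T))) := by
    rw [smul_smul, Complex.I_mul_I]
    module
  rw [e]
  exact (h1.sub_right (h2.smul_right _)).smul_right _

theorem cen_iff (C : Conc o A V) : Cen o z ↔ ∀ T, Commute T A → Commute (pr (V z)) T := by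
  have hP := isProj_pr (C.closed z)
  constructor
  · intro hz T hT
    refine C.commute_of_proj (fun x => ?_) hT
    rw [← red_iff_commute (C.closed z) (C.closed x), red_iff (C.closed z)]
    have h1 : V x = (V x ⊓ V z ⊔ V x ⊓ (V z)ᗮ).topologicalClosure := by
      rw [← C.orth, ← C.map_inf, ← C.map_inf, ← C.map_sup, ← hz x]
    have h2 : (V x ⊓ V z ⊔ V x ⊓ (V z)ᗮ).topologicalClosure ≤
        (V x).comap ((pr (V z) : H →L[ℂ] H) : H →ₗ[ℂ] H) := by
      refine clo_le ((C.closed x).preimage (pr (V z)).continuous) (sup_le ?_ ?_)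
      · intro ξ hξ
        change pr (V z) ξ ∈ V x
        rw [hP.self hξ.2]
        exact hξ.1
      · intro ξ hξ
        change pr (V z) ξ ∈ V x
        rw [hP.zero hξ.2]
        exact (V x).zero_mem
    rw [← h1] at h2
    exact fun ξ hξ => h2 hξ
  · intro h x
    refine le_antisymm ?_ (sup_le inf_le_left inf_le_left)
    rw [← C.le_iff, C.map_sup, C.map_inf, C.map_inf, C.orth]
    intro ξ hξ
    have h1 : pr (V z) ξ ∈ V x :=
      (isProj_pr (C.closed x)).inv_of_commute (h _ (C.commute_pr x)).symm hξ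
    refine Submodule.le_topologicalClosure _ (Submodule.mem_sup.2 ⟨pr (V z) ξ, ⟨h1, hP.mem ξ⟩,
      ξ - pr (V z) ξ, ⟨(V x).sub_mem hξ h1, hP.sub ξ⟩, add_sub_cancel _ _⟩)

theorem cen_of_inv (C : Conc o A V) (hz : ∀ T, Commute T A → ∀ ξ ∈ V z, T ξ ∈ V z) : Cen o z := by
  exact C.cen_iff.2 fun T hT => (isProj_pr (C.closed z)).commute (hz T hT)
    (orth_mem_Lat' (hz _ (C.commute_star hT))).2

theorem pr_inf_cen (C : Conc o A V) (hz : Cen o z) (x : L) :
    pr (V (z ⊓ x)) = pr (V z) * pr (V x) := by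
  rw [C.map_inf, pr_inf (C.closed z) (C.closed x) (C.cen_iff.1 hz _ (C.commute_pr x))]

/-- two subspaces have disjoint central covers if no operator of the commutant links them -/
theorem cov_disj_iff (C : Conc o A V) :
    cov o x ⊓ cov o y = ⊥ ↔ ∀ T, Commute T A → pr (V y) * T * pr (V x) = 0 := by
  have h := C.om
  constructor
  · intro h0 T hT
    have hz := h.cen_cov x
    have h1 : cov o x ≤ o y := h.perp_comm.1 ((h.le_cov y).trans ((h.le_o_iff hz).2 h0))
    rw [← C.le_iff, C.orth] at h1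
    ext1 ξ
    have h2 : pr (V x) ξ ∈ V (cov o x) :=
      (C.le_iff _ _).2 (h.le_cov x) ((isProj_pr (C.closed x)).mem ξ)
    exact (isProj_pr (C.closed y)).zero
      (h1 ((isProj_pr (C.closed _)).inv_of_commute (C.cen_iff.1 hz T hT) h2))
  · intro h0
    let M : Submodule ℂ H := ⨅ T : {T : H →L[ℂ] H // Commute T A},
      LinearMap.ker ((pr (V y) * T.1 : H →L[ℂ] H) : H →ₗ[ℂ] H)
    have hm : ∀ ξ, ξ ∈ M ↔ ∀ T, Commute T A → pr (V y) (T ξ) = 0 := fun ξ => by
      simp only [M, Submodule.mem_iInf, Subtype.forall]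
      rfl
    have hi : ∀ S, Commute S A → ∀ ξ ∈ M, S ξ ∈ M := fun S hS ξ hξ =>
      (hm _).2 fun T hT => (hm ξ).1 hξ (T * S) (hT.mul_left hS)
    have hc : IsClosed (M : Set H) := by
      simp only [M, Submodule.coe_iInf]
      exact isClosed_iInter fun T => (pr (V y) * T.1).isClosed_ker
    obtain ⟨z, hz⟩ := (C.range M).2 ⟨hc, hi A (Commute.refl A)⟩
    have h1 : Cen o z := C.cen_of_inv (hz ▸ hi)
    have h2 : x ≤ z := by
      rw [← C.le_iff, hz]
      refine fun ξ hξ => (hm ξ).2 fun T hT => ?_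
      have h3 : pr (V y) (T (pr (V x) ξ)) = 0 := DFunLike.congr_fun (h0 T hT) ξ
      rwa [(isProj_pr (C.closed x)).self hξ] at h3
    have h3 : z ≤ o y := by
      rw [← C.le_iff, hz, C.orth]
      exact fun ξ hξ => (isProj_pr (C.closed y)).orth_of_zero
        ((hm ξ).1 hξ 1 (Commute.one_left A))
    have h4 := (h.inf_eq_bot_iff h1).1 (h.inf_eq_bot_of_perp h3)
    exact le_bot_iff.1 (h4 ▸ inf_le_inf_right _ ((h.cov_le_iff h1).2 h2))

/-- a closed subspace which is reduced by the centre is invariant -/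
theorem mem_of_red (C : Conc o A V) {M : Submodule ℂ H} (hM : IsClosed (M : Set H))
    (hr : ∀ z, Cen o z → Red (V z) M) : M ∈ Lat A := by
  obtain ⟨X, _, E, Z, hZ, hE, hc⟩ := exists_setup A C.sa.isStarNormal
  have h1 : Commute (pr M) (E.Φ Z) := by
    refine commute_of_spec E (fun s hs => ?_) hZ
    have hP := E.Pr_proj hs
    obtain ⟨z, hz⟩ := C.exists_proj hP.isIdempotentElem hP.isSelfAdjoint
      (hc A (Commute.refl A) _ (BM.indicator_one hs)).symm
    have h2 : Cen o z := C.cen_iff.2 fun T hT => hz ▸ (hc T hT _ (BM.indicator_one hs)).symm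
    exact hz ▸ ((red_iff_commute (C.closed z) hM).1 (hr z h2)).symm
  rw [hE] at h1
  exact ⟨hM, fun ξ hξ => (isProj_pr hM).inv_of_commute h1 hξ⟩

theorem red_of_cen (C : Conc o A V) (hz : Cen o z) (x : L) : Red (V z) (V x) := by
  exact (red_iff_commute (C.closed z) (C.closed x)).2 (C.cen_iff.1 hz _ (C.commute_pr x))

theorem exists_ind (C : Conc o A V) (hT : Commute T A) (hS : Commute S A) (h1 : T * S = 1)
    (h2 : S * T = 1) : ∃ g : L ≃o L, Ind V T g := by
  choose f hf using c1b_map C hT h1 h2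
  choose f' hf' using c1b_map C hS h2 h1
  refine ⟨⟨⟨f, f', fun x => C.inj ?_, fun x => C.inj ?_⟩, ?_⟩, hf⟩
  · rw [hf', hf, c1b_map_map h2]
  · rw [hf, hf', c1b_map_map h1]
  · intro x y
    change f x ≤ f y ↔ x ≤ y
    rw [← C.le_iff, ← C.le_iff, hf, hf]
    refine ⟨fun h => ?_, Submodule.map_mono⟩
    rw [← c1b_map_map h2 (V x), ← c1b_map_map h2 (V y)]
    exact Submodule.map_mono h

theorem ind_fix (C : Conc o A V) (hg : Ind V T g) (hS : Commute S A) (h1 : T * S = 1)
    (hx : ∀ ξ ∈ V x, T ξ ∈ V x) (hx' : ∀ ξ ∈ V x, S ξ ∈ V x) : g x = x := by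
  refine C.inj ((hg x).trans (le_antisymm ?_ fun ξ hξ => ⟨S ξ, hx' ξ hξ, ?_⟩))
  · rintro _ ⟨ξ, hξ, rfl⟩
    exact hx ξ hξ
  · exact DFunLike.congr_fun h1 ξ

theorem ind_mul (C : Conc o A V) (hg : Ind V T g) (hk : Ind V S k) :
    Ind V (S * T) (g.trans k) := by
  intro x
  rw [OrderIso.trans_apply, hk, hg, ← Submodule.map_comp]
  rfl

theorem ind_ext (C : Conc o A V) (hg : Ind V T g) (hk : Ind V T k) : g = k := by
  ext x
  exact C.inj ((hg x).trans (hk x).symm)

/-- operators which agree on a central part induce the same automorphism there -/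
theorem ind_loc (C : Conc o A V) (hg : Ind V T g) (hk : Ind V S k) (hT : Commute T A)
    (hS : Commute S A) (hz : Cen o z) (he : T * pr (V z) = S * pr (V z)) (x : L) :
    z ⊓ g x = z ⊓ k x := by
  exact le_antisymm (c1b_loc C hg hk (C.cen_iff.1 hz T hT) (C.cen_iff.1 hz _ (C.commute_pr x)) he)
    (c1b_loc C hk hg (C.cen_iff.1 hz S hS) (C.cen_iff.1 hz _ (C.commute_pr x)) he.symm)

theorem ind_star (C : Conc o A V) (hg : Ind V T g) (hk : Ind V (star T) k) (h1 : T * S = 1)
    (h2 : S * T = 1) (x : L) : k (o (g x)) = o x := by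
  have e : ∀ u, S (T u) = u := fun u => DFunLike.congr_fun h2 u
  refine C.inj ?_
  rw [hk, C.orth, C.orth, hg]
  refine le_antisymm ?_ fun ζ hζ => ⟨star S ζ, mem_orth.2 ?_, ?_⟩
  · rintro _ ⟨η, hη, rfl⟩
    refine mem_orth.2 fun u hu => ?_
    exact (inner_star_right T u η).trans (mem_orth.1 hη _ ⟨u, hu, rfl⟩)
  · rintro _ ⟨u, hu, rfl⟩
    refine (inner_star_right S (T u) ζ).trans ?_
    rw [e]
    exact mem_orth.1 hζ u hu
  · have h3 : star T * star S = 1 := by rw [← star_mul, h2, star_one]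
    exact DFunLike.congr_fun h3 ζ

end Conc

end Pool.Agent.P.MP_d8da86_an.CR
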