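import Pool.Agent.P.MP_d8da86_an.C.C1b

/-!
Points of the lattice of a self-adjoint operator.
Hints. `pt_iff` (→): every projection below p is pr z * pr p with z central. For self-adjoint
X in Cp the spectral projections E of X commute with A and pr p, E * pr p is such a projection, so
Y = Y * pr p commutes with E; `commute_of_spec`. (←): for x ≤ p and y = p ⊓ o x one has
pr y * T * pr x = pr y * (pr p * T * pr p) * pr x = pr y * pr x * (..) = 0, `cov_disj_iff`.
`pt_cyc`: for Z in Cp and a polynomial b in A: ⟪star Z ξ, b ξ⟫ = ⟪star b ξ, Z ξ⟫ and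
‖star b ξ‖ = ‖b ξ‖, so ‖star Z ξ‖ ≤ ‖Z ξ‖; apply to Z * star a to see that Z is normal; if all
X + i Y are normal then self-adjoint X, Y commute.
`pt_im`: Q = T * pr p, q the closure of the range. For S1, S2 in Cp q the operators star Q * Si * Q
commute; cancel Q (dense range in q): S1 * G * S2 = S2 * G * S1 with G = Q * star Q; S2 = pr q gives
S1 * G = G * S1; G is injective on q. `cover`: (x ⊔ p) ⊓ o x is the closure of pr (o x) (V p).
-/

open scoped InnerProductSpace ComplexConjugate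

set_option linter.unusedSectionVars false
set_option linter.unusedVariables false

noncomputable section

namespace Pool.Agent.P.MP_d8da86_an.CR

universe u

variable {H : Type*} [NormedAddCommGroup H] [InnerProductSpace ℂ H] [CompleteSpace H]
  {L : Type*} [CompleteLattice L] {o : L → L} {A : H →L[ℂ] H} {V : L → Submodule ℂ H}
  {a b p q x y z w : L} {S T X Y : H →L[ℂ] H} {g k : L ≃o L}

theorem c2_star {M : Submodule ℂ H} (hA : IsSelfAdjoint A) (hM : IsClosed (M : Set H))
    (hX : Cp A M X) : Cp A M (star X) := by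
  refine ⟨?_, ?_, ?_⟩
  · have := hX.1.star_star
    rwa [hA.star_eq] at this
  · have := congrArg star hX.2.2
    rwa [star_mul, star_pr hM] at this
  · have := congrArg star hX.2.1
    rwa [star_mul, star_pr hM] at this

theorem c2_add {M : Submodule ℂ H} (hX : Cp A M X) (hY : Cp A M Y) : Cp A M (X + Y) :=
  ⟨hX.1.add_left hY.1, by rw [add_mul, hX.2.1, hY.2.1], by rw [mul_add, hX.2.2, hY.2.2]⟩

theorem c2_smul {M : Submodule ℂ H} (c : ℂ) (hX : Cp A M X) : Cp A M (c • X) :=
  ⟨hX.1.smul_left c, by rw [smul_mul_assoc, hX.2.1], by rw [mul_smul_comm, hX.2.2]⟩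

theorem c2_decomp {M : Submodule ℂ H} (hA : IsSelfAdjoint A) (hM : IsClosed (M : Set H))
    (hX : Cp A M X) : ∃ X₁ X₂, Cp A M X₁ ∧ Cp A M X₂ ∧ star X₁ = X₁ ∧ star X₂ = X₂ ∧
      X = X₁ + Complex.I • X₂ := by
  have hs := c2_star hA hM hX
  refine ⟨(1 / 2 : ℂ) • (X + star X), (Complex.I / 2) • (star X + (-1 : ℂ) • X),
    c2_smul _ (c2_add hX hs), c2_smul _ (c2_add hs (c2_smul _ hX)), ?_, ?_, ?_⟩
  · simp [add_comm]
  · simp only [star_smul, star_add, star_star, RCLike.star_def, map_div₀, Complex.conj_I,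
      map_neg, map_one, map_ofNat]
    module
  · rw [smul_smul, show Complex.I * (Complex.I / 2) = -(1 / 2 : ℂ) by
      rw [← mul_div_assoc, Complex.I_mul_I]; ring]
    module

theorem c2_of_sa {M : Submodule ℂ H} (hA : IsSelfAdjoint A) (hM : IsClosed (M : Set H))
    (h : ∀ X Y, Cp A M X → Cp A M Y → star X = X → star Y = Y → Commute X Y)
    (hX : Cp A M X) (hY : Cp A M Y) : Commute X Y := by
  obtain ⟨X₁, X₂, a1, a2, a3, a4, rfl⟩ := c2_decomp hA hM hX
  obtain ⟨Y₁, Y₂, b1, b2, b3, b4, rfl⟩ := c2_decomp hA hM hY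
  exact ((h _ _ a1 b1 a3 b3).add_right ((h _ _ a1 b2 a3 b4).smul_right _)).add_left
    (((h _ _ a2 b1 a4 b3).add_right ((h _ _ a2 b2 a4 b4).smul_right _)).smul_left _)

theorem c2_commute_of_normal (hX : star X = X) (hY : star Y = Y)
    (h : star (X + Complex.I • Y) * (X + Complex.I • Y) =
      (X + Complex.I • Y) * star (X + Complex.I • Y)) : Commute X Y := by
  rw [star_add, star_smul, hX, hY, RCLike.star_def, Complex.conj_I] at h
  simp only [add_mul, mul_add, smul_mul_assoc, mul_smul_comm, smul_smul] at h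
  have h2 : (2 * Complex.I) • (X * Y - Y * X) = 0 := by
    have h3 := sub_eq_zero.2 h
    rw [← h3]
    module
  rcases smul_eq_zero.1 h2 with h4 | h4
  · exact absurd h4 (by simp)
  · exact sub_eq_zero.1 h4

/-- the bicommutant -/
def c2_Bc (A b : H →L[ℂ] H) : Prop := ∀ T, Commute T A → Commute T b

theorem c2_Bc_star (hA : IsSelfAdjoint A) {b : H →L[ℂ] H} (hb : c2_Bc A b) :
    c2_Bc A (star b) := by
  intro T hT
  have h1 : Commute (star T) A := by
    have := hT.star_star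
    rwa [hA.star_eq] at this
  have := (hb _ h1).star_star
  rwa [star_star] at this

theorem c2_Bc_norm (hA : IsSelfAdjoint A) {b : H →L[ℂ] H} (hb : c2_Bc A b) (η : H) :
    ‖(star b) η‖ = ‖b η‖ := by
  have h1 : Commute b (star b) := c2_Bc_star hA hb b (hb A (Commute.refl A)).symm
  have h2 := norm_sq_apply (star b) η
  rw [star_star, h1.eq, ← norm_sq_apply] at h2
  exact (pow_left_inj₀ (norm_nonneg _) (norm_nonneg _) two_ne_zero).1 h2

theorem c2_span {ξ η : H} (h : η ∈ Submodule.span ℂ (Set.range fun n : ℕ => (A ^ n) ξ)) :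
    ∃ b, c2_Bc A b ∧ η = b ξ := by
  induction h using Submodule.span_induction with
  | mem x hx =>
    obtain ⟨n, rfl⟩ := hx
    exact ⟨A ^ n, fun T hT => hT.pow_right n, rfl⟩
  | zero => exact ⟨0, fun T _ => Commute.zero_right T, rfl⟩
  | add x y _ _ hx hy =>
    obtain ⟨b, hb, rfl⟩ := hx
    obtain ⟨c, hc, rfl⟩ := hy
    exact ⟨b + c, fun T hT => (hb T hT).add_right (hc T hT), rfl⟩
  | smul c x _ hx =>
    obtain ⟨b, hb, rfl⟩ := hx
    exact ⟨c • b, fun T hT => (hb T hT).smul_right c, rfl⟩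

theorem c2_cyc_ind {ξ : H} {s : Set H} (hs : IsClosed s) (h : ∀ b, c2_Bc A b → b ξ ∈ s) {η : H}
    (hη : η ∈ cyc A ξ) : η ∈ s := by
  have : closure (Submodule.span ℂ (Set.range fun n : ℕ => (A ^ n) ξ) : Set H) ⊆ s := by
    refine closure_minimal (fun ζ hζ => ?_) hs
    obtain ⟨b, hb, rfl⟩ := c2_span hζ
    exact h b hb
  exact this hη

theorem c2_star_le (hA : IsSelfAdjoint A) {ξ : H} (hX : Cp A (cyc A ξ) X) :
    ‖(star X) ξ‖ ≤ ‖X ξ‖ := by
  have hM : IsClosed (cyc A ξ : Set H) := (cyc_mem_Lat A ξ).1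
  have hs := c2_star hA hM hX
  have hmem : (star X) ξ ∈ cyc A ξ := by
    rw [← hs.2.2]
    exact (isProj_pr hM).mem _
  have key : (star X) ξ ∈ {η : H | ‖⟪(star X) ξ, η⟫_ℂ‖ ≤ ‖η‖ * ‖X ξ‖} := by
    refine c2_cyc_ind (isClosed_le (by fun_prop) (by fun_prop)) (fun b hb => ?_) hmem
    change ‖⟪(star X) ξ, b ξ⟫_ℂ‖ ≤ ‖b ξ‖ * ‖X ξ‖
    have e : X (b ξ) = b (X ξ) := DFunLike.congr_fun (hb X hX.1) ξ
    rw [inner_star_left, e, ← inner_star_left, ← c2_Bc_norm hA hb]
    exact norm_inner_le_norm _ _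
  change ‖⟪(star X) ξ, (star X) ξ⟫_ℂ‖ ≤ ‖(star X) ξ‖ * ‖X ξ‖ at key
  rw [inner_self_eq_norm_sq_to_K, norm_pow, RCLike.norm_ofReal, abs_norm, sq] at key
  by_cases h0 : ‖(star X) ξ‖ = 0
  · rw [h0]; exact norm_nonneg _
  · exact le_of_mul_le_mul_left key (lt_of_le_of_ne (norm_nonneg _) (Ne.symm h0))

theorem c2_normal (hA : IsSelfAdjoint A) {ξ : H} (hP : Commute (pr (cyc A ξ)) A)
    (hX : Cp A (cyc A ξ) X) : star X * X = X * star X := by
  have hM : IsClosed (cyc A ξ : Set H) := (cyc_mem_Lat A ξ).1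
  have hs := c2_star hA hM hX
  have eq1 : ∀ Z, Cp A (cyc A ξ) Z → ‖(star Z) ξ‖ = ‖Z ξ‖ := fun Z hZ =>
    le_antisymm (c2_star_le hA hZ) (by
      have := c2_star_le hA (c2_star hA hM hZ)
      rwa [star_star] at this)
  have eq2 : ∀ η ∈ cyc A ξ, η ∈ {η : H | ‖(star X) η‖ = ‖X η‖} := by
    intro η hη
    refine c2_cyc_ind (isClosed_eq (by fun_prop) (by fun_prop)) (fun b hb => ?_) hη
    change ‖(star X) (b ξ)‖ = ‖X (b ξ)‖
    have hZ : Cp A (cyc A ξ) (X * b) :=
      ⟨hX.1.mul_left (hb A (Commute.refl A)).symm,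
        by rw [mul_assoc, ← (hb _ hP).eq, ← mul_assoc, hX.2.1], by rw [← mul_assoc, hX.2.2]⟩
    have h1 := eq1 _ hZ
    rw [star_mul] at h1
    change ‖(star b) ((star X) ξ)‖ = ‖X (b ξ)‖ at h1
    have e : (star X) (b ξ) = b ((star X) ξ) := DFunLike.congr_fun (hb _ hs.1) ξ
    rw [e, ← h1, c2_Bc_norm hA hb]
  have eq3 : ∀ η, ‖(star X) η‖ = ‖X η‖ := by
    intro η
    have h1 : ‖(star X) (pr (cyc A ξ) η)‖ = ‖X (pr (cyc A ξ) η)‖ := eq2 _ ((isProj_pr hM).mem η)
    have h2 : (star X) (pr (cyc A ξ) η) = (star X) η := DFunLike.congr_fun hs.2.1 η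
    have h3 : X (pr (cyc A ξ) η) = X η := DFunLike.congr_fun hX.2.1 η
    rwa [h2, h3] at h1
  have : IsStarNormal X := by
    rw [ContinuousLinearMap.isStarNormal_iff_norm_eq_adjoint]
    intro η
    rw [← ContinuousLinearMap.star_eq_adjoint, eq3]
  exact this.star_comm_self

theorem c2_cancel {M : Submodule ℂ H} (hM : IsClosed (M : Set H)) {W : H →L[ℂ] H}
    (h : W * (T * pr M) = 0) : W * pr (im T M) = 0 := by
  have hc : IsClosed (im T M : Set H) := Submodule.isClosed_topologicalClosure _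
  have : im T M ≤ LinearMap.ker (W : H →ₗ[ℂ] H) := by
    refine clo_le W.isClosed_ker ?_
    rintro _ ⟨η, hη, rfl⟩
    have h1 : W (T (pr M η)) = 0 := DFunLike.congr_fun h η
    rw [(isProj_pr hM).self hη] at h1
    exact h1
  ext1 η
  exact this ((isProj_pr hc).mem η)

theorem c2_cancel' {M : Submodule ℂ H} (hM : IsClosed (M : Set H)) {W : H →L[ℂ] H}
    (h : star (T * pr M) * W = 0) : pr (im T M) * W = 0 := by
  have hc : IsClosed (im T M : Set H) := Submodule.isClosed_topologicalClosure _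
  have h1 : star W * (T * pr M) = 0 := by
    have := congrArg star h
    rwa [star_mul, star_star, star_zero] at this
  have := congrArg star (c2_cancel hM h1)
  rwa [star_mul, star_star, star_zero, star_pr hc] at this

namespace Conc

theorem pt_iff (C : Conc o A V) :
    Pt o p ↔ ∀ X Y, Cp A (V p) X → Cp A (V p) Y → Commute X Y := by
  have hM := C.closed p
  have hPA := C.commute_pr p
  constructor
  · intro hp X Y hX hY
    refine c2_of_sa C.sa hM (fun X Y hX hY hsX _ => ?_) hX hY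
    have hn : IsStarNormal X := ⟨by rw [hsX]⟩
    obtain ⟨Ω, _, E, Z, hZ, hZX, hE⟩ := exists_setup X hn
    have hPX : Commute (pr (V p)) X := hX.2.2.trans hX.2.1.symm
    have hPY : Commute (pr (V p)) Y := hY.2.2.trans hY.2.1.symm
    rw [← hZX]
    refine (commute_of_spec E (fun s hs => ?_) hZ).symm
    have e1 : Commute A (E.Pr s) := hE A hX.1.symm _ (BM.indicator_one hs)
    have e2 : Commute (pr (V p)) (E.Pr s) := hE _ hPX _ (BM.indicator_one hs)
    have e3 := E.Pr_proj hs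
    obtain ⟨x, hx⟩ := C.exists_proj (Q := E.Pr s * pr (V p))
      (by rw [mul_assoc, ← mul_assoc (pr (V p)), e2.eq, mul_assoc, pr_idem hM, ← mul_assoc,
        e3.isIdempotentElem.eq])
      (by rw [star_mul, star_pr hM, e3.isSelfAdjoint.star_eq, e2.eq])
      (e1.symm.mul_left hPA)
    have hxp : x ≤ p := by
      rw [← C.le_iff]
      intro ξ hξ
      have h1 := (pr_eq_self_iff (C.closed x)).2 hξ
      rw [hx, ← e2.eq] at h1
      rw [← h1]
      exact (isProj_pr hM).mem _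
    obtain ⟨z, hz, hxz⟩ := hp x hxp
    rw [hxz, inf_comm, C.pr_inf_cen hz] at hx
    have e4 : Commute (E.Pr s * pr (V p)) Y := by
      rw [← hx]
      exact (C.cen_iff.1 hz Y hY.1).mul_left hPY
    calc Y * E.Pr s = Y * pr (V p) * E.Pr s := by rw [hY.2.1]
      _ = Y * (E.Pr s * pr (V p)) := by rw [mul_assoc, e2.eq]
      _ = E.Pr s * pr (V p) * Y := e4.eq.symm
      _ = E.Pr s * Y := by rw [mul_assoc, hY.2.2]
  · intro h x hx
    have hom := C.om
    have hx' := pr_mul_of_le hM (C.closed x) ((C.le_iff _ _).2 hx)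
    have hy' := pr_mul_of_le hM (C.closed (p ⊓ o x)) ((C.le_iff _ _).2 inf_le_left)
    have hyx : pr (V (p ⊓ o x)) * pr (V x) = 0 := by
      have h1 := (pr_mul_of_le (C.closed (o x)) (C.closed (p ⊓ o x))
        ((C.le_iff _ _).2 inf_le_right)).2
      rw [C.pr_o, mul_sub, mul_one, sub_eq_self] at h1
      exact h1
    have hd : cov o x ⊓ cov o (p ⊓ o x) = ⊥ := by
      rw [C.cov_disj_iff]
      intro T hT
      have h1 : Cp A (V p) (pr (V p) * T * pr (V p)) :=
        ⟨(hPA.mul_left hT).mul_left hPA, by rw [mul_assoc, pr_idem hM],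
          by rw [← mul_assoc, ← mul_assoc, pr_idem hM]⟩
      have h2 := h _ _ h1 ⟨C.commute_pr x, hx'.2, hx'.1⟩
      calc pr (V (p ⊓ o x)) * T * pr (V x)
          = pr (V (p ⊓ o x)) * pr (V p) * T * (pr (V p) * pr (V x)) := by rw [hy'.2, hx'.1]
        _ = pr (V (p ⊓ o x)) * (pr (V p) * T * pr (V p) * pr (V x)) := by
            simp only [mul_assoc]
        _ = 0 := by rw [h2.eq, ← mul_assoc, hyx, zero_mul]
    refine ⟨cov o x, hom.cen_cov x, ?_⟩
    have h3 : cov o x ⊓ (p ⊓ o x) = ⊥ :=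
      le_bot_iff.1 (hd ▸ inf_le_inf_left _ (hom.le_cov _))
    calc x = cov o x ⊓ x ⊔ cov o x ⊓ (p ⊓ o x) := by
          rw [h3, sup_bot_eq, inf_eq_right.2 (hom.le_cov x)]
      _ = cov o x ⊓ (x ⊔ p ⊓ o x) := (hom.inf_sup (hom.cen_cov x) _ _).symm
      _ = p ⊓ cov o x := by rw [hom.om x p hx, inf_comm]

theorem pt_cyc (C : Conc o A V) {ξ : H} (hp : V p = cyc A ξ) : Pt o p := by
  have hM := C.closed p
  have hPA := C.commute_pr p
  rw [C.pt_iff]
  intro X Y hX hY
  refine c2_of_sa C.sa hM (fun X Y hX hY hsX hsY => ?_) hX hY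
  rw [hp] at hX hY hPA
  exact c2_commute_of_normal hsX hsY (c2_normal C.sa hPA (c2_add hX (c2_smul _ hY)))

theorem pt_im (C : Conc o A V) (hp : Pt o p) (hT : Commute T A) (hq : V q = im T (V p)) :
    Pt o q := by
  have hM := C.closed p
  have hN := C.closed q
  have hPA := C.commute_pr p
  rw [C.pt_iff] at hp ⊢
  obtain ⟨Q, hQ⟩ : ∃ Q, Q = T * pr (V p) := ⟨_, rfl⟩
  have hQA : Commute Q A := hQ ▸ hT.mul_left hPA
  have hQP : Q * pr (V p) = Q := by rw [hQ, mul_assoc, pr_idem hM]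
  have hPQ : pr (V p) * star Q = star Q := by
    have := congrArg star hQP
    rwa [star_mul, star_pr hM] at this
  have hNQ : pr (V q) * Q = Q := by
    ext1 η
    refine (isProj_pr hN).self ?_
    rw [hq, hQ]
    exact Submodule.le_topologicalClosure _ ⟨_, (isProj_pr hM).mem η, rfl⟩
  have hQN : star Q * pr (V q) = star Q := by
    have := congrArg star hNQ
    rwa [star_mul, star_pr hN] at this
  have c1 : ∀ W : H →L[ℂ] H, W * Q = 0 → W * pr (V q) = 0 := fun W h => by
    rw [hq]; exact c2_cancel hM (hQ ▸ h)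
  have c2 : ∀ W : H →L[ℂ] H, star Q * W = 0 → pr (V q) * W = 0 := fun W h => by
    rw [hq]; exact c2_cancel' hM (hQ ▸ h)
  have cp : ∀ S, Cp A (V q) S → Cp A (V p) (star Q * S * Q) := fun S hS =>
    ⟨((C.commute_star hQA).mul_left hS.1).mul_left hQA, by rw [mul_assoc, hQP],
      by rw [← mul_assoc, ← mul_assoc, hPQ]⟩
  have key : ∀ S₁ S₂, Cp A (V q) S₁ → Cp A (V q) S₂ →
      S₁ * (Q * star Q) * S₂ = S₂ * (Q * star Q) * S₁ := by
    intro S₁ S₂ h₁ h₂
    have h3 := (hp _ _ (cp _ h₁) (cp _ h₂)).eq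
    have h4 : star Q * ((S₁ * (Q * star Q) * S₂ - S₂ * (Q * star Q) * S₁) * Q) = 0 := by
      rw [← sub_eq_zero] at h3
      rw [← h3]
      simp only [mul_sub, sub_mul, mul_assoc]
    have h5 := c2 _ h4
    have e5 : pr (V q) * (S₁ * (Q * star Q) * S₂ - S₂ * (Q * star Q) * S₁) =
        S₁ * (Q * star Q) * S₂ - S₂ * (Q * star Q) * S₁ := by
      simp only [mul_sub, ← mul_assoc, h₁.2.2, h₂.2.2]
    rw [← mul_assoc, e5] at h5
    have h6 := c1 _ h5
    rw [sub_mul, mul_assoc _ S₂, mul_assoc _ S₁, h₁.2.1, h₂.2.1, sub_eq_zero] at h6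
    exact h6
  have hG : ∀ S, Cp A (V q) S → S * (Q * star Q) = Q * star Q * S := by
    intro S hS
    have := key S _ hS ⟨C.commute_pr q, pr_idem hN, pr_idem hN⟩
    rwa [mul_assoc, mul_assoc, hQN, ← mul_assoc (pr (V q)), hNQ] at this
  intro X Y hX hY
  have h7 := key X Y hX hY
  rw [hG X hX, hG Y hY] at h7
  have h8 : star Q * (X * Y - Y * X) = 0 := by
    rw [← CStarRing.star_mul_self_eq_zero_iff, star_mul, star_star, mul_assoc,
      ← mul_assoc Q, mul_sub, ← mul_assoc, ← mul_assoc, h7, sub_self, mul_zero]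
  have h9 := c2 _ h8
  rw [mul_sub, ← mul_assoc, ← mul_assoc, hX.2.2, hY.2.2, sub_eq_zero] at h9
  exact h9

theorem geo (C : Conc o A V) : Geo o := by
  refine ⟨C.om, fun x hx => ?_, fun p x hp => ?_⟩
  · have h1 : V x ≠ ⊥ := fun h => hx (C.inj (h.trans C.map_bot.symm))
    obtain ⟨ξ, hξ, h0⟩ := (Submodule.ne_bot_iff _).1 h1
    obtain ⟨p, hp⟩ := (C.range _).2 (cyc_mem_Lat A ξ)
    refine ⟨p, C.pt_cyc hp, fun h => h0 ?_, ?_⟩
    · have := self_mem_cyc A ξ
      rwa [← hp, h, C.map_bot, Submodule.mem_bot] at this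
    · rw [← C.le_iff, hp]
      exact cyc_le (C.mem x) hξ
  · refine C.pt_im hp (C.commute_pr (o x)) ?_
    have hx := isProj_pr (C.closed x)
    have hox := isProj_pr (C.closed (o x))
    have hc : IsClosed (im (pr (V (o x))) (V p) : Set H) := Submodule.isClosed_topologicalClosure _
    apply le_antisymm
    · intro ζ hζ
      rw [C.map_inf, C.map_sup] at hζ
      have h1 : (V x ⊔ V p).topologicalClosure ≤
          (im (pr (V (o x))) (V p)).comap (pr (V (o x)) : H →ₗ[ℂ] H) := by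
        refine clo_le (hc.preimage (pr (V (o x))).continuous) (sup_le ?_ ?_)
        · intro η hη
          have : pr (V (o x)) η = 0 := hox.zero (by rw [C.orth, orth_orth (C.closed x)]; exact hη)
          change pr (V (o x)) η ∈ im (pr (V (o x))) (V p)
          rw [this]
          exact Submodule.zero_mem _
        · intro η hη
          exact Submodule.le_topologicalClosure _ ⟨η, hη, rfl⟩
      have h2 : pr (V (o x)) ζ ∈ im (pr (V (o x))) (V p) := h1 hζ.1
      rwa [hox.self hζ.2] at h2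
    · refine clo_le (C.closed _) ?_
      rintro _ ⟨η, hη, rfl⟩
      rw [C.map_inf, C.map_sup]
      refine ⟨Submodule.le_topologicalClosure _ ?_, hox.mem η⟩
      change pr (V (o x)) η ∈ V x ⊔ V p
      rw [C.pr_o]
      exact Submodule.sub_mem _ (Submodule.mem_sup_right hη) (Submodule.mem_sup_left (hx.mem η))

end Conc

end Pool.Agent.P.MP_d8da86_an.CR
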