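import Pool.Agent.P.MP_d8da86_an.C.C1b

/-!
The centre is countably generated and carries enough normal measures.
Hints. `meas`: m z = ‖pr (V z) ξ‖ ^ 2. `gen`: take E, Z from `exists_setup`, e n the range of
E.Pr {re Z ≤ q n} for an enumeration q of ℚ. S contains the ranges of E.Pr (Z.re ⁻¹' s) for all Borel
s (induction on the Borel sets; countable unions are joins), and is closed under sInf. For central
z and ξ ∈ V z let y be the infimum of the t in S with ξ ∈ V t. If η ∈ V (y ⊓ o z) then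
ξ = pr z (ξ + η) ∈ cyc A (ξ + η), so there are polynomials a n with a n (A) ξ → ξ and a n (A) η → 0
fast. A = E.Φ (re Z) (A is self-adjoint), B n = {‖a n (re Z)‖ > 1 / 2}; μ ξ (B n)ᶜ and μ η (B n) are
summable, so B = liminf B n has E.Pr B ξ = ξ and E.Pr B η = 0; y ≤ range, so η = 0. Hence y ≤ z and z
is the join of these y.
-/

open scoped InnerProductSpace ComplexConjugate

set_option linter.unusedSectionVars false
set_option linter.unusedVariables false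

noncomputable section

namespace Pool.Agent.P.MP_d8da86_an.CR

universe u

variable {H : Type*} [NormedAddCommGroup H] [InnerProductSpace ℂ H] [CompleteSpace H]
  {L : Type*} [CompleteLattice L] {o : L → L} {A : H →L[ℂ] H} {V : L → Submodule ℂ H}
  {a b p q x y z w : L} {S T X Y : H →L[ℂ] H} {g k : L ≃o L}

theorem c3_inner {M : Submodule ℂ H} {P : H →L[ℂ] H} (h : IsProj M P) {u : H} (hu : u ∈ M)
    (ξ : H) : ⟪u, ξ⟫_ℂ = ⟪u, P ξ⟫_ℂ := by
  rw [← h.symm, h.self hu]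

theorem c3_le {M : Submodule ℂ H} {P : H →L[ℂ] H} (h : IsProj M P) {u : H} (hu : u ∈ M) (ξ : H) :
    2 * RCLike.re ⟪u, ξ⟫_ℂ - ‖u‖ ^ 2 ≤ ‖P ξ‖ ^ 2 := by
  have h1 := re_inner_le_norm (𝕜 := ℂ) u (P ξ)
  rw [c3_inner h hu]
  nlinarith [sq_nonneg (‖u‖ - ‖P ξ‖)]

theorem c3_eq {M : Submodule ℂ H} {P : H →L[ℂ] H} (h : IsProj M P) (ξ : H) :
    2 * RCLike.re ⟪P ξ, ξ⟫_ℂ - ‖P ξ‖ ^ 2 = ‖P ξ‖ ^ 2 := by
  rw [c3_inner h (h.mem ξ), inner_self_eq_norm_sq]
  ring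

theorem c3_add (C : Conc o A V) (h : w ≤ o z) (ξ : H) :
    ‖pr (V (z ⊔ w)) ξ‖ ^ 2 = ‖pr (V z) ξ‖ ^ 2 + ‖pr (V w) ξ‖ ^ 2 := by
  have hz := isProj_pr (C.closed z)
  have hw := isProj_pr (C.closed w)
  have h1 : V w ≤ (V z)ᗮ := by rwa [← C.orth, C.le_iff]
  have h2 : V z ≤ (V w)ᗮ := by rwa [← C.orth, C.le_iff, C.om.perp_comm]
  have h3 : pr (V (z ⊔ w)) ξ = pr (V z) ξ + pr (V w) ξ := by
    refine (isProj_pr (C.closed _)).unique ((V _).add_mem ((C.le_iff _ _).2 le_sup_left (hz.mem ξ))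
      ((C.le_iff _ _).2 le_sup_right (hw.mem ξ))) ?_
    rw [C.map_sup, orth_clo, mem_orth_sup]
    constructor
    · rw [← sub_sub]
      exact Submodule.sub_mem _ (hz.sub ξ) (h1 (hw.mem ξ))
    · rw [add_comm, ← sub_sub]
      exact Submodule.sub_mem _ (hw.sub ξ) (h2 (hz.mem ξ))
  rw [h3, sq, sq, sq]
  exact norm_add_sq_eq_norm_sq_add_norm_sq_of_inner_eq_zero _ _
    (mem_orth.1 (h1 (hw.mem ξ)) _ (hz.mem ξ))

theorem c3_lub (C : Conc o A V) (ξ : H) {D : Set L} (hD : D.Nonempty)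
    (hd : DirectedOn (· ≤ ·) D) :
    IsLUB ((fun z => ‖pr (V z) ξ‖ ^ 2) '' D) (‖pr (V (sSup D)) ξ‖ ^ 2) := by
  have hP := isProj_pr (C.closed (sSup D))
  constructor
  · rintro _ ⟨z, hz, rfl⟩
    have hz' := isProj_pr (C.closed z)
    exact (c3_eq hz' ξ).symm.le.trans (c3_le hP ((C.le_iff _ _).2 (le_sSup hz) (hz'.mem ξ)) ξ)
  · intro r hr
    have hc : IsClosed {u : H | 2 * RCLike.re ⟪u, ξ⟫_ℂ - ‖u‖ ^ 2 ≤ r} :=
      isClosed_le (by fun_prop) continuous_const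
    have h1 : ((⨆ x ∈ D, V x : Submodule ℂ H) : Set H) ⊆
        {u : H | 2 * RCLike.re ⟪u, ξ⟫_ℂ - ‖u‖ ^ 2 ≤ r} := by
      intro u hu
      rw [← sSup_image, SetLike.mem_coe, Submodule.mem_sSup_of_directed (hD.image V)
        (hd.mono_comp fun x y h => (C.le_iff x y).2 h)] at hu
      obtain ⟨_, ⟨x, hx, rfl⟩, hu⟩ := hu
      exact (c3_le (isProj_pr (C.closed x)) hu ξ).trans (hr ⟨x, hx, rfl⟩)
    have h2 : pr (V (sSup D)) ξ ∈ (⨆ x ∈ D, V x).topologicalClosure :=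
      (C.map_sSup D).le (hP.mem ξ)
    exact (c3_eq hP ξ).symm.le.trans (closure_minimal h1 hc h2)

theorem Conc.meas (C : Conc o A V) : MeasAx o := by
  intro z hz h0
  obtain ⟨ξ, h1, h2⟩ := (V z).ne_bot_iff.1 fun e => h0 (C.inj (e.trans C.map_bot.symm))
  refine ⟨fun w => ‖pr (V w) ξ‖ ^ 2, ⟨fun w _ => sq_nonneg _,
    fun x w hx _ h => c3_add C ((C.om.le_o_iff hx).2 h) ξ,
    fun D _ hD hd => c3_lub C ξ hD hd⟩, ?_⟩
  dsimp only
  rw [(isProj_pr (C.closed z)).self h1]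
  exact pow_pos (norm_pos_iff.2 h2) 2

end Pool.Agent.P.MP_d8da86_an.CR
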