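import Pool.Agent.P.MP_d8da86_an.C.C3

/-!
The centre is countably generated and carries enough normal measures.
Hints. `meas`: m z = ‖pr (V z) ξ‖ ^ 2. `gen`: take E, Z from `exists_setup`, e n the range of
E.Pr {re Z ≤ q n} for an enumeration q of ℚ. S contains the ranges of E.Pr (Z.re ⁻¹' s) for all Borel
s (induction on the Borel sets; countable unions are joins), and is closed under sInf. For central
z and ξ ∈ V z let y be the infimum of the t in S with ξ ∈ V t. If η ∈ V (y ⊓ o z) then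
ξ = pr z (ξ + η) ∈ cyc A (ξ + η), so there are polynomials a n with a n (A) ξ → ξ and a n (A) η → 0
fast. A = E.Φ (re Z) (A is self-adjoint), B n = {‖a n (re Z)‖ > 1 / 2}; μ ξ (B n)ᶜ and μ η (B n) are
summable, so B = liminf B n has E.Pr B ξ = ξ and E.Pr B η = 0; y ≤ range, so η = 0. Hence y ≤ z and z
is the join of these y.
-/

open scoped InnerProductSpace ComplexConjugate

set_option linter.unusedSectionVars false
set_option linter.unusedVariables false

noncomputable section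

namespace Pool.Agent.P.MP_d8da86_an.CR

universe u

variable {H : Type*} [NormedAddCommGroup H] [InnerProductSpace ℂ H] [CompleteSpace H]
  {L : Type*} [CompleteLattice L] {o : L → L} {A : H →L[ℂ] H} {V : L → Submodule ℂ H}
  {a b p q x y z w : L} {S T X Y : H →L[ℂ] H} {g k : L ≃o L}

open MeasureTheory Filter

theorem c3b_setup (hA : IsSelfAdjoint A) : ∃ (E : SpecCalc ℂ H) (Z : ℂ → ℂ), BM Z ∧ E.Φ Z = A ∧
    ∀ S : H →L[ℂ] H, Commute S A → ∀ f, BM f → Commute S (E.Φ f) := by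
  obtain ⟨Ω, _, E, Z, hZ, hE, hc⟩ := exists_setup A hA.isStarNormal
  obtain ⟨E', h1, -⟩ := E.exists_map hZ.1
  obtain ⟨K, hK⟩ := hZ.2
  have hm : MeasurableSet {l : ℂ | ‖l‖ ≤ K} := measurableSet_le measurable_norm measurable_const
  refine ⟨E', {l : ℂ | ‖l‖ ≤ K}.indicator id, BM.indicator_of_bdd measurable_id hm K fun l hl => hl,
    ?_, fun S hS f hf => ?_⟩
  · rw [h1, ← hE]
    exact congrArg E.Φ (funext fun t => Set.indicator_of_mem (s := {l : ℂ | ‖l‖ ≤ K}) (hK t) _)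
  · rw [h1]
    exact hc S hS _ (hf.comp hZ.1)

theorem c3b_sing {Ω : Type} [MeasurableSpace Ω] (μ ν : Measure Ω) [IsFiniteMeasure μ]
    [IsFiniteMeasure ν]
    (h : ∀ ε : ℝ, 0 < ε → ∃ s, MeasurableSet s ∧ μ.real sᶜ ≤ ε ∧ ν.real s ≤ ε) :
    ∃ s, MeasurableSet s ∧ μ sᶜ = 0 ∧ ν s = 0 := by
  obtain ⟨ε, h0, h1⟩ := ENNReal.exists_pos_sum_of_countable one_ne_zero ℕ
  choose B hB h2 h3 using fun n => h (ε n) (h0 n)
  have key : ∀ (ρ : Measure Ω) [IsFiniteMeasure ρ] (D : ℕ → Set Ω), (∀ n, ρ.real (D n) ≤ ε n) →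
      ∀ᵐ t ∂ρ, ∀ᶠ n in atTop, t ∉ D n := fun ρ _ D hD =>
    ae_eventually_notMem (ne_top_of_le_ne_top h1.ne_top (ENNReal.tsum_le_tsum fun n =>
      (ENNReal.toReal_le_toReal (measure_ne_top _ _) ENNReal.coe_ne_top).1 (hD n)))
  refine ⟨{t | ∀ᶠ n in atTop, t ∈ B n}, ?_, ?_, ?_⟩
  · have e : {t | ∀ᶠ n in atTop, t ∈ B n} = ⋃ k, ⋂ n, ⋂ _ : k ≤ n, B n := by
      ext t
      simp [eventually_atTop]
    rw [e]
    exact .iUnion fun k => .iInter fun n => .iInter fun _ => hB n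
  · have := key μ _ h2
    simp only [Set.notMem_compl_iff] at this
    exact this
  · refine measure_eq_zero_iff_ae_notMem.2 ?_
    filter_upwards [key ν _ h3] with t ht ht'
    obtain ⟨n, a1, a2⟩ := (ht.and ht').exists
    exact a1 a2

theorem c3b_span {Ω : Type} [MeasurableSpace Ω] (E : SpecCalc Ω H) {Z : Ω → ℂ} (hZ : BM Z) {v u : H}
    (hu : u ∈ Submodule.span ℂ (Set.range fun n : ℕ => (E.Φ Z ^ n) v)) :
    ∃ f, BM f ∧ E.Φ f v = u := by
  induction hu using Submodule.span_induction with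
  | mem u hu =>
    obtain ⟨n, rfl⟩ := hu
    exact ⟨_, hZ.pow n, by rw [E.map_pow hZ]⟩
  | zero => exact ⟨_, BM.const 0, by rw [E.map_zero]; rfl⟩
  | add u u' _ _ h1 h2 =>
    obtain ⟨f, hf, rfl⟩ := h1
    obtain ⟨f', hf', rfl⟩ := h2
    exact ⟨_, hf.add hf', by rw [E.map_add hf hf']; rfl⟩
  | smul c u _ h1 =>
    obtain ⟨f, hf, rfl⟩ := h1
    exact ⟨_, (BM.const c).mul hf, by rw [E.map_smul c hf]; rfl⟩

theorem c3b_cheb {Ω : Type} [MeasurableSpace Ω] (E : SpecCalc Ω H) {f : Ω → ℂ} (hf : BM f) (ξ : H)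
    {s : Set Ω} (hs : MeasurableSet s) (h : ∀ t ∈ s, 1 / 2 ≤ ‖f t‖) {δ : ℝ}
    (hδ : ‖E.Φ f ξ‖ ≤ δ) : (E.μ ξ).real s ≤ (2 * δ) ^ 2 := by
  rw [← E.norm_Pr_sq hs]
  refine pow_le_pow_left₀ (norm_nonneg _) ?_ 2
  have h1 := E.norm_apply_mono (BM.indicator_one hs) ((BM.const 2).mul hf) (ξ := ξ)
    (Eventually.of_forall fun t => by
      by_cases ht : t ∈ s
      · rw [Set.indicator_of_mem ht, norm_mul, norm_one, Complex.norm_ofNat]
        linarith [h t ht]
      · rw [Set.indicator_of_notMem ht, norm_zero]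
        exact norm_nonneg _)
  rw [E.map_smul 2 hf, smul_apply, norm_smul, Complex.norm_ofNat] at h1
  exact h1.trans (by linarith)

theorem c3b_norm {M : Submodule ℂ H} {P : H →L[ℂ] H} (hP : IsProj M P) (v : H) :
    ‖P v‖ ≤ ‖v‖ ∧ ‖v - P v‖ ≤ ‖v‖ := by
  have h := norm_add_sq_eq_norm_sq_add_norm_sq_of_inner_eq_zero (𝕜 := ℂ) (P v) (v - P v)
    (mem_orth.1 (hP.sub v) _ (hP.mem v))
  rw [add_sub_cancel] at h
  constructor <;> refine (mul_self_le_mul_self_iff (norm_nonneg _) (norm_nonneg _)).2 ?_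
  · linarith [mul_self_nonneg ‖v - P v‖]
  · linarith [mul_self_nonneg ‖P v‖]

theorem c3b_sep (C : Conc o A V) {Ω : Type} [MeasurableSpace Ω] (E : SpecCalc Ω H) {Z : Ω → ℂ}
    (hZ : BM Z) (hE : E.Φ Z = A) (hc : ∀ S : H →L[ℂ] H, Commute S A → ∀ f, BM f → Commute S (E.Φ f))
    (hz : Cen o z) {ξ η : H} (hξ : ξ ∈ V z) (hη : η ∈ (V z)ᗮ) :
    ∃ s, MeasurableSet s ∧ E.μ ξ sᶜ = 0 ∧ E.μ η s = 0 := by
  have := E.fin
  have hP := isProj_pr (C.closed z)
  have e0 : pr (V z) (ξ + η) = ξ := by rw [map_add, hP.self hξ, hP.zero hη, add_zero]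
  obtain ⟨x, hx⟩ := (C.range _).2 (cyc_mem_Lat A (ξ + η))
  have h1 : ξ ∈ cyc A (ξ + η) := by
    have := (isProj_pr (C.closed x)).inv_of_commute (C.cen_iff.1 hz _ (C.commute_pr x)).symm
      (x := ξ + η) (hx ▸ self_mem_cyc A _)
    rwa [e0, hx] at this
  refine c3b_sing _ _ fun ε hε => ?_
  obtain ⟨u, hu, hd⟩ := Metric.mem_closure_iff.1 h1 (Real.sqrt ε / 2) (by positivity)
  rw [← hE] at hu
  obtain ⟨f, hf, rfl⟩ := c3b_span E hZ hu
  have e1 : ∀ v, pr (V z) (E.Φ f v) = E.Φ f (pr (V z) v) := fun v =>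
    DFunLike.congr_fun (hc _ (C.commute_pr z) f hf) v
  have e2 : pr (V z) (E.Φ f (ξ + η) - ξ) = E.Φ (fun t => f t - 1) ξ := by
    rw [map_sub, e1, e0, hP.self hξ, E.map_sub hf (BM.const 1), E.one]
    rfl
  have e3 : E.Φ f (ξ + η) - ξ - pr (V z) (E.Φ f (ξ + η) - ξ) = E.Φ f η := by
    rw [map_sub, e1, e0, hP.self hξ, map_add]
    abel
  obtain ⟨n1, n2⟩ := c3b_norm hP (E.Φ f (ξ + η) - ξ)
  rw [e3] at n2
  rw [e2] at n1
  rw [dist_comm, dist_eq_norm] at hd
  have hs : MeasurableSet {t | 1 / 2 ≤ ‖f t‖} := measurableSet_le measurable_const hf.1.norm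
  have e4 : (2 * (Real.sqrt ε / 2)) ^ 2 = ε := by
    rw [mul_div_cancel₀ _ two_ne_zero, Real.sq_sqrt hε.le]
  refine ⟨_, hs, e4 ▸ c3b_cheb E (hf.sub (BM.const 1)) ξ hs.compl (fun t ht => ?_) (n1.trans hd.le),
    e4 ▸ c3b_cheb E hf η hs (fun t ht => ht) (n2.trans hd.le)⟩
  have a1 : ‖f t‖ < 1 / 2 := not_le.1 ht
  have a2 := norm_sub_norm_le (1 : ℂ) (f t)
  rw [norm_one, norm_sub_rev] at a2
  linarith

theorem Conc.gen (C : Conc o A V) : GenAx o := by
  obtain ⟨E, Z, hZ, hE, hc⟩ := c3b_setup C.sa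
  have hO := C.om
  have ex : ∀ s : Set ℂ, ∃ x, MeasurableSet s → pr (V x) = E.Pr s := fun s => by
    by_cases hs : MeasurableSet s
    · obtain ⟨x, hx⟩ := C.exists_proj (E.Pr_proj hs).1 (E.Pr_proj hs).2
        (hc A (Commute.refl A) _ (BM.indicator_one hs)).symm
      exact ⟨x, fun _ => hx⟩
    · exact ⟨⊥, fun h => absurd h hs⟩
  choose c hcs using ex
  have m1 : ∀ s, MeasurableSet s → ∀ ξ, ξ ∈ V (c s) ↔ E.μ ξ sᶜ = 0 := fun s hs ξ => by
    rw [← pr_eq_self_iff (C.closed _), hcs s hs, E.Pr_eq_self_iff hs]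
  have m2 : ∀ s, MeasurableSet s → ∀ ξ, ξ ∈ V (o (c s)) ↔ E.μ ξ s = 0 := fun s hs ξ => by
    rw [← pr_eq_self_iff (C.closed _), C.pr_o, hcs s hs, ← E.Pr_compl hs,
      E.Pr_eq_self_iff hs.compl, compl_compl]
  refine ⟨fun n => c (MeasurableSpace.natGeneratingSequence ℂ n), fun n => ?_,
    fun S h1 h2 h3 z hz => ?_⟩
  · have hs := MeasurableSpace.measurableSet_natGeneratingSequence (α := ℂ) n
    refine C.cen_iff.2 fun T hT => ?_
    rw [hcs _ hs]
    exact (hc T hT _ (BM.indicator_one hs)).symm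
  have hS : ∀ s, MeasurableSet s → c s ∈ S := by
    intro s hs
    have key : ∀ s, MeasurableSet[MeasurableSpace.generateFrom
        (Set.range (MeasurableSpace.natGeneratingSequence ℂ))] s → MeasurableSet s ∧ c s ∈ S := by
      intro s hs
      induction s, hs using MeasurableSpace.generateFrom_induction with
      | hC t ht =>
        obtain ⟨n, rfl⟩ := ht
        exact ⟨MeasurableSpace.measurableSet_natGeneratingSequence n, h1 n⟩
      | empty =>
        have : c ∅ = sSup ∅ := by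
          rw [sSup_empty, ← C.pr_eq_zero, hcs _ .empty, E.Pr_empty]
        exact ⟨.empty, this ▸ h3 _ (Set.empty_subset _)⟩
      | compl t _ ih =>
        have : c tᶜ = o (c t) := C.inj (Submodule.ext fun ξ => by
          rw [m1 _ ih.1.compl, m2 _ ih.1, compl_compl])
        exact ⟨ih.1.compl, this ▸ h2 _ ih.2⟩
      | iUnion t _ ih =>
        have hU : MeasurableSet (⋃ n, t n) := .iUnion fun n => (ih n).1
        have : c (⋃ n, t n) = sSup (Set.range fun n => c (t n)) := by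
          refine le_antisymm (hO.le_iff.1 ((C.le_iff _ _).1 fun ξ hξ => ?_)) (sSup_le ?_)
          · rw [m2 _ hU, measure_iUnion_null_iff]
            exact fun n => (m2 _ (ih n).1 ξ).1
              ((C.le_iff _ _).2 (hO.anti (le_sSup (Set.mem_range_self n))) hξ)
          · rintro _ ⟨n, rfl⟩
            refine (C.le_iff _ _).1 fun ξ hξ => (m1 _ hU ξ).2 ?_
            exact measure_mono_null (Set.compl_subset_compl.2 (Set.subset_iUnion t n))
              ((m1 _ (ih n).1 ξ).1 hξ)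
        exact ⟨hU, this ▸ h3 _ (Set.range_subset_iff.2 fun n => (ih n).2)⟩
    exact (key s (by rwa [MeasurableSpace.generateFrom_natGeneratingSequence])).2
  have e : z = sSup {y | y ∈ S ∧ y ≤ z} := by
    refine le_antisymm ((C.le_iff _ _).1 fun ξ hξ => ?_) (sSup_le fun y hy => hy.2)
    have y1 : sInf {t | t ∈ S ∧ ξ ∈ V t} ∈ S := by
      rw [← hO.oo (sInf _), hO.o_sInf]
      refine h2 _ (h3 _ ?_)
      rintro _ ⟨t, ht, rfl⟩
      exact h2 _ ht.1
    have y2 : ξ ∈ V (sInf {t | t ∈ S ∧ ξ ∈ V t}) := by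
      obtain ⟨x, hx⟩ := (C.range _).2 (cyc_mem_Lat A ξ)
      refine (C.le_iff x _).2 (le_sInf fun t ht => (C.le_iff _ _).1 ?_) (hx ▸ self_mem_cyc A ξ)
      rw [hx]
      exact cyc_le (C.mem t) ht.2
    have y3 : sInf {t | t ∈ S ∧ ξ ∈ V t} ≤ z := by
      refine hO.le_of_o_inf hz (C.inj ?_)
      rw [C.map_inf, C.map_bot, C.orth, eq_bot_iff]
      rintro η ⟨a1, a2⟩
      obtain ⟨s, hs, b1, b2⟩ := c3b_sep C E hZ hE hc hz hξ a1
      have b3 := (m1 s hs η).1 ((C.le_iff _ _).2 (sInf_le (s := {t | t ∈ S ∧ ξ ∈ V t})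
        ⟨hS s hs, (m1 s hs ξ).2 b1⟩) a2)
      refine E.eq_zero_of_null ?_
      rw [← Set.union_compl_self s]
      exact measure_union_null b2 b3
    exact (C.le_iff _ _).2 (le_sSup (s := {y | y ∈ S ∧ y ≤ z}) ⟨y1, y3⟩) y2
  rw [e]
  exact h3 _ fun y hy => hy.1

end Pool.Agent.P.MP_d8da86_an.CR
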