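import Pool.Agent.P.MP_d8da86_an.C.T1

/-!
Affine points and axial automorphisms.
Hints. `aff_of`: a ≤ p ⊔ o p, `exch`. `sup_dr`: `veb'` with y = o p. `off_dir`: mix q and r
(off cov (q ⊓ d) take q; q ⊓ d and r ⊓ d have disjoint covers by `cov_disj`). `aff_dir`: a third
point on the line a ⊔ d, mixed with a off cov d. `off_pt`: e from `off_dir`, c from `aff_dir`
for e; t = c ⊓ (a ⊔ d) has t ⊓ a = ⊥, `exch` gives cov t ⊓ e ≤ (a ⊔ d) ⊓ o p = d.
`Ax.cen`: g z is central (`cen_map`), g z ⊓ o p = z ⊓ o p and cov (o p) = ⊤.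
`Ax.fix_off`: g c ≤ (g a ⊔ dr a c) ⊓ (g b ⊔ dr b c), and z ⊓ (a ⊔ c) ⊓ (b ⊔ c) = z ⊓ c by
`modular` and `exch`. `Ax.two_fix`: take c1 off the line a ⊔ b (`off_pt`), it is fixed; an
affine c is locally off the line a ⊔ b, or equal to a, or off the line a ⊔ c1.
-/

open scoped InnerProductSpace ComplexConjugate

set_option linter.unusedSectionVars false
set_option linter.unusedVariables false

noncomputable section

namespace Pool.Agent.P.MP_d8da86_an.CR

universe u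

variable {L : Type*} [CompleteLattice L] {o : L → L} {a b c d e x y z w p : L} {g k : L ≃o L}

theorem t1b_loc (hw : w ≤ z) (h : z ⊓ x = z ⊓ y) : w ⊓ x = w ⊓ y := by
  rw [← inf_eq_left.2 hw, inf_assoc, h, inf_assoc]

theorem t1b_off (h : Geo o) (hc : Pt o c) (hx : x ≤ c ⊔ b) (h0 : x ⊓ b = ⊥)
    (h1 : cov o x ⊓ c ⊓ (x ⊔ b) = ⊥) : x = ⊥ := by
  rw [inf_eq_left.2 (h.exch hc hx h0), h.toOM.inf_eq_bot_iff (h.toOM.cen_cov x),
    inf_eq_left.2 (h.cov_le_of_le_sup hx h0)] at h1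
  exact h.toOM.cov_eq_bot.1 h1

namespace Ax

theorem refl (o : L → L) (p : L) : Ax o p (OrderIso.refl L) := by
  exact fun x _ => rfl

theorem trans (hg : Ax o p g) (hk : Ax o p k) : Ax o p (g.trans k) := by
  intro x hx
  rw [OrderIso.trans_apply, hg x hx, hk x hx]

theorem symm (hg : Ax o p g) : Ax o p g.symm := by
  exact fun x hx => g.symm_apply_eq.2 (hg x hx).symm

theorem aff (hg : Ax o p g) (h : Geo o) (ha : Aff o p a) : Aff o p (g a) := by
  refine ⟨(h.toOM.pt_map h.toOM g).2 ha.1, ?_⟩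
  have := g.isCompl ha.2
  rwa [hg _ le_rfl] at this

theorem le_sup (hg : Ax o p g) (h : Geo o) (ha : Aff o p a) (hb : Aff o p b) :
    g b ≤ g a ⊔ dr o p a b := by
  rw [← hg _ (Geo.dr_le o p a b), ← g.map_sup, h.sup_dr ha hb]
  exact g.monotone le_sup_right

theorem dr_map (hg : Ax o p g) (a b : L) : dr o p (g a) (g b) = dr o p a b := by
  rw [← hg _ (Geo.dr_le o p a b), dr, dr, g.map_inf, g.map_sup, hg _ le_rfl]

theorem cen (hg : Ax o p g) (h : Geo o) (hp : Spatial o p) (hz : Cen o z) : g z = z := by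
  have h1 : g z ⊓ o p = z ⊓ o p := by
    rw [← hg _ (inf_le_right : z ⊓ o p ≤ o p), g.map_inf, hg _ le_rfl]
  have h2 := congrArg (cov o) h1
  rwa [h.toOM.cov_inf hz, h.toOM.cov_inf ((h.toOM.cen_map h.toOM g).2 hz), h.cov_hyp hp,
    inf_top_eq, inf_top_eq] at h2

theorem map_loc (hg : Ax o p g) (h : Geo o) (hp : Spatial o p) (hz : Cen o z) (x : L) :
    g (z ⊓ x) = z ⊓ g x := by
  rw [g.map_inf, hg.cen h hp hz]

/-- axial automorphisms are determined, locally, by their action on affine points -/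
theorem ext_loc (hg : Ax o p g) (hk : Ax o p k) (h : Geo o) (hp : Spatial o p) (hz : Cen o z)
    (he : ∀ a, Aff o p a → z ⊓ g a = z ⊓ k a) (x : L) : z ⊓ g x = z ⊓ k x := by
  have pt : ∀ q, Pt o q → z ⊓ g q = z ⊓ k q := fun q hq => by
    have hw := h.toOM.cen_cov (q ⊓ o p)
    have hw' := h.toOM.cen_o hw
    refine h.toOM.eq_of_cases hw ?_ ?_
    · rw [inf_left_comm, inf_left_comm _ z, ← hg.map_loc h hp hw, ← hk.map_loc h hp hw,
        hg _ (h.cov_inf_le hq _), hk _ (h.cov_inf_le hq _)]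
    · obtain ⟨a, ha, e⟩ := h.exists_aff hp.1 (h.toOM.pt_mono hq inf_le_right) (h.o_cov_inf q (o p))
      have hc := h.toOM.cen_cov (o (cov o (q ⊓ o p)) ⊓ q)
      rw [inf_left_comm, inf_left_comm _ z, ← hg.map_loc h hp hw', ← hk.map_loc h hp hw', e,
        hg.map_loc h hp hc, hk.map_loc h hp hc, inf_left_comm, he a ha, inf_left_comm]
  have key : ∀ {g k : L ≃o L}, Ax o p g → (∀ q, Pt o q → z ⊓ g q = z ⊓ k q) →
      z ⊓ g x ≤ z ⊓ k x := fun {g k} hg pt => by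
    refine le_inf inf_le_left ?_
    rw [← hg.map_loc h hp hz, ← g.le_symm_apply]
    refine h.le_of_pts fun q hq hx => ?_
    rw [g.le_symm_apply, ← inf_eq_right.2 (hx.trans inf_le_left), hg.map_loc h hp hz, pt q hq]
    exact inf_le_right.trans (k.monotone (hx.trans inf_le_right))
  exact le_antisymm (key hg pt) (key hk fun q hq => (pt q hq).symm)

theorem fix_off (hg : Ax o p g) (h : Geo o) (hp : Spatial o p) (hz : Cen o z) (ha : Aff o p a)
    (hb : Aff o p b) (hc : Aff o p c) (h1 : z ⊓ g a = z ⊓ a) (h2 : z ⊓ g b = z ⊓ b)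
    (h3 : z ⊓ a ⊓ b = ⊥) (h4 : z ⊓ c ⊓ (a ⊔ b) = ⊥) : z ⊓ g c = z ⊓ c := by
  have key : ∀ {a : L}, Aff o p a → z ⊓ g a = z ⊓ a → z ⊓ g c ≤ c ⊔ z ⊓ a := fun {a} ha h1 => by
    calc z ⊓ g c ≤ z ⊓ (g a ⊔ dr o p a c) := inf_le_inf_left _ (hg.le_sup h ha hc)
      _ = z ⊓ (a ⊔ c) := by rw [h.toOM.inf_sup hz, h1, ← h.toOM.inf_sup hz, h.sup_dr ha hc]
      _ ≤ _ := by
        rw [h.toOM.inf_sup hz, sup_comm]
        exact sup_le_sup_right inf_le_right _
  have e : z ⊓ a ⊓ (c ⊔ b) = ⊥ := by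
    refine t1b_off h hc.1 inf_le_right (le_bot_iff.1 ?_) (le_bot_iff.1 ?_)
    · exact (inf_le_inf_right _ inf_le_left).trans h3.le
    · refine (inf_le_inf (inf_le_inf_right _ ?_) (sup_le_sup_right ?_ _)).trans h4.le
      · exact (h.toOM.cov_le_iff hz).2 (inf_le_left.trans inf_le_left)
      · exact inf_le_left.trans inf_le_right
  refine h.aff_eq_of_le hp.1 (hg.aff h hc) hc hz ?_
  have := le_inf (key ha h1) ((key hb h2).trans (sup_le_sup_left inf_le_right _))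
  rwa [h.modular (h.toOM.pt_mono ha.1 inf_le_right) le_sup_left, e, sup_bot_eq] at this

/-- an axial automorphism with two distinct fixed affine points is the identity -/
theorem two_fix (hg : Ax o p g) (h : Proj o) (hp : Spatial o p) (hz : Cen o z) (ha : Aff o p a)
    (hb : Aff o p b) (h1 : z ⊓ g a = z ⊓ a) (h2 : z ⊓ g b = z ⊓ b) (h3 : z ⊓ a ⊓ b = ⊥)
    (x : L) : z ⊓ g x = z ⊓ x := by
  have G := h.toGeo
  obtain ⟨c₁, hc₁, h0⟩ := h.off_pt hp ha (G.dr_pt ha hb) (Geo.dr_le o p a b)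
  rw [G.sup_dr ha hb] at h0
  have h4 := hg.fix_off G hp hz ha hb hc₁ h1 h2 h3 (by rw [inf_assoc, h0, inf_bot_eq])
  refine hg.ext_loc (refl o p) G hp hz (fun c hc => ?_) x
  refine G.toOM.loc_eq_on hz fun z' hz' n' l' => ?_
  obtain ⟨w, hw, n, l, h5 | ⟨-, h5⟩⟩ := G.pt_dich hc.1 (a ⊔ b) hz' n'
  · obtain ⟨v, hv, nv, lv, h6 | ⟨-, h6⟩⟩ := G.pt_dich hc.1 a hw n
    · have e := G.aff_eq_of_le hp.1 hc ha hv h6
      refine ⟨v, hv, nv, lv.trans l, ?_⟩
      rw [← hg.map_loc G hp hv, e, hg.map_loc G hp hv, t1b_loc ((lv.trans l).trans l') h1]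
      exact e.symm
    · have lz := (lv.trans l).trans l'
      refine ⟨v, hv, nv, lv.trans l, hg.fix_off G hp hv ha hc₁ hc (t1b_loc lz h1) (t1b_loc lz h4)
        (le_bot_iff.1 ?_) ?_⟩
      · exact (le_inf inf_le_right (inf_le_left.trans (inf_le_right.trans le_sup_left))).trans
          h0.le
      · refine t1b_off G hc₁.1 (inf_le_right.trans (sup_comm _ _).le) (le_bot_iff.1 ?_)
          (le_bot_iff.1 ?_)
        · exact (inf_le_inf_right _ inf_le_left).trans h6.le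
        · exact (inf_le_inf inf_le_right (sup_le
            (inf_le_left.trans ((inf_le_inf_right _ lv).trans h5)) le_sup_left)).trans h0.le
  · have lz := l.trans l'
    refine ⟨w, hw, n, l, hg.fix_off G hp hw ha hb hc (t1b_loc lz h1) (t1b_loc lz h2)
      (le_bot_iff.1 ?_) h5⟩
    exact (inf_le_inf_right _ (inf_le_inf_right _ lz)).trans h3.le

theorem two_eq (hg : Ax o p g) (hk : Ax o p k) (h : Proj o) (hp : Spatial o p) (hz : Cen o z)
    (ha : Aff o p a) (hb : Aff o p b) (h1 : z ⊓ g a = z ⊓ k a) (h2 : z ⊓ g b = z ⊓ k b)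
    (h3 : z ⊓ a ⊓ b = ⊥) (x : L) : z ⊓ g x = z ⊓ k x := by
  have G := h.toGeo
  have e : ∀ {a : L}, z ⊓ g a = z ⊓ k a → z ⊓ (g.trans k.symm) a = z ⊓ a := fun {a} h1 => by
    rw [OrderIso.trans_apply, ← hk.symm.map_loc G hp hz, h1, hk.symm.map_loc G hp hz,
      k.symm_apply_apply]
  have := congrArg k ((hg.trans hk.symm).two_fix h hp hz ha hb (e h1) (e h2) h3 x)
  rwa [hk.map_loc G hp hz, hk.map_loc G hp hz, OrderIso.trans_apply, k.apply_symm_apply] at this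

/-- gluing of axial automorphisms which exist locally -/
theorem glue (h : Geo o) (hp : Spatial o p) (Q : L → (L ≃o L) → Prop)
    (hQ : ∀ z, Cen o z → z ≠ ⊥ → z ≤ cov o p →
      ∃ w, Cen o w ∧ w ≠ ⊥ ∧ w ≤ z ∧ ∃ g, Ax o p g ∧ Q w g) :
    ∃ (G : L ≃o L) (S : Set L), Ax o p G ∧ Part o S ∧ sSup S = cov o p ∧
      (∀ w ∈ S, ∃ g, Ax o p g ∧ Q w g ∧ ∀ x, w ⊓ G x = w ⊓ g x) ∧
      ∀ x, o (cov o p) ⊓ G x = o (cov o p) ⊓ x := by
  obtain ⟨S, hS, e, h1⟩ := h.toOM.exists_part (h.toOM.cen_cov p) _ hQ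
  have : Nonempty (L ≃o L) := ⟨OrderIso.refl L⟩
  choose! g h2 h3 using fun w hw => (h1 w hw).2
  obtain ⟨G, h4, h5⟩ := h.toOM.mix_aut hS g fun w hw z hz => (h2 w hw).cen h hp hz
  refine ⟨G, S, fun x hx => h.toOM.eq_of_part hS (fun w hw => ?_) (h5 x), hS, e,
    fun w hw => ⟨g w, h2 w hw, h3 w hw, h4 w hw⟩, e ▸ h5⟩
  rw [h4 w hw, h2 w hw x hx]

end Ax

end Pool.Agent.P.MP_d8da86_an.CR
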