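import Pool.Agent.P.MP_d8da86_an.C.C2
import Pool.Agent.P.MP_d8da86_an.C.T1b

/-!
Local description of affine points and homologies by bounded operators.
Hints. `loc_inv`: G = star X1 * X1 with X1 = X * pr z is positive and nonzero; with E, Z from
`exists_setup` for G there is δ > 0 with Q = E.Pr {δ ≤ ‖Z‖} ≠ 0; Q = g (G) * G with
g = indicator of 1 / Z; Q = pr (V y), y ≤ z ⊓ p, w = cov y, Y = g (G) * star X1.
`graph`: 1 + S has the inverse 1 - S. `loc_graph`: apply `loc_inv` to X = pr p * pr a * pr p or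
argue with X = pr a * pr p: get Y0 with (pr p * pr a * pr p) * Y0 = pr (w ⊓ p) (take adjoints),
W = pr a * pr p * Y0 * pr (w ⊓ p), S = W - pr (w ⊓ p); g (w ⊓ p) ≤ a and both are points with cover w.
`loc_ho`: a, b are locally graphs of Sa, Sb, both locally invertible by `loc_inv`; the closed
ranges are both w ⊓ dr p a; X = Ya * Sb + (pr p - pr (w ⊓ p)), Y = Yb * Sa + (pr p - pr (w ⊓ p)).
-/

open scoped InnerProductSpace ComplexConjugate

set_option linter.unusedSectionVars false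
set_option linter.unusedVariables false

noncomputable section

namespace Pool.Agent.P.MP_d8da86_an.CR

universe u

variable {H : Type*} [NormedAddCommGroup H] [InnerProductSpace ℂ H] [CompleteSpace H]
  {L : Type*} [CompleteLattice L] {o : L → L} {A : H →L[ℂ] H} {V : L → Submodule ℂ H}
  {a b p q x y z w : L} {S T X Y : H →L[ℂ] H} {g k : L ≃o L}

theorem c5_mul_zero {M : Submodule ℂ H} (hS : Gr A M S) (hT : Gr A M T) : S * T = 0 := by
  rw [← hS.2.1, mul_assoc, hT.2.2, mul_zero]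

theorem c5_apply_pr {M : Submodule ℂ H} (hS : Gr A M S) (ξ : H) : S (pr M ξ) = S ξ :=
  DFunLike.congr_fun hS.2.1 ξ

/-- a nonzero selfadjoint operator is invertible on a nonzero spectral subspace -/
theorem c5_spec {G : H →L[ℂ] H} (hG : IsSelfAdjoint G) (h0 : G ≠ 0) :
    ∃ Q F : H →L[ℂ] H, Q ≠ 0 ∧ Q * Q = Q ∧ star Q = Q ∧ F * G = Q ∧ G * F = Q ∧
      ∀ S, Commute S G → Commute S F ∧ Commute S Q := by
  obtain ⟨Ω, _, E, Z, hZ, hEZ, hc⟩ := exists_setup G hG.isStarNormal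
  have hm : ∀ n : ℕ, MeasurableSet {x | 1 / ((n : ℝ) + 1) ≤ ‖Z x‖} := fun n =>
    measurableSet_le measurable_const hZ.1.norm
  obtain ⟨n, hn⟩ : ∃ n : ℕ, E.Pr {x | 1 / ((n : ℝ) + 1) ≤ ‖Z x‖} ≠ 0 := by
    by_contra hcon
    push Not at hcon
    apply h0
    rw [← hEZ]
    ext1 ξ
    change E.Φ Z ξ = 0
    rw [E.apply_eq_zero_iff hZ, MeasureTheory.ae_iff]
    have hsub : {x | ¬ Z x = 0} ⊆ ⋃ n : ℕ, {x | 1 / ((n : ℝ) + 1) ≤ ‖Z x‖} := by
      intro x hx
      obtain ⟨n, hn⟩ := exists_nat_one_div_lt (norm_pos_iff.2 hx)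
      exact Set.mem_iUnion.2 ⟨n, hn.le⟩
    refine MeasureTheory.measure_mono_null hsub (MeasureTheory.measure_iUnion_null fun n => ?_)
    rw [← E.Pr_eq_zero_iff (hm n), hcon n]
    rfl
  have hδ : (0 : ℝ) < 1 / ((n : ℝ) + 1) := Nat.one_div_pos_of_nat
  set s : Set Ω := {x | 1 / ((n : ℝ) + 1) ≤ ‖Z x‖} with hs
  have hf : BM (s.indicator fun x => (Z x)⁻¹) := by
    refine BM.indicator_of_bdd hZ.1.inv (hm n) (1 / ((n : ℝ) + 1))⁻¹ fun x hx => ?_
    rw [Pi.inv_apply, norm_inv]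
    exact inv_anti₀ hδ hx
  have hne : ∀ x ∈ s, Z x ≠ 0 := fun x hx => norm_pos_iff.1 (hδ.trans_le hx)
  have h1 : E.Φ (s.indicator fun x => (Z x)⁻¹) * G = E.Pr s := by
    rw [← hEZ, ← E.mul _ _ hf hZ, SpecCalc.Pr]
    congr 1
    funext x
    by_cases hx : x ∈ s
    · rw [Set.indicator_of_mem hx, Set.indicator_of_mem hx, inv_mul_cancel₀ (hne x hx)]
    · rw [Set.indicator_of_notMem hx, Set.indicator_of_notMem hx, zero_mul]
  have hP := E.Pr_proj (hm n)
  refine ⟨E.Pr s, E.Φ (s.indicator fun x => (Z x)⁻¹), hn, hP.isIdempotentElem,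
    hP.isSelfAdjoint, h1, ?_, fun S hS => ⟨hc S hS _ hf, hc S hS _ (BM.indicator_one (hm n))⟩⟩
  rw [← h1, ← hEZ]
  exact E.commute hZ hf

namespace Conc

theorem c5_proj (C : Conc o A V) (x : L) : IsProj (V x) (pr (V x)) := isProj_pr (C.closed x)

theorem c5_idem (C : Conc o A V) (x : L) : pr (V x) * pr (V x) = pr (V x) := by
  ext1 ξ
  exact (C.c5_proj x).self ((C.c5_proj x).mem ξ)

theorem c5_le (C : Conc o A V) (h : pr (V x) * pr (V y) = pr (V y)) : y ≤ x := by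
  rw [← C.le_iff]
  intro ξ hξ
  have h1 : pr (V x) (pr (V y) ξ) = pr (V y) ξ := DFunLike.congr_fun h ξ
  rw [(C.c5_proj y).self hξ] at h1
  rw [← h1]
  exact (C.c5_proj x).mem ξ

theorem c5_range (C : Conc o A V) (hS : Gr A (V p) S) (ξ : H) : S ξ ∈ (V p)ᗮ :=
  (C.c5_proj p).orth_of_zero (DFunLike.congr_fun hS.2.2 ξ)

theorem c5_kill (C : Conc o A V) (hS : Gr A (V p) S) {ξ : H} (hξ : ξ ∈ (V p)ᗮ) : S ξ = 0 := by
  rw [← c5_apply_pr hS, (C.c5_proj p).zero hξ, map_zero]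

theorem c5_inv (hS : Gr A (V p) S) : (1 + S) * (1 - S) = 1 ∧ (1 - S) * (1 + S) = 1 := by
  have h := c5_mul_zero hS hS
  constructor
  · rw [add_mul, one_mul, mul_sub, mul_one, h, sub_zero, sub_add_cancel]
  · rw [sub_mul, one_mul, mul_add, mul_one, h, add_zero, add_sub_cancel_right]

theorem c5_comm (hS : Gr A (V p) S) : Commute (1 + S) A ∧ Commute (1 - S) A :=
  ⟨(Commute.one_left A).add_left hS.1, (Commute.one_left A).sub_left hS.1⟩

theorem c5_fix (C : Conc o A V) (hS : Gr A (V p) S) (hg : Ind V (1 + S) g)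
    (hx : ∀ ξ ∈ V x, S ξ ∈ V x) : g x = x :=
  C.ind_fix hg (c5_comm hS).2 (c5_inv hS).1 (fun ξ hξ => (V x).add_mem hξ (hx ξ hξ))
    fun ξ hξ => (V x).sub_mem hξ (hx ξ hξ)

theorem c5_mem (hg : Ind V T g) {ξ : H} (hξ : ξ ∈ V x) : T ξ ∈ V (g x) := by
  rw [hg x]
  exact ⟨ξ, hξ, rfl⟩

theorem loc_inv (C : Conc o A V) (hp : Pt o p) (hX : Commute X A) (h1 : X * pr (V p) = X)
    (hz : Cen o z) (h0 : X * pr (V z) ≠ 0) : ∃ w, Cen o w ∧ w ≠ ⊥ ∧ w ≤ z ∧ w ≤ cov o p ∧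
      ∃ Y, Commute Y A ∧ Y * X = pr (V (w ⊓ p)) ∧ pr (V (w ⊓ p)) * Y = Y := by
  have hO := C.om
  have hzc := C.cen_iff.1 hz
  have hXs : Commute (star X) A := C.commute_star hX
  have hPz := C.c5_idem z
  have hs1 : star (X * pr (V z)) = pr (V z) * star X := by
    rw [star_mul, (C.c5_proj z).star_eq]
  have hs2 : pr (V p) * star X = star X := by
    have := congrArg star h1
    rwa [star_mul, (C.c5_proj p).star_eq] at this
  have hG : star (X * pr (V z)) * (X * pr (V z)) = pr (V z) * star X * X := by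
    have h3 : star X * X * pr (V z) = pr (V z) * (star X * X) :=
      (hzc _ (hXs.mul_left hX)).symm
    rw [hs1, mul_assoc, ← mul_assoc (star X), h3, ← mul_assoc, hPz, mul_assoc]
  have hG0 : pr (V z) * star X * X ≠ 0 := by
    rw [← hG]
    exact fun h => h0 ((CStarRing.star_mul_self_eq_zero_iff _).1 h)
  have hGs : IsSelfAdjoint (pr (V z) * star X * X) := by
    rw [← hG]
    exact IsSelfAdjoint.star_mul_self _
  have hGA : Commute (pr (V z) * star X * X) A :=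
    ((C.commute_pr z).mul_left hXs).mul_left hX
  obtain ⟨Q, F, hQ0, hQ1, hQ2, hFG, hGF, hc⟩ := c5_spec hGs hG0
  obtain ⟨hFA, hQA⟩ := hc A hGA.symm
  obtain ⟨y, hy⟩ := C.exists_proj hQ1 hQ2 hQA.symm
  have hyz : y ≤ z := by
    apply C.c5_le
    rw [hy, ← hGF]
    simp only [← mul_assoc]
    rw [hPz]
  have hyp : y ≤ p := by
    apply C.c5_le
    have h3 : pr (V p) * pr (V z) = pr (V z) * pr (V p) := (hzc _ (C.commute_pr p)).symm
    rw [hy, ← hGF]
    simp only [← mul_assoc]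
    rw [h3, mul_assoc (pr (V z)) (pr (V p)), hs2]
  have hy0 : y ≠ ⊥ := fun h => hQ0 (by rw [← hy]; exact C.pr_eq_zero.2 h)
  have hw : pr (V (cov o y ⊓ p)) = Q := by rw [← hO.pt_eq hp hyp, hy]
  refine ⟨cov o y, hO.cen_cov y, fun h => hy0 (hO.cov_eq_bot.1 h), (hO.cov_le_iff hz).2 hyz,
    hO.cov_mono hyp, Q * F * (pr (V z) * star X), ?_, ?_, ?_⟩
  · exact (hQA.symm.mul_left hFA.symm).mul_left ((C.commute_pr z).mul_left hXs)
  · rw [hw, mul_assoc, mul_assoc Q, hFG, hQ1]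
  · rw [hw, ← mul_assoc Q, ← mul_assoc Q, hQ1]

theorem graph (C : Conc o A V) (hS : Gr A (V p) S) : ∃ g, Ind V (1 + S) g := by
  exact C.exists_ind (c5_comm hS).1 (c5_comm hS).2 (c5_inv hS).1 (c5_inv hS).2

theorem graph_ax (C : Conc o A V) (hS : Gr A (V p) S) (hg : Ind V (1 + S) g) : Ax o p g := by
  intro x hx
  refine C.c5_fix hS hg fun ξ hξ => ?_
  have h1 : ξ ∈ (V p)ᗮ := by
    rw [← C.orth]
    exact (C.le_iff _ _).2 hx hξ
  rw [C.c5_kill hS h1]
  exact (V x).zero_mem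

theorem graph_fix (C : Conc o A V) (hS : Gr A (V p) S) (hg : Ind V (1 + S) g)
    (hx : ∀ ξ, S ξ ∈ V x) : g x = x := by
  exact C.c5_fix hS hg fun ξ _ => hx ξ

theorem graph_tr (C : Conc o A V) (hp : Pt o p) (hS : Gr A (V p) S) (hg : Ind V (1 + S) g) :
    IsTr o p g := by
  obtain ⟨d, hd⟩ := C.exists_im hS.1 p
  refine ⟨C.graph_ax hS hg, d, C.pt_im hp hS.1 hd, ?_, fun a ha => ?_⟩
  · rw [← C.le_iff, hd, C.orth]
    refine clo_le (Submodule.isClosed_orthogonal _) ?_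
    rintro _ ⟨ξ, hξ, rfl⟩
    exact C.c5_range hS ξ
  · rw [top_inf_eq, ← C.le_iff, hg a, C.map_sup]
    rintro _ ⟨ξ, hξ, rfl⟩
    refine Submodule.le_topologicalClosure _ ?_
    have h1 : S ξ ∈ V d := by
      rw [hd, ← c5_apply_pr hS]
      exact Submodule.le_topologicalClosure _ ⟨_, (C.c5_proj p).mem ξ, rfl⟩
    exact Submodule.add_mem_sup hξ h1

theorem graph_mul (C : Conc o A V) (hS : Gr A (V p) S) (hT : Gr A (V p) T) :
    (1 + S) * (1 + T) = 1 + (S + T) := by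
  rw [add_mul, one_mul, mul_add, mul_one, c5_mul_zero hS hT, add_zero, add_assoc, add_comm T S]

/-- the difference of two graph operators has range in the direction of the line -/
theorem graph_dr (C : Conc o A V) (hS : Gr A (V p) S) (hT : Gr A (V p) T)
    (hg : Ind V (1 + S) g) (hk : Ind V (1 + T) k) (ξ : H) :
    (T - S) ξ ∈ V (dr o p (g p) (k p)) := by
  rw [dr, C.map_inf, C.map_sup, C.orth]
  refine ⟨Submodule.le_topologicalClosure _ ?_,
    (V p)ᗮ.sub_mem (C.c5_range hT ξ) (C.c5_range hS ξ)⟩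
  have h1 : (T - S) ξ = (1 + T) (pr (V p) ξ) - (1 + S) (pr (V p) ξ) := by
    change T ξ - S ξ = (pr (V p) ξ + T (pr (V p) ξ)) - (pr (V p) ξ + S (pr (V p) ξ))
    rw [c5_apply_pr hS, c5_apply_pr hT, add_sub_add_left_eq_sub]
  rw [h1]
  exact Submodule.sub_mem _ (Submodule.mem_sup_right (c5_mem hk ((C.c5_proj p).mem ξ)))
    (Submodule.mem_sup_left (c5_mem hg ((C.c5_proj p).mem ξ)))

theorem graph_inf (C : Conc o A V) (hS : Gr A (V p) S) (hg : Ind V (1 + S) g) (hz : Cen o z) :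
    z ⊓ g p = z ⊓ p ↔ S * pr (V z) = 0 := by
  have hzc := C.cen_iff.1 hz
  constructor
  · intro h
    ext1 ξ
    change S (pr (V z) ξ) = 0
    have hz1 : pr (V p) (pr (V z) ξ) ∈ V z :=
      (C.c5_proj z).inv_of_commute (hzc _ (C.commute_pr p)) ((C.c5_proj z).mem ξ)
    have hp1 : pr (V p) (pr (V z) ξ) ∈ V p := (C.c5_proj p).mem _
    have h2 : (1 + S) (pr (V p) (pr (V z) ξ)) ∈ V (z ⊓ g p) := by
      rw [C.map_inf]
      exact ⟨(C.c5_proj z).inv_of_commute (hzc _ (c5_comm hS).1) hz1, c5_mem hg hp1⟩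
    rw [h, C.map_inf] at h2
    have h3 : S (pr (V p) (pr (V z) ξ)) ∈ V p := ((V p).add_mem_iff_right hp1).1 h2.2
    rw [c5_apply_pr hS] at h3
    exact eq_zero_of_mem_orth h3 (C.c5_range hS _)
  · intro h
    have h1 : Ind V 1 (OrderIso.refl L) := fun x => (Submodule.map_id (V x)).symm
    exact C.ind_loc hg h1 (c5_comm hS).1 (Commute.one_left A) hz
      (by rw [add_mul, h, add_zero]) p

end Conc

end Pool.Agent.P.MP_d8da86_an.CR
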