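import Pool.Agent.P.MP_d8da86_an.C.C5

/-!
Local description of affine points and homologies by bounded operators.
Hints. `loc_inv`: G = star X1 * X1 with X1 = X * pr z is positive and nonzero; with E, Z from
`exists_setup` for G there is δ > 0 with Q = E.Pr {δ ≤ ‖Z‖} ≠ 0; Q = g (G) * G with
g = indicator of 1 / Z; Q = pr (V y), y ≤ z ⊓ p, w = cov y, Y = g (G) * star X1.
`graph`: 1 + S has the inverse 1 - S. `loc_graph`: apply `loc_inv` to X = pr p * pr a * pr p or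
argue with X = pr a * pr p: get Y0 with (pr p * pr a * pr p) * Y0 = pr (w ⊓ p) (take adjoints),
W = pr a * pr p * Y0 * pr (w ⊓ p), S = W - pr (w ⊓ p); g (w ⊓ p) ≤ a and both are points with cover w.
`loc_ho`: a, b are locally graphs of Sa, Sb, both locally invertible by `loc_inv`; the closed
ranges are both w ⊓ dr p a; X = Ya * Sb + (pr p - pr (w ⊓ p)), Y = Yb * Sa + (pr p - pr (w ⊓ p)).
-/

open scoped InnerProductSpace ComplexConjugate

set_option linter.unusedSectionVars false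
set_option linter.unusedVariables false

noncomputable section

namespace Pool.Agent.P.MP_d8da86_an.CR

universe u

variable {H : Type*} [NormedAddCommGroup H] [InnerProductSpace ℂ H] [CompleteSpace H]
  {L : Type*} [CompleteLattice L] {o : L → L} {A : H →L[ℂ] H} {V : L → Submodule ℂ H}
  {a b p q x y z w : L} {S T X Y : H →L[ℂ] H} {g k : L ≃o L}

theorem c5b_ring {R : Type*} [Ring R] {E P U U' : R} (hE : E * E = E) (hP : P * P = P)
    (hEP : E * P = P * E) (hU : E * U' = U' * E) (h : U * U' * E = P * E) :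
    (U * E + (P - P * E)) * (U' * E + (P - P * E)) = P := by
  have e1 : U * E * (U' * E) = P * E := by
    rw [mul_assoc U, ← mul_assoc E, hU, mul_assoc U', hE, ← mul_assoc, h]
  have e2 : E * (P - P * E) = 0 := by
    rw [mul_sub, ← mul_assoc, hEP, mul_assoc, hE, sub_self]
  have e3 : (P - P * E) * (U' * E) = 0 := by
    rw [sub_mul, mul_assoc P E, ← mul_assoc E, hU, mul_assoc U', hE, sub_self]
  have e4 : (P - P * E) * (P - P * E) = P - P * E := by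
    rw [sub_mul, mul_assoc P E, e2, mul_zero, sub_zero, mul_sub, ← mul_assoc, hP]
  rw [add_mul, mul_add, mul_add, e1, mul_assoc U E, e2, e3, e4, mul_zero]
  abel

theorem c5b_inv {R : Type*} [Ring R] {P X Y : R} (hP : P * P = P) (hX : P * X = X)
    (hY : Y * P = Y) (h : Y * X = P) : (Y + (1 - P)) * (X + (1 - P)) = 1 := by
  have e1 : Y * (1 - P) = 0 := by rw [mul_sub, mul_one, hY, sub_self]
  have e2 : (1 - P) * X = 0 := by rw [sub_mul, one_mul, hX, sub_self]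
  have e3 : (1 - P) * (1 - P) = 1 - P := by
    rw [mul_sub, mul_one, sub_mul, one_mul, hP, sub_self, sub_zero]
  rw [add_mul, mul_add, mul_add, h, e1, e2, e3]
  abel

namespace Conc

theorem c5b_proj (C : Conc o A V) (x : L) : IsProj (V x) (pr (V x)) := isProj_pr (C.closed x)

theorem c5b_idem (C : Conc o A V) (x : L) : pr (V x) * pr (V x) = pr (V x) := by
  ext1 ξ
  exact (C.c5b_proj x).self ((C.c5b_proj x).mem ξ)

theorem c5b_le (C : Conc o A V) (hz : Cen o z) (hw : z ≤ w) : pr (V z) * pr (V w) = pr (V z) := by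
  rw [← C.pr_inf_cen hz, inf_eq_left.2 hw]

theorem c5b_cen (C : Conc o A V) (hz : Cen o z) (hT : Commute T A) :
    pr (V z) * T = T * pr (V z) := (C.cen_iff.1 hz T hT).eq

theorem c5b_mem (C : Conc o A V) (hT : pr (V x) * T = T) (ξ : H) : T ξ ∈ V x := by
  rw [← hT]
  exact (C.c5b_proj x).mem _

theorem c5b_comm (C : Conc o A V) (hY : Commute Y A) : Commute (Y + (1 - pr (V p))) A :=
  hY.add_left ((Commute.one_left A).sub_left (C.commute_pr p))

theorem loc_graph (C : Conc o A V) (hp : Pt o p) (ha : Aff o p a) (hz : Cen o z) (h0 : z ≠ ⊥)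
    (h1 : z ≤ cov o p) : ∃ w, Cen o w ∧ w ≠ ⊥ ∧ w ≤ z ∧
      ∃ S g, Gr A (V p) S ∧ Ind V (1 + S) g ∧ w ⊓ g p = w ⊓ a := by
  have hX : Commute (pr (V a) * pr (V p)) A := (C.commute_pr a).mul_left (C.commute_pr p)
  have hne : pr (V a) * pr (V p) * pr (V z) ≠ 0 := fun h => by
    have h2 : pr (V p) * (pr (V z) * pr (V a)) = 0 := by
      have h3 := congrArg star h
      rw [star_mul, star_mul, (C.c5b_proj a).star_eq, (C.c5b_proj p).star_eq,
        (C.c5b_proj z).star_eq, star_zero, ← mul_assoc, C.c5b_cen hz (C.commute_pr p),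
        mul_assoc] at h3
      exact h3
    rw [← C.pr_inf_cen hz] at h2
    have h4 : z ⊓ a ≤ o p := by
      rw [← C.le_iff, C.orth]
      intro ξ hξ
      have h5 : pr (V p) (pr (V (z ⊓ a)) ξ) = 0 := DFunLike.congr_fun h2 ξ
      rw [(C.c5b_proj _).self hξ] at h5
      exact (C.c5b_proj p).orth_of_zero h5
    have h6 : z ⊓ a = ⊥ := le_bot_iff.1 ((le_inf inf_le_right h4).trans ha.2.inf_eq_bot.le)
    rw [C.om.inf_eq_bot_iff hz, C.geo.aff_cov hp ha, inf_eq_left.2 h1] at h6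
    exact h0 h6
  obtain ⟨w, hw, hw0, hwz, -, Y, hY, hY1, hY2⟩ :=
    C.loc_inv hp hX (by rw [mul_assoc, C.c5b_idem]) hz hne
  have hQ := C.pr_inf_cen hw p
  have hQP : pr (V (w ⊓ p)) * pr (V p) = pr (V (w ⊓ p)) := by rw [hQ, mul_assoc, C.c5b_idem]
  have hPQ : pr (V p) * pr (V (w ⊓ p)) = pr (V (w ⊓ p)) := by
    rw [hQ, C.c5b_cen hw (C.commute_pr p), ← mul_assoc, C.c5b_idem]
  have h2 : pr (V p) * (pr (V a) * star Y) = pr (V (w ⊓ p)) := by
    have h3 := congrArg star hY1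
    rw [star_mul, star_mul, (C.c5b_proj a).star_eq, (C.c5b_proj p).star_eq,
      (C.c5b_proj _).star_eq, mul_assoc] at h3
    exact h3
  have h3 : pr (V a) * star Y * pr (V (w ⊓ p)) = pr (V a) * star Y := by
    have h4 := congrArg star hY2
    rw [star_mul, (C.c5b_proj _).star_eq] at h4
    rw [mul_assoc, h4]
  have hS : Gr A (V p) (pr (V a) * star Y - pr (V (w ⊓ p))) := by
    refine ⟨((C.commute_pr a).mul_left (C.commute_star hY)).sub_left (C.commute_pr _), ?_, ?_⟩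
    · rw [sub_mul, hQP, ← h3, mul_assoc, hQP]
    · rw [mul_sub, h2, hPQ, sub_self]
  obtain ⟨g, hg⟩ := C.graph hS
  refine ⟨w, hw, hw0, hwz, _, g, hS, hg, C.geo.aff_eq_of_le hp
    ((C.graph_ax hS hg).aff C.geo (C.geo.aff_self hp)) ha hw ?_⟩
  rw [← C.le_iff, C.map_inf, hg]
  rintro ξ ⟨h4, η, h5, rfl⟩
  have h6 : pr (V w) * ((1 + (pr (V a) * star Y - pr (V (w ⊓ p)))) * pr (V p)) =
      pr (V a) * star Y := by
    rw [← mul_assoc, C.c5b_cen hw ((Commute.one_left A).add_left hS.1), mul_assoc, ← hQ, add_mul,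
      sub_mul, h3, C.c5b_idem, one_mul]
    abel
  have h7 : pr (V w) ((1 + (pr (V a) * star Y - pr (V (w ⊓ p)))) (pr (V p) η)) =
      pr (V a) (star Y η) := DFunLike.congr_fun h6 η
  rw [(C.c5b_proj p).self h5] at h7
  have h8 := (C.c5b_proj w).self h4
  exact (h8.symm.trans h7) ▸ (C.c5b_proj a).mem _

theorem homol (C : Conc o A V) (hX : Cp A (V p) X) (hY : Cp A (V p) Y) (h1 : X * Y = pr (V p))
    (h2 : Y * X = pr (V p)) : ∃ g, Ind V (Y + (1 - pr (V p))) g ∧ Ax o p g ∧ g p = p := by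
  have e1 := c5b_inv (C.c5b_idem p) hX.2.2 hY.2.1 h2
  have e2 := c5b_inv (C.c5b_idem p) hY.2.2 hX.2.1 h1
  obtain ⟨g, hg⟩ := C.exists_ind (C.c5b_comm hY.1) (C.c5b_comm hX.1) e1 e2
  have k1 : ∀ Z : H →L[ℂ] H, Cp A (V p) Z → ∀ x, x ≤ o p → ∀ ξ ∈ V x,
      (Z + (1 - pr (V p))) ξ ∈ V x := fun Z hZ x hx ξ hξ => by
    have h3 : pr (V p) ξ = 0 := (C.c5b_proj p).zero (C.orth p ▸ (C.le_iff _ _).2 hx hξ)
    have h4 : Z (pr (V p) ξ) = Z ξ := DFunLike.congr_fun hZ.2.1 ξ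
    rw [h3, map_zero] at h4
    change Z ξ + (ξ - pr (V p) ξ) ∈ V x
    rwa [← h4, h3, zero_add, sub_zero]
  have k2 : ∀ Z : H →L[ℂ] H, Cp A (V p) Z → ∀ ξ ∈ V p, (Z + (1 - pr (V p))) ξ ∈ V p :=
    fun Z hZ ξ hξ => by
      change Z ξ + (ξ - pr (V p) ξ) ∈ V p
      rw [(C.c5b_proj p).self hξ, sub_self, add_zero]
      exact C.c5b_mem hZ.2.2 ξ
  exact ⟨g, hg, fun x hx => C.ind_fix hg (C.c5b_comm hX.1) e1 (k1 Y hY x hx) (k1 X hX x hx),
    C.ind_fix hg (C.c5b_comm hX.1) e1 (k2 Y hY) (k2 X hX)⟩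

theorem homol_graph (C : Conc o A V) (hX : Cp A (V p) X) (hY : Cp A (V p) Y)
    (h1 : X * Y = pr (V p)) (h2 : Y * X = pr (V p)) (hg : Ind V (Y + (1 - pr (V p))) g)
    (hS : Gr A (V p) S) {k k' : L ≃o L} (hk : Ind V (1 + S) k) (hk' : Ind V (1 + S * X) k') :
    g (k p) = k' p := by
  have e0 : Y * S = 0 := by rw [← hY.2.1, mul_assoc, hS.2.2, mul_zero]
  have e1 : (Y + (1 - pr (V p))) * ((1 + S) * pr (V p)) = Y + S := by
    rw [add_mul 1, one_mul, hS.2.1, add_mul, mul_add, mul_add, sub_mul, sub_mul, hY.2.1, e0,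
      C.c5b_idem, hS.2.2, one_mul, one_mul]
    abel
  have e2 : (1 + S * X) * Y = Y + S := by rw [add_mul, one_mul, mul_assoc, h1, hS.2.1]
  have e3 : (Y + (1 - pr (V p))) * ((1 + S) * X) = (1 + S * X) * pr (V p) := by
    rw [← hX.2.2, ← mul_assoc (1 + S), ← mul_assoc, e1, add_mul, h2, hX.2.2, add_mul, one_mul,
      mul_assoc, hX.2.1]
  apply C.inj
  rw [hg, hk, hk']
  refine le_antisymm ?_ ?_
  · rintro _ ⟨_, ⟨η, hη, rfl⟩, rfl⟩
    refine ⟨Y η, C.c5b_mem hY.2.2 η, ?_⟩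
    have h3 : (Y + (1 - pr (V p))) ((1 + S) (pr (V p) η)) = (1 + S * X) (Y η) :=
      DFunLike.congr_fun (e1.trans e2.symm) η
    rw [(C.c5b_proj p).self hη] at h3
    exact h3.symm
  · rintro _ ⟨η, hη, rfl⟩
    refine ⟨_, ⟨X η, C.c5b_mem hX.2.2 η, rfl⟩, ?_⟩
    have h3 : (Y + (1 - pr (V p))) ((1 + S) (X η)) = (1 + S * X) (pr (V p) η) :=
      DFunLike.congr_fun e3 η
    rw [(C.c5b_proj p).self hη] at h3
    exact h3

theorem c5b_key (C : Conc o A V) (hw : Cen o w) (hS : Gr A (V p) S) (hT : Gr A (V p) T)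
    (hg : Ind V (1 + S) g) (hk : Ind V (1 + T) k) (ha : w ⊓ g p = w ⊓ a) (hb : w ⊓ k p = w ⊓ b)
    (hab : b ≤ p ⊔ a) (hY : Y * S * pr (V w) = pr (V p) * pr (V w)) :
    S * Y * T * pr (V w) = T * pr (V w) := by
  have hc : ∀ {U : H →L[ℂ] H}, Gr A (V p) U → (1 - pr (V p)) * ((1 + U) * pr (V p)) = U :=
    fun hU => by
      rw [add_mul, one_mul, hU.2.1, sub_mul, one_mul, mul_add, C.c5b_idem, hU.2.2]
      abel
  have hM : V (w ⊓ b) ≤ LinearMap.ker (((S * Y - 1) * (1 - pr (V p)) : H →L[ℂ] H) : H →ₗ[ℂ] H) := by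
    have h1 : w ⊓ b ≤ w ⊓ p ⊔ w ⊓ g p := by
      rw [ha, ← C.om.inf_sup hw]
      exact inf_le_inf_left w hab
    refine ((C.le_iff _ _).2 h1).trans ?_
    rw [C.map_sup]
    refine clo_le (ContinuousLinearMap.isClosed_ker _) (sup_le ?_ ?_)
    · intro ξ hξ
      have h2 : ξ ∈ V p := (C.le_iff _ _).2 inf_le_right hξ
      change (S * Y - 1) (ξ - pr (V p) ξ) = 0
      rw [(C.c5b_proj p).self h2, sub_self, map_zero]
    · rw [C.map_inf, hg]
      rintro ξ ⟨h4, η, h5, rfl⟩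
      have h6 : (S * Y - 1) * (1 - pr (V p)) * (pr (V w) * ((1 + S) * pr (V p))) = 0 := by
        have h7 : Commute ((1 + S) * pr (V p)) A :=
          ((Commute.one_left A).add_left hS.1).mul_left (C.commute_pr p)
        rw [C.c5b_cen hw h7, mul_assoc, ← mul_assoc (1 - pr (V p)), hc hS, sub_mul, one_mul,
          mul_assoc, ← mul_assoc Y, hY, ← mul_assoc, hS.2.1, sub_self]
      have h7 : ((S * Y - 1) * (1 - pr (V p))) (pr (V w) ((1 + S) (pr (V p) η))) = 0 :=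
        DFunLike.congr_fun h6 η
      rw [(C.c5b_proj p).self h5] at h7
      have h8 := (C.c5b_proj w).self h4
      exact (congrArg _ h8.symm).trans h7
  have h9 : (S * Y - 1) * (1 - pr (V p)) * ((1 + T) * pr (V p) * pr (V w)) = 0 := by
    ext1 ζ
    refine hM (x := ((1 + T) * pr (V p) * pr (V w)) ζ) ?_
    rw [← hb, C.map_inf, hk]
    refine ⟨?_, pr (V p) (pr (V w) ζ), (C.c5b_proj p).mem _, rfl⟩
    rw [← C.c5b_cen hw (((Commute.one_left A).add_left hT.1).mul_left (C.commute_pr p))]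
    exact (C.c5b_proj w).mem _
  rw [mul_assoc, ← mul_assoc (1 - pr (V p)), hc hT, sub_mul, one_mul, sub_eq_zero,
    ← mul_assoc] at h9
  exact h9

theorem c5b_ne (C : Conc o A V) (hS : Gr A (V p) S) (hg : Ind V (1 + S) g) (hw : Cen o w)
    (hw0 : w ≠ ⊥) (hwp : w ≤ cov o p) (ha : w ⊓ g p = w ⊓ a) (ha0 : a ⊓ p = ⊥) :
    S * pr (V w) ≠ 0 := fun h => by
  have h1 := (C.graph_inf hS hg hw).2 h
  have h2 : w ⊓ p = ⊥ := by
    refine le_bot_iff.1 ((le_inf ?_ inf_le_right).trans ha0.le)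
    rw [← h1, ha]
    exact inf_le_right
  rw [C.om.inf_eq_bot_iff hw, inf_eq_left.2 hwp] at h2
  exact hw0 h2

theorem c5b_res (h : w ≤ z) (he : z ⊓ x = z ⊓ y) : w ⊓ x = w ⊓ y := by
  rw [← inf_eq_left.2 h, inf_assoc, inf_assoc, he]

theorem c5b_cp (C : Conc o A V) (hw : Cen o w) (hY : Commute Y A) (hP : pr (V p) * Y = Y)
    (hS : Gr A (V p) S) : Cp A (V p) (Y * S * pr (V w) + (pr (V p) - pr (V p) * pr (V w))) := by
  have hE := C.c5b_cen hw (C.commute_pr p)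
  refine ⟨((hY.mul_left hS.1).mul_left (C.commute_pr w)).add_left ((C.commute_pr p).sub_left
    ((C.commute_pr p).mul_left (C.commute_pr w))), ?_, ?_⟩
  · rw [add_mul, sub_mul, C.c5b_idem, mul_assoc (Y * S), mul_assoc (pr (V p)), hE,
      ← mul_assoc (pr (V p)), C.c5b_idem, ← mul_assoc, mul_assoc Y S (pr (V p)), hS.2.1]
  · rw [mul_add, mul_sub, ← mul_assoc, ← mul_assoc, ← mul_assoc, hP, C.c5b_idem]

theorem c5b_lift (C : Conc o A V) (hw : Cen o w) (hz : Cen o z) (hwz : w ≤ z)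
    (h1 : Y * S = pr (V (z ⊓ p))) (h2 : pr (V (z ⊓ p)) * Y = Y) :
    Y * S * pr (V w) = pr (V p) * pr (V w) ∧ pr (V p) * Y = Y := by
  rw [C.pr_inf_cen hz, C.c5b_cen hz (C.commute_pr p)] at h1 h2
  refine ⟨?_, ?_⟩
  · rw [h1, mul_assoc, C.c5b_cen hz (C.commute_pr w), C.c5b_le hw hwz]
  · rw [← h2, ← mul_assoc, ← mul_assoc, C.c5b_idem]

theorem loc_ho (C : Conc o A V) (hp : Pt o p) (ha : Aff o p a) (hb : Aff o p b)
    (ha0 : a ⊓ p = ⊥) (hb0 : b ⊓ p = ⊥) (hab : b ≤ p ⊔ a) (hz : Cen o z) (h0 : z ≠ ⊥)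
    (h1 : z ≤ cov o p) : ∃ w, Cen o w ∧ w ≠ ⊥ ∧ w ≤ z ∧ ∃ X Y g, Cp A (V p) X ∧ Cp A (V p) Y ∧
      X * Y = pr (V p) ∧ Y * X = pr (V p) ∧ Ind V (Y + (1 - pr (V p))) g ∧
      w ⊓ g a = w ⊓ b := by
  have hba : a ≤ p ⊔ b := by
    have h2 := C.geo.exch ha.1 (hab.trans (sup_comm p a).le) hb0
    rw [C.geo.aff_cov hp hb, ← C.geo.aff_cov hp ha, inf_eq_right.2 (C.om.le_cov a)] at h2
    exact h2.trans (sup_comm b p).le
  obtain ⟨w1, c1, n1, l1, S, ga, hS, hga, ea⟩ := C.loc_graph hp ha hz h0 h1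
  obtain ⟨w2, c2, n2, l2, T, gb, hT, hgb, eb⟩ := C.loc_graph hp hb c1 n1 (l1.trans h1)
  obtain ⟨w3, c3, n3, l3, -, Ya, hYa, a1, a2⟩ := C.loc_inv hp hS.1 hS.2.1 c2
    (C.c5b_ne hS hga c2 n2 (l2.trans (l1.trans h1)) (c5b_res l2 ea) ha0)
  obtain ⟨w, c, n, l, lp, Yb, hYb, b1, b2⟩ := C.loc_inv hp hT.1 hT.2.1 c3
    (C.c5b_ne hT hgb c3 n3 (l3.trans (l2.trans (l1.trans h1))) (c5b_res l3 eb) hb0)
  obtain ⟨a3, a4⟩ := C.c5b_lift c c3 l a1 a2
  obtain ⟨b3, b4⟩ := C.c5b_lift c c le_rfl b1 b2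
  have ea' := c5b_res (l.trans (l3.trans l2)) ea
  have eb' := c5b_res (l.trans l3) eb
  have k1 := C.c5b_key c hS hT hga hgb ea' eb' hab a3
  have k2 := C.c5b_key c hT hS hgb hga eb' ea' hba b3
  have hX := C.c5b_cp c hYa a4 hT
  have hY := C.c5b_cp c hYb b4 hS
  have hE := C.c5b_cen c (C.commute_pr p)
  have e1 := c5b_ring (U := Ya * T) (U' := Yb * S) (C.c5b_idem w) (C.c5b_idem p) hE
    (C.c5b_cen c (hYb.mul_left hS.1)) (by
      rw [← a3, mul_assoc Ya S, ← k2]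
      simp only [mul_assoc])
  have e2 := c5b_ring (U := Yb * S) (U' := Ya * T) (C.c5b_idem w) (C.c5b_idem p) hE
    (C.c5b_cen c (hYa.mul_left hT.1)) (by
      rw [← b3, mul_assoc Yb T, ← k1]
      simp only [mul_assoc])
  obtain ⟨g, hg, -, -⟩ := C.homol hX hY e1 e2
  refine ⟨w, c, n, l.trans (l3.trans (l2.trans l1)), _, _, g, hX, hY, e1, e2, hg, ?_⟩
  have hSX : Gr A (V p) (S * (Ya * T * pr (V w) + (pr (V p) - pr (V p) * pr (V w)))) :=
    ⟨hS.1.mul_left hX.1, by rw [mul_assoc, hX.2.1], by rw [← mul_assoc, hS.2.2, zero_mul]⟩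
  obtain ⟨k, hk⟩ := C.graph hSX
  have e3 := C.homol_graph hX hY e1 e2 hg hS hga hk
  have hinv : ∀ {Z : H →L[ℂ] H}, Commute Z A → ∀ ξ ∈ V w, Z ξ ∈ V w := fun hZ ξ hξ =>
    (C.c5b_proj w).inv_of_commute (C.cen_iff.1 c _ hZ) hξ
  have e4 : g w = w := C.ind_fix hg (C.c5b_comm hX.1)
    (c5b_inv (C.c5b_idem p) hX.2.2 hY.2.1 e2) (hinv (C.c5b_comm hY.1)) (hinv (C.c5b_comm hX.1))
  have e5 : w ⊓ k p = w ⊓ gb p := by
    refine C.ind_loc hk hgb ((Commute.one_left A).add_left hSX.1)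
      ((Commute.one_left A).add_left hT.1) c ?_ p
    rw [add_mul, add_mul, mul_assoc S, add_mul, sub_mul, mul_assoc (pr (V p)), mul_assoc (Ya * T),
      C.c5b_idem, sub_self, add_zero, ← k1]
    simp only [mul_assoc]
  rw [← eb', ← e5, ← e3, ← e4, ← g.map_inf, ← g.map_inf, ea']

end Conc

end Pool.Agent.P.MP_d8da86_an.CR
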