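import Pool.Agent.P.MP_d8da86_an.C.O4

/-!
Lines: the local criterion for the condition on lines, and the two-dimensional case.
Hints. `line_of_loc`: for w and c as in the hypothesis take by Zorn a maximal set F of points
x ≤ w ⊓ (p ⊔ q) with cov x = w, pairwise disjoint, containing the w ⊓ c t; it has the cardinality
of the continuum. There is a nonzero central w' ≤ w such that every point x ≤ w' ⊓ (p ⊔ q) is the
join of the x ⊓ f: otherwise `exists_part` and `pt_mix` give a point with cover w disjoint from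
all members of F. Index F by the reals, then `exists_part` for cov p and mix the families.
`iso_of_line`: Rel x x' says j b ⊓ c t ≤ x ↔ j' b ⊓ c' t ≤ x' for all b, t. Every x ≤ w is the join
of the j b ⊓ c t below it, so Rel preserves the order. For x put x' = the join of the
j' b ⊓ c' t with j b ⊓ c t ≤ x and use `line_cases` with `loc_le`. The situation is symmetric.
-/

open scoped InnerProductSpace ComplexConjugate

set_option linter.unusedSectionVars false
set_option linter.unusedVariables false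

noncomputable section

namespace Pool.Agent.P.MP_d8da86_an.CR

universe u

variable {L : Type u} [CompleteLattice L] {o : L → L} {x z w p q : L}

theorem Geo.line_cases (h : Geo o) (hp : Pt o p) (hq : Pt o q) {c : ℝ → L}
    (hc : LineFam o p q c) (hx : x ≤ p ⊔ q) (hz : Cen o z) (h0 : z ≠ ⊥) :
    ∃ w, Cen o w ∧ w ≠ ⊥ ∧ w ≤ z ∧
      (w ⊓ x = ⊥ ∨ w ⊓ x = w ⊓ (p ⊔ q) ∨ ∃ t, w ⊓ x = w ⊓ c t) := by
  have k := h.toOM
  by_cases h1 : z ⊓ x = ⊥
  · exact ⟨z, hz, h0, le_rfl, Or.inl h1⟩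
  obtain ⟨a, ha, a0, hax⟩ := h.dense _ h1
  obtain ⟨t, ht⟩ : ∃ t, a ⊓ c t ≠ ⊥ := by
    by_contra! h2
    refine a0 ?_
    rw [hc.2.2 a ha (hax.trans (inf_le_right.trans hx)), iSup_eq_bot]
    exact h2
  have hu := k.cen_cov (a ⊓ c t)
  have u1 : cov o (a ⊓ c t) ≤ z := (k.cov_le_iff hz).2 (inf_le_left.trans (hax.trans inf_le_left))
  have u2 : cov o (a ⊓ c t) ⊓ c t ≤ x :=
    (k.pt_eq (hc.1 t).1 inf_le_right).ge.trans (inf_le_left.trans (hax.trans inf_le_right))
  by_cases h2 : cov o (a ⊓ c t) ⊓ x ≤ c t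
  · exact ⟨_, hu, fun e => ht (k.cov_eq_bot.1 e), u1, Or.inr (Or.inr
      ⟨t, le_antisymm (le_inf inf_le_left h2) (le_inf inf_le_left u2)⟩)⟩
  obtain ⟨b, hb, b1, b2⟩ : ∃ b, Pt o b ∧ b ≤ cov o (a ⊓ c t) ⊓ x ∧ ¬b ≤ c t := by
    by_contra! h3
    exact h2 (h.le_of_pts h3)
  have hv : Cen o (o (cov o (b ⊓ c t)) ⊓ cov o b) := k.cen_inf (k.cen_o (k.cen_cov _)) (k.cen_cov b)
  have v1 : o (cov o (b ⊓ c t)) ⊓ cov o b ≤ cov o (a ⊓ c t) :=
    inf_le_right.trans ((k.cov_le_iff hu).2 (b1.trans inf_le_left))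
  refine ⟨_, hv, fun e => b2 ?_, v1.trans u1, Or.inr (Or.inl
    (le_antisymm (inf_le_inf_left _ hx) (le_inf inf_le_left ?_)))⟩
  · exact (k.pt_eq_of_cov hb inf_le_left (k.le_of_o_inf (k.cen_cov _) e)).ge.trans inf_le_right
  · have h4 := h.span_line hp hq (k.pt_mono hb (inf_le_right (a := o (cov o (b ⊓ c t)) ⊓ cov o b)))
      (k.pt_mono (hc.1 t).1 (inf_le_right (a := o (cov o (b ⊓ c t)) ⊓ cov o b)))
      (inf_le_right.trans (b1.trans (inf_le_right.trans hx))) (inf_le_right.trans (hc.1 t).2.1)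
      (le_bot_iff.1 ((inf_le_inf (inf_le_inf_right _ inf_le_left) inf_le_right).trans
        (h.o_cov_inf b (c t)).le))
    rw [k.cov_inf hv, k.cov_inf hv] at h4
    refine le_trans (inf_le_inf_right _ (le_inf (le_inf le_rfl inf_le_right)
      (le_inf le_rfl (v1.trans (k.cov_mono inf_le_right))))) (h4.trans (sup_le ?_ ?_))
    · exact inf_le_right.trans (b1.trans inf_le_right)
    · exact (inf_le_inf_right _ v1).trans u2

/-- transport of the elements below a line -/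
def o4b_F {L' : Type u} [CompleteLattice L'] {B : Type u} (j : B → L) (c : ℝ → L) (j' : B → L')
    (c' : ℝ → L') (x : L) : L' := sSup {y | ∃ b t, j b ⊓ c t ≤ x ∧ y = j' b ⊓ c' t}

theorem o4b_mono {L' : Type u} [CompleteLattice L'] {B : Type u} (j : B → L) (c : ℝ → L)
    (j' : B → L') (c' : ℝ → L') : Monotone (o4b_F j c j' c') := fun _ _ hxy =>
  sSup_le_sSup fun _ ⟨b, t, h1, h2⟩ => ⟨b, t, h1.trans hxy, h2⟩

theorem o4b_zero {B : Type u} [CompleteBooleanAlgebra B] {j : B → L} {c : ℝ → L} (h : OM o)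
    (h1 : cov o p = w) (hj : CenRep o w j) (hc : LineFam o p q c) {b : B} {t : ℝ}
    (h0 : j b ⊓ c t = ⊥) : b = ⊥ := by
  rw [h.inf_eq_bot_iff (hj.cen b),
    inf_eq_left.2 ((hj.le b).trans (h1.ge.trans (h.cov_iff.1 (hc.1 t).2.2)))] at h0
  exact (hj.eq_bot_iff h).1 h0

theorem o4b_inv {L' : Type u} [CompleteLattice L'] {o' : L' → L'} {w' p' q' : L'}
    {B : Type u} [CompleteBooleanAlgebra B] {j : B → L} {j' : B → L'} {c : ℝ → L} {c' : ℝ → L'}
    (h : Geo o) (h' : Geo o') (hp : Pt o p) (hq : Pt o q)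
    (hw : p ⊔ q = w) (h1 : cov o p = w) (h1' : cov o' p' = w')
    (hj : CenRep o w j) (hj' : CenRep o' w' j') (hc : LineFam o p q c)
    (hc' : LineFam o' p' q' c') (hx : x ≤ w) : o4b_F j' c' j c (o4b_F j c j' c' x) = x := by
  have k := h.toOM
  have k' := h'.toOM
  have key : ∀ b b₁ s t, b₁ ≤ b → s ≠ t → j b₁ ⊓ x ≤ c s → j' b ⊓ c' t ≤ o4b_F j c j' c' x →
      j b₁ = ⊥ := by
    intro b b₁ s t hb hst h2 h3
    have h4 : j' b₁ ⊓ o4b_F j c j' c' x ≤ c' s := by
      rw [o4b_F, k'.inf_sSup (hj'.cen b₁)]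
      refine iSup₂_le ?_
      rintro _ ⟨b₂, r, h5, rfl⟩
      rcases eq_or_ne r s with rfl | hr
      · exact inf_le_right.trans inf_le_right
      have h6 : b₁ ⊓ b₂ = ⊥ := by
        refine o4b_zero k h1 hj hc (t := r) (le_bot_iff.1 ?_)
        rw [← hc.2.1 r s hr, hj.map_inf k, inf_assoc]
        exact le_inf (inf_le_right.trans inf_le_right) ((inf_le_inf_left _ h5).trans h2)
      rw [← inf_assoc, ← hj'.map_inf k', h6, hj'.map_bot k', bot_inf_eq]
      exact bot_le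
    refine (hj.eq_bot_iff k).2 (o4b_zero k' h1' hj' hc' (t := t) (le_bot_iff.1 ?_))
    rw [← hc'.2.1 s t hst]
    exact le_inf (le_trans (le_inf inf_le_left
      ((inf_le_inf_right _ ((hj'.le_iff _ _).2 hb)).trans h3)) h4) inf_le_right
  refine le_antisymm (sSup_le ?_) (h.le_of_pts fun a ha hax => ?_)
  · rintro _ ⟨b, t, h2, rfl⟩
    refine k.loc_le fun z hz z0 hzb => ?_
    obtain ⟨u, hu, u0, huz, h3⟩ := h.line_cases hp hq hc (hx.trans hw.ge) hz z0
    have u1 : u ≤ j b := huz.trans (hzb.trans ((k.cov_le_iff (hj.cen b)).2 inf_le_left))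
    obtain ⟨b₁, rfl⟩ := (hj.range u).2 ⟨hu, u1.trans (hj.le b)⟩
    have u2 := (hj.le_iff _ _).1 u1
    refine ⟨_, hu, u0, huz, ?_⟩
    rcases h3 with h3 | h3 | ⟨s, h3⟩
    · exact absurd (key b b₁ (t + 1) t u2 (by linarith) (h3.le.trans bot_le) h2) u0
    · exact ((inf_le_inf_left _ (inf_le_right.trans (hc.1 t).2.1)).trans h3.ge).trans inf_le_right
    · rcases eq_or_ne s t with rfl | hst
      · exact ((inf_le_inf_left _ inf_le_right).trans h3.ge).trans inf_le_right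
      · exact absurd (key b b₁ s t u2 hst (h3.le.trans inf_le_right) h2) u0
  · rw [hc.2.2 a ha (hax.trans (hx.trans hw.ge))]
    refine iSup_le fun t => ?_
    obtain ⟨b, hb⟩ := (hj.range _).2 ⟨k.cen_cov (a ⊓ c t),
      (k.cov_le_iff (h1 ▸ k.cen_cov p)).2 (inf_le_left.trans (hax.trans hx))⟩
    have e : a ⊓ c t = j b ⊓ c t := hb ▸ k.pt_eq (hc.1 t).1 inf_le_right
    refine le_sSup ⟨b, t, le_sSup ⟨b, t, ?_, rfl⟩, e⟩
    exact e.ge.trans (inf_le_left.trans hax)

theorem iso_of_line {L' : Type u} [CompleteLattice L'] {o' : L' → L'} {w' p' q' : L'}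
    {B : Type u} [CompleteBooleanAlgebra B] {j : B → L} {j' : B → L'} {c : ℝ → L} {c' : ℝ → L'}
    (h : Geo o) (h' : Geo o') (hp : Pt o p) (hq : Pt o q) (hp' : Pt o' p') (hq' : Pt o' q')
    (hw : p ⊔ q = w) (hw' : p' ⊔ q' = w') (h1 : cov o p = w) (h1' : cov o' p' = w')
    (hj : CenRep o w j) (hj' : CenRep o' w' j') (hc : LineFam o p q c)
    (hc' : LineFam o' p' q' c') : Nonempty (Set.Iic w ≃o Set.Iic w') := by
  have a1 : ∀ x, o4b_F j c j' c' x ≤ w' := fun x => sSup_le (by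
    rintro _ ⟨b, t, -, rfl⟩
    exact inf_le_left.trans (hj'.le b))
  have a2 : ∀ x, o4b_F j' c' j c x ≤ w := fun x => sSup_le (by
    rintro _ ⟨b, t, -, rfl⟩
    exact inf_le_left.trans (hj.le b))
  exact ⟨Equiv.toOrderIso
    ⟨fun x => ⟨o4b_F j c j' c' x.1, a1 _⟩, fun y => ⟨o4b_F j' c' j c y.1, a2 _⟩,
      fun x => Subtype.ext (o4b_inv h h' hp hq hw h1 h1' hj hj' hc hc' x.2),
      fun y => Subtype.ext (o4b_inv h' h hp' hq' hw' h1' h1 hj' hj hc' hc y.2)⟩
    (fun _ _ hxy => o4b_mono j c j' c' hxy) fun _ _ hxy => o4b_mono j' c' j c hxy⟩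

end Pool.Agent.P.MP_d8da86_an.CR
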