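import Pool.Agent.P.MP_d8da86_an.C.C5b
import Pool.Agent.P.MP_d8da86_an.C.O4b

/-!
The condition on lines.
Hints. Use `line_of_loc`. For z take a nonzero ξ ∈ V (z ⊓ p); its cyclic subspace is w1 ⊓ p; a
nonzero η ∈ V (w1 ⊓ q) has the cyclic subspace w2 ⊓ q. By `cov_disj_iff` there is T with
S = pr q * T * pr p and S * pr w2 ≠ 0, `loc_inv` gives w. The subspace V (w ⊓ (p ⊔ q)) lies in the
separable set closure (cyc ξ + cyc η); closed subsets of a second countable space are at most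
continuum many (`card_closed`: send F to the set of basic open sets which miss it). The points are
the graphs of t • S; if ζ + s • S ζ = ζ' + t • S ζ' then ζ = ζ' and S ζ = 0.
-/

open scoped InnerProductSpace ComplexConjugate

set_option linter.unusedSectionVars false
set_option linter.unusedVariables false

noncomputable section

namespace Pool.Agent.P.MP_d8da86_an.CR

universe u

variable {H : Type*} [NormedAddCommGroup H] [InnerProductSpace ℂ H] [CompleteSpace H]
  {L : Type*} [CompleteLattice L] {o : L → L} {A : H →L[ℂ] H} {V : L → Submodule ℂ H}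
  {a b p q x y z w : L} {S T X Y : H →L[ℂ] H} {g k : L ≃o L}

theorem card_closed {Ω : Type u} [TopologicalSpace Ω] [SecondCountableTopology Ω] :
    Cardinal.mk {F : Set Ω // IsClosed F} ≤ Cardinal.continuum := by
  obtain ⟨b, hb, -, hbas⟩ := TopologicalSpace.exists_countable_basis Ω
  haveI : Countable b := hb.to_subtype
  have hinj : Function.Injective
      fun F : {F : Set Ω // IsClosed F} => {U : b | Disjoint U.1 F.1} := by
    have key : ∀ F G : {F : Set Ω // IsClosed F},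
        {U : b | Disjoint U.1 F.1} = {U : b | Disjoint U.1 G.1} → F.1 ⊆ G.1 := by
      intro F G h v hv
      by_contra hG
      obtain ⟨U, hU, h1, h2⟩ := hbas.exists_subset_of_mem_open (show v ∈ G.1ᶜ from hG)
        G.2.isOpen_compl
      have h3 : (⟨U, hU⟩ : b) ∈ {U : b | Disjoint U.1 G.1} :=
        Set.subset_compl_iff_disjoint_right.1 h2
      rw [← h] at h3
      exact Set.disjoint_left.1 h3 h1 hv
    intro F G h
    exact Subtype.ext ((key F G h).antisymm (key G F h.symm))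
  refine (Cardinal.mk_le_of_injective hinj).trans ?_
  rw [Cardinal.mk_set, ← Cardinal.two_power_aleph0]
  exact Cardinal.power_le_power_left two_ne_zero Cardinal.mk_le_aleph0

theorem c6_sep_cyc (A : H →L[ℂ] H) (ξ : H) :
    TopologicalSpace.IsSeparable (cyc A ξ : Set H) :=
  ((Set.countable_range _).isSeparable.span (R := ℂ)).closure

theorem c6_sep_sup {M N : Submodule ℂ H} (hM : TopologicalSpace.IsSeparable (M : Set H))
    (hN : TopologicalSpace.IsSeparable (N : Set H)) :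
    TopologicalSpace.IsSeparable ((M ⊔ N).topologicalClosure : Set H) := by
  have h := (hM.union hN).span (R := ℂ)
  rw [Submodule.span_union, Submodule.span_eq, Submodule.span_eq] at h
  exact h.closure

theorem c6_card {L : Type u} [CompleteLattice L] {o : L → L} {V : L → Submodule ℂ H}
    (C : Conc o A V) {x : L} (hx : TopologicalSpace.IsSeparable (V x : Set H)) :
    Cardinal.mk (Set.Iic x) ≤ Cardinal.continuum := by
  haveI : TopologicalSpace.SeparableSpace (V x : Set H) := hx.separableSpace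
  haveI : SecondCountableTopology (V x : Set H) := UniformSpace.secondCountable_of_separable _
  have h1 := card_closed (Ω := (V x : Set H))
  have hinj : Function.Injective fun y : Set.Iic x =>
      (⟨Subtype.val ⁻¹' (V y.1 : Set H), (C.closed y.1).preimage continuous_subtype_val⟩ :
        {F : Set (V x : Set H) // IsClosed F}) := by
    have key : ∀ y y' : Set.Iic x, (Subtype.val ⁻¹' (V y.1 : Set H) : Set (V x : Set H)) =
        Subtype.val ⁻¹' (V y'.1 : Set H) → y.1 ≤ y'.1 := by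
      intro y y' h
      refine (C.le_iff _ _).1 fun v hv => ?_
      have h2 : (⟨v, (C.le_iff _ _).2 y.2 hv⟩ : (V x : Set H)) ∈
          (Subtype.val ⁻¹' (V y.1 : Set H) : Set (V x : Set H)) := hv
      rw [h] at h2
      exact h2
    intro y y' h
    have h3 := congrArg Subtype.val h
    exact Subtype.ext ((key y y' h3).antisymm (key y' y h3.symm))
  have h2 := (Cardinal.lift_mk_le_lift_mk_of_injective hinj).trans (Cardinal.lift_le.2 h1)
  rw [Cardinal.lift_continuum] at h2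
  exact Cardinal.lift_le_continuum.1 h2

theorem c6_cyc (C : Conc o A V) (hp : Pt o p) (hz : Cen o z) (h0 : z ≠ ⊥) (h1 : z ≤ cov o p) :
    ∃ w ξ, Cen o w ∧ w ≠ ⊥ ∧ w ≤ z ∧ V (w ⊓ p) = cyc A ξ := by
  have hzp : z ⊓ p ≠ ⊥ := fun h => h0 (by
    have h2 := (C.om.inf_eq_bot_iff hz).1 h
    rwa [inf_eq_left.2 h1] at h2)
  have hV : V (z ⊓ p) ≠ ⊥ := fun h => hzp (C.inj (h.trans C.map_bot.symm))
  obtain ⟨ξ, hξ, hξ0⟩ := Submodule.exists_mem_ne_zero_of_ne_bot hV
  obtain ⟨x, hx⟩ := (C.range _).2 (cyc_mem_Lat A ξ)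
  have hle : x ≤ z ⊓ p := (C.le_iff _ _).1 (hx ▸ cyc_le (C.mem _) hξ)
  refine ⟨cov o x, ξ, C.om.cen_cov x, fun h => hξ0 ?_,
    (C.om.cov_le_iff hz).2 (hle.trans inf_le_left), ?_⟩
  · have h2 := self_mem_cyc A ξ
    rwa [← hx, C.om.cov_eq_bot.1 h, C.map_bot, Submodule.mem_bot] at h2
  · rw [← C.om.pt_eq hp (hle.trans inf_le_right), hx]

theorem c6_idem (C : Conc o A V) (x : L) : pr (V x) * pr (V x) = pr (V x) := by
  ext1 v
  exact (isProj_pr (C.closed x)).self ((isProj_pr (C.closed x)).mem v)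

theorem c6_perp (C : Conc o A V) (h : p ≤ o q) : pr (V p) * pr (V q) = 0 := by
  ext1 v
  refine (isProj_pr (C.closed p)).zero ?_
  have h1 : V q ≤ V (o p) := (C.le_iff _ _).2 (C.om.perp_comm.1 h)
  rw [C.orth] at h1
  exact h1 ((isProj_pr (C.closed q)).mem v)

theorem c6_graph_pr (C : Conc o A V) (hS : Gr A (V p) S) {ζ : H} (hζ : ζ ∈ V p) :
    pr (V p) ((1 + S) ζ) = ζ := by
  have h1 : pr (V p) (S ζ) = 0 := DFunLike.congr_fun hS.2.2 ζ
  change pr (V p) (ζ + S ζ) = ζ
  rw [map_add, h1, add_zero, (isProj_pr (C.closed p)).self hζ]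

theorem Conc.line {L : Type u} [CompleteLattice L] {o : L → L} {V : L → Submodule ℂ H}
    (C : Conc o A V) : LineAx o := by
  intro p q hp hq hpq hc1 hc2
  have h := C.om
  have hc3 := h.cov_iff.1 hc1
  refine C.geo.line_of_loc hp hq (fun z hz h0 h1 => ?_) (h.cov_iff.1 hc2)
  obtain ⟨w1, ξ, hw1, hw10, hw1z, hξ⟩ := c6_cyc C hp hz h0 h1
  obtain ⟨w2, η, hw2, hw20, hw21, hη⟩ := c6_cyc C hq hw1 hw10 (hw1z.trans (h1.trans hc3))
  have hw2p : w2 ≤ cov o p := hw21.trans (hw1z.trans h1)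
  have hne : cov o (w2 ⊓ p) ⊓ cov o q ≠ ⊥ := by
    rw [h.cov_inf hw2, inf_eq_left.2 hw2p, inf_eq_left.2 (hw2p.trans hc3)]
    exact hw20
  obtain ⟨T, hT, hT0⟩ : ∃ T, Commute T A ∧ pr (V q) * T * pr (V (w2 ⊓ p)) ≠ 0 := by
    by_contra hcon
    refine hne (C.cov_disj_iff.2 fun T hT => ?_)
    by_contra h2
    exact hcon ⟨T, hT, h2⟩
  have hSA : Commute (pr (V q) * T * pr (V p)) A :=
    ((C.commute_pr q).mul_left hT).mul_left (C.commute_pr p)
  have hSp : pr (V q) * T * pr (V p) * pr (V p) = pr (V q) * T * pr (V p) := by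
    rw [mul_assoc, c6_idem C]
  have hS0 : pr (V p) * (pr (V q) * T * pr (V p)) = 0 := by
    rw [← mul_assoc, ← mul_assoc, c6_perp C hpq, zero_mul, zero_mul]
  have hSq : ∀ ζ, (pr (V q) * T * pr (V p)) ζ ∈ V q := fun ζ => (isProj_pr (C.closed q)).mem _
  have hSw : pr (V q) * T * pr (V p) * pr (V w2) ≠ 0 := by
    rw [mul_assoc, ← (C.cen_iff.1 hw2 _ (C.commute_pr p)).eq, ← C.pr_inf_cen hw2]
    exact hT0
  generalize pr (V q) * T * pr (V p) = S at hSA hSp hS0 hSq hSw
  obtain ⟨w, hw, hw0, hw3, hwp, Y, -, hY, -⟩ := C.loc_inv hp hSA hSp hw2 hSw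
  have hGr : ∀ t : ℝ, Gr A (V p) ((t : ℂ) • S) := fun t =>
    ⟨hSA.smul_left _, by rw [smul_mul_assoc, hSp], by rw [mul_smul_comm, hS0, smul_zero]⟩
  choose g hg using fun t => C.graph (hGr t)
  refine ⟨w, hw, hw0, hw3.trans (hw21.trans hw1z), c6_card C ?_, fun t => g t p,
    fun t => ⟨(h.pt_map h (g t)).2 hp, ?_, ?_⟩, fun s t hst => ?_⟩
  · have h2 : w ⊓ (p ⊔ q) ≤ w1 ⊓ p ⊔ w2 ⊓ q := by
      rw [h.inf_sup hw]
      exact sup_le_sup (inf_le_inf_right _ (hw3.trans hw21)) (inf_le_inf_right _ hw3)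
    have h3 := (C.le_iff _ _).2 h2
    rw [C.map_sup, hξ, hη] at h3
    exact (c6_sep_sup (c6_sep_cyc A ξ) (c6_sep_cyc A η)).mono h3
  · refine (C.le_iff _ _).1 ?_
    rw [hg t p]
    rintro _ ⟨ζ, hζ, rfl⟩
    change ζ + (t : ℂ) • S ζ ∈ V (p ⊔ q)
    exact Submodule.add_mem _ ((C.le_iff _ _).2 le_sup_left hζ)
      (Submodule.smul_mem _ _ ((C.le_iff _ _).2 le_sup_right (hSq ζ)))
  · have hcz := h.cen_cov (g t p)
    refine hwp.trans ((h.cov_le_iff hcz).2 ((C.le_iff _ _).1 fun ζ hζ => ?_))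
    have h2 : (1 + (t : ℂ) • S) ζ ∈ V (g t p) := by
      rw [hg t p]
      exact ⟨ζ, hζ, rfl⟩
    have h3 := (isProj_pr (C.closed _)).inv_of_commute (C.cen_iff.1 hcz _ (C.commute_pr p))
      ((C.le_iff _ _).2 (h.le_cov (g t p)) h2)
    rwa [c6_graph_pr C (hGr t) hζ] at h3
  · refine C.inj ?_
    rw [C.map_bot, C.map_inf, C.map_inf, hg s p, hg t p, eq_bot_iff]
    rintro v ⟨⟨hv, ζ, hζ, h2⟩, ζ', hζ', h3⟩
    have h4 : (1 + (s : ℂ) • S) ζ = v := h2
    have h5 : (1 + (t : ℂ) • S) ζ' = v := h3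
    have h6 : ζ = ζ' := by
      rw [← c6_graph_pr C (hGr s) hζ, ← c6_graph_pr C (hGr t) hζ', h4, h5]
    subst h6
    have h7 : ζ + (s : ℂ) • S ζ = v := h4
    have h8 : ζ + (t : ℂ) • S ζ = v := h5
    have h9 : S ζ = 0 := by
      have h10 : ((s : ℂ) - t) • S ζ = 0 := by
        rw [sub_smul, sub_eq_zero]
        exact add_left_cancel (h7.trans h8.symm)
      exact (smul_eq_zero.1 h10).resolve_left
        (sub_ne_zero.2 fun h11 => hst (Complex.ofReal_injective h11))
    rw [h9, smul_zero, add_zero] at h7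
    subst h7
    have h12 : Y (S ζ) = pr (V (w ⊓ p)) ζ := DFunLike.congr_fun hY ζ
    have h13 : ζ ∈ V (w ⊓ p) := by
      rw [C.map_inf]
      exact ⟨hv, hζ⟩
    rw [h9, map_zero, (isProj_pr (C.closed _)).self h13] at h12
    exact h12.symm

end Pool.Agent.P.MP_d8da86_an.CR
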