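import Pool.Agent.P.MP_d8da86_an.C.C6

/-!
Elations and homologies.
Hints. Use `Ax.glue` with the local descriptions, then `eq_of_part`; below o (cov p) everything is
fixed and affine points vanish. `elAx`: locally g is induced by 1 + (Sb - Sa), cut down to w.
`loc_hom`: take an affine a with a ⊓ p = ⊥ (`off_pt` with d = ⊥), b = g a, `loc_ho`, `two_eq`.
`exists_sqrt`: `exists_setup` for the normal operator X, K = E.Φ (Z ^ (1 / 2 : ℂ)) * pr p.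
-/

open scoped InnerProductSpace ComplexConjugate

set_option linter.unusedSectionVars false
set_option linter.unusedVariables false

noncomputable section

namespace Pool.Agent.P.MP_d8da86_an.CR

universe u

variable {H : Type*} [NormedAddCommGroup H] [InnerProductSpace ℂ H] [CompleteSpace H]
  {L : Type*} [CompleteLattice L] {o : L → L} {A : H →L[ℂ] H} {V : L → Submodule ℂ H}
  {a b p q x y z w : L} {S T X Y : H →L[ℂ] H} {g k : L ≃o L}

theorem Conc.proj {L : Type u} [CompleteLattice L] {o : L → L} {V : L → Submodule ℂ H}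
    (C : Conc o A V) : Proj o :=
  C.geo.third_of_line C.line

theorem c7_res (hw : w ≤ z) (h : z ⊓ x = z ⊓ y) : w ⊓ x = w ⊓ y := by
  rw [← inf_eq_left.2 hw, inf_assoc, h, inf_assoc]

theorem c7_off (h : Geo o) (hp : Spatial o p) (hg : Ax o p g) (x : L) :
    o (cov o p) ⊓ g x = o (cov o p) ⊓ x := by
  have m := h.toOM
  rw [← hg.map_loc h hp (m.cen_o (m.cen_cov p))]
  exact hg _ (inf_le_left.trans (m.anti (m.le_cov p)))

theorem c7_aff (h : Geo o) (hp : Pt o p) (ha : Aff o p a) : o (cov o p) ⊓ a = ⊥ := by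
  have m := h.toOM
  rw [← h.aff_cov hp ha]
  exact le_bot_iff.1 ((inf_le_inf_left _ (m.le_cov a)).trans (m.o_inf_self _).le)

theorem c7_eq (h : OM o) {S : Set L} (hS : Part o S) (hs : sSup S = cov o p)
    (hl : ∀ w ∈ S, w ⊓ x = w ⊓ y) (h0 : o (cov o p) ⊓ x = o (cov o p) ⊓ y) : x = y :=
  h.eq_of_part hS hl (by rw [hs]; exact h0)

theorem c7_ring {R : Type*} [Ring R] {P X Y : R} (hP : P * P = P) (hX : X * P = X)
    (hY : P * Y = Y) : (X + (1 - P)) * (Y + (1 - P)) = X * Y + (1 - P) := by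
  simp only [add_mul, mul_add, sub_mul, mul_sub, one_mul, mul_one, hP, hX, hY]
  abel

theorem c7_idem (C : Conc o A V) (x : L) : pr (V x) * pr (V x) = pr (V x) :=
  pr_idem (C.closed x)

theorem c7_mul (C : Conc o A V) (hX : Cp A (V p) X) (hY : Cp A (V p) Y) :
    (X + (1 - pr (V p))) * (Y + (1 - pr (V p))) = X * Y + (1 - pr (V p)) :=
  c7_ring (c7_idem C p) hX.2.1 hY.2.2

theorem c7_cp_mul {M : Submodule ℂ H} (hX : Cp A M X) (hY : Cp A M Y) : Cp A M (X * Y) :=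
  ⟨hX.1.mul_left hY.1, by rw [mul_assoc, hY.2.1], by rw [← mul_assoc, hX.2.2]⟩

theorem c7_cp_star (C : Conc o A V) (hX : Cp A (V p) X) : Cp A (V p) (star X) := by
  refine ⟨C.commute_star hX.1, ?_, ?_⟩
  · have := congrArg star hX.2.2
    rwa [star_mul, star_pr (C.closed p)] at this
  · have := congrArg star hX.2.1
    rwa [star_mul, star_pr (C.closed p)] at this

theorem c7_gr (C : Conc o A V) (hw : Cen o w) (hS : Gr A (V p) S) (hT : Gr A (V p) T) :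
    Gr A (V p) ((T - S) * pr (V w)) := by
  refine ⟨(hT.1.sub_left hS.1).mul_left (C.commute_pr w), ?_, ?_⟩
  · rw [mul_assoc, (C.cen_iff.1 hw _ (C.commute_pr p)).eq, ← mul_assoc, sub_mul, hT.2.1, hS.2.1]
  · rw [← mul_assoc, mul_sub, hT.2.2, hS.2.2, sub_zero, zero_mul]

theorem c7_el (C : Conc o A V) (hp : Spatial o p) (ha : Aff o p a) (hb : Aff o p b)
    (hz : Cen o z) (h0 : z ≠ ⊥) (h1 : z ≤ cov o p) : ∃ w, Cen o w ∧ w ≠ ⊥ ∧ w ≤ z ∧
      ∃ g, Ax o p g ∧ w ⊓ g a = w ⊓ b ∧ ∀ x, dr o p a b ≤ x → g x = x := by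
  obtain ⟨w₁, hw₁, w10, w1z, S, ga, hS, hga, ea⟩ := C.loc_graph hp.1 ha hz h0 h1
  obtain ⟨w, hw, w0, ww, T, gb, hT, hgb, eb⟩ := C.loc_graph hp.1 hb hw₁ w10 (w1z.trans h1)
  have ea' := c7_res ww ea
  have hU := c7_gr C hw hS hT
  obtain ⟨g, hg⟩ := C.graph hU
  have hax := C.graph_ax hU hg
  refine ⟨w, hw, w0, ww.trans w1z, g, hax, ?_, fun x hx => C.graph_fix hU hg fun ξ => ?_⟩
  · have hm := C.ind_mul hga hg
    rw [C.graph_mul hU hS] at hm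
    rw [← hax.map_loc C.geo hp hw, ← ea', hax.map_loc C.geo hp hw, ← eb]
    refine C.ind_loc hm hgb ((Commute.one_left A).add_left (hU.1.add_left hS.1))
      ((Commute.one_left A).add_left hT.1) hw ?_ p
    simp only [add_mul, mul_assoc, c7_idem C w, sub_mul]
    abel
  · have h2 : ((T - S) * pr (V w)) ξ ∈ V (w ⊓ dr o p (ga p) (gb p)) := by
      rw [C.map_inf]
      refine ⟨?_, C.graph_dr hS hT hga hgb _⟩
      have h3 : pr (V w) * ((T - S) * pr (V w)) = (T - S) * pr (V w) := by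
        rw [← mul_assoc, (C.cen_iff.1 hw _ (hT.1.sub_left hS.1)).eq, mul_assoc, c7_idem C w]
      exact (pr_eq_self_iff (C.closed w)).1 (congrArg (fun F : H →L[ℂ] H => F ξ) h3)
    rw [C.geo.dr_congr hw ea' eb] at h2
    exact (C.le_iff _ _).2 (inf_le_right.trans hx) h2

theorem c7_sqrt {Ω : Type} [MeasurableSpace Ω] {Z : Ω → ℂ} (hZ : BM Z) :
    ∃ f, BM f ∧ (fun t => f t * f t) = Z := by
  have e : ∀ t, Z t ^ (2⁻¹ : ℂ) * Z t ^ (2⁻¹ : ℂ) = Z t := fun t => by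
    rw [← sq]
    exact Complex.cpow_ofNat_inv_pow _ 2
  obtain ⟨hm, K, hK⟩ := hZ
  refine ⟨fun t => Z t ^ (2⁻¹ : ℂ), ⟨hm.pow_const _, K + 1, fun t => ?_⟩, funext e⟩
  have h1 := hK t
  rw [← e t, norm_mul] at h1
  nlinarith [norm_nonneg (Z t ^ (2⁻¹ : ℂ)), sq_nonneg (‖Z t ^ (2⁻¹ : ℂ)‖ - 1)]

namespace Conc

theorem elAx (C : Conc o A V) (hp : Spatial o p) : ElAx o p := by
  intro a b ha hb
  obtain ⟨G, S, hG, hS, hs, hl, h0⟩ := Ax.glue C.geo hp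
    (fun w g => w ⊓ g a = w ⊓ b ∧ ∀ x, dr o p a b ≤ x → g x = x)
    fun z hz z0 zp => c7_el C hp ha hb hz z0 zp
  refine ⟨G, hG, c7_eq C.om hS hs (fun w hw => ?_) ?_,
    fun x hx => c7_eq C.om hS hs (fun w hw => ?_) (h0 x)⟩
  · obtain ⟨g, -, hg, e⟩ := hl w hw
    rw [e, hg.1]
  · rw [h0, c7_aff C.geo hp.1 ha, c7_aff C.geo hp.1 hb]
  · obtain ⟨g, -, hg, e⟩ := hl w hw
    rw [e, hg.2 x hx]

theorem hoAx (C : Conc o A V) (hp : Spatial o p) : HoAx o p := by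
  intro a b ha hb ha0 hb0 hab
  obtain ⟨G, S, hG, hS, hs, hl, h0⟩ := Ax.glue C.geo hp
    (fun w g => g p = p ∧ w ⊓ g a = w ⊓ b) fun z hz z0 zp => by
      obtain ⟨w, hw, w0, wz, X, Y, g, hX, hY, h1, h2, hg, e⟩ :=
        C.loc_ho hp.1 ha hb ha0 hb0 hab hz z0 zp
      obtain ⟨g', hg', hax, hp'⟩ := C.homol hX hY h1 h2
      obtain rfl := C.ind_ext hg hg'
      exact ⟨w, hw, w0, wz, g, hax, hp', e⟩
  refine ⟨G, hG, c7_eq C.om hS hs (fun w hw => ?_) (h0 p), c7_eq C.om hS hs (fun w hw => ?_) ?_⟩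
  · obtain ⟨g, -, hg, e⟩ := hl w hw
    rw [e, hg.1]
  · obtain ⟨g, -, hg, e⟩ := hl w hw
    rw [e, hg.2]
  · rw [h0, c7_aff C.geo hp.1 ha, c7_aff C.geo hp.1 hb]

theorem loc_hom (C : Conc o A V) (h : Proj o) (hp : Spatial o p) (hg : Ax o p g) (hg0 : g p = p)
    (hz : Cen o z) (h0 : z ≠ ⊥) (h1 : z ≤ cov o p) : ∃ w, Cen o w ∧ w ≠ ⊥ ∧ w ≤ z ∧
      ∃ X Y k, Cp A (V p) X ∧ Cp A (V p) Y ∧ X * Y = pr (V p) ∧ Y * X = pr (V p) ∧
        Ind V (Y + (1 - pr (V p))) k ∧ ∀ x, w ⊓ g x = w ⊓ k x := by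
  have hs := h.toGeo.aff_self hp.1
  obtain ⟨a, ha, ha0⟩ := h.off_pt hp hs C.om.pt_bot bot_le
  rw [sup_bot_eq] at ha0
  have hb0 : g a ⊓ p = ⊥ := by
    have := g.map_inf a p
    rw [ha0, g.map_bot, hg0] at this
    exact this.symm
  have hab : g a ≤ p ⊔ a := by
    have := hg.le_sup h.toGeo hs ha
    rwa [hg0, h.toGeo.sup_dr hs ha] at this
  obtain ⟨w, hw, w0, wz, X, Y, k, hX, hY, h2, h3, hk, e⟩ :=
    C.loc_ho hp.1 ha (hg.aff h.toGeo ha) ha0 hb0 hab hz h0 h1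
  obtain ⟨k', hk', hax, hp'⟩ := C.homol hX hY h2 h3
  obtain rfl := C.ind_ext hk hk'
  exact ⟨w, hw, w0, wz, X, Y, k, hX, hY, h2, h3, hk, hg.two_eq hax h hp hw ha hs e.symm
    (by rw [hg0, hp']) (by rw [inf_assoc, ha0, inf_bot_eq])⟩

theorem commAx (C : Conc o A V) (h : Proj o) (hp : Spatial o p) : CommAx o p := by
  intro g k hg hk hg0 hk0 x
  have m := C.om
  refine m.eq_of_cases (m.cen_cov p) (m.loc_eq_on (m.cen_cov p) fun z hz z0 zp => ?_) ?_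
  · obtain ⟨w₁, hw₁, w10, w1z, X, Y, g', hX, hY, -, -, hg', e⟩ :=
      C.loc_hom h hp hg hg0 hz z0 zp
    obtain ⟨w, hw, w0, ww, X', Y', k', hX', hY', -, -, hk', e'⟩ :=
      C.loc_hom h hp hk hk0 hw₁ w10 (w1z.trans zp)
    refine ⟨w, hw, w0, ww.trans w1z, ?_⟩
    have m1 := C.ind_mul hk' hg'
    have m2 := C.ind_mul hg' hk'
    rw [c7_mul C hY hY', (C.pt_iff.1 hp.1 _ _ hY hY').eq] at m1
    rw [c7_mul C hY' hY] at m2
    have key : g' (k' x) = k' (g' x) := congrArg (fun F : L ≃o L => F x) (C.ind_ext m1 m2)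
    rw [← hg.map_loc h.toGeo hp hw, e' x, hg.map_loc h.toGeo hp hw, c7_res ww (e _), key,
      ← hk.map_loc h.toGeo hp hw, c7_res ww (e x), hk.map_loc h.toGeo hp hw, e']
  · rw [c7_off h.toGeo hp hg, c7_off h.toGeo hp hk, c7_off h.toGeo hp hk, c7_off h.toGeo hp hg]

theorem exists_sqrt (C : Conc o A V) (hp : Pt o p) (hX : Cp A (V p) X) :
    ∃ K, Cp A (V p) K ∧ K * K = X := by
  obtain ⟨Ω, _, E, Z, hZ, hE, hc⟩ :=
    exists_setup X ⟨C.pt_iff.1 hp _ _ (c7_cp_star C hX) hX⟩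
  obtain ⟨f, hf, e⟩ := c7_sqrt hZ
  have h1 : Commute (pr (V p)) (E.Φ f) := hc _ (hX.2.2.trans hX.2.1.symm) f hf
  have h2 : Commute A (E.Φ f) := hc _ hX.1.symm f hf
  have h3 : pr (V p) * (E.Φ f * pr (V p)) = E.Φ f * pr (V p) := by
    rw [← mul_assoc, h1.eq, mul_assoc, c7_idem C p]
  refine ⟨E.Φ f * pr (V p), ⟨h2.symm.mul_left (C.commute_pr p), ?_, h3⟩, ?_⟩
  · rw [mul_assoc, c7_idem C p]
  · rw [mul_assoc, h3, ← mul_assoc, ← E.mul f f hf hf, e, hE, hX.2.1]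

theorem sqAx (C : Conc o A V) (h : Proj o) (hp : Spatial o p) : SqAx o p := by
  intro g hg hg0
  obtain ⟨G, S, hG, hS, hs, hl, h0⟩ := Ax.glue h.toGeo hp
    (fun w k => k p = p ∧ ∀ x, w ⊓ k (k x) = w ⊓ g x) fun z hz z0 zp => by
      obtain ⟨w, hw, w0, wz, X, Y, g', hX, hY, h1, h2, hg', e⟩ := C.loc_hom h hp hg hg0 hz z0 zp
      obtain ⟨K, hK, hKK⟩ := C.exists_sqrt hp.1 hY
      have h3 : K * (K * X) = pr (V p) := by rw [← mul_assoc, hKK, h2]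
      obtain ⟨k, hk, hax, hk0⟩ := C.homol (c7_cp_mul hK hX) hK
        ((C.pt_iff.1 hp.1 _ _ (c7_cp_mul hK hX) hK).eq.trans h3) h3
      refine ⟨w, hw, w0, wz, k, hax, hk0, fun x => ?_⟩
      have m := C.ind_mul hk hk
      rw [c7_mul C hK hK, hKK] at m
      rw [e x, ← C.ind_ext m hg']
      rfl
  refine ⟨G, hG, c7_eq C.om hS hs (fun w hw => ?_) (h0 p),
    fun x => c7_eq C.om hS hs (fun w hw => ?_) ?_⟩
  · obtain ⟨k, -, hk, e⟩ := hl w hw
    rw [e, hk.1]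
  · obtain ⟨k, hax, hk, e⟩ := hl w hw
    rw [e, ← hax.map_loc h.toGeo hp (hS.1 w hw), e, hax.map_loc h.toGeo hp (hS.1 w hw), hk.2]
  · rw [h0, h0, c7_off h.toGeo hp hg]

end Conc

end Pool.Agent.P.MP_d8da86_an.CR
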