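import Pool.Agent.P.MP_d8da86_an.C.P4

/-!
Coordinates with a form: adjoints, betweenness, continuity.
Hints. `ratio_star`: pt (s • e0 + v) perp pt (e0 + w) iff g (pt (s • e0 + v)) ≤ o (k.symm (pt (e0 + w))),
where k.symm has the ratio b⁻¹; with v = w = e1 and star s = -f e1 e1 this gives
star a * b⁻¹ = 1. `btw_iff`: with d = w - u, v - u = t • d, x = e0 + y, n = y - v perp d one has
f (n + t • d) (n + (t - 1) • d) = f n n + star t * (t - 1) * f d d. If this is zero replace t by its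
part on the support of f d d; then t = star t * t + f n n * (quasi-inverse) ≥ 0 and t * t ≤ t.
Conversely take a full vector n0 in the hyperplane perp to d (`Orth.exists_perp`), normalise it and
scale it by a square root of t * (1 - t) * f d d.
`ded_of_cont`: X = {pt (e0 + s • e1)}, s in S, Y the same for upper bounds, a = p.
`cont_of_ded`: translate a to the origin. If Y or X is empty take b = a. Fix y0; x = s x • y0 with
0 ≤ s x ≤ 1 supported on the support of y0, m = sup, b = m • y0. Check x, b, y locally and glue the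
coefficient (`Reg.glue`): where all x' vanish b = x; on the support of some x1 one has y = σ • y0
with σ ≥ s x' for all x' (there), so s x ≤ m ≤ σ there and `div_le`.
-/

open scoped InnerProductSpace ComplexConjugate

set_option linter.unusedSectionVars false
set_option linter.unusedVariables false

noncomputable section

namespace Pool.Agent.P.MP_d8da86_an.CR

universe u

variable {L : Type*} [CompleteLattice L] {o : L → L} {p : L}
  {B : Type*} [CompleteBooleanAlgebra B] {j : B → L} {R : Type*} [CommRing R] [StarRing R]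
  [PartialOrder R] [IsOrderedRing R] {ε : B → R} {E : Type*} [AddCommGroup E] [Module R E]
  {pt : E → L} {e₀ u v w : E} {f : E → E → R} {g k : L ≃o L}

/-- a scalar which lives on the support of `y` and kills `y` is zero -/
theorem p4b_cancel (h : Reg ε) {y : E} {z₀ : B} (hz : ∀ z, ε z • y = 0 ↔ z ⊓ z₀ = ⊥) {r : R}
    (hr : ε z₀ * r = r) (h0 : r • y = 0) : r = 0 := by
  obtain ⟨z, h1, h2⟩ := h.smul_eq_zero h0
  have h3 : z₀ ≤ z := by
    have := (hz _).1 h2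
    rw [inf_comm] at this
    exact disjoint_compl_right_iff.1 (disjoint_iff.2 this)
  rw [← hr, ← h.of_le h3, mul_assoc, h1, mul_zero]

/-- least upper bounds are local -/
theorem p4b_lub (h : BC ε) {S : Set R} {m σ : R} (hm : IsLUB S m) (z : B)
    (hs : ∀ s ∈ S, ε z * s ≤ ε z * σ) : ε z * m ≤ ε z * σ := by
  have h1 : m ≤ ε z * σ + ε zᶜ * m := by
    refine hm.2 ?_
    intro s hsS
    have e : s = ε z * s + ε zᶜ * s := by rw [← add_mul, h.toReg.add_compl, one_mul]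
    rw [e]
    exact add_le_add (hs s hsS) (mul_le_mul_of_nonneg_left (hm.1 hsS) (h.eps_nonneg _))
  have h2 := mul_le_mul_of_nonneg_left h1 (h.eps_nonneg z)
  rwa [mul_add, ← mul_assoc, ← mul_assoc, h.toReg.idem, h.toReg.mul_compl, zero_mul,
    add_zero] at h2

/-- a coefficient between zero and one can be found locally -/
theorem p4b_glue (h : BC ε) (m : BMod ε E) {a b : E}
    (hl : ∀ z, z ≠ ⊥ → ∃ w, w ≠ ⊥ ∧ w ≤ z ∧ ∃ t : R, 0 ≤ t ∧ t ≤ 1 ∧ ε w • a = ε w • t • b) :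
    ∃ t : R, 0 ≤ t ∧ t ≤ 1 ∧ a = t • b := by
  obtain ⟨r, S, -, hS, hr⟩ := h.toReg.glue
    (fun w t => 0 ≤ t ∧ t ≤ 1 ∧ ε w • a = ε w • t • b) hl
  refine ⟨r, h.le_of_part hS ?_, h.le_of_part hS ?_, m.eq_of_part h.toReg hS ?_⟩
  · intro w hw
    obtain ⟨t, ⟨t0, -, -⟩, e⟩ := hr w hw
    rw [e]
    exact mul_le_mul_of_nonneg_left t0 (h.eps_nonneg w)
  · intro w hw
    obtain ⟨t, ⟨-, t1, -⟩, e⟩ := hr w hw
    rw [e]
    exact mul_le_mul_of_nonneg_left t1 (h.eps_nonneg w)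
  · intro w hw
    obtain ⟨t, ⟨-, -, ht⟩, e⟩ := hr w hw
    rw [ht, smul_smul, smul_smul, e]

/-- on the support of a coefficient, `y` is a nonnegative multiple of `y₀` -/
theorem p4b_mult (h : BC ε) {y y₀ : E} {z₀ z : B} (hz : ∀ z, ε z • y₀ = 0 ↔ z ⊓ z₀ = ⊥)
    {s t : R} (s0 : 0 ≤ s) (hs : ε z₀ * s = s) (t0 : 0 ≤ t) (hst : s • y₀ = t • y)
    (hne : ε z * s ≠ 0) :
    ∃ w, w ≠ ⊥ ∧ w ≤ z ∧ w ≤ z₀ ∧ ∃ σ : R, 0 ≤ σ ∧ ε w • y = (ε w * σ) • y₀ := by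
  obtain ⟨z₁, q, q0, hq, -, -, hz₁⟩ := h.qinv_nonneg s0
  have h10 : z₁ ≤ z₀ := by
    have e : ε z₀ᶜ * s = 0 := by
      rw [← hs, ← mul_assoc, mul_comm (ε z₀ᶜ), h.toReg.mul_compl, zero_mul]
    have := (hz₁ _).1 e
    rw [inf_comm] at this
    exact disjoint_compl_right_iff.1 (disjoint_iff.2 this)
  have hw : z ⊓ z₁ ≠ ⊥ := fun e => hne ((hz₁ z).2 e)
  set w := z ⊓ z₁ with hwd
  have hw1 : w ≤ z₁ := inf_le_right
  have hw0 : w ≤ z₀ := hw1.trans h10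
  have hc : ε w • y₀ = (ε w * q * t) • y := by
    calc ε w • y₀ = (ε w * ε z₁) • y₀ := by rw [h.toReg.of_le hw1]
      _ = (ε w * q) • s • y₀ := by
        rw [smul_smul, ← hq]
        congr 1
        ring
      _ = (ε w * q * t) • y := by rw [hst, smul_smul]
  have c0 : 0 ≤ ε w * q * t := mul_nonneg (mul_nonneg (h.eps_nonneg w) q0) t0
  obtain ⟨z₂, σ, σ0, hσ, -, -, hz₂⟩ := h.qinv_nonneg c0
  have hw2 : w ≤ z₂ := by
    have e1 : ε (w ⊓ z₂ᶜ) * (ε w * q * t) = 0 := (hz₂ _).2 (by simp [inf_assoc])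
    have e2 : ε (w ⊓ z₂ᶜ) • y₀ = 0 := by
      rw [← h.toReg.smul_smul_of_le (inf_le_left : w ⊓ z₂ᶜ ≤ w), hc, smul_smul, e1, zero_smul]
    have e3 := (hz _).1 e2
    rw [inf_eq_left.2 (inf_le_left.trans hw0)] at e3
    exact disjoint_compl_right_iff.1 (disjoint_iff.2 e3)
  refine ⟨w, hw, inf_le_left, hw0, σ, σ0, ?_⟩
  calc ε w • y = (ε w * ε z₂) • y := by rw [h.toReg.of_le hw2]
    _ = (ε w * σ) • (ε w * q * t) • y := by
      rw [smul_smul, ← hσ]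
      congr 1
      ring
    _ = (ε w * σ) • y₀ := by
      rw [← hc, smul_smul, mul_assoc, mul_comm σ, ← mul_assoc, h.toReg.idem]

theorem p4b_alg (h : BC ε) (m : BMod ε E) (hd : Ded R) {X Y : Set E}
    (hXY : ∀ x ∈ X, ∀ y ∈ Y, ∃ t : R, 0 ≤ t ∧ t ≤ 1 ∧ x = t • y) {y₀ : E} (hy₀ : y₀ ∈ Y)
    (hX : X.Nonempty) :
    ∃ c : R, ∀ x ∈ X, ∀ y ∈ Y, ∃ t : R, 0 ≤ t ∧ t ≤ 1 ∧ c • y₀ - x = t • (y - x) := by
  obtain ⟨z₀, hz1, -, hz⟩ := m.supp' h.toReg y₀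
  set S : Set R := {s | 0 ≤ s ∧ s ≤ 1 ∧ ε z₀ * s = s ∧ s • y₀ ∈ X} with hS
  have hrep : ∀ x ∈ X, ∃ s ∈ S, x = s • y₀ := by
    intro x hx
    obtain ⟨t, t0, t1, ht⟩ := hXY x hx y₀ hy₀
    have e : x = (ε z₀ * t) • y₀ := by rw [mul_comm, ← smul_smul, hz1, ht]
    refine ⟨ε z₀ * t, ⟨mul_nonneg (h.eps_nonneg _) t0, (h.eps_mul_le _ t0).trans t1, ?_, ?_⟩, e⟩
    · rw [← mul_assoc, h.toReg.idem]
    · rw [← e]
      exact hx
  obtain ⟨x₀, hx₀⟩ := hX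
  obtain ⟨s₀, hs₀, -⟩ := hrep x₀ hx₀
  obtain ⟨c, hc⟩ := hd S ⟨s₀, hs₀⟩ (fun s hs => hs.1) ⟨1, fun s hs => hs.2.1⟩
  refine ⟨c, ?_⟩
  intro x hx y hy
  obtain ⟨s, hs, rfl⟩ := hrep x hx
  have hsc : s ≤ c := hc.1 hs
  refine p4b_glue h m ?_
  intro z hzb
  by_cases hall : ∀ s' ∈ S, ε z * s' = 0
  · refine ⟨z, hzb, le_rfl, 0, le_rfl, zero_le_one, ?_⟩
    have h1 : ε z * c ≤ ε z * 0 := p4b_lub h hc z fun s' hs' => by rw [hall s' hs', mul_zero]
    rw [mul_zero] at h1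
    have h2 : ε z * c = 0 := le_antisymm h1 (mul_nonneg (h.eps_nonneg z) (hs.1.trans hsc))
    rw [smul_sub, smul_smul, smul_smul, h2, hall s hs, zero_smul, zero_smul, sub_zero, smul_zero]
  · push Not at hall
    obtain ⟨s₁, hs₁, hne⟩ := hall
    obtain ⟨t₁, t0, -, ht₁⟩ := hXY _ hs₁.2.2.2 y hy
    obtain ⟨w, hw, hwz, hw0, σ, σ0, hσ⟩ := p4b_mult h hz hs₁.1 hs₁.2.2.1 t0 ht₁ hne
    have hub : ∀ s' ∈ S, ε w * s' ≤ ε w * σ := by
      intro s' hs'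
      obtain ⟨t', t0', t1', ht'⟩ := hXY _ hs'.2.2.2 y hy
      have e1 : (ε w * (s' - t' * σ)) • y₀ = 0 := by
        have e2 : (ε w * s') • y₀ = (t' * (ε w * σ)) • y₀ := by
          rw [← smul_smul, ht', smul_comm, hσ, smul_smul]
        have e3 : ε w * (s' - t' * σ) = ε w * s' - t' * (ε w * σ) := by ring
        rw [e3, sub_smul, e2, sub_self]
      have e4 : ε w * (s' - t' * σ) = 0 := by
        refine p4b_cancel h.toReg hz ?_ e1
        rw [← mul_assoc, mul_comm (ε z₀), h.toReg.of_le hw0]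
      have e5 : ε w * s' = t' * (ε w * σ) := by linear_combination e4
      rw [e5]
      exact mul_le_of_le_one_left (mul_nonneg (h.eps_nonneg w) σ0) t1'
    have h1 : ε w * c ≤ ε w * σ := p4b_lub h hc w hub
    have h2 : ε w * s ≤ ε w * c := mul_le_mul_of_nonneg_left hsc (h.eps_nonneg w)
    obtain ⟨t, t0', t1', ht⟩ := h.div_le (sub_nonneg.2 h2) (sub_le_sub_right h1 (ε w * s))
    refine ⟨w, hw, hwz, t, t0', t1', ?_⟩
    rw [smul_comm (ε w) t, smul_sub, smul_sub, hσ, smul_smul, smul_smul, ← sub_smul, ← sub_smul,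
      ht, smul_smul]

namespace FM

theorem ded_of_cont (M : FM o p j ε pt e₀ f) (h : Geo o) (hp : Spatial o p)
    (hj : CenRep o (cov o p) j) (hc : ContAx o p) : Ded R := by
  intro S hS h0 hb
  have hz : pt (0 : E) ≤ o p := by
    rw [M.toPM.pt_zero h hj]
    exact bot_le
  obtain ⟨n, hn, -, hnn⟩ := M.exists_unit_perp h hp hj hz
  have hs : ∀ s : R, pt (s • n) ≤ o p := fun s => M.toPM.smul_mem s hn
  obtain ⟨b, hb1, hb2⟩ := hc ((fun s : R => pt (e₀ + s • n)) '' S)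
    ((fun s : R => pt (e₀ + s • n)) '' upperBounds S) (pt (e₀ + 0))
    (by
      rintro _ ⟨s, -, rfl⟩
      exact M.toPM.aff_pt h hj (hs s))
    (by
      rintro _ ⟨s, -, rfl⟩
      exact M.toPM.aff_pt h hj (hs s))
    (M.toPM.aff_pt h hj hz)
    (by
      rintro _ ⟨s, hsS, rfl⟩ _ ⟨y, hy, rfl⟩
      obtain ⟨t, t0, t1, ht⟩ := M.bc.div_le (h0 s hsS) (hy hsS)
      refine (M.btw_iff h hp hj hz (hs s) (hs y)).2 ⟨t, t0, t1, ?_⟩
      rw [sub_zero, sub_zero, smul_smul, ← ht])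
  obtain ⟨w, hw, rfl⟩ := M.toPM.aff_surj h hj hb1
  have key : ∀ s ∈ S, ∀ y ∈ upperBounds S, s ≤ f n w ∧ f n w ≤ y := by
    intro s hsS y hy
    obtain ⟨t, t0, t1, ht⟩ :=
      (M.btw_iff h hp hj (hs s) hw (hs y)).1 (hb2 _ ⟨s, hsS, rfl⟩ _ ⟨y, hy, rfl⟩)
    have e := congrArg (f n) ht
    rw [M.pd.toIsForm.sub_right, M.pd.smul, M.pd.smul, M.pd.toIsForm.sub_right, M.pd.smul,
      M.pd.smul, hnn, mul_one, mul_one] at e
    have hys : 0 ≤ y - s := sub_nonneg.2 (hy hsS)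
    constructor
    · rw [← sub_nonneg, e]
      exact mul_nonneg t0 hys
    · have e2 : y - f n w = (1 - t) * (y - s) := by linear_combination -e
      rw [← sub_nonneg, e2]
      exact mul_nonneg (sub_nonneg.2 t1) hys
  obtain ⟨s₀, hs₀⟩ := hS
  obtain ⟨y₀, hy₀⟩ := hb
  exact ⟨f n w, fun s hsS => (key s hsS y₀ hy₀).1, fun y hy => (key s₀ hs₀ y hy).2⟩

theorem cont_of_ded (M : FM o p j ε pt e₀ f) (h : Geo o) (hp : Spatial o p)
    (hj : CenRep o (cov o p) j) (hd : Ded R) : ContAx o p := by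
  intro X Y a hX hY ha hXY
  rcases X.eq_empty_or_nonempty with rfl | ⟨x₀, hx₀⟩
  · exact ⟨a, ha, fun x hx => absurd hx (Set.notMem_empty x)⟩
  rcases Y.eq_empty_or_nonempty with rfl | ⟨y₀, hy₀⟩
  · exact ⟨a, ha, fun x _ y hy => absurd hy (Set.notMem_empty y)⟩
  obtain ⟨α, hα, rfl⟩ := M.toPM.aff_surj h hj ha
  have hrep : ∀ Z : Set L, (∀ x ∈ Z, Aff o p x) → ∀ x ∈ Z, ∃ u,
      u ∈ {u : E | pt u ≤ o p ∧ pt (e₀ + (α + u)) ∈ Z} ∧ x = pt (e₀ + (α + u)) := by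
    intro Z hZ x hx
    obtain ⟨u, hu, rfl⟩ := M.toPM.aff_surj h hj (hZ x hx)
    have e : α + (u - α) = u := by abel
    refine ⟨u - α, ⟨M.toPM.sub_mem hu hα, ?_⟩, ?_⟩
    · rw [e]
      exact hx
    · rw [e]
  obtain ⟨u₀, hu₀, -⟩ := hrep X hX x₀ hx₀
  obtain ⟨v₀, hv₀, -⟩ := hrep Y hY y₀ hy₀
  obtain ⟨c, hc⟩ := p4b_alg M.bc M.bm hd (X := {u : E | pt u ≤ o p ∧ pt (e₀ + (α + u)) ∈ X})
    (Y := {u : E | pt u ≤ o p ∧ pt (e₀ + (α + u)) ∈ Y})
    (by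
      intro x hx y hy
      obtain ⟨t, t0, t1, ht⟩ := (M.btw_iff h hp hj hα (M.toPM.add_mem hα hx.1)
        (M.toPM.add_mem hα hy.1)).1 (hXY _ hx.2 _ hy.2)
      refine ⟨t, t0, t1, ?_⟩
      rwa [add_sub_cancel_left, add_sub_cancel_left] at ht)
    hv₀ ⟨u₀, hu₀⟩
  have hb : pt (α + c • v₀) ≤ o p := M.toPM.add_mem hα (M.toPM.smul_mem c hv₀.1)
  refine ⟨pt (e₀ + (α + c • v₀)), M.toPM.aff_pt h hj hb, ?_⟩
  intro x hx y hy
  obtain ⟨u, hu, rfl⟩ := hrep X hX x hx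
  obtain ⟨v, hv, rfl⟩ := hrep Y hY y hy
  obtain ⟨t, t0, t1, ht⟩ := hc u hu v hv
  refine (M.btw_iff h hp hj (M.toPM.add_mem hα hu.1) hb (M.toPM.add_mem hα hv.1)).2
    ⟨t, t0, t1, ?_⟩
  rwa [add_sub_add_left_eq_sub, add_sub_add_left_eq_sub]

theorem orthoMod (M : FM o p j ε pt e₀ f) (h : Geo o) : OrthoMod f := by
  intro S v
  obtain ⟨a, b, ha, hb, hv⟩ := M.toPM.split h v (⨆ s ∈ S, pt s)
  refine ⟨a, b, hv, ?_, ?_⟩
  · intro s hs
    rw [M.perp]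
    exact (le_iSup₂_of_le s hs le_rfl : pt s ≤ ⨆ s ∈ S, pt s).trans (h.toOM.perp_comm.1 hb)
  · intro c hc
    rw [M.perp, h.toOM.perp_comm]
    exact ha.trans (iSup₂_le fun s hs => (M.perp s c).1 (hc s hs))

end FM

end Pool.Agent.P.MP_d8da86_an.CR
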