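import Pool.Agent.P.MP_d8da86_an.C.C7
import Pool.Agent.P.MP_d8da86_an.C.P4b

/-!
The scalars are locally bounded operators.
Hints. For S with Gr let vec S be the vector with g p = pt (e0 + vec S), g induced by 1 + S.
vec (S + T) = vec S + vec T by `graph_tr`, `tr_map`, `ind_mul`, `graph_mul`. Say Rel X r if
vec (S * X) = r • vec S for all S. Rel is closed under sums and products (Cp is commutative), r is
unique (every vector of the hyperplane is locally a vec S by `loc_graph`, `aff_loc`; then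
`loc_eq`, `scalar_ext`). For invertible X the ratio of `homol` works (`homol_graph`), and a
general X is (X - c • pr p) + c • pr p with c > ‖X‖ (Neumann series: X - c is a unit commuting with
pr p). star: `ind_star`, `ratio_star` for invertible X, then additivity. Local surjectivity:
`Reg.dich`, `exists_hom`, `loc_hom`.
-/

open scoped InnerProductSpace ComplexConjugate

set_option linter.unusedSectionVars false
set_option linter.unusedVariables false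

noncomputable section

namespace Pool.Agent.P.MP_d8da86_an.CR

universe u

variable {H : Type*} [NormedAddCommGroup H] [InnerProductSpace ℂ H] [CompleteSpace H]
  {L : Type*} [CompleteLattice L] {o : L → L} {A : H →L[ℂ] H} {V : L → Submodule ℂ H}
  {a b p q x y z w : L} {S T X Y : H →L[ℂ] H} {g k : L ≃o L}

/-- `X` and `Y` are inverse to each other on `V p` -/
def c8_Inv (A : H →L[ℂ] H) (M : Submodule ℂ H) (X Y : H →L[ℂ] H) : Prop :=
  Cp A M X ∧ Cp A M Y ∧ X * Y = pr M ∧ Y * X = pr M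

theorem c8_gr_mul {M : Submodule ℂ H} (hS : Gr A M S) (hX : Cp A M X) : Gr A M (S * X) :=
  ⟨hS.1.mul_left hX.1, by rw [mul_assoc, hX.2.1], by rw [← mul_assoc, hS.2.2, zero_mul]⟩

theorem c8_cp_add {M : Submodule ℂ H} (hX : Cp A M X) (hY : Cp A M Y) : Cp A M (X + Y) :=
  ⟨hX.1.add_left hY.1, by rw [add_mul, hX.2.1, hY.2.1], by rw [mul_add, hX.2.2, hY.2.2]⟩

theorem c8_cp_mul {M : Submodule ℂ H} (hX : Cp A M X) (hY : Cp A M Y) : Cp A M (X * Y) :=
  ⟨hX.1.mul_left hY.1, by rw [mul_assoc, hY.2.1], by rw [← mul_assoc, hX.2.2]⟩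

theorem c8_cp_zero {M : Submodule ℂ H} : Cp A M 0 :=
  ⟨Commute.zero_left A, by rw [zero_mul], by rw [mul_zero]⟩

theorem c8_cp_star (C : Conc o A V) (hX : Cp A (V p) X) : Cp A (V p) (star X) := by
  have hP := star_pr (C.closed p)
  refine ⟨C.commute_star hX.1, ?_, ?_⟩
  · have := congrArg star hX.2.2
    rwa [star_mul, hP] at this
  · have := congrArg star hX.2.1
    rwa [star_mul, hP] at this

theorem c8_inv_star (C : Conc o A V) (hI : c8_Inv A (V p) X Y) :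
    c8_Inv A (V p) (star X) (star Y) := by
  have hP := star_pr (C.closed p)
  refine ⟨c8_cp_star C hI.1, c8_cp_star C hI.2.1, ?_, ?_⟩
  · rw [← star_mul, hI.2.2.2, hP]
  · rw [← star_mul, hI.2.2.1, hP]

theorem c8_inv_of_unit (C : Conc o A V) {U W : H →L[ℂ] H} (h1 : U * W = 1) (h2 : W * U = 1)
    (hA : Commute U A) (hP : Commute U (pr (V p))) :
    c8_Inv A (V p) (U * pr (V p)) (W * pr (V p)) := by
  have hi := pr_idem (C.closed p)
  have inv : ∀ Q : H →L[ℂ] H, Commute U Q → Commute W Q := by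
    intro Q hQ
    have e : W * Q = W * (Q * U) * W := by
      rw [mul_assoc, mul_assoc, h1, mul_one]
    show W * Q = Q * W
    rw [e, ← hQ.eq, ← mul_assoc, h2, one_mul]
  have hWA := inv A hA
  have hWP := inv _ hP
  refine ⟨⟨hA.mul_left (C.commute_pr p), by rw [mul_assoc, hi], ?_⟩,
    ⟨hWA.mul_left (C.commute_pr p), by rw [mul_assoc, hi], ?_⟩, ?_, ?_⟩
  · rw [← mul_assoc, ← hP.eq, mul_assoc, hi]
  · rw [← mul_assoc, ← hWP.eq, mul_assoc, hi]
  · rw [mul_assoc, ← mul_assoc (pr (V p)), ← hWP.eq, mul_assoc W, hi, ← mul_assoc, h1, one_mul]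
  · rw [mul_assoc, ← mul_assoc (pr (V p)), ← hP.eq, mul_assoc U, hi, ← mul_assoc, h2, one_mul]

/-- every operator on `V p` is a sum of two invertible ones -/
theorem c8_split (C : Conc o A V) (hX : Cp A (V p) X) :
    ∃ X₁ Y₁ X₂ Y₂, c8_Inv A (V p) X₁ Y₁ ∧ c8_Inv A (V p) X₂ Y₂ ∧ X = X₁ + X₂ := by
  set c : ℝ := ‖X‖ + 1 with hc
  have c0 : 0 < c := by positivity
  have c0' : (c : ℂ) ≠ 0 := by exact_mod_cast c0.ne'
  have hn : ‖(c : ℂ)⁻¹ • X‖ < 1 := by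
    rw [norm_smul, norm_inv, Complex.norm_real, Real.norm_of_nonneg c0.le, inv_mul_lt_iff₀ c0]
    linarith
  let u := Units.oneSub ((c : ℂ)⁻¹ • X) hn
  have hu : (u : H →L[ℂ] H) = 1 - (c : ℂ)⁻¹ • X := rfl
  have hXP : Commute X (pr (V p)) := by
    show X * pr (V p) = pr (V p) * X
    rw [hX.2.1, hX.2.2]
  have i1 : c8_Inv A (V p) ((-(c : ℂ) • (u : H →L[ℂ] H)) * pr (V p))
      ((-(c : ℂ)⁻¹ • ((u⁻¹ : (H →L[ℂ] H)ˣ) : H →L[ℂ] H)) * pr (V p)) := by
    refine c8_inv_of_unit C ?_ ?_ ?_ ?_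
    · rw [smul_mul_smul_comm, Units.mul_inv, neg_mul_neg, mul_inv_cancel₀ c0', one_smul]
    · rw [smul_mul_smul_comm, Units.inv_mul, neg_mul_neg, inv_mul_cancel₀ c0', one_smul]
    · rw [hu]
      exact ((Commute.one_left A).sub_left (hX.1.smul_left _)).smul_left _
    · rw [hu]
      exact ((Commute.one_left _).sub_left (hXP.smul_left _)).smul_left _
  have i2 : c8_Inv A (V p) (((c : ℂ) • (1 : H →L[ℂ] H)) * pr (V p))
      (((c : ℂ)⁻¹ • (1 : H →L[ℂ] H)) * pr (V p)) := by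
    refine c8_inv_of_unit C ?_ ?_ ?_ ?_
    · rw [smul_mul_smul_comm, mul_one, mul_inv_cancel₀ c0', one_smul]
    · rw [smul_mul_smul_comm, mul_one, inv_mul_cancel₀ c0', one_smul]
    · exact (Commute.one_left A).smul_left _
    · exact (Commute.one_left _).smul_left _
  refine ⟨_, _, _, _, i1, i2, ?_⟩
  rw [← add_mul, hu, smul_sub, smul_smul, neg_mul, mul_inv_cancel₀ c0', neg_smul, neg_smul,
    one_smul, sub_neg_eq_add, add_right_comm, neg_add_cancel, zero_add, hX.2.1]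

section

variable {B : Type*} [CompleteBooleanAlgebra B] {j : B → L} {R : Type*}
  [CommRing R] {ε : B → R} {E : Type*}
  [AddCommGroup E] [Module R E] {pt : E → L} {e₀ u v : E} {r s : R}

/-- `v` is the vector of the graph of `S` -/
def c8_Vec (o : L → L) (V : L → Submodule ℂ H) (p : L) (pt : E → L) (e₀ : E) (S : H →L[ℂ] H)
    (v : E) : Prop :=
  pt v ≤ o p ∧ ∃ g : L ≃o L, Ind V (1 + S) g ∧ g p = pt (e₀ + v)

/-- `X` acts on the graphs as the scalar `r` -/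
def c8_Rel (o : L → L) (A : H →L[ℂ] H) (V : L → Submodule ℂ H) (p : L) (pt : E → L) (e₀ : E)
    (X : H →L[ℂ] H) (r : R) : Prop :=
  ∀ S u, Gr A (V p) S → c8_Vec o V p pt e₀ S u → c8_Vec o V p pt e₀ (S * X) (r • u)

theorem c8_vec_exists (C : Conc o A V) (h : Geo o) (hp : Spatial o p)
    (hj : CenRep o (cov o p) j) (M : PM o p j ε pt e₀) (hS : Gr A (V p) S) :
    ∃ v, c8_Vec o V p pt e₀ S v := by
  obtain ⟨g, hg⟩ := C.graph hS
  obtain ⟨v, hv, he⟩ := M.aff_surj h hj ((C.graph_ax hS hg).aff h (h.aff_self hp.1))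
  exact ⟨v, hv, g, hg, he⟩

theorem c8_vec_unique (C : Conc o A V) (h : Geo o) (hj : CenRep o (cov o p) j)
    (M : PM o p j ε pt e₀) (hu : c8_Vec o V p pt e₀ S u) (hv : c8_Vec o V p pt e₀ S v) :
    u = v := by
  obtain ⟨hu1, g, hg, hg'⟩ := hu
  obtain ⟨hv1, k, hk, hk'⟩ := hv
  have e := C.ind_ext hg hk
  subst e
  exact M.aff_inj h hj hu1 hv1 (hg'.symm.trans hk')

theorem c8_zero_le (h : Geo o) (hj : CenRep o (cov o p) j) (M : PM o p j ε pt e₀) :
    pt 0 ≤ o p := by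
  rw [M.pt_zero h hj]
  exact bot_le

theorem c8_vec_add (C : Conc o A V) (h : Geo o) (hp : Spatial o p)
    (hj : CenRep o (cov o p) j) (M : PM o p j ε pt e₀) (hS : Gr A (V p) S) (hT : Gr A (V p) T)
    (hu : c8_Vec o V p pt e₀ S u) (hv : c8_Vec o V p pt e₀ T v) :
    c8_Vec o V p pt e₀ (S + T) (u + v) := by
  obtain ⟨hu1, g, hg, hg'⟩ := hu
  obtain ⟨hv1, k, hk, hk'⟩ := hv
  obtain ⟨w, hw, hw'⟩ := M.tr_map h hp hj (C.graph_tr hp.1 hS hg)
  have e : w = u := by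
    have h0 := hw' 0 (c8_zero_le h hj M)
    rw [add_zero, zero_add, M.base, hg'] at h0
    exact (M.aff_inj h hj hu1 hw h0).symm
  subst e
  refine ⟨M.add_mem hu1 hv1, k.trans g, ?_, ?_⟩
  · have := C.ind_mul hk hg
    rwa [C.graph_mul hS hT] at this
  · rw [OrderIso.trans_apply, hk', hw' v hv1, add_comm v w]

theorem c8_exists_j (h : Geo o) (hj : CenRep o (cov o p) j) {z : B} (hw : Cen o w) (h0 : w ≠ ⊥)
    (h1 : w ≤ j z) : ∃ c, c ≠ ⊥ ∧ c ≤ z ∧ j c = w := by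
  obtain ⟨c, hc⟩ := (hj.range w).mpr ⟨hw, le_trans h1 (hj.le z)⟩
  refine ⟨c, ?_, ?_, hc⟩
  · intro hc0
    rw [hc0, hj.map_bot h.toOM] at hc
    exact h0 hc.symm
  · rw [← hj.le_iff, hc]
    exact h1

theorem c8_vec_loc (C : Conc o A V) (h : Geo o) (hp : Spatial o p)
    (hj : CenRep o (cov o p) j) (M : PM o p j ε pt e₀) (hv : pt v ≤ o p) {z : B} (hz : z ≠ ⊥) :
    ∃ c, c ≠ ⊥ ∧ c ≤ z ∧ ∃ S u, Gr A (V p) S ∧ c8_Vec o V p pt e₀ S u ∧ ε c • u = ε c • v := by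
  obtain ⟨w, hw, hw0, hw1, S, g, hS, hg, he⟩ := C.loc_graph hp.1 (M.aff_pt h hj hv) (hj.cen z)
    (fun h0 => hz ((hj.eq_bot_iff h.toOM).mp h0)) (hj.le z)
  obtain ⟨c, hc0, hc1, rfl⟩ := c8_exists_j h hj hw hw0 hw1
  obtain ⟨u, hu, k, hk, hk'⟩ := c8_vec_exists C h hp hj M hS
  have e := C.ind_ext hg hk
  subst e
  refine ⟨c, hc0, hc1, S, u, hS, ⟨hu, g, hg, hk'⟩, ?_⟩
  rw [← M.aff_loc h hj hu hv c, ← hk', he]

theorem c8_rel_unique (C : Conc o A V) (h : Geo o) (hp : Spatial o p)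
    (hj : CenRep o (cov o p) j) (M : PM o p j ε pt e₀) (hr : c8_Rel o A V p pt e₀ X r)
    (hs : c8_Rel o A V p pt e₀ X s) : r = s := by
  refine M.scalar_ext h hp hj fun v hv => ?_
  refine M.bm.loc_eq M.reg fun z hz => ?_
  obtain ⟨c, hc0, hc1, S, u, hS, hu, he⟩ := c8_vec_loc C h hp hj M hv hz
  refine ⟨c, hc0, hc1, ?_⟩
  have e := c8_vec_unique C h hj M (hr S u hS hu) (hs S u hS hu)
  rw [smul_comm (ε c) r v, smul_comm (ε c) s v, ← he, smul_comm r, smul_comm s, e]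

theorem c8_rel_add (C : Conc o A V) (h : Geo o) (hp : Spatial o p)
    (hj : CenRep o (cov o p) j) (M : PM o p j ε pt e₀) (hX : Cp A (V p) X) (hY : Cp A (V p) Y)
    (hr : c8_Rel o A V p pt e₀ X r) (hs : c8_Rel o A V p pt e₀ Y s) :
    c8_Rel o A V p pt e₀ (X + Y) (r + s) := by
  intro S u hS hu
  rw [mul_add, add_smul]
  exact c8_vec_add C h hp hj M (c8_gr_mul hS hX) (c8_gr_mul hS hY) (hr S u hS hu) (hs S u hS hu)

theorem c8_rel_mul (hX : Cp A (V p) X) (hr : c8_Rel o A V p pt e₀ X r)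
    (hs : c8_Rel o A V p pt e₀ Y s) : c8_Rel o A V p pt e₀ (X * Y) (r * s) := by
  intro S u hS hu
  rw [← mul_assoc, mul_comm r s, mul_smul]
  exact hs _ _ (c8_gr_mul hS hX) (hr S u hS hu)

theorem c8_rel_inv (C : Conc o A V) (h : Geo o) (hp : Spatial o p)
    (hj : CenRep o (cov o p) j) (M : PM o p j ε pt e₀) (hI : c8_Inv A (V p) X Y)
    (hg : Ind V (Y + (1 - pr (V p))) g) : Ax o p g ∧ g p = p ∧
      ∃ a : R, (∀ v, pt v ≤ o p → g (pt (e₀ + v)) = pt (e₀ + a • v)) ∧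
        c8_Rel o A V p pt e₀ X a := by
  obtain ⟨g', hg', hax, h0⟩ := C.homol hI.1 hI.2.1 hI.2.2.1 hI.2.2.2
  have e := C.ind_ext hg' hg
  subst e
  obtain ⟨a, ha⟩ := M.ratio h hp hj hax h0
  have ha' : ∀ v, pt v ≤ o p → g' (pt (e₀ + v)) = pt (e₀ + (a : R) • v) := by
    intro v hv
    have := ha 1 v hv
    rwa [one_smul] at this
  refine ⟨hax, h0, a, ha', ?_⟩
  rintro S u hS ⟨hu, k, hk, hk0⟩
  obtain ⟨k', hk'⟩ := C.graph (c8_gr_mul hS hI.1)
  refine ⟨M.smul_mem _ hu, k', hk', ?_⟩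
  rw [← C.homol_graph hI.1 hI.2.1 hI.2.2.1 hI.2.2.2 hg hS hk hk', hk0, ha' u hu]

theorem c8_cp_cen (C : Conc o A V) (z : L) : Cp A (V p) (pr (V (z ⊓ p))) := by
  have hle : V (z ⊓ p) ≤ V p := (C.le_iff _ _).mpr inf_le_right
  have := pr_mul_of_le (C.closed p) (C.closed (z ⊓ p)) hle
  exact ⟨C.commute_pr _, this.2, this.1⟩

theorem c8_rel_cen (C : Conc o A V) (h : Geo o) (hp : Spatial o p)
    (hj : CenRep o (cov o p) j) (M : PM o p j ε pt e₀) (b : B) :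
    c8_Rel o A V p pt e₀ (pr (V (j b ⊓ p))) (ε b) := by
  rintro S u hS ⟨hu, g, hg, hg0⟩
  have hS' := c8_gr_mul hS (c8_cp_cen (p := p) C (j b))
  obtain ⟨v, hv, k, hk, hk0⟩ := c8_vec_exists C h hp hj M hS'
  have hZ : S * pr (V (j b ⊓ p)) = S * pr (V (j b)) := by
    have hc : Commute (pr (V (j b))) S := C.cen_iff.mp (hj.cen b) S hS.1
    rw [C.pr_inf_cen (hj.cen b), ← mul_assoc, ← hc.eq, mul_assoc, hS.2.1]
  have e : v = ε b • u := by
    refine M.reg.eq_of_cases (z := b) ?_ ?_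
    · rw [M.reg.smul_smul_of_le le_rfl, ← M.aff_loc h hj hv hu b, ← hk0, ← hg0]
      refine C.ind_loc hk hg ((Commute.one_left A).add_left hS'.1)
        ((Commute.one_left A).add_left hS.1) (hj.cen b) ?_ p
      rw [add_mul, add_mul, hZ, mul_assoc, pr_idem (C.closed _)]
    · have h1 : ε bᶜ • ε b • u = ε bᶜ • (0 : E) := by
        rw [smul_smul, mul_comm, M.reg.mul_compl, zero_smul, smul_zero]
      rw [h1, ← M.aff_loc h hj hv (c8_zero_le h hj M) bᶜ, ← hk0, add_zero, M.base,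
        C.graph_inf hS' hk (hj.cen bᶜ), hZ, mul_assoc, ← C.pr_inf_cen (hj.cen b),
        ← hj.map_inf h.toOM, inf_compl_eq_bot, hj.map_bot h.toOM, C.pr_eq_zero.mpr rfl, mul_zero]
  rw [← e]
  exact ⟨hv, k, hk, hk0⟩

end

section

variable {B : Type*} [CompleteBooleanAlgebra B] {j : B → L} {R : Type*}
  [CommRing R] [StarRing R] [PartialOrder R] [IsOrderedRing R] {ε : B → R} {E : Type*}
  [AddCommGroup E] [Module R E] {pt : E → L} {e₀ : E} {f : E → E → R}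

theorem c8_rel_inv_star (C : Conc o A V) (h : Geo o) (hp : Spatial o p)
    (hj : CenRep o (cov o p) j) (M : FM o p j ε pt e₀ f) (hI : c8_Inv A (V p) X Y) :
    ∃ a : R, c8_Rel o A V p pt e₀ X a ∧ c8_Rel o A V p pt e₀ (star X) (star a) := by
  have hI' := c8_inv_star C hI
  obtain ⟨g, hg, -⟩ := C.homol hI.1 hI.2.1 hI.2.2.1 hI.2.2.2
  obtain ⟨k, hk, -⟩ := C.homol hI'.1 hI'.2.1 hI'.2.2.1 hI'.2.2.2
  obtain ⟨g1, g2, a, ha, ha'⟩ := c8_rel_inv C h hp hj M.toPM hI hg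
  obtain ⟨k1, k2, b, hb, hb'⟩ := c8_rel_inv C h hp hj M.toPM hI' hk
  have hi := pr_idem (C.closed p)
  have hk' : Ind V (star (Y + (1 - pr (V p)))) k := by
    rwa [star_add, star_sub, star_one, star_pr (C.closed p)]
  have m : ∀ X Y : H →L[ℂ] H, Cp A (V p) X → Cp A (V p) Y → Y * X = pr (V p) →
      (Y + (1 - pr (V p))) * (X + (1 - pr (V p))) = 1 := by
    intro X Y hX hY hYX
    simp only [add_mul, mul_add, mul_sub, sub_mul, mul_one, one_mul, hYX, hY.2.1, hX.2.2, hi]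
    abel
  have hgk := C.ind_star hg hk' (m X Y hI.1 hI.2.1 hI.2.2.2) (m Y X hI.2.1 hI.1 hI.2.2.1)
  have e := M.ratio_star h hp hj g1 k1 g2 k2 hgk ha hb
  exact ⟨a, ha', e ▸ hb'⟩

theorem c8_rel_exists (C : Conc o A V) (h : Geo o) (hp : Spatial o p)
    (hj : CenRep o (cov o p) j) (M : FM o p j ε pt e₀ f) (hX : Cp A (V p) X) :
    ∃ a : R, c8_Rel o A V p pt e₀ X a ∧ c8_Rel o A V p pt e₀ (star X) (star a) := by
  obtain ⟨X₁, Y₁, X₂, Y₂, i1, i2, rfl⟩ := c8_split C hX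
  obtain ⟨a, ha, ha'⟩ := c8_rel_inv_star C h hp hj M i1
  obtain ⟨b, hb, hb'⟩ := c8_rel_inv_star C h hp hj M i2
  refine ⟨a + b, c8_rel_add C h hp hj M.toPM i1.1 i2.1 ha hb, ?_⟩
  rw [star_add, star_add]
  exact c8_rel_add C h hp hj M.toPM (c8_cp_star C i1.1) (c8_cp_star C i2.1) ha' hb'

end

theorem Conc.exists_rho {B : Type*} [CompleteBooleanAlgebra B] {j : B → L} {R : Type*}
    [CommRing R] [StarRing R] [PartialOrder R] [IsOrderedRing R] {ε : B → R} {E : Type*}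
    [AddCommGroup E] [Module R E] {pt : E → L} {e₀ : E} {f : E → E → R} (C : Conc o A V)
    (h : Proj o) (hp : Spatial o p) (hj : CenRep o (cov o p) j) (M : FM o p j ε pt e₀ f) :
    ∃ ρ : (H →L[ℂ] H) → R,
      (∀ X Y, Cp A (V p) X → Cp A (V p) Y → ρ (X + Y) = ρ X + ρ Y) ∧
      (∀ X Y, Cp A (V p) X → Cp A (V p) Y → ρ (X * Y) = ρ X * ρ Y) ∧
      (∀ X, Cp A (V p) X → ρ (star X) = star (ρ X)) ∧
      (∀ b, ρ (pr (V (j b ⊓ p))) = ε b) ∧
      ∀ (r : R) (b : B), b ≠ ⊥ → ∃ c, c ≠ ⊥ ∧ c ≤ b ∧ ∃ X, Cp A (V p) X ∧ ε c * r = ε c * ρ X := by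
  have hG := h.toGeo
  have N := M.toPM
  have ex : ∀ X, Cp A (V p) X →
      ∃ a : R, c8_Rel o A V p pt e₀ X a ∧ c8_Rel o A V p pt e₀ (star X) (star a) :=
    fun X hX => c8_rel_exists C hG hp hj M hX
  choose! ρ hρ hρ' using ex
  have eq : ∀ X (r : R), Cp A (V p) X → c8_Rel o A V p pt e₀ X r → ρ X = r :=
    fun X r hX hr => c8_rel_unique C hG hp hj N (hρ X hX) hr
  have hadd : ∀ X Y, Cp A (V p) X → Cp A (V p) Y → ρ (X + Y) = ρ X + ρ Y := fun X Y hX hY =>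
    eq _ _ (c8_cp_add hX hY) (c8_rel_add C hG hp hj N hX hY (hρ X hX) (hρ Y hY))
  refine ⟨ρ, hadd, fun X Y hX hY => ?_, fun X hX => ?_, fun b => ?_, fun r b hb => ?_⟩
  · exact eq _ _ (c8_cp_mul hX hY) (c8_rel_mul hX (hρ X hX) (hρ Y hY))
  · exact eq _ _ (c8_cp_star C hX) (hρ' X hX)
  · exact eq _ _ (c8_cp_cen C (j b)) (c8_rel_cen C hG hp hj N b)
  · obtain ⟨w, hw0, hw1, hw | ⟨k, hk⟩⟩ := N.reg.dich r hb
    · refine ⟨w, hw0, hw1, 0, c8_cp_zero, ?_⟩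
      have h0 := hadd 0 0 c8_cp_zero c8_cp_zero
      rw [add_zero, left_eq_add] at h0
      rw [hw, h0, mul_zero]
    · obtain ⟨g, g1, g2, hg⟩ := N.exists_hom hG hp hj (C.hoAx hp) k
      obtain ⟨y, hy, hy0, hy1, X, Y, k', hX, hY, h1, h2, hk', he⟩ := C.loc_hom h hp g1 g2
        (hj.cen w) (fun h0 => hw0 ((hj.eq_bot_iff hG.toOM).mp h0)) (hj.le w)
      obtain ⟨c, hc0, hc1, rfl⟩ := c8_exists_j hG hj hy hy0 hy1
      obtain ⟨-, -, a, ha, ha'⟩ := c8_rel_inv C hG hp hj N ⟨hX, hY, h1, h2⟩ hk'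
      refine ⟨c, hc0, le_trans hc1 hw1, X, hX, ?_⟩
      rw [eq X a hX ha']
      have e1 : ε c * r = ε c * k := by
        rw [← N.reg.of_le hc1, mul_assoc, hk, mul_assoc]
      rw [e1]
      refine N.scalar_ext hG hp hj fun v hv => ?_
      rw [mul_smul, mul_smul, ← N.aff_loc hG hj (N.smul_mem _ hv) (N.smul_mem _ hv) c,
        ← hg v hv, ← ha v hv, he]

end Pool.Agent.P.MP_d8da86_an.CR
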