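import Pool.Agent.P.MP_d8da86_an.C.R2b

/-!
Dedekind completeness from binary expansions, and the complex scalars.
Hints. `ded_of`: no infinitesimals: if a is self-adjoint and 2 ^ n * a ≤ 1 for all n then a ≤ 0
(apply the first hypothesis to the quasi-inverse of the positive part). For S in [0, 1] define
s 0 = 0, s (n + 1) = 2 * s n + ε (z n) with z n the join over x in S of the complements of the
`cut` of 2 * s n + 1 - 2 ^ (n + 1) * x. Invariants: 2 ^ n * x ≤ s n + 1 for x in S, and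
s n ≤ 2 ^ n * u for every upper bound u (`nonneg_sSup`). In general an upper bound is locally below
an integer n; find the supremum locally (scale by the inverse of n + 1), glue, `le_of_part`.
-/

open scoped InnerProductSpace ComplexConjugate

set_option linter.unusedSectionVars false
set_option linter.unusedVariables false

noncomputable section

namespace Pool.Agent.P.MP_d8da86_an.CR

universe u

variable {B : Type*} [CompleteBooleanAlgebra B] {R : Type*} [CommRing R] [StarRing R]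
  [PartialOrder R] [IsOrderedRing R] {ε : B → R}

theorem r3_inf (h : BC ε)
    (h1 : ∀ r : R, star r = r → ∀ z, z ≠ ⊥ → ∃ w, w ≠ ⊥ ∧ w ≤ z ∧ ∃ n : ℕ, ε w * r ≤ n)
    {a : R} (ha : ∀ n : ℕ, 2 ^ n * a ≤ 1) : a ≤ 0 := by
  have sa : star a = a := by
    have h0 : (0 : R) ≤ 1 - a := by simpa using ha 0
    have := h.star_eq h0
    rw [star_sub, star_one] at this
    exact sub_right_injective this
  obtain ⟨c, hc, hc'⟩ := h.total a sa
  obtain ⟨y, s, s0, e1, e2, -, -⟩ := h.qinv_nonneg hc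
  have hy : y = ⊥ := by
    by_contra hy
    obtain ⟨w, w0, wy, n, hn⟩ := h1 s (h.star_eq s0) y hy
    have w1 := h.eps_nonneg w
    have a1 : ε w ≤ n * (ε c * a) := by
      have := mul_le_mul_of_nonneg_right hn hc
      rwa [mul_assoc, mul_comm s, e1, h.toReg.of_le wy] at this
    have a2 : 2 ^ n * (ε c * a) ≤ 1 := by
      have := mul_le_mul_of_nonneg_left (ha n) (h.eps_nonneg c)
      rw [mul_left_comm, mul_one] at this
      exact this.trans (h.eps_le_one c)
    have p2 : (0 : R) ≤ 2 ^ n := pow_nonneg zero_le_two n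
    have a3 : 2 ^ n * ε w ≤ n := by
      refine (mul_le_mul_of_nonneg_left a1 p2).trans ?_
      rw [mul_left_comm]
      simpa using mul_le_mul_of_nonneg_left a2 (Nat.cast_nonneg (α := R) n)
    have a4 : 2 ^ n * ε w ≤ n * ε w := by
      have := mul_le_mul_of_nonneg_right a3 w1
      rwa [mul_assoc, h.toReg.idem] at this
    have a5 : ((n + 1 : ℕ) : R) ≤ 2 ^ n := by
      have : ((n + 1 : ℕ) : R) ≤ ((2 ^ n : ℕ) : R) := Nat.mono_cast (Nat.lt_two_pow_self)
      simpa using this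
    have a6 := (mul_le_mul_of_nonneg_right a5 w1).trans a4
    rw [Nat.cast_succ, add_mul, one_mul, add_le_iff_nonpos_right] at a6
    exact w0 (h.eq_bot w (le_antisymm a6 w1))
  rw [hy, h.toReg.bot, zero_mul] at e2
  have e : a = ε c * a + ε cᶜ * a := by rw [← add_mul, h.toReg.add_compl, one_mul]
  rw [e, ← e2, zero_add]
  exact hc'

theorem r3_unit (h : BC ε)
    (h1 : ∀ r : R, star r = r → ∀ z, z ≠ ⊥ → ∃ w, w ≠ ⊥ ∧ w ≤ z ∧ ∃ n : ℕ, ε w * r ≤ n)
    (h2 : ∀ (z : ℕ → B) (s : ℕ → R), s 0 = 0 → (∀ n, s (n + 1) = 2 * s n + ε (z n)) →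
      ∃ r : R, ∀ n, s n ≤ 2 ^ n * r ∧ 2 ^ n * r ≤ s n + 1)
    {S : Set R} (hne : S.Nonempty) (h0 : ∀ x ∈ S, 0 ≤ x) (hb : ∀ x ∈ S, x ≤ 1) :
    ∃ m, IsLUB S m := by
  have hc : ∀ r : R, ∃ z, star r = r → 0 ≤ ε z * r ∧ ε zᶜ * r ≤ 0 := fun r => by
    by_cases hr : star r = r
    · obtain ⟨z, hz⟩ := h.total r hr
      exact ⟨z, fun _ => hz⟩
    · exact ⟨⊥, fun e => absurd e hr⟩
  choose c hc using hc
  let Z : ℕ → R → B := fun n t => sSup ((fun x => (c (2 * t + 1 - 2 ^ (n + 1) * x))ᶜ) '' S)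
  let s : ℕ → R := fun n => Nat.rec 0 (fun n t => 2 * t + ε (Z n t)) n
  have s0 : s 0 = 0 := rfl
  have s1 : ∀ n, s (n + 1) = 2 * s n + ε (Z n (s n)) := fun n => rfl
  have p2 : ∀ n, (0 : R) ≤ 2 ^ n := fun n => pow_nonneg zero_le_two n
  have i0 : ∀ n, 0 ≤ s n := fun n => by
    induction n with
    | zero => exact s0.ge
    | succ n ih => rw [s1]; exact add_nonneg (mul_nonneg zero_le_two ih) (h.eps_nonneg _)
  have sa : ∀ n, ∀ x ∈ S, star (2 * s n + 1 - 2 ^ (n + 1) * x) = 2 * s n + 1 - 2 ^ (n + 1) * x :=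
    fun n x hx => by
      rw [star_sub, h.star_eq (mul_nonneg (p2 _) (h0 x hx)),
        h.star_eq (add_nonneg (mul_nonneg zero_le_two (i0 n)) zero_le_one)]
  have i1 : ∀ n, ∀ x ∈ S, 2 ^ n * x ≤ s n + 1 := fun n x hx => by
    induction n with
    | zero => simpa [s0] using hb x hx
    | succ n ih =>
      rw [s1, ← sub_nonneg]
      refine h.nonneg_of_cases (z := Z n (s n)) ?_ ?_
      · have e : ε (Z n (s n)) * (2 * s n + ε (Z n (s n)) + 1 - 2 ^ (n + 1) * x) =
            ε (Z n (s n)) * (2 * (s n + 1 - 2 ^ n * x)) := by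
          linear_combination h.toReg.idem (Z n (s n))
        rw [e]
        exact mul_nonneg (h.eps_nonneg _) (mul_nonneg zero_le_two (sub_nonneg.2 ih))
      · have hle : (Z n (s n))ᶜ ≤ c (2 * s n + 1 - 2 ^ (n + 1) * x) :=
          compl_le_of_compl_le (le_sSup ⟨x, hx, rfl⟩)
        have e : ε (Z n (s n))ᶜ * (2 * s n + ε (Z n (s n)) + 1 - 2 ^ (n + 1) * x) =
            ε (Z n (s n))ᶜ * (ε (c (2 * s n + 1 - 2 ^ (n + 1) * x)) *
              (2 * s n + 1 - 2 ^ (n + 1) * x)) := by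
          linear_combination h.toReg.mul_compl (Z n (s n)) -
            (2 * s n + 1 - 2 ^ (n + 1) * x) * h.toReg.of_le hle
        rw [e]
        exact mul_nonneg (h.eps_nonneg _) (hc _ (sa n x hx)).1
  have i2 : ∀ u ∈ upperBounds S, ∀ n, s n ≤ 2 ^ n * u := fun u hu n => by
    induction n with
    | zero =>
      obtain ⟨x, hx⟩ := hne
      simpa [s0] using (h0 x hx).trans (hu hx)
    | succ n ih =>
      rw [s1, ← sub_nonneg]
      refine h.nonneg_of_cases (z := Z n (s n)) ?_ ?_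
      · have e : ε (Z n (s n)) * (2 ^ (n + 1) * u - (2 * s n + ε (Z n (s n)))) =
            ε (Z n (s n)) * (2 ^ (n + 1) * u - (2 * s n + 1)) := by
          linear_combination -h.toReg.idem (Z n (s n))
        rw [e]
        refine h.nonneg_sSup ?_
        rintro _ ⟨x, hx, rfl⟩
        have a1 := (hc _ (sa n x hx)).2
        have a2 := mul_nonneg (h.eps_nonneg (c (2 * s n + 1 - 2 ^ (n + 1) * x))ᶜ)
          (mul_nonneg (p2 (n + 1)) (sub_nonneg.2 (hu hx)))
        refine (sub_nonneg.2 (a1.trans a2)).trans_eq ?_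
        ring
      · have e : ε (Z n (s n))ᶜ * (2 ^ (n + 1) * u - (2 * s n + ε (Z n (s n)))) =
            ε (Z n (s n))ᶜ * (2 * (2 ^ n * u - s n)) := by
          linear_combination -h.toReg.mul_compl (Z n (s n))
        rw [e]
        exact mul_nonneg (h.eps_nonneg _) (mul_nonneg zero_le_two (sub_nonneg.2 ih))
  obtain ⟨r, hr⟩ := h2 (fun n => Z n (s n)) s s0 s1
  refine ⟨r, fun x hx => sub_nonpos.1 (r3_inf h h1 fun n => ?_),
    fun u hu => sub_nonpos.1 (r3_inf h h1 fun n => ?_)⟩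
  · rw [mul_sub]
    exact (sub_le_sub (i1 n x hx) (hr n).1).trans_eq (by ring)
  · rw [mul_sub]
    exact (sub_le_sub (hr n).2 (i2 u hu n)).trans_eq (by ring)

theorem BC.ded_of (h : BC ε)
    (h1 : ∀ r : R, star r = r → ∀ z, z ≠ ⊥ → ∃ w, w ≠ ⊥ ∧ w ≤ z ∧ ∃ n : ℕ, ε w * r ≤ n)
    (h2 : ∀ (z : ℕ → B) (s : ℕ → R), s 0 = 0 → (∀ n, s (n + 1) = 2 * s n + ε (z n)) →
      ∃ r : R, ∀ n, s n ≤ 2 ^ n * r ∧ 2 ^ n * r ≤ s n + 1) : Ded R := by
  rintro S hne h0 ⟨u, hu⟩
  have u0 : 0 ≤ u := by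
    obtain ⟨x, hx⟩ := hne
    exact (h0 x hx).trans (hu hx)
  obtain ⟨k, hk⟩ := h.isUnit_of_le (r := u + 1) (le_add_of_nonneg_left u0)
  have k0 : 0 ≤ (k : R) := hk ▸ add_nonneg u0 zero_le_one
  have k1 := h.inv_nonneg k k0
  obtain ⟨m, hm⟩ := r3_unit h h1 h2 (S := (fun x => ((k⁻¹ : Rˣ) : R) * x) '' S) (hne.image _)
    (by rintro _ ⟨x, hx, rfl⟩; exact mul_nonneg k1 (h0 x hx))
    (by
      rintro _ ⟨x, hx, rfl⟩
      have : x ≤ k := hk ▸ (hu hx).trans (le_add_of_nonneg_right zero_le_one)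
      simpa using mul_le_mul_of_nonneg_left this k1)
  refine ⟨k * m, fun x hx => ?_, fun v hv => ?_⟩
  · simpa using mul_le_mul_of_nonneg_left (hm.1 ⟨x, hx, rfl⟩) k0
  · have : m ≤ ((k⁻¹ : Rˣ) : R) * v := hm.2 (by
      rintro _ ⟨x, hx, rfl⟩
      exact mul_le_mul_of_nonneg_left (hv hx) k1)
    simpa using mul_le_mul_of_nonneg_left this k0

end Pool.Agent.P.MP_d8da86_an.CR
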