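import Pool.Agent.P.MP_d8da86_an.C.C8
import Pool.Agent.P.MP_d8da86_an.C.R3

/-!
The scalars are Dedekind complete.
Hints. `rho_nonneg`: a positive X in Cp is star Y * Y with Y = CFC.sqrt X * pr p in Cp (the square
root commutes with A and pr p, `Commute.cfc_nnreal` or `exists_setup`). `BC.ded_of`: if
ε c * r = ε c * ρ X with r self-adjoint then 2 * (ε c * r) = ε c * ρ (X + star X) and
n • pr p - (X + star X) is positive for large n, so ε c * r ≤ n (use `total`: on the positive part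
r ≤ 2 r). For the expansions put X = ∑ 2⁻¹ ^ (k + 1) • P k with P k = pr (V (j (z k) ⊓ p)); then
2 ^ n • X = s n + Xn with 0 ≤ Xn ≤ pr p.
-/

open scoped InnerProductSpace ComplexConjugate

set_option linter.unusedSectionVars false
set_option linter.unusedVariables false

noncomputable section

namespace Pool.Agent.P.MP_d8da86_an.CR

universe u

variable {H : Type*} [NormedAddCommGroup H] [InnerProductSpace ℂ H] [CompleteSpace H]
  {L : Type*} [CompleteLattice L] {o : L → L} {A : H →L[ℂ] H} {V : L → Submodule ℂ H}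
  {a b p q x y z w : L} {S T X Y : H →L[ℂ] H} {g k : L ≃o L}

theorem c9_proj (C : Conc o A V) (x : L) : IsStarProjection (pr (V x)) := by
  have h := isProj_pr (C.closed x)
  exact ⟨ContinuousLinearMap.ext fun ξ => h.self (h.mem ξ), h.star_eq⟩

theorem c9_cp_pr (C : Conc o A V) (hx : x ≤ p) : Cp A (V p) (pr (V x)) := by
  have h1 : pr (V p) * pr (V x) = pr (V x) :=
    ContinuousLinearMap.ext fun ξ => (isProj_pr (C.closed p)).self
      ((C.le_iff x p).2 hx ((isProj_pr (C.closed x)).mem ξ))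
  refine ⟨C.commute_pr x, ?_, h1⟩
  have h2 := congrArg star h1
  rwa [star_mul, (c9_proj C x).isSelfAdjoint.star_eq, (c9_proj C p).isSelfAdjoint.star_eq] at h2

theorem c9_cp_add {M : Submodule ℂ H} (hX : Cp A M X) (hY : Cp A M Y) : Cp A M (X + Y) :=
  ⟨hX.1.add_left hY.1, by rw [add_mul, hX.2.1, hY.2.1], by rw [mul_add, hX.2.2, hY.2.2]⟩

theorem c9_cp_sub {M : Submodule ℂ H} (hX : Cp A M X) (hY : Cp A M Y) : Cp A M (X - Y) :=
  ⟨hX.1.sub_left hY.1, by rw [sub_mul, hX.2.1, hY.2.1], by rw [mul_sub, hX.2.2, hY.2.2]⟩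

theorem c9_cp_zero (M : Submodule ℂ H) : Cp A M 0 :=
  ⟨Commute.zero_left _, zero_mul _, mul_zero _⟩

theorem c9_cp_smul {M : Submodule ℂ H} (hX : Cp A M X) (t : ℝ) : Cp A M (t • X) :=
  ⟨hX.1.smul_left t, by rw [smul_mul_assoc, hX.2.1], by rw [mul_smul_comm, hX.2.2]⟩

theorem c9_cp_nsmul {M : Submodule ℂ H} (hX : Cp A M X) (n : ℕ) : Cp A M (n • X) := by
  rw [← Nat.cast_smul_eq_nsmul ℝ]
  exact c9_cp_smul hX _

theorem c9_cp_star (C : Conc o A V) (hX : Cp A (V p) X) : Cp A (V p) (star X) := by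
  have hP := (c9_proj C p).isSelfAdjoint.star_eq
  refine ⟨C.commute_star hX.1, ?_, ?_⟩
  · have h := congrArg star hX.2.2
    rwa [star_mul, hP] at h
  · have h := congrArg star hX.2.1
    rwa [star_mul, hP] at h

theorem c9_cp_tsum {M : Submodule ℂ H} {F : ℕ → H →L[ℂ] H} (hs : Summable F)
    (hF : ∀ n, Cp A M (F n)) : Cp A M (∑' n, F n) := by
  refine ⟨Commute.tsum_left _ fun n => (hF n).1, ?_, ?_⟩
  · rw [← hs.tsum_mul_right]
    exact tsum_congr fun n => (hF n).2.1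
  · rw [← hs.tsum_mul_left]
    exact tsum_congr fun n => (hF n).2.2

theorem c9_le (C : Conc o A V) (hX : Cp A (V p) X) (hs : IsSelfAdjoint X) :
    ∃ n : ℕ, X ≤ n • pr (V p) := by
  obtain ⟨n, hn⟩ := exists_nat_ge ‖X‖
  have hP := c9_proj C p
  have h1 := hP.isSelfAdjoint.conjugate_le_conjugate hs.le_algebraMap_norm_self
  rw [hX.2.2, hX.2.1, Algebra.algebraMap_eq_smul_one, mul_smul_comm, mul_one, smul_mul_assoc,
    hP.isIdempotentElem.eq] at h1
  refine ⟨n, h1.trans ?_⟩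
  rw [← Nat.cast_smul_eq_nsmul ℝ, ← sub_nonneg, ← sub_smul]
  exact smul_nonneg (sub_nonneg.2 hn) hP.nonneg

theorem c9_tails (C : Conc o A V) (x : ℕ → L) (hx : ∀ n, x n ≤ p) :
    ∃ X : ℕ → H →L[ℂ] H, ∀ n, Cp A (V p) (X n) ∧ 0 ≤ X n ∧ X n ≤ pr (V p) ∧
      X n + X n = pr (V (x n)) + X (n + 1) := by
  have hg : Summable fun k : ℕ => (1 : ℝ) / 2 / 2 ^ k := (hasSum_geometric_two' 1).summable
  have hc : ∀ k : ℕ, (0 : ℝ) ≤ 1 / 2 / 2 ^ k := fun k => by positivity
  have hs : ∀ n, Summable fun k : ℕ => ((1 : ℝ) / 2 / 2 ^ k) • pr (V (x (k + n))) := by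
    intro n
    refine hg.of_norm_bounded fun k => ?_
    rw [norm_smul, Real.norm_of_nonneg (hc k)]
    exact mul_le_of_le_one_right (hc k) (c9_proj C _).norm_le
  refine ⟨fun n => ∑' k : ℕ, ((1 : ℝ) / 2 / 2 ^ k) • pr (V (x (k + n))), fun n => ⟨?_, ?_, ?_, ?_⟩⟩
  · exact c9_cp_tsum (hs n) fun k => c9_cp_smul (c9_cp_pr C (hx _)) _
  · exact tsum_nonneg fun k => smul_nonneg (hc k) (c9_proj C _).nonneg
  · have h1 : pr (V p) = ∑' k : ℕ, ((1 : ℝ) / 2 / 2 ^ k) • pr (V p) := by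
      rw [hg.tsum_smul_const, tsum_geometric_two', one_smul]
    rw [h1]
    refine (hs n).tsum_le_tsum (fun k => ?_) (hg.smul_const _)
    rw [← sub_nonneg, ← smul_sub]
    exact smul_nonneg (hc k) (sub_nonneg.2
      (((c9_proj C _).le_iff_mul_eq_left (c9_proj C p)).2 (c9_cp_pr C (hx _)).2.1))
  · beta_reduce
    rw [← two_smul ℝ, (hs n).tsum_eq_zero_add, smul_add, smul_smul, zero_add,
      ← ((summable_nat_add_iff 1).2 (hs n)).tsum_const_smul]
    congr 1
    · norm_num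
    · refine tsum_congr fun k => ?_
      rw [smul_smul, add_assoc, add_comm 1 n]
      congr 1
      rw [pow_succ]
      field_simp

theorem Conc.pos_sq (C : Conc o A V) (hX : Cp A (V p) X) (h0 : 0 ≤ X) :
    ∃ Y, Cp A (V p) Y ∧ X = star Y * Y := by
  have hP := c9_proj C p
  have h1 : Commute (CFC.sqrt X) A := by
    rw [CFC.sqrt]
    exact hX.1.cfcₙ_nnreal _
  have h2 : Commute (CFC.sqrt X) (pr (V p)) := by
    rw [CFC.sqrt]
    exact Commute.cfcₙ_nnreal (hX.2.1.trans hX.2.2.symm) _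
  refine ⟨CFC.sqrt X * pr (V p), ⟨h1.mul_left (C.commute_pr p), ?_, ?_⟩, ?_⟩
  · rw [mul_assoc, hP.isIdempotentElem.eq]
  · rw [← mul_assoc, ← h2.eq, mul_assoc, hP.isIdempotentElem.eq]
  · rw [star_mul, hP.isSelfAdjoint.star_eq, (CFC.sqrt_nonneg X).isSelfAdjoint.star_eq, mul_assoc,
      ← mul_assoc (CFC.sqrt X), CFC.sqrt_mul_sqrt_self X h0, hX.2.1, hX.2.2]

theorem Conc.ded {B : Type*} [CompleteBooleanAlgebra B] {j : B → L} {R : Type*}
    [CommRing R] [StarRing R] [PartialOrder R] [IsOrderedRing R] {ε : B → R} {E : Type*}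
    [AddCommGroup E] [Module R E] {pt : E → L} {e₀ : E} {f : E → E → R} (C : Conc o A V)
    (h : Proj o) (hp : Spatial o p) (hj : CenRep o (cov o p) j) (M : FM o p j ε pt e₀ f) :
    Ded R := by
  obtain ⟨ρ, hadd, hmul, hstar, hpr, hsurj⟩ := C.exists_rho h hp hj M
  have hb := M.bc
  have hPP : Cp A (V p) (pr (V p)) := c9_cp_pr C le_rfl
  have h1 : ρ (pr (V p)) = 1 := by
    have h2 := hpr ⊤
    rwa [hj.map_top (C.om.cen_cov p), inf_eq_right.2 (C.om.le_cov p), hb.top] at h2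
  have h0 : ρ 0 = 0 := by
    have h2 := hadd 0 0 (c9_cp_zero _) (c9_cp_zero _)
    rw [add_zero] at h2
    exact left_eq_add.1 h2
  have hpos : ∀ X, Cp A (V p) X → 0 ≤ X → 0 ≤ ρ X := by
    intro X hX hX0
    obtain ⟨Y, hY, rfl⟩ := C.pos_sq hX hX0
    rw [hmul _ _ (c9_cp_star C hY) hY, hstar _ hY]
    exact hb.star_mul_nonneg _
  have hmono : ∀ X Y, Cp A (V p) X → Cp A (V p) Y → X ≤ Y → ρ X ≤ ρ Y := by
    intro X Y hX hY hXY
    have h2 := hadd X (Y - X) hX (c9_cp_sub hY hX)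
    rw [add_sub_cancel] at h2
    rw [h2]
    exact le_add_of_nonneg_right (hpos _ (c9_cp_sub hY hX) (sub_nonneg.2 hXY))
  have hn : ∀ n : ℕ, ρ (n • pr (V p)) = n := by
    intro n
    induction n with
    | zero => rw [zero_nsmul, h0, Nat.cast_zero]
    | succ n ih => rw [succ_nsmul, hadd _ _ (c9_cp_nsmul hPP n) hPP, ih, h1, Nat.cast_succ]
  refine hb.ded_of (fun r hr z hz => ?_) fun z s hs0 hs => ?_
  · obtain ⟨c, hc, hcz, X, hX, hrX⟩ := hsurj r z hz
    have hX' := c9_cp_star C hX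
    obtain ⟨n, hn'⟩ := c9_le C (c9_cp_add hX hX') (IsSelfAdjoint.add_star_self X)
    refine ⟨c, hc, hcz, n, ?_⟩
    have h2 := hmono _ _ (c9_cp_add hX hX') (c9_cp_nsmul hPP n) hn'
    rw [hadd _ _ hX hX', hstar _ hX, hn] at h2
    have h3 : ε c * r = ε c * star (ρ X) := by
      have h4 := congrArg star hrX
      rwa [star_mul', star_mul', hb.star_ε, hr] at h4
    have h4 : ε c * r + ε c * r ≤ n := by
      calc ε c * r + ε c * r = ε c * (ρ X + star (ρ X)) := by rw [mul_add, ← hrX, ← h3]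
        _ ≤ ε c * n := mul_le_mul_of_nonneg_left h2 (hb.eps_nonneg c)
        _ ≤ n := hb.eps_mul_le c (Nat.cast_nonneg n)
    obtain ⟨k, hk⟩ := hb.isUnit_nat (n := 2) two_ne_zero
    rw [← sub_nonneg]
    refine hb.nonneg_of_mul k (hk ▸ Nat.cast_nonneg 2) ?_
    have h5 : (k : R) * (n - ε c * r) = n + (n - (ε c * r + ε c * r)) := by
      rw [hk]
      push_cast
      ring
    rw [h5]
    exact add_nonneg (Nat.cast_nonneg n) (sub_nonneg.2 h4)
  · obtain ⟨X, hX⟩ := c9_tails C (fun n => j (z n) ⊓ p) fun n => inf_le_right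
    have h2 : ∀ n, 2 ^ n * ρ (X 0) = s n + ρ (X n) := by
      intro n
      induction n with
      | zero => rw [pow_zero, one_mul, hs0, zero_add]
      | succ n ih =>
        have h3 := congrArg ρ (hX n).2.2.2
        rw [hadd _ _ (hX n).1 (hX n).1, hadd _ _ (c9_cp_pr C inf_le_right) (hX (n + 1)).1,
          hpr] at h3
        rw [hs]
        linear_combination 2 * ih + h3
    refine ⟨ρ (X 0), fun n => ?_⟩
    rw [h2]
    refine ⟨le_add_of_nonneg_right (hpos _ (hX n).1 (hX n).2.1), ?_⟩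
    rw [← h1]
    exact add_le_add_right (hmono _ _ (hX n).1 hPP (hX n).2.2.1) _

end Pool.Agent.P.MP_d8da86_an.CR
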