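import Pool.Agent.P.MP_d8da86_an.C.Stmt
import Pool.Agent.P.MP_d8da86_an.Basic

/-!
Working definitions.
-/

open scoped InnerProductSpace ComplexConjugate

set_option linter.unusedSectionVars false
set_option linter.unusedVariables false

noncomputable section

namespace Pool.Agent.P.MP_d8da86_an.CR

universe u

/-! ### Lattices -/

section Lattice

variable {L : Type*} [CompleteLattice L] (o : L → L)

/-- orthomodular lattice -/
structure OM : Prop where
  anti : Antitone o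
  invol : Function.Involutive o
  inf_o : ∀ a, a ⊓ o a = ⊥
  om : ∀ a b, a ≤ b → a ⊔ b ⊓ o a = b

/-- orthomodular lattice with enough points and the covering law -/
structure Geo : Prop extends OM o where
  dense : ∀ x, x ≠ ⊥ → ∃ p, Pt o p ∧ p ≠ ⊥ ∧ p ≤ x
  cover : ∀ p x, Pt o p → Pt o ((x ⊔ p) ⊓ o x)

/-- the central cover -/
def cov (x : L) : L := sInf {z | Cen o z ∧ x ≤ z}

/-- in addition, every line has a third point -/
structure Proj : Prop extends Geo o where
  third : ∀ a e, Pt o a → Pt o e → a ⊓ e = ⊥ →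
    ∃ c, Pt o c ∧ c ≤ a ⊔ e ∧ cov o c = cov o a ⊓ cov o e ∧ c ⊓ a = ⊥ ∧ c ⊓ e = ⊥

/-- a set of pairwise disjoint central elements -/
def Part (S : Set L) : Prop := (∀ w ∈ S, Cen o w) ∧ S.Pairwise fun a b => a ⊓ b = ⊥

/-- the element which agrees with `f w` below `w` for `w ∈ S` -/
def mix (S : Set L) (f : L → L) : L := ⨆ w ∈ S, w ⊓ f w

/-- the direction of the line through two affine points -/
def dr (p a b : L) : L := (a ⊔ b) ⊓ o p

/-- `g` moves affine points in the direction `d`, below the central element `w` -/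
def TrOn (p w : L) (g : L ≃o L) (d : L) : Prop := ∀ a, Aff o p a → w ⊓ g a ≤ a ⊔ d

/-- translations -/
def IsTr (p : L) (g : L ≃o L) : Prop := Ax o p g ∧ ∃ d, Pt o d ∧ d ≤ o p ∧ TrOn o p ⊤ g d

def GenAx : Prop := ∃ e : ℕ → L, (∀ n, Cen o (e n)) ∧ ∀ S : Set L, (∀ n, e n ∈ S) →
  (∀ z ∈ S, o z ∈ S) → (∀ T ⊆ S, sSup T ∈ S) → ∀ z, Cen o z → z ∈ S

def MeasAx : Prop := ∀ z, Cen o z → z ≠ ⊥ → ∃ m, Meas o m ∧ 0 < m z

/-- `c` is an exhaustive family of pairwise disjoint points on the line `p ⊔ q` -/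
def LineFam (p q : L) (c : ℝ → L) : Prop :=
  (∀ t, Pt o (c t) ∧ c t ≤ p ⊔ q ∧ Cov o p (c t)) ∧
    (∀ s t, s ≠ t → c s ⊓ c t = ⊥) ∧ ∀ x, Pt o x → x ≤ p ⊔ q → x = ⨆ t, x ⊓ c t

def LineAx : Prop := ∀ p q, Pt o p → Pt o q → p ≤ o q → Cov o p q → Cov o q p →
  ∃ c : ℝ → L, LineFam o p q c

def ElAx (p : L) : Prop := ∀ a b, Aff o p a → Aff o p b →
  ∃ g, Ax o p g ∧ g a = b ∧ ∀ x, (a ⊔ b) ⊓ o p ≤ x → g x = x

def HoAx (p : L) : Prop := ∀ a b, Aff o p a → Aff o p b → a ⊓ p = ⊥ → b ⊓ p = ⊥ →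
  b ≤ p ⊔ a → ∃ g, Ax o p g ∧ g p = p ∧ g a = b

def CommAx (p : L) : Prop := ∀ g k, Ax o p g → Ax o p k → g p = p → k p = p →
  ∀ x, g (k x) = k (g x)

def SqAx (p : L) : Prop := ∀ g, Ax o p g → g p = p →
  ∃ k, Ax o p k ∧ k p = p ∧ ∀ x, k (k x) = g x

def ContAx (p : L) : Prop := ∀ (X Y : Set L) (a : L), (∀ x ∈ X, Aff o p x) →
  (∀ y ∈ Y, Aff o p y) → Aff o p a → (∀ x ∈ X, ∀ y ∈ Y, Btw o p a x y) →
  ∃ b, Aff o p b ∧ ∀ x ∈ X, ∀ y ∈ Y, Btw o p x b y

/-- `j` identifies the Boolean algebra `B` with the central elements below `w` -/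
structure CenRep (w : L) {B : Type*} [CompleteBooleanAlgebra B] (j : B → L) : Prop where
  le_iff : ∀ a b, j a ≤ j b ↔ a ≤ b
  range : ∀ z, (∃ a, j a = z) ↔ Cen o z ∧ z ≤ w

/-- the affine points form a torsor under the group `V` of translations -/
structure TM (p : L) {V : Type*} [AddCommGroup V] (aff : V → L) : Prop where
  zero : aff 0 = p
  isAff : ∀ v, Aff o p (aff v)
  surj : ∀ a, Aff o p a → ∃ v, aff v = a
  inj : ∀ v, aff v = p → v = 0
  dr_eq : ∀ u v, dr o p (aff u) (aff v) = dr o p (aff (u - v)) p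
  hom : ∀ g, Ax o p g → g p = p → ∃ φ : V →+ V, ∀ v, g (aff v) = aff (φ v)

end Lattice

/-! ### Algebra over a complete Boolean algebra -/

/-- a strictly positive normal measure -/
structure BMeas {B : Type*} [CompleteBooleanAlgebra B] (μ : B → ℝ) : Prop where
  pos : ∀ z, z ≠ ⊥ → 0 < μ z
  add : ∀ z w, z ⊓ w = ⊥ → μ (z ⊔ w) = μ z + μ w
  lub : ∀ D : Set B, D.Nonempty → DirectedOn (· ≤ ·) D → IsLUB (μ '' D) (μ (sSup D))

section Algebra

variable {B : Type*} [CompleteBooleanAlgebra B] {R : Type*} [CommRing R] (ε : B → R)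

/-- `R` is a `B`-valued field: `ε` lists its idempotents -/
structure Reg : Prop where
  top : ε ⊤ = 1
  inf : ∀ a b, ε (a ⊓ b) = ε a * ε b
  compl : ∀ a, ε aᶜ = 1 - ε a
  eq_bot : ∀ a, ε a = 0 → a = ⊥
  reg : ∀ r : R, ∃ (z : B) (k : Rˣ), r = ε z * k
  mix : ∀ S : Set B, S.Pairwise Disjoint → ∀ f : B → R, ∃ r, ∀ z ∈ S, ε z * r = ε z * f z

/-- `E` is a `B`-valued vector space -/
structure BMod (E : Type*) [AddCommGroup E] [Module R E] : Prop where
  supp : ∀ v : E, ∃ s : B, ∀ z, ε z • v = 0 ↔ z ⊓ s = ⊥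
  mix : ∀ S : Set B, S.Pairwise Disjoint → ∀ f : B → E, ∃ v, ∀ z ∈ S, ε z • v = ε z • f z

/-- `v` has full support -/
def Full {E : Type*} [AddCommGroup E] [Module R E] (v : E) : Prop := ∀ z, ε z • v = 0 → z = ⊥

/-- an orthogonality relation in dimension at least three -/
structure Orth {E : Type*} [AddCommGroup E] [Module R E] (perp : E → E → Prop) (e₀ e₁ e₂ : E) :
    Prop where
  symm : ∀ v w, perp v w → perp w v
  aniso : ∀ v, perp v v → v = 0
  add : ∀ u v w, perp u w → perp v w → perp (u + v) w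
  smul : ∀ (r : R) v w, perp v w → perp (r • v) w
  split : ∀ v w, ∃ r : R, perp (v - r • w) w
  full₀ : Full ε e₀
  full₁ : Full ε e₁
  full₂ : Full ε e₂
  p01 : perp e₀ e₁
  p02 : perp e₀ e₂
  p12 : perp e₁ e₂

/-- a hermitian form, linear in the second variable -/
structure IsForm [StarRing R] {E : Type*} [AddCommGroup E] [Module R E] (f : E → E → R) :
    Prop where
  add : ∀ u v w, f u (v + w) = f u v + f u w
  smul : ∀ (r : R) v w, f v (r • w) = r * f v w
  herm : ∀ v w, star (f v w) = f w v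

variable [StarRing R] [PartialOrder R]

/-- `R` is a `B`-valued field `F(i)` with `F` a Euclidean ordered field -/
structure BC : Prop extends Reg ε where
  star_ε : ∀ z, star (ε z) = ε z
  nonneg_iff : ∀ r : R, 0 ≤ r ↔ ∃ t, r = star t * t
  total : ∀ r : R, star r = r → ∃ z, 0 ≤ ε z * r ∧ ε zᶜ * r ≤ 0
  sq : ∀ r : R, ∃ s, s * s = r
  exI : ∃ i : R, i * i = -1 ∧ star i = -i

/-- Dedekind completeness -/
def Ded (R : Type*) [Zero R] [PartialOrder R] : Prop :=
  ∀ S : Set R, S.Nonempty → (∀ s ∈ S, 0 ≤ s) → BddAbove S → ∃ m, IsLUB S m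

/-- `R` is the `B`-valued field of complex numbers -/
structure BC1 [Algebra ℂ R] : Prop extends BC ε where
  ded : Ded R
  star_alg : ∀ c : ℂ, star (algebraMap ℂ R c) = algebraMap ℂ R (conj c)
  alg_nonneg : ∀ t : ℝ, 0 ≤ t → 0 ≤ algebraMap ℂ R t

/-- a positive definite hermitian form on a `B`-valued vector space -/
structure PD {E : Type*} [AddCommGroup E] [Module R E] (f : E → E → R) : Prop
    extends IsForm f where
  bm : BMod ε E
  nonneg : ∀ v, 0 ≤ f v v
  aniso : ∀ v, f v v = 0 → v = 0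

/-- every biorthogonally closed submodule is a direct summand -/
def OrthoMod {E : Type*} [AddCommGroup E] [Module R E] (f : E → E → R) : Prop :=
  ∀ (S : Set E) (v : E), ∃ a b, v = a + b ∧ (∀ s ∈ S, f s b = 0) ∧
    ∀ c, (∀ s ∈ S, f s c = 0) → f c a = 0

/-- the real number `t` in `R` -/
abbrev cR (R : Type*) [CommRing R] [Algebra ℂ R] (t : ℝ) : R := algebraMap ℂ R t

/-- bounded elements of `R` -/
def BdR [Algebra ℂ R] (r : R) : Prop := ∃ t : ℝ, star r * r ≤ cR R t

/-- bounded vectors -/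
def Bd [Algebra ℂ R] {E : Type*} (f : E → E → R) (v : E) : Prop := ∃ t : ℝ, f v v ≤ cR R t

/-- the integral with respect to `μ` -/
structure IsInt [Algebra ℂ R] (μ : B → ℝ) (m : R →ₗ[ℂ] ℂ) : Prop where
  star_eq : ∀ r, m (star r) = conj (m r)
  nonneg : ∀ r, BdR r → 0 ≤ r → 0 ≤ (m r).re
  eps : ∀ z, m (ε z) = μ z

/-- the Hilbert space of square integrable vectors -/
structure HR [Algebra ℂ R] {E : Type*} [AddCommGroup E] [Module R E] (f : E → E → R)
    (m : R →ₗ[ℂ] ℂ) {H : Type*} [NormedAddCommGroup H] [InnerProductSpace ℂ H]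
    (J : E → H) (π : B → H →L[ℂ] H) : Prop where
  add : ∀ v w, Bd f v → Bd f w → J (v + w) = J v + J w
  smul : ∀ (c : ℂ) v, Bd f v → J (algebraMap ℂ R c • v) = c • J v
  inner : ∀ v w, Bd f v → Bd f w → ⟪J v, J w⟫_ℂ = m (f v w)
  dense : Dense (J '' {v | Bd f v})
  proj : ∀ z v, Bd f v → π z (J v) = J (ε z • v)

end Algebra

/-! ### Coordinates -/

section Model

variable {L : Type*} [CompleteLattice L] (o : L → L) (p : L)
  {B : Type*} [CompleteBooleanAlgebra B] (j : B → L) {R : Type*} [CommRing R] (ε : B → R)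

/-- affine coordinates -/
structure AM {V : Type*} [AddCommGroup V] [Module R V] (aff : V → L) : Prop
    extends TM o p aff where
  reg : Reg ε
  bm : BMod ε V
  loc : ∀ z v, dr o p (aff (ε z • v)) p = j z ⊓ dr o p (aff v) p
  smul_le : ∀ (r : R) v, dr o p (aff (r • v)) p ≤ dr o p (aff v) p
  span : ∀ u v, dr o p (aff u) p ≤ dr o p (aff v) p → ∃ r : R, u = r • v

/-- projective coordinates -/
structure PM {E : Type*} [AddCommGroup E] [Module R E] (pt : E → L) (e₀ : E) : Prop where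
  reg : Reg ε
  bm : BMod ε E
  base : pt e₀ = p
  isPt : ∀ v, Pt o (pt v)
  le_cov : ∀ v, pt v ≤ cov o p
  surj : ∀ x, Pt o x → x ≤ cov o p → ∃ v, pt v = x
  loc : ∀ z v, pt (ε z • v) = j z ⊓ pt v
  eq_zero : ∀ v, pt v = ⊥ → v = 0
  add_le : ∀ v w, pt (v + w) ≤ pt v ⊔ pt w
  smul_le : ∀ (r : R) v, pt (r • v) ≤ pt v
  span : ∀ u v w, pt u ≤ pt v ⊔ pt w → ∃ r s : R, u = r • v + s • w

/-- projective coordinates with a positive definite form -/
structure FM [StarRing R] [PartialOrder R] {E : Type*} [AddCommGroup E] [Module R E]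
    (pt : E → L) (e₀ : E) (f : E → E → R) : Prop extends PM o p j ε pt e₀ where
  bc : BC ε
  pd : PD ε f
  one : f e₀ e₀ = 1
  perp : ∀ v w, f v w = 0 ↔ pt v ≤ o (pt w)

end Model

/-! ### Hilbert space representations -/

section Hilbert

variable {H : Type*} [NormedAddCommGroup H] [InnerProductSpace ℂ H] [CompleteSpace H]

/-- the orthogonal projection onto `N` maps `M` into `M` -/
def Red (N M : Submodule ℂ H) : Prop := ∀ ξ ∈ M, ∃ a ∈ M, a ∈ N ∧ ξ - a ∈ Nᗮ

/-- the elements below `w` are the closed subspaces reduced by the central elements -/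
structure IsRep {L : Type*} [CompleteLattice L] (o : L → L) (w : L) (Φ : L → Submodule ℂ H) :
    Prop where
  closed : ∀ x, IsClosed (Φ x : Set H)
  le_iff : ∀ x y, x ≤ w → y ≤ w → (Φ x ≤ Φ y ↔ x ≤ y)
  orth : ∀ z, Cen o z → z ≤ w → Φ (w ⊓ o z) = (Φ z)ᗮ
  red : ∀ x z, x ≤ w → Cen o z → z ≤ w → Red (Φ z) (Φ x)
  surj : ∀ M : Submodule ℂ H, IsClosed (M : Set H) →
    (∀ z, Cen o z → z ≤ w → Red (Φ z) M) → ∃ x, x ≤ w ∧ Φ x = M

def Rep {L : Type u} [CompleteLattice L] (o : L → L) (w : L) : Prop :=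
  ∃ (H : Type u) (_ : NormedAddCommGroup H) (_ : InnerProductSpace ℂ H) (_ : CompleteSpace H)
    (Φ : L → Submodule ℂ H), IsRep o w Φ

/-- `L` is the lattice of a self-adjoint operator (the zero space is allowed) -/
def Att (L : Type u) [PartialOrder L] : Prop :=
  ∃ (H : Type u) (_ : NormedAddCommGroup H) (_ : InnerProductSpace ℂ H) (_ : CompleteSpace H)
    (A : H →L[ℂ] H), IsSelfAdjoint A ∧ Nonempty (L ≃o Lat A)

/-- `V` identifies `(L, o)` with `Lat A` and the orthogonal complement -/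
structure Conc {L : Type*} [CompleteLattice L] (o : L → L) (A : H →L[ℂ] H)
    (V : L → Submodule ℂ H) : Prop where
  sa : IsSelfAdjoint A
  le_iff : ∀ x y, V x ≤ V y ↔ x ≤ y
  range : ∀ M, (∃ x, V x = M) ↔ M ∈ Lat A
  orth : ∀ x, V (o x) = (V x)ᗮ

open Classical in
/-- the orthogonal projection onto a closed subspace -/
def pr (M : Submodule ℂ H) : H →L[ℂ] H :=
  if h : IsClosed (M : Set H) then (exists_proj h).choose else 0

theorem isProj_pr {M : Submodule ℂ H} (h : IsClosed (M : Set H)) : IsProj M (pr M) := by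
  rw [pr, dif_pos h]
  exact (exists_proj h).choose_spec

/-- the closure of the image of a subspace -/
def im (T : H →L[ℂ] H) (M : Submodule ℂ H) : Submodule ℂ H :=
  (M.map (T : H →ₗ[ℂ] H)).topologicalClosure

/-- `S` commutes with `A`, vanishes on `Mᗮ` and has range in `Mᗮ` -/
def Gr (A : H →L[ℂ] H) (M : Submodule ℂ H) (S : H →L[ℂ] H) : Prop :=
  Commute S A ∧ S * pr M = S ∧ pr M * S = 0

/-- `X` commutes with `A` and lives on `M` -/
def Cp (A : H →L[ℂ] H) (M : Submodule ℂ H) (X : H →L[ℂ] H) : Prop :=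
  Commute X A ∧ X * pr M = X ∧ pr M * X = X

/-- the automorphism `g` is induced by the operator `T` -/
def Ind {L : Type*} [CompleteLattice L] (V : L → Submodule ℂ H) (T : H →L[ℂ] H) (g : L ≃o L) :
    Prop := ∀ x, V (g x) = (V x).map (T : H →ₗ[ℂ] H)

end Hilbert

end Pool.Agent.P.MP_d8da86_an.CR
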