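import Pool.Agent.P.MP_d8da86_an.C.A1

/-!
The Birkhoff von Neumann theorem, first half.
Hints. `perp_loc`: from split, ε z • v - r • ε zᶜ • w is perpendicular to ε zᶜ • w; multiply by ε z.
`exists_G`: y = e0 + w, e0 = n + t • y with n perp y. If ε z * t = 0 then ε z • e0 is perp to y
and to w, so to e0, so z = ⊥; hence t is a unit and E = R e0 + y-perp. If r • e0 perp y then on the
support of r the same argument gives r = 0.
`G_add`: let V = e0-perp, g w = G · w on V. For v in V: g w v = 0 ↔ perp v w. g (ε z • w) = ε z * g w.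
A functional on V which kills V ∩ w-perp is λ * g w (split v along w, g w w has the support of w).
g (w1 + w2) - g w1 kills V ∩ w2-perp, so g (w1 + w2) = g w1 + λ g w2 = μ g w1 + g w2. Write
w1 = v + t • w2 with v perp w2. On the support of v evaluate at v (g w1 v has the support of v) to get
μ = 1. Where v vanishes, w1 and w2 are multiples of u = w2; take a full vector w3 in V perp to u
(`exists_perp`) and use g (w1 + w2) + g w3 = g (w1 + w2 + w3) = g w1 + g (w2 + w3), each step being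
an independent case (prove first: perp a b gives additivity, and the independent case).
-/

open scoped InnerProductSpace ComplexConjugate

set_option linter.unusedSectionVars false
set_option linter.unusedVariables false

noncomputable section

namespace Pool.Agent.P.MP_d8da86_an.CR

universe u

variable {B : Type*} [CompleteBooleanAlgebra B] {R : Type*} [CommRing R] {ε : B → R}
  {E : Type*} [AddCommGroup E] [Module R E] {perp : E → E → Prop} {e₀ e₁ e₂ : E}

namespace Orth

theorem zero (h : Orth ε perp e₀ e₁ e₂) (w : E) : perp 0 w := by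
  obtain ⟨r, hr⟩ := h.split w w
  have h1 := h.smul 0 _ _ hr
  rwa [zero_smul] at h1

theorem sub (h : Orth ε perp e₀ e₁ e₂) {u v w : E} (hu : perp u w) (hv : perp v w) :
    perp (u - v) w := by
  have h1 := h.add _ _ _ hu (h.smul (-1) _ _ hv)
  rwa [neg_one_smul, ← sub_eq_add_neg] at h1

theorem perp_loc (h : Orth ε perp e₀ e₁ e₂) (hr : Reg ε) (z : B) (v w : E) :
    perp (ε z • v) (ε zᶜ • w) := by
  obtain ⟨r, h1⟩ := h.split (ε z • v) (ε zᶜ • w)
  have h2 := h.smul (ε z) _ _ h1
  rwa [smul_sub, smul_smul, hr.idem, smul_comm (ε z) r, smul_smul (ε z), hr.mul_compl, zero_smul,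
    smul_zero, sub_zero] at h2

/-- in the hyperplane every vector has a perpendicular vector of full support -/
theorem exists_perp (h : Orth ε perp e₀ e₁ e₂) (hr : Reg ε) (m : BMod ε E) {u : E}
    (hu : perp u e₀) : ∃ w, perp w e₀ ∧ perp w u ∧ Full ε w := by
  obtain ⟨r, h1⟩ := h.split e₁ u
  obtain ⟨s, h2⟩ := h.split e₂ u
  obtain ⟨c, hc⟩ := m.supp (e₁ - r • u)
  refine ⟨ε c • (e₁ - r • u) + ε cᶜ • (e₂ - s • u),
    h.add _ _ _ (h.smul _ _ _ (h.sub (h.symm _ _ h.p01) (h.smul _ _ _ hu)))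
      (h.smul _ _ _ (h.sub (h.symm _ _ h.p02) (h.smul _ _ _ hu))),
    h.add _ _ _ (h.smul _ _ _ h1) (h.smul _ _ _ h2), fun z hz => ?_⟩
  have h3 : ε (z ⊓ c) • (e₁ - r • u) = 0 := by
    have h4 := congrArg (fun x => ε c • x) hz
    simp only [smul_add, smul_smul, smul_zero] at h4
    rw [mul_left_comm, hr.idem, mul_left_comm, hr.mul_compl, mul_zero, zero_smul, add_zero] at h4
    rw [hr.inf, h4]
  have h4 : z ⊓ c = ⊥ := by
    have h5 := (hc _).1 h3
    rwa [inf_assoc, inf_idem] at h5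
  have h5 : ε z • (e₁ - r • u) = 0 := (hc z).2 h4
  have h6 : ε z • (e₂ - s • u) = 0 := by
    rw [smul_add, smul_comm, h5, smul_zero, zero_add,
      hr.smul_smul_of_le (le_compl_iff_disjoint_right.2 (disjoint_iff.2 h4))] at hz
    exact hz
  rw [smul_sub, sub_eq_zero] at h5 h6
  have h7 : (ε z * s) • e₁ = (ε z * r) • e₂ := by
    rw [mul_comm, mul_smul, h5, mul_comm, mul_smul, h6]
    simp only [smul_smul]
    congr 1
    ring
  have h8 : perp ((ε z * s) • e₁) ((ε z * r) • e₂) :=
    h.smul _ _ _ (h.symm _ _ (h.smul _ _ _ (h.symm _ _ h.p12)))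
  rw [← h7] at h8
  have h9 := hr.eq_zero_of_full h.full₁ (h.aniso _ h8)
  rw [smul_smul, h9, zero_smul] at h6
  exact h.full₂ z h6

theorem f1_uniq (h : Orth ε perp e₀ e₁ e₂) (hr : Reg ε) {w : E} (hw : perp w e₀) {r : R}
    (h0 : perp (r • e₀) (e₀ + w)) : r = 0 := by
  have h1 := h.sub (h.symm _ _ h0) (h.symm _ _ (h.smul r _ _ (h.symm _ _ hw)))
  rw [add_sub_cancel_right] at h1
  exact hr.eq_zero_of_full h.full₀ (h.aniso _ (h.smul r _ _ h1))

theorem exists_G (h : Orth ε perp e₀ e₁ e₂) (hr : Reg ε) : ∃ G : E → E → R,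
    ∀ w, perp w e₀ → ∀ v (r : R), perp (v - r • e₀) (e₀ + w) ↔ r = G v w := by
  have key : ∀ w, perp w e₀ → ∀ v, ∃ g : R, ∀ r : R, perp (v - r • e₀) (e₀ + w) ↔ r = g := by
    intro w hw v
    obtain ⟨t, ht⟩ := h.split e₀ (e₀ + w)
    obtain ⟨k, rfl⟩ : IsUnit t := hr.isUnit_of_full fun z hz => by
      have h1 := h.smul (ε z) _ _ ht
      rw [smul_sub, smul_smul, hz, zero_smul, sub_zero] at h1
      exact hr.eq_bot z (f1_uniq h hr hw h1)
    obtain ⟨s, hs⟩ := h.split v (e₀ + w)
    have h1 : perp (v - (s * ↑k⁻¹) • e₀) (e₀ + w) := by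
      have h2 := h.sub hs (h.smul (s * ↑k⁻¹) _ _ ht)
      rwa [smul_sub, smul_smul, Units.inv_mul_cancel_right, sub_sub_sub_cancel_right] at h2
    refine ⟨s * ↑k⁻¹, fun r => ⟨fun h2 => ?_, fun h2 => h2 ▸ h1⟩⟩
    have h3 := h.sub h1 h2
    rw [sub_sub_sub_cancel_left, ← sub_smul] at h3
    exact sub_eq_zero.1 (f1_uniq h hr hw h3)
  choose! G hG using key
  exact ⟨fun v w => G w v, hG⟩

end Orth

end Pool.Agent.P.MP_d8da86_an.CR
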