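import Pool.Agent.P.MP_d8da86_an.C.F1

/-!
The Birkhoff von Neumann theorem, first half.
Hints. `perp_loc`: from split, ε z • v - r • ε zᶜ • w is perpendicular to ε zᶜ • w; multiply by ε z.
`exists_G`: y = e0 + w, e0 = n + t • y with n perp y. If ε z * t = 0 then ε z • e0 is perp to y
and to w, so to e0, so z = ⊥; hence t is a unit and E = R e0 + y-perp. If r • e0 perp y then on the
support of r the same argument gives r = 0.
`G_add`: let V = e0-perp, g w = G · w on V. For v in V: g w v = 0 ↔ perp v w. g (ε z • w) = ε z * g w.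
A functional on V which kills V ∩ w-perp is λ * g w (split v along w, g w w has the support of w).
g (w1 + w2) - g w1 kills V ∩ w2-perp, so g (w1 + w2) = g w1 + λ g w2 = μ g w1 + g w2. Write
w1 = v + t • w2 with v perp w2. On the support of v evaluate at v (g w1 v has the support of v) to get
μ = 1. Where v vanishes, w1 and w2 are multiples of u = w2; take a full vector w3 in V perp to u
(`exists_perp`) and use g (w1 + w2) + g w3 = g (w1 + w2 + w3) = g w1 + g (w2 + w3), each step being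
an independent case (prove first: perp a b gives additivity, and the independent case).
-/

open scoped InnerProductSpace ComplexConjugate

set_option linter.unusedSectionVars false
set_option linter.unusedVariables false

noncomputable section

namespace Pool.Agent.P.MP_d8da86_an.CR

universe u

variable {B : Type*} [CompleteBooleanAlgebra B] {R : Type*} [CommRing R] {ε : B → R}
  {E : Type*} [AddCommGroup E] [Module R E] {perp : E → E → Prop} {e₀ e₁ e₂ : E}

namespace Orth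

theorem f1b_add_right (h : Orth ε perp e₀ e₁ e₂) {u v w : E} (hv : perp u v) (hw : perp u w) :
    perp u (v + w) :=
  h.symm _ _ (h.add _ _ _ (h.symm _ _ hv) (h.symm _ _ hw))

theorem f1b_sub_right (h : Orth ε perp e₀ e₁ e₂) {u v w : E} (hv : perp u v) (hw : perp u w) :
    perp u (v - w) :=
  h.symm _ _ (h.sub (h.symm _ _ hv) (h.symm _ _ hw))

theorem f1b_smul_right (h : Orth ε perp e₀ e₁ e₂) (r : R) {u v : E} (hv : perp u v) :
    perp u (r • v) :=
  h.symm _ _ (h.smul r _ _ (h.symm _ _ hv))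

section

variable {G : E → E → R}

theorem f1b_G_add_left (h : Orth ε perp e₀ e₁ e₂)
    (hG : ∀ w, perp w e₀ → ∀ v (r : R), perp (v - r • e₀) (e₀ + w) ↔ r = G v w)
    {w : E} (hw : perp w e₀) (u v : E) : G (u + v) w = G u w + G v w := by
  have h1 := (hG w hw u (G u w)).2 rfl
  have h2 := (hG w hw v (G v w)).2 rfl
  refine ((hG w hw (u + v) _).1 ?_).symm
  have e : u + v - (G u w + G v w) • e₀ = (u - G u w • e₀) + (v - G v w • e₀) := by
    rw [add_smul]; abel
  rw [e]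
  exact h.add _ _ _ h1 h2

theorem f1b_G_smul_left (h : Orth ε perp e₀ e₁ e₂)
    (hG : ∀ w, perp w e₀ → ∀ v (r : R), perp (v - r • e₀) (e₀ + w) ↔ r = G v w)
    {w : E} (hw : perp w e₀) (c : R) (v : E) : G (c • v) w = c * G v w := by
  have h2 := (hG w hw v (G v w)).2 rfl
  refine ((hG w hw (c • v) _).1 ?_).symm
  have e : c • v - (c * G v w) • e₀ = c • (v - G v w • e₀) := by
    rw [smul_sub, mul_smul]
  rw [e]
  exact h.smul _ _ _ h2

theorem f1b_G_zero (h : Orth ε perp e₀ e₁ e₂)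
    (hG : ∀ w, perp w e₀ → ∀ v (r : R), perp (v - r • e₀) (e₀ + w) ↔ r = G v w)
    {v w : E} (hv : perp v e₀) (hw : perp w e₀) : G v w = 0 ↔ perp v w := by
  have h0 := hG w hw v 0
  rw [zero_smul, sub_zero] at h0
  constructor
  · intro hz
    have := h.f1b_sub_right (h0.2 hz.symm) hv
    rwa [add_sub_cancel_left] at this
  · intro hp
    exact (h0.1 (h.f1b_add_right hv hp)).symm

theorem f1b_key (h : Orth ε perp e₀ e₁ e₂)
    (hG : ∀ w, perp w e₀ → ∀ v (r : R), perp (v - r • e₀) (e₀ + w) ↔ r = G v w)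
    {v a b : E} (ha : perp a e₀) (hb : perp b e₀) (hvb : perp v b) : G v (a + b) = G v a := by
  have h1 := (hG a ha v (G v a)).2 rfl
  refine ((hG (a + b) (h.add _ _ _ ha hb) v _).1 ?_).symm
  rw [← add_assoc]
  exact h.f1b_add_right h1 (h.sub hvb (h.smul _ _ _ (h.symm _ _ hb)))

/-- the independent case -/
theorem f1b_indep (h : Orth ε perp e₀ e₁ e₂) (hr : Reg ε)
    (hG : ∀ w, perp w e₀ → ∀ v (r : R), perp (v - r • e₀) (e₀ + w) ↔ r = G v w)
    {v v₀ a b : E} {z : B} {k : Rˣ} (hv : perp v e₀) (hv₀ : perp v₀ e₀) (ha : perp a e₀)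
    (hb : perp b e₀) (hvb : perp v₀ b) (hk : ε z * G v₀ a = ε z * k) :
    ε z * G v (a + b) = ε z * G v a + ε z * G v b := by
  have hab := h.add _ _ _ ha hb
  set c : R := ε z * G v a * (k⁻¹ : Rˣ) with hc
  set v' : E := ε z • v - c • v₀ with hv'
  have hv'0 : perp v' e₀ := h.sub (h.smul _ _ _ hv) (h.smul _ _ _ hv₀)
  have e : ε z • v = v' + c • v₀ := by rw [hv', sub_add_cancel]
  have dec : ∀ w, perp w e₀ → ε z * G v w = G v' w + c * G v₀ w := fun w hw => by
    rw [← h.f1b_G_smul_left hG hw, e, h.f1b_G_add_left hG hw, h.f1b_G_smul_left hG hw]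
  have hca : c * G v₀ a = ε z * G v a := by
    have hi : ((k⁻¹ : Rˣ) : R) * k = 1 := k.inv_mul
    calc c * G v₀ a = G v a * (k⁻¹ : Rˣ) * (ε z * G v₀ a) := by rw [hc]; ring
      _ = ε z * G v a * ((k⁻¹ : Rˣ) * k) := by rw [hk]; ring
      _ = _ := by rw [hi, mul_one]
  have h1 : G v' a = 0 := by
    have := dec a ha
    rw [hca] at this
    exact left_eq_add.1 (by rw [add_comm]; exact this)
  have h2 : perp v' a := (h.f1b_G_zero hG hv'0 ha).1 h1
  have h3 : G v' (a + b) = G v' b := by rw [add_comm]; exact h.f1b_key hG hb ha h2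
  have h4 : G v₀ (a + b) = G v₀ a := h.f1b_key hG ha hb hvb
  have h5 : G v₀ b = 0 := (h.f1b_G_zero hG hv₀ hb).2 hvb
  rw [dec _ hab, dec b hb, h3, h4, h5, hca]
  ring

end

theorem G_add (h : Orth ε perp e₀ e₁ e₂) (hr : Reg ε) (m : BMod ε E) {G : E → E → R}
    (hG : ∀ w, perp w e₀ → ∀ v (r : R), perp (v - r • e₀) (e₀ + w) ↔ r = G v w)
    {v w₁ w₂ : E} (hv : perp v e₀) (h₁ : perp w₁ e₀) (h₂ : perp w₂ e₀) :
    G v (w₁ + w₂) = G v w₁ + G v w₂ := by
  refine hr.loc_eq fun z hz => ?_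
  obtain ⟨t, ht⟩ := h.split w₁ w₂
  have hv₀ : perp (w₁ - t • w₂) e₀ := h.sub h₁ (h.smul _ _ _ h₂)
  obtain ⟨w, hw, hwz, hc⟩ := hr.dich (G (w₁ - t • w₂) w₁) hz
  refine ⟨w, hw, hwz, ?_⟩
  rw [mul_add]
  rcases hc with hc | ⟨k, hk⟩
  · have p1 : perp (ε w • (w₁ - t • w₂)) w₁ := by
      rw [← h.f1b_G_zero hG (h.smul _ _ _ hv₀) h₁, h.f1b_G_smul_left hG h₁, hc]
    have p2 : perp (ε w • (w₁ - t • w₂)) w₂ := h.smul _ _ _ ht
    have p3 : ε w • (w₁ - t • w₂) = 0 :=
      h.aniso _ (h.f1b_smul_right _ (h.f1b_sub_right p1 (h.f1b_smul_right t p2)))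
    obtain ⟨w₃, h₃, h32, hf⟩ := h.exists_perp hr m h₂
    have hu : IsUnit (G w₃ w₃) := hr.isUnit_of_full fun y hy => by
      have q : perp (ε y • w₃) w₃ := by
        rw [← h.f1b_G_zero hG (h.smul _ _ _ h₃) h₃, h.f1b_G_smul_left hG h₃, hy]
      exact hf y (h.aniso _ (h.f1b_smul_right _ q))
    obtain ⟨k, hk⟩ := hu
    have a0 : perp (ε w • w₃) e₀ := h.smul _ _ _ h₃
    have a2 : perp (ε w • w₃) w₂ := h.smul _ _ _ h32
    have a1 : perp (ε w • w₃) w₁ := by
      have e : ε w • w₁ = ε w • t • w₂ := by rwa [smul_sub, sub_eq_zero] at p3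
      rw [← hr.smul_add_compl w w₁, e]
      exact h.f1b_add_right (h.f1b_smul_right _ (h.f1b_smul_right _ a2)) (h.perp_loc hr w _ _)
    have ak : ε w * G (ε w • w₃) w₃ = ε w * k := by
      rw [h.f1b_G_smul_left hG h₃, ← mul_assoc, hr.idem, hk]
    have ak' : ε w * G (ε w • w₃) (w₃ + w₂) = ε w * k := by
      rw [h.f1b_key hG h₃ h₂ a2, ak]
    have s1 := h.f1b_indep hr hG hv a0 h₃ (h.add _ _ _ h₁ h₂) (h.f1b_add_right a1 a2) ak
    have s2 := h.f1b_indep hr hG hv a0 (h.add _ _ _ h₃ h₂) h₁ a1 ak'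
    have s3 := h.f1b_indep hr hG hv a0 h₃ h₂ a2 ak
    have e : w₃ + (w₁ + w₂) = w₃ + w₂ + w₁ := by abel
    rw [e] at s1
    linear_combination s2 + s3 - s1
  · exact h.f1b_indep hr hG hv hv₀ h₁ h₂ ht hk

end Orth

end Pool.Agent.P.MP_d8da86_an.CR
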