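import Pool.Agent.P.MP_d8da86_an.C.F1b

/-!
The Birkhoff von Neumann theorem, second half.
Hints. `exists_theta`: g (r • w) kills V ∩ w-perp, so g (r • w) = θ w r * g w. For perpendicular
w, w' of full support additivity applied to r • (w + w') shows that the factors agree; a general w
is compared (on its support) with a full vector perpendicular to it, and two full vectors u, u' are
compared by splitting u' along u. θ is additive and multiplicative since g e1 e1 is a unit.
`exists_form`: if G v w = r is a unit locally then v - r • e0 perp e0 + w, so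
w + e0 perp e0 - r⁻¹ • v, that is G w (-(r⁻¹ • v)) = -1, that is θ r⁻¹ * G w v = 1; if G v w = 0
locally then G w v = 0. Hence G w v = θ (G v w) and θ is an involution. Write v = a • e0 + v' (split)
and put f v w = θ a * b + G w' v'. For the last claim reduce locally to a = 0 or a = 1.
-/

open scoped InnerProductSpace ComplexConjugate

set_option linter.unusedSectionVars false
set_option linter.unusedVariables false

noncomputable section

namespace Pool.Agent.P.MP_d8da86_an.CR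

universe u

variable {B : Type*} [CompleteBooleanAlgebra B] {R : Type*} [CommRing R] {ε : B → R}
  {E : Type*} [AddCommGroup E] [Module R E] {perp : E → E → Prop} {e₀ e₁ e₂ : E}

section Aux

variable {G : E → E → R}

theorem f2_padd (h : Orth ε perp e₀ e₁ e₂) {u v w : E} (hv : perp u v) (hw : perp u w) :
    perp u (v + w) :=
  h.symm _ _ (h.add _ _ _ (h.symm _ _ hv) (h.symm _ _ hw))

theorem f2_psmul (h : Orth ε perp e₀ e₁ e₂) (r : R) {u v : E} (hv : perp u v) :
    perp u (r • v) :=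
  h.symm _ _ (h.smul r _ _ (h.symm _ _ hv))

theorem f2_psub (h : Orth ε perp e₀ e₁ e₂) {u v w : E} (hv : perp u v) (hw : perp u w) :
    perp u (v - w) :=
  h.symm _ _ (h.sub (h.symm _ _ hv) (h.symm _ _ hw))

theorem f2_addl (h : Orth ε perp e₀ e₁ e₂)
    (hG : ∀ w, perp w e₀ → ∀ v (r : R), perp (v - r • e₀) (e₀ + w) ↔ r = G v w)
    {w : E} (hw : perp w e₀) (u v : E) : G (u + v) w = G u w + G v w := by
  refine ((hG w hw (u + v) _).1 ?_).symm
  have := h.add _ _ _ ((hG w hw u _).2 rfl) ((hG w hw v _).2 rfl)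
  convert this using 1
  rw [add_smul]
  abel

theorem f2_smull (h : Orth ε perp e₀ e₁ e₂)
    (hG : ∀ w, perp w e₀ → ∀ v (r : R), perp (v - r • e₀) (e₀ + w) ↔ r = G v w)
    {w : E} (hw : perp w e₀) (r : R) (v : E) : G (r • v) w = r * G v w := by
  refine ((hG w hw (r • v) _).1 ?_).symm
  have := h.smul r _ _ ((hG w hw v _).2 rfl)
  rwa [smul_sub, smul_smul] at this

theorem f2_e0 (h : Orth ε perp e₀ e₁ e₂)
    (hG : ∀ w, perp w e₀ → ∀ v (r : R), perp (v - r • e₀) (e₀ + w) ↔ r = G v w)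
    {w : E} (hw : perp w e₀) : G e₀ w = 1 := by
  refine ((hG w hw e₀ _).1 ?_).symm
  rw [one_smul, sub_self]
  exact h.zero _

theorem f2_zero_iff' (h : Orth ε perp e₀ e₁ e₂)
    (hG : ∀ w, perp w e₀ → ∀ v (r : R), perp (v - r • e₀) (e₀ + w) ↔ r = G v w)
    {w : E} (hw : perp w e₀) (v : E) : G v w = 0 ↔ perp v (e₀ + w) := by
  have := hG w hw v 0
  rw [zero_smul, sub_zero] at this
  rw [this]
  exact eq_comm

theorem f2_zero_iff (h : Orth ε perp e₀ e₁ e₂)
    (hG : ∀ w, perp w e₀ → ∀ v (r : R), perp (v - r • e₀) (e₀ + w) ↔ r = G v w)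
    {v w : E} (hv : perp v e₀) (hw : perp w e₀) : G v w = 0 ↔ perp v w := by
  rw [f2_zero_iff' h hG hw]
  constructor
  · intro h1
    have := f2_psub h h1 hv
    rwa [add_sub_cancel_left] at this
  · exact fun h1 => f2_padd h hv h1

theorem f2_eps (h : Orth ε perp e₀ e₁ e₂) (hr : Reg ε) (m : BMod ε E)
    (hG : ∀ w, perp w e₀ → ∀ v (r : R), perp (v - r • e₀) (e₀ + w) ↔ r = G v w)
    {v w : E} (hv : perp v e₀) (hw : perp w e₀) (z : B) : G v (ε z • w) = ε z * G v w := by
  have h1 : ∀ z, ε z * G v (ε zᶜ • w) = 0 := fun z => by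
    rw [← f2_smull h hG (h.smul _ _ _ hw)]
    exact (f2_zero_iff h hG (h.smul _ _ _ hv) (h.smul _ _ _ hw)).2 (h.perp_loc hr z v w)
  have h2 := h1 zᶜ
  rw [compl_compl] at h2
  have h3 := h.G_add hr m hG hv (h.smul (ε z) _ _ hw) (h.smul (ε zᶜ) _ _ hw)
  rw [hr.smul_add_compl] at h3
  have h4 := hr.add_compl z
  rw [h3]
  linear_combination (-1 : R) * h1 z + h2 - G v (ε z • w) * h4

theorem f2_supp (h : Orth ε perp e₀ e₁ e₂) (hr : Reg ε) (m : BMod ε E)
    (hG : ∀ w, perp w e₀ → ∀ v (r : R), perp (v - r • e₀) (e₀ + w) ↔ r = G v w)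
    {w : E} (hw : perp w e₀) {z : B} (hz : ε z * G w w = 0) : ε z • w = 0 := by
  refine h.aniso _ ((f2_zero_iff h hG (h.smul _ _ _ hw) (h.smul _ _ _ hw)).1 ?_)
  rw [f2_eps h hr m hG (h.smul _ _ _ hw) hw, f2_smull h hG hw, hz, mul_zero]

theorem f2_unit (h : Orth ε perp e₀ e₁ e₂) (hr : Reg ε) (m : BMod ε E)
    (hG : ∀ w, perp w e₀ → ∀ v (r : R), perp (v - r • e₀) (e₀ + w) ↔ r = G v w)
    {w : E} (hw : perp w e₀) (hf : Full ε w) : IsUnit (G w w) :=
  hr.isUnit_of_full fun z hz => hf z (f2_supp h hr m hG hw hz)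

theorem f2_exc (h : Orth ε perp e₀ e₁ e₂) (hr : Reg ε) (m : BMod ε E)
    (hG : ∀ w, perp w e₀ → ∀ v (r : R), perp (v - r • e₀) (e₀ + w) ↔ r = G v w)
    {w : E} (hw : perp w e₀) (r : R) :
    ∃ c : R, ∀ v, perp v e₀ → G v (r • w) = c * G v w := by
  obtain ⟨z, s, h1, h2, -, h4⟩ := hr.qinv (G w w)
  have h5 : ε zᶜ • w = 0 := f2_supp h hr m hG hw ((h4 _).2 (compl_inf_self z))
  have h6 : ε z • w = w := by
    have := hr.smul_add_compl z w
    rwa [h5, add_zero] at this
  have hrw : perp (r • w) e₀ := h.smul _ _ _ hw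
  refine ⟨G w (r • w) * s, fun v hv => ?_⟩
  obtain ⟨t, ht⟩ := h.split v w
  have hn : perp (v - t • w) e₀ := h.sub hv (h.smul _ _ _ hw)
  have e : v = (v - t • w) + t • w := by abel
  have a1 : G v (r • w) = t * G w (r • w) := by
    conv_lhs => rw [e]
    rw [f2_addl h hG hrw, f2_smull h hG hrw,
      (f2_zero_iff h hG hn hrw).2 (f2_psmul h r ht), zero_add]
  have a2 : G v w = t * G w w := by
    conv_lhs => rw [e]
    rw [f2_addl h hG hw, f2_smull h hG hw, (f2_zero_iff h hG hn hw).2 ht, zero_add]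
  have a3 : ε z * G w (r • w) = G w (r • w) := by
    rw [← f2_smull h hG hrw, h6]
  rw [a1, a2]
  linear_combination (-t * G w (r • w)) * h1 - t * a3

theorem f2_transfer (h : Orth ε perp e₀ e₁ e₂) (hr : Reg ε) (m : BMod ε E)
    (hG : ∀ w, perp w e₀ → ∀ v (r : R), perp (v - r • e₀) (e₀ + w) ↔ r = G v w)
    {u w : E} (hu : perp u e₀) (hf : Full ε u) (hw : perp w e₀) (huw : perp u w) {r c : R}
    (hc : ∀ v, perp v e₀ → G v (r • u) = c * G v u) :
    ∀ v, perp v e₀ → G v (r • w) = c * G v w := by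
  obtain ⟨d, hd⟩ := f2_exc h hr m hG (h.add _ _ _ hw hu) r
  have hru := h.smul r _ _ hu
  have hrw := h.smul r _ _ hw
  have hd' : ∀ v, perp v e₀ → G v (r • w) + c * G v u = d * (G v w + G v u) := fun v hv => by
    rw [← hc v hv, ← h.G_add hr m hG hv hrw hru, ← h.G_add hr m hG hv hw hu, ← smul_add]
    exact hd v hv
  have hcd : c = d := by
    have := hd' u hu
    rw [(f2_zero_iff h hG hu hw).2 huw, (f2_zero_iff h hG hu hrw).2 (f2_psmul h r huw),
      zero_add, zero_add] at this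
    exact (f2_unit h hr m hG hu hf).mul_right_cancel this
  intro v hv
  have := hd' v hv
  rw [← hcd] at this
  linear_combination this

end Aux

theorem Orth.exists_theta (h : Orth ε perp e₀ e₁ e₂) (hr : Reg ε) (m : BMod ε E)
    {G : E → E → R}
    (hG : ∀ w, perp w e₀ → ∀ v (r : R), perp (v - r • e₀) (e₀ + w) ↔ r = G v w) :
    ∃ θ : R →+* R, ∀ (r : R) v w, perp v e₀ → perp w e₀ → G v (r • w) = θ r * G v w := by
  have h1 : perp e₁ e₀ := h.symm _ _ h.p01
  have h2 : perp e₂ e₀ := h.symm _ _ h.p02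
  choose c hc using f2_exc h hr m hG h1
  have key : ∀ (r : R) v w, perp v e₀ → perp w e₀ → G v (r • w) = c r * G v w := by
    intro r v w hv hw
    obtain ⟨t, ht⟩ := h.split w e₁
    have hte : perp (t • e₁) e₀ := h.smul _ _ _ h1
    have hn : perp (w - t • e₁) e₀ := h.sub hw hte
    have b1 := f2_transfer h hr m hG h1 h.full₁ hn (h.symm _ _ ht) (hc r) v hv
    have b2 := f2_transfer h hr m hG h1 h.full₁ h2 h.p12 (hc r)
    have b3 := f2_transfer h hr m hG h2 h.full₂ hte (h.symm _ _ (h.smul t _ _ h.p12)) b2 v hv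
    have e : w = (w - t • e₁) + t • e₁ := by abel
    rw [e, smul_add, h.G_add hr m hG hv (h.smul _ _ _ hn) (h.smul _ _ _ hte),
      h.G_add hr m hG hv hn hte, b1, b3, mul_add]
  have hu := f2_unit h hr m hG h1 h.full₁
  refine ⟨⟨⟨⟨c, ?_⟩, fun r s => ?_⟩, ?_, fun r s => ?_⟩, key⟩
  · refine hu.mul_right_cancel ?_
    rw [← key 1 e₁ e₁ h1 h1, one_smul, one_mul]
  · refine hu.mul_right_cancel ?_
    show c (r * s) * G e₁ e₁ = c r * c s * G e₁ e₁
    rw [← key _ e₁ e₁ h1 h1, mul_smul, key r e₁ _ h1 (h.smul _ _ _ h1), key s e₁ e₁ h1 h1,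
      mul_assoc]
  · refine hu.mul_right_cancel ?_
    show c 0 * G e₁ e₁ = 0 * G e₁ e₁
    rw [← key 0 e₁ e₁ h1 h1, zero_smul, zero_mul]
    exact (f2_zero_iff h hG h1 (h.zero _)).2 (h.symm _ _ (h.zero _))
  · refine hu.mul_right_cancel ?_
    show c (r + s) * G e₁ e₁ = (c r + c s) * G e₁ e₁
    rw [← key _ e₁ e₁ h1 h1, add_smul,
      h.G_add hr m hG h1 (h.smul _ _ _ h1) (h.smul _ _ _ h1), key r e₁ e₁ h1 h1,
      key s e₁ e₁ h1 h1, add_mul]

theorem Orth.exists_form (h : Orth ε perp e₀ e₁ e₂) (hr : Reg ε) (m : BMod ε E) :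
    ∃ (_ : StarRing R) (f : E → E → R), IsForm f ∧ f e₀ e₀ = 1 ∧ (∀ z, star (ε z) = ε z) ∧
      ∀ v w, f v w = 0 ↔ perp v w := by
  obtain ⟨G, hG⟩ := h.exists_G hr
  obtain ⟨θ, hθ⟩ := h.exists_theta hr m hG
  have h1 : perp e₁ e₀ := h.symm _ _ h.p01
  have hu := f2_unit h hr m hG h1 h.full₁
  have hε : ∀ z, θ (ε z) = ε z := fun z => hu.mul_right_cancel (by
    rw [← hθ _ e₁ e₁ h1 h1, f2_eps h hr m hG h1 h1])
  have herm : ∀ v w, perp v e₀ → perp w e₀ → θ (G v w) = G w v := by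
    intro v w hv hw
    obtain ⟨z, s, a1, a2, -, a4⟩ := hr.qinv (G v w)
    have b1 : ε zᶜ * G w v = 0 := by
      rw [← f2_eps h hr m hG hw hv]
      refine (f2_zero_iff h hG hw (h.smul _ _ _ hv)).2 (h.symm _ _ ?_)
      refine (f2_zero_iff h hG (h.smul _ _ _ hv) hw).1 ?_
      rw [f2_smull h hG hw]
      exact (a4 _).2 (compl_inf_self z)
    have b2 : perp (ε z • (e₀ + w)) ((-s) • (v - G v w • e₀)) :=
      h.smul _ _ _ (f2_psmul h _ (h.symm _ _ ((hG w hw v _).2 rfl)))
    have b3 := f2_padd h b2 (h.perp_loc hr z (e₀ + w) e₀)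
    have e1 : (-s) • (v - G v w • e₀) + ε zᶜ • e₀ = e₀ + (-s) • v := by
      rw [smul_sub, smul_smul, hr.compl, neg_mul, mul_comm s, a1]
      module
    have e2 : ε z • (e₀ + w) = ε z • w - (-ε z) • e₀ := by module
    rw [e1, e2] at b3
    have b4 := (hG _ (h.smul (-s) _ _ hv) _ _).1 b3
    rw [f2_smull h hG (h.smul (-s) _ _ hv), hθ _ _ _ hw hv, map_neg] at b4
    have b5 : θ (G v w) * θ s = ε z := by rw [← map_mul, a1, hε]
    have b6 : ε z * θ (G v w) = θ (G v w) := by rw [← hε z, ← map_mul, a2]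
    have b7 := hr.add_compl z
    have b8 := hr.idem z
    linear_combination (-θ (G v w)) * b4 - b6 + (ε z * G w v) * b5 + G w v * b8 - b1 +
      G w v * b7
  have hinv : Function.Involutive θ := fun r => by
    obtain ⟨k, hk⟩ := hu.exists_left_inv
    have hv : perp ((r * k) • e₁) e₀ := h.smul _ _ _ h1
    have : G ((r * k) • e₁) e₁ = r := by rw [f2_smull h hG h1, mul_assoc, hk, mul_one]
    rw [← this, herm _ _ hv h1, herm _ _ h1 hv]
  let _ : StarRing R :=
    { star := θ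
      star_involutive := hinv
      star_mul := fun r s => by rw [map_mul, mul_comm]
      star_add := fun r s => map_add θ r s }
  have h0 : perp 0 e₀ := h.zero _
  have hp : ∀ v, perp (v - G v 0 • e₀) e₀ := fun v => by
    have := (hG 0 h0 v _).2 rfl
    rwa [add_zero] at this
  have ha0 : ∀ v, perp v e₀ → G v 0 = 0 := fun v hv =>
    (f2_zero_iff h hG hv h0).2 (h.symm _ _ (h.zero _))
  let f : E → E → R := fun v w =>
    θ (G v 0) * G w 0 + G (w - G w 0 • e₀) (v - G v 0 • e₀)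
  have hf : IsForm f := by
    refine ⟨fun u v w => ?_, fun r v w => ?_, fun v w => ?_⟩
    · have e : v + w - (G v 0 + G w 0) • e₀ = (v - G v 0 • e₀) + (w - G w 0 • e₀) := by module
      simp only [f]
      rw [f2_addl h hG h0, e, f2_addl h hG (hp u)]
      ring
    · have e : r • w - (r * G w 0) • e₀ = r • (w - G w 0 • e₀) := by module
      simp only [f]
      rw [f2_smull h hG h0, e, f2_smull h hG (hp v)]
      ring
    · show θ (f v w) = f w v
      simp only [f]
      rw [map_add, map_mul, hinv, herm _ _ (hp w) (hp v), mul_comm]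
  have c0 : ∀ v w, perp v e₀ → (f v w = 0 ↔ perp v w) := fun v w hv => by
    simp only [f]
    rw [ha0 v hv, map_zero, zero_mul, zero_add, zero_smul, sub_zero, f2_zero_iff h hG (hp w) hv]
    have hb : perp (G w 0 • e₀) v := h.smul _ _ _ (h.symm _ _ hv)
    constructor
    · intro a
      have := h.add _ _ _ a hb
      rw [sub_add_cancel] at this
      exact h.symm _ _ this
    · exact fun a => h.sub (h.symm _ _ a) hb
  have c1 : ∀ v w, G v 0 = 1 → (f v w = 0 ↔ perp v w) := fun v w hv => by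
    have e : f v w = G w (v - G v 0 • e₀) := by
      have e' : w = (w - G w 0 • e₀) + G w 0 • e₀ := by abel
      conv_rhs => rw [e']
      rw [f2_addl h hG (hp v), f2_smull h hG (hp v), f2_e0 h hG (hp v)]
      simp only [f]
      rw [hv, map_one]
      ring
    rw [e, f2_zero_iff' h hG (hp v), hv, one_smul, add_sub_cancel]
    exact ⟨h.symm _ _, h.symm _ _⟩
  have hs : ∀ r : R, star r = θ r := fun r => rfl
  refine ⟨inferInstance, f, hf, ?_, hε, fun v w => ?_⟩
  · simp only [f]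
    rw [f2_e0 h hG h0, map_one, one_smul, sub_self, ha0 0 h0, mul_one, add_zero]
  obtain ⟨z, s, a1, a2, -, a4⟩ := hr.qinv (G v 0)
  have a5 : ε zᶜ * G v 0 = 0 := (a4 _).2 (compl_inf_self z)
  have d0 : perp (ε zᶜ • v) e₀ := by
    have := h.smul (ε zᶜ) _ _ (hp v)
    rwa [smul_sub, smul_smul, a5, zero_smul, sub_zero] at this
  have d1 : G (s • v + ε zᶜ • e₀) 0 = 1 := by
    rw [f2_addl h hG h0, f2_smull h hG h0, f2_smull h hG h0, f2_e0 h hG h0, mul_one, mul_comm, a1,
      hr.add_compl]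
  have d2 : f (ε zᶜ • v) w = ε zᶜ * f v w := by rw [hf.smul_left, hs, hε]
  have d3 : f (s • v + ε zᶜ • e₀) (ε z • w) = θ s * (ε z * f v w) := by
    rw [hf.add_left, hf.smul_left, hf.smul_left, hf.smul, hf.smul, hs, hs, hε]
    linear_combination f e₀ w * hr.mul_compl z
  constructor
  · intro a
    have p1 : perp (ε zᶜ • v) w := (c0 _ w d0).1 (by rw [d2, a, mul_zero])
    have p2 := h.smul (G v 0) _ _ ((c1 _ (ε z • w) d1).1 (by rw [d3, a, mul_zero, mul_zero]))
    rw [smul_add, smul_smul, smul_smul, a1, mul_comm, a5, zero_smul, add_zero] at p2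
    have p3 := f2_padd h p2 (h.perp_loc hr z v w)
    rw [hr.smul_add_compl] at p3
    have p4 := h.add _ _ _ p3 p1
    rwa [hr.smul_add_compl] at p4
  · intro a
    have q1 := (c0 _ w d0).2 (h.smul _ _ _ a)
    have q2 : perp (ε zᶜ • e₀) (ε z • w) := by
      have := h.perp_loc hr zᶜ e₀ w
      rwa [compl_compl] at this
    have q3 := (c1 _ (ε z • w) d1).2 (h.add _ _ _ (h.smul s _ _ (f2_psmul h (ε z) a)) q2)
    rw [d2] at q1
    rw [d3] at q3
    have b5 : θ (G v 0) * θ s = ε z := by rw [← map_mul, a1, hε]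
    linear_combination θ (G v 0) * q3 - (ε z * f v w) * b5 - f v w * hr.idem z + q1 -
      f v w * hr.add_compl z

end Pool.Agent.P.MP_d8da86_an.CR
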