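import Pool.Agent.P.MP_d8da86_an.C.R6b

/-!
The Hilbert space of square integrable vectors.
Hints. The bounded vectors form a complex vector space D (`Module.compHom`, or a
`Submodule ℂ E` after `Module.compHom E (algebraMap ℂ R)`), with the inner product m (f v w)
(`InnerProductSpace.Core`, definite by `IsInt.faithful`). H is its completion, J v = 0 for
unbounded v, π z is the extension (`ContinuousLinearMap.completion` or `extend`) of the
contraction v ↦ ε z • v.
-/

open scoped InnerProductSpace ComplexConjugate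

set_option linter.unusedSectionVars false
set_option linter.unusedVariables false

noncomputable section

namespace Pool.Agent.P.MP_d8da86_an.CR

universe u

theorem h2_gen {B : Type*} {D : Type u} [AddCommGroup D] [Module ℂ D]
    (c : PreInnerProductSpace.Core ℂ D) (P : B → D →ₗ[ℂ] D)
    (hP : ∀ z v, (c.inner (P z v) (P z v)).re ≤ (c.inner v v).re) :
    ∃ (H : Type u) (_ : NormedAddCommGroup H) (_ : InnerProductSpace ℂ H) (_ : CompleteSpace H)
      (j : D →ₗ[ℂ] H) (π : B → H →L[ℂ] H), (∀ v w, ⟪j v, j w⟫_ℂ = c.inner v w) ∧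
        DenseRange j ∧ ∀ z v, π z (j v) = j (P z v) := by
  letI : SeminormedAddCommGroup D :=
    InnerProductSpace.Core.toSeminormedAddCommGroup (𝕜 := ℂ) (c := c)
  letI : InnerProductSpace ℂ D := InnerProductSpace.ofCore c
  have hb : ∀ z v, ‖P z v‖ ≤ 1 * ‖v‖ := fun z v => by
    rw [one_mul]
    exact Real.sqrt_le_sqrt (hP z v)
  refine ⟨UniformSpace.Completion D, inferInstance, inferInstance, inferInstance,
    (UniformSpace.Completion.toComplL : D →L[ℂ] UniformSpace.Completion D).toLinearMap,
    fun z => ((P z).mkContinuous 1 (hb z)).completion, fun v w => ?_, ?_, fun z v => ?_⟩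
  · exact UniformSpace.Completion.inner_coe v w
  · exact UniformSpace.Completion.denseRange_coe
  · exact ContinuousLinearMap.completion_apply_coe _ v

theorem exists_HR {B : Type u} [CompleteBooleanAlgebra B] {R : Type u} [CommRing R] [StarRing R]
    [PartialOrder R] [IsOrderedRing R] [Algebra ℂ R] {ε : B → R} {E : Type u} [AddCommGroup E]
    [Module R E] {f : E → E → R} {μ : B → ℝ} {m : R →ₗ[ℂ] ℂ} (h : BC1 ε) (hf : PD ε f)
    (hμ : BMeas μ) (hm : IsInt ε μ m) :
    ∃ (H : Type u) (_ : NormedAddCommGroup H) (_ : InnerProductSpace ℂ H) (_ : CompleteSpace H)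
      (J : E → H) (π : B → H →L[ℂ] H), HR ε f m J π := by
  classical
  letI : Module ℂ E := Module.compHom E (algebraMap ℂ R)
  have hs : ∀ (c : ℂ) (v : E), c • v = algebraMap ℂ R c • v := fun _ _ => rfl
  have hF : IsForm f := hf.toIsForm
  let D : Submodule ℂ E :=
    { carrier := {v | Bd f v}
      add_mem' := fun hv hw => h.bd_add hF hf.nonneg hv hw
      zero_mem' := h.bd_zero hF
      smul_mem' := fun c v hv => h.bd_smul hF hf.nonneg (h.bdR_alg c) hv }
  have hD : ∀ v : D, Bd f (v : E) := fun v => v.2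
  let c : PreInnerProductSpace.Core ℂ D :=
    { inner := fun v w => m (f v w)
      conj_inner_symm := fun v w => by
        change conj (m (f w v)) = m (f v w)
        rw [← hm.star_eq, hF.herm]
      re_inner_nonneg := fun v =>
        hm.nonneg _ (h.bdR_form hF hf.nonneg (hD v) (hD v)) (hf.nonneg _)
      add_left := fun u v w => by
        change m (f ((u : E) + v) w) = m (f u w) + m (f v w)
        rw [hF.add_left, map_add]
      smul_left := fun v w a => by
        change m (f (algebraMap ℂ R a • (v : E)) w) = conj a * m (f v w)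
        rw [hF.smul_left, h.star_alg, ← Algebra.smul_def, map_smul, smul_eq_mul] }
  let P : B → D →ₗ[ℂ] D := fun z =>
    { toFun := fun v => ⟨ε z • (v : E), h.bd_smul hF hf.nonneg (h.bdR_eps z) (hD v)⟩
      map_add' := fun v w => Subtype.ext (smul_add _ _ _)
      map_smul' := fun a v => Subtype.ext (by
        change ε z • (algebraMap ℂ R a • (v : E)) = algebraMap ℂ R a • (ε z • (v : E))
        rw [smul_smul, smul_smul, mul_comm]) }
  have hP : ∀ z v, (c.inner (P z v) (P z v)).re ≤ (c.inner v v).re := fun z v => by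
    change (m (f (ε z • (v : E)) (ε z • (v : E)))).re ≤ (m (f v v)).re
    have hb : BdR (f (v : E) v) := h.bdR_form hF hf.nonneg (hD v) (hD v)
    have e1 : f (ε z • (v : E)) (ε z • (v : E)) = ε z * f v v := by
      rw [hF.smul_left, hF.smul, h.star_ε, ← mul_assoc, h.toReg.idem]
    have e2 : f (v : E) v = ε z * f v v + ε zᶜ * f v v := by
      rw [← add_mul, h.toReg.add_compl, one_mul]
    have h3 : 0 ≤ (m (ε zᶜ * f (v : E) v)).re :=
      hm.nonneg _ (h.bdR_mul (h.bdR_eps _) hb)
        (mul_nonneg (h.toBC.eps_nonneg _) (hf.nonneg _))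
    have e4 : m (f (v : E) v) = m (ε z * f v v) + m (ε zᶜ * f v v) := by
      rw [← map_add, ← e2]
    rw [e1, e4, Complex.add_re]
    linarith
  obtain ⟨H, i1, i2, i3, j, π, hj, hd, hπ⟩ := h2_gen c P hP
  let J : E → H := fun v => if hv : Bd f v then j ⟨v, hv⟩ else 0
  have hJ : ∀ v (hv : Bd f v), J v = j ⟨v, hv⟩ := fun v hv => dif_pos hv
  refine ⟨H, i1, i2, i3, J, π, fun v w hv hw => ?_, fun a v hv => ?_, fun v w hv hw => ?_, ?_,
    fun z v hv => ?_⟩
  · rw [hJ v hv, hJ w hw, hJ _ (h.bd_add hF hf.nonneg hv hw), ← map_add]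
    rfl
  · rw [hJ v hv, hJ _ (h.bd_smul hF hf.nonneg (h.bdR_alg a) hv), ← map_smul]
    rfl
  · rw [hJ v hv, hJ w hw, hj]
    rfl
  · refine Dense.mono ?_ hd
    rintro _ ⟨v, rfl⟩
    exact ⟨v, hD v, hJ _ (hD v)⟩
  · rw [hJ v hv, hπ, hJ _ (h.bd_smul hF hf.nonneg (h.bdR_eps z) hv)]
    rfl

end Pool.Agent.P.MP_d8da86_an.CR
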