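import Pool.Agent.P.MP_d8da86_an.C.H3
import Pool.Agent.P.MP_d8da86_an.C.H2
import Pool.Agent.P.MP_d8da86_an.C.P4b

/-!
The representation in dimension at least three.
Hints. Φ x is the closure of the span of the J v with v bounded and pt v ≤ x. Φ x perp Φ (o x), and
every bounded v splits (`PM.split`, `bd_of_perp`), so (Φ x)ᗮ = Φ (o x) = Φ (w ⊓ o x). If J v ∈ Φ y
then J v perp J (ε z • c) for bounded c with pt c ≤ o y, so f c v = 0 (`IsInt.eq_zero`), so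
pt v ≤ y (`le_of_vec`, `normalise`). π b ξ ∈ Φ (j b), ξ - π b ξ ∈ Φ (j bᶜ). For M reduced by all
Φ (j b), M and Mᗮ are invariant under the π b; let x be the join of the pt v with J v ∈ M; by
`approx` M ≤ Φ x and Mᗮ ≤ Φ (o x).
-/

open scoped InnerProductSpace ComplexConjugate

set_option linter.unusedSectionVars false
set_option linter.unusedVariables false

noncomputable section

namespace Pool.Agent.P.MP_d8da86_an.CR

universe u

section

variable {L : Type*} [CompleteLattice L] {o : L → L} {p : L}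
    {B : Type*} [CompleteBooleanAlgebra B] {j : B → L} {R : Type*} [CommRing R] [StarRing R]
    [PartialOrder R] [IsOrderedRing R] [Algebra ℂ R] {ε : B → R} {E : Type*} [AddCommGroup E]
    [Module R E] {pt : E → L} {e₀ : E} {f : E → E → R} {μ : B → ℝ} {m : R →ₗ[ℂ] ℂ}
    {H : Type*} [NormedAddCommGroup H] [InnerProductSpace ℂ H] [CompleteSpace H]
    {J : E → H} {π : B → H →L[ℂ] H}

/-- all the data -/
structure h4_Ctx (o : L → L) (p : L) (j : B → L) (ε : B → R) (pt : E → L) (e₀ : E)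
    (f : E → E → R) (μ : B → ℝ) (m : R →ₗ[ℂ] ℂ) (J : E → H) (π : B → H →L[ℂ] H) : Prop where
  M : FM o p j ε pt e₀ f
  h : Geo o
  hj : CenRep o (cov o p) j
  h1 : BC1 ε
  hμ : BMeas μ
  hm : IsInt ε μ m
  S : HR ε f m J π

namespace h4_Ctx

variable (C : h4_Ctx o p j ε pt e₀ f μ m J π)
include C

theorem fm : IsForm f := C.M.pd.toIsForm

theorem om : OM o := C.h.toOM

theorem bd_eps (z : B) {v : E} (hv : Bd f v) : Bd f (ε z • v) :=
  C.h1.bd_smul C.fm C.M.pd.nonneg (C.h1.bdR_eps z) hv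

/-- the images of the bounded vectors below `x` -/
def D (x : L) : Submodule ℂ H where
  carrier := {ξ | ∃ v, Bd f v ∧ pt v ≤ x ∧ J v = ξ}
  add_mem' := by
    rintro _ _ ⟨v, hv, hx, rfl⟩ ⟨w, hw, hy, rfl⟩
    exact ⟨v + w, C.h1.bd_add C.fm C.M.pd.nonneg hv hw, C.M.toPM.add_mem hx hy,
      C.S.add v w hv hw⟩
  zero_mem' := ⟨0, C.h1.bd_zero C.fm, by rw [C.M.toPM.pt_zero C.h C.hj]; exact bot_le,
    C.S.zero C.h1 C.M.pd⟩
  smul_mem' := by
    rintro c _ ⟨v, hv, hx, rfl⟩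
    exact ⟨algebraMap ℂ R c • v, C.h1.bd_smul C.fm C.M.pd.nonneg (C.h1.bdR_alg c) hv,
      C.M.toPM.smul_mem _ hx, C.S.smul c v hv⟩

theorem mem_D {x : L} {ξ : H} : ξ ∈ C.D x ↔ ∃ v, Bd f v ∧ pt v ≤ x ∧ J v = ξ := Iff.rfl

/-- the closed subspace of `x` -/
def Φ (x : L) : Submodule ℂ H := (C.D x).topologicalClosure

theorem closed (x : L) : IsClosed (C.Φ x : Set H) := (C.D x).isClosed_topologicalClosure

theorem D_le (x : L) : C.D x ≤ C.Φ x := (C.D x).le_topologicalClosure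

theorem J_mem {x : L} {v : E} (hv : Bd f v) (hx : pt v ≤ x) : J v ∈ C.Φ x :=
  C.D_le x ⟨v, hv, hx, rfl⟩

theorem Φ_le {x : L} {N : Submodule ℂ H} (hN : IsClosed (N : Set H))
    (hl : ∀ v, Bd f v → pt v ≤ x → J v ∈ N) : C.Φ x ≤ N := by
  refine Submodule.topologicalClosure_minimal _ ?_ hN
  rintro _ ⟨v, hv, hx, rfl⟩
  exact hl v hv hx

theorem mono {x y : L} (hxy : x ≤ y) : C.Φ x ≤ C.Φ y :=
  C.Φ_le (C.closed y) fun v hv hx => C.J_mem hv (hx.trans hxy)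

theorem Φ_inf (x : L) : C.Φ (cov o p ⊓ x) = C.Φ x :=
  le_antisymm (C.mono inf_le_right)
    (C.Φ_le (C.closed _) fun v hv hx => C.J_mem hv (le_inf (C.M.le_cov v) hx))

theorem f_zero {x : L} {v c : E} (hv : pt v ≤ x) (hc : pt c ≤ o x) : f v c = 0 := by
  rw [C.M.perp]
  exact hv.trans (C.om.perp_comm.1 hc)

theorem split {v : E} (hv : Bd f v) (x : L) :
    ∃ a b, Bd f a ∧ Bd f b ∧ pt a ≤ x ∧ pt b ≤ o x ∧ v = a + b := by
  obtain ⟨a, b, ha, hb, rfl⟩ := C.M.toPM.split C.h v x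
  have := C.h1.bd_of_perp C.fm C.M.pd.nonneg (C.f_zero ha hb) hv
  exact ⟨a, b, this.1, this.2, ha, hb, rfl⟩

theorem le_orth (x : L) : C.Φ (o x) ≤ (C.Φ x)ᗮ := by
  refine C.Φ_le (Submodule.isClosed_orthogonal _) fun c hc hx => ?_
  have : C.Φ x ≤ (Submodule.span ℂ {J c})ᗮ := by
    refine C.Φ_le (Submodule.isClosed_orthogonal _) fun v hv hy => ?_
    rw [Submodule.mem_orthogonal_singleton_iff_inner_left, C.S.inner v c hv hc,
      C.f_zero hy hx, map_zero]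
  rw [Submodule.mem_orthogonal]
  intro u hu
  exact Submodule.mem_orthogonal_singleton_iff_inner_left.1 (this hu)

theorem eq_zero_of {ξ : H} (h0 : ∀ v, Bd f v → ⟪J v, ξ⟫_ℂ = 0) : ξ = 0 := by
  have hc : IsClosed {η : H | ⟪η, ξ⟫_ℂ = 0} :=
    isClosed_eq (continuous_id.inner continuous_const) continuous_const
  have hs : J '' {v | Bd f v} ⊆ {η : H | ⟪η, ξ⟫_ℂ = 0} := by
    rintro _ ⟨v, hv, rfl⟩
    exact h0 v hv
  have := hc.closure_subset_iff.2 hs (C.S.dense ξ)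
  exact inner_self_eq_zero.1 this

theorem orth (x : L) : C.Φ (o x) = (C.Φ x)ᗮ := by
  refine le_antisymm (C.le_orth x) fun ξ hξ => ?_
  have : CompleteSpace (C.Φ (o x)) := (C.closed _).completeSpace_coe
  obtain ⟨a, ha, b, hb, rfl⟩ := Submodule.exists_add_mem_mem_orthogonal
    (K := C.Φ (o x)) ξ
  have hb' : b ∈ (C.Φ x)ᗮ := by
    have := Submodule.sub_mem _ hξ (C.le_orth x ha)
    simpa using this
  have : b = 0 := by
    refine C.eq_zero_of fun v hv => ?_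
    obtain ⟨c, d, hc, hd, hcx, hdx, rfl⟩ := C.split hv x
    rw [C.S.add c d hc hd, inner_add_left, (Submodule.mem_orthogonal _ _).1 hb' _ (C.J_mem hc hcx),
      (Submodule.mem_orthogonal _ _).1 hb _ (C.J_mem hd hdx), add_zero]
  rw [this, add_zero]
  exact ha

theorem pt_le {y : L} {v : E} (hv : Bd f v) (hy : J v ∈ C.Φ y) : pt v ≤ y := by
  obtain ⟨a, b, ha, hb, hay, hby, rfl⟩ := C.split hv y
  have h1 : ⟪J (a + b), J b⟫_ℂ = 0 :=
    (Submodule.mem_orthogonal _ _).1 (C.le_orth y (C.J_mem hb hby)) _ hy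
  rw [C.S.inner _ _ hv hb, C.fm.add_left, C.f_zero hay hby, zero_add] at h1
  have h2 : f b b = 0 := C.hm.faithful C.h1 C.hμ (C.h1.bdR_form C.fm C.M.pd.nonneg hb hb)
    (C.M.pd.nonneg b) (by rw [h1]; rfl)
  rw [C.M.pd.aniso b h2, add_zero]
  exact hay

theorem le_of_le {x y : L} (hx : x ≤ cov o p) (hxy : C.Φ x ≤ C.Φ y) : x ≤ y := by
  refine C.M.toPM.le_of_vec C.h hx fun v hv => ?_
  obtain ⟨u, z, a, b, h1, h2, h3, -⟩ := C.M.bc.normalise C.M.pd v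
  have hu : Bd f u := ⟨1, by rw [h1, cR_one]; exact C.M.bc.eps_le_one z⟩
  have hux : pt u ≤ x := by rw [h2]; exact C.M.toPM.smul_mem a hv
  rw [h3]
  exact C.M.toPM.smul_mem b (C.pt_le hu (hxy (C.J_mem hu hux)))

theorem π_mem {x : L} (b : B) {ξ : H} (hξ : ξ ∈ C.Φ x) : π b ξ ∈ C.Φ x := by
  have : C.Φ x ≤ (C.Φ x).comap (π b : H →ₗ[ℂ] H) := by
    refine C.Φ_le ((C.closed x).preimage (π b).continuous) fun v hv hx => ?_
    show π b (J v) ∈ C.Φ x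
    rw [C.S.proj b v hv]
    exact C.J_mem (C.bd_eps b hv) (C.M.toPM.smul_mem _ hx)
  exact this hξ

theorem π_mem_j (b : B) (ξ : H) : π b ξ ∈ C.Φ (j b) := by
  have hc : IsClosed ((π b) ⁻¹' (C.Φ (j b) : Set H)) := (C.closed _).preimage (π b).continuous
  have hs : J '' {v | Bd f v} ⊆ (π b) ⁻¹' (C.Φ (j b) : Set H) := by
    rintro _ ⟨v, hv, rfl⟩
    show π b (J v) ∈ C.Φ (j b)
    rw [C.S.proj b v hv]
    exact C.J_mem (C.bd_eps b hv) (by rw [C.M.loc]; exact inf_le_left)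
  exact hc.closure_subset_iff.2 hs (C.S.dense ξ)

theorem sub_π_mem (b : B) (ξ : H) : ξ - π b ξ ∈ (C.Φ (j b))ᗮ := by
  have h1 : ξ - π b ξ = π bᶜ ξ := by
    rw [sub_eq_iff_eq_add', C.S.add_compl C.h1 C.M.pd]
  rw [h1, ← C.orth, ← C.Φ_inf, ← C.hj.map_compl C.om (C.om.cen_cov p)]
  exact C.π_mem_j _ _

theorem le_Φ {N : Submodule ℂ H} {x : L} (hN : ∀ b, ∀ ξ ∈ N, π b ξ ∈ N)
    (hl : ∀ v, Bd f v → J v ∈ N → pt v ≤ x) : N ≤ C.Φ x := by
  intro ξ hξ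
  rw [← SetLike.mem_coe, ← (C.closed x).closure_eq, Metric.mem_closure_iff]
  intro η hη
  obtain ⟨z, v, hv, h1, h2⟩ := C.S.approx C.h1 C.M.pd (C.M.orthoMod C.h) C.hμ C.hm ξ
    (half_pos hη)
  refine ⟨J v, C.J_mem hv (hl v hv (h1 ▸ hN z ξ hξ)), ?_⟩
  rw [dist_eq_norm, ← h1]
  linarith

theorem surj (N : Submodule ℂ H) (hN : IsClosed (N : Set H))
    (hr : ∀ z, Cen o z → z ≤ cov o p → Red (C.Φ z) N) : ∃ x, x ≤ cov o p ∧ C.Φ x = N := by
  have h1 : ∀ b, ∀ ξ ∈ N, π b ξ ∈ N := by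
    intro b ξ hξ
    obtain ⟨a, ha, hb, hc⟩ := hr (j b) (C.hj.cen b) (C.hj.le b) ξ hξ
    have e1 : π b ξ - a ∈ C.Φ (j b) := Submodule.sub_mem _ (C.π_mem_j b ξ) hb
    have e2 : π b ξ - a ∈ (C.Φ (j b))ᗮ := by
      have := Submodule.sub_mem _ hc (C.sub_π_mem b ξ)
      convert this using 1
      abel
    have e3 : π b ξ - a = 0 := inner_self_eq_zero.1 ((Submodule.mem_orthogonal _ _).1 e2 _ e1)
    rw [sub_eq_zero.1 e3]
    exact ha
  have h2 : ∀ b, ∀ ξ ∈ Nᗮ, π b ξ ∈ Nᗮ := by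
    intro b ξ hξ
    rw [Submodule.mem_orthogonal] at hξ ⊢
    intro u hu
    rw [← C.S.symm C.h1 C.M.pd]
    exact hξ _ (h1 b u hu)
  refine ⟨sSup {y | ∃ v, Bd f v ∧ J v ∈ N ∧ pt v = y}, ?_, le_antisymm ?_ ?_⟩
  · refine sSup_le ?_
    rintro _ ⟨v, -, -, rfl⟩
    exact C.M.le_cov v
  · have h3 : Nᗮ ≤ C.Φ (o (sSup {y | ∃ v, Bd f v ∧ J v ∈ N ∧ pt v = y})) := by
      refine C.le_Φ h2 fun c hc hcN => ?_
      rw [C.om.perp_comm]
      refine sSup_le ?_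
      rintro _ ⟨v, hv, hvN, rfl⟩
      rw [← C.M.perp]
      refine C.hm.eq_zero C.h1 C.hμ (C.h1.bdR_form C.fm C.M.pd.nonneg hv hc) fun z => ?_
      rw [← C.fm.smul, ← C.S.inner _ _ hv (C.bd_eps z hc), ← C.S.proj z c hc]
      exact (Submodule.mem_orthogonal _ _).1 (h2 z _ hcN) _ hvN
    rw [C.orth] at h3
    have : CompleteSpace N := hN.completeSpace_coe
    have h4 := Submodule.orthogonal_le h3
    rw [Submodule.orthogonal_orthogonal N] at h4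
    exact (Submodule.le_orthogonal_orthogonal _).trans h4
  · exact C.le_Φ h1 fun v hv hvN => le_sSup ⟨v, hv, hvN, rfl⟩

end h4_Ctx

end

theorem FM.isRep {L : Type*} [CompleteLattice L] {o : L → L} {p : L}
    {B : Type*} [CompleteBooleanAlgebra B] {j : B → L} {R : Type*} [CommRing R] [StarRing R]
    [PartialOrder R] [IsOrderedRing R] [Algebra ℂ R] {ε : B → R} {E : Type*} [AddCommGroup E]
    [Module R E] {pt : E → L} {e₀ : E} {f : E → E → R} {μ : B → ℝ} {m : R →ₗ[ℂ] ℂ}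
    {H : Type*} [NormedAddCommGroup H] [InnerProductSpace ℂ H] [CompleteSpace H]
    {J : E → H} {π : B → H →L[ℂ] H} (M : FM o p j ε pt e₀ f) (h : Geo o)
    (hj : CenRep o (cov o p) j) (h1 : BC1 ε) (hμ : BMeas μ) (hm : IsInt ε μ m)
    (S : HR ε f m J π) : ∃ Φ : L → Submodule ℂ H, IsRep o (cov o p) Φ := by
  have C : h4_Ctx o p j ε pt e₀ f μ m J π := ⟨M, h, hj, h1, hμ, hm, S⟩
  refine ⟨C.Φ, C.closed, fun x y hx hy => ⟨C.le_of_le hx, C.mono⟩, fun z hz hw => ?_,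
    fun x z hx hz hw ξ hξ => ?_, C.surj⟩
  · rw [C.Φ_inf, C.orth]
  · obtain ⟨b, rfl⟩ := (hj.range z).2 ⟨hz, hw⟩
    exact ⟨π b ξ, C.π_mem b hξ, C.π_mem_j b ξ, C.sub_π_mem b ξ⟩

end Pool.Agent.P.MP_d8da86_an.CR
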