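import Pool.Agent.P.MP_d8da86_an.C.R6

/-!
The integral.
Hints. `exists_int`: W = the real vector space of bounded self-adjoint elements (R is an
ℝ-module through ℂ). If a finite sum of c z • ε z is nonnegative then the sum of c z * μ z is
nonnegative (induction on the finite set, splitting along one z: prove it for the sums of
c z • ε (z ⊓ y) + d • ε y for all y and d). This defines a positive functional on the span of the
ε z; extend it to W by `riesz_extension`, to all self-adjoint elements or all of R by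
`LinearMap.exists_extend`, and put m r = m0 (re r) + i * m0 (im r) with
re r = (r + star r) / 2. `faithful`: r ≥ cR t * ε z for z the `cut` of r - cR t.
-/

open scoped InnerProductSpace ComplexConjugate

set_option linter.unusedSectionVars false
set_option linter.unusedVariables false

noncomputable section

namespace Pool.Agent.P.MP_d8da86_an.CR

universe u

variable {B : Type*} [CompleteBooleanAlgebra B] {R : Type*} [CommRing R] [StarRing R]
  [PartialOrder R] [IsOrderedRing R] [Algebra ℂ R] {ε : B → R} {μ : B → ℝ} {m : R →ₗ[ℂ] ℂ} {r : R}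

theorem r6b_eps (hm : IsInt ε μ m) (t : ℝ) (z : B) : (m (ε z * cR R t)).re = t * μ z := by
  rw [mul_comm, ← Algebra.smul_def, map_smul, hm.eps, smul_eq_mul, ← Complex.ofReal_mul,
    Complex.ofReal_re]

theorem IsInt.le (hm : IsInt ε μ m) (h : BC1 ε) (hr : 0 ≤ r) {t : ℝ} (ht : r ≤ cR R t) (z : B) :
    (m (ε z * r)).re ≤ t * μ z := by
  have h1 : 0 ≤ cR R t - r := sub_nonneg.2 ht
  have h2 : 0 ≤ ε z * (cR R t - r) := mul_nonneg (h.toBC.eps_nonneg z) h1
  have h3 : ε z * (cR R t - r) ≤ cR R t := (h.toBC.eps_mul_le z h1).trans (sub_le_self _ hr)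
  have h4 := hm.nonneg _ (h.bdR_of_le h2 h3) h2
  rw [mul_sub, map_sub, Complex.sub_re, r6b_eps hm] at h4
  linarith

theorem IsInt.cheb (hm : IsInt ε μ m) (h : BC1 ε) (hb : BdR r) (hr : 0 ≤ r) {t : ℝ}
    (ht : 0 < t) : ∃ z, ε z * r ≤ cR R t ∧ t * μ zᶜ ≤ (m r).re := by
  have hs := h.toBC.star_eq hr
  obtain ⟨z, h1, h2⟩ := h.total (cR R t - r) (by rw [star_sub, h.star_cR, hs])
  have ht0 : 0 ≤ cR R t := h.alg_nonneg t ht.le
  rw [mul_sub] at h1 h2
  refine ⟨z, (sub_nonneg.1 h1).trans (h.toBC.eps_mul_le z ht0), ?_⟩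
  have h3 : 0 ≤ r - ε zᶜ * cR R t :=
    sub_nonneg.2 ((sub_nonpos.1 h2).trans (h.toBC.eps_mul_le zᶜ hr))
  obtain ⟨T, -, hT⟩ := (h.bdR_iff hs).1 hb
  have h4 : r - ε zᶜ * cR R t ≤ cR R T :=
    (sub_le_self _ (mul_nonneg (h.toBC.eps_nonneg _) ht0)).trans hT
  have h5 := hm.nonneg _ (h.bdR_of_le h3 h4) h3
  rw [map_sub, Complex.sub_re, r6b_eps hm] at h5
  linarith

theorem IsInt.faithful (hm : IsInt ε μ m) (h : BC1 ε) (hμ : BMeas μ) (hb : BdR r) (hr : 0 ≤ r)
    (h0 : (m r).re = 0) : r = 0 := by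
  refine h.arch (s := 1) hr fun t ht => ?_
  obtain ⟨z, h1, h2⟩ := hm.cheb h hb hr ht
  have h3 : zᶜ = ⊥ := by
    by_contra hc
    have := mul_pos ht (hμ.pos _ hc)
    linarith
  rw [compl_eq_bot.1 h3, h.top, one_mul] at h1
  rwa [mul_one]

theorem r6b_sa (hm : IsInt ε μ m) (h : BC1 ε) (hμ : BMeas μ) (hb : BdR r) (hs : star r = r)
    (h0 : ∀ z, m (ε z * r) = 0) : r = 0 := by
  obtain ⟨z, h1, h2⟩ := h.total r hs
  have a1 : ε z * r = 0 := hm.faithful h hμ (h.bdR_mul (h.bdR_eps z) hb) h1 (by rw [h0]; rfl)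
  have a2 : -(ε zᶜ * r) = 0 := by
    refine hm.faithful h hμ ?_ (neg_nonneg.2 h2) (by rw [map_neg, h0, neg_zero]; rfl)
    have := h.bdR_mul (h.bdR_alg (-1)) (h.bdR_mul (h.bdR_eps zᶜ) hb)
    rwa [map_neg, map_one, neg_one_mul] at this
  rw [h.compl, sub_mul, a1, one_mul, sub_zero, neg_eq_zero] at a2
  exact a2

theorem IsInt.eq_zero (hm : IsInt ε μ m) (h : BC1 ε) (hμ : BMeas μ) (hb : BdR r)
    (h0 : ∀ z, m (ε z * r) = 0) : r = 0 := by
  have h1 : ∀ z, m (ε z * star r) = 0 := fun z => by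
    have := hm.star_eq (ε z * r)
    rwa [star_mul', h.star_ε, h0, map_zero] at this
  have key : ∀ c : ℂ, algebraMap ℂ R c * r + algebraMap ℂ R (conj c) * star r = 0 := fun c => by
    refine r6b_sa hm h hμ (h.bdR_add (h.bdR_mul (h.bdR_alg c) hb)
      (h.bdR_mul (h.bdR_alg _) (h.bdR_star hb))) ?_ fun z => ?_
    · rw [star_add, star_mul', star_mul', h.star_alg, h.star_alg, star_star, Complex.conj_conj,
        add_comm]
    · rw [mul_add, mul_left_comm, mul_left_comm (ε z), ← Algebra.smul_def, ← Algebra.smul_def,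
        map_add, map_smul, map_smul, h0, h1, smul_zero, smul_zero, add_zero]
  have k1 := key 1
  have k2 := key Complex.I
  rw [← Algebra.smul_def, ← Algebra.smul_def] at k1 k2
  rw [map_one] at k1
  rw [Complex.conj_I] at k2
  have e : r = (1 / 2 : ℂ) • ((1 : ℂ) • r + (1 : ℂ) • star r) +
      (-Complex.I / 2) • (Complex.I • r + -Complex.I • star r) := by
    simp only [smul_add, smul_smul]
    have e1 : -Complex.I / 2 * Complex.I = 1 / 2 := by
      rw [div_mul_eq_mul_div, neg_mul, Complex.I_mul_I, neg_neg]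
    have e2 : -Complex.I / 2 * -Complex.I = -(1 / 2) := by rw [mul_neg, e1]
    rw [e1, e2, mul_one, neg_smul, add_add_add_comm, add_neg_cancel, add_zero, ← add_smul]
    norm_num
  rw [e, k1, k2, smul_zero, smul_zero, add_zero]

end Pool.Agent.P.MP_d8da86_an.CR
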