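import Pool.Agent.P.MP_d8da86_an.C.O2b
import Pool.Agent.P.MP_d8da86_an.C.R6b

/-!
Measure algebras.
Hints. Pre-Hilbert space: B →₀ ℂ with the kernel μ (z ⊓ w) (positive semidefinite: refine to the
atoms of a finite subalgebra, or induct as in `exists_int`); use `PreInnerProductSpace.Core`,
`SeparationQuotient` or directly `UniformSpace.Completion` of the seminormed space. Let χ z be the
image of single z 1, π z the extension of single w c ↦ single (z ⊓ w) c, Φ z the range of π z (the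
fixed vectors). For M reduced by all Φ z let Q be its projection, a = Q (χ ⊤), b = χ ⊤ - a,
ν1 z = ‖π z a‖ ^ 2, ν2 z = ‖π z b‖ ^ 2, ν1 + ν2 = μ. If ‖a - ∑ c k • χ (z k)‖ ^ 2 ≤ δ for a finite
partition z k then ∑ ν1 (z k) * ν2 (z k) / μ (z k) ≤ δ, so y = the join of the z k with ν1 ≥ ν2 has
ν2 y ≤ 2 δ and ν1 yᶜ ≤ 2 δ. With δ = 1 / 4 ^ n and y = ⨆ N, ⨅ n ≥ N, y n one gets π y b = 0 and
π yᶜ a = 0 (π is normal since ν1, ν2 ≤ μ and μ is normal), so a = χ y and Q = π y on the dense span.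
-/

open scoped InnerProductSpace ComplexConjugate

set_option linter.unusedSectionVars false
set_option linter.unusedVariables false

noncomputable section

namespace Pool.Agent.P.MP_d8da86_an.CR

universe u

section Measure

variable {B : Type u} [CompleteBooleanAlgebra B] {μ : B → ℝ}

/-- additive on disjoint pairs -/
def h5_Add (ν : B → ℝ) : Prop := ∀ z w, z ⊓ w = ⊥ → ν (z ⊔ w) = ν z + ν w

theorem h5_Add.bot {ν : B → ℝ} (h : h5_Add ν) : ν ⊥ = 0 := by
  have h1 := h ⊥ ⊥ (inf_idem _)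
  rw [sup_idem] at h1
  linarith

theorem h5_Add.split {ν : B → ℝ} (h : h5_Add ν) (t z : B) : ν t = ν (t ⊓ z) + ν (t ⊓ zᶜ) := by
  rw [← h _ _ (by rw [inf_inf_inf_comm, inf_compl_self, inf_bot_eq]), ← inf_sup_left,
    sup_compl_eq_top, inf_top_eq]

theorem h5_Add.mono {ν : B → ℝ} (h : h5_Add ν) (h0 : ∀ z, 0 ≤ ν z) : Monotone ν := by
  intro d s hds
  have h1 := h.split s d
  rw [inf_eq_right.2 hds] at h1
  linarith [h0 (s ⊓ dᶜ)]

theorem h5_nonneg (hμ : BMeas μ) (z : B) : 0 ≤ μ z := by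
  by_cases h : z = ⊥
  · rw [h, h5_Add.bot hμ.add]
  · exact (hμ.pos z h).le

theorem h5_max (hμ : BMeas μ) {α β : B → ℝ} (hα : h5_Add α) (hle : ∀ z, α z ≤ μ z)
    (hβ : Monotone β) (h0 : 0 ≤ β ⊥) (w : B) : ∃ v, Maximal (fun v => v ≤ w ∧ α v ≤ β v) v := by
  refine zorn_le₀ {v | v ≤ w ∧ α v ≤ β v} fun c hc hch => ?_
  rcases c.eq_empty_or_nonempty with rfl | hne
  · exact ⟨⊥, ⟨bot_le, by rw [hα.bot]; exact h0⟩, fun z hz => hz.elim⟩
  refine ⟨sSup c, ⟨sSup_le fun z hz => (hc hz).1, le_of_forall_pos_le_add fun ε hε => ?_⟩,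
    fun z hz => le_sSup hz⟩
  obtain ⟨_, ⟨d, hd, rfl⟩, h1, -⟩ := (hμ.lub c hne hch.directedOn).exists_between
    (sub_lt_self (μ (sSup c)) hε)
  have h2 := hα.split (sSup c) d
  have h3 := h5_Add.split hμ.add (sSup c) d
  rw [inf_eq_right.2 (le_sSup hd)] at h2 h3
  have h4 := hβ (le_sSup hd)
  have h5 := (hc hd).2
  have h6 := hle (sSup c ⊓ dᶜ)
  linarith

theorem h5_hahn (hμ : BMeas μ) {α β : B → ℝ} (hα : h5_Add α) (hβ : h5_Add β)
    (a0 : ∀ z, 0 ≤ α z) (b0 : ∀ z, 0 ≤ β z) (a1 : ∀ z, α z ≤ μ z) (b1 : ∀ z, β z ≤ μ z)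
    (l1 : ∀ t, (∀ u ≤ t, α u ≤ β u) → α t ≤ 0) (l2 : ∀ t, (∀ u ≤ t, β u ≤ α u) → β t ≤ 0) :
    ∃ y, β y ≤ 0 ∧ α yᶜ ≤ 0 := by
  obtain ⟨n, hn⟩ := h5_max hμ hα a1 (β := fun _ => 0) monotone_const le_rfl ⊤
  refine ⟨nᶜ, l2 _ fun u hu => ?_, by rw [compl_compl]; exact hn.1.2⟩
  obtain ⟨v, hv⟩ := h5_max hμ hβ b1 (hα.mono a0) (a0 _) u
  have h1 : α (u ⊓ vᶜ) ≤ 0 := by
    refine l1 _ fun x hx => ?_
    by_contra h2
    have h3 : v ⊓ x = ⊥ :=
      le_bot_iff.1 ((inf_le_inf_left v (hx.trans inf_le_right)).trans (inf_compl_self v).le)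
    have h4 : v ⊔ x ≤ v := hv.2 ⟨sup_le hv.1.1 (hx.trans inf_le_left), by
      rw [hα _ _ h3, hβ _ _ h3]
      linarith [hv.1.2, not_le.1 h2]⟩ le_sup_left
    have h5 : x = ⊥ := by
      rw [← h3, inf_eq_right.2 (le_sup_right.trans h4)]
    rw [h5, hα.bot, hβ.bot] at h2
    exact h2 le_rfl
  have h2 : n ⊓ (u ⊓ vᶜ) = ⊥ :=
    le_bot_iff.1 ((inf_le_inf_left n (inf_le_left.trans hu)).trans (inf_compl_self n).le)
  have h3 : n ⊔ u ⊓ vᶜ ≤ n := hn.2 ⟨le_top, by
    rw [hα _ _ h2]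
    linarith [hn.1.2]⟩ le_sup_left
  have h4 : u ⊓ vᶜ = ⊥ := by
    rw [← h2, inf_eq_right.2 (le_sup_right.trans h3)]
  have h5 : u = v := le_antisymm (disjoint_compl_right_iff.1 (disjoint_iff.2 h4)) hv.1.1
  rw [h5]
  exact hv.1.2

/-- the form given by the kernel, cut down to `t` -/
def h5_K (μ : B → ℝ) (t : B) (f g : B →₀ ℂ) : ℂ :=
  f.sum fun z c => g.sum fun w e => conj c * e * (μ (t ⊓ (z ⊓ w)) : ℂ)

theorem h5_K_zero_left (t : B) (g : B →₀ ℂ) : h5_K μ t 0 g = 0 := Finsupp.sum_zero_index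

theorem h5_K_zero_right (t : B) (f : B →₀ ℂ) : h5_K μ t f 0 = 0 := by
  simp only [h5_K, Finsupp.sum_zero_index, Finsupp.sum_fun_zero]

theorem h5_K_add_left (t : B) (f f' g : B →₀ ℂ) :
    h5_K μ t (f + f') g = h5_K μ t f g + h5_K μ t f' g := by
  refine Finsupp.sum_add_index' (fun z => ?_) fun z c c' => ?_
  · simp only [map_zero, zero_mul, Finsupp.sum_fun_zero]
  · simp only [map_add, add_mul, Finsupp.sum_add]

theorem h5_K_add_right (t : B) (f g g' : B →₀ ℂ) :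
    h5_K μ t f (g + g') = h5_K μ t f g + h5_K μ t f g' := by
  rw [h5_K, h5_K, h5_K, ← Finsupp.sum_add]
  refine Finsupp.sum_congr fun z _ => Finsupp.sum_add_index' (fun w => ?_) fun w e e' => ?_
  · rw [mul_zero, zero_mul]
  · ring

theorem h5_K_single (t z w : B) (c e : ℂ) :
    h5_K μ t (Finsupp.single z c) (Finsupp.single w e) = conj c * e * (μ (t ⊓ (z ⊓ w)) : ℂ) := by
  rw [h5_K, Finsupp.sum_single_index, Finsupp.sum_single_index]
  · rw [mul_zero, zero_mul]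
  · simp only [map_zero, zero_mul, Finsupp.sum_fun_zero]

theorem h5_ind {P : (B →₀ ℂ) → (B →₀ ℂ) → Prop} (h0l : ∀ g, P 0 g) (h0r : ∀ f, P f 0)
    (hl : ∀ f f' g, P f g → P f' g → P (f + f') g) (hr : ∀ f g g', P f g → P f g' → P f (g + g'))
    (hs : ∀ z c w e, P (Finsupp.single z c) (Finsupp.single w e)) (f g : B →₀ ℂ) : P f g := by
  induction f using Finsupp.induction_linear with
  | zero => exact h0l g
  | add f f' h h' => exact hl f f' g h h'
  | single z c =>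
    induction g using Finsupp.induction_linear with
    | zero => exact h0r _
    | add g g' h h' => exact hr _ g g' h h'
    | single w e => exact hs z c w e

theorem h5_K_conj (t : B) (f g : B →₀ ℂ) : conj (h5_K μ t g f) = h5_K μ t f g := by
  refine h5_ind (P := fun f g => conj (h5_K μ t g f) = h5_K μ t f g) ?_ ?_ ?_ ?_ ?_ f g
  · intro g
    rw [h5_K_zero_left, h5_K_zero_right, map_zero]
  · intro g
    rw [h5_K_zero_left, h5_K_zero_right, map_zero]
  · intro f f' g h h'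
    rw [h5_K_add_left, h5_K_add_right, map_add, h, h']
  · intro f g g' h h'
    rw [h5_K_add_left, h5_K_add_right, map_add, h, h']
  · intro z c w e
    rw [h5_K_single, h5_K_single, map_mul, map_mul, Complex.conj_conj, Complex.conj_ofReal,
      inf_comm w z]
    ring

theorem h5_K_smul (t : B) (r : ℂ) (f g : B →₀ ℂ) :
    h5_K μ t (r • f) g = conj r * h5_K μ t f g := by
  refine h5_ind (P := fun f g => h5_K μ t (r • f) g = conj r * h5_K μ t f g) ?_ ?_ ?_ ?_ ?_ f g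
  · intro g
    rw [smul_zero, h5_K_zero_left, mul_zero]
  · intro g
    rw [h5_K_zero_right, h5_K_zero_right, mul_zero]
  · intro f f' g h h'
    rw [smul_add, h5_K_add_left, h5_K_add_left, h, h', mul_add]
  · intro f g g' h h'
    rw [h5_K_add_right, h5_K_add_right, h, h', mul_add]
  · intro z c w e
    rw [Finsupp.smul_single, h5_K_single, h5_K_single, smul_eq_mul, map_mul]
    ring

theorem h5_K_split (hμ : BMeas μ) (t a : B) (f g : B →₀ ℂ) :
    h5_K μ t f g = h5_K μ (t ⊓ a) f g + h5_K μ (t ⊓ aᶜ) f g := by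
  refine h5_ind (P := fun f g => h5_K μ t f g = h5_K μ (t ⊓ a) f g + h5_K μ (t ⊓ aᶜ) f g)
    ?_ ?_ ?_ ?_ ?_ f g
  · intro g
    simp only [h5_K_zero_left, add_zero]
  · intro g
    simp only [h5_K_zero_right, add_zero]
  · intro f f' g h h'
    rw [h5_K_add_left, h5_K_add_left, h5_K_add_left, h, h']
    ring
  · intro f g g' h h'
    rw [h5_K_add_right, h5_K_add_right, h5_K_add_right, h, h']
    ring
  · intro z c w e
    rw [h5_K_single, h5_K_single, h5_K_single, h5_Add.split hμ.add (t ⊓ (z ⊓ w)) a,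
      inf_right_comm t a, inf_right_comm t aᶜ, Complex.ofReal_add]
    ring

theorem h5_K_congr {t z z' : B} (h : t ⊓ z = t ⊓ z') (c : ℂ) (g : B →₀ ℂ) :
    h5_K μ t (Finsupp.single z c) g = h5_K μ t (Finsupp.single z' c) g := by
  induction g using Finsupp.induction_linear with
  | zero => rw [h5_K_zero_right, h5_K_zero_right]
  | add g g' h1 h2 => rw [h5_K_add_right, h5_K_add_right, h1, h2]
  | single w e => rw [h5_K_single, h5_K_single, ← inf_assoc, h, inf_assoc]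

theorem h5_K_bot (hμ : BMeas μ) (t : B) (c : ℂ) (g : B →₀ ℂ) :
    h5_K μ t (Finsupp.single ⊥ c) g = 0 := by
  induction g using Finsupp.induction_linear with
  | zero => rw [h5_K_zero_right]
  | add g g' h1 h2 => rw [h5_K_add_right, h1, h2, add_zero]
  | single w e =>
    rw [h5_K_single, bot_inf_eq, inf_bot_eq, h5_Add.bot hμ.add, Complex.ofReal_zero, mul_zero]

theorem h5_K_diag {t : B} {f f' : B →₀ ℂ} (h : ∀ g, h5_K μ t f g = h5_K μ t f' g) :
    h5_K μ t f f = h5_K μ t f' f' := by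
  rw [h f, ← h5_K_conj t f' f, h f', h5_K_conj]

theorem h5_K_pos (hμ : BMeas μ) (f : B →₀ ℂ) : ∀ (t : B) (d : ℂ),
    0 ≤ (h5_K μ t (Finsupp.single ⊤ d + f) (Finsupp.single ⊤ d + f)).re := by
  induction f using Finsupp.induction with
  | zero =>
    intro t d
    rw [add_zero, h5_K_single, ← Complex.normSq_eq_conj_mul_self, ← Complex.ofReal_mul,
      Complex.ofReal_re]
    exact mul_nonneg (Complex.normSq_nonneg d) (h5_nonneg hμ _)
  | single_add z c f _ _ ih =>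
    intro t d
    rw [h5_K_split hμ t z, Complex.add_re]
    refine add_nonneg ?_ ?_
    · rw [h5_K_diag (f' := Finsupp.single ⊤ (d + c) + f) fun g => ?_]
      · exact ih _ _
      · rw [Finsupp.single_add, add_assoc, h5_K_add_left, h5_K_add_left, h5_K_add_left,
          h5_K_add_left, h5_K_congr (z := z) (z' := ⊤) (by rw [inf_assoc, inf_idem, inf_top_eq])]
    · rw [h5_K_diag (f' := Finsupp.single ⊤ d + f) fun g => ?_]
      · exact ih _ _
      · rw [h5_K_add_left, h5_K_add_left, h5_K_add_left, h5_K_congr (z := z) (z' := ⊥)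
          (by rw [inf_assoc, compl_inf_self, inf_bot_eq, inf_bot_eq]), h5_K_bot hμ, zero_add]

/-- the pre-Hilbert space of simple functions -/
def h5_Pre (hμ : BMeas μ) : Type u := B →₀ ℂ

instance h5_grp (hμ : BMeas μ) : AddCommGroup (h5_Pre hμ) :=
  inferInstanceAs (AddCommGroup (B →₀ ℂ))

instance h5_mod (hμ : BMeas μ) : Module ℂ (h5_Pre hμ) := inferInstanceAs (Module ℂ (B →₀ ℂ))

/-- the inner product on simple functions -/
abbrev h5_core (hμ : BMeas μ) : PreInnerProductSpace.Core ℂ (h5_Pre hμ) where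
  inner f g := h5_K μ ⊤ f g
  conj_inner_symm f g := h5_K_conj ⊤ f g
  re_inner_nonneg f := by
    have h := h5_K_pos hμ f ⊤ 0
    rw [Finsupp.single_zero, zero_add] at h
    exact h
  add_left f f' g := h5_K_add_left ⊤ f f' g
  smul_left f g r := h5_K_smul ⊤ r f g

instance h5_semi (hμ : BMeas μ) : SeminormedAddCommGroup (h5_Pre hμ) :=
  InnerProductSpace.Core.toSeminormedAddCommGroup (c := h5_core hμ)

instance h5_ips (hμ : BMeas μ) : InnerProductSpace ℂ (h5_Pre hμ) :=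
  InnerProductSpace.ofCore (h5_core hμ)

/-- the indicator of `z` -/
def h5_e (hμ : BMeas μ) (z : B) : h5_Pre hμ := Finsupp.single z 1

theorem h5_exists (hμ : BMeas μ) :
    ∃ (H : Type u) (_ : NormedAddCommGroup H) (_ : InnerProductSpace ℂ H) (_ : CompleteSpace H)
      (χ : B → H), (∀ z w, ⟪χ z, χ w⟫_ℂ = μ (z ⊓ w)) ∧
        Dense (Submodule.span ℂ (Set.range χ) : Set H) := by
  refine ⟨UniformSpace.Completion (h5_Pre hμ), inferInstance, inferInstance, inferInstance,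
    fun z => (h5_e hμ z : UniformSpace.Completion (h5_Pre hμ)), fun z w => ?_, ?_⟩
  · rw [UniformSpace.Completion.inner_coe]
    have h := h5_K_single (μ := μ) ⊤ z w 1 1
    rw [map_one, one_mul, one_mul, top_inf_eq] at h
    exact h
  · refine UniformSpace.Completion.denseRange_coe.mono ?_
    rintro _ ⟨f, rfl⟩
    have h : ∀ g : B →₀ ℂ, UniformSpace.Completion.toComplL (𝕜 := ℂ) (E := h5_Pre hμ) g ∈
        Submodule.span ℂ (Set.range fun z => (h5_e hμ z : UniformSpace.Completion (h5_Pre hμ))) := by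
      intro g
      induction g using Finsupp.induction_linear with
      | zero => exact (map_zero (UniformSpace.Completion.toComplL (𝕜 := ℂ) (E := h5_Pre hμ))).symm ▸
          zero_mem _
      | add g g' h1 h2 =>
        exact (map_add (UniformSpace.Completion.toComplL (𝕜 := ℂ) (E := h5_Pre hμ)) g g').symm ▸
          add_mem h1 h2
      | single z c =>
        have h1 : (Finsupp.single z c : h5_Pre hμ) = c • h5_e hμ z :=
          (Finsupp.smul_single_one z c).symm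
        rw [h1, map_smul]
        exact Submodule.smul_mem _ _ (Submodule.subset_span ⟨z, rfl⟩)
    exact h f

end Measure

section Hilb

variable {B : Type u} [CompleteBooleanAlgebra B] {μ : B → ℝ} {H : Type*} [NormedAddCommGroup H]
  [InnerProductSpace ℂ H] [CompleteSpace H] {χ : B → H} {π : B → H →L[ℂ] H}

theorem h5_pi (hχ : ∀ z w, ⟪χ z, χ w⟫_ℂ = μ (z ⊓ w)) : ∃ π : B → H →L[ℂ] H,
    (∀ z w, π z (χ w) = χ (z ⊓ w)) ∧ ∀ z ξ η, ⟪π z ξ, η⟫_ℂ = ⟪ξ, π z η⟫_ℂ := by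
  refine ⟨fun z => (Submodule.span ℂ (χ '' Set.Iic z)).topologicalClosure.starProjection,
    fun z w => ?_, fun z ξ η => Submodule.inner_starProjection_left_eq_right _ ξ η⟩
  refine Submodule.eq_starProjection_of_mem_orthogonal
    (Submodule.le_topologicalClosure _ (Submodule.subset_span ⟨_, inf_le_left, rfl⟩)) ?_
  rw [Submodule.orthogonal_closure, Submodule.mem_orthogonal']
  intro u hu
  induction hu using Submodule.span_induction with
  | mem x hx =>
    obtain ⟨v, hv, rfl⟩ := hx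
    rw [inner_sub_left, hχ, hχ, inf_right_comm, inf_eq_right.2 (show v ≤ z from hv), inf_comm,
      sub_self]
  | zero => exact inner_zero_right _
  | add x y _ _ h1 h2 => rw [inner_add_right, h1, h2, add_zero]
  | smul c x _ h1 => rw [inner_smul_right, h1, mul_zero]

/-- the space of square integrable functions with its projections -/
structure h5_L2 (μ : B → ℝ) (χ : B → H) (π : B → H →L[ℂ] H) : Prop where
  bm : BMeas μ
  inn : ∀ z w, ⟪χ z, χ w⟫_ℂ = μ (z ⊓ w)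
  dense : Dense (Submodule.span ℂ (Set.range χ) : Set H)
  act : ∀ z w, π z (χ w) = χ (z ⊓ w)
  sa : ∀ z ξ η, ⟪π z ξ, η⟫_ℂ = ⟪ξ, π z η⟫_ℂ

namespace h5_L2

theorem ext (h : h5_L2 μ χ π) {E : Type*} [NormedAddCommGroup E] [NormedSpace ℂ E]
    {S T : H →L[ℂ] E} (e : ∀ w, S (χ w) = T (χ w)) (ξ : H) : S ξ = T ξ := by
  have h1 : S = T := ContinuousLinearMap.ext_on h.dense (by
    rintro _ ⟨w, rfl⟩
    exact e w)
  rw [h1]

theorem normsq (h : h5_L2 μ χ π) (z : B) : ‖χ z‖ ^ 2 = μ z := by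
  have h1 := h.inn z z
  rw [← inner_self_eq_norm_sq (𝕜 := ℂ), h1, inf_idem]
  exact Complex.ofReal_re _

theorem chi_bot (h : h5_L2 μ χ π) : χ ⊥ = 0 := by
  have h1 := h.normsq ⊥
  rw [h5_Add.bot h.bm.add] at h1
  exact norm_eq_zero.1 (pow_eq_zero_iff two_ne_zero |>.1 h1)

theorem chi_add (h : h5_L2 μ χ π) {z w : B} (e : z ⊓ w = ⊥) : χ (z ⊔ w) = χ z + χ w := by
  refine ext_inner_right ℂ fun v => ?_
  refine h.ext (S := innerSL ℂ (χ (z ⊔ w))) (T := innerSL ℂ (χ z + χ w)) (fun u => ?_) v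
  rw [innerSL_apply_apply, innerSL_apply_apply, inner_add_left, h.inn, h.inn, h.inn,
    inf_sup_right, h.bm.add _ _ (by rw [inf_inf_inf_comm, e, bot_inf_eq]), Complex.ofReal_add]

theorem mul (h : h5_L2 μ χ π) (z w : B) (ξ : H) : π z (π w ξ) = π (z ⊓ w) ξ :=
  h.ext (S := (π z).comp (π w)) (fun u => by
    rw [ContinuousLinearMap.comp_apply, h.act, h.act, h.act, inf_assoc]) ξ

theorem bot (h : h5_L2 μ χ π) (ξ : H) : π ⊥ ξ = 0 :=
  h.ext (T := 0) (fun u => by rw [h.act, bot_inf_eq, h.chi_bot, zero_apply]) ξ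

theorem top (h : h5_L2 μ χ π) (ξ : H) : π ⊤ ξ = ξ :=
  h.ext (T := ContinuousLinearMap.id ℂ H) (fun u => by
    rw [h.act, top_inf_eq, ContinuousLinearMap.id_apply]) ξ

theorem add (h : h5_L2 μ χ π) {z w : B} (e : z ⊓ w = ⊥) (ξ : H) : π (z ⊔ w) ξ = π z ξ + π w ξ :=
  h.ext (T := π z + π w) (fun u => by
    rw [add_apply, h.act, h.act, h.act, inf_sup_right,
      h.chi_add (by rw [inf_inf_inf_comm, e, bot_inf_eq])]) ξ

theorem add_compl (h : h5_L2 μ χ π) (z : B) (ξ : H) : π z ξ + π zᶜ ξ = ξ := by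
  rw [← h.add (inf_compl_self z), sup_compl_eq_top, h.top]

theorem nadd (h : h5_L2 μ χ π) (ξ : H) : h5_Add fun z => ‖π z ξ‖ ^ 2 := by
  intro z w e
  show ‖π (z ⊔ w) ξ‖ ^ 2 = ‖π z ξ‖ ^ 2 + ‖π w ξ‖ ^ 2
  rw [h.add e, sq, sq, sq]
  refine norm_add_sq_eq_norm_sq_add_norm_sq_of_inner_eq_zero (𝕜 := ℂ) _ _ ?_
  rw [h.sa, h.mul, e, h.bot, inner_zero_right]

theorem small (h : h5_L2 μ χ π) {a b : H} (hab : a + b = χ ⊤)
    (ho : ∀ u, ⟪π u b, π u a⟫_ℂ = 0) (t : B) (hle : ∀ u ≤ t, ‖π u b‖ ^ 2 ≤ ‖π u a‖ ^ 2) :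
    ‖π t b‖ ^ 2 ≤ 0 := by
  let P : H → Prop := fun s => ∀ u ≤ t, ∀ d : ℂ, ‖π u b‖ ^ 2 ≤ 2 * ‖π u (b - d • χ ⊤ - s)‖ ^ 2
  have h0 : P 0 := by
    intro u hu d
    have e1 : π u (b - d • χ ⊤ - 0) = (1 - d) • π u b + (-d) • π u a := by
      rw [← hab, sub_zero, map_sub, map_smul, map_add]
      module
    have e2 := norm_add_sq_eq_norm_sq_add_norm_sq_of_inner_eq_zero (𝕜 := ℂ) ((1 - d) • π u b)
      ((-d) • π u a) (by rw [inner_smul_left, inner_smul_right, ho, mul_zero, mul_zero])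
    rw [← sq, ← sq, ← sq, norm_smul, norm_smul, norm_neg, mul_pow, mul_pow] at e2
    rw [e1, e2]
    have e3 : (1 : ℝ) ≤ ‖1 - d‖ + ‖d‖ := by
      have := norm_add_le (1 - d) d
      rwa [sub_add_cancel, norm_one] at this
    have e4 : (1 : ℝ) ≤ 2 * (‖1 - d‖ ^ 2 + ‖d‖ ^ 2) := by
      nlinarith [sq_nonneg (‖1 - d‖ - ‖d‖)]
    have e5 := mul_le_mul_of_nonneg_left (hle u hu) (sq_nonneg ‖d‖)
    have e6 := mul_le_mul_of_nonneg_right e4 (sq_nonneg ‖π u b‖)
    linarith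
  have h1 : ∀ s ∈ Submodule.span ℂ (Set.range χ), ∀ s', P s' → P (s + s') := by
    intro s hs
    induction hs using Submodule.closure_induction with
    | zero =>
      intro s' h'
      rwa [zero_add]
    | add x y _ _ hx hy =>
      intro s' h'
      rw [add_assoc]
      exact hx _ (hy _ h')
    | smul_mem c x hx =>
      obtain ⟨z, rfl⟩ := hx
      intro s' h' u hu d
      have e1 : π (u ⊓ z) (b - d • χ ⊤ - (c • χ z + s')) =
          π (u ⊓ z) (b - (d + c) • χ ⊤ - s') := by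
        simp only [map_sub, map_add, map_smul, h.act, inf_top_eq, inf_assoc, inf_idem]
        module
      have e2 : π (u ⊓ zᶜ) (b - d • χ ⊤ - (c • χ z + s')) = π (u ⊓ zᶜ) (b - d • χ ⊤ - s') := by
        simp only [map_sub, map_add, map_smul, h.act, inf_assoc, compl_inf_self, inf_bot_eq,
          h.chi_bot, smul_zero, zero_add]
      have e3 : ‖π u b‖ ^ 2 = ‖π (u ⊓ z) b‖ ^ 2 + ‖π (u ⊓ zᶜ) b‖ ^ 2 := (h.nadd b).split u z
      have e4 : ‖π u (b - d • χ ⊤ - (c • χ z + s'))‖ ^ 2 =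
          ‖π (u ⊓ z) (b - d • χ ⊤ - (c • χ z + s'))‖ ^ 2 +
            ‖π (u ⊓ zᶜ) (b - d • χ ⊤ - (c • χ z + s'))‖ ^ 2 := (h.nadd _).split u z
      have e5 := h' (u ⊓ z) (inf_le_left.trans hu) (d + c)
      have e6 := h' (u ⊓ zᶜ) (inf_le_left.trans hu) d
      rw [e3, e4, e1, e2]
      linarith
  have h2 : IsClosed {s : H | ‖π t b‖ ^ 2 ≤ 2 * ‖π t (b - (0 : ℂ) • χ ⊤ - s)‖ ^ 2} :=
    isClosed_le continuous_const (by fun_prop)
  have h3 : ‖π t b‖ ^ 2 ≤ 2 * ‖π t (b - (0 : ℂ) • χ ⊤ - b)‖ ^ 2 :=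
    h2.closure_subset_iff.2 (fun s hs => by
      have h4 := h1 s hs 0 h0 t le_rfl 0
      rwa [add_zero] at h4) (h.dense b)
  rwa [zero_smul, sub_zero, sub_self, map_zero, norm_zero, sq (0 : ℝ), mul_zero, mul_zero] at h3

theorem orth (h : h5_L2 μ χ π) (z : B) : (π z).ker = ((π zᶜ).ker)ᗮ := by
  ext ξ
  rw [Submodule.mem_orthogonal]
  constructor
  · intro hξ u hu
    have h1 : π zᶜ u = 0 := hu
    have h2 : π z ξ = 0 := hξ
    rw [← h.add_compl z u, h1, add_zero, h.sa, h2, inner_zero_right]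
  · intro hξ
    have h1 := hξ (π z ξ) (show π zᶜ (π z ξ) = 0 by rw [h.mul, compl_inf_self, h.bot])
    have h2 : ⟪π z ξ, π z ξ⟫_ℂ = 0 := by rw [← h.sa, h.mul, inf_idem, h1]
    exact inner_self_eq_zero.1 h2

theorem surj (h : h5_L2 μ χ π) (M : Submodule ℂ H) (hM : IsClosed (M : Set H))
    (hr : ∀ z, ∀ ξ ∈ M, π z ξ ∈ M) : ∃ y, (π yᶜ).ker = M := by
  have := hM.completeSpace_coe
  have hr' : ∀ z, ∀ η ∈ Mᗮ, π z η ∈ Mᗮ := fun z η hη u hu => by
    rw [← h.sa]
    exact hη _ (hr z u hu)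
  obtain ⟨a, ha, b, hb, hab⟩ := M.exists_add_mem_mem_orthogonal (χ ⊤)
  have ho : ∀ u, ⟪π u a, π u b⟫_ℂ = 0 := fun u => hr' u b hb _ (hr u a ha)
  have ho' : ∀ u, ⟪π u b, π u a⟫_ℂ = 0 := fun u => inner_eq_zero_symm.1 (ho u)
  have hc : ∀ u, χ u = π u a + π u b := fun u => by rw [← map_add, ← hab, h.act, inf_top_eq]
  have hs : ∀ u, ‖π u a‖ ^ 2 + ‖π u b‖ ^ 2 = μ u := fun u => by
    rw [← h.normsq, hc, sq, sq, sq]
    exact (norm_add_sq_eq_norm_sq_add_norm_sq_of_inner_eq_zero (𝕜 := ℂ) _ _ (ho u)).symm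
  obtain ⟨y, h1, h2⟩ := h5_hahn h.bm (h.nadd a) (h.nadd b) (fun _ => sq_nonneg _)
    (fun _ => sq_nonneg _) (fun u => by linarith [hs u, sq_nonneg ‖π u b‖])
    (fun u => by linarith [hs u, sq_nonneg ‖π u a‖])
    (h.small ((add_comm b a).trans hab.symm) ho) (h.small hab.symm ho')
  have h3 : π y b = 0 := norm_eq_zero.1 (pow_eq_zero_iff two_ne_zero |>.1
    (le_antisymm h1 (sq_nonneg _)))
  have h4 : π yᶜ a = 0 := norm_eq_zero.1 (pow_eq_zero_iff two_ne_zero |>.1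
    (le_antisymm h2 (sq_nonneg _)))
  have h5 : χ y = a := by
    have h6 := h.add_compl y a
    rw [h4, add_zero] at h6
    rw [hc, h3, add_zero, h6]
  have h6 : ∀ ξ, M.starProjection ξ = π y ξ := h.ext fun w => by
    rw [Submodule.eq_starProjection_of_mem_orthogonal' (hr w a ha) (hr' w b hb) (hc w), ← h5,
      h.act, h.act, inf_comm]
  refine ⟨y, Submodule.ext fun ξ => ?_⟩
  rw [← Submodule.starProjection_eq_self_iff (K := M), h6]
  have h7 := h.add_compl y ξ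
  constructor
  · intro h8
    have h9 : π yᶜ ξ = 0 := h8
    rwa [h9, add_zero] at h7
  · intro h8
    rw [h8] at h7
    exact add_eq_left.1 h7

theorem isRep (h : h5_L2 μ χ π) : IsRep (compl : B → B) ⊤ fun z => (π zᶜ).ker := by
  refine ⟨fun x => (π xᶜ).isClosed_ker, fun x y _ _ => ⟨fun hxy => ?_, fun hxy ξ hξ => ?_⟩,
    fun z _ _ => ?_, fun x z _ _ _ ξ hξ => ?_, fun M hM hr => ?_⟩
  · have h1 : π yᶜ (χ x) = 0 :=
      hxy (show π xᶜ (χ x) = 0 by rw [h.act, compl_inf_self, h.chi_bot])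
    rw [h.act] at h1
    have h2 := h.normsq (yᶜ ⊓ x)
    rw [h1, norm_zero, sq, mul_zero] at h2
    have h3 : yᶜ ⊓ x = ⊥ := by
      by_contra h4
      exact (h.bm.pos _ h4).ne h2
    exact disjoint_compl_left_iff.1 (disjoint_iff.2 h3)
  · have h1 : π xᶜ ξ = 0 := hξ
    show π yᶜ ξ = 0
    rw [← inf_eq_left.2 (compl_le_compl hxy), ← h.mul, h1, map_zero]
  · show (π (⊤ ⊓ zᶜ)ᶜ).ker = _
    rw [top_inf_eq, compl_compl, h.orth]
  · have h1 : π xᶜ ξ = 0 := hξ
    refine ⟨π z ξ, ?_, ?_, ?_⟩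
    · show π xᶜ (π z ξ) = 0
      rw [h.mul, inf_comm, ← h.mul, h1, map_zero]
    · show π zᶜ (π z ξ) = 0
      rw [h.mul, compl_inf_self, h.bot]
    · rw [← h.orth]
      show π z (ξ - π z ξ) = 0
      rw [map_sub, h.mul, inf_idem, sub_self]
  · obtain ⟨y, hy⟩ := h.surj M hM fun z ξ hξ => by
      obtain ⟨a, ha, h1, h2⟩ := hr z (fun x => by
        rw [← inf_sup_left, sup_compl_eq_top, inf_top_eq]) le_top ξ hξ
      rw [← h.orth] at h2
      have h3 : π z (ξ - a) = 0 := h2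
      have h4 : π zᶜ a = 0 := h1
      have h5 := h.add_compl z a
      rw [h4, add_zero] at h5
      rw [map_sub, h5, sub_eq_zero] at h3
      rwa [h3]
    exact ⟨y, le_top, hy⟩

end h5_L2

end Hilb

theorem rep_of_bmeas {B : Type u} [CompleteBooleanAlgebra B] {μ : B → ℝ} (hμ : BMeas μ) :
    Rep (compl : B → B) ⊤ := by
  obtain ⟨H, i1, i2, i3, χ, h1, h2⟩ := h5_exists hμ
  obtain ⟨π, h3, h4⟩ := h5_pi h1
  exact ⟨H, i1, i2, i3, _, h5_L2.isRep ⟨hμ, h1, h2, h3, h4⟩⟩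

end Pool.Agent.P.MP_d8da86_an.CR
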