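import Pool.Agent.P.MP_d8da86_an.C.H6b

/-!
Gluing of representations.
Hints. H = lp (fun w : S => H w) 2, Φ x = {ξ | ∀ w, ξ w ∈ Φ w (w ⊓ x)}. The orthogonal complement of
such a sum is the sum of the complements. A closed M which is reduced by the Φ w (w in S) is the sum
of the M w = {η | lp.single 2 w η ∈ M} (`lp.hasSum_single`), each M w is reduced by the Φ w z, so
M w = Φ w (x w) and x = mix. For `red` project coordinatewise (the norms do not increase), or use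
that both are sums.
-/

open scoped InnerProductSpace ComplexConjugate

set_option linter.unusedSectionVars false
set_option linter.unusedVariables false

noncomputable section

namespace Pool.Agent.P.MP_d8da86_an.CR

universe u

section Sum

variable {ι : Type*} [DecidableEq ι] {G : ι → Type*} [∀ i, NormedAddCommGroup (G i)]
  [∀ i, InnerProductSpace ℂ (G i)] [∀ i, CompleteSpace (G i)]

/-- the Hilbert sum of subspaces -/
def h7_sum (N : ∀ i, Submodule ℂ (G i)) : Submodule ℂ (lp G 2) where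
  carrier := {ξ | ∀ i, ξ i ∈ N i}
  add_mem' := fun ha hb i => (N i).add_mem (ha i) (hb i)
  zero_mem' := fun i => (N i).zero_mem
  smul_mem' := fun c ξ h i => (N i).smul_mem c (h i)

theorem h7_mem {N : ∀ i, Submodule ℂ (G i)} {ξ : lp G 2} : ξ ∈ h7_sum N ↔ ∀ i, ξ i ∈ N i :=
  Iff.rfl

theorem h7_closed {N : ∀ i, Submodule ℂ (G i)} (h : ∀ i, IsClosed (N i : Set (G i))) :
    IsClosed (h7_sum N : Set (lp G 2)) := by
  have e : (h7_sum N : Set (lp G 2)) = ⋂ i, (fun ξ : lp G 2 => ξ i) ⁻¹' (N i : Set (G i)) := by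
    ext ξ
    simp only [Set.mem_iInter, Set.mem_preimage, SetLike.mem_coe, h7_mem]
  rw [e]
  exact isClosed_iInter fun i => (h i).preimage (lp.lipschitzWith_one_eval 2 i).continuous

theorem h7_single {N : ∀ i, Submodule ℂ (G i)} {i : ι} {η : G i} :
    lp.single 2 i η ∈ h7_sum N ↔ η ∈ N i := by
  refine ⟨fun h => ?_, fun h j => ?_⟩
  · have h1 := h7_mem.1 h i
    rwa [lp.single_apply_self] at h1
  · by_cases hj : j = i
    · subst hj
      rwa [lp.single_apply_self]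
    · rw [lp.single_apply_ne 2 i η hj]
      exact (N j).zero_mem

theorem h7_le {N M : ∀ i, Submodule ℂ (G i)} : h7_sum N ≤ h7_sum M ↔ ∀ i, N i ≤ M i :=
  ⟨fun h i η hη => h7_single.1 (h (h7_single.2 hη)), fun h ξ hξ i => h i (hξ i)⟩

theorem h7_orth (N : ∀ i, Submodule ℂ (G i)) : (h7_sum N)ᗮ = h7_sum fun i => (N i)ᗮ := by
  ext ξ
  refine ⟨fun h i => mem_orth.2 fun η hη => ?_, fun h => mem_orth.2 fun u hu => ?_⟩
  · have h1 := mem_orth.1 h _ (h7_single.2 hη)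
    rwa [lp.inner_single_left] at h1
  · have h1 : ∀ i, ⟪u i, ξ i⟫_ℂ = 0 := fun i => mem_orth.1 (h i) _ (hu i)
    rw [lp.inner_eq_tsum]
    simp only [h1, tsum_zero]

theorem h7_red {N M : ∀ i, Submodule ℂ (G i)} (h : ∀ i, Red (N i) (M i)) :
    Red (h7_sum N) (h7_sum M) := by
  intro ξ hξ
  choose a h1 h2 h3 using fun i => h i (ξ i) (hξ i)
  have h4 : ∀ i, ‖a i‖ ≤ ‖ξ i‖ := fun i => by
    have e1 := norm_add_sq_eq_norm_sq_add_norm_sq_of_inner_eq_zero (𝕜 := ℂ) (a i) (ξ i - a i)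
      (mem_orth.1 (h3 i) _ (h2 i))
    rw [add_sub_cancel] at e1
    nlinarith [norm_nonneg (a i), norm_nonneg (ξ i), mul_self_nonneg ‖ξ i - a i‖]
  refine ⟨⟨a, (lp.memℓp ξ).mono' h4⟩, h1, h2, ?_⟩
  rw [h7_orth]
  exact h3

/-- the component of a subspace -/
def h7_comp (M : Submodule ℂ (lp G 2)) (i : ι) : Submodule ℂ (G i) :=
  M.comap (lp.lsingle 2 i)

theorem h7_mem_comp {M : Submodule ℂ (lp G 2)} {i : ι} {η : G i} :
    η ∈ h7_comp M i ↔ lp.single 2 i η ∈ M :=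
  Iff.rfl

theorem h7_comp_closed {M : Submodule ℂ (lp G 2)} (hM : IsClosed (M : Set (lp G 2))) (i : ι) :
    IsClosed (h7_comp M i : Set (G i)) :=
  hM.preimage (lp.isometry_single (E := G) (p := 2) i).continuous

theorem h7_sum_comp {M : Submodule ℂ (lp G 2)} (hM : IsClosed (M : Set (lp G 2)))
    (h : ∀ i, ∀ ξ ∈ M, lp.single 2 i (ξ i) ∈ M) : h7_sum (h7_comp M) = M := by
  ext ξ
  refine ⟨fun hξ => ?_, fun hξ i => h i ξ hξ⟩
  refine hM.mem_of_tendsto (lp.hasSum_single (by norm_num) ξ)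
    (Filter.Eventually.of_forall fun s => ?_)
  exact M.sum_mem fun i _ => hξ i

theorem h7_cut {M : Submodule ℂ (lp G 2)} {N : ∀ i, Submodule ℂ (G i)} {i : ι} (h1 : N i = ⊤)
    (h0 : ∀ j, j ≠ i → N j = ⊥) (h : Red (h7_sum N) M) {ξ : lp G 2} (hξ : ξ ∈ M) :
    lp.single 2 i (ξ i) ∈ M := by
  obtain ⟨a, a1, a2, a3⟩ := h ξ hξ
  rw [h7_orth] at a3
  have e : lp.single 2 i (ξ i) = a := by
    refine lp.ext (funext fun j => ?_)
    by_cases hj : j = i
    · subst hj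
      have e1 : ξ j - a j ∈ (N j)ᗮ := a3 j
      rw [h1, Submodule.top_orthogonal_eq_bot, Submodule.mem_bot] at e1
      rw [lp.single_apply_self]
      exact sub_eq_zero.1 e1
    · have e1 : a j ∈ N j := a2 j
      rw [h0 j hj, Submodule.mem_bot] at e1
      rw [lp.single_apply_ne 2 i _ hj, e1]
  rwa [e]

theorem h7_comp_red {M : Submodule ℂ (lp G 2)} {N : ∀ i, Submodule ℂ (G i)} {i : ι}
    (hc : ∀ ξ ∈ M, lp.single 2 i (ξ i) ∈ M) (h : Red (h7_sum N) M) :
    Red (N i) (h7_comp M i) := by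
  intro η hη
  obtain ⟨a, a1, a2, a3⟩ := h _ (h7_mem_comp.1 hη)
  rw [h7_orth] at a3
  refine ⟨a i, hc a a1, a2 i, ?_⟩
  have e1 : (lp.single 2 i η : lp G 2) i - a i ∈ (N i)ᗮ := a3 i
  rwa [lp.single_apply_self] at e1

end Sum

theorem h7_main {L : Type*} [CompleteLattice L] {o : L → L} (h : OM o) {S : Set L}
    (hS : Part o S) (h1 : sSup S = ⊤) {G : S → Type*} [∀ i, NormedAddCommGroup (G i)]
    [∀ i, InnerProductSpace ℂ (G i)] [∀ i, CompleteSpace (G i)]
    (Φ : ∀ w : S, L → Submodule ℂ (G w)) (hΦ : ∀ w : S, IsRep o w.1 (Φ w)) :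
    IsRep o ⊤ fun x => h7_sum fun w : S => Φ w (w.1 ⊓ x) := by
  classical
  have hc : ∀ w : S, Cen o w.1 := fun w => hS.1 w.1 w.2
  refine ⟨fun x => h7_closed fun w => (hΦ w).closed _, fun x y _ _ => ?_, fun z hz _ => ?_,
    fun x z _ hz _ => ?_, fun M hM hred => ?_⟩
  · rw [h7_le]
    refine ⟨fun h2 => h.le_of_part hS (h1 ▸ le_top) fun w hw => ?_, fun h2 w => ?_⟩
    · exact (((hΦ ⟨w, hw⟩).le_iff _ _ inf_le_left inf_le_left).1 (h2 ⟨w, hw⟩)).trans inf_le_right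
    · exact ((hΦ w).le_iff _ _ inf_le_left inf_le_left).2 (inf_le_inf_left _ h2)
  · rw [h7_orth]
    refine congrArg h7_sum (funext fun w => ?_)
    rw [← (hΦ w).orth _ (h.cen_inf (hc w) hz) inf_le_left, h.cen_inf_o (hc w), top_inf_eq]
  · exact h7_red fun w => (hΦ w).red _ _ inf_le_left (h.cen_inf (hc w) hz) inf_le_left
  · have hbot : ∀ w : S, Φ w ⊥ = ⊥ := fun w => by
      rw [← h.inf_o w.1, (hΦ w).orth _ (hc w) le_rfl, (hΦ w).map_top,
        Submodule.top_orthogonal_eq_bot]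
    have hcut : ∀ w : S, ∀ ξ ∈ M, lp.single 2 w (ξ w) ∈ M := fun w ξ hξ => by
      refine h7_cut ?_ (fun j hj => ?_) (hred w.1 (hc w) le_top) hξ
      · rw [inf_idem, (hΦ w).map_top]
      · rw [hS.2 j.2 w.2 fun e => hj (Subtype.ext e), hbot]
    have hex : ∀ w : L, ∃ x, ∀ hw : w ∈ S, x ≤ w ∧ Φ ⟨w, hw⟩ x = h7_comp M ⟨w, hw⟩ := fun w => by
      by_cases hw : w ∈ S
      · obtain ⟨x, hx⟩ := (hΦ ⟨w, hw⟩).surj _ (h7_comp_closed hM ⟨w, hw⟩) fun z hz hzw => by
          have e := h7_comp_red (hcut ⟨w, hw⟩) (hred z hz le_top)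
          rwa [inf_eq_right.2 hzw] at e
        exact ⟨x, fun _ => hx⟩
      · exact ⟨⊥, fun hw' => absurd hw' hw⟩
    choose f hf using hex
    refine ⟨mix S f, le_top, ?_⟩
    rw [← h7_sum_comp hM hcut]
    refine congrArg h7_sum (funext fun w => ?_)
    rw [h.inf_mix hS f w.2, inf_eq_right.2 (hf w.1 w.2).1]
    exact (hf w.1 w.2).2

theorem rep_glue {L : Type u} [CompleteLattice L] {o : L → L} (h : OM o) {S : Set L}
    (hS : Part o S) (h1 : sSup S = ⊤) (hr : ∀ w ∈ S, Rep o w) : Rep o ⊤ := by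
  have hr' : ∀ w : S, ∃ (H : Type u) (_ : NormedAddCommGroup H) (_ : InnerProductSpace ℂ H)
      (_ : CompleteSpace H) (Φ : L → Submodule ℂ H), IsRep o w.1 Φ := fun w => hr w.1 w.2
  choose G i1 i2 i3 Φ hΦ using hr'
  exact ⟨lp G 2, inferInstance, inferInstance, inferInstance, _, h7_main h hS h1 Φ hΦ⟩

end Pool.Agent.P.MP_d8da86_an.CR
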