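import Pool.Agent.P.MP_d8da86_an.C.P2

/-!
Consequences of projective coordinates.
Hints. `affine_map`: g (pt (e0 + v)) = pt (e0 + φ v) and φ v - φ u is a multiple of v - u by
`Ax.dr_map`, `dir_eq`, `span1`. Put ψ v = φ v - φ 0 = k v • v. With e1, e2 from `exists_orth`:
locally v and u independent give the same factor (write ψ v - ψ u = c • (v - u)); a vector which is
locally a multiple of e1 is compared with e2. The factor k of e1 is a unit since φ is locally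
injective (`aff_loc`, `Ax.map_loc`, `Reg.isUnit_of_full`).
`tr_map`: (k - 1) • e1 and (k - 1) • e2 have points below d, use `cov_disj`.
-/

open scoped InnerProductSpace ComplexConjugate

set_option linter.unusedSectionVars false
set_option linter.unusedVariables false

noncomputable section

namespace Pool.Agent.P.MP_d8da86_an.CR

universe u

variable {L : Type*} [CompleteLattice L] {o : L → L} {p a x y d : L}
  {B : Type*} [CompleteBooleanAlgebra B] {j : B → L} {R : Type*} [CommRing R] {ε : B → R}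
  {E : Type*} [AddCommGroup E] [Module R E] {pt : E → L} {e₀ u v w : E} {g : L ≃o L}

theorem p2b_indep {perp : E → E → Prop} {e₁ e₂ : E} (hR : Reg ε) (O : Orth ε perp e₀ e₁ e₂)
    {r s : R} (h0 : r • e₁ = s • e₂) : r = 0 ∧ s = 0 := by
  have h1 : perp (r • e₁) (r • e₁) := by
    have h2 := O.smul s _ _ (O.symm _ _ (O.smul r _ _ O.p12))
    rwa [← h0] at h2
  have h3 := O.aniso _ h1
  exact ⟨hR.eq_zero_of_full O.full₁ h3, hR.eq_zero_of_full O.full₂ (h0 ▸ h3)⟩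

theorem p2b_alg {perp : E → E → Prop} {e₁ e₂ : E} (hR : Reg ε) (O : Orth ε perp e₀ e₁ e₂)
    {a k₁ k₂ c c₁ c₂ : R} (h12 : k₁ • e₁ - k₂ • e₂ = c • (e₁ - e₂))
    (h1 : a • v - k₁ • e₁ = c₁ • (v - e₁)) (h2 : a • v - k₂ • e₂ = c₂ • (v - e₂)) :
    a • v = k₁ • v := by
  have e0 : (k₁ - c) • e₁ = (k₂ - c) • e₂ := by linear_combination (norm := module) h12
  obtain ⟨a1, a2⟩ := p2b_indep hR O e0
  have hk : k₂ = k₁ := by linear_combination a2 - a1
  subst hk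
  have e1 : (a - c₁) • v = (k₂ - c₁) • e₁ := by linear_combination (norm := module) h1
  have e2 : (a - c₂) • v = (k₂ - c₂) • e₂ := by linear_combination (norm := module) h2
  have e3 : ((a - c₂) * (k₂ - c₁)) • e₁ = ((a - c₁) * (k₂ - c₂)) • e₂ := by
    rw [mul_smul, mul_smul, ← e1, ← e2, smul_comm]
  obtain ⟨z, z1, z2⟩ := hR.split_mul (p2b_indep hR O e3).1
  refine hR.eq_of_cases (z := z) ?_ ?_
  · have e4 : (ε z * (k₂ - c₂)) • e₂ = 0 := by
      rw [mul_smul, ← e2, ← mul_smul, z1, zero_smul]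
    have e5 := hR.eq_zero_of_full O.full₂ e4
    have e6 : ε z * a = ε z * k₂ := by linear_combination z1 - e5
    rw [← mul_smul, ← mul_smul, e6]
  · have e4 : (ε zᶜ * (a - c₁)) • v = 0 := by
      rw [mul_smul, e1, ← mul_smul, z2, zero_smul]
    have e6 : ε zᶜ * a = ε zᶜ * (a - c₁) + ε zᶜ * k₂ := by linear_combination -z2
    rw [← mul_smul, ← mul_smul, e6, add_smul, e4, zero_add]

theorem p2b_cases (h : OM o) (hj : CenRep o (cov o p) j) (hx : x ≤ cov o p) (hy : y ≤ cov o p)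
    (z : B) (h1 : j z ⊓ x = j z ⊓ y) (h2 : j zᶜ ⊓ x = j zᶜ ⊓ y) : x = y := by
  refine h.eq_of_cases (hj.cen z) h1 ?_
  rw [hj.map_compl h (h.cen_cov p), inf_comm (cov o p), inf_assoc, inf_assoc,
    inf_eq_right.2 hx, inf_eq_right.2 hy] at h2
  exact h2

namespace PM

theorem p2b_zero (M : PM o p j ε pt e₀) (h : Geo o) (hj : CenRep o (cov o p) j) :
    pt 0 ≤ o p := by
  rw [M.pt_zero h hj]
  exact bot_le

theorem p2b_hyp (M : PM o p j ε pt e₀) {e₁ e₂ : E}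
    (O : Orth ε (fun v w => pt v ≤ o (pt w)) e₀ e₁ e₂) : pt e₁ ≤ o p ∧ pt e₂ ≤ o p := by
  rw [← M.base]
  exact ⟨O.symm _ _ O.p01, O.symm _ _ O.p02⟩

theorem p2b_miss (M : PM o p j ε pt e₀) (h : Geo o) (hp : Spatial o p)
    (hj : CenRep o (cov o p) j) (hv : pt v ≤ o p) (hf : Full ε v) : pt (e₀ + v) ⊓ p = ⊥ := by
  have k := h.toOM
  have h1 := h.cov_dr hp.1 (M.aff_pt h hj hv) (M.aff_pt h hj (M.p2b_zero h hj))
  rw [M.dir_eq h hj hv (M.p2b_zero h hj), sub_zero, (M.full_iff h hj v).1 hf, add_zero,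
    M.base] at h1
  have h2 : cov o (pt (e₀ + v) ⊓ p) ≤ o (cov o (pt (e₀ + v) ⊓ p)) :=
    (k.cov_mono inf_le_right).trans (h1.le.trans inf_le_right)
  have h3 := k.inf_eq_bot_of_perp h2
  rw [inf_idem] at h3
  exact k.cov_eq_bot.1 h3

theorem affine_map (M : PM o p j ε pt e₀) (h : Geo o) (hp : Spatial o p)
    (hj : CenRep o (cov o p) j) (hg : Ax o p g) : ∃ (k : Rˣ) (w : E), pt w ≤ o p ∧
      ∀ v, pt v ≤ o p → g (pt (e₀ + v)) = pt (e₀ + ((k : R) • v + w)) := by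
  have h0 := M.p2b_zero h hj
  obtain ⟨e₁, e₂, O⟩ := M.exists_orth h hp hj
  obtain ⟨h1, h2⟩ := M.p2b_hyp O
  have hex : ∀ v : E, ∃ v', pt v ≤ o p → pt v' ≤ o p ∧ g (pt (e₀ + v)) = pt (e₀ + v') :=
    fun v => by
      by_cases hv : pt v ≤ o p
      · obtain ⟨v', hv'⟩ := M.aff_surj h hj (hg.aff h (M.aff_pt h hj hv))
        exact ⟨v', fun _ => hv'⟩
      · exact ⟨0, fun hv' => absurd hv' hv⟩
  choose φ hφ using hex
  have hd : ∀ u v, pt u ≤ o p → pt v ≤ o p → pt (φ u - φ v) = pt (u - v) := fun u v hu hv => by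
    rw [← M.dir_eq h hj (hφ u hu).1 (hφ v hv).1, ← (hφ u hu).2, ← (hφ v hv).2, hg.dr_map,
      M.dir_eq h hj hu hv]
  have hc : ∀ u v, pt u ≤ o p → pt v ≤ o p → ∃ c : R, φ u - φ v = c • (u - v) :=
    fun u v hu hv => M.span1 (hd u v hu hv).le
  obtain ⟨k₁, a1⟩ := hc e₁ 0 h1 h0
  obtain ⟨k₂, a2⟩ := hc e₂ 0 h2 h0
  obtain ⟨c, a3⟩ := hc e₁ e₂ h1 h2
  obtain ⟨k', a4⟩ := M.span1 (hd e₁ 0 h1 h0).ge
  rw [sub_zero] at a1 a2 a4
  have hu : k₁ * k' = 1 := by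
    have a5 : (k₁ * k' - 1) • e₁ = 0 := by
      rw [a1, ← mul_smul] at a4
      rw [sub_smul, mul_comm, ← a4, one_smul, sub_self]
    exact sub_eq_zero.1 (M.reg.eq_zero_of_full O.full₁ a5)
  refine ⟨Units.mkOfMulEqOne k₁ k' hu, φ 0, (hφ 0 h0).1, fun v hv => ?_⟩
  obtain ⟨a, b0⟩ := hc v 0 hv h0
  obtain ⟨c₁, b1⟩ := hc v e₁ hv h1
  obtain ⟨c₂, b2⟩ := hc v e₂ hv h2
  rw [sub_zero] at b0
  have b3 : a • v = k₁ • v := by
    refine p2b_alg M.reg O (k₂ := k₂) (c := c) (c₁ := c₁) (c₂ := c₂) ?_ ?_ ?_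
    · rw [← a1, ← a2, ← a3, sub_sub_sub_cancel_right]
    · rw [← b0, ← a1, ← b1, sub_sub_sub_cancel_right]
    · rw [← b0, ← a2, ← b2, sub_sub_sub_cancel_right]
  rw [(hφ v hv).2, Units.val_mkOfMulEqOne, ← b3, ← b0, sub_add_cancel]

theorem ratio (M : PM o p j ε pt e₀) (h : Geo o) (hp : Spatial o p)
    (hj : CenRep o (cov o p) j) (hg : Ax o p g) (h0 : g p = p) : ∃ k : Rˣ,
      ∀ (s : R) v, pt v ≤ o p → g (pt (s • e₀ + v)) = pt (s • e₀ + (k : R) • v) := by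
  have k := h.toOM
  have hz := M.p2b_zero h hj
  obtain ⟨m, w, hw, hm⟩ := M.affine_map h hp hj hg
  have hw0 : w = 0 := by
    have h1 := hm 0 hz
    rw [smul_zero, zero_add, add_zero, M.base, h0] at h1
    refine M.aff_inj h hj hw hz ?_
    rw [add_zero, M.base, ← h1]
  subst hw0
  refine ⟨m, fun s v hv => ?_⟩
  obtain ⟨z, t, rfl⟩ := M.reg.reg s
  have hA : ∀ u : E, j z ⊓ pt ((ε z * t) • e₀ + u) = j z ⊓ pt (e₀ + ((t⁻¹ : Rˣ) : R) • u) :=
    fun u => by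
      rw [← M.pt_unit t (e₀ + _), ← M.loc, ← M.loc, smul_add, smul_add, smul_add, ← mul_smul,
        ← mul_assoc, M.reg.idem, mul_smul, ← mul_smul (t : R), Units.mul_inv, one_smul]
  have hB : ∀ u : E, j zᶜ ⊓ pt ((ε z * t) • e₀ + u) = j zᶜ ⊓ pt u := fun u => by
    rw [← M.loc, ← M.loc, smul_add, ← mul_smul, ← mul_assoc, mul_comm (ε zᶜ), M.reg.mul_compl,
      zero_mul, zero_smul, zero_add]
  refine p2b_cases k hj ?_ (M.le_cov _) z ?_ ?_
  · rw [← hg.cen h hp (k.cen_cov p)]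
    exact g.monotone (M.le_cov _)
  · rw [← hg.map_loc h hp (hj.cen z), hA, hA, hg.map_loc h hp (hj.cen z),
      hm _ (M.smul_mem _ hv), add_zero, smul_comm]
  · rw [← hg.map_loc h hp (hj.cen zᶜ), hB, hB, M.pt_unit, hg _ (inf_le_right.trans hv)]

theorem tr_map (M : PM o p j ε pt e₀) (h : Geo o) (hp : Spatial o p)
    (hj : CenRep o (cov o p) j) (hg : IsTr o p g) : ∃ w : E, pt w ≤ o p ∧
      ∀ v, pt v ≤ o p → g (pt (e₀ + v)) = pt (e₀ + (v + w)) := by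
  have k := h.toOM
  have hz := M.p2b_zero h hj
  obtain ⟨hg, d, hd, hdp, ht⟩ := hg
  obtain ⟨m, w, hw, hm⟩ := M.affine_map h hp hj hg
  obtain ⟨e₁, e₂, O⟩ := M.exists_orth h hp hj
  obtain ⟨h1, h2⟩ := M.p2b_hyp O
  have hA : ∀ v, pt v ≤ o p → pt (v - ((m : R) • v + w)) ≤ d := fun v hv => by
    have a1 := h.dr_le_of (M.aff_pt h hj hv) k.cen_top hdp (ht _ (M.aff_pt h hj hv))
    rwa [top_inf_eq, hm v hv, M.dir_eq h hj hv (M.add_mem (M.smul_mem _ hv) hw)] at a1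
  have hB : ∀ v, pt v ≤ o p → pt ((1 - (m : R)) • v) ≤ d := fun v hv => by
    have a1 := M.sub_mem (hA v hv) (hA 0 hz)
    have a2 : v - ((m : R) • v + w) - (0 - ((m : R) • (0 : E) + w)) = (1 - (m : R)) • v := by
      rw [sub_smul, one_smul, smul_zero]
      abel
    rwa [a2] at a1
  obtain ⟨z, t, hzt⟩ := M.reg.reg (1 - (m : R))
  have hC : ∀ v, Full ε v → cov o (pt ((1 - (m : R)) • v)) = j z := fun v hv => by
    rw [hzt, mul_smul, M.loc, M.pt_unit, k.cov_inf (hj.cen z), (M.full_iff h hj v).1 hv,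
      inf_eq_left.2 (hj.le z)]
  have hD := h.cov_disj hd (hB e₁ h1) (hB e₂ h2) (k.inf_eq_bot_of_perp
    (O.symm _ _ (O.smul _ _ _ (O.symm _ _ (O.smul _ _ _ O.p12)))))
  rw [hC e₁ O.full₁, hC e₂ O.full₂, inf_idem, hj.eq_bot_iff k] at hD
  rw [hD, M.reg.bot, zero_mul, sub_eq_zero] at hzt
  refine ⟨w, hw, fun v hv => ?_⟩
  rw [hm v hv, ← hzt, one_smul]

/-- a scalar is determined, locally, by its action on the hyperplane -/
theorem scalar_ext (M : PM o p j ε pt e₀) (h : Geo o) (hp : Spatial o p)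
    (hj : CenRep o (cov o p) j) {r s : R} (he : ∀ v, pt v ≤ o p → r • v = s • v) : r = s := by
  obtain ⟨e₁, e₂, O⟩ := M.exists_orth h hp hj
  refine sub_eq_zero.1 (M.reg.eq_zero_of_full O.full₁ ?_)
  rw [sub_smul, he e₁ (M.p2b_hyp O).1, sub_self]

theorem exists_hom (M : PM o p j ε pt e₀) (h : Geo o) (hp : Spatial o p)
    (hj : CenRep o (cov o p) j) (hh : HoAx o p) (k : Rˣ) : ∃ g, Ax o p g ∧ g p = p ∧
      ∀ v, pt v ≤ o p → g (pt (e₀ + v)) = pt (e₀ + (k : R) • v) := by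
  have hz := M.p2b_zero h hj
  obtain ⟨e₁, e₂, O⟩ := M.exists_orth h hp hj
  obtain ⟨h1, h2⟩ := M.p2b_hyp O
  have h3 : pt ((k : R) • e₁) ≤ o p := M.smul_mem _ h1
  have h4 : Full ε ((k : R) • e₁) := by
    rw [M.full_iff h hj, M.pt_unit]
    exact (M.full_iff h hj e₁).1 O.full₁
  have h5 : pt (e₀ + (k : R) • e₁) ≤ p ⊔ pt (e₀ + e₁) := by
    have h6 := (M.le_line_iff h hj hz h3 h1).2 ⟨k, by rw [sub_zero, sub_zero]⟩
    rwa [add_zero, M.base] at h6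
  obtain ⟨g, hg, hgp, hga⟩ := hh _ _ (M.aff_pt h hj h1) (M.aff_pt h hj h3)
    (M.p2b_miss h hp hj h1 O.full₁) (M.p2b_miss h hp hj h3 h4) h5
  obtain ⟨m, hm⟩ := M.ratio h hp hj hg hgp
  have h7 : (m : R) = k := by
    have h8 := hm 1 e₁ h1
    rw [one_smul, hga] at h8
    have h9 := M.aff_inj h hj h3 (M.smul_mem _ h1) h8
    refine sub_eq_zero.1 (M.reg.eq_zero_of_full O.full₁ ?_)
    rw [sub_smul, h9, sub_self]
  refine ⟨g, hg, hgp, fun v hv => ?_⟩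
  have h8 := hm 1 v hv
  rwa [one_smul, h7] at h8

theorem sq (M : PM o p j ε pt e₀) (h : Geo o) (hp : Spatial o p)
    (hj : CenRep o (cov o p) j) (hh : HoAx o p) (hs : SqAx o p) (r : R) : ∃ s, s * s = r := by
  obtain ⟨z, t, rfl⟩ := M.reg.reg r
  obtain ⟨g, hg, hgp, hgt⟩ := M.exists_hom h hp hj hh t
  obtain ⟨k, hk, hkp, hkk⟩ := hs g hg hgp
  obtain ⟨m, hm⟩ := M.ratio h hp hj hk hkp
  have h1 : (m : R) * m = t := M.scalar_ext h hp hj fun v hv => by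
    have h2 := hm 1 v hv
    have h3 := hm 1 _ (M.smul_mem (m : R) hv)
    rw [one_smul] at h2 h3
    refine M.aff_inj h hj (M.smul_mem _ hv) (M.smul_mem _ hv) ?_
    rw [mul_smul, ← h3, ← h2, hkk, hgt v hv]
  refine ⟨ε z * m, ?_⟩
  rw [mul_mul_mul_comm, M.reg.idem, h1]

end PM

end Pool.Agent.P.MP_d8da86_an.CR
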