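import Pool.Agent.P.MP_d8da86_an.C.A1

/-!
The order on the scalars.
Hints. Let i * i = -1, N = f e1 e1 (a unit, star N = N), b * b = N⁻¹; star b = ± b and
star i = ± i locally (`split_mul`). If ε z * star i = ε z * i then below z one of the vectors
e0 + (i * b) • e1, e0 + b • e1 is isotropic locally, so z = ⊥: star i = -i; where 2 = 0 one has
star i = i, so 2 is a unit. A self-adjoint r = s * s has star s = ± s locally, so r = ± star s * s
locally. Locally N = -star t * t is impossible, so there is u perp e0 with f u u = 1. If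
star x * x + star y * y = -(star c * c) below z, consider first real parts: every t has
star t * t = a * a with a self-adjoint, and a * a + b * b = star (a + i * b) * (a + i * b); the vector
c • e0 + (a + i * b) • u is isotropic below z, so c = 0 there. This gives antisymmetry. For f v v split
along e0: if f v v = -(star c * c) locally for v perp e0 then c • e0 + v is isotropic. Define
r ≤ s as ∃ t, s - r = star t * t.
-/

open scoped InnerProductSpace ComplexConjugate

set_option linter.unusedSectionVars false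
set_option linter.unusedVariables false

noncomputable section

namespace Pool.Agent.P.MP_d8da86_an.CR

universe u

section

variable {B : Type*} [CompleteBooleanAlgebra B] {R : Type*} [CommRing R] [StarRing R]
  {ε : B → R} {E : Type*} [AddCommGroup E] [Module R E] {f : E → E → R} {e₀ e₁ u : E}

/-- if the square of `s` is self-adjoint then locally `star s = ± s` -/
theorem r1_split (hr : Reg ε) {s : R} (h : star (s * s) = s * s) :
    ∃ z, ε z * star s = ε z * s ∧ ε zᶜ * star s = -(ε zᶜ * s) := by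
  obtain ⟨z, h1, h2⟩ := hr.split_mul (r := star s - s) (s := star s + s) (by
    rw [star_mul] at h
    linear_combination h)
  exact ⟨z, by linear_combination h1, by linear_combination h2⟩

theorem r1_form (hf : IsForm f) (h0 : f e₀ e₀ = 1) (a : R) {v : E} (hv : f e₀ v = 0) :
    f (a • e₀ + v) (a • e₀ + v) = star a * a + f v v := by
  rw [hf.add_left, hf.add, hf.add, hf.smul_left, hf.smul_left, hf.smul, hf.smul, h0, hv,
    hf.zero_symm hv]
  ring

theorem r1_key (hf : IsForm f) (ha : ∀ v, f v v = 0 → v = 0) (h0 : f e₀ e₀ = 1) {a : R} {v : E}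
    (hv : f e₀ v = 0) (h : star a * a + f v v = 0) : a = 0 := by
  have h1 := congrArg (f e₀) (ha _ ((r1_form hf h0 a hv).trans h))
  rwa [hf.add, hf.smul, h0, hv, hf.zero_right, mul_one, add_zero] at h1

/-- the length of a vector orthogonal to `e₀` is the square of a self-adjoint element -/
theorem r1_perp (hr : Reg ε) (hs : ∀ z, star (ε z) = ε z) (hf : IsForm f)
    (ha : ∀ v, f v v = 0 → v = 0) (h0 : f e₀ e₀ = 1) (hq : ∀ r : R, ∃ s, s * s = r) {v : E}
    (hv : f e₀ v = 0) : ∃ c, star c = c ∧ c * c = f v v := by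
  obtain ⟨c, hc⟩ := hq (f v v)
  obtain ⟨z, h1, h2⟩ := r1_split hr (s := c) (by rw [hc, hf.herm])
  have h3 : ε zᶜ * c = 0 := by
    refine r1_key hf ha h0 (v := ε zᶜ • v) (by rw [hf.smul, hv, mul_zero]) ?_
    rw [hf.smul, hf.smul_left, star_mul, hs, ← hc]
    linear_combination (ε zᶜ * c) * h2
  refine ⟨c, ?_, hc⟩
  have h4 := hr.add_compl z
  linear_combination h1 + h2 - 2 * h3 - (star c - c) * h4

theorem r1_unit (hr : Reg ε) (hs : ∀ z, star (ε z) = ε z) (hf : IsForm f)
    (ha : ∀ v, f v v = 0 → v = 0) (h0 : f e₀ e₀ = 1) (h01 : f e₀ e₁ = 0) (h1 : Full ε e₁)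
    (hq : ∀ r : R, ∃ s, s * s = r) : ∃ u, f e₀ u = 0 ∧ f u u = 1 := by
  obtain ⟨c, hc, hcc⟩ := r1_perp hr hs hf ha h0 hq h01
  obtain ⟨k, rfl⟩ : IsUnit c := by
    refine hr.isUnit_of_full fun z hz => h1 z (ha _ ?_)
    rw [hf.smul, hf.smul_left, hs, ← hcc]
    linear_combination (ε z * c) * hz
  have h2 : star ((k⁻¹ : Rˣ) : R) * k = 1 := by
    rw [← hc, ← star_mul, Units.mul_inv, star_one]
  refine ⟨((k⁻¹ : Rˣ) : R) • e₁, by rw [hf.smul, h01, mul_zero], ?_⟩
  rw [hf.smul, hf.smul_left, ← hcc, ← mul_assoc (star _), h2, one_mul, Units.inv_mul]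

theorem r1_line (hf : IsForm f) (hu : f u u = 1) (b : R) : f (b • u) (b • u) = star b * b := by
  rw [hf.smul, hf.smul_left, hu]
  ring

theorem r1_two (hf : IsForm f) (ha : ∀ v, f v v = 0 → v = 0) (h0 : f e₀ e₀ = 1)
    (h0u : f e₀ u = 0) (hu : f u u = 1) {a b : R} (h : star a * a + star b * b = 0) : a = 0 :=
  r1_key hf ha h0 (v := b • u) (by rw [hf.smul, h0u, mul_zero]) (by rw [r1_line hf hu, h])

theorem r1_exI (hr : Reg ε) (hs : ∀ z, star (ε z) = ε z) (hq : ∀ r : R, ∃ s, s * s = r)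
    (htwo : ∀ a b : R, star a * a + star b * b = 0 → a = 0) :
    ∃ i : R, i * i = -1 ∧ star i = -i := by
  obtain ⟨i, hi⟩ := hq (-1)
  obtain ⟨z, h1, h2⟩ := r1_split hr (s := i) (by rw [hi, star_neg, star_one])
  have h3 : ε z = 0 := by
    refine htwo _ (ε z * i) ?_
    rw [star_mul, hs]
    linear_combination (ε z * i) * h1 + ε z * ε z * hi
  have h4 := hr.add_compl z
  exact ⟨i, hi, by linear_combination h2 + (star i + i) * h3 - (star i + i) * h4⟩

end

theorem exists_order {B : Type*} [CompleteBooleanAlgebra B] {R : Type*} [CommRing R] [StarRing R]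
    {ε : B → R} {E : Type*} [AddCommGroup E] [Module R E] {f : E → E → R} {e₀ e₁ : E}
    (hr : Reg ε) (m : BMod ε E) (hs : ∀ z, star (ε z) = ε z) (hf : IsForm f)
    (ha : ∀ v, f v v = 0 → v = 0) (h0 : f e₀ e₀ = 1) (h01 : f e₀ e₁ = 0) (h1 : Full ε e₁)
    (hq : ∀ r : R, ∃ s, s * s = r) :
    ∃ (_ : PartialOrder R) (_ : IsOrderedRing R), BC ε ∧ ∀ v, 0 ≤ f v v := by
  obtain ⟨u, h0u, hu⟩ := r1_unit hr hs hf ha h0 h01 h1 hq
  have htwo : ∀ a b : R, star a * a + star b * b = 0 → a = 0 :=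
    fun a b h => r1_two hf ha h0 h0u hu h
  obtain ⟨i, hi, hsi⟩ := r1_exI hr hs hq htwo
  have hreal : ∀ t : R, ∃ a, star a = a ∧ a * a = star t * t := fun t => by
    rw [← r1_line hf hu]
    exact r1_perp hr hs hf ha h0 hq (by rw [hf.smul, h0u, mul_zero])
  have hadd : ∀ x y : R, ∃ t, star x * x + star y * y = star t * t := fun x y => by
    obtain ⟨a, ha1, ha2⟩ := hreal x
    obtain ⟨b, hb1, hb2⟩ := hreal y
    refine ⟨a + i * b, ?_⟩
    rw [star_add, star_mul, ha1, hb1, hsi, ← ha2, ← hb2]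
    linear_combination (b * b) * hi
  let po : PartialOrder R :=
    { le := fun r s => ∃ t, s - r = star t * t
      le_refl := fun r => ⟨0, by rw [sub_self, mul_zero]⟩
      le_trans := by
        rintro r s t ⟨x, hx⟩ ⟨y, hy⟩
        obtain ⟨c, hc⟩ := hadd x y
        exact ⟨c, by linear_combination hx + hy + hc⟩
      le_antisymm := by
        rintro r s ⟨x, hx⟩ ⟨y, hy⟩
        have h2 := htwo x y (by linear_combination -hx - hy)
        rw [h2, mul_zero] at hx
        exact (sub_eq_zero.1 hx).symm }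
  have hle : ∀ r s : R, r ≤ s ↔ ∃ t, s - r = star t * t := fun _ _ => Iff.rfl
  have hnn : ∀ r : R, 0 ≤ r ↔ ∃ t, r = star t * t := fun r => by rw [hle, sub_zero]
  have : IsOrderedAddMonoid R :=
    { add_le_add_left := fun a b h c => by
        rw [hle] at h ⊢
        rwa [add_sub_add_right_eq_sub] }
  have : ZeroLEOneClass R := ⟨(hnn 1).2 ⟨1, by rw [star_one, mul_one]⟩⟩
  refine ⟨po, IsOrderedRing.of_mul_nonneg fun a b h2 h3 => ?_,
    ⟨hr, hs, hnn, fun r h2 => ?_, hq, i, hi, hsi⟩, fun v => ?_⟩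
  · obtain ⟨x, rfl⟩ := (hnn a).1 h2
    obtain ⟨y, rfl⟩ := (hnn b).1 h3
    exact (hnn _).2 ⟨x * y, by rw [star_mul]; ring⟩
  · obtain ⟨s, rfl⟩ := hq r
    obtain ⟨z, h3, h4⟩ := r1_split hr h2
    refine ⟨z, (hnn _).2 ⟨ε z * s, ?_⟩, (hle _ _).2 ⟨ε zᶜ * s, ?_⟩⟩
    · rw [star_mul, hs]
      linear_combination -(ε z * s) * h3 - (s * s) * hr.idem z
    · rw [star_mul, hs]
      linear_combination -(ε zᶜ * s) * h4 + (s * s) * hr.idem zᶜ
  · have h2 : f e₀ (v - f e₀ v • e₀) = 0 := by
      rw [hf.sub_right, hf.smul, h0, mul_one, sub_self]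
    obtain ⟨c, hc, hcc⟩ := r1_perp hr hs hf ha h0 hq h2
    have h3 := r1_form hf h0 (f e₀ v) h2
    rw [add_sub_cancel, ← hcc] at h3
    obtain ⟨t, ht⟩ := hadd (f e₀ v) c
    exact (hnn _).2 ⟨t, by rw [h3, ← ht, hc]⟩

end Pool.Agent.P.MP_d8da86_an.CR
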