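import Pool.Agent.P.MP_d8da86_an.C.P1
import Pool.Agent.P.MP_d8da86_an.C.P2b
import Pool.Agent.P.MP_d8da86_an.C.F2
import Pool.Agent.P.MP_d8da86_an.C.R1

/-!
Existence of coordinates.
-/

open scoped InnerProductSpace ComplexConjugate

set_option linter.unusedSectionVars false
set_option linter.unusedVariables false

noncomputable section

namespace Pool.Agent.P.MP_d8da86_an.CR

universe u

theorem exists_FM {L : Type u} [CompleteLattice L] {o : L → L} {p : L} {B : Type u}
    [CompleteBooleanAlgebra B] {j : B → L} (h : Proj o) (hp : Spatial o p) (he : ElAx o p)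
    (hh : HoAx o p) (hc : CommAx o p) (hs : SqAx o p) (hj : CenRep o (cov o p) j) :
    ∃ (R : Type u) (_ : CommRing R) (_ : StarRing R) (_ : PartialOrder R) (_ : IsOrderedRing R)
      (ε : B → R) (E : Type u) (_ : AddCommGroup E) (_ : Module R E) (pt : E → L) (e₀ : E)
      (f : E → E → R), FM o p j ε pt e₀ f := by
  obtain ⟨V, _, aff, T⟩ := exists_TM h hp he
  obtain ⟨R, _, _, ε, A⟩ := exists_AM T h hp hh hc hj
  obtain ⟨E, _, _, pt, e₀, M⟩ := exists_PM A h hp hj
  obtain ⟨e₁, e₂, O⟩ := M.exists_orth h.toGeo hp hj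
  obtain ⟨_, f, hf, h0, hs', hperp⟩ := O.exists_form M.reg M.bm
  have ha : ∀ v, f v v = 0 → v = 0 := fun v hv => O.aniso v ((hperp v v).1 hv)
  obtain ⟨_, _, hbc, hnn⟩ := exists_order M.reg M.bm hs' hf ha h0 ((hperp _ _).2 O.p01) O.full₁
    (M.sq h.toGeo hp hj hh hs)
  exact ⟨R, _, _, _, inferInstance, ε, E, _, _, pt, e₀, f, M, hbc, ⟨hf, M.bm, hnn, ha⟩, h0, hperp⟩

end Pool.Agent.P.MP_d8da86_an.CR
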