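import Pool.Agent.P.MP_d8da86_an.C.C3b
import Pool.Agent.P.MP_d8da86_an.C.C9
import Pool.Agent.P.MP_d8da86_an.C.C10b
import Pool.Agent.P.MP_d8da86_an.C.P3
import Pool.Agent.P.MP_d8da86_an.C.H4
import Pool.Agent.P.MP_d8da86_an.C.H5
import Pool.Agent.P.MP_d8da86_an.C.H7
import Pool.Agent.P.MP_d8da86_an.Main

/-!
Assembly.
-/

open scoped InnerProductSpace ComplexConjugate

set_option linter.unusedSectionVars false
set_option linter.unusedVariables false

noncomputable section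

namespace Pool.Agent.P.MP_d8da86_an.CR

universe u

theorem Conc.att {H : Type u} [NormedAddCommGroup H] [InnerProductSpace ℂ H] [CompleteSpace H]
    {L : Type u} [CompleteLattice L] {o : L → L} {A : H →L[ℂ] H} {V : L → Submodule ℂ H}
    (C : Conc o A V) : Att L :=
  ⟨H, _, _, inferInstance, A, C.sa, ⟨RelIso.ofSurjective
    (RelEmbedding.ofMapRelIff (fun x => (⟨V x, C.mem x⟩ : Lat A)) fun x y => C.le_iff x y)
    fun M => by
      obtain ⟨x, hx⟩ := (C.range M.1).2 M.2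
      exact ⟨x, Subtype.ext hx⟩⟩⟩

theorem Att.of_iso {L L' : Type u} [PartialOrder L] [PartialOrder L'] (h : Att L')
    (e : L ≃o L') : Att L := by
  obtain ⟨H, _, _, _, A, hA, ⟨e'⟩⟩ := h
  exact ⟨H, _, _, inferInstance, A, hA, ⟨e.trans e'⟩⟩

theorem Conc.axioms {H : Type*} [NormedAddCommGroup H] [InnerProductSpace ℂ H] [CompleteSpace H]
    {L : Type u} [CompleteLattice L] {o : L → L} {A : H →L[ℂ] H} {V : L → Submodule ℂ H}
    (C : Conc o A V) : Axioms o where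
  anti := C.om.anti
  invol := C.om.invol
  inf_o := C.om.inf_o
  om := C.om.om
  dense := C.geo.dense
  cover := C.geo.cover
  gen := C.gen
  meas := C.meas
  line := C.line
  elation := fun _ hp => C.elAx hp
  homology := fun _ hp => C.hoAx hp
  comm := fun _ hp => C.commAx C.proj hp
  sq := fun _ hp => C.sqAx C.proj hp
  cont := fun p hp => by
    obtain ⟨B, _, j, hj⟩ := exists_cenRep C.om (C.om.cen_cov p)
    obtain ⟨R, _, _, _, _, ε, E, _, _, pt, e₀, f, M⟩ := exists_FM C.proj hp (C.elAx hp)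
      (C.hoAx hp) (C.commAx C.proj hp) (C.sqAx C.proj hp) hj
    exact M.cont_of_ded C.geo hp hj (C.ded C.proj hp hj M)

theorem Axioms.att {L : Type u} [CompleteLattice L] {o : L → L} (X : Axioms o) : Att L := by
  have h0 : OM o := ⟨X.anti, X.invol, X.inf_o, X.om⟩
  have h : Geo o := ⟨h0, X.dense, X.cover⟩
  have hP : Proj o := h.third_of_line X.line
  obtain ⟨S, hS, h1, h2⟩ := h0.exists_part h0.cen_top (fun w => Rep o w) fun z hz hz0 _ => by
    obtain ⟨m, hm, hm0⟩ := X.meas z hz hz0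
    obtain ⟨w₁, c1, n1, l1, hpos⟩ := h0.exists_pos hm hz hm0
    obtain ⟨w, c2, n2, l2, hw⟩ := h.trichotomy c1 n1
    refine ⟨w, c2, n2, l2.trans l1, ?_⟩
    obtain ⟨B, _, j, hj⟩ := exists_cenRep h0 c2
    have hμ : BMeas fun a => m (j a) := hj.bmeas h0 hm fun y a b c => hpos y a b (c.trans l2)
    have hB : Att B := att_of_rep (om_compl B) (hj.gen h0 c2 X.gen) (rep_of_bmeas hμ)
    rcases hw with hw | ⟨p, q, hp, hq, hpq, e1, e2, e3⟩ | ⟨p, hp, rfl⟩
    · obtain ⟨e⟩ := hj.iso_of_pt h0 c2 hw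
      exact rep_of_att h0 c2 (hB.of_iso e)
    · obtain ⟨H, _, _, _, A, L', _, o', V, p', q', j', C, hp', hq', hpq', f1, f2, f3, hj'⟩ :=
        exists_double hB
      obtain ⟨c, hc⟩ := X.line p q hp hq hpq (h0.cov_iff.2 (e1.trans e2.symm).le)
        (h0.cov_iff.2 (e2.trans e1.symm).le)
      obtain ⟨c', hc'⟩ := C.line p' q' hp' hq' hpq' (C.om.cov_iff.2 (f2.trans f3.symm).le)
        (C.om.cov_iff.2 (f3.trans f2.symm).le)
      obtain ⟨e⟩ := iso_of_line h C.geo hp hq hp' hq' e3 f1 e1 f2 hj hj' hc hc'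
      exact rep_of_att h0 c2 (C.att.of_iso (e.trans OrderIso.IicTop))
    · obtain ⟨R, _, _, _, _, ε, E, _, _, pt, e₀, f, M⟩ := exists_FM hP hp (X.elation p hp)
        (X.homology p hp) (X.comm p hp) (X.sq p hp) hj
      obtain ⟨_, h1⟩ := M.bc.exists_alg (M.ded_of_cont h hp hj (X.cont p hp))
      obtain ⟨m', hm'⟩ := h1.exists_int hμ
      obtain ⟨H, _, _, _, J, π, T⟩ := exists_HR h1 M.pd hμ hm'
      obtain ⟨Φ, hΦ⟩ := M.isRep h hj h1 hμ hm' T
      exact ⟨H, _, _, inferInstance, Φ, hΦ⟩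
  exact att_of_rep h0 X.gen (rep_glue h0 hS h1 fun w hw => (h2 w hw).2)

theorem nontrivial_iff {H : Type*} [NormedAddCommGroup H] [InnerProductSpace ℂ H]
    [CompleteSpace H] {L : Type*} [CompleteLattice L] {A : H →L[ℂ] H} (e : L ≃o Lat A) :
    Nontrivial L ↔ Nontrivial H := by
  rw [← Submodule.nontrivial_iff ℂ (M := H), ← not_iff_not, not_nontrivial_iff_subsingleton,
    not_nontrivial_iff_subsingleton, ← subsingleton_iff_bot_eq_top,
    ← subsingleton_iff_bot_eq_top, ← val_bot e, ← val_top e]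
  exact ⟨fun h => by rw [h], val_inj e⟩

theorem main {L : Type u} [CompleteLattice L] : List.TFAE
    [∃ (H : Type u) (_ : NormedAddCommGroup H) (_ : InnerProductSpace ℂ H) (_ : CompleteSpace H)
      (_ : Nontrivial H) (A : H →L[ℂ] H), IsSelfAdjoint A ∧ Nonempty (L ≃o Lat A),
    (∀ a x b : L, a ≤ x → x ≤ b → ∃ y, x ⊓ y = a ∧ x ⊔ y = b) ∧
      ∃ (H : Type u) (_ : NormedAddCommGroup H) (_ : InnerProductSpace ℂ H) (_ : CompleteSpace H)
        (_ : Nontrivial H) (A : H →L[ℂ] H), IsStarNormal A ∧ Nonempty (L ≃o Lat A),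
    Nontrivial L ∧ Crit L] := by
  tfae_have 1 → 2 := fun ⟨H, _, _, _, _, A, hA, ⟨e⟩⟩ => by
    obtain ⟨o, h1, h2, h3, h4⟩ := exists_ortho e (reductive_of_selfAdjoint hA)
    exact ⟨relCompl_of_ortho h1 h2 h3 h4, H, _, _, inferInstance, inferInstance, A,
      hA.isStarNormal, ⟨e⟩⟩
  tfae_have 2 → 1 := fun ⟨h, H, _, _, _, _, A, hA, ⟨e⟩⟩ => by
    obtain ⟨B, h1, h2, -⟩ := exists_sa_Lat hA
      (reductive_of_secLat hA (secLat_of e fun a b hab => h ⊥ a b bot_le hab))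
    exact ⟨H, _, _, inferInstance, inferInstance, B, h1, ⟨h2 ▸ e⟩⟩
  tfae_have 1 → 3 := fun ⟨H, _, _, _, hH, A, hA, ⟨e⟩⟩ => by
    obtain ⟨o, C⟩ := exists_conc hA e
    exact ⟨(nontrivial_iff e).2 hH, o, C.axioms⟩
  tfae_have 3 → 1 := fun ⟨hL, o, X⟩ => by
    obtain ⟨H, _, _, _, A, hA, ⟨e⟩⟩ := X.att
    exact ⟨H, _, _, inferInstance, (nontrivial_iff e).1 hL, A, hA, ⟨e⟩⟩
  tfae_finish

end Pool.Agent.P.MP_d8da86_an.CR
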