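import Pool.Agent.P.MP_d8da86_an.C.S1

/-!
A non-reductive part has a set of positive area of point evaluations.
Hints. Follow the proof of `exists_bpe` in ../Point (copy it) with `pos_points` in the place of
`exists_point` (in the shifted case translate G by 1); x' is a limit of vectors E.Φ f x, so it lies
in K. For `exists_ev`: M ≤ K invariant, Mᗮ not invariant, so there are x0 ∈ M, y ∈ Mᗮ with
⟪y, star A x0⟫ ≠ 0; K is invariant under the E.Φ f because its projection commutes with A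
(`exists_setup`); if A ξ = l • ξ then ξ = E.Pr {Z = l} ξ and E.Pr {Z = l} x' = 0.
-/

open scoped InnerProductSpace ComplexConjugate

set_option linter.unusedSectionVars false
set_option linter.unusedVariables false

noncomputable section

namespace Pool.Agent.P.MP_d8da86_an.CR

universe u

open MeasureTheory Filter Topology

variable {H : Type*} [NormedAddCommGroup H] [InnerProductSpace ℂ H] [CompleteSpace H]
  {X : Type} [MeasurableSpace X]

theorem pos_bpe (E : SpecCalc X H) {Z : X → ℂ} (hZ : BM Z) {x y : H} {K : Submodule ℂ H}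
    (hK : IsClosed (K : Set H)) (hx : ∀ f, BM f → E.Φ f x ∈ K)
    (h0 : ∀ n : ℕ, ⟪y, (E.Φ Z ^ n) x⟫_ℂ = 0) (h1 : ⟪y, (star (E.Φ Z)) x⟫_ℂ ≠ 0) :
    ∃ G : Set ℂ, MeasurableSet G ∧ volume G ≠ 0 ∧ ∀ l ∈ G, ∃ x' ∈ K, ∃ y' : H,
      E.μ x' {z | Z z = l} = 0 ∧ ⟪y', x'⟫_ℂ ≠ 0 ∧
        ∀ k : ℕ, ⟪y', (E.Φ Z ^ k) (E.Φ Z x' - l • x')⟫_ℂ = 0 := by
  haveI := E.fin
  let ν : Fin 4 ⊕ Fin 2 → Measure X :=
    fun i => E.μ (i.elim (fun k : Fin 4 => x + Complex.I ^ (k : ℕ) • y) ![x, y])
  let c : Fin 4 ⊕ Fin 2 → ℂ := Sum.elim (fun k => Complex.I ^ (k : ℕ) / 4) fun _ => 0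
  have pol : ∀ f, BM f → ∑ i, c i * ∫ z, f z ∂(ν i) = ⟪y, E.Φ f x⟫_ℂ := fun f hf => by
    rw [inner_polar, Fintype.sum_sum_type]
    simp only [ν, c, Sum.elim_inl, Sum.elim_inr, zero_mul, Finset.sum_const_zero, add_zero,
      E.inner f hf]
  have z0 : ⟪y, x⟫_ℂ = 0 := by simpa using h0 0
  have z1 : ⟪y, E.Φ Z x⟫_ℂ = 0 := by simpa using h0 1
  have p0 : ∑ i, c i * ∫ _, (1 : ℂ) ∂(ν i) = 0 := by
    rw [pol _ (BM.const 1), E.one]
    exact z0
  obtain ⟨G, hG, hG0, hGl⟩ : ∃ G : Set ℂ, MeasurableSet G ∧ volume G ≠ 0 ∧ ∀ l ∈ G,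
      (∀ i, ν i {x | Z x = l} = 0 ∧ Integrable (fun x => (Z x - l)⁻¹) (ν i)) ∧
        ∑ i, c i * ∫ x, (Z x - l)⁻¹ ∂(ν i) ≠ 0 := by
    by_cases h : ∑ i, c i * ∫ x, conj (Z x) * Z x ∂(ν i) = 0
    · have hZ' := hZ.sub (BM.const 1)
      obtain ⟨G, hG, hG0, hGl⟩ := pos_points ν c hZ' p0 (by
        rw [pol _ (hZ.star.mul hZ)] at h
        have e : (fun x => conj (Z x - 1) * (Z x - 1)) =
            fun x => conj (Z x) * Z x - conj (Z x) - Z x + 1 := by
          funext x
          rw [map_sub, map_one]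
          ring
        rw [pol _ (hZ'.star.mul hZ'), e,
          E.map_add (((hZ.star.mul hZ).sub hZ.star).sub hZ) (BM.const 1),
          E.map_sub ((hZ.star.mul hZ).sub hZ.star) hZ, E.map_sub (hZ.star.mul hZ) hZ.star, E.one,
          E.map_star hZ]
        simp only [add_apply, sub_apply, one_apply_eq_self, inner_add_right, inner_sub_right]
        rw [h, z0, z1]
        simpa using h1)
      refine ⟨(fun l => l + (-1)) ⁻¹' G, (measurable_add_const _) hG, ?_, fun l hl => ?_⟩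
      · rwa [measure_preimage_add_right]
      · have h2 := hGl _ hl
        have e1 : ∀ x, Z x - 1 - (l + -1) = Z x - l := fun x => by ring
        have e2 : ∀ x, (Z x - 1 = l + -1) = (Z x = l) := fun x => by
          rw [← sub_eq_add_neg, sub_left_inj]
        simpa only [e1, e2] using h2
    · exact pos_points ν c hZ p0 h
  refine ⟨G, hG, hG0, fun l hlG => ?_⟩
  obtain ⟨hl, hne⟩ := hGl l hlG
  let s : X → ℝ := fun z => √‖Z z - l‖
  have hs : Measurable s := (hZ.1.sub_const l).norm.sqrt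
  have hss : ∀ z, s z ^ 2 = ‖Z z - l‖ := fun z => Real.sq_sqrt (norm_nonneg _)
  have hs0 : ∀ z, 0 ≤ s z := fun z => Real.sqrt_nonneg _
  let g : X → ℂ := fun z => ((s z)⁻¹ : ℝ)
  let h : X → ℂ := fun z => conj ((s z : ℂ) * (Z z - l)⁻¹)
  have hg : Measurable g := Complex.measurable_ofReal.comp hs.inv
  have hh : Measurable h := Complex.continuous_conj.measurable.comp
    ((Complex.measurable_ofReal.comp hs).mul (hZ.1.sub_const l).inv)
  have ng : ∀ z, ‖g z‖ ^ 2 = ‖(Z z - l)⁻¹‖ := fun z => by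
    simp only [g]
    rw [Complex.norm_real, Real.norm_of_nonneg (inv_nonneg.2 (hs0 z)), inv_pow, hss, norm_inv]
  have nh : ∀ z, ‖h z‖ ^ 2 = ‖(Z z - l)⁻¹‖ := fun z => by
    simp only [h]
    rw [Complex.norm_conj, norm_mul, Complex.norm_real, Real.norm_of_nonneg (hs0 z), mul_pow, hss,
      norm_inv]
    by_cases h : ‖Z z - l‖ = 0
    · simp [h]
    · field_simp
  have hgh : ∀ z, Z z ≠ l → conj (h z) * g z = (Z z - l)⁻¹ := fun z hz => by
    have h2 : s z ≠ 0 := fun h => by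
      have := hss z
      rw [h] at this
      exact hz (sub_eq_zero.1 (norm_eq_zero.1 (by rw [← this]; simp)))
    have h3 : (s z : ℂ) ≠ 0 := Complex.ofReal_ne_zero.2 h2
    simp only [g, h, Complex.conj_conj]
    push_cast
    field_simp
  let B : ℕ → Set X := fun n => {z | 1 / (n + 1 : ℝ) ≤ ‖Z z - l‖}
  have hB : ∀ n, MeasurableSet (B n) := fun n =>
    measurableSet_le measurable_const (hZ.1.sub_const l).norm
  have hm : Monotone B := fun n m hnm z hz => by
    have h2 : 1 / (n + 1 : ℝ) ≤ ‖Z z - l‖ := hz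
    change 1 / (m + 1 : ℝ) ≤ ‖Z z - l‖
    refine le_trans ?_ h2
    gcongr
  have hBne : ∀ n, ∀ z ∈ B n, Z z ≠ l := fun n z hz h => by
    have h2 : 1 / (n + 1 : ℝ) ≤ ‖Z z - l‖ := hz
    rw [h, sub_self, norm_zero] at h2
    exact absurd h2 (not_le.2 (by positivity))
  have hBex : ∀ z, Z z ≠ l → ∃ n, z ∈ B n := fun z hz => by
    obtain ⟨n, hn⟩ := exists_nat_one_div_lt (norm_pos_iff.2 (sub_ne_zero.2 hz))
    exact ⟨n, hn.le⟩
  have bd : ∀ f : X → ℂ, Measurable f → (∀ z, ‖f z‖ ^ 2 = ‖(Z z - l)⁻¹‖) →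
      (∀ n, BM ((B n).indicator f)) ∧ ∀ z, f z ≠ 0 → ∃ n, z ∈ B n := fun f hf hn =>
    ⟨fun n => BM.indicator_of_bdd hf (hB n) √(n + 1) fun z hz => by
      refine Real.le_sqrt_of_sq_le ?_
      have h2 : 1 / (n + 1 : ℝ) ≤ ‖Z z - l‖ := hz
      rw [hn, norm_inv]
      rw [one_div] at h2
      exact inv_le_of_inv_le₀ (by positivity) h2, fun z hz => hBex z fun h => hz (by
      have := hn z
      rw [h, sub_self, inv_zero, norm_zero] at this
      simpa using this)⟩
  have bg := (bd g hg ng).1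
  have bh := (bd h hh nh).1
  obtain ⟨x', hx'⟩ := exists_lim E hg (x := x) (by
    simp only [ng]
    exact (hl (Sum.inr 0)).2.norm) hB hm bg (bd g hg ng).2
  obtain ⟨y', hy'⟩ := exists_lim E hh (x := y) (by
    simp only [nh]
    exact (hl (Sum.inr 1)).2.norm) hB hm bh (bd h hh nh).2
  have hlim : ∀ f, BM f → Tendsto (fun n => ⟪y, E.Φ (fun z =>
      conj ((B n).indicator h z) * (f z * (B n).indicator g z)) x⟫_ℂ) atTop
      (𝓝 ⟪y', E.Φ f x'⟫_ℂ) := fun f hf => by
    refine (hy'.inner (((E.Φ f).continuous.tendsto _).comp hx')).congr fun n => ?_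
    rw [Function.comp_apply, ← inner_star_right, ← E.map_star (bh n), E.mul_apply hf (bg n),
      E.mul_apply (bh n).star (hf.mul (bg n))]
  have hprod : ∀ (f : X → ℂ) (n : ℕ), (fun z =>
      conj ((B n).indicator h z) * (f z * (B n).indicator g z)) =
      (B n).indicator fun z => f z * (Z z - l)⁻¹ := fun f n => by
    funext z
    by_cases hz : z ∈ B n
    · simp only [Set.indicator_of_mem hz]
      rw [← hgh z (hBne n z hz)]
      ring
    · simp [hz]
  have hmz : MeasurableSet {z | Z z = l} := hZ.1 (measurableSet_singleton l)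
  refine ⟨x', hK.mem_of_tendsto hx' (Eventually.of_forall fun n => hx _ (bg n)), y', ?_, ?_,
    fun k => ?_⟩
  · exact (E.isClosed_null hmz).mem_of_tendsto hx' (Eventually.of_forall fun n =>
      E.null_apply (bg n) (hl (Sum.inr 0)).1)
  · have h2 := hlim _ (BM.const 1)
    rw [E.one] at h2
    have h3 : Tendsto (fun n => ∑ i, c i * ∫ z, (B n).indicator (fun z => (Z z - l)⁻¹) z ∂(ν i))
        atTop (𝓝 (∑ i, c i * ∫ x, (Z x - l)⁻¹ ∂(ν i))) := by
      refine tendsto_finsetSum _ fun i _ => Tendsto.const_mul _ ?_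
      refine tendsto_integral_of_dominated_convergence (fun z => ‖(Z z - l)⁻¹‖)
        (fun n => ((hl i).2.indicator (hB n)).1) (hl i).2.norm
        (fun n => Eventually.of_forall fun z => norm_indicator_le_norm_self _ z)
        (Eventually.of_forall fun z => tendsto_const_nhds.congr' ?_)
      by_cases hz : Z z = l
      · refine Eventually.of_forall fun n => ?_
        by_cases h : z ∈ B n <;> simp [h, hz]
      · obtain ⟨n, hn⟩ := hBex z hz
        filter_upwards [eventually_ge_atTop n] with N hN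
        simp [hm hN hn]
    have h4 := tendsto_nhds_unique h2 (h3.congr fun n => by
      rw [← pol _ ((bh n).star.mul ((BM.const 1).mul (bg n))), hprod (fun _ => 1) n]
      simp only [one_mul])
    intro h5
    exact hne (h4.symm.trans h5)
  · have hf := (hZ.pow k).mul (hZ.sub (BM.const l))
    have h2 := hlim _ hf
    have e : E.Φ (fun z => Z z ^ k * (Z z - l)) x' = (E.Φ Z ^ k) (E.Φ Z x' - l • x') := by
      rw [← E.mul_apply (hZ.pow k) (hZ.sub (BM.const l)), E.map_pow hZ,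
        E.map_sub hZ (BM.const l), E.map_const]
      rfl
    rw [e] at h2
    obtain ⟨C, hC⟩ := (hZ.pow k).2
    have h3 := E.tendsto (l := atTop) (f := fun n => (B n).indicator fun z => Z z ^ k) C
      (Eventually.of_forall fun n => ⟨(hZ.pow k).1.indicator (hB n), fun z =>
        (norm_indicator_le_norm_self _ z).trans (hC z)⟩) (hZ.pow k) (ξ := x) (by
      have : ∀ᵐ z ∂(E.μ x), Z z ≠ l := by
        rw [ae_iff]
        simp only [not_not]
        exact (hl (Sum.inr 0)).1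
      filter_upwards [this] with z hz
      obtain ⟨n, hn⟩ := hBex z hz
      refine tendsto_const_nhds.congr' ?_
      filter_upwards [eventually_ge_atTop n] with N hN
      simp [hm hN hn])
    have h4 := (tendsto_const_nhds (x := y)).inner (𝕜 := ℂ) h3
    rw [E.map_pow hZ, h0] at h4
    refine tendsto_nhds_unique h2 (h4.congr fun n => ?_)
    rw [hprod]
    congr 3
    refine Set.indicator_congr fun z hz => ?_
    have := sub_ne_zero.2 (hBne n z hz)
    field_simp

theorem exists_ev {A : H →L[ℂ] H} (hA : IsStarNormal A) {K : Submodule ℂ H} (h1 : K ∈ Lat A)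
    (h2 : Kᗮ ∈ Lat A) (h3 : ¬ RedOn A K) :
    ∃ G : Set ℂ, MeasurableSet G ∧ volume G ≠ 0 ∧ ∀ l ∈ G, Ev A K l := by
  obtain ⟨X, _, E, Z, hZ, rfl, hc⟩ := exists_setup A hA
  obtain ⟨P, hP⟩ := exists_proj h1.1
  have hPA : Commute P (E.Φ Z) := hP.commute h1.2 h2.2
  unfold RedOn at h3
  push Not at h3
  obtain ⟨M, hM, hMK, hM'⟩ := h3
  have hex : ∃ x ∈ M, ∃ y ∈ Mᗮ, ⟪y, (star (E.Φ Z)) x⟫_ℂ ≠ 0 := by
    by_contra hcon
    push Not at hcon
    exact hM' (orth_mem_Lat' fun x hx => mem_of_orth hM.1 fun w hw => hcon x hx w hw)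
  obtain ⟨x, hx, y, hy, hxy⟩ := hex
  obtain ⟨G, hG, hG0, hGl⟩ := pos_bpe E hZ (x := x) (y := y) h1.1
    (fun f hf => hP.inv_of_commute (hc P hPA f hf) (hMK hx))
    (fun n => mem_orth'.1 hy _ (pow_mem hM.2 hx n)) hxy
  refine ⟨G, hG, hG0, fun l hl => ?_⟩
  obtain ⟨x', hx', y', a1, a2, a3⟩ := hGl l hl
  refine ⟨x', hx', y', a2, mem_orth_cyc.2 a3, fun ξ hξ => ?_⟩
  have hmz : MeasurableSet {z | Z z = l} := hZ.1 (measurableSet_singleton l)
  have b1 : E.Pr {z | Z z = l} x' = 0 := (E.Pr_eq_zero_iff hmz x').2 a1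
  have b2 : E.Pr {z | Z z = l} ξ = ξ := by
    refine (E.Pr_eq_self_iff hmz ξ).2 ?_
    refine E.null_of_apply_eq_zero (hZ.sub (BM.const l)) ?_ fun z hz => sub_ne_zero.2 hz
    rw [E.map_sub hZ (BM.const l), E.map_const]
    change E.Φ Z ξ - l • ξ = 0
    rw [hξ, sub_self]
  rw [← b2, ← inner_star_right, (E.Pr_proj hmz).isSelfAdjoint.star_eq, b1, inner_zero_right]

end Pool.Agent.P.MP_d8da86_an.CR
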