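import Pool.Agent.P.MP_d8da86_an.C.S3
import Pool.Agent.P.MP_d8da86_an.C.S2

/-!
Blocks.
Hints. `exists_blk`: let x, y be as in Ev, N = cyc (A x - l x). Then cyc x = N + ℂ x (closed since
y kills N and not x: ξ - (⟪y, ξ⟫ / ⟪y, x⟫) • x ∈ N for ξ ∈ cyc x). For central K' the vector pr K' x
lies in cyc x and pr K' maps N into N, so φ K' = ⟪y, pr K' x⟫ / ⟪y, x⟫ is multiplicative with values
0, 1. Let F be the family of central K' with φ K' = 1 and K0 its intersection. φ K0 = 1: for K' in F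
⟪y, pr K'ᗮ ξ⟫ = 0 for all ξ ∈ cyc x, that is y0 = pr (cyc x) y lies in K', so y0 ∈ K0. K0 is minimal:
if K' ≤ K0 is central then φ K' = 1 or φ K'ᗮ = 1. pr K0 x gives Ev A K0 l.
`countable_blk`: `exists_ev`, `ev_disj`, `Measure.countable_meas_pos_of_disjoint_iUnion`.
-/

open scoped InnerProductSpace ComplexConjugate

set_option linter.unusedSectionVars false
set_option linter.unusedVariables false

noncomputable section

namespace Pool.Agent.P.MP_d8da86_an.CR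

universe u

variable {H : Type*} [NormedAddCommGroup H] [InnerProductSpace ℂ H] [CompleteSpace H]
  {A : H →L[ℂ] H} {K K₁ K₂ M : Submodule ℂ H} {l : ℂ}

theorem s4_dec {x y : H} (h0 : ⟪y, x⟫_ℂ ≠ 0) (hy : y ∈ (cyc A (A x - l • x))ᗮ) {ξ : H}
    (hξ : ξ ∈ cyc A x) : ∃ n ∈ cyc A (A x - l • x), ∃ d : ℂ, ξ = n + d • x := by
  have hN := cyc_mem_Lat A (A x - l • x)
  let T : H →L[ℂ] H := 1 - (⟪y, x⟫_ℂ)⁻¹ • (innerSL ℂ y).smulRight x
  have hT : ∀ v, T v = v - ((⟪y, x⟫_ℂ)⁻¹ * ⟪y, v⟫_ℂ) • x := fun v => by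
    rw [mul_smul]
    rfl
  have h1 : ∀ n ∈ cyc A (A x - l • x), ∀ d : ℂ, T (n + d • x) = n := fun n hn d => by
    rw [hT, inner_add_right, inner_smul_right, mem_orth'.1 hy n hn, zero_add, mul_comm d,
      inv_mul_cancel_left₀ h0, add_sub_cancel_right]
  have h2 : (cyc A (A x - l • x)).comap (T : H →ₗ[ℂ] H) ∈ Lat A := by
    refine ⟨hN.1.preimage T.continuous, fun v hv => ?_⟩
    have hv' : T v ∈ cyc A (A x - l • x) := hv
    obtain ⟨d, hd⟩ : ∃ d : ℂ, v = T v + d • x := ⟨_, by rw [hT, sub_add_cancel]⟩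
    have h3 := Submodule.add_mem _ (hN.2 _ hv') (Submodule.smul_mem _ d (self_mem_cyc A _))
    have e : A v = A (T v) + d • (A x - l • x) + (d * l) • x := by
      conv_lhs => rw [hd, map_add, map_smul]
      rw [smul_sub, mul_smul, add_assoc, sub_add_cancel]
    change T (A v) ∈ cyc A (A x - l • x)
    rwa [e, h1 _ h3]
  have h4 : T x ∈ cyc A (A x - l • x) := by
    rw [hT, inv_mul_cancel₀ h0, one_smul, sub_self]
    exact Submodule.zero_mem _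
  exact ⟨T ξ, cyc_le h2 h4 hξ, _, by rw [hT, sub_add_cancel]⟩

theorem s4_map (h : Cz A K) (hM : M ∈ Lat A) {ξ : H} (hξ : ξ ∈ M) : pr K ξ ∈ M :=
  (red_iff h.1.1).1 (h.2.2 M hM) ξ hξ

theorem s4_zero {x y : H} (h0 : ⟪y, x⟫_ℂ ≠ 0) (hy : y ∈ (cyc A (A x - l • x))ᗮ) (h : Cz A K)
    (h1 : ⟪y, pr K x⟫_ℂ = 0) : pr (cyc A x) y ∈ Kᗮ := by
  have hC := isProj_pr (cyc_mem_Lat A x).1
  have hP := isProj_pr h.1.1
  obtain ⟨n, hn, d, e⟩ := s4_dec h0 hy (hC.mem y)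
  have h2 : ⟪y, pr K (pr (cyc A x) y)⟫_ℂ = 0 := by
    rw [e, map_add, map_smul, inner_add_right, inner_smul_right, h1, mul_zero, add_zero]
    exact mem_orth'.1 hy _ (s4_map h (cyc_mem_Lat A _) hn)
  rw [← hC.self (s4_map h (cyc_mem_Lat A x) (hC.mem y)), ← hC.symm, ← hP.self (hP.mem _),
    ← hP.symm, inner_self_eq_zero] at h2
  exact hP.orth_of_zero h2

theorem s4_dich {x y : H} (h0 : ⟪y, x⟫_ℂ ≠ 0) (hy : y ∈ (cyc A (A x - l • x))ᗮ) (h : Cz A K) :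
    pr (cyc A x) y ∈ K ∨ pr (cyc A x) y ∈ Kᗮ := by
  by_cases h1 : ⟪y, pr K x⟫_ℂ = 0
  · exact Or.inr (s4_zero h0 hy h h1)
  have hP := isProj_pr h.1.1
  obtain ⟨n, hn, d, e⟩ := s4_dec h0 hy (s4_map h (cyc_mem_Lat A x) (self_mem_cyc A x))
  have h2 : ⟪y, pr K x⟫_ℂ = d * ⟪y, x⟫_ℂ := by
    rw [e, inner_add_right, inner_smul_right, mem_orth'.1 hy n hn, zero_add]
  have h3 : ⟪y, pr K x⟫_ℂ = d * ⟪y, pr K x⟫_ℂ := by
    conv_lhs => rw [← hP.self (hP.mem x), e, map_add, map_smul, inner_add_right, inner_smul_right,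
      mem_orth'.1 hy _ (s4_map h (cyc_mem_Lat A _) hn), zero_add]
  have h4 : d = 1 := (mul_eq_right₀ h1).1 h3.symm
  have h5 := s4_zero h0 hy h.orth (by
    rw [pr_orth h.1.1]
    change ⟪y, x - pr K x⟫_ℂ = 0
    rw [inner_sub_right, h2, h4, one_mul, sub_self])
  rw [orth_orth h.1.1] at h5
  exact Or.inl h5

theorem exists_blk (h : Cz A K) (e : Ev A K l) : ∃ K₀, Blk A K₀ ∧ K₀ ≤ K := by
  obtain ⟨x, hx, y, h0, hy, he⟩ := e
  have hC := isProj_pr (cyc_mem_Lat A x).1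
  obtain ⟨K₀, hK, h1, h2⟩ : ∃ K₀, Cz A K₀ ∧ pr (cyc A x) y ∈ K₀ ∧
      ∀ K', Cz A K' → pr (cyc A x) y ∈ K' → K₀ ≤ K' :=
    ⟨⨅ F : {K' // Cz A K' ∧ pr (cyc A x) y ∈ K'}, F.1, cz_iInf fun F => F.2.1,
      (Submodule.mem_iInf _).2 fun F => F.2.2, fun K' a1 a2 =>
        iInf_le (fun F : {K' // Cz A K' ∧ pr (cyc A x) y ∈ K'} => F.1) ⟨K', a1, a2⟩⟩
  have hP := isProj_pr hK.1.1
  have hc : ∀ v, pr K₀ (A v) = A (pr K₀ v) := fun v => DFunLike.congr_fun hK.commute v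
  refine ⟨K₀, ⟨hK, not_redOn_of_ev (l := l) hK.1 ⟨pr K₀ x, hP.mem x, y, fun h3 => h0 ?_, ?_,
    fun ξ hξ => ?_⟩, fun K' a1 a2 => ?_⟩, h2 K h (cyc_le h.1 hx (hC.mem y))⟩
  · rw [← hC.self (self_mem_cyc A x), ← hC.symm, eq_zero_of_mem_orth h1 (s4_zero h0 hy hK h3),
      inner_zero_left]
  · refine Submodule.orthogonal_le (cyc_le (cyc_mem_Lat A _) ?_) hy
    rw [← hc, ← map_smul, ← map_sub]
    exact s4_map hK (cyc_mem_Lat A _) (self_mem_cyc A _)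
  · rw [← hP.symm]
    exact he _ (by rw [← hc, hξ, map_smul])
  · rcases s4_dich h0 hy a1 with h3 | h3
    · exact Or.inr (le_antisymm a2 (h2 K' a1 h3))
    · exact Or.inl (eq_bot_iff.2 fun v hv => eq_zero_of_mem_orth hv (h2 _ a1.orth h3 (a2 hv)))

theorem Blk.disj (h₁ : Blk A K₁) (h₂ : Blk A K₂) (hne : K₁ ≠ K₂) : K₁ ⊓ K₂ = ⊥ := by
  rcases h₁.2.2 _ (h₁.1.inf h₂.1) inf_le_left with a1 | a1
  · exact a1
  · exact (h₂.2.2 _ (h₁.1.inf h₂.1) inf_le_right).resolve_right fun a2 => hne (a1.symm.trans a2)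

theorem Blk.ne_bot (h : Blk A K) : K ≠ ⊥ := by
  rintro rfl
  refine h.2.1 fun M _ hM => ?_
  rw [le_bot_iff.1 hM, Submodule.bot_orthogonal_eq_top]
  exact top_mem_Lat A

theorem countable_blk (hA : IsStarNormal A) : {K | Blk A K}.Countable := by
  choose G h1 h2 h3 using fun F : {K | Blk A K} => exists_ev hA F.2.1.1 F.2.1.2.1 F.2.2.1
  have h4 := MeasureTheory.Measure.countable_meas_pos_of_disjoint_iUnion
    (μ := MeasureTheory.volume) h1 fun F F' hne => Set.disjoint_left.2 fun l a1 a2 =>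
      ev_disj F.2.1 F'.2.1 (Blk.disj F.2 F'.2 fun e => hne (Subtype.ext e)) (h3 F l a1) (h3 F' l a2)
  exact Set.countable_univ_iff.1 (h4.mono fun F _ => pos_iff_ne_zero.2 (h2 F))

theorem redOn_rest (hA : IsStarNormal A) (h : Cz A K) (h0 : ∀ K₀, Blk A K₀ → K₀ ≤ Kᗮ) :
    RedOn A K := by
  by_contra h1
  obtain ⟨G, -, h2, h3⟩ := exists_ev hA h.1 h.2.1 h1
  obtain ⟨l, hl⟩ := MeasureTheory.nonempty_of_measure_ne_zero h2
  obtain ⟨K₀, a1, a2⟩ := exists_blk h (h3 l hl)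
  exact a1.ne_bot (eq_bot_iff.2 fun v hv => eq_zero_of_mem_orth (a2 hv) (h0 K₀ a1 hv))

end Pool.Agent.P.MP_d8da86_an.CR
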