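import Pool.Agent.P.MP_d8da86_an.C.S3

/-!
Restriction to a reducing subspace, irreducibility of blocks, product decomposition.
Hints. `exists_restrict`: H' = the subtype K = (e a).1, A' the restriction, its adjoint is the
restriction of the adjoint; e' x = comap K.subtype (e x). `irred_of_blk`: let z, z' be the preimages
of (⊤, ⊥) and (⊥, ⊤). Each is the only complement of the other, so by `exists_reducing_compl` for A'
both are reducing, and (e a) ⊓ (e z)ᗮ is a complement of z in the interval, so it is e z'. Every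
x ≤ a is x ⊓ z ⊔ x ⊓ z', so pr (e z) maps e x into itself; for general M use pr (e z) = pr (e z) *
pr (e a) and Red (e a) M. `prod_iso`: x goes to the family of the x ⊓ a j; M ≤ N iff K ⊓ M ≤ N for all
pieces K (a vector orthogonal to N and ... use pr of the pieces); the inverse is the join.
-/

open scoped InnerProductSpace ComplexConjugate

set_option linter.unusedSectionVars false
set_option linter.unusedVariables false

noncomputable section

namespace Pool.Agent.P.MP_d8da86_an.CR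

universe u

theorem s5_orth_iff {H : Type*} [NormedAddCommGroup H] [InnerProductSpace ℂ H]
    [CompleteSpace H] {A : H →L[ℂ] H} {M : Submodule ℂ H} (hM : IsClosed (M : Set H)) :
    Mᗮ ∈ Lat A ↔ ∀ x ∈ M, (star A) x ∈ M :=
  ⟨fun h => (star_mem_of_orth hM h).2, orth_mem_Lat'⟩

theorem s5_uniq {M M₁ M₂ : Type*} [CompleteLattice M] [CompleteLattice M₁] [CompleteLattice M₂]
    (f : M ≃o M₁ × M₂) {y : M} (h1 : f.symm (⊤, ⊥) ⊓ y = ⊥) (h2 : f.symm (⊤, ⊥) ⊔ y = ⊤) :
    y = f.symm (⊥, ⊤) := by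
  have e1 := congrArg (fun x => (f x).1) h1
  have e2 := congrArg (fun x => (f x).2) h2
  simp only [f.map_inf, f.map_sup, f.apply_symm_apply, f.map_bot, f.map_top] at e1 e2
  exact f.eq_symm_apply.2 (Prod.ext (by simpa using e1) (by simpa using e2))

theorem exists_restrict {H : Type u} [NormedAddCommGroup H] [InnerProductSpace ℂ H]
    [CompleteSpace H] {A : H →L[ℂ] H} (hA : IsStarNormal A) {L : Type*} [CompleteLattice L]
    (e : L ≃o Lat A) (a : L) (ha : (e a).1ᗮ ∈ Lat A) :
    ∃ (H' : Type u) (_ : NormedAddCommGroup H') (_ : InnerProductSpace ℂ H')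
      (_ : CompleteSpace H') (A' : H' →L[ℂ] H') (e' : Set.Iic a ≃o Lat A'), IsStarNormal A' ∧
        ∀ x : Set.Iic a, (e' x).1ᗮ ∈ Lat A' ↔ (e x.1).1ᗮ ∈ Lat A := by
  have hK := (e a).2
  have hK' := star_mem_of_orth hK.1 ha
  have : CompleteSpace (e a).1 := hK.1.completeSpace_coe
  let A' : (e a).1 →L[ℂ] (e a).1 := A.restrict hK.2
  have hs : ∀ v : (e a).1, ((star A') v).1 = (star A) v.1 := fun v => by
    have : star A' = (star A).restrict hK'.2 := by
      refine ContinuousLinearMap.ext fun x => ext_inner_left ℂ fun y => ?_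
      rw [inner_star_right]
      exact (inner_star_right A y.1 x.1).symm
    rw [this]
    rfl
  let φ : Set.Iic a → Lat A' := fun x => ⟨(e x.1).1.comap (e a).1.subtype,
    (e x.1).2.1.preimage continuous_subtype_val, fun v hv => (e x.1).2.2 v.1 hv⟩
  have le : ∀ x : Set.Iic a, (e x.1).1 ≤ (e a).1 := fun x => (le_iff_val e).1 x.2
  have h1 : ∀ x y, φ x ≤ φ y ↔ x ≤ y := fun x y =>
    ⟨fun h => (le_iff_val e).2 fun v hv => h (x := ⟨v, le x hv⟩) hv,
      fun h v hv => (le_iff_val e).1 h hv⟩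
  have h2 : Function.Surjective φ := fun M => by
    obtain ⟨x, hx⟩ := exists_val e (M := M.1.map (e a).1.subtype)
      ⟨hK.1.isClosedEmbedding_subtypeVal.isClosedMap _ M.2.1, by
        rintro _ ⟨v, hv, rfl⟩
        exact ⟨A' v, M.2.2 v hv, rfl⟩⟩
    refine ⟨⟨x, (le_iff_val e).2 (hx ▸ Submodule.map_subtype_le _ _)⟩, Subtype.ext ?_⟩
    change (e x).1.comap _ = _
    rw [hx, Submodule.comap_map_eq_of_injective (e a).1.injective_subtype]
  refine ⟨(e a).1, inferInstance, inferInstance, inferInstance, A',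
    RelIso.ofSurjective (OrderEmbedding.ofMapLEIff φ h1) h2,
    ⟨ContinuousLinearMap.ext fun v => Subtype.ext ?_⟩, fun x => ?_⟩
  · change ((star A') (A' v)).1 = A ((star A') v).1
    rw [hs, hs]
    exact DFunLike.congr_fun hA.star_comm_self v.1
  · change (φ x).1ᗮ ∈ _ ↔ _
    rw [s5_orth_iff (φ x).2.1, s5_orth_iff (e x.1).2.1]
    refine ⟨fun h v hv => ?_, fun h v hv => ?_⟩
    · exact hs ⟨v, le x hv⟩ ▸ h ⟨v, le x hv⟩ hv
    · change ((star A') v).1 ∈ (e x.1).1
      rw [hs]
      exact h _ hv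

theorem irred_of_blk {H : Type*} [NormedAddCommGroup H] [InnerProductSpace ℂ H]
    [CompleteSpace H] {A : H →L[ℂ] H} (hA : IsStarNormal A) {L : Type u} [CompleteLattice L]
    (e : L ≃o Lat A) (a : L) (ha : Blk A (e a).1) : Irred (Set.Iic a) := by
  rintro M₁ M₂ _ _ ⟨f⟩
  obtain ⟨⟨hK, hK', hr⟩, -, hb⟩ := ha
  obtain ⟨H', _, _, _, A', e', hA', he⟩ := exists_restrict hA e a hK'
  set z : Set.Iic a := f.symm (⊤, ⊥)
  set z' : Set.Iic a := f.symm (⊥, ⊤)
  have hz := (e z.1).2
  have hP := isProj_pr hz.1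
  have le : (e z.1).1 ≤ (e a).1 := (le_iff_val e).1 z.2
  have h1 : (e z.1).1ᗮ ∈ Lat A := by
    obtain ⟨N, hN, n1, n2, n3⟩ := exists_reducing_compl hA' (e' z').2
    obtain ⟨y, rfl⟩ := exists_val e' hN
    have : y = z := s5_uniq (f.trans OrderIso.prodComm)
      (val_inj e' ((val_inf e' z' y).trans (n2.trans (val_bot e').symm)))
      (val_inj e' ((val_sup e' z' y).trans (n3.trans (val_top e').symm)))
    exact (he z).1 (this ▸ n1)
  have h2 : (e z'.1).1 ≤ (e z.1).1ᗮ := by
    obtain ⟨w, hw⟩ := exists_val e (inf_mem_Lat hK h1)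
    have wa : w ≤ a := (le_iff_val e).2 (hw ▸ inf_le_left)
    have : (⟨w, wa⟩ : Set.Iic a) = z' := by
      refine s5_uniq f (Subtype.ext (val_inj e ?_))
        (Subtype.ext (le_antisymm (sup_le z.2 wa) ((le_iff_val e).2 fun ξ hξ => ?_)))
      · refine (val_inf e z.1 w).trans (Eq.trans ?_ (val_bot e).symm)
        rw [hw, eq_bot_iff]
        exact fun v hv => eq_zero_of_mem_orth hv.1 hv.2.2
      · refine (val_sup e z.1 w).ge (Submodule.le_topologicalClosure _ ?_)
        rw [hw, ← add_sub_cancel (pr (e z.1).1 ξ) ξ]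
        exact Submodule.add_mem_sup (hP.mem ξ) ⟨(e a).1.sub_mem hξ (le (hP.mem ξ)), hP.sub ξ⟩
    rw [← this]
    exact hw ▸ inf_le_right
  have h3 : ∀ x : Set.Iic a, ∀ ξ ∈ (e x.1).1, pr (e z.1).1 ξ ∈ (e x.1).1 := fun x => by
    have e1 : x = x ⊓ z ⊔ x ⊓ z' := f.injective (by simp [z, z', Prod.ext_iff])
    have e2 : x.1 = x.1 ⊓ z.1 ⊔ x.1 ⊓ z'.1 := congrArg Subtype.val e1
    have e3 : (e x.1).1 ≤ (e x.1).1.comap (pr (e z.1).1 : H →ₗ[ℂ] H) := by
      refine (congrArg (fun t => (e t).1) e2).le.trans ?_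
      rw [val_sup, val_inf, val_inf]
      refine clo_le ((e x.1).2.1.preimage (pr (e z.1).1).continuous)
        (sup_le (fun v hv => ?_) fun v hv => ?_)
      · change pr (e z.1).1 v ∈ (e x.1).1
        rw [hP.self hv.2]
        exact hv.1
      · change pr (e z.1).1 v ∈ (e x.1).1
        rw [hP.zero (h2 hv.2)]
        exact (e x.1).1.zero_mem
    exact e3
  have h4 : Cz A (e z.1).1 := by
    refine ⟨hz, h1, fun M hM => (red_iff hz.1).2 fun ξ hξ => ?_⟩
    obtain ⟨x, hx⟩ := exists_val e (inf_mem_Lat hK hM)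
    have h5 := h3 ⟨x, (le_iff_val e).2 (hx ▸ inf_le_left)⟩ (pr (e a).1 ξ)
      (hx.ge ⟨(isProj_pr hK.1).mem ξ, (red_iff hK.1).1 (hr M hM) ξ hξ⟩)
    have h6 : pr (e z.1).1 (pr (e a).1 ξ) = pr (e z.1).1 ξ :=
      DFunLike.congr_fun (pr_mul_of_le hK.1 hz.1 le).2 ξ
    rw [h6] at h5
    exact (hx.le h5).2
  rcases hb _ h4 le with h | h
  · have h5 : z = ⊥ := Subtype.ext (val_inj e (h.trans (val_bot e).symm))
    have h6 := congrArg (fun x => (f x).1) h5
    exact Or.inl (subsingleton_of_bot_eq_top (by simpa [z] using h6.symm))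
  · have h5 : z = ⊤ := Subtype.ext (val_inj e h)
    have h6 := congrArg (fun x => (f x).2) h5
    exact Or.inr (subsingleton_of_bot_eq_top (by simpa [z] using h6))

end Pool.Agent.P.MP_d8da86_an.CR
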