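import Pool.Agent.P.MP_d8da86_an.C.S3

/-!
The product decomposition along central subspaces.
Hints. x goes to (x ⊓ a0, the family of the x ⊓ a j). If ξ ∈ e x and every x ⊓ piece is below y then
pr (piece) ξ ∈ e y; the vector η = ξ - pr (e y) ξ has pr (piece) η = 0 for all pieces (the
projections commute), so η = 0. For surjectivity take the join x of a family x i ≤ a i; pr (e (a k))
maps e (x i) into e (x k) for all i, so it maps the closed span into e (x k).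
-/

open scoped InnerProductSpace ComplexConjugate

set_option linter.unusedSectionVars false
set_option linter.unusedVariables false

noncomputable section

namespace Pool.Agent.P.MP_d8da86_an.CR

universe u

section

variable {H : Type*} [NormedAddCommGroup H] [InnerProductSpace ℂ H]
    [CompleteSpace H] {A : H →L[ℂ] H} {L : Type*} [CompleteLattice L] (e : L ≃o Lat A)

theorem s6_mono {x y : L} (h : x ≤ y) : (e x).1 ≤ (e y).1 := e.le_iff_le.2 h

theorem s6_mem_inf {x y : L} {ξ : H} (hx : ξ ∈ (e x).1) (hy : ξ ∈ (e y).1) :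
    ξ ∈ (e (x ⊓ y)).1 := by
  have h : e.symm ⟨(e x).1 ⊓ (e y).1, inf_mem_Lat (e x).2 (e y).2⟩ ≤ x ⊓ y :=
    le_inf (e.symm_apply_le.2 (show (e x).1 ⊓ (e y).1 ≤ (e x).1 from inf_le_left))
      (e.symm_apply_le.2 (show (e x).1 ⊓ (e y).1 ≤ (e y).1 from inf_le_right))
  have h2 : (e x).1 ⊓ (e y).1 ≤ (e (x ⊓ y)).1 := e.symm_apply_le.1 h
  exact h2 ⟨hx, hy⟩

theorem s6_pr {c x : L} (hc : Cz A (e c).1) {ξ : H} (hx : ξ ∈ (e x).1) :
    pr (e c).1 ξ ∈ (e (x ⊓ c)).1 :=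
  s6_mem_inf e ((red_iff hc.1.1).1 (hc.2.2 _ (e x).2) ξ hx) ((isProj_pr hc.1.1).mem ξ)

theorem s6_le {ι : Type*} {b : ι → L} (hb : ∀ i, Cz A (e (b i)).1)
    (ht : ∀ ξ, (∀ i, ξ ∈ (e (b i)).1ᗮ) → ξ = 0) {x y : L} (h : ∀ i, x ⊓ b i ≤ y) : x ≤ y := by
  refine e.le_iff_le.1 (show (e x).1 ≤ (e y).1 from fun ξ hξ => ?_)
  have hy := (e y).2.1
  refine (pr_eq_self_iff hy).1 (sub_eq_zero.1 (ht _ fun i => ?_))
  refine (isProj_pr (hb i).1.1).orth_of_zero ?_
  have h1 : pr (e (b i)).1 (pr (e y).1 ξ) = pr (e y).1 (pr (e (b i)).1 ξ) :=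
    DFunLike.congr_fun ((red_iff_commute (hb i).1.1 hy).1 ((hb i).2.2 _ (e y).2)) ξ
  rw [map_sub, h1, (pr_eq_self_iff hy).2 (s6_mono e (h i) (s6_pr e (hb i) hξ)), sub_self]

theorem s6_sup {ι : Type*} {x : ι → L} {c y : L} (hc : Cz A (e c).1) (h : ∀ i, x i ⊓ c ≤ y) :
    (⨆ i, x i) ⊓ c ≤ y := by
  have hM : (e y).1.comap (pr (e c).1 : H →ₗ[ℂ] H) ∈ Lat A := by
    refine ⟨(e y).2.1.preimage (pr (e c).1).continuous, fun ξ hξ => ?_⟩
    have h1 : pr (e c).1 (A ξ) = A (pr (e c).1 ξ) := DFunLike.congr_fun hc.commute ξ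
    change pr (e c).1 (A ξ) ∈ (e y).1
    rw [h1]
    exact (e y).2.2 _ hξ
  have h2 : (⨆ i, x i) ≤ e.symm ⟨_, hM⟩ := iSup_le fun i => e.le_symm_apply.2
    (show (e (x i)).1 ≤ (e y).1.comap (pr (e c).1 : H →ₗ[ℂ] H) from fun ξ hξ =>
      s6_mono e (h i) (s6_pr e hc hξ))
  have h3 : (e (⨆ i, x i)).1 ≤ (e y).1.comap (pr (e c).1 : H →ₗ[ℂ] H) := e.le_symm_apply.1 h2
  refine e.le_iff_le.1 (show (e _).1 ≤ (e y).1 from fun ξ hξ => ?_)
  have h4 : pr (e c).1 ξ ∈ (e y).1 := h3 (s6_mono e inf_le_left hξ)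
  rwa [(pr_eq_self_iff hc.1.1).2 (s6_mono e inf_le_right hξ)] at h4

end

theorem prod_iso {H : Type*} [NormedAddCommGroup H] [InnerProductSpace ℂ H]
    [CompleteSpace H] {A : H →L[ℂ] H} {L : Type*} [CompleteLattice L] (e : L ≃o Lat A)
    {J : Type*} (a₀ : L) (a : J → L) (h₀ : Cz A (e a₀).1) (h : ∀ j, Cz A (e (a j)).1)
    (hd : ∀ j k, j ≠ k → a j ⊓ a k = ⊥) (hd₀ : ∀ j, a₀ ⊓ a j = ⊥)
    (ht : ∀ ξ ∈ (e a₀).1ᗮ, (∀ j, ξ ∈ (e (a j)).1ᗮ) → ξ = 0) :
    Nonempty (L ≃o Set.Iic a₀ × ∀ j, Set.Iic (a j)) := by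
  let f : L → Set.Iic a₀ × ∀ j, Set.Iic (a j) := fun x =>
    (⟨x ⊓ a₀, inf_le_right⟩, fun j => ⟨x ⊓ a j, inf_le_right⟩)
  have hf : ∀ x y, f x ≤ f y ↔ x ≤ y := fun x y => by
    refine ⟨fun hxy => ?_, fun hxy => ⟨inf_le_inf_right a₀ hxy, fun j => inf_le_inf_right (a j) hxy⟩⟩
    refine s6_le e (b := fun i : Option J => i.elim a₀ a) (fun i => ?_)
      (fun ξ hξ => ht ξ (hξ none) fun j => hξ (some j)) fun i => ?_
    · cases i with
      | none => exact h₀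
      | some j => exact h j
    · cases i with
      | none => exact (show x ⊓ a₀ ≤ y ⊓ a₀ from hxy.1).trans inf_le_left
      | some j => exact (show x ⊓ a j ≤ y ⊓ a j from hxy.2 j).trans inf_le_left
  refine ⟨RelIso.ofSurjective (OrderEmbedding.ofMapLEIff f hf) fun v => ?_⟩
  let x : Option J → L := fun i => i.elim v.1.1 fun j => (v.2 j).1
  refine ⟨⨆ i, x i, Prod.ext (Subtype.ext (le_antisymm (s6_sup e h₀ fun i => ?_)
    (le_inf (le_iSup x none) v.1.2))) (funext fun k => Subtype.ext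
      (le_antisymm (s6_sup e (h k) fun i => ?_) (le_inf (le_iSup x (some k)) (v.2 k).2)))⟩
  · cases i with
    | none => exact inf_le_left
    | some j =>
      exact (inf_le_inf_right a₀ (v.2 j).2).trans
        (((inf_comm _ _).trans (hd₀ j)).le.trans bot_le)
  · cases i with
    | none => exact (inf_le_inf_right (a k) v.1.2).trans ((hd₀ k).le.trans bot_le)
    | some j =>
      by_cases hjk : j = k
      · subst hjk
        exact inf_le_left
      · exact (inf_le_inf_right (a k) (v.2 j).2).trans ((hd j k hjk).le.trans bot_le)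

end Pool.Agent.P.MP_d8da86_an.CR
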