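import Pool.Agent.P.MP_d8da86_an.C.S7
import Pool.Agent.P.MP_d8da86_an.C.H7

/-!
Countable sums of normal operators.
Hints. Replace T j by an operator in the strip with c = 2⁻¹ ^ j, r = c / 4 (`exists_strip`).
H = lp H 2, A acts coordinatewise (norm ≤ 2), its adjoint too. For n the subspace of the ξ with
ξ j = 0 for j > n is central by `cz_of_sep` with θ = 11 / 16 * 2⁻¹ ^ n, δ = 2⁻¹ ^ n / 16, so the
coordinate projections leave every M ∈ Lat A invariant. M goes to the family of the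
comap (lp.single 2 j) M, the inverse is {ξ | ∀ j, ξ j ∈ M j} (`lp.hasSum_single`).
-/

open scoped InnerProductSpace ComplexConjugate

set_option linter.unusedSectionVars false
set_option linter.unusedVariables false

noncomputable section

namespace Pool.Agent.P.MP_d8da86_an.CR

universe u

section Sum

variable {ι : Type*} [DecidableEq ι] {G : ι → Type*} [∀ i, NormedAddCommGroup (G i)]
  [∀ i, InnerProductSpace ℂ (G i)] [∀ i, CompleteSpace (G i)]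

theorem s8_normal {S : ∀ i, G i →L[ℂ] G i} (hS : ∀ i, IsStarNormal (S i)) (hn : ∀ i, ‖S i‖ ≤ 2) :
    IsStarNormal (lp.mapCLM 2 S zero_le_two hn) := by
  have hn' : ∀ i, ‖star (S i)‖ ≤ 2 := fun i => by
    rw [norm_star]
    exact hn i
  have e : lp.mapCLM 2 (fun i => star (S i)) zero_le_two hn' =
      star (lp.mapCLM 2 S zero_le_two hn) := by
    rw [ContinuousLinearMap.star_eq_adjoint, ContinuousLinearMap.eq_adjoint_iff]
    intro x y
    rw [lp.inner_eq_tsum, lp.inner_eq_tsum]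
    refine tsum_congr fun i => ?_
    exact ContinuousLinearMap.adjoint_inner_left (S i) (y i) (x i)
  refine ⟨?_⟩
  rw [← e]
  refine ContinuousLinearMap.ext fun ξ => lp.ext (funext fun i => ?_)
  exact congrArg (fun X : G i →L[ℂ] G i => X (ξ i)) (hS i).star_comm_self.eq

theorem s8_sum_mem {S : ∀ i, G i →L[ℂ] G i} (hn : ∀ i, ‖S i‖ ≤ 2) {N : ∀ i, Submodule ℂ (G i)}
    (hN : ∀ i, N i ∈ Lat (S i)) : h7_sum N ∈ Lat (lp.mapCLM 2 S zero_le_two hn) :=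
  ⟨h7_closed fun i => (hN i).1, fun ξ hξ i => (hN i).2 _ (hξ i)⟩

theorem s8_comp_mem {S : ∀ i, G i →L[ℂ] G i} (hn : ∀ i, ‖S i‖ ≤ 2) {M : Submodule ℂ (lp G 2)}
    (hM : M ∈ Lat (lp.mapCLM 2 S zero_le_two hn)) (i : ι) : h7_comp M i ∈ Lat (S i) := by
  refine ⟨h7_comp_closed hM.1 i, fun η hη => h7_mem_comp.2 ?_⟩
  have h1 := hM.2 _ (h7_mem_comp.1 hη)
  have e : lp.mapCLM 2 S zero_le_two hn (lp.single 2 i η) = lp.single 2 i (S i η) := by
    refine lp.ext (funext fun j => ?_)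
    change S j ((lp.single 2 i η : lp G 2) j) = _
    by_cases hj : j = i
    · subst hj
      rw [lp.single_apply_self, lp.single_apply_self]
    · rw [lp.single_apply_ne 2 i _ hj, lp.single_apply_ne 2 i _ hj, map_zero]
  rwa [e] at h1

theorem s8_hasSum_re {S : ∀ i, G i →L[ℂ] G i} (hn : ∀ i, ‖S i‖ ≤ 2) (ξ : lp G 2) :
    HasSum (fun i => (⟪ξ i, S i (ξ i)⟫_ℂ).re) (⟪ξ, lp.mapCLM 2 S zero_le_two hn ξ⟫_ℂ).re :=
  Complex.hasSum_re (lp.hasSum_inner ξ (lp.mapCLM 2 S zero_le_two hn ξ))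

theorem s8_hasSum_sq (ξ : lp G 2) : HasSum (fun i => ‖ξ i‖ ^ 2) (‖ξ‖ ^ 2) := by
  have h := lp.hasSum_norm (p := 2) (by norm_num) ξ
  simpa using h

theorem s8_bot (S : ∀ i, G i →L[ℂ] G i) (i : ι) : (⊥ : Submodule ℂ (G i)) ∈ Lat (S i) := by
  refine ⟨by simp, fun x hx => ?_⟩
  rw [Submodule.mem_bot] at hx ⊢
  rw [hx, map_zero]

theorem s8_top (S : ∀ i, G i →L[ℂ] G i) (i : ι) : (⊤ : Submodule ℂ (G i)) ∈ Lat (S i) :=
  ⟨by simp, fun x _ => Submodule.mem_top⟩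

theorem s8_trunc (d : ι → ℕ) {S : ∀ i, G i →L[ℂ] G i} (hS : ∀ i, IsStarNormal (S i))
    (hn : ∀ i, ‖S i‖ ≤ 2)
    (hlo : ∀ i η, 3 / 4 * (2⁻¹ : ℝ) ^ d i * ‖η‖ ^ 2 ≤ (⟪η, S i η⟫_ℂ).re)
    (hup : ∀ i η, (⟪η, S i η⟫_ℂ).re ≤ 5 / 4 * (2⁻¹ : ℝ) ^ d i * ‖η‖ ^ 2)
    {M : Submodule ℂ (lp G 2)} (hM : M ∈ Lat (lp.mapCLM 2 S zero_le_two hn)) {ξ : lp G 2}
    (hξ : ξ ∈ M) (n : ℕ) : ∃ a ∈ M, ∀ i, a i = if d i < n then ξ i else 0 := by
  let N : ∀ i, Submodule ℂ (G i) := fun i => if d i < n then ⊤ else ⊥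
  have hN1 : ∀ i, d i < n → N i = ⊤ := fun i h => if_pos h
  have hN0 : ∀ i, ¬ d i < n → N i = ⊥ := fun i h => if_neg h
  have hN : ∀ i, N i ∈ Lat (S i) := fun i => by
    by_cases h : d i < n
    · rw [hN1 i h]
      exact s8_top S i
    · rw [hN0 i h]
      exact s8_bot S i
  have hN' : ∀ i, (N i)ᗮ ∈ Lat (S i) := fun i => by
    by_cases h : d i < n
    · rw [hN1 i h, Submodule.top_orthogonal_eq_bot]
      exact s8_bot S i
    · rw [hN0 i h, Submodule.bot_orthogonal_eq_top]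
      exact s8_top S i
  have hp : (0 : ℝ) < 2⁻¹ ^ n := by positivity
  have hcz : Cz (lp.mapCLM 2 S zero_le_two hn) (h7_sum N) := by
    refine cz_of_sep (s8_normal hS hn) (s8_sum_mem hn hN) (by rw [h7_orth]; exact s8_sum_mem hn hN')
      (θ := 11 / 8 * 2⁻¹ ^ n) (δ := 1 / 8 * 2⁻¹ ^ n) (by positivity) (fun η hη => ?_)
      (fun η hη => ?_)
    · refine hasSum_le (fun i => ?_) ((s8_hasSum_sq η).mul_left _) (s8_hasSum_re hn η)
      by_cases h : d i < n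
      · refine le_trans (mul_le_mul_of_nonneg_right ?_ (sq_nonneg _)) (hlo i (η i))
        have h1 : (2⁻¹ : ℝ) ^ n ≤ 2⁻¹ ^ (d i + 1) :=
          pow_le_pow_of_le_one (by norm_num) (by norm_num) h
        rw [pow_succ] at h1
        linarith
      · have h1 : η i ∈ N i := hη i
        rw [hN0 i h, Submodule.mem_bot] at h1
        simp [h1]
    · rw [h7_orth] at hη
      refine hasSum_le (fun i => ?_) (s8_hasSum_re hn η) ((s8_hasSum_sq η).mul_left _)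
      by_cases h : d i < n
      · have h1 : η i ∈ (N i)ᗮ := hη i
        rw [hN1 i h, Submodule.top_orthogonal_eq_bot, Submodule.mem_bot] at h1
        simp [h1]
      · refine le_trans (hup i (η i)) (mul_le_mul_of_nonneg_right ?_ (sq_nonneg _))
        have h1 : (2⁻¹ : ℝ) ^ d i ≤ 2⁻¹ ^ n :=
          pow_le_pow_of_le_one (by norm_num) (by norm_num) (not_lt.1 h)
        linarith
  obtain ⟨a, a1, a2, a3⟩ := hcz.2.2 M hM ξ hξ
  rw [h7_orth] at a3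
  refine ⟨a, a1, fun i => ?_⟩
  by_cases h : d i < n
  · have e1 : ξ i - a i ∈ (N i)ᗮ := a3 i
    rw [hN1 i h, Submodule.top_orthogonal_eq_bot, Submodule.mem_bot] at e1
    rw [if_pos h]
    exact (sub_eq_zero.1 e1).symm
  · have e1 : a i ∈ N i := a2 i
    rw [hN0 i h, Submodule.mem_bot] at e1
    rw [if_neg h]
    exact e1

theorem s8_cut {d : ι → ℕ} (hd : Function.Injective d) {S : ∀ i, G i →L[ℂ] G i}
    (hS : ∀ i, IsStarNormal (S i)) (hn : ∀ i, ‖S i‖ ≤ 2)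
    (hlo : ∀ i η, 3 / 4 * (2⁻¹ : ℝ) ^ d i * ‖η‖ ^ 2 ≤ (⟪η, S i η⟫_ℂ).re)
    (hup : ∀ i η, (⟪η, S i η⟫_ℂ).re ≤ 5 / 4 * (2⁻¹ : ℝ) ^ d i * ‖η‖ ^ 2)
    {M : Submodule ℂ (lp G 2)} (hM : M ∈ Lat (lp.mapCLM 2 S zero_le_two hn)) (i : ι)
    (ξ : lp G 2) (hξ : ξ ∈ M) : lp.single 2 i (ξ i) ∈ M := by
  obtain ⟨a, ha, ea⟩ := s8_trunc d hS hn hlo hup hM hξ (d i + 1)
  obtain ⟨b, hb, eb⟩ := s8_trunc d hS hn hlo hup hM hξ (d i)
  have e : lp.single 2 i (ξ i) = a - b := by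
    refine lp.ext (funext fun j => ?_)
    change _ = a j - b j
    rw [ea, eb]
    by_cases hj : j = i
    · subst hj
      rw [lp.single_apply_self, if_pos (Nat.lt_succ_self _), if_neg (lt_irrefl _), sub_zero]
    · rw [lp.single_apply_ne 2 i _ hj]
      have h1 : d j ≠ d i := fun h => hj (hd h)
      by_cases h2 : d j < d i
      · rw [if_pos h2, if_pos (by omega), sub_self]
      · rw [if_neg h2, if_neg (by omega), sub_self]
  rw [e]
  exact M.sub_mem ha hb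

end Sum

theorem exists_lp_sum {J : Set ℕ} (H : J → Type u) [∀ j, NormedAddCommGroup (H j)]
    [∀ j, InnerProductSpace ℂ (H j)] [∀ j, CompleteSpace (H j)] (T : ∀ j, H j →L[ℂ] H j)
    (hT : ∀ j, IsStarNormal (T j)) :
    ∃ (K : Type u) (_ : NormedAddCommGroup K) (_ : InnerProductSpace ℂ K) (_ : CompleteSpace K)
      (A : K →L[ℂ] K), IsStarNormal A ∧ Nonempty (Lat A ≃o ∀ j, Lat (T j)) := by
  classical
  have hex := fun j : J => exists_strip (hT j) (c := (2⁻¹ : ℝ) ^ j.1) (r := (2⁻¹ : ℝ) ^ j.1 / 4)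
    (by positivity)
  choose S hS hL hn0 hb using hex
  have hn : ∀ j, ‖S j‖ ≤ 2 := fun j => by
    have h1 : (2⁻¹ : ℝ) ^ j.1 ≤ 1 := pow_le_one₀ (by norm_num) (by norm_num)
    have h2 := hn0 j
    rw [abs_of_pos (by positivity)] at h2
    linarith
  have hlo : ∀ (j : J) η, 3 / 4 * (2⁻¹ : ℝ) ^ j.1 * ‖η‖ ^ 2 ≤ (⟪η, S j η⟫_ℂ).re := fun j η =>
    le_trans (le_of_eq (by ring)) (hb j η).1
  have hup : ∀ (j : J) η, (⟪η, S j η⟫_ℂ).re ≤ 5 / 4 * (2⁻¹ : ℝ) ^ j.1 * ‖η‖ ^ 2 := fun j η =>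
    le_trans (hb j η).2 (le_of_eq (by ring))
  refine ⟨lp H 2, inferInstance, inferInstance, inferInstance, lp.mapCLM 2 S zero_le_two hn,
    s8_normal hS hn, ?_⟩
  let f : (∀ j, Lat (T j)) → Lat (lp.mapCLM 2 S zero_le_two hn) := fun N =>
    ⟨h7_sum fun j => (N j).1, s8_sum_mem hn fun j => by rw [hL j]; exact (N j).2⟩
  have hf : ∀ N N', f N ≤ f N' ↔ N ≤ N' := fun N N' => h7_le
  have hs : Function.Surjective f := fun M =>
    ⟨fun j => ⟨h7_comp M.1 j, by rw [← hL j]; exact s8_comp_mem hn M.2 j⟩,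
      Subtype.ext (h7_sum_comp M.2.1 (s8_cut Subtype.val_injective hS hn hlo hup M.2))⟩
  exact ⟨(RelIso.ofSurjective (OrderEmbedding.ofMapLEIff f hf) hs).symm⟩

end Pool.Agent.P.MP_d8da86_an.CR
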