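import Pool.Agent.P.MP_d8da86_an.C.S7

/-!
Sums of two normal operators.
Hints. Move T1 into the strip c = 2, r = 1 and T2 into the strip c = -2, r = 1 (`exists_strip`),
K = WithLp 2 (H1 × H2), the first coordinate space is central by `cz_of_sep` with θ = 0, δ = 1.
-/

open scoped InnerProductSpace ComplexConjugate

set_option linter.unusedSectionVars false
set_option linter.unusedVariables false

noncomputable section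

namespace Pool.Agent.P.MP_d8da86_an.CR

universe u

section

variable {H₁ H₂ : Type*} [NormedAddCommGroup H₁] [InnerProductSpace ℂ H₁] [CompleteSpace H₁]
  [NormedAddCommGroup H₂] [InnerProductSpace ℂ H₂] [CompleteSpace H₂]
  {T₁ : H₁ →L[ℂ] H₁} {T₂ : H₂ →L[ℂ] H₂} {M M' : Submodule ℂ H₁} {N N' : Submodule ℂ H₂}

open WithLp

/-- the sum of two operators -/
def s9_op (T₁ : H₁ →L[ℂ] H₁) (T₂ : H₂ →L[ℂ] H₂) :
    WithLp 2 (H₁ × H₂) →L[ℂ] WithLp 2 (H₁ × H₂) :=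
  ((prodContinuousLinearEquiv 2 ℂ H₁ H₂).symm : H₁ × H₂ →L[ℂ] WithLp 2 (H₁ × H₂)) ∘L
    (T₁ ∘L fstL 2 ℂ H₁ H₂).prod (T₂ ∘L sndL 2 ℂ H₁ H₂)

theorem s9_op_apply (x : WithLp 2 (H₁ × H₂)) : s9_op T₁ T₂ x = toLp 2 (T₁ x.fst, T₂ x.snd) := rfl

theorem s9_inner (x y : WithLp 2 (H₁ × H₂)) :
    ⟪x, y⟫_ℂ = ⟪x.fst, y.fst⟫_ℂ + ⟪x.snd, y.snd⟫_ℂ := rfl

theorem s9_ext {x y : WithLp 2 (H₁ × H₂)} (h1 : x.fst = y.fst) (h2 : x.snd = y.snd) : x = y :=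
  congrArg (toLp 2) (Prod.ext h1 h2 : ofLp x = ofLp y)

theorem s9_star : star (s9_op T₁ T₂) = s9_op (star T₁) (star T₂) := by
  ext1 x
  refine ext_inner_left ℂ fun y => ?_
  rw [inner_star_right, s9_inner, s9_inner, s9_op_apply, s9_op_apply]
  simp only [toLp_fst, toLp_snd, inner_star_right]

theorem s9_normal (h₁ : IsStarNormal T₁) (h₂ : IsStarNormal T₂) : IsStarNormal (s9_op T₁ T₂) := by
  refine ⟨?_⟩
  rw [s9_star]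
  ext1 x
  exact s9_ext (DFunLike.congr_fun h₁.star_comm_self.eq x.fst)
    (DFunLike.congr_fun h₂.star_comm_self.eq x.snd)

/-- the sum of two subspaces -/
def s9_sum (M : Submodule ℂ H₁) (N : Submodule ℂ H₂) : Submodule ℂ (WithLp 2 (H₁ × H₂)) :=
  M.comap (fstₗ 2 ℂ H₁ H₂) ⊓ N.comap (sndₗ 2 ℂ H₁ H₂)

theorem s9_mem {x : WithLp 2 (H₁ × H₂)} : x ∈ s9_sum M N ↔ x.fst ∈ M ∧ x.snd ∈ N := Iff.rfl

theorem s9_lat (hM : M ∈ Lat T₁) (hN : N ∈ Lat T₂) : s9_sum M N ∈ Lat (s9_op T₁ T₂) :=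
  ⟨(hM.1.preimage (WithLp.continuous_fst 2 H₁ H₂)).inter
    (hN.1.preimage (WithLp.continuous_snd 2 H₁ H₂)), fun x hx => ⟨hM.2 _ hx.1, hN.2 _ hx.2⟩⟩

theorem s9_le : s9_sum M N ≤ s9_sum M' N' ↔ M ≤ M' ∧ N ≤ N' :=
  ⟨fun h => ⟨fun a ha => (h (x := toLp 2 (a, 0)) ⟨ha, N.zero_mem⟩).1,
    fun b hb => (h (x := toLp 2 (0, b)) ⟨M.zero_mem, hb⟩).2⟩,
    fun h x hx => ⟨h.1 hx.1, h.2 hx.2⟩⟩

theorem s9_orth : (s9_sum (⊤ : Submodule ℂ H₁) (⊥ : Submodule ℂ H₂))ᗮ = s9_sum ⊥ ⊤ := by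
  ext x
  rw [mem_orth, s9_mem]
  constructor
  · intro h
    have h1 := h (toLp 2 (x.fst, 0)) ⟨trivial, rfl⟩
    rw [s9_inner, toLp_fst, toLp_snd, inner_zero_left, add_zero] at h1
    exact ⟨inner_self_eq_zero.1 h1, trivial⟩
  · intro h u hu
    have h1 : x.fst = 0 := h.1
    have h2 : u.snd = 0 := hu.2
    rw [s9_inner, h1, h2, inner_zero_right, inner_zero_left, add_zero]

theorem s9_surj {P : Submodule ℂ (WithLp 2 (H₁ × H₂))} (hP : P ∈ Lat (s9_op T₁ T₂))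
    (hr : Red (s9_sum ⊤ ⊥) P) : ∃ M ∈ Lat T₁, ∃ N ∈ Lat T₂, s9_sum M N = P := by
  let e : H₁ × H₂ →L[ℂ] WithLp 2 (H₁ × H₂) := (prodContinuousLinearEquiv 2 ℂ H₁ H₂).symm
  let i := e ∘L ContinuousLinearMap.inl ℂ H₁ H₂
  let j := e ∘L ContinuousLinearMap.inr ℂ H₁ H₂
  refine ⟨P.comap i.toLinearMap, ⟨hP.1.preimage i.continuous, fun a ha => ?_⟩,
    P.comap j.toLinearMap, ⟨hP.1.preimage j.continuous, fun b hb => ?_⟩, ?_⟩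
  · have e1 : s9_op T₁ T₂ (i a) = i (T₁ a) := s9_ext rfl T₂.map_zero
    exact Submodule.mem_comap.2 (e1 ▸ hP.2 _ ha :)
  · have e1 : s9_op T₁ T₂ (j b) = j (T₂ b) := s9_ext T₁.map_zero rfl
    exact Submodule.mem_comap.2 (e1 ▸ hP.2 _ hb :)
  · ext x
    constructor
    · intro hx
      have e1 : i x.fst + j x.snd = x := s9_ext (add_zero _) (zero_add _)
      exact e1 ▸ P.add_mem hx.1 hx.2
    · intro hx
      obtain ⟨a, a1, a2, a3⟩ := hr x hx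
      rw [s9_orth] at a3
      have h1 : x.fst - a.fst = 0 := a3.1
      have h2 : a.snd = 0 := a2.2
      have e1 : a = i x.fst := s9_ext (sub_eq_zero.1 h1).symm h2
      have e2 : x - a = j x.snd := s9_ext h1 (by rw [sub_snd, h2, sub_zero]; rfl)
      exact ⟨Submodule.mem_comap.2 (e1 ▸ a1 :), Submodule.mem_comap.2 (e2 ▸ P.sub_mem hx a1 :)⟩

theorem s9_cz (h₁ : IsStarNormal T₁) (h₂ : IsStarNormal T₂)
    (b₁ : ∀ ξ, (2 - 1) * ‖ξ‖ ^ 2 ≤ (⟪ξ, T₁ ξ⟫_ℂ).re)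
    (b₂ : ∀ ξ, (⟪ξ, T₂ ξ⟫_ℂ).re ≤ (-2 + 1) * ‖ξ‖ ^ 2) : Cz (s9_op T₁ T₂) (s9_sum ⊤ ⊥) := by
  refine cz_of_sep (s9_normal h₁ h₂) (s9_lat (top_mem_Lat _) (bot_mem_Lat _)) ?_ (θ := 0) one_pos
    (fun ξ hξ => ?_) fun ξ hξ => ?_
  · rw [s9_orth]
    exact s9_lat (bot_mem_Lat _) (top_mem_Lat _)
  · have h : ξ.snd = 0 := hξ.2
    have e : (s9_op T₁ T₂ ξ).fst = T₁ ξ.fst := rfl
    rw [s9_inner, prod_norm_sq_eq_of_L2, h, inner_zero_left, add_zero, norm_zero, e]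
    linarith [b₁ ξ.fst]
  · rw [s9_orth] at hξ
    have h : ξ.fst = 0 := hξ.1
    have e : (s9_op T₁ T₂ ξ).snd = T₂ ξ.snd := rfl
    rw [s9_inner, prod_norm_sq_eq_of_L2, h, inner_zero_left, zero_add, norm_zero, e]
    linarith [b₂ ξ.snd]

end

theorem exists_two_sum {H₁ H₂ : Type u} [NormedAddCommGroup H₁] [InnerProductSpace ℂ H₁]
    [CompleteSpace H₁] [NormedAddCommGroup H₂] [InnerProductSpace ℂ H₂] [CompleteSpace H₂]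
    {T₁ : H₁ →L[ℂ] H₁} {T₂ : H₂ →L[ℂ] H₂} (h₁ : IsStarNormal T₁) (h₂ : IsStarNormal T₂) :
    ∃ (K : Type u) (_ : NormedAddCommGroup K) (_ : InnerProductSpace ℂ K) (_ : CompleteSpace K)
      (A : K →L[ℂ] K), IsStarNormal A ∧ Nonempty (Lat A ≃o Lat T₁ × Lat T₂) := by
  obtain ⟨S₁, n₁, e₁, -, b₁⟩ := exists_strip h₁ (c := 2) one_pos
  obtain ⟨S₂, n₂, e₂, -, b₂⟩ := exists_strip h₂ (c := -2) one_pos
  have hc := s9_cz n₁ n₂ (fun ξ => (b₁ ξ).1) fun ξ => (b₂ ξ).2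
  rw [← e₁, ← e₂]
  refine ⟨WithLp 2 (H₁ × H₂), inferInstance, inferInstance, inferInstance, s9_op S₁ S₂,
    s9_normal n₁ n₂, ⟨OrderIso.symm (RelIso.ofSurjective (OrderEmbedding.ofMapLEIff
      (fun x : Lat S₁ × Lat S₂ => (⟨s9_sum x.1.1 x.2.1, s9_lat x.1.2 x.2.2⟩ : Lat (s9_op S₁ S₂)))
      fun x y => s9_le) ?_)⟩⟩
  rintro ⟨P, hP⟩
  obtain ⟨M, hM, N, hN, e⟩ := s9_surj hP (hc.2.2 P hP)
  exact ⟨(⟨M, hM⟩, ⟨N, hN⟩), Subtype.ext e⟩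

end Pool.Agent.P.MP_d8da86_an.CR
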