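import Pool.Agent.P.MP_d8da86_an.C.Final
import Pool.Agent.P.MP_d8da86_an.C.S4
import Pool.Agent.P.MP_d8da86_an.C.S5
import Pool.Agent.P.MP_d8da86_an.C.S6
import Pool.Agent.P.MP_d8da86_an.C.S8
import Pool.Agent.P.MP_d8da86_an.C.S9

/-!
The structure theorem.
-/

open scoped InnerProductSpace ComplexConjugate

set_option linter.unusedSectionVars false
set_option linter.unusedVariables false

noncomputable section

namespace Pool.Agent.P.MP_d8da86_an.CR

universe u

/-- products of order isomorphisms -/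
def piIso {J : Type*} {α β : J → Type*} [∀ j, LE (α j)] [∀ j, LE (β j)]
    (e : ∀ j, α j ≃o β j) : (∀ j, α j) ≃o ∀ j, β j where
  toEquiv := Equiv.piCongrRight fun j => (e j).toEquiv
  map_rel_iff' := forall_congr' fun j => (e j).map_rel_iff

/-- products of two order isomorphisms -/
def prodIso {α β γ δ : Type*} [LE α] [LE β] [LE γ] [LE δ] (e : α ≃o β) (e' : γ ≃o δ) :
    α × γ ≃o β × δ where
  toEquiv := e.toEquiv.prodCongr e'.toEquiv
  map_rel_iff' := and_congr e.map_rel_iff e'.map_rel_iff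

theorem structure_main {L : Type u} [CompleteLattice L] : Attainable L ↔ Nontrivial L ∧
    ∃ (L₀ : Type u) (_ : CompleteLattice L₀) (J : Set ℕ) (M : J → Type u)
      (_ : ∀ j, CompleteLattice (M j)), Crit L₀ ∧
        (∀ j, Attainable (M j) ∧ Irred (M j) ∧ ¬ RelCompl (M j)) ∧
          Nonempty (L ≃o L₀ × ∀ j, M j) := by
  constructor
  · rintro ⟨H, _, _, _, hH, A, hA, ⟨e⟩⟩
    refine ⟨(nontrivial_iff e).2 hH, ?_⟩
    obtain ⟨n, hn⟩ := Set.countable_iff_exists_injective.1 (countable_blk hA)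
    choose K hK using fun j : Set.range n => j.2
    choose a ha using fun j : Set.range n => exists_val e (K j).2.1.1
    have hb : ∀ j, Blk A (e (a j)).1 := fun j => ha j ▸ (K j).2
    have c0 := (cz_iSup fun j => (hb j).1).orth
    obtain ⟨a₀, h0⟩ := exists_val e c0.1
    rw [← h0] at c0
    have hle : ∀ j, (e (a j)).1 ≤ (e a₀).1ᗮ := fun j => by
      rw [h0]
      exact (le_clo_iSup (fun j => (e (a j)).1) j).trans (Submodule.le_orthogonal_orthogonal _)
    refine ⟨Set.Iic a₀, inferInstance, Set.range n, fun j => Set.Iic (a j), inferInstance, ?_,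
      fun j => ?_, prod_iso e a₀ a c0 (fun j => (hb j).1) (fun j k hjk => val_inj e ?_)
        (fun j => val_inj e ?_) fun ξ h1 h2 => ?_⟩
    · obtain ⟨H', _, _, _, A', e', hA', h1⟩ := exists_restrict hA e a₀ c0.2.1
      have hr : RedOn A (e a₀).1 := redOn_rest hA c0 fun K₀ hK₀ => by
        have := hle ⟨n ⟨K₀, hK₀⟩, Set.mem_range_self _⟩
        have h2 : K ⟨n ⟨K₀, hK₀⟩, Set.mem_range_self _⟩ = ⟨K₀, hK₀⟩ := hn (hK _)
        rw [ha, h2] at this
        exact this
      obtain ⟨B, hB, h2, -⟩ := exists_sa_Lat hA' fun M hM => by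
        obtain ⟨x, rfl⟩ := exists_val e' hM
        exact (h1 x).2 (hr _ (e x.1).2 ((le_iff_val e).1 x.2))
      obtain ⟨o, C⟩ := exists_conc hB (h2 ▸ e')
      exact ⟨o, C.axioms⟩
    · obtain ⟨H', _, _, _, A', e', hA', h1⟩ := exists_restrict hA e (a j) (hb j).1.2.1
      refine ⟨⟨H', _, _, inferInstance, (nontrivial_iff e').1 ⟨⊥, ⊤, fun h => (hb j).ne_bot ?_⟩,
        A', hA', ⟨e'⟩⟩, irred_of_blk hA e (a j) (hb j), fun h => (hb j).2.1 fun M hM hl => ?_⟩
      · have h2 : (⊥ : L) = a j := congrArg Subtype.val h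
        rw [← h2, val_bot]
      · obtain ⟨x, rfl⟩ := exists_val e hM
        exact (h1 ⟨x, (le_iff_val e).2 hl⟩).1 (reductive_of_secLat hA'
          (secLat_of e' fun a b hab => h ⊥ a b bot_le hab) _ (e' _).2)
    · rw [val_inf, val_bot]
      refine (hb j).disj (hb k) fun h => hjk (Subtype.ext ?_)
      rw [ha, ha] at h
      rw [← hK j, ← hK k, Subtype.ext h]
    · rw [val_inf, val_bot, eq_bot_iff]
      exact fun ξ hξ => eq_zero_of_mem_orth hξ.1 (hle j hξ.2)
    · refine eq_zero_of_mem_orth ?_ h1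
      rw [h0]
      exact mem_orth_iSup.2 h2
  · rintro ⟨hL, L₀, _, J, M, _, ⟨o, X⟩, hM, ⟨e⟩⟩
    obtain ⟨H₀, _, _, _, B, hB, ⟨e₀⟩⟩ := X.att
    choose H i1 i2 i3 i4 T hT e₁ using fun j => (hM j).1
    obtain ⟨K, _, _, _, A₁, hA₁, ⟨e₂⟩⟩ := exists_lp_sum H T hT
    obtain ⟨K', _, _, _, A, hA, ⟨e₃⟩⟩ := exists_two_sum hB.isStarNormal hA₁
    have e₄ : L ≃o Lat A :=
      (e.trans (prodIso e₀ ((piIso fun j => (e₁ j).some).trans e₂.symm))).trans e₃.symm
    exact ⟨K', _, _, inferInstance, (nontrivial_iff e₄).1 hL, A, hA, ⟨e₄⟩⟩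

end Pool.Agent.P.MP_d8da86_an.CR
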