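import Pool.Agent.P.MP_d8da86_an.C.R5b

/-!
The Amemiya Araki theorem.
Hints. `aa_dense`: induction on the list. For g :: l let z0 be the join of the supports of the
F g (J y) with J y perp l. By `BMod.glue` there is y0 with J y0 perp l and F g (J y0) = ε z0. Given a
and δ put δ' = δ / (2 * (1 + F g g * f y0 y0)), take y1 from the induction hypothesis and
y = y1 - F g (J y1) • y0; use F g (J y1) = F g (J y1 - a), `cauchy_schwarz`, `form_add_le`.
`aa`: there is y with F a (J y) = F a a (the support of F a a lies in z0 for l = []). Put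
b = J y - a, so a perp b. Choose recursively a n, b n in E with J (a n) perp b, J (b k) (k < n), close
to a, and J (b n) perp a, J (a k) (k ≤ n), close to b. Apply OrthoMod to S = range a and y = u + v.
Then J v perp a, J u perp b (`arch`), and J u - a = b - J v is perpendicular to itself.
-/

open scoped InnerProductSpace ComplexConjugate

set_option linter.unusedSectionVars false
set_option linter.unusedVariables false

noncomputable section

namespace Pool.Agent.P.MP_d8da86_an.CR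

universe u

variable {B : Type*} [CompleteBooleanAlgebra B] {R : Type*} [CommRing R] [StarRing R]
  [PartialOrder R] [IsOrderedRing R] [Algebra ℂ R] {ε : B → R}
  {E : Type*} [AddCommGroup E] [Module R E] {f : E → E → R}
  {K : Type*} [AddCommGroup K] [Module R K] {F : K → K → R}

theorem h0_pivot (hr : Reg ε) (m : BMod ε E) (hF : IsForm F) (J : E →ₗ[R] K) (l : List K)
    (g : K) : ∃ y₀, (∀ g' ∈ l, F g' (J y₀) = 0) ∧
      ∀ y, (∀ g' ∈ l, F g' (J y) = 0) → F g (J y) * F g (J y₀) = F g (J y) := by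
  have hs : ∀ (k : K) (r : R) (y : E), F k (J (r • y)) = r * F k (J y) := fun k r y => by
    rw [map_smul, hF.smul]
  set T : Set B := {z | ∃ y, (∀ g' ∈ l, F g' (J y) = 0) ∧ F g (J y) = ε z} with hT
  obtain ⟨v, S, -, hS, hv, hl⟩ := m.glue hr (sSup T)
    (fun w v => (∀ g' ∈ l, F g' (J v) = 0) ∧ ε w * F g (J v) = ε w) (by
      intro z hz hzT
      by_contra hc
      apply hz
      rw [← inf_of_le_left hzT, inf_sSup_eq, iSup₂_eq_bot]
      rintro t ⟨y, hy, hy'⟩
      by_contra ht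
      exact hc ⟨z ⊓ t, ht, inf_le_left, y, hy, by rw [hy', hr.of_le inf_le_right]⟩)
  have hz : ∀ r : R, (∀ w ∈ S, ε w * r = 0) → ε (sSup T) * r = 0 := fun r h0 => by
    have := hr.bmod.sSup_smul (S := S) (v := r) h0
    rwa [hS] at this
  have hv' : ∀ k : K, ε (sSup T) * F k (J v) = F k (J v) := fun k => by rw [← hs, hv]
  have h1 : F g (J v) = ε (sSup T) := by
    have := hz (F g (J v) - 1) fun w hw => by
      obtain ⟨v', ⟨-, h2⟩, h3⟩ := hl w hw
      rw [mul_sub, ← hs, h3, hs, h2, mul_one, sub_self]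
    rwa [mul_sub, hv', mul_one, sub_eq_zero] at this
  refine ⟨v, fun g' hg' => ?_, fun y hy => ?_⟩
  · rw [← hv']
    refine hz _ fun w hw => ?_
    obtain ⟨v', ⟨h2, -⟩, h3⟩ := hl w hw
    rw [← hs, h3, hs, h2 g' hg', mul_zero]
  · obtain ⟨z, s, h2, h3, -, -⟩ := hr.qinv (F g (J y))
    have hzT : z ≤ sSup T := le_sSup ⟨s • y, fun g' hg' => by rw [hs, hy g' hg', mul_zero],
      by rw [hs, mul_comm, h2]⟩
    rw [h1, ← h3, mul_right_comm, hr.of_le hzT]

theorem aa_dense (h : BC1 ε) (hf : PD ε f) (hF : IsForm F) (hp : ∀ a, 0 ≤ F a a) (J : E →ₗ[R] K)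
    (hJ : ∀ v w, F (J v) (J w) = f v w)
    (hd : ∀ (a : K) (δ : Rˣ), 0 ≤ (δ : R) → ∃ v, F (a - J v) (a - J v) ≤ δ) (l : List K) (a : K)
    (ha : ∀ g ∈ l, F g a = 0) (δ : Rˣ) (hδ : 0 ≤ (δ : R)) :
    ∃ v, (∀ g ∈ l, F g (J v) = 0) ∧ F (a - J v) (a - J v) ≤ δ := by
  induction l generalizing a δ with
  | nil =>
    obtain ⟨v, hv⟩ := hd a δ hδ
    exact ⟨v, by simp, hv⟩
  | cons g l ih =>
    have hb : BC ε := h.toBC
    obtain ⟨y₀, hy₀, hpiv⟩ := h0_pivot hb.toReg hf.bm hF J l g
    have hM : 0 ≤ F g g * F (J y₀) (J y₀) := mul_nonneg (hp _) (hp _)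
    obtain ⟨k, hk⟩ := hb.isUnit_of_le (r := 2 + 2 * (F g g * F (J y₀) (J y₀)))
      (by
        have h2 : (0 : R) ≤ 1 + 2 * (F g g * F (J y₀) (J y₀)) :=
          add_nonneg zero_le_one (mul_nonneg zero_le_two hM)
        calc (1 : R) ≤ 1 + (1 + 2 * (F g g * F (J y₀) (J y₀))) := le_add_of_nonneg_right h2
          _ = _ := by ring)
    have hk0 : 0 ≤ (k : R) := by
      rw [hk]
      exact add_nonneg zero_le_two (mul_nonneg zero_le_two hM)
    have hδ' : 0 ≤ ((δ * k⁻¹ : Rˣ) : R) := by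
      rw [Units.val_mul]
      exact mul_nonneg hδ (hb.inv_nonneg k hk0)
    obtain ⟨y₁, hy₁, hd₁⟩ := ih a (fun g' hg' => ha g' (List.mem_cons_of_mem _ hg')) (δ * k⁻¹) hδ'
    have hc : F g (a - J y₁) = -F g (J y₁) := by
      rw [hF.sub_right, ha g List.mem_cons_self, zero_sub]
    refine ⟨y₁ - F g (J y₁) • y₀, fun g' hg' => ?_, ?_⟩
    · rw [map_sub, map_smul, hF.sub_right, hF.smul]
      rcases List.mem_cons.mp hg' with rfl | hg'
      · rw [hpiv y₁ hy₁, sub_self]
      · rw [hy₁ g' hg', hy₀ g' hg', mul_zero, sub_self]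
    · have he : a - J (y₁ - F g (J y₁) • y₀) = (a - J y₁) + F g (J y₁) • J y₀ := by
        rw [map_sub, map_smul]
        abel
      have h1 := hb.cauchy_schwarz hF hp g (a - J y₁)
      rw [hc, star_neg, neg_mul_neg] at h1
      have h2 : star (F g (J y₁)) * F g (J y₁) ≤ F g g * ((δ * k⁻¹ : Rˣ) : R) :=
        h1.trans (mul_le_mul_of_nonneg_left hd₁ (hp g))
      have h3 := mul_le_mul_of_nonneg_right h2 (hp (J y₀))
      have h4 : F (F g (J y₁) • J y₀) (F g (J y₁) • J y₀)
          = star (F g (J y₁)) * F g (J y₁) * F (J y₀) (J y₀) := by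
        rw [hF.smul_left, hF.smul, mul_assoc]
      rw [he]
      calc _ ≤ _ := hb.form_add_le hF hp _ _
        _ ≤ 2 * ((δ * k⁻¹ : Rˣ) : R)
            + 2 * (F g g * ((δ * k⁻¹ : Rˣ) : R) * F (J y₀) (J y₀)) := by
          rw [h4]
          exact add_le_add (mul_le_mul_of_nonneg_left hd₁ zero_le_two)
            (mul_le_mul_of_nonneg_left h3 zero_le_two)
        _ = ((δ * k⁻¹ : Rˣ) : R) * k := by rw [hk]; ring
        _ = δ := by rw [← Units.val_mul, inv_mul_cancel_right]

end Pool.Agent.P.MP_d8da86_an.CR
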