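import Pool.Agent.P.MP_d8da86_an.C.H0

/-!
The Amemiya Araki theorem.
Hints. `aa_dense`: induction on the list. For g :: l let z0 be the join of the supports of the
F g (J y) with J y perp l. By `BMod.glue` there is y0 with J y0 perp l and F g (J y0) = ε z0. Given a
and δ put δ' = δ / (2 * (1 + F g g * f y0 y0)), take y1 from the induction hypothesis and
y = y1 - F g (J y1) • y0; use F g (J y1) = F g (J y1 - a), `cauchy_schwarz`, `form_add_le`.
`aa`: there is y with F a (J y) = F a a (the support of F a a lies in z0 for l = []). Put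
b = J y - a, so a perp b. Choose recursively a n, b n in E with J (a n) perp b, J (b k) (k < n), close
to a, and J (b n) perp a, J (a k) (k ≤ n), close to b. Apply OrthoMod to S = range a and y = u + v.
Then J v perp a, J u perp b (`arch`), and J u - a = b - J v is perpendicular to itself.
-/

open scoped InnerProductSpace ComplexConjugate

set_option linter.unusedSectionVars false
set_option linter.unusedVariables false

noncomputable section

namespace Pool.Agent.P.MP_d8da86_an.CR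

universe u

variable {B : Type*} [CompleteBooleanAlgebra B] {R : Type*} [CommRing R] [StarRing R]
  [PartialOrder R] [IsOrderedRing R] [Algebra ℂ R] {ε : B → R}
  {E : Type*} [AddCommGroup E] [Module R E] {f : E → E → R}
  {K : Type*} [AddCommGroup K] [Module R K] {F : K → K → R}

/-- a vector of `E` with prescribed product against `a` -/
theorem h0b_exists (h : BC1 ε) (hF : IsForm F) (hp : ∀ a, 0 ≤ F a a) (J : E →ₗ[R] K)
    (hd : ∀ (a : K) (δ : Rˣ), 0 ≤ (δ : R) → ∃ v, F (a - J v) (a - J v) ≤ δ) (a : K) :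
    ∃ y, F a (J y) = F a a := by
  have hb : BC ε := h.toBC
  have hr : Reg ε := hb.toReg
  obtain ⟨z, s, -, -, hzN, -, hsupp⟩ := hb.qinv_nonneg (hp a)
  set N := F a a with hN
  have hN0 : 0 ≤ N := hp a
  set q : R := cR R (1 / 4) with hq
  have hq0 : 0 ≤ q := h.alg_nonneg _ (by norm_num)
  have hq4 : 4 * q = 1 := by
    have h1 : cR R ((4 : ℕ) : ℝ) = ((4 : ℕ) : R) := cR_nat 4
    have h2 : cR R (((4 : ℕ) : ℝ) * (1 / 4)) = cR R ((4 : ℕ) : ℝ) * q := cR_mul _ _
    have h3 : ((4 : ℕ) : ℝ) * (1 / 4) = 1 := by norm_num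
    rw [h3, cR_one, h1] at h2
    rw [h2]
    norm_num
  have hcN : ε zᶜ * N = 0 := (hsupp zᶜ).2 (by simp)
  have hunit : IsUnit (q * N + ε zᶜ) := by
    refine hr.isUnit_of_full fun w hw => ?_
    have h1 : ε w * N = 0 := by
      have h2 : ε w * N = 4 * (ε z * (ε w * (q * N + ε zᶜ))) := by
        have h3 := hr.mul_compl z
        linear_combination (-(ε w * N * ε z)) * hq4 - ε w * hzN - 4 * ε w * h3
      rw [h2, hw, mul_zero, mul_zero]
    have h4 : ε (w ⊓ zᶜ) = 0 := by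
      rw [hr.inf]
      linear_combination hw - q * h1
    have h5 := (hsupp w).1 h1
    have h6 := hr.eq_bot _ h4
    rw [← sup_inf_inf_compl (x := w) (y := z), h5, h6, sup_idem]
  obtain ⟨δ, hδ⟩ := hunit
  have hδ0 : 0 ≤ (δ : R) := by
    rw [hδ]
    exact add_nonneg (mul_nonneg hq0 hN0) (hb.eps_nonneg _)
  obtain ⟨v, hv⟩ := hd a δ hδ0
  have hcs := hb.cauchy_schwarz hF hp a (a - J v)
  have he : F a (a - J v) = N - F a (J v) := hF.sub_right _ _ _
  have hle : star (F a (a - J v)) * F a (a - J v) ≤ q * (N * N) := by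
    refine hcs.trans ((mul_le_mul_of_nonneg_left hv hN0).trans (le_of_eq ?_))
    rw [hδ]
    linear_combination hcN
  obtain ⟨z', s', hs1, -, -, hsupp'⟩ := hr.qinv (F a (J v))
  have hzz : z ≤ z' := by
    have h1 : ε (z ⊓ z'ᶜ) * F a (J v) = 0 := (hsupp' _).2 (by simp [inf_assoc])
    set w := z ⊓ z'ᶜ with hw
    have h2 : ε w * F a (a - J v) = ε w * N := by
      rw [he]
      linear_combination -h1
    have h3 : ε w * star (F a (a - J v)) = ε w * N := by
      have h4 := congrArg star h2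
      rw [star_mul', star_mul', hb.star_ε, hb.star_eq hN0] at h4
      exact h4
    have hi := hr.idem w
    have h5 : ε w * (star (F a (a - J v)) * F a (a - J v)) = ε w * (N * N) := by
      linear_combination (-(star (F a (a - J v)) * F a (a - J v))) * hi +
        (ε w * F a (a - J v)) * h3 + (ε w * N) * h2 + (N * N) * hi
    have h6 := mul_le_mul_of_nonneg_left hle (hb.eps_nonneg w)
    rw [h5] at h6
    have ht0 : 0 ≤ ε w * (N * N) := mul_nonneg (hb.eps_nonneg w) (mul_nonneg hN0 hN0)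
    set t := ε w * (N * N) with ht
    have h7 : 4 * t ≤ t := by
      have h8 := mul_le_mul_of_nonneg_left h6 (show (0 : R) ≤ 4 by norm_num)
      have h9 : 4 * (ε w * (q * (N * N))) = t := by
        rw [ht]
        linear_combination (ε w * (N * N)) * hq4
      rwa [h9] at h8
    have h10 : t ≤ 0 := by
      have h11 : 4 * t - t ≤ 0 := sub_nonpos.2 h7
      have h12 : 4 * t - t = t + (t + t) := by ring
      rw [h12] at h11
      exact (le_add_of_nonneg_right (add_nonneg ht0 ht0)).trans h11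
    have h13 : t = 0 := le_antisymm h10 ht0
    have h14 : ε w * N = 0 := by
      apply hr.eq_zero_of_sq
      rw [ht] at h13
      linear_combination (N * N) * hi + h13
    have h15 := (hsupp w).1 h14
    have h16 : z ⊓ z'ᶜ = ⊥ := by
      rw [← h15, hw, inf_comm (z ⊓ z'ᶜ) z, ← inf_assoc, inf_idem]
    exact disjoint_compl_right_iff.1 (disjoint_iff.2 h16)
  refine ⟨(s' * N) • v, ?_⟩
  rw [map_smul, hF.smul]
  have h17 := hr.of_le hzz
  linear_combination N * hs1 - ε z' * hzN + N * h17 + hzN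

/-- a vector perpendicular to good approximations of `a` is perpendicular to `a` -/
theorem h0b_perp (h : BC1 ε) (hF : IsForm F) (hp : ∀ a, 0 ≤ F a a) (a c : K)
    (hl : ∀ t : ℝ, 0 < t → ∃ x, F x c = 0 ∧ F (a - x) (a - x) ≤ cR R t) : F a c = 0 := by
  have hb : BC ε := h.toBC
  apply hb.eq_zero_of_star
  refine h.arch (s := F c c) (hb.star_mul_nonneg _) fun t ht => ?_
  obtain ⟨x, hx, hxt⟩ := hl t ht
  have h1 : F a c = F (a - x) c := by rw [hF.sub_left, hx, sub_zero]
  rw [h1]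
  exact (hb.cauchy_schwarz hF hp _ _).trans (mul_le_mul_of_nonneg_right hxt (hp c))

/-- the invariant of the recursion -/
def h0b_Inv (F : K → K → R) (J : E →ₗ[R] K) (a b : K) (p : List E × List E) : Prop :=
  (∀ x ∈ p.1, F b (J x) = 0) ∧ (∀ y ∈ p.2, F a (J y) = 0) ∧
    ∀ x ∈ p.1, ∀ y ∈ p.2, F (J x) (J y) = 0

theorem h0b_step (h : BC1 ε) (hf : PD ε f) (hF : IsForm F) (hp : ∀ a, 0 ≤ F a a)
    (J : E →ₗ[R] K) (hJ : ∀ v w, F (J v) (J w) = f v w)
    (hd : ∀ (a : K) (δ : Rˣ), 0 ≤ (δ : R) → ∃ v, F (a - J v) (a - J v) ≤ δ) {a b : K}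
    (hab : F a b = 0) (n : ℕ) (p : {p : List E × List E // h0b_Inv F J a b p}) :
    ∃ p' : {p : List E × List E // h0b_Inv F J a b p}, ∃ x y, p'.1 = (x :: p.1.1, y :: p.1.2) ∧
      F (a - J x) (a - J x) ≤ cR R (1 / ((n : ℝ) + 1)) ∧
      F (b - J y) (b - J y) ≤ cR R (1 / ((n : ℝ) + 1)) := by
  obtain ⟨⟨la, lb⟩, h1, h2, h3⟩ := p
  have hpos : (0 : ℝ) < 1 / ((n : ℝ) + 1) := by positivity
  obtain ⟨δ, hδ⟩ := isUnit_cR (R := R) hpos.ne'
  have hδ0 : 0 ≤ (δ : R) := by
    rw [hδ]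
    exact h.alg_nonneg _ hpos.le
  obtain ⟨x, hx1, hx2⟩ := aa_dense h hf hF hp J hJ hd (b :: lb.map J) a (by
    intro g hg
    rcases List.mem_cons.1 hg with rfl | hg
    · exact hF.zero_symm hab
    · obtain ⟨y, hy, rfl⟩ := List.mem_map.1 hg
      exact hF.zero_symm (h2 y hy)) δ hδ0
  have hxb : F b (J x) = 0 := hx1 b List.mem_cons_self
  have hxl : ∀ y ∈ lb, F (J x) (J y) = 0 := fun y hy =>
    hF.zero_symm (hx1 _ (List.mem_cons_of_mem _ (List.mem_map.2 ⟨y, hy, rfl⟩)))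
  obtain ⟨y, hy1, hy2⟩ := aa_dense h hf hF hp J hJ hd (a :: (x :: la).map J) b (by
    intro g hg
    rcases List.mem_cons.1 hg with rfl | hg
    · exact hab
    · obtain ⟨x', hx', rfl⟩ := List.mem_map.1 hg
      rcases List.mem_cons.1 hx' with rfl | hx'
      · exact hF.zero_symm hxb
      · exact hF.zero_symm (h1 x' hx')) δ hδ0
  refine ⟨⟨(x :: la, y :: lb), ?_, ?_, ?_⟩, x, y, rfl, hδ ▸ hx2, hδ ▸ hy2⟩
  · intro x' hx'
    rcases List.mem_cons.1 hx' with rfl | hx'
    · exact hxb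
    · exact h1 x' hx'
  · intro y' hy'
    rcases List.mem_cons.1 hy' with rfl | hy'
    · exact hy1 a List.mem_cons_self
    · exact h2 y' hy'
  · intro x' hx' y' hy'
    rcases List.mem_cons.1 hy' with rfl | hy''
    · exact hy1 _ (List.mem_cons_of_mem _ (List.mem_map.2 ⟨x', hx', rfl⟩))
    · rcases List.mem_cons.1 hx' with rfl | hx''
      · exact hxl y' hy''
      · exact h3 x' hx'' y' hy''

/-- two mutually perpendicular families which approximate `a` and `b` -/
theorem h0b_sets (h : BC1 ε) (hf : PD ε f) (hF : IsForm F) (hp : ∀ a, 0 ≤ F a a)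
    (J : E →ₗ[R] K) (hJ : ∀ v w, F (J v) (J w) = f v w)
    (hd : ∀ (a : K) (δ : Rˣ), 0 ≤ (δ : R) → ∃ v, F (a - J v) (a - J v) ≤ δ) {a b : K}
    (hab : F a b = 0) : ∃ SA SB : Set E, (∀ x ∈ SA, ∀ y ∈ SB, f x y = 0) ∧
      (∀ t : ℝ, 0 < t → ∃ x ∈ SA, F (a - J x) (a - J x) ≤ cR R t) ∧
      ∀ t : ℝ, 0 < t → ∃ y ∈ SB, F (b - J y) (b - J y) ≤ cR R t := by
  choose st x y hst hx hy using h0b_step h hf hF hp J hJ hd hab
  let p0 : {p : List E × List E // h0b_Inv F J a b p} :=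
    ⟨([], []), by simp, by simp, by simp⟩
  let sq : ℕ → {p : List E × List E // h0b_Inv F J a b p} := fun n =>
    Nat.rec p0 (fun n p => st n p) n
  have hsq : ∀ n, (sq (n + 1)).1 = (x n (sq n) :: (sq n).1.1, y n (sq n) :: (sq n).1.2) :=
    fun n => hst n (sq n)
  have hmono : ∀ m n, m ≤ n → (∀ v ∈ (sq m).1.1, v ∈ (sq n).1.1) ∧
      ∀ v ∈ (sq m).1.2, v ∈ (sq n).1.2 := by
    intro m n hmn
    induction n, hmn using Nat.le_induction with
    | base => exact ⟨fun _ hv => hv, fun _ hv => hv⟩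
    | succ n _ ih =>
      rw [hsq n]
      exact ⟨fun v hv => List.mem_cons_of_mem _ (ih.1 v hv),
        fun v hv => List.mem_cons_of_mem _ (ih.2 v hv)⟩
  refine ⟨{v | ∃ n, v ∈ (sq n).1.1}, {v | ∃ n, v ∈ (sq n).1.2}, ?_, ?_, ?_⟩
  · rintro u ⟨m, hm⟩ v ⟨n, hn⟩
    rw [← hJ]
    exact (sq (max m n)).2.2.2 u ((hmono _ _ (le_max_left m n)).1 u hm) v
      ((hmono _ _ (le_max_right m n)).2 v hn)
  · intro t ht
    obtain ⟨n, hn⟩ := exists_nat_one_div_lt ht
    refine ⟨x n (sq n), ⟨n + 1, ?_⟩, (hx n (sq n)).trans (h.cR_mono hn.le)⟩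
    rw [hsq n]
    exact List.mem_cons_self
  · intro t ht
    obtain ⟨n, hn⟩ := exists_nat_one_div_lt ht
    refine ⟨y n (sq n), ⟨n + 1, ?_⟩, (hy n (sq n)).trans (h.cR_mono hn.le)⟩
    rw [hsq n]
    exact List.mem_cons_self

theorem aa (h : BC1 ε) (hf : PD ε f) (ho : OrthoMod f) (hF : IsForm F) (hp : ∀ a, 0 ≤ F a a)
    (J : E →ₗ[R] K) (hJ : ∀ v w, F (J v) (J w) = f v w)
    (hd : ∀ (a : K) (δ : Rˣ), 0 ≤ (δ : R) → ∃ v, F (a - J v) (a - J v) ≤ δ) (a : K) :
    ∃ u, F (a - J u) (a - J u) = 0 := by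
  obtain ⟨y, hy⟩ := h0b_exists h hF hp J hd a
  have hab : F a (J y - a) = 0 := by rw [hF.sub_right, hy, sub_self]
  obtain ⟨SA, SB, h1, h2, h3⟩ := h0b_sets h hf hF hp J hJ hd hab
  obtain ⟨u, v, huv, hv, hu⟩ := ho SA y
  have hav : F a (J v) = 0 := by
    refine h0b_perp h hF hp a (J v) fun t ht => ?_
    obtain ⟨x, hx, hxt⟩ := h2 t ht
    exact ⟨J x, by rw [hJ]; exact hv x hx, hxt⟩
  have hbu : F (J y - a) (J u) = 0 := by
    refine h0b_perp h hF hp (J y - a) (J u) fun t ht => ?_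
    obtain ⟨x, hx, hxt⟩ := h3 t ht
    exact ⟨J x, by rw [hJ]; exact hu x fun s hs => h1 s hs x hx, hxt⟩
  have hvu : F (J v) (J u) = 0 := by
    rw [hJ]
    exact hu v hv
  refine ⟨u, ?_⟩
  have he : a - J u = J v - (J y - a) := by
    rw [huv, map_add]
    abel
  calc F (a - J u) (a - J u) = F (J v - (J y - a)) (a - J u) := by rw [← he]
    _ = 0 := by
      rw [hF.sub_left, hF.sub_right, hF.sub_right, hF.zero_symm hav, hvu, hF.zero_symm hab, hbu]
      simp

end Pool.Agent.P.MP_d8da86_an.CR
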