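import Pool.Agent.P.MP_d8da86_an.C.H0b

/-!
Completeness for uniform convergence.
Hints. `form_tri` gives f (v k - v n) (v k - v n) ≤ cR (4 / 4 ^ n) for k ≥ n. For y in E the
sequence f (v n) y converges: normalise y (`BC.normalise`), `cauchy_schwarz`, `BC1.lim`; call the
limit φ y; it is characterised by star (φ y - f (v n) y) * (..) ≤ cR (8 / 4 ^ n) * f y y, hence
linear by `arch`. Let γ be the limit of f (v n - v 0) (v n - v 0) (replace v n by v n - v 0 first).
On K = E × R put F (x, r) (y, s) = f x y + s * star (φ x) + star r * φ y + star r * s * γ, the limit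
of f (x + r • v n) (y + s • v n). Density: (x, r) - J (x + r • v n) = r • ((0, 1) - J (v n)) has square
length at most star r * r * cR (C / 4 ^ n); glue over the parts where this is below δ
(`loc_bdd`, `loc_pos`, `BMod.glue`). Apply `aa` to (0, 1).
-/

open scoped InnerProductSpace ComplexConjugate

set_option linter.unusedSectionVars false
set_option linter.unusedVariables false

noncomputable section

namespace Pool.Agent.P.MP_d8da86_an.CR

universe u

variable {B : Type*} [CompleteBooleanAlgebra B] {R : Type*} [CommRing R] [StarRing R]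
  [PartialOrder R] [IsOrderedRing R] [Algebra ℂ R] {ε : B → R}
  {E : Type*} [AddCommGroup E] [Module R E] {f : E → E → R}

/-- geometric convergence of a sequence in `R` -/
def h1_T (a : ℕ → R) (l : R) : Prop :=
  ∃ c : R, ∀ n, star (l - a n) * (l - a n) ≤ cR R (1 / 4 ^ n) * c

theorem h1_cR_nonneg (h : BC1 ε) {t : ℝ} (ht : 0 ≤ t) : 0 ≤ cR R t := h.alg_nonneg t ht

theorem h1_sq_add (h : BC1 ε) (x y : R) :
    star (x + y) * (x + y) ≤ 2 * (star x * x) + 2 * (star y * y) := by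
  have h0 := h.toBC.star_mul_nonneg (x - y)
  rw [← sub_nonneg]
  have e : 2 * (star x * x) + 2 * (star y * y) - star (x + y) * (x + y)
      = star (x - y) * (x - y) := by
    rw [star_add, star_sub]; ring
  rw [e]; exact h0

theorem h1_T_const (c : R) : h1_T (fun _ => c) c := by
  refine ⟨0, fun n => ?_⟩
  simp

theorem h1_T_add (h : BC1 ε) {a b : ℕ → R} {l m : R} (ha : h1_T a l) (hb : h1_T b m) :
    h1_T (fun n => a n + b n) (l + m) := by
  obtain ⟨c, hc⟩ := ha
  obtain ⟨d, hd⟩ := hb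
  refine ⟨2 * c + 2 * d, fun n => ?_⟩
  have e : l + m - (a n + b n) = (l - a n) + (m - b n) := by ring
  have e2 : cR R (1 / 4 ^ n) * (2 * c + 2 * d)
      = 2 * (cR R (1 / 4 ^ n) * c) + 2 * (cR R (1 / 4 ^ n) * d) := by ring
  show star (l + m - (a n + b n)) * (l + m - (a n + b n)) ≤ _
  rw [e, e2]
  refine (h1_sq_add h _ _).trans (add_le_add ?_ ?_)
  · exact mul_le_mul_of_nonneg_left (hc n) zero_le_two
  · exact mul_le_mul_of_nonneg_left (hd n) zero_le_two

theorem h1_T_mul (h : BC1 ε) (r : R) {a : ℕ → R} {l : R} (ha : h1_T a l) :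
    h1_T (fun n => r * a n) (r * l) := by
  obtain ⟨c, hc⟩ := ha
  refine ⟨star r * r * c, fun n => ?_⟩
  have e : star (r * l - r * a n) * (r * l - r * a n)
      = (star r * r) * (star (l - a n) * (l - a n)) := by
    rw [← mul_sub, star_mul']; ring
  have e2 : cR R (1 / 4 ^ n) * (star r * r * c) = (star r * r) * (cR R (1 / 4 ^ n) * c) := by ring
  show star (r * l - r * a n) * (r * l - r * a n) ≤ _
  rw [e, e2]
  exact mul_le_mul_of_nonneg_left (hc n) (h.toBC.star_mul_nonneg r)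

theorem h1_T_star {a : ℕ → R} {l : R} (ha : h1_T a l) :
    h1_T (fun n => star (a n)) (star l) := by
  obtain ⟨c, hc⟩ := ha
  refine ⟨c, fun n => ?_⟩
  have e : star (star l - star (a n)) * (star l - star (a n)) = star (l - a n) * (l - a n) := by
    rw [← star_sub, star_star, mul_comm]
  show star (star l - star (a n)) * (star l - star (a n)) ≤ _
  rw [e]
  exact hc n

theorem h1_T_congr {a b : ℕ → R} {l : R} (ha : h1_T a l) (hab : ∀ n, a n = b n) : h1_T b l := by
  have e : a = b := funext hab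
  rw [← e]; exact ha

theorem h1_small {q t : ℝ} (hq : 1 < q) (ht : 0 < t) (N : ℕ) : ∃ n, N ≤ n ∧ 1 / q ^ n ≤ t := by
  obtain ⟨n, hn⟩ := pow_unbounded_of_one_lt (1 / t) hq
  refine ⟨max N n, le_max_left _ _, ?_⟩
  have h0 : 0 < q := lt_trans one_pos hq
  have h1 : q ^ n ≤ q ^ (max N n) := pow_le_pow_right₀ hq.le (le_max_right _ _)
  rw [div_le_iff₀ (pow_pos h0 _)]
  rw [div_lt_iff₀ ht] at hn
  nlinarith

theorem h1_T_unique (h : BC1 ε) {a : ℕ → R} {l m : R} (ha : h1_T a l) (hb : h1_T a m) :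
    l = m := by
  obtain ⟨c, hc⟩ := h1_T_add h ha (h1_T_mul h (-1) hb)
  have e : ∀ n, l + -1 * m - (a n + -1 * a n) = l - m := fun n => by ring
  simp only [e] at hc
  have hc0 : 0 ≤ c := by
    have h1 := hc 0
    rw [pow_zero, div_one, cR_one, one_mul] at h1
    exact (h.toBC.star_mul_nonneg _).trans h1
  have h0 : star (l - m) * (l - m) = 0 := by
    refine h.arch (s := c) (h.toBC.star_mul_nonneg _) fun t ht => ?_
    obtain ⟨n, -, hn⟩ := h1_small (q := 4) (by norm_num) ht 0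
    exact (hc n).trans (mul_le_mul_of_nonneg_right (h.cR_mono hn) hc0)
  exact sub_eq_zero.mp (h.toBC.eq_zero_of_star h0)

theorem h1_T_nonneg (h : BC1 ε) {a : ℕ → R} {l : R} (ha : h1_T a l) (hs : ∀ n, star (a n) = a n)
    (N : ℕ) (hp : ∀ n, N ≤ n → 0 ≤ a n) : 0 ≤ l := by
  have hl : star l = l := h1_T_unique h (h1_T_congr (h1_T_star ha) hs) ha
  obtain ⟨c, hc⟩ := ha
  have hc0 : 0 ≤ c := by
    have h1 := hc 0
    rw [pow_zero, div_one, cR_one, one_mul] at h1
    exact (h.toBC.star_mul_nonneg _).trans h1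
  obtain ⟨s, hs0, hss⟩ := h.toBC.sqrt hc0
  have key : ∀ n, N ≤ n → -l ≤ cR R (1 / 2 ^ n) * s := by
    intro n hn
    have hq : 0 ≤ cR R (1 / 2 ^ n) * s := mul_nonneg (h1_cR_nonneg h (by positivity)) hs0
    have h1 : a n - l ≤ cR R (1 / 2 ^ n) * s := by
      refine h.toBC.le_of_sq_le (by rw [star_sub, hs, hl]) hq ?_
      have e1 : (a n - l) * (a n - l) = star (l - a n) * (l - a n) := by
        rw [star_sub, hs, hl]; ring
      have e2 : cR R (1 / 2 ^ n) * s * (cR R (1 / 2 ^ n) * s) = cR R (1 / 4 ^ n) * c := by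
        have e3 : (1 / 4 ^ n : ℝ) = 1 / 2 ^ n * (1 / 2 ^ n) := by
          rw [show (4 : ℝ) = 2 * 2 by norm_num, mul_pow]; field_simp
        rw [e3, cR_mul, ← hss]; ring
      rw [e1, e2]
      exact hc n
    have h2 : -l ≤ a n - l := by
      have := hp n hn
      rw [← sub_nonneg]
      have e : a n - l - -l = a n := by ring
      rw [e]; exact this
    exact h2.trans h1
  obtain ⟨z, hz1, hz2⟩ := h.total l hl
  have h0 : ε zᶜ * -l = 0 := by
    refine h.arch (s := s) (by rw [mul_neg]; exact neg_nonneg.mpr hz2) fun t ht => ?_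
    obtain ⟨n, hN, hn⟩ := h1_small (q := 2) (by norm_num) ht N
    have hq : 0 ≤ cR R (1 / 2 ^ n) * s := mul_nonneg (h1_cR_nonneg h (by positivity)) hs0
    calc ε zᶜ * -l ≤ ε zᶜ * (cR R (1 / 2 ^ n) * s) :=
          mul_le_mul_of_nonneg_left (key n hN) (h.toBC.eps_nonneg _)
      _ ≤ cR R (1 / 2 ^ n) * s := h.toBC.eps_mul_le _ hq
      _ ≤ cR R t * s := mul_le_mul_of_nonneg_right (h.cR_mono hn) hs0
  refine h.toBC.nonneg_of_cases hz1 ?_
  rw [mul_neg, neg_eq_zero] at h0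
  exact h0.ge

theorem h1_T_lim (h : BC1 ε) (a : ℕ → R) {C : ℝ} (hC : 0 ≤ C)
    (h1 : ∀ n, star (a (n + 1) - a n) * (a (n + 1) - a n) ≤ cR R (C / 4 ^ n)) :
    ∃ r, h1_T a r := by
  obtain ⟨r, hr⟩ := h.lim a hC h1
  refine ⟨r, cR R (8 * C), fun n => ?_⟩
  rw [← cR_mul]
  have e : (1 / 4 ^ n * (8 * C) : ℝ) = 8 * C / 4 ^ n := by ring
  rw [e]; exact hr n

theorem h1_tail (h : BC1 ε) (hf : PD ε f) (v : ℕ → E)
    (hv : ∀ n, f (v (n + 1) - v n) (v (n + 1) - v n) ≤ cR R (1 / 4 ^ n)) {n k : ℕ} (hk : n ≤ k) :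
    f (v k - v n) (v k - v n) ≤ cR R (9 / 4 ^ n) := by
  have hpos : ∀ k, n ≤ k → (1 / 2 ^ k : ℝ) ≤ 1 / 2 ^ n := fun k hk =>
    one_div_le_one_div_of_le (by positivity) (pow_le_pow_right₀ (by norm_num) hk)
  have key : ∀ k, n ≤ k →
      f (v k - v n) (v k - v n) ≤ cR R ((3 * (1 / 2 ^ n) - 2 * (1 / 2 ^ k)) ^ 2) := by
    intro k hk
    induction k, hk using Nat.le_induction with
    | base =>
      rw [sub_self, hf.toIsForm.zero_right]
      exact h1_cR_nonneg h (by positivity)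
    | succ k hk ih =>
      have e : v (k + 1) - v n = (v k - v n) + (v (k + 1) - v k) := by abel
      have hb : f (v (k + 1) - v k) (v (k + 1) - v k) ≤ cR R ((1 / 2 ^ k) ^ 2) := by
        have e3 : ((1 / 2 ^ k) ^ 2 : ℝ) = 1 / 4 ^ k := by
          rw [show (4 : ℝ) = 2 * 2 by norm_num, mul_pow]; field_simp
        rw [e3]; exact hv k
      have h1 := hpos k hk
      have h2 : (0 : ℝ) < 1 / 2 ^ n := by positivity
      have h3 := h.form_tri hf.toIsForm hf.nonneg (by linarith) (by positivity) ih hb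
      have e4 : (3 * (1 / 2 ^ n) - 2 * (1 / 2 ^ k) + 1 / 2 ^ k : ℝ)
          = 3 * (1 / 2 ^ n) - 2 * (1 / 2 ^ (k + 1)) := by
        rw [pow_succ]; field_simp; ring
      rw [e, ← e4]; exact h3
  refine (key k hk).trans (h.cR_mono ?_)
  have h1 := hpos k hk
  have h2 : (0 : ℝ) < 1 / 2 ^ k := by positivity
  have e3 : (9 / 4 ^ n : ℝ) = (3 * (1 / 2 ^ n)) ^ 2 := by
    rw [show (4 : ℝ) = 2 * 2 by norm_num, mul_pow]; field_simp; norm_num
  rw [e3]
  exact pow_le_pow_left₀ (by linarith) (by linarith) 2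

theorem h1_ex_lin (h : BC1 ε) (hf : PD ε f) (v : ℕ → E)
    (hv : ∀ n, f (v (n + 1) - v n) (v (n + 1) - v n) ≤ cR R (1 / 4 ^ n)) (y : E) :
    ∃ r, h1_T (fun n => f (v n) y) r := by
  obtain ⟨u, z, a, b, h1, -, h3, -⟩ := h.toBC.normalise hf y
  obtain ⟨r, hr⟩ := h1_T_lim h (fun n => f (v n) u) (C := 1) zero_le_one fun n => by
    rw [← hf.toIsForm.sub_left]
    refine (h.toBC.cauchy_schwarz hf.toIsForm hf.nonneg _ _).trans ?_
    rw [h1, mul_comm]
    exact (h.toBC.eps_mul_le z (hf.nonneg _)).trans (hv n)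
  refine ⟨b * r, h1_T_congr (h1_T_mul h b hr) fun n => ?_⟩
  rw [h3, hf.smul]

theorem h1_ex_sq (h : BC1 ε) (hf : PD ε f) (v : ℕ → E)
    (hv : ∀ n, f (v (n + 1) - v n) (v (n + 1) - v n) ≤ cR R (1 / 4 ^ n)) :
    ∃ r, h1_T (fun n => f (v n) (v n)) r := by
  have hb : ∀ k, f (v k - v 0) (v k - v 0) ≤ cR R 9 := fun k => by
    have := h1_tail h hf v hv (Nat.zero_le k)
    rwa [pow_zero, div_one] at this
  have hF := hf.toIsForm
  have hcs : ∀ n k, f (v (n + 1) - v n) (v (n + 1) - v n) * f (v k - v 0) (v k - v 0)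
      ≤ cR R (9 / 4 ^ n) := fun n k => by
    have e : (9 / 4 ^ n : ℝ) = 1 / 4 ^ n * 9 := by ring
    rw [e, cR_mul]
    exact mul_le_mul (hv n) (hb k) (hf.nonneg _) (h1_cR_nonneg h (by positivity))
  obtain ⟨g, hg⟩ := h1_T_lim h (fun n => f (v n - v 0) (v n - v 0)) (C := 36) (by norm_num)
    fun n => by
      have e : f (v (n + 1) - v 0) (v (n + 1) - v 0) - f (v n - v 0) (v n - v 0)
          = f (v (n + 1) - v n) (v (n + 1) - v 0) + f (v n - v 0) (v (n + 1) - v n) := by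
        simp only [hF.sub_left, hF.sub_right]; ring
      rw [e]
      refine (h1_sq_add h _ _).trans ?_
      have h1 := (h.toBC.cauchy_schwarz hF hf.nonneg _ _).trans (hcs n (n + 1))
      have h2 := (h.toBC.cauchy_schwarz hF hf.nonneg (v n - v 0) (v (n + 1) - v n)).trans
        ((mul_comm _ _).le.trans (hcs n n))
      have e2 : cR R (36 / 4 ^ n) = 2 * cR R (9 / 4 ^ n) + 2 * cR R (9 / 4 ^ n) := by
        have e3 : (36 / 4 ^ n : ℝ) = 9 / 4 ^ n + 9 / 4 ^ n + (9 / 4 ^ n + 9 / 4 ^ n) := by ring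
        rw [e3, cR_add, cR_add]; ring
      rw [e2]
      exact add_le_add (mul_le_mul_of_nonneg_left h1 zero_le_two)
        (mul_le_mul_of_nonneg_left h2 zero_le_two)
  obtain ⟨p, hp⟩ := h1_ex_lin h hf v hv (v 0)
  refine ⟨_, h1_T_congr (h1_T_add h (h1_T_add h (h1_T_add h hg hp) (h1_T_star hp))
    (h1_T_const (-f (v 0) (v 0)))) fun n => ?_⟩
  rw [hF.herm]
  simp only [hF.sub_left, hF.sub_right]; ring

theorem h1_ex (h : BC1 ε) (hf : PD ε f) (v : ℕ → E)
    (hv : ∀ n, f (v (n + 1) - v n) (v (n + 1) - v n) ≤ cR R (1 / 4 ^ n)) (a b : E × R) :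
    ∃ r, h1_T (fun n => f (a.1 + a.2 • v n) (b.1 + b.2 • v n)) r := by
  have hF := hf.toIsForm
  obtain ⟨g, hg⟩ := h1_ex_sq h hf v hv
  obtain ⟨p, hp⟩ := h1_ex_lin h hf v hv a.1
  obtain ⟨q, hq⟩ := h1_ex_lin h hf v hv b.1
  refine ⟨_, h1_T_congr (h1_T_add h (h1_T_add h (h1_T_add h (h1_T_const (f a.1 b.1))
    (h1_T_mul h b.2 (h1_T_star hp))) (h1_T_mul h (star a.2) hq))
    (h1_T_mul h (star a.2 * b.2) hg)) fun n => ?_⟩
  rw [hF.herm]
  simp only [hF.add_left, hF.add, hF.smul_left, hF.smul]; ring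

theorem unif_complete (h : BC1 ε) (hf : PD ε f) (ho : OrthoMod f) (v : ℕ → E)
    (hv : ∀ n, f (v (n + 1) - v n) (v (n + 1) - v n) ≤ cR R (1 / 4 ^ n)) :
    ∃ (u : E) (C : ℝ), ∀ n, f (u - v n) (u - v n) ≤ cR R (C / 4 ^ n) := by
  have hf' := hf.toIsForm
  choose F hT using h1_ex h hf v hv
  have hF : IsForm F := by
    refine ⟨fun a b c => ?_, fun r a b => ?_, fun a b => ?_⟩
    · refine h1_T_unique h (hT a (b + c)) (h1_T_congr (h1_T_add h (hT a b) (hT a c)) fun n => ?_)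
      rw [← hf'.add, Prod.fst_add, Prod.snd_add, add_smul]
      congr 1
      abel
    · refine h1_T_unique h (hT a (r • b)) (h1_T_congr (h1_T_mul h r (hT a b)) fun n => ?_)
      rw [← hf'.smul, Prod.smul_fst, Prod.smul_snd, smul_add, smul_smul, smul_eq_mul]
    · refine h1_T_unique h (h1_T_congr (h1_T_star (hT a b)) fun n => ?_) (hT b a)
      rw [hf'.herm]
  have hp : ∀ a, 0 ≤ F a a := fun a =>
    h1_T_nonneg h (hT a a) (fun n => hf'.herm _ _) 0 fun n _ => hf.nonneg _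
  have hJ : ∀ x y, F (LinearMap.inl R E R x) (LinearMap.inl R E R y) = f x y := fun x y => by
    refine h1_T_unique h (hT _ _) (h1_T_congr (h1_T_const (f x y)) fun n => ?_)
    simp
  have hclose : ∀ n, F (((0 : E), (1 : R)) - LinearMap.inl R E R (v n))
      (((0 : E), (1 : R)) - LinearMap.inl R E R (v n)) ≤ cR R (9 / 4 ^ n) := fun n => by
    have h1 : h1_T (fun k => f (v k - v n) (v k - v n))
        (F (((0 : E), (1 : R)) - LinearMap.inl R E R (v n))
          (((0 : E), (1 : R)) - LinearMap.inl R E R (v n))) := by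
      refine h1_T_congr (hT _ _) fun k => ?_
      have e : (((0 : E), (1 : R)) - LinearMap.inl R E R (v n)).1
          + (((0 : E), (1 : R)) - LinearMap.inl R E R (v n)).2 • v k = v k - v n := by
        simp [sub_eq_neg_add]
      rw [e]
    have h2 := h1_T_nonneg h (h1_T_add h (h1_T_const (cR R (9 / 4 ^ n))) (h1_T_mul h (-1) h1))
      (fun k => by
        rw [neg_one_mul, star_add, star_neg, h.star_cR, hf'.herm]) n fun k hk => by
        rw [neg_one_mul, ← sub_eq_add_neg, sub_nonneg]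
        exact h1_tail h hf v hv hk
    rwa [neg_one_mul, ← sub_eq_add_neg, sub_nonneg] at h2
  have hloc : ∀ (w : B) (b : E × R), ε w * F b b = F (ε w • b) (ε w • b) := fun w b => by
    rw [hF.smul_left, hF.smul, h.star_ε, ← mul_assoc, h.toReg.idem]
  have hd : ∀ (a : E × R) (δ : Rˣ), 0 ≤ (δ : R) →
      ∃ y, F (a - LinearMap.inl R E R y) (a - LinearMap.inl R E R y) ≤ δ := by
    intro a δ hδ
    obtain ⟨y, S, -, hS, -, hy⟩ := hf.bm.glue h.toReg ⊤
      (fun w y => ε w * F (a - LinearMap.inl R E R y) (a - LinearMap.inl R E R y) ≤ ε w * δ)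
      fun z hz _ => by
        have hr0 := h.toBC.star_mul_nonneg a.2
        obtain ⟨w₁, hw₁, hw₁z, t₁, ht₁, hb₁⟩ := h.loc_bdd (h.toBC.star_eq hr0) hz
        obtain ⟨w₂, hw₂, hw₂₁, t₂, ht₂, hb₂⟩ := h.loc_pos δ hδ hw₁
        obtain ⟨n, -, hn⟩ := h1_small (q := 4) (by norm_num) (t := t₂ / (9 * t₁))
          (by positivity) 0
        refine ⟨w₂, hw₂, hw₂₁.trans hw₁z, a.1 + a.2 • v n, ?_⟩
        have e : a - LinearMap.inl R E R (a.1 + a.2 • v n)
            = a.2 • (((0 : E), (1 : R)) - LinearMap.inl R E R (v n)) := by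
          ext <;> simp
        have hn' : t₁ * (9 / 4 ^ n) ≤ t₂ := by
          rw [le_div_iff₀ (by positivity)] at hn
          calc t₁ * (9 / 4 ^ n) = 1 / 4 ^ n * (9 * t₁) := by ring
            _ ≤ t₂ := hn
        rw [e, hF.smul_left, hF.smul]
        have e2 : ∀ x : R, ε w₂ * (star a.2 * (a.2 * x))
            = ε w₂ * ((ε w₁ * (star a.2 * a.2)) * x) := fun x => by
          rw [← h.toReg.of_le hw₂₁]
          have := h.toReg.idem w₁
          linear_combination (-(ε w₂ * star a.2 * a.2 * x)) * this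
        rw [e2]
        refine le_trans (mul_le_mul_of_nonneg_left ?_ (h.toBC.eps_nonneg _)) hb₂
        refine le_trans ?_ (h.cR_mono hn')
        rw [cR_mul]
        exact mul_le_mul hb₁ (hclose n) (hp _) (h1_cR_nonneg h ht₁.le)
    refine ⟨y, h.toBC.le_of_part hS fun w hw => ?_⟩
    obtain ⟨y', h1, h2⟩ := hy w hw
    have e : ε w • (a - LinearMap.inl R E R y) = ε w • (a - LinearMap.inl R E R y') := by
      rw [smul_sub, smul_sub, ← map_smul, ← map_smul, h2]
    rw [hloc, e, ← hloc]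
    exact h1
  obtain ⟨u, hu⟩ := aa h hf ho hF hp (LinearMap.inl R E R) hJ hd ((0 : E), (1 : R))
  refine ⟨u, 18, fun n => ?_⟩
  have e : LinearMap.inl R E R (u - v n) = (((0 : E), (1 : R)) - LinearMap.inl R E R (v n))
      + -(((0 : E), (1 : R)) - LinearMap.inl R E R u) := by
    rw [map_sub]; abel
  rw [← hJ, e]
  refine (h.toBC.form_add_le hF hp _ _).trans ?_
  rw [hF.neg_left, hF.neg_right, neg_neg, hu, mul_zero, add_zero]
  have e2 : cR R (18 / 4 ^ n) = 2 * cR R (9 / 4 ^ n) := by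
    have e3 : (18 / 4 ^ n : ℝ) = 9 / 4 ^ n + 9 / 4 ^ n := by ring
    rw [e3, cR_add]; ring
  rw [e2]
  exact mul_le_mul_of_nonneg_left (hclose n) zero_le_two

end Pool.Agent.P.MP_d8da86_an.CR
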