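import Pool.Agent.P.MP_d8da86_an.C.H1
import Pool.Agent.P.MP_d8da86_an.C.R6b

/-!
Every square integrable vector is bounded off a small part.
Hints. `approx`: choose bounded v n with ‖ξ - J (v n)‖ ≤ η0 / 8 ^ n-type bounds, so that
(m (f d d)).re ≤ c / 8 ^ n for d = v (n + 1) - v n; `IsInt.cheb` with t = 1 / 4 ^ n gives z n with
μ (z n)ᶜ ≤ c / 2 ^ n. For N let w = ⨅ k, z (N + k); μ wᶜ ≤ 2 c / 2 ^ N by `BMeas.iSup_le`. Apply
`unif_complete` to k ↦ ε w • v (N + k); the limit u is bounded and J u = π w ξ. Finally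
‖ξ - π w ξ‖ = ‖π wᶜ ξ‖ ≤ ‖ξ - J (v n)‖ + ‖J (ε wᶜ • v n)‖ and `IsInt.le`.
-/

open scoped InnerProductSpace ComplexConjugate

set_option linter.unusedSectionVars false
set_option linter.unusedVariables false

noncomputable section

namespace Pool.Agent.P.MP_d8da86_an.CR

universe u

variable {B : Type*} [CompleteBooleanAlgebra B] {R : Type*} [CommRing R] [StarRing R]
  [PartialOrder R] [IsOrderedRing R] [Algebra ℂ R] {ε : B → R}
  {E : Type*} [AddCommGroup E] [Module R E] {f : E → E → R} {μ : B → ℝ} {m : R →ₗ[ℂ] ℂ}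
  {H : Type*} [NormedAddCommGroup H] [InnerProductSpace ℂ H] [CompleteSpace H]
  {J : E → H} {π : B → H →L[ℂ] H}

theorem h3_bd (h : BC1 ε) (hf : PD ε f) (z : B) {v : E} (hv : Bd f v) : Bd f (ε z • v) :=
  h.bd_smul hf.toIsForm hf.nonneg (h.bdR_eps z) hv

theorem h3_form (h : BC1 ε) (hf : PD ε f) (z : B) (v : E) :
    f (ε z • v) (ε z • v) = ε z * f v v := by
  rw [hf.toIsForm.smul_left, hf.smul, h.star_ε, ← mul_assoc, h.toReg.idem]

theorem h3_geo (c : ℝ) : Filter.Tendsto (fun n : ℕ => c / 4 ^ n) Filter.atTop (nhds 0) :=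
  Filter.Tendsto.const_div_atTop (tendsto_pow_atTop_atTop_of_one_lt (by norm_num)) c

theorem h3_sum (n : ℕ) : ∑ k ∈ Finset.range n, (1 / 4 ^ k : ℝ) ≤ 2 := by
  refine le_trans (Finset.sum_le_sum fun k _ => ?_) (sum_geometric_two_le n)
  rw [one_div_pow]
  exact one_div_le_one_div_of_le (by positivity) (pow_le_pow_left₀ (by norm_num) (by norm_num) k)

namespace HR

theorem zero (S : HR ε f m J π) (h : BC1 ε) (hf : PD ε f) : J 0 = 0 := by
  have h0 := S.add 0 0 (h.bd_zero hf.toIsForm) (h.bd_zero hf.toIsForm)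
  rw [add_zero] at h0
  exact left_eq_add.1 h0

theorem sub (S : HR ε f m J π) (h : BC1 ε) (hf : PD ε f) {v w : E} (hv : Bd f v) (hw : Bd f w) :
    J (v - w) = J v - J w := by
  have h0 := S.add (v - w) w (h.bd_sub hf.toIsForm hf.nonneg hv hw) hw
  rw [sub_add_cancel] at h0
  rw [h0, add_sub_cancel_right]

theorem norm_sq (S : HR ε f m J π) {v : E} (hv : Bd f v) : ‖J v‖ ^ 2 = (m (f v v)).re := by
  rw [← S.inner v v hv hv, ← inner_self_eq_norm_sq (𝕜 := ℂ)]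
  rfl

theorem symm (S : HR ε f m J π) (h : BC1 ε) (hf : PD ε f) (z : B) (ξ η : H) :
    ⟪π z ξ, η⟫_ℂ = ⟪ξ, π z η⟫_ℂ := by
  refine S.dense.induction (P := fun ξ => ⟪π z ξ, η⟫_ℂ = ⟪ξ, π z η⟫_ℂ) ?_
    (isClosed_eq (by fun_prop) (by fun_prop)) ξ
  rintro _ ⟨v, hv, rfl⟩
  refine S.dense.induction (P := fun η => ⟪π z (J v), η⟫_ℂ = ⟪J v, π z η⟫_ℂ) ?_
    (isClosed_eq (by fun_prop) (by fun_prop)) η
  rintro _ ⟨w, hw, rfl⟩
  rw [S.proj z v hv, S.proj z w hw, S.inner _ _ (h3_bd h hf z hv) hw,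
    S.inner _ _ hv (h3_bd h hf z hw), hf.toIsForm.smul_left, hf.smul, h.star_ε]

theorem idem (S : HR ε f m J π) (h : BC1 ε) (hf : PD ε f) (z : B) (ξ : H) :
    π z (π z ξ) = π z ξ := by
  refine S.dense.induction (P := fun ξ => π z (π z ξ) = π z ξ) ?_
    (isClosed_eq (by fun_prop) (by fun_prop)) ξ
  rintro _ ⟨v, hv, rfl⟩
  rw [S.proj z v hv, S.proj z _ (h3_bd h hf z hv), h.toReg.smul_smul_of_le le_rfl]

theorem add_compl (S : HR ε f m J π) (h : BC1 ε) (hf : PD ε f) (z : B) (ξ : H) :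
    π z ξ + π zᶜ ξ = ξ := by
  refine S.dense.induction (P := fun ξ => π z ξ + π zᶜ ξ = ξ) ?_
    (isClosed_eq (by fun_prop) (by fun_prop)) ξ
  rintro _ ⟨v, hv, rfl⟩
  rw [S.proj z v hv, S.proj zᶜ v hv, ← S.add _ _ (h3_bd h hf z hv) (h3_bd h hf zᶜ hv),
    h.toReg.smul_add_compl]

theorem norm_le (S : HR ε f m J π) (h : BC1 ε) (hf : PD ε f) (z : B) (ξ : H) :
    ‖π z ξ‖ ≤ ‖ξ‖ := by
  have h1 : ‖π z ξ‖ ^ 2 ≤ ‖ξ‖ * ‖π z ξ‖ := by
    rw [← inner_self_eq_norm_sq (𝕜 := ℂ), S.symm h hf, S.idem h hf]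
    exact re_inner_le_norm _ _
  by_contra hc
  have h2 := not_le.1 hc
  nlinarith [norm_nonneg ξ]

theorem approx (S : HR ε f m J π) (h : BC1 ε) (hf : PD ε f) (ho : OrthoMod f) (hμ : BMeas μ)
    (hm : IsInt ε μ m) (ξ : H) {η : ℝ} (hη : 0 < η) :
    ∃ z v, Bd f v ∧ π z ξ = J v ∧ ‖ξ - π z ξ‖ ≤ η := by
  have hd : ∀ a : ℝ, 0 < a → ∃ v, Bd f v ∧ ‖ξ - J v‖ < a := fun a ha => by
    obtain ⟨_, ⟨v, hv, rfl⟩, h1⟩ := Metric.mem_closure_iff.1 (S.dense ξ) a ha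
    exact ⟨v, hv, by rwa [dist_eq_norm] at h1⟩
  obtain ⟨v0, ⟨t, ht⟩, hv0⟩ := hd (η / 2) (by positivity)
  obtain ⟨δ, hδ, hδt⟩ : ∃ δ : ℝ, 0 < δ ∧ |t| * (8 * δ ^ 2) ≤ (η / 2) ^ 2 := by
    have h0 := abs_nonneg t
    refine ⟨η / (6 * (|t| + 1)), by positivity, ?_⟩
    rw [div_pow, ← mul_div_assoc, ← mul_div_assoc, div_le_iff₀ (by positivity)]
    nlinarith [mul_nonneg (sq_nonneg η) h0, mul_nonneg (sq_nonneg η) (sq_nonneg |t|), sq_nonneg η]
  choose v hv hvξ using fun n : ℕ => hd (δ / 4 ^ n) (by positivity)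
  have hb : ∀ n, Bd f (v (n + 1) - v n) := fun n => h.bd_sub hf.toIsForm hf.nonneg (hv _) (hv _)
  have hz : ∀ n : ℕ, ∃ z, ε z * f (v (n + 1) - v n) (v (n + 1) - v n) ≤ cR R (1 / 4 ^ n) ∧
      μ zᶜ ≤ 4 * δ ^ 2 * (1 / 4 ^ n) := fun n => by
    have hp : (0 : ℝ) < 4 ^ n := by positivity
    obtain ⟨z, h1, h2⟩ := hm.cheb h (h.bdR_form hf.toIsForm hf.nonneg (hb n) (hb n))
      (hf.nonneg _) (t := 1 / 4 ^ n) (by positivity)
    refine ⟨z, h1, ?_⟩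
    rw [← S.norm_sq (hb n), S.sub h hf (hv _) (hv _)] at h2
    have h3 : ‖J (v (n + 1)) - J (v n)‖ ≤ 2 * (δ / 4 ^ n) := by
      have h4 : δ / 4 ^ (n + 1) ≤ δ / 4 ^ n :=
        div_le_div_of_nonneg_left hδ.le hp (pow_le_pow_right₀ (by norm_num) n.le_succ)
      have h5 := norm_sub_le (ξ - J (v n)) (ξ - J (v (n + 1)))
      rw [sub_sub_sub_cancel_left] at h5
      linarith [hvξ n, hvξ (n + 1)]
    have h4 := h2.trans (pow_le_pow_left₀ (norm_nonneg _) h3 2)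
    refine le_of_mul_le_mul_left (h4.trans (le_of_eq ?_)) (by positivity : (0 : ℝ) < 1 / 4 ^ n)
    ring
  choose z hz1 hz2 using hz
  have hw : μ (⨅ k, z k)ᶜ ≤ 8 * δ ^ 2 := by
    rw [compl_iInf]
    refine hμ.iSup_le _ fun n => (Finset.sum_le_sum fun k _ => hz2 k).trans ?_
    rw [← Finset.mul_sum]
    nlinarith [mul_le_mul_of_nonneg_left (h3_sum n) (sq_nonneg δ)]
  have hwz : ∀ k, ⨅ k, z k ≤ z k := fun k => iInf_le _ k
  generalize ⨅ k, z k = w at hw hwz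
  obtain ⟨u, C, hu⟩ := unif_complete h hf ho (fun n => ε w • v n) fun n => by
    rw [← smul_sub, h3_form h hf, ← h.toReg.of_le (hwz n), mul_assoc]
    exact (h.toBC.eps_mul_le w (mul_nonneg (h.toBC.eps_nonneg _) (hf.nonneg _))).trans (hz1 n)
  have hub : Bd f u := by
    have := h.bd_add hf.toIsForm hf.nonneg ⟨_, hu 0⟩ (h3_bd h hf w (hv 0))
    rwa [sub_add_cancel] at this
  have l1 : Filter.Tendsto (fun n => π w (J (v n))) Filter.atTop (nhds (π w ξ)) := by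
    refine ((π w).continuous.tendsto ξ).comp (tendsto_iff_norm_sub_tendsto_zero.2 ?_)
    exact squeeze_zero (fun n => norm_nonneg _)
      (fun n => by rw [norm_sub_rev]; exact (hvξ n).le) (h3_geo δ)
  have l2 : Filter.Tendsto (fun n => π w (J (v n))) Filter.atTop (nhds (J u)) := by
    have h1 := (Real.continuous_sqrt.tendsto 0).comp (h3_geo (C * μ ⊤))
    rw [Real.sqrt_zero] at h1
    refine tendsto_iff_norm_sub_tendsto_zero.2 (squeeze_zero (fun n => norm_nonneg _)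
      (fun n => Real.le_sqrt_of_sq_le ?_) h1)
    have h2 := hm.le h (hf.nonneg _) (hu n) ⊤
    rw [h.top, one_mul, ← S.norm_sq ⟨_, hu n⟩, S.sub h hf hub (h3_bd h hf w (hv n)),
      ← S.proj w _ (hv n), norm_sub_rev] at h2
    exact h2.trans (le_of_eq (by ring))
  refine ⟨w, u, hub, tendsto_nhds_unique l1 l2, ?_⟩
  have e1 : ξ - π w ξ = π wᶜ (ξ - J v0) + π wᶜ (J v0) := by
    rw [← map_add, sub_add_cancel, sub_eq_iff_eq_add', S.add_compl h hf]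
  have e2 : ‖π wᶜ (J v0)‖ ≤ η / 2 := by
    refine (pow_le_pow_iff_left₀ (norm_nonneg _) (by positivity) two_ne_zero).1 ?_
    rw [S.proj _ _ ⟨t, ht⟩, S.norm_sq (h3_bd h hf _ ⟨t, ht⟩), h3_form h hf]
    refine (hm.le h (hf.nonneg _) (ht.trans (h.cR_mono (le_abs_self t))) wᶜ).trans ?_
    exact (mul_le_mul_of_nonneg_left hw (abs_nonneg t)).trans hδt
  rw [e1]
  linarith [norm_add_le (π wᶜ (ξ - J v0)) (π wᶜ (J v0)), S.norm_le h hf wᶜ (ξ - J v0)]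

end HR

end Pool.Agent.P.MP_d8da86_an.CR
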