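import Pool.Agent.P.MP_d8da86_an.C.O2b

/-!
From representations to operators, and gluing of representations.
Hints. `red_iff`: Red N M says pr N maps M into M, that is pr N commutes with pr M; it is symmetric.
`lat_tsum`: A = ∑ 4⁻¹ ^ n • P n. If Q commutes with A then D = P 0 * Q * (1 - P 0) satisfies
A * D = D * A, ‖A y‖ ≥ 2 / 3 * ‖y‖ on the range of P 0 and ‖A y‖ ≤ ‖y‖ / 3 on its kernel, so
‖D‖ ≤ ‖D‖ / 2; the same for star Q. Then induct with 4 • (A - P 0).
`att_of_rep`: P n = pr (Φ (e n)); for M in Lat A the set of central z with Red M (Φ z) is closed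
under o and sSup (Φ (sSup T) is the closed span).
-/

open scoped InnerProductSpace ComplexConjugate

set_option linter.unusedSectionVars false
set_option linter.unusedVariables false

noncomputable section

namespace Pool.Agent.P.MP_d8da86_an.CR

universe u

section

variable {H : Type*} [NormedAddCommGroup H] [InnerProductSpace ℂ H] [CompleteSpace H]
  {M N : Submodule ℂ H}

theorem red_iff (hN : IsClosed (N : Set H)) : Red N M ↔ ∀ ξ ∈ M, pr N ξ ∈ M := by
  constructor
  · intro h ξ hξ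
    obtain ⟨a, ha, haN, hb⟩ := h ξ hξ
    rwa [(isProj_pr hN).unique haN hb]
  · intro h ξ hξ
    exact ⟨pr N ξ, h ξ hξ, (isProj_pr hN).mem ξ, (isProj_pr hN).sub ξ⟩

theorem red_iff_commute (hN : IsClosed (N : Set H)) (hM : IsClosed (M : Set H)) :
    Red N M ↔ Commute (pr N) (pr M) := by
  rw [red_iff hN]
  constructor
  · intro h
    refine ((isProj_pr hM).commute h fun x hx => mem_orth.2 fun u hu => ?_).symm
    rw [← (isProj_pr hN).symm]
    exact mem_orth.1 hx _ (h u hu)
  · intro h ξ hξ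
    exact (isProj_pr hM).inv_of_commute h.symm hξ

theorem pr_orth (hM : IsClosed (M : Set H)) : pr Mᗮ = 1 - pr M := by
  ext x
  have h := (isProj_pr hM).orth hM
  exact (isProj_pr M.isClosed_orthogonal).unique (h.mem x) (h.sub x)

theorem pr_idem (hM : IsClosed (M : Set H)) : pr M * pr M = pr M := by
  ext x
  exact (isProj_pr hM).self ((isProj_pr hM).mem x)

theorem star_pr (hM : IsClosed (M : Set H)) : star (pr M) = pr M := by
  exact (isProj_pr hM).star_eq

theorem pr_eq_self_iff (hM : IsClosed (M : Set H)) {ξ : H} : pr M ξ = ξ ↔ ξ ∈ M := by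
  exact ⟨fun h => h ▸ (isProj_pr hM).mem ξ, (isProj_pr hM).self⟩

theorem pr_mul_of_le (hN : IsClosed (N : Set H)) (hM : IsClosed (M : Set H)) (h : M ≤ N) :
    pr N * pr M = pr M ∧ pr M * pr N = pr M := by
  have h1 : pr N * pr M = pr M := by
    ext x
    exact (isProj_pr hN).self (h ((isProj_pr hM).mem x))
  refine ⟨h1, ?_⟩
  have h2 := congrArg star h1
  rwa [star_mul, star_pr hN, star_pr hM] at h2

theorem pr_inf (hN : IsClosed (N : Set H)) (hM : IsClosed (M : Set H))
    (h : Commute (pr N) (pr M)) : pr (N ⊓ M) = pr N * pr M := by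
  ext x
  have hc : IsClosed ((N ⊓ M : Submodule ℂ H) : Set H) := hN.inter hM
  refine (isProj_pr hc).unique ⟨(isProj_pr hN).mem _,
    (isProj_pr hM).inv_of_commute h.symm ((isProj_pr hM).mem x)⟩ (mem_orth.2 fun u hu => ?_)
  change ⟪u, x - pr N (pr M x)⟫_ℂ = 0
  rw [inner_sub_right, ← (isProj_pr hN).symm, (isProj_pr hN).self hu.1, ← (isProj_pr hM).symm,
    (isProj_pr hM).self hu.2, sub_self]

/-- a star projection is the projection onto its range -/
theorem pr_range {Q : H →L[ℂ] H} (h1 : Q * Q = Q) (h2 : star Q = Q) :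
    IsClosed (LinearMap.range (Q : H →ₗ[ℂ] H) : Set H) ∧
      pr (LinearMap.range (Q : H →ₗ[ℂ] H)) = Q := by
  have hQ : ∀ x, Q (Q x) = Q x := fun x => congrArg (fun T : H →L[ℂ] H => T x) h1
  have hc : IsClosed (LinearMap.range (Q : H →ₗ[ℂ] H) : Set H) := by
    have e : (LinearMap.range (Q : H →ₗ[ℂ] H) : Set H) = {x | Q x = x} := by
      ext x
      exact ⟨fun ⟨y, hy⟩ => hy ▸ hQ y, fun hx => ⟨x, hx⟩⟩
    rw [e]
    exact isClosed_eq Q.continuous continuous_id
  refine ⟨hc, ?_⟩
  ext x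
  refine (isProj_pr hc).unique ⟨x, rfl⟩ (mem_orth.2 ?_)
  rintro _ ⟨y, rfl⟩
  change ⟪Q y, x - Q x⟫_ℂ = 0
  rw [← h2, inner_star_left, h2, map_sub, hQ, sub_self, inner_zero_right]

end

end Pool.Agent.P.MP_d8da86_an.CR
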