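import Pool.Agent.P.MP_d8da86_an.C.H6

/-!
From representations to operators, and gluing of representations.
Hints. `red_iff`: Red N M says pr N maps M into M, that is pr N commutes with pr M; it is symmetric.
`lat_tsum`: A = ∑ 4⁻¹ ^ n • P n. If Q commutes with A then D = P 0 * Q * (1 - P 0) satisfies
A * D = D * A, ‖A y‖ ≥ 2 / 3 * ‖y‖ on the range of P 0 and ‖A y‖ ≤ ‖y‖ / 3 on its kernel, so
‖D‖ ≤ ‖D‖ / 2; the same for star Q. Then induct with 4 • (A - P 0).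
`att_of_rep`: P n = pr (Φ (e n)); for M in Lat A the set of central z with Red M (Φ z) is closed
under o and sSup (Φ (sSup T) is the closed span).
-/

open scoped InnerProductSpace ComplexConjugate

set_option linter.unusedSectionVars false
set_option linter.unusedVariables false

noncomputable section

namespace Pool.Agent.P.MP_d8da86_an.CR

universe u

section

variable {H : Type*} [NormedAddCommGroup H] [InnerProductSpace ℂ H] [CompleteSpace H]
  {M N : Submodule ℂ H}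

theorem h6b_zero {D B : H →L[ℂ] H} (hB : ‖B‖ ≤ 1 / 3) (h : D = D * B - B * D ∨ D = B * D - D * B) :
    D = 0 := by
  have h1 : ‖D * B‖ ≤ ‖D‖ * (1 / 3) :=
    (norm_mul_le _ _).trans (mul_le_mul_of_nonneg_left hB (norm_nonneg _))
  have h2 : ‖B * D‖ ≤ 1 / 3 * ‖D‖ :=
    (norm_mul_le _ _).trans (mul_le_mul_of_nonneg_right hB (norm_nonneg _))
  have h3 : ‖D‖ ≤ ‖D * B‖ + ‖B * D‖ := by
    rcases h with h | h
    · exact (congrArg norm h).trans_le (norm_sub_le _ _)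
    · exact (congrArg norm h).trans_le ((norm_sub_le _ _).trans_eq (add_comm _ _))
  exact norm_le_zero_iff.1 (by linarith [norm_nonneg D])

theorem h6b_key {P B Q : H →L[ℂ] H} (hP : P * P = P) (hB : ‖B‖ ≤ 1 / 3) (hPB : Commute P B)
    (hQ : Commute Q (P + B)) : Commute Q P := by
  have hA : Commute P (P + B) := (Commute.refl P).add_right hPB
  have hA' : Commute (1 - P) (P + B) := (Commute.one_left _).sub_left hA
  have e1 : (1 - P) * P = 0 := by rw [sub_mul, one_mul, hP, sub_self]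
  have e2 : P * (1 - P) = 0 := by rw [mul_sub, mul_one, hP, sub_self]
  have h1 : P * Q * (1 - P) = 0 := by
    have h := ((hA.mul_left hQ).mul_left hA').eq
    rw [mul_add, add_mul, mul_assoc _ _ P, e1, mul_zero, zero_add, ← mul_assoc, ← mul_assoc,
      hP] at h
    exact h6b_zero hB (Or.inl (eq_sub_of_add_eq h.symm))
  have h2 : (1 - P) * Q * P = 0 := by
    have h := ((hA'.mul_left hQ).mul_left hA).eq
    rw [mul_add, add_mul, mul_assoc _ P P, hP, ← mul_assoc P, ← mul_assoc P, e2, zero_mul,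
      zero_mul, zero_add] at h
    exact h6b_zero hB (Or.inr (eq_sub_of_add_eq h))
  rw [mul_sub, mul_one, sub_eq_zero] at h1
  rw [sub_mul, sub_mul, one_mul, sub_eq_zero] at h2
  exact h2.trans h1.symm

theorem h6b_clo {ι : Type*} {T : Set ι} {F : ι → Submodule ℂ H} {A : H →L[ℂ] H}
    (h : ∀ x ∈ T, ∀ ξ ∈ F x, A ξ ∈ F x) :
    ∀ ξ ∈ (⨆ x ∈ T, F x).topologicalClosure, A ξ ∈ (⨆ x ∈ T, F x).topologicalClosure := by
  have h1 : (⨆ x ∈ T, F x) ≤ (⨆ x ∈ T, F x).comap (A : H →ₗ[ℂ] H) :=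
    iSup₂_le fun x hx ξ hξ => le_iSup₂_of_le (f := fun x (_ : x ∈ T) => F x) x hx le_rfl
      (h x hx ξ hξ)
  exact (clo_mem_Lat (K := ⨆ x ∈ T, F x) fun ξ hξ =>
    (⨆ x ∈ T, F x).le_topologicalClosure (Submodule.mem_comap.1 (h1 hξ))).2

theorem lat_tsum (P : ℕ → H →L[ℂ] H) (h1 : ∀ n, P n * P n = P n) (h2 : ∀ n, star (P n) = P n)
    (h3 : ∀ n k, Commute (P n) (P k)) : ∃ A : H →L[ℂ] H, IsSelfAdjoint A ∧
      ∀ Q : H →L[ℂ] H, Commute Q A ↔ ∀ n, Commute Q (P n) := by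
  have hn : ∀ n, ‖P n‖ ≤ 1 := fun n => IsStarProjection.norm_le _ ⟨h1 n, h2 n⟩
  have hb : ∀ k n, ‖(4⁻¹ : ℂ) ^ n • P (n + k)‖ ≤ (4⁻¹ : ℝ) ^ n := fun k n => by
    rw [norm_smul, norm_pow, norm_inv, Complex.norm_ofNat]
    exact mul_le_of_le_one_right (by positivity) (hn _)
  have hg : HasSum (fun n : ℕ => (4⁻¹ : ℝ) ^ n) (1 - 4⁻¹)⁻¹ :=
    hasSum_geometric_of_lt_one (by norm_num) (by norm_num)
  have hs : ∀ k, Summable fun n => (4⁻¹ : ℂ) ^ n • P (n + k) := fun k =>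
    Summable.of_norm_bounded hg.summable (hb k)
  obtain ⟨A, hA⟩ : ∃ A : ℕ → H →L[ℂ] H, ∀ k, A k = ∑' n, (4⁻¹ : ℂ) ^ n • P (n + k) :=
    ⟨_, fun _ => rfl⟩
  have hc : ∀ (Q : H →L[ℂ] H) k, (∀ n, Commute Q (P n)) → Commute Q (A k) := fun Q k hQ => by
    rw [hA]
    exact Commute.tsum_right _ fun n => (hQ _).smul_right _
  have hrec : ∀ k, A k = P k + (4⁻¹ : ℂ) • A (k + 1) := fun k => by
    rw [hA, hA, (hs k).tsum_eq_zero_add, pow_zero, one_smul, zero_add,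
      ← (hs (k + 1)).tsum_const_smul]
    refine congrArg _ (tsum_congr fun n => ?_)
    rw [smul_smul, pow_succ', show n + 1 + k = n + (k + 1) by omega]
  have hnorm : ∀ k, ‖(4⁻¹ : ℂ) • A k‖ ≤ 1 / 3 := fun k => by
    have := tsum_of_norm_bounded hg (hb k)
    rw [norm_smul, norm_inv, Complex.norm_ofNat, hA]
    linarith [show ((1 : ℝ) - 4⁻¹)⁻¹ = 4 / 3 by norm_num]
  refine ⟨A 0, ?_, fun Q => ⟨fun hQ => ?_, hc Q 0⟩⟩
  · rw [IsSelfAdjoint, hA, tsum_star]
    refine tsum_congr fun n => ?_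
    rw [star_smul, h2]
    simp
  · have key : ∀ k, Commute Q (A k) → Commute Q (P k) := fun k hk =>
      h6b_key (h1 k) (hnorm (k + 1)) ((hc _ _ (h3 k)).smul_right _) (hrec k ▸ hk)
    have all : ∀ k, Commute Q (A k) := fun k => by
      induction k with
      | zero => exact hQ
      | succ k ih =>
        have e : A (k + 1) = (4 : ℂ) • (A k - P k) := by
          rw [hrec k, add_sub_cancel_left, smul_smul, mul_inv_cancel₀ (by norm_num), one_smul]
        rw [e]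
        exact (ih.sub_right (key k ih)).smul_right _
    exact fun n => key n (all n)

theorem IsRep.map_sSup {L : Type*} [CompleteLattice L] {o : L → L} {w : L}
    {Φ : L → Submodule ℂ H} (hΦ : IsRep o w Φ) {T : Set L} (hT : ∀ x ∈ T, x ≤ w) :
    Φ (sSup T) = (⨆ x ∈ T, Φ x).topologicalClosure := by
  have hw : sSup T ≤ w := sSup_le hT
  refine le_antisymm ?_ (clo_le (hΦ.closed _) (iSup₂_le fun x hx =>
    (hΦ.le_iff _ _ (hT x hx) hw).2 (le_sSup hx)))
  obtain ⟨y, hy, e⟩ := hΦ.surj (⨆ x ∈ T, Φ x).topologicalClosure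
    (Submodule.isClosed_topologicalClosure _) fun z hz hzw => (red_iff (hΦ.closed z)).2
      (h6b_clo fun x hx => (red_iff (hΦ.closed z)).1 (hΦ.red x z (hT x hx) hz hzw))
  rw [← e]
  refine (hΦ.le_iff _ _ hw hy).2 (sSup_le fun x hx => (hΦ.le_iff _ _ (hT x hx) hy).1 ?_)
  rw [e]
  exact (le_iSup₂_of_le (f := fun x (_ : x ∈ T) => Φ x) x hx le_rfl).trans
    (Submodule.le_topologicalClosure _)

theorem IsRep.map_inf {L : Type*} [CompleteLattice L] {o : L → L} {w x y : L}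
    {Φ : L → Submodule ℂ H} (hΦ : IsRep o w Φ) (hx : x ≤ w) (hy : y ≤ w) :
    Φ (x ⊓ y) = Φ x ⊓ Φ y := by
  have hw : x ⊓ y ≤ w := inf_le_left.trans hx
  refine le_antisymm (le_inf ((hΦ.le_iff _ _ hw hx).2 inf_le_left)
    ((hΦ.le_iff _ _ hw hy).2 inf_le_right)) ?_
  obtain ⟨u, hu, e⟩ := hΦ.surj (Φ x ⊓ Φ y) ((hΦ.closed x).inter (hΦ.closed y))
    fun z hz hzw => (red_iff (hΦ.closed z)).2 fun ξ hξ =>
      ⟨(red_iff (hΦ.closed z)).1 (hΦ.red x z hx hz hzw) ξ hξ.1,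
        (red_iff (hΦ.closed z)).1 (hΦ.red y z hy hz hzw) ξ hξ.2⟩
  rw [← e]
  exact (hΦ.le_iff _ _ hu hw).2 (le_inf ((hΦ.le_iff _ _ hu hx).1 (e.trans_le inf_le_left))
    ((hΦ.le_iff _ _ hu hy).1 (e.trans_le inf_le_right)))

theorem IsRep.map_top {L : Type*} [CompleteLattice L] {o : L → L} {w : L}
    {Φ : L → Submodule ℂ H} (hΦ : IsRep o w Φ) : Φ w = ⊤ := by
  obtain ⟨u, hu, e⟩ := hΦ.surj ⊤ isClosed_univ
    fun z _ _ => (red_iff (hΦ.closed z)).2 fun _ _ => Submodule.mem_top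
  exact top_le_iff.1 (e.symm.trans_le ((hΦ.le_iff _ _ hu le_rfl).2 hu))

end

theorem att_of_rep {L : Type u} [CompleteLattice L] {o : L → L} (h : OM o) (hg : GenAx o)
    (hr : Rep o ⊤) : Att L := by
  obtain ⟨H, i1, i2, i3, Φ, hΦ⟩ := hr
  obtain ⟨e, he, hgen⟩ := hg
  have hcm : ∀ x z, Cen o z → Commute (pr (Φ z)) (pr (Φ x)) := fun x z hz =>
    (red_iff_commute (hΦ.closed z) (hΦ.closed x)).1 (hΦ.red x z le_top hz le_top)
  obtain ⟨A, hA, hc⟩ := lat_tsum (fun n => pr (Φ (e n))) (fun n => pr_idem (hΦ.closed _))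
    (fun n => star_pr (hΦ.closed _)) fun n k => hcm _ _ (he n)
  have hm : ∀ x, Φ x ∈ Lat A := fun x => ⟨hΦ.closed x, fun ξ hξ =>
    (isProj_pr (hΦ.closed x)).inv_of_commute ((hc _).2 fun n => (hcm x _ (he n)).symm) hξ⟩
  refine ⟨H, i1, i2, i3, A, hA, ⟨RelIso.ofSurjective
    (OrderEmbedding.ofMapLEIff (fun x => (⟨Φ x, hm x⟩ : Lat A))
      fun a b => hΦ.le_iff a b le_top le_top) ?_⟩⟩
  rintro ⟨M, hM⟩
  have h1 : Commute (pr M) A := (isProj_pr hM.1).commute hM.2 (by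
    have := (orth_mem_Lat hM.2).2
    rwa [hA.star_eq] at this)
  have h2 := hgen {z | Cen o z ∧ Commute (pr M) (pr (Φ z))}
    (fun n => ⟨he n, (hc _).1 h1 n⟩)
    (fun z hz => ⟨h.cen_o hz.1, by
      have := hΦ.orth z hz.1 le_top
      rw [top_inf_eq] at this
      rw [this, pr_orth (hΦ.closed z)]
      exact (Commute.one_right _).sub_right hz.2⟩)
    (fun T hT => ⟨h.cen_sSup fun z hz => (hT hz).1, by
      refine (red_iff_commute hM.1 (hΦ.closed _)).1 ((red_iff hM.1).2 ?_)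
      rw [hΦ.map_sSup fun _ _ => le_top]
      exact h6b_clo fun z hz =>
        (red_iff hM.1).1 ((red_iff_commute hM.1 (hΦ.closed z)).2 (hT hz).2)⟩)
  obtain ⟨x, -, hx⟩ := hΦ.surj M hM.1 fun z hz _ =>
    (red_iff_commute (hΦ.closed z) hM.1).2 (h2 z hz).2.symm
  exact ⟨x, Subtype.ext hx⟩

end Pool.Agent.P.MP_d8da86_an.CR
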