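import Pool.Agent.P.MP_d8da86_an.C.Df

/-!
Orthomodular lattices: De Morgan laws, the centre, central covers, localisation.
Hints. `Cen.inf_sSup`: with a = sup (x ⊓ z) ≤ z and b = sup (x ⊓ o z) ≤ o z one has
z ⊓ (a ⊔ b) ≤ z ⊓ (a ⊔ o z) = a by `om'`. `comm_symm`: b = a ⊓ b ⊔ b ⊓ o (a ⊓ b) and
b ⊓ o (a ⊓ b) ≤ o a because a ≤ a ⊓ b ⊔ o b. `cen_sSup`: each z in S is z ⊓ x ⊔ z ⊓ o x by
`comm_symm`, so the join is, and `comm_symm` again. `cen_iff`: apply the hypothesis to o z, then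
`eq_of_le` gives z' = o z. `loc_le`: z0 = sSup {w central, w ⊓ x ≤ y}, look at cov x ⊓ o z0.
-/

open scoped InnerProductSpace ComplexConjugate

set_option linter.unusedSectionVars false
set_option linter.unusedVariables false

noncomputable section

namespace Pool.Agent.P.MP_d8da86_an.CR

universe u

variable {L : Type*} [CompleteLattice L] {o : L → L} {a b x y z w : L}

namespace OM

theorem le_iff (h : OM o) : o a ≤ o b ↔ b ≤ a :=
  ⟨fun h1 => by simpa only [h.invol a, h.invol b] using h.anti h1, fun h1 => h.anti h1⟩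

theorem perp_comm (h : OM o) : a ≤ o b ↔ b ≤ o a :=
  ⟨fun h1 => by simpa only [h.invol b] using h.anti h1,
    fun h1 => by simpa only [h.invol a] using h.anti h1⟩

theorem oo (h : OM o) (a : L) : o (o a) = a := h.invol a

theorem o_bot (h : OM o) : o ⊥ = ⊤ :=
  top_le_iff.1 (h.perp_comm.1 bot_le)

theorem o_top (h : OM o) : o ⊤ = ⊥ := by
  rw [← h.o_bot, h.oo]

theorem o_inf_self (h : OM o) (a : L) : o a ⊓ a = ⊥ := by
  rw [inf_comm, h.inf_o]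

theorem sup_o (h : OM o) (a : L) : a ⊔ o a = ⊤ := by
  simpa only [top_inf_eq] using h.om a ⊤ le_top

theorem o_sup (h : OM o) (a b : L) : o (a ⊔ b) = o a ⊓ o b :=
  eq_of_forall_le_iff fun c => by
    rw [h.perp_comm, sup_le_iff, le_inf_iff, h.perp_comm (a := a), h.perp_comm (a := b)]

theorem o_inf (h : OM o) (a b : L) : o (a ⊓ b) = o a ⊔ o b := by
  rw [← h.oo (o a ⊔ o b), h.o_sup, h.oo, h.oo]

theorem o_sSup (h : OM o) (S : Set L) : o (sSup S) = sInf (o '' S) :=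
  eq_of_forall_le_iff fun c => by
    rw [h.perp_comm, sSup_le_iff, le_sInf_iff, Set.forall_mem_image]
    exact forall₂_congr fun x _ => h.perp_comm

theorem o_sInf (h : OM o) (S : Set L) : o (sInf S) = sSup (o '' S) := by
  rw [← h.oo (sSup (o '' S)), h.o_sSup, Set.image_image]
  simp only [h.oo, Set.image_id']

theorem om' (h : OM o) (hab : a ≤ b) : b ⊓ (a ⊔ o b) = a := by
  apply h.invol.injective
  rw [h.o_inf, h.o_sup, h.oo]
  have := h.om _ _ (h.anti hab)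
  rwa [h.oo] at this

theorem eq_of_le (h : OM o) (hab : a ≤ b) (h0 : b ⊓ o a = ⊥) : a = b := by
  rw [← h.om a b hab, h0, sup_bot_eq]

theorem inf_eq_bot_of_perp (h : OM o) (hab : a ≤ o b) : a ⊓ b = ⊥ :=
  le_bot_iff.1 ((inf_le_inf_right b hab).trans (h.o_inf_self b).le)

theorem comm_symm (h : OM o) (hab : a = a ⊓ b ⊔ a ⊓ o b) : b = b ⊓ a ⊔ b ⊓ o a := by
  refine le_antisymm ?_ (sup_le inf_le_left inf_le_left)
  have h1 := h.om (b ⊓ a) b inf_le_left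
  refine h1.symm.le.trans (sup_le_sup_left (le_inf inf_le_left ?_) _)
  have h2 : a ≤ b ⊓ a ⊔ o b := hab.le.trans (sup_le_sup (inf_comm a b).le inf_le_right)
  have h3 := h.anti h2
  rw [h.o_sup, h.oo, inf_comm] at h3
  exact h3

theorem cen_bot (h : OM o) : Cen o ⊥ := fun x => by
  rw [h.o_bot, inf_bot_eq, inf_top_eq, bot_sup_eq]

theorem cen_top (h : OM o) : Cen o ⊤ := fun x => by
  rw [h.o_top, inf_bot_eq, inf_top_eq, sup_bot_eq]

theorem cen_o (h : OM o) (hz : Cen o z) : Cen o (o z) := fun x => by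
  rw [h.oo, sup_comm]
  exact hz x

theorem cen_sSup (h : OM o) {S : Set L} (hS : ∀ z ∈ S, Cen o z) : Cen o (sSup S) := fun x => by
  refine h.comm_symm (le_antisymm (sSup_le fun z hz => ?_) (sup_le inf_le_left inf_le_left))
  exact (h.comm_symm (hS z hz x)).le.trans
    (sup_le_sup (inf_le_inf_right _ (le_sSup hz)) (inf_le_inf_right _ (le_sSup hz)))

theorem cen_sInf (h : OM o) {S : Set L} (hS : ∀ z ∈ S, Cen o z) : Cen o (sInf S) := by
  rw [← h.oo (sInf S), h.o_sInf]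
  refine h.cen_o (h.cen_sSup ?_)
  rintro _ ⟨z, hz, rfl⟩
  exact h.cen_o (hS z hz)

theorem cen_iSup (h : OM o) {ι : Sort*} {f : ι → L} (hf : ∀ i, Cen o (f i)) :
    Cen o (⨆ i, f i) :=
  h.cen_sSup (by
    rintro _ ⟨i, rfl⟩
    exact hf i)

theorem cen_sup (h : OM o) (hz : Cen o z) (hw : Cen o w) : Cen o (z ⊔ w) := by
  rw [← sSup_pair]
  refine h.cen_sSup ?_
  rintro _ (rfl | rfl)
  exacts [hz, hw]

theorem cen_inf (h : OM o) (hz : Cen o z) (hw : Cen o w) : Cen o (z ⊓ w) := by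
  rw [← sInf_pair]
  refine h.cen_sInf ?_
  rintro _ (rfl | rfl)
  exacts [hz, hw]

theorem inf_sSup (h : OM o) (hz : Cen o z) (S : Set L) : z ⊓ sSup S = ⨆ x ∈ S, z ⊓ x := by
  refine le_antisymm ?_ (iSup₂_le fun x hx => inf_le_inf_left _ (le_sSup hx))
  have h1 : (⨆ x ∈ S, z ⊓ x) ≤ z := iSup₂_le fun x _ => inf_le_left
  refine le_trans (inf_le_inf_left _ (sSup_le fun x hx => ?_)) (h.om' h1).le
  refine (hz x).le.trans (sup_le_sup ?_ inf_le_right)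
  rw [inf_comm]
  exact le_iSup₂ (f := fun x (_ : x ∈ S) => z ⊓ x) x hx

theorem inf_iSup (h : OM o) (hz : Cen o z) {ι : Sort*} (f : ι → L) :
    z ⊓ ⨆ i, f i = ⨆ i, z ⊓ f i := by
  rw [← sSup_range, h.inf_sSup hz, iSup_range]

theorem inf_sup (h : OM o) (hz : Cen o z) (x y : L) : z ⊓ (x ⊔ y) = z ⊓ x ⊔ z ⊓ y := by
  rw [← sSup_pair, h.inf_sSup hz, iSup_pair]

/-- any element distributes over a join of central elements -/
theorem sSup_inf (h : OM o) {S : Set L} (hS : ∀ z ∈ S, Cen o z) (x : L) :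
    sSup S ⊓ x = ⨆ z ∈ S, z ⊓ x := by
  have h0 : (⨆ z ∈ S, z ⊓ x) ≤ sSup S ⊓ x :=
    iSup₂_le fun z hz => inf_le_inf_right _ (le_sSup hz)
  refine (h.eq_of_le h0 ?_).symm
  set t := sSup S ⊓ x ⊓ o (⨆ z ∈ S, z ⊓ x) with ht
  have h1 : sSup S ≤ o t := sSup_le fun z hz => by
    have h2 : z ⊓ t = ⊥ := by
      have h3 : z ⊓ x ≤ ⨆ z ∈ S, z ⊓ x := le_iSup₂ (f := fun z (_ : z ∈ S) => z ⊓ x) z hz
      refine le_bot_iff.1 (le_trans (le_inf ?_ ?_) (h.inf_o (⨆ z ∈ S, z ⊓ x)).le)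
      · exact (inf_le_inf_left _ (inf_le_left.trans inf_le_right)).trans h3
      · exact inf_le_right.trans inf_le_right
    rw [h.perp_comm, hS z hz t, inf_comm t z, h2, bot_sup_eq]
    exact inf_le_right
  exact le_bot_iff.1 ((le_inf le_rfl ((inf_le_left.trans inf_le_left).trans h1)).trans
    (h.inf_o t).le)

theorem sup_inf (h : OM o) (hz : Cen o z) (hw : Cen o w) (x : L) :
    (z ⊔ w) ⊓ x = z ⊓ x ⊔ w ⊓ x := by
  rw [← sSup_pair, h.sSup_inf, iSup_pair]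
  rintro _ (rfl | rfl)
  exacts [hz, hw]

theorem cen_inf_o (h : OM o) (hz : Cen o z) (x : L) : z ⊓ o (z ⊓ x) = z ⊓ o x := by
  rw [h.o_inf, h.inf_sup hz, h.inf_o, bot_sup_eq]

theorem le_o_iff (h : OM o) (hz : Cen o z) : x ≤ o z ↔ z ⊓ x = ⊥ :=
  ⟨fun h1 => by rw [inf_comm]; exact h.inf_eq_bot_of_perp h1, fun h1 => by
    rw [hz x, inf_comm x z, h1, bot_sup_eq]
    exact inf_le_right⟩

theorem le_of_o_inf (h : OM o) (hz : Cen o z) (hx : o z ⊓ x = ⊥) : x ≤ z := by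
  have := (h.le_o_iff (h.cen_o hz)).2 hx
  rwa [h.oo] at this

/-- an inequality can be checked below `z` and below `o z` -/
theorem le_of_cases (h : OM o) (hz : Cen o z) (h1 : z ⊓ x ≤ y) (h2 : o z ⊓ x ≤ y) : x ≤ y := by
  rw [hz x, inf_comm x z, inf_comm x (o z)]
  exact sup_le h1 h2

theorem eq_of_cases (h : OM o) (hz : Cen o z) (h1 : z ⊓ x = z ⊓ y) (h2 : o z ⊓ x = o z ⊓ y) :
    x = y :=
  le_antisymm (h.le_of_cases hz (h1.le.trans inf_le_right) (h2.le.trans inf_le_right))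
    (h.le_of_cases hz (h1.ge.trans inf_le_right) (h2.ge.trans inf_le_right))

theorem inf_mix2 (h : OM o) (hz : Cen o z) (x y : L) : z ⊓ (z ⊓ x ⊔ o z ⊓ y) = z ⊓ x := by
  rw [h.inf_sup hz, ← inf_assoc, inf_idem, ← inf_assoc, h.inf_o, bot_inf_eq, sup_bot_eq]

theorem o_inf_mix2 (h : OM o) (hz : Cen o z) (x y : L) :
    o z ⊓ (z ⊓ x ⊔ o z ⊓ y) = o z ⊓ y := by
  rw [h.inf_sup (h.cen_o hz), ← inf_assoc, h.o_inf_self, ← inf_assoc, inf_idem, bot_inf_eq,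
    bot_sup_eq]

/-- centrality is a property of the order -/
theorem cen_iff (h : OM o) :
    Cen o z ↔ ∃ z', z ⊓ z' = ⊥ ∧ ∀ x, x = x ⊓ z ⊔ x ⊓ z' := by
  refine ⟨fun hz => ⟨o z, h.inf_o z, hz⟩, fun ⟨z', h1, h2⟩ => ?_⟩
  have h3 : o z ≤ z' := by
    rw [h2 (o z), h.o_inf_self, bot_sup_eq]
    exact inf_le_right
  have h4 : o z = z' := h.eq_of_le h3 (by rw [h.oo, inf_comm, h1])
  intro x
  rw [h4]
  exact h2 x

theorem compl_unique (h : OM o) (hz : Cen o z) (h1 : z ⊓ y = ⊥) (h2 : z ⊔ y = ⊤) : y = o z := by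
  refine le_antisymm ((h.le_o_iff hz).2 h1) ?_
  have := h.inf_sup (h.cen_o hz) z y
  rw [h2, inf_top_eq, h.o_inf_self, bot_sup_eq] at this
  exact this.le.trans inf_le_right

theorem cen_cov (h : OM o) (x : L) : Cen o (cov o x) :=
  h.cen_sInf fun _ hz => hz.1

theorem le_cov (h : OM o) (x : L) : x ≤ cov o x :=
  le_sInf fun _ hz => hz.2

theorem cov_le_iff (h : OM o) (hz : Cen o z) : cov o x ≤ z ↔ x ≤ z :=
  ⟨(h.le_cov x).trans, fun h1 => sInf_le ⟨hz, h1⟩⟩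

theorem cov_mono (h : OM o) (hxy : x ≤ y) : cov o x ≤ cov o y :=
  (h.cov_le_iff (h.cen_cov y)).2 (hxy.trans (h.le_cov y))

theorem cov_of_cen (h : OM o) (hz : Cen o z) : cov o z = z :=
  le_antisymm ((h.cov_le_iff hz).2 le_rfl) (h.le_cov z)

theorem cov_eq_bot (h : OM o) : cov o x = ⊥ ↔ x = ⊥ := by
  rw [← le_bot_iff, h.cov_le_iff h.cen_bot, le_bot_iff]

theorem cov_inf (h : OM o) (hz : Cen o z) (x : L) : cov o (z ⊓ x) = z ⊓ cov o x := by
  refine le_antisymm ((h.cov_le_iff (h.cen_inf hz (h.cen_cov x))).2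
    (inf_le_inf_left _ (h.le_cov x))) ?_
  have h1 : x ≤ cov o (z ⊓ x) ⊔ o z :=
    h.le_of_cases hz ((h.le_cov _).trans le_sup_left) (inf_le_left.trans le_sup_right)
  have h2 := (h.cov_le_iff (h.cen_sup (h.cen_cov _) (h.cen_o hz))).2 h1
  refine (inf_le_inf_left z h2).trans ?_
  rw [h.inf_sup hz, h.inf_o, sup_bot_eq]
  exact inf_le_right

theorem cov_sup (h : OM o) (x y : L) : cov o (x ⊔ y) = cov o x ⊔ cov o y :=
  le_antisymm ((h.cov_le_iff (h.cen_sup (h.cen_cov x) (h.cen_cov y))).2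
    (sup_le_sup (h.le_cov x) (h.le_cov y)))
    (sup_le (h.cov_mono le_sup_left) (h.cov_mono le_sup_right))

theorem cov_iSup (h : OM o) {ι : Sort*} (f : ι → L) : cov o (⨆ i, f i) = ⨆ i, cov o (f i) :=
  le_antisymm ((h.cov_le_iff (h.cen_iSup fun i => h.cen_cov (f i))).2
    (iSup_mono fun i => h.le_cov (f i))) (iSup_le fun i => h.cov_mono (le_iSup f i))

theorem inf_eq_bot_iff (h : OM o) (hz : Cen o z) : z ⊓ x = ⊥ ↔ z ⊓ cov o x = ⊥ := by
  rw [← h.cov_inf hz, h.cov_eq_bot]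

theorem cov_iff (h : OM o) : Cov o a b ↔ cov o a ≤ cov o b :=
  ⟨fun h1 => (h.cov_le_iff (h.cen_cov b)).2 (h1 _ (h.cen_cov b) (h.le_cov b)),
    fun h1 _ hz hb => (h.le_cov a).trans (h1.trans ((h.cov_le_iff hz).2 hb))⟩

/-- inequalities are local -/
theorem loc_le (h : OM o) (hl : ∀ z, Cen o z → z ≠ ⊥ → z ≤ cov o x →
    ∃ w, Cen o w ∧ w ≠ ⊥ ∧ w ≤ z ∧ w ⊓ x ≤ y) : x ≤ y := by
  set S : Set L := {w | Cen o w ∧ w ⊓ x ≤ y} with hS
  have c0 : Cen o (sSup S) := h.cen_sSup fun _ hw => hw.1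
  have h1 : sSup S ⊓ x ≤ y := by
    rw [h.sSup_inf fun _ hw => hw.1]
    exact iSup₂_le fun w hw => hw.2
  have h2 : o (sSup S) ⊓ cov o x = ⊥ := by
    by_contra h0
    obtain ⟨w, c1, n1, l1, h3⟩ := hl _ (h.cen_inf (h.cen_o c0) (h.cen_cov x)) h0 inf_le_right
    exact n1 (le_bot_iff.1 ((le_inf (le_sSup (show w ∈ S from ⟨c1, h3⟩))
      (l1.trans inf_le_left)).trans (h.inf_o _).le))
  exact (le_inf ((h.le_cov x).trans (h.le_of_o_inf c0 h2)) le_rfl).trans h1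

theorem loc_eq (h : OM o) (hl : ∀ z, Cen o z → z ≠ ⊥ →
    ∃ w, Cen o w ∧ w ≠ ⊥ ∧ w ≤ z ∧ w ⊓ x = w ⊓ y) : x = y :=
  le_antisymm
    (h.loc_le fun z c n _ => by
      obtain ⟨w, c1, n1, l1, e⟩ := hl z c n
      exact ⟨w, c1, n1, l1, e.le.trans inf_le_right⟩)
    (h.loc_le fun z c n _ => by
      obtain ⟨w, c1, n1, l1, e⟩ := hl z c n
      exact ⟨w, c1, n1, l1, e.ge.trans inf_le_right⟩)

theorem loc_eq_on (h : OM o) (hz : Cen o z) (hl : ∀ z', Cen o z' → z' ≠ ⊥ → z' ≤ z →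
    ∃ w, Cen o w ∧ w ≠ ⊥ ∧ w ≤ z' ∧ w ⊓ x = w ⊓ y) : z ⊓ x = z ⊓ y := by
  have key : ∀ {x y : L}, (∀ z', Cen o z' → z' ≠ ⊥ → z' ≤ z →
      ∃ w, Cen o w ∧ w ≠ ⊥ ∧ w ≤ z' ∧ w ⊓ x = w ⊓ y) → z ⊓ x ≤ z ⊓ y := fun {x y} hl =>
    le_inf inf_le_left (h.loc_le fun z' c n l => by
      obtain ⟨w, c1, n1, l1, e⟩ := hl z' c n (l.trans ((h.cov_le_iff hz).2 inf_le_left))
      exact ⟨w, c1, n1, l1, (inf_le_inf_left _ inf_le_right).trans (e.le.trans inf_le_right)⟩)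
  refine le_antisymm (key hl) (key fun z' c n l => ?_)
  obtain ⟨w, c1, n1, l1, e⟩ := hl z' c n l
  exact ⟨w, c1, n1, l1, e.symm⟩

end OM

end Pool.Agent.P.MP_d8da86_an.CR
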