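import Pool.Agent.P.MP_d8da86_an.C.O1

/-!
Partitions, mixing, order isomorphisms, the centre as a Boolean algebra.
Hints. `exists_part`: Zorn on sets of pairwise disjoint nonzero central elements below w0 with Q.
`mix_aut`: G x = (⨆ w ∈ S, w ⊓ g w x) ⊔ o (sSup S) ⊓ x, the inverse is built from the inverses
(g w fixes w, so w ⊓ g w x = g w (w ⊓ x)). `exists_cenRep`: the subtype of central elements
below w. `CenRep.gen`: generators e n ⊓ w; for S in B look at the central x with x ⊓ w in j '' S.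
`exists_pos`: the null elements are directed, so their join n is null; take z ⊓ o n.
-/

open scoped InnerProductSpace ComplexConjugate

set_option linter.unusedSectionVars false
set_option linter.unusedVariables false

noncomputable section

namespace Pool.Agent.P.MP_d8da86_an.CR

universe u

variable {L : Type*} [CompleteLattice L] {o : L → L} {a b x y z w p : L}

namespace OM

theorem exists_part (h : OM o) {w₀ : L} (hw : Cen o w₀) (Q : L → Prop)
    (hQ : ∀ z, Cen o z → z ≠ ⊥ → z ≤ w₀ → ∃ w, Cen o w ∧ w ≠ ⊥ ∧ w ≤ z ∧ Q w) :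
    ∃ S, Part o S ∧ sSup S = w₀ ∧ ∀ w ∈ S, w ≠ ⊥ ∧ Q w := by
  obtain ⟨S, hS⟩ := zorn_subset {S : Set L | Part o S ∧ ∀ w ∈ S, w ≤ w₀ ∧ w ≠ ⊥ ∧ Q w} (by
    intro c hc hch
    refine ⟨⋃₀ c, ⟨⟨?_, ?_⟩, ?_⟩, fun s hs => Set.subset_sUnion_of_mem hs⟩
    · rintro w ⟨s, hs, hw⟩
      exact (hc hs).1.1 w hw
    · rintro u ⟨s, hs, hu⟩ v ⟨t, ht, hv⟩ huv
      rcases hch.total hs ht with h1 | h1
      · exact (hc ht).1.2 (h1 hu) hv huv
      · exact (hc hs).1.2 hu (h1 hv) huv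
    · rintro w ⟨s, hs, hw⟩
      exact (hc hs).2 w hw)
  obtain ⟨hP, hS'⟩ := hS.prop
  refine ⟨S, hP, h.eq_of_le (sSup_le fun w hw => (hS' w hw).1) ?_, fun w hw => (hS' w hw).2⟩
  by_contra h0
  have c0 : Cen o (sSup S) := h.cen_sSup hP.1
  obtain ⟨w, c1, n1, l1, q1⟩ := hQ _ (h.cen_inf hw (h.cen_o c0)) h0 inf_le_left
  have hd : ∀ v ∈ S, w ⊓ v = ⊥ := fun v hv =>
    le_bot_iff.1 ((inf_le_inf (l1.trans inf_le_right) (le_sSup hv)).trans (h.o_inf_self _).le)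
  have hm : insert w S ⊆ S := by
    refine hS.le_of_ge (y := insert w S) ⟨⟨?_, ?_⟩, ?_⟩ (Set.subset_insert _ _)
    · rintro v (rfl | hv)
      exacts [c1, hP.1 v hv]
    · rintro u (rfl | hu) v (rfl | hv) huv
      · exact absurd rfl huv
      · exact hd v hv
      · rw [inf_comm]
        exact hd u hu
      · exact hP.2 hu hv huv
    · rintro v (rfl | hv)
      exacts [⟨l1.trans inf_le_left, n1, q1⟩, hS' v hv]
  exact n1 (by simpa using hd w (hm (Set.mem_insert _ _)))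

theorem inf_mix (h : OM o) {S : Set L} (hS : Part o S) (f : L → L) (hw : w ∈ S) :
    w ⊓ mix S f = w ⊓ f w := by
  refine le_antisymm ?_
    (le_inf inf_le_left (le_iSup₂ (f := fun w (_ : w ∈ S) => w ⊓ f w) w hw))
  rw [mix, h.inf_iSup (hS.1 w hw)]
  refine iSup_le fun v => ?_
  rw [h.inf_iSup (hS.1 w hw)]
  refine iSup_le fun hv => ?_
  by_cases hwv : w = v
  · rw [← hwv]
    exact inf_le_right
  · rw [← inf_assoc, hS.2 hw hv hwv, bot_inf_eq]
    exact bot_le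

theorem mix_le_sSup (S : Set L) (f : L → L) : mix S f ≤ sSup S := by
  exact iSup₂_le fun w hw => inf_le_left.trans (le_sSup hw)

theorem le_of_part (h : OM o) {S : Set L} (hS : Part o S) (hx : x ≤ sSup S)
    (hl : ∀ w ∈ S, w ⊓ x ≤ y) : x ≤ y := by
  rw [← inf_eq_right.2 hx, h.sSup_inf hS.1]
  exact iSup₂_le hl

theorem eq_of_part (h : OM o) {S : Set L} (hS : Part o S) (hl : ∀ w ∈ S, w ⊓ x = w ⊓ y)
    (h0 : o (sSup S) ⊓ x = o (sSup S) ⊓ y) : x = y := by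
  refine h.eq_of_cases (h.cen_sSup hS.1) ?_ h0
  rw [h.sSup_inf hS.1, h.sSup_inf hS.1]
  exact iSup_congr fun w => iSup_congr fun hw => hl w hw

theorem pt_bot (h : OM o) : Pt o ⊥ := by
  intro x hx
  exact ⟨⊥, h.cen_bot, by rw [le_bot_iff.1 hx, inf_idem]⟩

theorem pt_mono (h : OM o) (hp : Pt o p) (hx : x ≤ p) : Pt o x := by
  intro y hy
  obtain ⟨z, hz, e⟩ := hp y (hy.trans hx)
  exact ⟨z, hz, le_antisymm (le_inf hy (e.le.trans inf_le_right))
    ((inf_le_inf_right z hx).trans e.ge)⟩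

theorem pt_eq (h : OM o) (hp : Pt o p) (hx : x ≤ p) : x = cov o x ⊓ p := by
  obtain ⟨z, hz, e⟩ := hp x hx
  refine le_antisymm (le_inf (h.le_cov x) hx) (le_trans ?_ e.ge)
  exact le_inf inf_le_right (inf_le_left.trans ((h.cov_le_iff hz).2 (e.le.trans inf_le_right)))

theorem pt_eq_of_cov (h : OM o) (hp : Pt o p) (hx : x ≤ p) (hc : cov o p ≤ cov o x) : x = p := by
  rw [h.pt_eq hp hx, inf_eq_right.2 ((h.le_cov p).trans hc)]

theorem o2_pt_loc (h : OM o) (hw : Cen o w) (hp : Pt o (w ⊓ x)) (hy : y ≤ x) :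
    w ⊓ (x ⊓ cov o y) ≤ y := by
  have h1 := h.pt_eq hp (inf_le_inf_left w hy)
  rw [h.cov_inf hw] at h1
  refine le_trans ?_ (h1.ge.trans inf_le_right)
  exact le_inf (inf_le_inf_left _ inf_le_right) (inf_le_inf_left _ inf_le_left)

/-- being a point is a local property -/
theorem pt_of_part (h : OM o) {S : Set L} (hS : Part o S) (hx : x ≤ sSup S)
    (hl : ∀ w ∈ S, Pt o (w ⊓ x)) : Pt o x := by
  intro y hy
  refine ⟨cov o y, h.cen_cov y, le_antisymm (le_inf hy (h.le_cov y)) ?_⟩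
  exact h.le_of_part hS (inf_le_left.trans hx) fun w hw => h.o2_pt_loc (hS.1 w hw) (hl w hw) hy

theorem pt_mix (h : OM o) {S : Set L} (hS : Part o S) {f : L → L}
    (hf : ∀ w ∈ S, Pt o (w ⊓ f w)) : Pt o (mix S f) := by
  refine h.pt_of_part hS (mix_le_sSup S f) fun w hw => ?_
  rw [h.inf_mix hS f hw]
  exact hf w hw

theorem pt_mix2 (h : OM o) (hz : Cen o z) (ha : Pt o a) (hb : Pt o b) :
    Pt o (z ⊓ a ⊔ o z ⊓ b) := by
  intro y hy
  refine ⟨cov o y, h.cen_cov y, le_antisymm (le_inf hy (h.le_cov y)) ?_⟩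
  refine h.le_of_cases hz (h.o2_pt_loc hz ?_ hy) (h.o2_pt_loc (h.cen_o hz) ?_ hy)
  · rw [h.inf_mix2 hz]
    exact h.pt_mono ha inf_le_right
  · rw [h.o_inf_mix2 hz]
    exact h.pt_mono hb inf_le_right

theorem o2_in (h : OM o) {S : Set L} (hS : Part o S) (f : L → L) (x : L) (hw : w ∈ S) :
    w ⊓ (mix S f ⊔ o (sSup S) ⊓ x) = w ⊓ f w := by
  have h1 : w ⊓ o (sSup S) = ⊥ :=
    le_bot_iff.1 ((inf_le_inf_right _ (le_sSup hw)).trans (h.inf_o _).le)
  rw [h.inf_sup (hS.1 w hw), h.inf_mix hS f hw, ← inf_assoc, h1, bot_inf_eq, sup_bot_eq]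

theorem o2_out (h : OM o) {S : Set L} (hS : Part o S) (f : L → L) (x : L) :
    o (sSup S) ⊓ (mix S f ⊔ o (sSup S) ⊓ x) = o (sSup S) ⊓ x := by
  have h1 : o (sSup S) ⊓ mix S f = ⊥ :=
    le_bot_iff.1 ((inf_le_inf_left _ (mix_le_sSup S f)).trans (h.o_inf_self _).le)
  rw [h.inf_sup (h.cen_o (h.cen_sSup hS.1)), h1, ← inf_assoc, inf_idem, bot_sup_eq]

theorem o2_mono (S : Set L) (g : L → L ≃o L) :
    Monotone fun x => mix S (fun w => g w x) ⊔ o (sSup S) ⊓ x := fun x y hxy =>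
  sup_le_sup (iSup₂_mono fun w _ => inf_le_inf_left _ ((g w).monotone hxy))
    (inf_le_inf_left _ hxy)

theorem o2_inv (h : OM o) {S : Set L} (hS : Part o S) (g k : L → L ≃o L)
    (hk : ∀ w ∈ S, k w w = w) (hkg : ∀ w x, k w (g w x) = x) (x : L) :
    mix S (fun w => k w (mix S (fun w => g w x) ⊔ o (sSup S) ⊓ x)) ⊔
      o (sSup S) ⊓ (mix S (fun w => g w x) ⊔ o (sSup S) ⊓ x) = x := by
  refine h.eq_of_part hS (fun w hw => ?_) ?_
  · have h1 : ∀ y, w ⊓ k w y = k w (w ⊓ y) := fun y => by rw [(k w).map_inf, hk w hw]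
    rw [h.o2_in hS _ _ hw, h1, h.o2_in hS _ _ hw, ← h1, hkg]
  · rw [h.o2_out hS, h.o2_out hS]

theorem mix_aut (h : OM o) {S : Set L} (hS : Part o S) (g : L → L ≃o L)
    (hg : ∀ w ∈ S, ∀ z, Cen o z → g w z = z) : ∃ G : L ≃o L,
      (∀ w ∈ S, ∀ x, w ⊓ G x = w ⊓ g w x) ∧ ∀ x, o (sSup S) ⊓ G x = o (sSup S) ⊓ x := by
  have h1 : ∀ w ∈ S, g w w = w := fun w hw => hg w hw w (hS.1 w hw)
  have h2 : ∀ w ∈ S, (g w).symm w = w := fun w hw => (g w).symm_apply_eq.2 (h1 w hw).symm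
  refine ⟨Equiv.toOrderIso ⟨fun x => mix S (fun w => g w x) ⊔ o (sSup S) ⊓ x,
    fun x => mix S (fun w => (g w).symm x) ⊔ o (sSup S) ⊓ x,
    h.o2_inv hS g (fun w => (g w).symm) h2 fun w x => (g w).symm_apply_apply x,
    h.o2_inv hS (fun w => (g w).symm) g h1 fun w x => (g w).apply_symm_apply x⟩
    (o2_mono S g) (o2_mono S fun w => (g w).symm), fun w hw x => ?_, fun x => ?_⟩
  · exact h.o2_in hS (fun w => g w x) x hw
  · exact h.o2_out hS (fun w => g w x) x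

theorem mix_aut2 (h : OM o) (hz : Cen o z) (g k : L ≃o L) (hg : ∀ y, Cen o y → g y = y)
    (hk : ∀ y, Cen o y → k y = y) :
    ∃ G : L ≃o L, (∀ x, z ⊓ G x = z ⊓ g x) ∧ ∀ x, o z ⊓ G x = o z ⊓ k x := by
  classical
  have hS : Part o {z, o z} := by
    constructor
    · rintro _ (rfl | rfl)
      exacts [hz, h.cen_o hz]
    · rintro u (rfl | rfl) v (rfl | rfl) huv
      exacts [absurd rfl huv, h.inf_o _, h.o_inf_self _, absurd rfl huv]
  obtain ⟨G, hG, -⟩ := h.mix_aut hS (fun w => if w = z then g else k) (by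
    intro w _ y hy
    split_ifs
    exacts [hg y hy, hk y hy])
  refine ⟨G, fun x => ?_, fun x => ?_⟩
  · simpa using hG z (Set.mem_insert _ _) x
  · by_cases h1 : o z = z
    · have h2 : o z = ⊥ := by
        rw [← h.inf_o z, h1, inf_idem]
      rw [h2, bot_inf_eq, bot_inf_eq]
    · simpa [h1] using hG (o z) (Set.mem_insert_of_mem _ rfl) x

section Iso

variable {L' : Type*} [CompleteLattice L'] {o' : L' → L'}

theorem o2_cen (h : OM o) (h' : OM o') (e : L ≃o L') (hz : Cen o z) : Cen o' (e z) := by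
  refine h'.cen_iff.2 ⟨e (o z), by rw [← e.map_inf, h.inf_o, e.map_bot], fun x => ?_⟩
  obtain ⟨y, rfl⟩ := e.surjective x
  rw [← e.map_inf, ← e.map_inf, ← e.map_sup, ← hz y]

theorem o2_pt (h : OM o) (h' : OM o') (e : L ≃o L') (hp : Pt o p) : Pt o' (e p) := by
  intro x hx
  obtain ⟨y, rfl⟩ := e.surjective x
  obtain ⟨z, hz, h1⟩ := hp y (e.le_iff_le.1 hx)
  exact ⟨e z, o2_cen h h' e hz, by rw [← e.map_inf, ← h1]⟩

theorem cen_map (h : OM o) (h' : OM o') (e : L ≃o L') : Cen o' (e z) ↔ Cen o z := by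
  refine ⟨fun h1 => ?_, o2_cen h h' e⟩
  simpa using o2_cen h' h e.symm h1

theorem pt_map (h : OM o) (h' : OM o') (e : L ≃o L') : Pt o' (e p) ↔ Pt o p := by
  refine ⟨fun h1 => ?_, o2_pt h h' e⟩
  simpa using o2_pt h' h e.symm h1

theorem cov_map (h : OM o) (h' : OM o') (e : L ≃o L') (x : L) :
    cov o' (e x) = e (cov o x) := by
  refine le_antisymm ((h'.cov_le_iff (o2_cen h h' e (h.cen_cov x))).2 (e.monotone (h.le_cov x)))
    (e.le_symm_apply.1 ?_)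
  exact (h.cov_le_iff (o2_cen h' h e.symm (h'.cen_cov _))).2 (e.le_symm_apply.2 (h'.le_cov _))

end Iso

theorem o2_add (h : OM o) {m : L → ℝ} (hm : Meas o m) (hz : Cen o z) (hw : Cen o w) :
    m (z ⊔ w ⊓ o z) = m z + m (w ⊓ o z) :=
  hm.2.1 _ _ hz (h.cen_inf hw (h.cen_o hz))
    (le_bot_iff.1 ((inf_le_inf_left _ inf_le_right).trans (h.inf_o z).le))

theorem o2_meas_mono (h : OM o) {m : L → ℝ} (hm : Meas o m) (hz : Cen o z) (hw : Cen o w)
    (hzw : z ≤ w) : m z ≤ m w := by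
  have h1 := h.o2_add hm hz hw
  rw [h.om z w hzw] at h1
  linarith [hm.1 _ (h.cen_inf hw (h.cen_o hz))]

theorem exists_pos (h : OM o) {m : L → ℝ} (hm : Meas o m) (hz : Cen o z) (h0 : 0 < m z) :
    ∃ w, Cen o w ∧ w ≠ ⊥ ∧ w ≤ z ∧ ∀ y, Cen o y → y ≠ ⊥ → y ≤ w → 0 < m y := by
  set D : Set L := {y | Cen o y ∧ m y ≤ 0} with hD
  have hb : m ⊥ = 0 := by
    have h1 := hm.2.1 ⊥ ⊥ h.cen_bot h.cen_bot (inf_idem _)
    rw [sup_idem] at h1
    linarith
  have hdir : DirectedOn (· ≤ ·) D := by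
    intro u hu v hv
    have c1 := h.cen_inf hv.1 (h.cen_o hu.1)
    refine ⟨u ⊔ v ⊓ o u, ⟨h.cen_sup hu.1 c1, ?_⟩, le_sup_left, ?_⟩
    · rw [h.o2_add hm hu.1 hv.1]
      linarith [hu.2, hv.2, h.o2_meas_mono hm c1 hv.1 inf_le_left]
    · exact (hu.1 v).le.trans (sup_le_sup_right inf_le_right _)
  have c0 : Cen o (sSup D) := h.cen_sSup fun _ hy => hy.1
  have h1 : m (sSup D) ≤ 0 :=
    (hm.2.2 D (fun _ hy => hy.1) ⟨⊥, h.cen_bot, hb.le⟩ hdir).2 (by
      rintro _ ⟨y, hy, rfl⟩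
      exact hy.2)
  refine ⟨o (sSup D) ⊓ z, h.cen_inf (h.cen_o c0) hz, fun h2 => ?_, inf_le_right,
    fun y hy hy0 hyl => ?_⟩
  · linarith [h.o2_meas_mono hm hz c0 (h.le_of_o_inf c0 h2)]
  · by_contra h2
    exact hy0 (le_bot_iff.1 ((le_inf (le_sSup (show y ∈ D from ⟨hy, not_lt.1 h2⟩))
      (hyl.trans inf_le_left)).trans (h.inf_o _).le))

end OM

end Pool.Agent.P.MP_d8da86_an.CR
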