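import Pool.Agent.P.MP_d8da86_an.C.O2

/-!
Partitions, mixing, order isomorphisms, the centre as a Boolean algebra.
Hints. `exists_part`: Zorn on sets of pairwise disjoint nonzero central elements below w0 with Q.
`mix_aut`: G x = (⨆ w ∈ S, w ⊓ g w x) ⊔ o (sSup S) ⊓ x, the inverse is built from the inverses
(g w fixes w, so w ⊓ g w x = g w (w ⊓ x)). `exists_cenRep`: the subtype of central elements
below w. `CenRep.gen`: generators e n ⊓ w; for S in B look at the central x with x ⊓ w in j '' S.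
`exists_pos`: the null elements are directed, so their join n is null; take z ⊓ o n.
-/

open scoped InnerProductSpace ComplexConjugate

set_option linter.unusedSectionVars false
set_option linter.unusedVariables false

noncomputable section

namespace Pool.Agent.P.MP_d8da86_an.CR

universe u

variable {L : Type*} [CompleteLattice L] {o : L → L} {a b x y z w p : L}

theorem exists_cenRep {L : Type u} [CompleteLattice L] {o : L → L} (h : OM o) {w : L}
    (hw : Cen o w) :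
    ∃ (B : Type u) (_ : CompleteBooleanAlgebra B) (j : B → L), CenRep o w j := by
  let B : Type u := {z : L // Cen o z ∧ z ≤ w}
  let : PartialOrder B := Subtype.partialOrder _
  let : SupSet B := ⟨fun S => ⟨sSup (Subtype.val '' S), h.cen_sSup (by
    rintro _ ⟨a, -, rfl⟩
    exact a.2.1), sSup_le (by
    rintro _ ⟨a, -, rfl⟩
    exact a.2.2)⟩⟩
  let cl : CompleteLattice B := completeLatticeOfSup B fun S =>
    ⟨fun a ha => show a.1 ≤ sSup (Subtype.val '' S) from le_sSup ⟨a, ha, rfl⟩,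
      fun b hb => show sSup (Subtype.val '' S) ≤ b.1 from sSup_le (by
        rintro _ ⟨a, ha, rfl⟩
        exact hb ha)⟩
  have hle : ∀ a b : B, a ≤ b ↔ a.1 ≤ b.1 := fun _ _ => Iff.rfl
  have hinf : ∀ a b : B, (a ⊓ b).1 = a.1 ⊓ b.1 := fun a b =>
    le_antisymm (le_inf ((hle _ _).1 inf_le_left) ((hle _ _).1 inf_le_right))
      ((hle ⟨a.1 ⊓ b.1, h.cen_inf a.2.1 b.2.1, inf_le_left.trans a.2.2⟩ _).1
        (le_inf ((hle _ _).2 inf_le_left) ((hle _ _).2 inf_le_right)))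
  have hsup : ∀ a b : B, (a ⊔ b).1 = a.1 ⊔ b.1 := fun a b =>
    le_antisymm ((hle _ ⟨a.1 ⊔ b.1, h.cen_sup a.2.1 b.2.1, sup_le a.2.2 b.2.2⟩).1
        (sup_le ((hle _ _).2 le_sup_left) ((hle _ _).2 le_sup_right)))
      (sup_le ((hle _ _).1 le_sup_left) ((hle _ _).1 le_sup_right))
  let c : B → B := fun a => ⟨w ⊓ o a.1, h.cen_inf hw (h.cen_o a.2.1), inf_le_left⟩
  let : CompleteBooleanAlgebra B :=
    { cl with
      le_sup_inf := fun x y z => by
        rw [hle, hinf, hsup, hsup, hsup, hinf, h.sup_inf x.2.1 y.2.1, h.inf_sup y.2.1]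
        exact sup_le (inf_le_left.trans le_sup_left)
          (sup_le (inf_le_right.trans le_sup_left) le_sup_right)
      compl := c
      sdiff := fun a b => a ⊓ c b
      himp := fun a b => b ⊔ c a
      inf_compl_le_bot := fun a => by
        rw [hle, hinf]
        exact ((inf_le_inf_left _ inf_le_right).trans (h.inf_o a.1).le).trans bot_le
      top_le_sup_compl := fun a => by
        rw [hle, hsup]
        refine (⊤ : B).2.2.trans ?_
        exact h.le_of_cases a.2.1 (inf_le_left.trans le_sup_left)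
          ((inf_comm _ _).le.trans le_sup_right)
      sdiff_eq := fun _ _ => rfl
      himp_eq := fun _ _ => rfl }
  exact ⟨B, inferInstance, Subtype.val, fun a b => (hle a b).symm,
    fun z => ⟨fun ⟨a, ha⟩ => ha ▸ a.2, fun hz => ⟨⟨z, hz⟩, rfl⟩⟩⟩

theorem om_compl (B : Type*) [CompleteBooleanAlgebra B] : OM (compl : B → B) :=
  ⟨compl_anti, compl_involutive, fun _ => inf_compl_eq_bot, fun a b hab => by
    rw [sup_inf_left, sup_compl_eq_top, inf_top_eq, sup_eq_right.2 hab]⟩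

theorem cen_compl {B : Type*} [CompleteBooleanAlgebra B] (z : B) : Cen (compl : B → B) z := fun x => by
  rw [← inf_sup_left, sup_compl_eq_top, inf_top_eq]

namespace CenRep

variable {B : Type*} [CompleteBooleanAlgebra B] {j : B → L}

theorem cen (hj : CenRep o w j) (a : B) : Cen o (j a) :=
  ((hj.range _).1 ⟨a, rfl⟩).1

theorem le (hj : CenRep o w j) (a : B) : j a ≤ w :=
  ((hj.range _).1 ⟨a, rfl⟩).2

theorem inj (hj : CenRep o w j) : Function.Injective j := fun _ _ e =>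
  le_antisymm ((hj.le_iff _ _).1 e.le) ((hj.le_iff _ _).1 e.ge)

theorem map_top (hj : CenRep o w j) (hw : Cen o w) : j ⊤ = w := by
  obtain ⟨a, ha⟩ := (hj.range w).2 ⟨hw, le_rfl⟩
  exact le_antisymm (hj.le _) (ha.ge.trans ((hj.le_iff _ _).2 le_top))

theorem map_bot (hj : CenRep o w j) (h : OM o) : j ⊥ = ⊥ := by
  obtain ⟨a, ha⟩ := (hj.range ⊥).2 ⟨h.cen_bot, bot_le⟩
  exact le_bot_iff.1 (((hj.le_iff _ _).2 bot_le).trans ha.le)

theorem eq_bot_iff (hj : CenRep o w j) (h : OM o) {a : B} : j a = ⊥ ↔ a = ⊥ := by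
  rw [← hj.map_bot h, hj.inj.eq_iff]

theorem map_inf (hj : CenRep o w j) (h : OM o) (a b : B) : j (a ⊓ b) = j a ⊓ j b := by
  obtain ⟨c, hc⟩ := (hj.range (j a ⊓ j b)).2
    ⟨h.cen_inf (hj.cen a) (hj.cen b), inf_le_left.trans (hj.le a)⟩
  refine le_antisymm (le_inf ((hj.le_iff _ _).2 inf_le_left) ((hj.le_iff _ _).2 inf_le_right)) ?_
  rw [← hc, hj.le_iff]
  exact le_inf ((hj.le_iff _ _).1 (hc.le.trans inf_le_left))
    ((hj.le_iff _ _).1 (hc.le.trans inf_le_right))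

theorem map_sup (hj : CenRep o w j) (h : OM o) (a b : B) : j (a ⊔ b) = j a ⊔ j b := by
  obtain ⟨c, hc⟩ := (hj.range (j a ⊔ j b)).2
    ⟨h.cen_sup (hj.cen a) (hj.cen b), sup_le (hj.le a) (hj.le b)⟩
  refine le_antisymm ?_ (sup_le ((hj.le_iff _ _).2 le_sup_left) ((hj.le_iff _ _).2 le_sup_right))
  rw [← hc, hj.le_iff]
  exact sup_le ((hj.le_iff _ _).1 (le_sup_left.trans hc.ge))
    ((hj.le_iff _ _).1 (le_sup_right.trans hc.ge))

theorem map_sSup (hj : CenRep o w j) (h : OM o) (S : Set B) : j (sSup S) = sSup (j '' S) := by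
  have h1 : ∀ x ∈ j '' S, Cen o x ∧ x ≤ w := by
    rintro _ ⟨a, -, rfl⟩
    exact ⟨hj.cen a, hj.le a⟩
  obtain ⟨c, hc⟩ := (hj.range (sSup (j '' S))).2
    ⟨h.cen_sSup fun x hx => (h1 x hx).1, sSup_le fun x hx => (h1 x hx).2⟩
  refine le_antisymm ?_ (sSup_le ?_)
  · rw [← hc, hj.le_iff]
    exact sSup_le fun a ha => (hj.le_iff _ _).1 ((le_sSup (Set.mem_image_of_mem j ha)).trans hc.ge)
  · rintro _ ⟨a, ha, rfl⟩
    exact (hj.le_iff _ _).2 (le_sSup ha)

theorem map_compl (hj : CenRep o w j) (h : OM o) (hw : Cen o w) (a : B) :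
    j aᶜ = w ⊓ o (j a) := by
  have h1 : j a ⊓ j aᶜ = ⊥ := by rw [← hj.map_inf h, inf_compl_eq_bot, hj.map_bot h]
  have h2 : j a ⊔ j aᶜ = w := by rw [← hj.map_sup h, sup_compl_eq_top, hj.map_top hw]
  refine le_antisymm (le_inf (hj.le _) ((h.le_o_iff (hj.cen a)).2 h1)) ?_
  rw [inf_comm, ← h2, h.inf_sup (h.cen_o (hj.cen a)), h.o_inf_self, bot_sup_eq]
  exact inf_le_right

theorem exists_inf (hj : CenRep o w j) (h : OM o) (hw : Cen o w) (hz : Cen o z) :
    ∃ a, j a = z ⊓ w :=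
  (hj.range _).2 ⟨h.cen_inf hz hw, inf_le_right⟩

theorem gen (hj : CenRep o w j) (h : OM o) (hw : Cen o w) (hg : GenAx o) :
    GenAx (compl : B → B) := by
  obtain ⟨e, he, hgen⟩ := hg
  choose e' he' using fun n => hj.exists_inf h hw (he n)
  refine ⟨e', fun n => cen_compl _, fun S h1 h2 h3 z _ => ?_⟩
  have key := hgen {x | Cen o x ∧ ∃ a ∈ S, j a = x ⊓ w} (fun n => ⟨he n, e' n, h1 n, he' n⟩)
    (by
      rintro x ⟨hx, a, ha, e⟩
      refine ⟨h.cen_o hx, aᶜ, h2 a ha, ?_⟩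
      rw [hj.map_compl h hw, e, inf_comm x w, h.cen_inf_o hw, inf_comm])
    (by
      intro T hT
      have hc : ∀ x ∈ T, Cen o x := fun x hx => (hT hx).1
      refine ⟨h.cen_sSup hc, sSup {a | a ∈ S ∧ ∃ x ∈ T, j a = x ⊓ w},
        h3 _ fun a ha => ha.1, ?_⟩
      rw [hj.map_sSup h, h.sSup_inf hc]
      refine le_antisymm (sSup_le ?_) (iSup₂_le fun x hx => ?_)
      · rintro _ ⟨a, ⟨-, x, hx, e⟩, rfl⟩
        exact e.le.trans (le_iSup₂ (f := fun x (_ : x ∈ T) => x ⊓ w) x hx)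
      · obtain ⟨-, a, ha, e⟩ := hT hx
        exact le_sSup ⟨a, ⟨ha, x, hx, e⟩, e⟩)
    (j z) (hj.cen z)
  obtain ⟨-, a, ha, e⟩ := key
  rw [inf_eq_left.2 (hj.le z)] at e
  exact hj.inj e ▸ ha

theorem bmeas (hj : CenRep o w j) (h : OM o) {m : L → ℝ} (hm : Meas o m)
    (h0 : ∀ y, Cen o y → y ≠ ⊥ → y ≤ w → 0 < m y) : BMeas fun a => m (j a) := by
  refine ⟨fun z hz => h0 _ (hj.cen z) (fun e => hz ((hj.eq_bot_iff h).1 e)) (hj.le z),
    fun z z' hz => ?_, fun D hD hd => ?_⟩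
  · rw [hj.map_sup h]
    exact hm.2.1 _ _ (hj.cen z) (hj.cen z') (by rw [← hj.map_inf h, hz, hj.map_bot h])
  · have := hm.2.2 (j '' D) (by
      rintro _ ⟨a, -, rfl⟩
      exact hj.cen a) (hD.image j) (by
      rintro _ ⟨a, ha, rfl⟩ _ ⟨b, hb, rfl⟩
      obtain ⟨c, hc, h1, h2⟩ := hd a ha b hb
      exact ⟨j c, ⟨c, hc, rfl⟩, (hj.le_iff _ _).2 h1, (hj.le_iff _ _).2 h2⟩)
    rwa [Set.image_image, ← hj.map_sSup h] at this

/-- below a central point every element is central -/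
theorem iso_of_pt (hj : CenRep o w j) (h : OM o) (hw : Cen o w) (hp : Pt o w) :
    Nonempty (Set.Iic w ≃o B) := by
  let f : B ↪o Set.Iic w := OrderEmbedding.ofMapLEIff (fun a => ⟨j a, hj.le a⟩) hj.le_iff
  refine ⟨(RelIso.ofSurjective f fun x => ?_).symm⟩
  obtain ⟨z, hz, e⟩ := hp x.1 x.2
  obtain ⟨a, ha⟩ := hj.exists_inf h hw hz
  exact ⟨a, Subtype.ext (ha.trans ((inf_comm _ _).trans e.symm))⟩

end CenRep

end Pool.Agent.P.MP_d8da86_an.CR
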