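import Pool.Agent.P.MP_d8da86_an.C.O2b

/-!
Points: exchange, modularity, lines.
Hints. `exch`: u = (x ⊔ a) ⊓ o x is a point, v = (x ⊔ b) ⊓ o x ≤ u, c = cov v, v = c ⊓ u,
c ⊓ (a ⊔ x) = c ⊓ x ⊔ c ⊓ u ≤ x ⊔ v = b ⊔ x, and o c ⊓ b ≤ x gives b ≤ c.
`modular`: `loc_le` and `pt_dich`; if w ⊓ a ⊓ y = ⊥ then t = w ⊓ (x ⊔ a) ⊓ y ⊓ o x is a point,
`exch` gives cov t ⊓ a ≤ y so t = ⊥, then `eq_of_le`.
`pt_of_le_sup`: for t ≤ x take z = cov ((t ⊔ a) ⊓ o a) and show t = x ⊓ z with `modular`.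
`veb'`: l = a ⊔ c, u = (y ⊔ a) ⊓ o y, y = (a ⊔ y) ⊓ o u, b = l ⊓ o u, s = (o l ⊔ u) ⊓ l is a point,
l ⊓ o s = b, l = s ⊔ b, then `exch` for a ≤ s ⊔ b; below o (cov a) one has c ≤ y.
`veb`: below cov (a ⊓ y) take c itself, elsewhere use `veb'`.
`third_of_line`: z = cov a ⊓ cov e, s = (z ⊓ e ⊔ z ⊓ a) ⊓ o (z ⊓ e); among c 0, c 1, c 2 one
avoids a and e locally (cov (c t ⊓ a) are pairwise disjoint, also cov (c t ⊓ e)); mix.
-/

open scoped InnerProductSpace ComplexConjugate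

set_option linter.unusedSectionVars false
set_option linter.unusedVariables false

noncomputable section

namespace Pool.Agent.P.MP_d8da86_an.CR

universe u

variable {L : Type*} [CompleteLattice L] {o : L → L} {a b c d e x y z w p q : L}

namespace Geo

/-- off the central cover of `a ⊓ x` the point `a` misses `x` -/
theorem o_cov_inf (h : Geo o) (a x : L) : o (cov o (a ⊓ x)) ⊓ a ⊓ x = ⊥ := by
  rw [inf_assoc, ← le_bot_iff, ← h.toOM.o_inf_self (cov o (a ⊓ x))]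
  exact inf_le_inf_left _ (h.toOM.le_cov _)

theorem cov_inf_le (h : Geo o) (ha : Pt o a) (x : L) : cov o (a ⊓ x) ⊓ a ≤ x := by
  rw [← h.toOM.pt_eq ha (inf_le_left : a ⊓ x ≤ a)]
  exact inf_le_right

theorem o3_o_cov (h : Geo o) (a : L) : o (cov o a) ⊓ a = ⊥ := by
  rw [← le_bot_iff, ← h.toOM.o_inf_self (cov o a)]
  exact inf_le_inf_left _ (h.toOM.le_cov _)

theorem o3_off (h : Geo o) (hz : Cen o z) (ha : z ⊓ a = ⊥) (x : L) : z ⊓ (a ⊔ x) ≤ x := by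
  rw [h.toOM.inf_sup hz, ha, bot_sup_eq]
  exact inf_le_right

theorem o3_bot (h : Geo o) (hz : Cen o z) (h1 : z ≤ cov o a) (h2 : z ⊓ a = ⊥) : z = ⊥ := by
  have := (h.toOM.inf_eq_bot_iff hz).1 h2
  rwa [inf_eq_left.2 h1] at this

theorem pt_dich (h : Geo o) (ha : Pt o a) (x : L) (hz : Cen o z) (h0 : z ≠ ⊥) :
    ∃ w, Cen o w ∧ w ≠ ⊥ ∧ w ≤ z ∧ (w ⊓ a ≤ x ∨ (w ≤ cov o a ∧ w ⊓ a ⊓ x = ⊥)) := by
  by_cases h1 : z ⊓ cov o (a ⊓ x) = ⊥
  · by_cases h2 : z ⊓ cov o a = ⊥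
    · refine ⟨z, hz, h0, le_rfl, Or.inl ?_⟩
      rw [(h.toOM.inf_eq_bot_iff hz).2 h2]
      exact bot_le
    · refine ⟨z ⊓ cov o a, h.toOM.cen_inf hz (h.toOM.cen_cov _), h2, inf_le_left,
        Or.inr ⟨inf_le_right, ?_⟩⟩
      rw [inf_assoc, ← le_bot_iff, ← h1]
      exact inf_le_inf inf_le_left (h.toOM.le_cov _)
  · exact ⟨z ⊓ cov o (a ⊓ x), h.toOM.cen_inf hz (h.toOM.cen_cov _), h1, inf_le_left,
      Or.inl ((inf_le_inf_right _ inf_le_right).trans (h.cov_inf_le ha x))⟩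

theorem eq_sSup_pts (h : Geo o) (x : L) : x = sSup {p | Pt o p ∧ p ≤ x} := by
  refine (h.toOM.eq_of_le (sSup_le fun p hp => hp.2) ?_).symm
  by_contra h0
  obtain ⟨p, hp, hp0, hle⟩ := h.dense _ h0
  refine hp0 (le_bot_iff.1 ?_)
  rw [← h.inf_o (sSup {p | Pt o p ∧ p ≤ x})]
  exact le_inf (le_sSup ⟨hp, hle.trans inf_le_left⟩) (hle.trans inf_le_right)

theorem le_of_pts (h : Geo o) (hl : ∀ p, Pt o p → p ≤ x → p ≤ y) : x ≤ y := by
  rw [h.eq_sSup_pts x]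
  exact sSup_le fun p hp => hl p hp.1 hp.2

theorem sup_sasaki (h : Geo o) (x a : L) : x ⊔ (x ⊔ a) ⊓ o x = x ⊔ a :=
  h.om x (x ⊔ a) le_sup_left

theorem sasaki_le_cov (h : Geo o) (x a : L) : (x ⊔ a) ⊓ o x ≤ cov o a := by
  refine h.toOM.le_of_o_inf (h.toOM.cen_cov a) (le_bot_iff.1 ?_)
  rw [← h.inf_o x, ← inf_assoc, sup_comm]
  exact inf_le_inf_right _ (h.o3_off (h.toOM.cen_o (h.toOM.cen_cov a)) (h.o3_o_cov a) x)

/-- a point lies on a line joining a point of `x` and a point of `o x` -/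
theorem split (h : Geo o) (ha : Pt o a) (x : L) : ∃ b c, Pt o b ∧ Pt o c ∧ b ≤ x ∧ c ≤ o x ∧
    b ≤ cov o a ∧ c ≤ cov o a ∧ a ≤ b ⊔ c := by
  have hb : (o x ⊔ a) ⊓ o (o x) ≤ x := by
    rw [h.toOM.oo]
    exact inf_le_right
  have hc : (x ⊔ a) ⊓ o x ≤ o x := inf_le_right
  refine ⟨(o x ⊔ a) ⊓ o (o x), (x ⊔ a) ⊓ o x, h.cover a (o x) ha, h.cover a x ha, hb, hc,
    h.sasaki_le_cov _ _, h.sasaki_le_cov _ _, ?_⟩
  have e1 := h.sup_sasaki x a
  have e2 := h.sup_sasaki (o x) a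
  generalize (o x ⊔ a) ⊓ o (o x) = b at *
  generalize (x ⊔ a) ⊓ o x = c at *
  have h1 : o c ⊓ (x ⊔ c) = x := by
    have := h.toOM.om' (h.toOM.perp_comm.1 hc)
    rwa [h.toOM.oo] at this
  have h2 : o b ⊓ (o x ⊔ b) = o x := by
    have := h.toOM.om' (h.anti hb)
    rwa [h.toOM.oo] at this
  have h3 : b ⊔ c = (x ⊔ c) ⊓ (o x ⊔ b) := by
    refine h.toOM.eq_of_le (le_inf (sup_le_sup_right hb _)
      (sup_le le_sup_right (hc.trans le_sup_left))) (le_bot_iff.1 ?_)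
    rw [h.toOM.o_sup, ← h.inf_o x]
    refine le_inf (le_of_le_of_eq ?_ h1) (le_of_le_of_eq ?_ h2)
    · exact le_inf (inf_le_right.trans inf_le_right) (inf_le_left.trans inf_le_left)
    · exact le_inf (inf_le_right.trans inf_le_left) (inf_le_left.trans inf_le_right)
  rw [h3, e1, e2]
  exact le_inf le_sup_right le_sup_right

theorem cov_le_of_le_sup (h : Geo o) (hb : b ≤ a ⊔ x) (h0 : b ⊓ x = ⊥) :
    cov o b ≤ cov o a := by
  refine (h.toOM.cov_le_iff (h.toOM.cen_cov a)).2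
    (h.toOM.le_of_o_inf (h.toOM.cen_cov a) (le_bot_iff.1 ?_))
  rw [← h0]
  exact le_inf inf_le_right ((inf_le_inf_left _ hb).trans
    (h.o3_off (h.toOM.cen_o (h.toOM.cen_cov a)) (h.o3_o_cov a) x))

/-- below the cover of the projection of `b` the joins with `x` agree -/
theorem o3_loc (h : Geo o) (ha : Pt o a) (hb : b ≤ x ⊔ a) :
    cov o ((x ⊔ b) ⊓ o x) ⊓ (x ⊔ a) ≤ x ⊔ b := by
  have hv : (x ⊔ b) ⊓ o x ≤ (x ⊔ a) ⊓ o x := inf_le_inf_right _ (sup_le le_sup_left hb)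
  have e := h.toOM.pt_eq (h.cover a x ha) hv
  rw [← h.sup_sasaki x a, h.toOM.inf_sup (h.toOM.cen_cov _), ← e]
  exact sup_le (inf_le_right.trans le_sup_left) inf_le_left

theorem o3_cov_le (h : Geo o) (h0 : b ⊓ x = ⊥) : cov o b ≤ cov o ((x ⊔ b) ⊓ o x) := by
  refine h.cov_le_of_le_sup (x := x) ?_ h0
  rw [sup_comm, h.sup_sasaki]
  exact le_sup_right

theorem exch (h : Geo o) (ha : Pt o a) (hb : b ≤ a ⊔ x) (h0 : b ⊓ x = ⊥) :
    cov o b ⊓ a ≤ b ⊔ x := by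
  rw [sup_comm] at hb ⊢
  exact (inf_le_inf (h.o3_cov_le h0) le_sup_right).trans (h.o3_loc ha hb)

theorem modular (h : Geo o) (ha : Pt o a) (hxy : x ≤ y) : (x ⊔ a) ⊓ y = x ⊔ a ⊓ y := by
  refine le_antisymm (h.toOM.loc_le fun z hz h0 _ => ?_)
    (sup_le (le_inf le_sup_left hxy) (inf_le_inf_right _ le_sup_right))
  obtain ⟨w, hw, hw0, hwz, h1 | ⟨h1, h2⟩⟩ := h.pt_dich ha y hz h0
  · refine ⟨w, hw, hw0, hwz, (inf_le_inf_left _ inf_le_left).trans ?_⟩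
    rw [h.toOM.inf_sup hw]
    exact sup_le_sup inf_le_right (le_inf inf_le_right h1)
  · refine ⟨w, hw, hw0, hwz, ?_⟩
    have h3 : w ⊓ x = w ⊓ ((x ⊔ a) ⊓ y) := by
      refine h.toOM.eq_of_le (inf_le_inf_left _ (le_inf le_sup_left hxy)) ?_
      set t := w ⊓ ((x ⊔ a) ⊓ y) ⊓ o (w ⊓ x) with ht
      have tw : t ≤ w := inf_le_left.trans inf_le_left
      have ty : t ≤ y := inf_le_left.trans (inf_le_right.trans inf_le_right)
      have ta : t ≤ a ⊔ x := by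
        rw [sup_comm]
        exact inf_le_left.trans (inf_le_right.trans inf_le_left)
      have tx : t ⊓ x = ⊥ := by
        rw [← le_bot_iff, ← h.inf_o (w ⊓ x)]
        exact le_inf (inf_le_inf_right _ tw) (inf_le_left.trans inf_le_right)
      have cw : cov o t ≤ w := (h.toOM.cov_le_iff hw).2 tw
      refine h.toOM.cov_eq_bot.1 (h.o3_bot (h.toOM.cen_cov t) (cw.trans h1) (le_bot_iff.1 ?_))
      rw [← h2]
      exact le_inf (inf_le_inf_right _ cw) ((h.exch ha ta tx).trans (sup_le ty hxy))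
    rw [← h3]
    exact inf_le_right.trans le_sup_left

theorem pt_of_le_sup (h : Geo o) (ha : Pt o a) (hc : Pt o c) (hx : x ≤ a ⊔ c) (h0 : x ⊓ a = ⊥) :
    Pt o x := by
  intro t ht
  have t0 : t ⊓ a = ⊥ := le_bot_iff.1 (h0 ▸ inf_le_inf_right _ ht)
  refine ⟨cov o ((a ⊔ t) ⊓ o a), h.toOM.cen_cov _,
    le_antisymm (le_inf ht ((h.toOM.le_cov t).trans (h.o3_cov_le t0))) ?_⟩
  have h1 : x ⊓ cov o ((a ⊔ t) ⊓ o a) ≤ (t ⊔ a) ⊓ x := by
    refine le_inf ?_ inf_le_left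
    rw [sup_comm t, inf_comm]
    exact (inf_le_inf_left _ hx).trans (h.o3_loc hc (ht.trans hx))
  rwa [h.modular ha ht, inf_comm a x, h0, sup_bot_eq] at h1

theorem veb' (h : Geo o) (ha : Pt o a) (hc : Pt o c) (hy : c ≤ a ⊔ y) (h0 : a ⊓ y = ⊥) :
    Pt o ((a ⊔ c) ⊓ y) ∧ c ≤ a ⊔ (a ⊔ c) ⊓ y := by
  have ab : a ⊓ ((a ⊔ c) ⊓ y) = ⊥ := le_bot_iff.1 (h0 ▸ inf_le_inf_left _ inf_le_right)
  refine ⟨h.pt_of_le_sup ha hc inf_le_left (by rw [inf_comm, ab]), ?_⟩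
  have hu := h.cover a y ha
  have e1 := h.sup_sasaki y a
  have uy : (y ⊔ a) ⊓ o y ≤ o y := inf_le_right
  generalize (y ⊔ a) ⊓ o y = u at hu e1 uy
  have al : a ≤ a ⊔ c := le_sup_left
  have cl : c ≤ a ⊔ c := le_sup_right
  have ly : a ⊔ c ≤ y ⊔ u := by
    rw [e1, sup_comm y]
    exact sup_le le_sup_left hy
  generalize a ⊔ c = l at ab al cl ly ⊢
  have e2 : o u ⊓ (y ⊔ u) = y := by
    have := h.toOM.om' (h.toOM.perp_comm.1 uy)
    rwa [h.toOM.oo] at this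
  have e3 : l ⊓ y = l ⊓ o u := by
    refine le_antisymm (inf_le_inf_left _ (h.toOM.perp_comm.1 uy)) (le_inf inf_le_left ?_)
    exact le_of_le_of_eq (le_inf inf_le_right (inf_le_left.trans ly)) e2
  have hs := h.cover u (o l) hu
  rw [h.toOM.oo] at hs
  have e4 : l ⊓ o ((o l ⊔ u) ⊓ l) = l ⊓ y := by
    rw [h.toOM.o_inf, h.toOM.o_sup, h.toOM.oo, h.toOM.om' inf_le_left, e3]
  have e5 : (o l ⊔ u) ⊓ l ⊔ l ⊓ y = l := by
    rw [← e4]
    exact h.om _ _ inf_le_right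
  generalize (o l ⊔ u) ⊓ l = s at hs e5
  have h1 := h.exch hs (al.trans e5.ge) ab
  refine h.toOM.le_of_cases (h.toOM.cen_cov a) ((inf_le_inf_left _ (cl.trans e5.ge)).trans ?_) ?_
  · rw [h.toOM.inf_sup (h.toOM.cen_cov a)]
    exact sup_le h1 (inf_le_right.trans le_sup_right)
  · refine le_trans (le_inf (inf_le_right.trans cl) ?_) le_sup_right
    exact (inf_le_inf_left _ hy).trans
      (h.o3_off (h.toOM.cen_o (h.toOM.cen_cov a)) (h.o3_o_cov a) y)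

theorem veb (h : Geo o) (ha : Pt o a) (hc : Pt o c) (hy : c ≤ a ⊔ y) :
    ∃ b, Pt o b ∧ b ≤ y ∧ b ≤ a ⊔ c ∧ c ≤ a ⊔ b := by
  have hz := h.toOM.cen_cov (a ⊓ y)
  have h1 := h.cov_inf_le ha y
  have h2 := h.o_cov_inf a y
  generalize cov o (a ⊓ y) = z at hz h1 h2
  have hy' : o z ⊓ c ≤ o z ⊓ a ⊔ y := by
    refine (inf_le_inf_left _ hy).trans ?_
    rw [h.toOM.inf_sup (h.toOM.cen_o hz)]
    exact sup_le_sup_left inf_le_right _
  obtain ⟨hb, h3⟩ := h.veb' (h.toOM.pt_mono ha inf_le_right) (h.toOM.pt_mono hc inf_le_right)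
    hy' h2
  refine ⟨_, h.toOM.pt_mix2 hz hc hb, sup_le ((inf_le_inf_left _ hy).trans ?_)
    (inf_le_right.trans inf_le_right), sup_le (inf_le_right.trans le_sup_right)
    (inf_le_right.trans (inf_le_left.trans (sup_le_sup inf_le_right inf_le_right))),
    h.toOM.le_of_cases hz (le_sup_left.trans le_sup_right) (h3.trans ?_)⟩
  · rw [h.toOM.inf_sup hz]
    exact sup_le h1 inf_le_right
  · refine sup_le_sup inf_le_right (le_trans (le_inf ?_ le_rfl) le_sup_right)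
    exact inf_le_left.trans (sup_le inf_le_left inf_le_left)

theorem perp_symm (h : Geo o) (ha : Pt o a) (hp : Pt o p) (h0 : a ⊓ o p = ⊥)
    (hc : cov o p ≤ cov o a) : p ⊓ o a = ⊥ := by
  have hz := h.toOM.cen_cov (p ⊓ o a)
  refine h.toOM.cov_eq_bot.1 (h.o3_bot hz ((h.toOM.cov_mono inf_le_left).trans hc)
    (le_bot_iff.1 ?_))
  have h1 : a ≤ o (cov o (p ⊓ o a) ⊓ p) := h.toOM.perp_comm.1 (h.cov_inf_le hp (o a))
  rw [← h0]
  refine le_inf inf_le_right ((inf_le_inf_left _ h1).trans ?_)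
  rw [h.toOM.cen_inf_o hz]
  exact inf_le_right

/-- two disjoint points of a line span it -/
theorem span_line (h : Geo o) (hp : Pt o p) (hq : Pt o q) (ha : Pt o a) (hb : Pt o b)
    (h1 : a ≤ p ⊔ q) (h2 : b ≤ p ⊔ q) (h0 : a ⊓ b = ⊥) :
    cov o a ⊓ cov o b ⊓ (p ⊔ q) ≤ a ⊔ b := by
  refine h.toOM.loc_le fun z hz hz0 hzc => ?_
  have hzc' : z ≤ cov o a ⊓ cov o b := hzc.trans ((h.toOM.cov_le_iff
    (h.toOM.cen_inf (h.toOM.cen_cov a) (h.toOM.cen_cov b))).2 inf_le_left)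
  obtain ⟨w, hw, hw0, hwz, hd⟩ := h.pt_dich ha q hz hz0
  have ca : cov o (w ⊓ a) = w := by
    rw [h.toOM.cov_inf hw, inf_eq_left.2 ((hwz.trans hzc').trans inf_le_left)]
  have cb : cov o (w ⊓ b) = w := by
    rw [h.toOM.cov_inf hw, inf_eq_left.2 ((hwz.trans hzc').trans inf_le_right)]
  obtain ⟨r, hr, hl⟩ : ∃ r, Pt o r ∧ w ⊓ (p ⊔ q) ≤ r ⊔ a := by
    rcases hd with hd | ⟨-, hd⟩
    · refine ⟨p, hp, ?_⟩
      have e : w ⊓ a = w ⊓ q := h.toOM.pt_eq_of_cov (h.toOM.pt_mono hq inf_le_right)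
        (le_inf inf_le_left hd) (by rw [ca]; exact (h.toOM.cov_le_iff hw).2 inf_le_left)
      rw [h.toOM.inf_sup hw, ← e]
      exact sup_le_sup inf_le_right inf_le_right
    · refine ⟨q, hq, ?_⟩
      have e := h.exch hp (inf_le_right.trans h1) hd
      rw [ca] at e
      rw [h.toOM.inf_sup hw]
      exact sup_le (e.trans (sup_le (inf_le_right.trans le_sup_right) le_sup_left))
        (inf_le_right.trans le_sup_left)
  have e := h.exch hr ((inf_le_inf_left w h2).trans hl)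
    (le_bot_iff.1 (h0 ▸ le_inf inf_le_right (inf_le_left.trans inf_le_right)))
  rw [cb] at e
  refine ⟨w, hw, hw0, hwz, (inf_le_inf_left _ inf_le_right).trans
    ((le_inf inf_le_left hl).trans ?_)⟩
  rw [h.toOM.inf_sup hw]
  exact sup_le (e.trans (sup_le (inf_le_right.trans le_sup_right) le_sup_left))
    (inf_le_right.trans le_sup_left)

/-- orthogonal parts of a point have disjoint covers -/
theorem cov_disj (h : Geo o) (hp : Pt o p) (ha : a ≤ p) (hb : b ≤ p) (h0 : a ⊓ b = ⊥) :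
    cov o a ⊓ cov o b = ⊥ := by
  refine h.o3_bot (a := p) (h.toOM.cen_inf (h.toOM.cen_cov a) (h.toOM.cen_cov b))
    (inf_le_left.trans (h.toOM.cov_mono ha)) (le_bot_iff.1 ?_)
  rw [← h0]
  exact le_inf (le_of_le_of_eq (inf_le_inf_right _ inf_le_left) (h.toOM.pt_eq hp ha).symm)
    (le_of_le_of_eq (inf_le_inf_right _ inf_le_right) (h.toOM.pt_eq hp hb).symm)

end Geo

end Pool.Agent.P.MP_d8da86_an.CR
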