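import Pool.Agent.P.MP_d8da86_an.C.O3b

/-!
Lines: the local criterion for the condition on lines, and the two-dimensional case.
Hints. `line_of_loc`: for w and c as in the hypothesis take by Zorn a maximal set F of points
x ≤ w ⊓ (p ⊔ q) with cov x = w, pairwise disjoint, containing the w ⊓ c t; it has the cardinality
of the continuum. There is a nonzero central w' ≤ w such that every point x ≤ w' ⊓ (p ⊔ q) is the
join of the x ⊓ f: otherwise `exists_part` and `pt_mix` give a point with cover w disjoint from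
all members of F. Index F by the reals, then `exists_part` for cov p and mix the families.
`iso_of_line`: Rel x x' says j b ⊓ c t ≤ x ↔ j' b ⊓ c' t ≤ x' for all b, t. Every x ≤ w is the join
of the j b ⊓ c t below it, so Rel preserves the order. For x put x' = the join of the
j' b ⊓ c' t with j b ⊓ c t ≤ x and use `line_cases` with `loc_le`. The situation is symmetric.
-/

open scoped InnerProductSpace ComplexConjugate

set_option linter.unusedSectionVars false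
set_option linter.unusedVariables false

noncomputable section

namespace Pool.Agent.P.MP_d8da86_an.CR

universe u

variable {L : Type u} [CompleteLattice L] {o : L → L} {x z w p q : L}

theorem o4_le_mix {S : Set L} (g : L → L) (hw : w ∈ S) : w ⊓ g w ≤ mix S g :=
  le_iSup₂ (f := fun w (_ : w ∈ S) => w ⊓ g w) w hw

theorem o4_mix_le {S : Set L} {g : L → L} (hg : ∀ w ∈ S, g w ≤ x) : mix S g ≤ x :=
  iSup₂_le fun w hw => inf_le_right.trans (hg w hw)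

theorem o4_cov_mix (h : OM o) {S : Set L} (hS : Part o S) {g : L → L}
    (hg : ∀ w ∈ S, w ≤ cov o (g w)) : sSup S ≤ cov o (mix S g) := by
  refine sSup_le fun w hw => le_trans ?_ (h.cov_mono (o4_le_mix g hw))
  rw [h.cov_inf (hS.1 w hw)]
  exact le_inf le_rfl (hg w hw)

/-- a maximal family of disjoint points is exhaustive below some nonzero central element -/
theorem o4_exh (h : OM o) {l : L} (hw : Cen o w) (h0 : w ≠ ⊥) {F : Set L}
    (hF : ∀ m, Pt o m → m ≤ w ⊓ l → w ≤ cov o m → (∀ f ∈ F, m ⊓ f = ⊥) → m ∈ F) :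
    ∃ w', Cen o w' ∧ w' ≠ ⊥ ∧ w' ≤ w ∧ ∀ x, Pt o x → x ≤ w' ⊓ l → x ≤ ⨆ f ∈ F, x ⊓ f := by
  by_contra hcon
  obtain ⟨S, hS, hsup, hQ⟩ := h.exists_part hw
    (fun u => ∃ x, Pt o x ∧ x ≤ l ∧ u ≤ cov o x ∧ ∀ f ∈ F, u ⊓ x ⊓ f = ⊥) fun z hz z0 hzw => by
      obtain ⟨x, hx, hxl, hn⟩ : ∃ x, Pt o x ∧ x ≤ z ⊓ l ∧ ¬x ≤ ⨆ f ∈ F, x ⊓ f := by
        by_contra h1
        refine hcon ⟨z, hz, z0, hzw, fun x hx hxl => ?_⟩
        by_contra h2
        exact h1 ⟨x, hx, hxl, h2⟩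
      obtain ⟨y, hy⟩ : ∃ y, y = ⨆ f ∈ F, x ⊓ f := ⟨_, rfl⟩
      have hyx : y ≤ x := hy ▸ iSup₂_le fun f _ => inf_le_left
      refine ⟨o (cov o y) ⊓ cov o x, h.cen_inf (h.cen_o (h.cen_cov y)) (h.cen_cov x),
        fun h1 => hn ?_, inf_le_right.trans ((h.cov_le_iff hz).2 (hxl.trans inf_le_left)), x, hx,
        hxl.trans inf_le_right, inf_le_right, fun f hf => ?_⟩
      · rw [← hy, h.pt_eq hx hyx]
        exact le_inf ((h.le_cov x).trans (h.le_of_o_inf (h.cen_cov y) h1)) le_rfl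
      · have h2 : x ⊓ f ≤ cov o y :=
          le_trans (hy ▸ le_iSup₂ (f := fun f (_ : f ∈ F) => x ⊓ f) f hf) (h.le_cov y)
        rw [inf_assoc, ← le_bot_iff, ← h.o_inf_self (cov o y)]
        exact inf_le_inf inf_le_left h2
  choose! g hg1 hg2 hg3 hg4 using fun u (hu : u ∈ S) => (hQ u hu).2
  have hc : w ≤ cov o (mix S g) := hsup ▸ o4_cov_mix h hS hg3
  have hd : ∀ f ∈ F, mix S g ⊓ f = ⊥ := fun f hf => le_bot_iff.1
    (h.le_of_part hS (inf_le_left.trans (OM.mix_le_sSup S g)) fun u hu => by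
      rw [← inf_assoc, h.inf_mix hS g hu, hg4 u hu f hf])
  have hm := hd _ (hF _ (h.pt_mix hS fun u hu => h.pt_mono (hg1 u hu) inf_le_right)
    (le_inf (hsup ▸ OM.mix_le_sSup S g) (o4_mix_le hg2)) hc hd)
  rw [inf_idem] at hm
  rw [hm, h.cov_eq_bot.2 rfl] at hc
  exact h0 (le_bot_iff.1 hc)

theorem o4_loc (h : OM o) {l : L} (hw : Cen o w) (h0 : w ≠ ⊥)
    (hcard : Cardinal.mk (Set.Iic (w ⊓ l)) ≤ Cardinal.continuum) {c : ℝ → L}
    (hc : ∀ t, Pt o (c t) ∧ c t ≤ l ∧ w ≤ cov o (c t)) (hd : ∀ s t, s ≠ t → w ⊓ c s ⊓ c t = ⊥) :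
    ∃ w', Cen o w' ∧ w' ≠ ⊥ ∧ w' ≤ w ∧ ∃ d : ℝ → L,
      (∀ t, Pt o (d t) ∧ d t ≤ l ∧ w' ≤ cov o (d t)) ∧ (∀ s t, s ≠ t → d s ⊓ d t = ⊥) ∧
      ∀ x, Pt o x → x ≤ w' ⊓ l → x ≤ ⨆ t, x ⊓ d t := by
  have hcov : ∀ t, w ≤ cov o (w ⊓ c t) := fun t => by
    rw [h.cov_inf hw]
    exact le_inf le_rfl (hc t).2.2
  have hdd : ∀ s t, s ≠ t → w ⊓ c s ⊓ (w ⊓ c t) = ⊥ := fun s t hst =>
    le_bot_iff.1 ((inf_le_inf_left _ inf_le_right).trans (hd s t hst).le)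
  obtain ⟨F, hF0, hF⟩ := zorn_subset_nonempty
    {F : Set L | (∀ x ∈ F, Pt o x ∧ x ≤ w ⊓ l ∧ w ≤ cov o x) ∧ F.Pairwise fun a b => a ⊓ b = ⊥}
    (fun C hC hch _ => ⟨⋃₀ C, ⟨fun x ⟨F, hF, hx⟩ => (hC hF).1 x hx,
      fun a ⟨F, hF, ha⟩ b ⟨G, hG, hb⟩ hab => by
        rcases hch.total hF hG with h1 | h1
        · exact (hC hG).2 (h1 ha) hb hab
        · exact (hC hF).2 ha (h1 hb) hab⟩, fun F hF => Set.subset_sUnion_of_mem hF⟩)
    (Set.range fun t => w ⊓ c t)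
    ⟨by
      rintro _ ⟨t, rfl⟩
      exact ⟨h.pt_mono (hc t).1 inf_le_right, inf_le_inf_left _ (hc t).2.1, hcov t⟩, by
      rintro _ ⟨s, rfl⟩ _ ⟨t, rfl⟩ hst
      exact hdd s t fun e => hst (by rw [e])⟩
  obtain ⟨w', h1, h2, h3, h4⟩ := o4_exh h (l := l) hw h0 (F := F) fun m hm hml hmc hmd => by
    refine hF.mem_of_prop_insert ⟨?_, hF.prop.2.insert fun f hf _ =>
      ⟨hmd f hf, by rw [inf_comm]; exact hmd f hf⟩⟩
    rintro x (rfl | hx)
    · exact ⟨hm, hml, hmc⟩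
    · exact hF.prop.1 x hx
  obtain ⟨i1⟩ : Nonempty (F ↪ ℝ) := by
    rw [← Cardinal.lift_mk_le', Cardinal.mk_real, Cardinal.lift_continuum, Cardinal.lift_uzero]
    exact (Cardinal.mk_le_mk_of_subset fun x hx => (hF.prop.1 x hx).2.1).trans hcard
  have i2 : ℝ ↪ F := ⟨fun t => ⟨w ⊓ c t, hF0 ⟨t, rfl⟩⟩, fun s t hst => by
    by_contra hne
    have h5 := hdd s t hne
    have h6 : w ⊓ c s = w ⊓ c t := congrArg Subtype.val hst
    have h7 := hcov t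
    rw [h6, inf_idem] at h5
    rw [h5, h.cov_eq_bot.2 rfl] at h7
    exact h0 (le_bot_iff.1 h7)⟩
  obtain ⟨e⟩ := Function.Embedding.antisymm i2 i1
  refine ⟨w', h1, h2, h3, fun t => e t, fun t => ?_, fun s t hst => ?_, fun x hx hxl => ?_⟩
  · have h5 := hF.prop.1 _ (e t).2
    exact ⟨h5.1, h5.2.1.trans inf_le_right, h3.trans h5.2.2⟩
  · exact hF.prop.2 (e s).2 (e t).2 fun h5 => hst (e.injective (Subtype.ext h5))
  · refine (h4 x hx hxl).trans (iSup₂_le fun f hf => le_iSup_of_le (e.symm ⟨f, hf⟩) ?_)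
    simp only [e.apply_symm_apply, le_refl]

theorem Geo.line_of_loc (h : Geo o) (hp : Pt o p) (hq : Pt o q)
    (hl : ∀ z, Cen o z → z ≠ ⊥ → z ≤ cov o p → ∃ w, Cen o w ∧ w ≠ ⊥ ∧ w ≤ z ∧
      Cardinal.mk (Set.Iic (w ⊓ (p ⊔ q))) ≤ Cardinal.continuum ∧
      ∃ c : ℝ → L, (∀ t, Pt o (c t) ∧ c t ≤ p ⊔ q ∧ w ≤ cov o (c t)) ∧
        ∀ s t, s ≠ t → w ⊓ c s ⊓ c t = ⊥) (hc : cov o q ≤ cov o p) :
    ∃ c : ℝ → L, LineFam o p q c := by
  have k := h.toOM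
  obtain ⟨S, hS, hsup, hQ⟩ := k.exists_part (k.cen_cov p)
    (fun w => ∃ d : ℝ → L, (∀ t, Pt o (d t) ∧ d t ≤ p ⊔ q ∧ w ≤ cov o (d t)) ∧
      (∀ s t, s ≠ t → d s ⊓ d t = ⊥) ∧ ∀ x, Pt o x → x ≤ w ⊓ (p ⊔ q) → x ≤ ⨆ t, x ⊓ d t)
    fun z hz z0 hzp => by
      obtain ⟨w, hw, w0, hwz, hcard, c, hc1, hc2⟩ := hl z hz z0 hzp
      obtain ⟨w', h1, h2, h3, h4⟩ := o4_loc k hw w0 hcard hc1 hc2
      exact ⟨w', h1, h2, h3.trans hwz, h4⟩
  choose! D hD1 hD2 hD3 using fun u (hu : u ∈ S) => (hQ u hu).2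
  refine ⟨fun t => mix S fun w => D w t, fun t => ⟨?_, ?_, ?_⟩, fun s t hst => ?_,
    fun x hx hxl => le_antisymm ?_ (iSup_le fun t => inf_le_left)⟩
  · exact k.pt_mix hS fun u hu => k.pt_mono (hD1 u hu t).1 inf_le_right
  · exact o4_mix_le fun u hu => (hD1 u hu t).2.1
  · exact k.cov_iff.2 (hsup ▸ o4_cov_mix k hS fun u hu => (hD1 u hu t).2.2)
  · refine le_bot_iff.1 (k.le_of_part hS (inf_le_left.trans (OM.mix_le_sSup S _)) fun u hu => ?_)
    rw [inf_inf_distrib_left, k.inf_mix hS _ hu, k.inf_mix hS _ hu, ← hD2 u hu s t hst]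
    exact inf_le_inf inf_le_right inf_le_right
  · refine k.le_of_part hS ?_ fun u hu => ?_
    · rw [hsup]
      exact hxl.trans (sup_le (k.le_cov p) ((k.le_cov q).trans hc))
    · refine (hD3 u hu _ (k.pt_mono hx inf_le_right) (inf_le_inf_left _ hxl)).trans
        (iSup_mono fun t => le_inf (inf_le_left.trans inf_le_right) ?_)
      exact (inf_le_inf_right _ inf_le_left).trans (o4_le_mix (fun w => D w t) hu)

end Pool.Agent.P.MP_d8da86_an.CR
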