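import Pool.Agent.P.MP_d8da86_an.C.T4b
import Pool.Agent.P.MP_d8da86_an.C.A1

/-!
From affine to projective coordinates.
Hints. E = R × V, e0 = (1, 0). For x = (r, v) with support z and quasi-inverse s of r
(`Reg.qinv`, they are unique) put pt x = j z ⊓ aff (s • v) ⊔ j zᶜ ⊓ dir v. It is characterised by:
if ε w * r = ε w * k with k a unit then j w ⊓ pt x = j w ⊓ aff (k⁻¹ • v), if ε w * r = 0 then
j w ⊓ pt x = j w ⊓ dir v. Prove the fields with `loc_le` and `Reg.dich`. For `add_le` with units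
r, s: if r + s = 0 then v + u = r • (r⁻¹ • v - s⁻¹ • u) and `TM.dr_eq`; if r + s is a unit then
(r + s)⁻¹ • (v + u) = a + c • (b - a) with a = r⁻¹ • v, b = s⁻¹ • u and `aff_add_le`. For `span`
glue the coefficients (`BMod.glue` in R × R): if v, w are both at infinity use `span2`; if v is
affine subtract multiples of v from u and w, using `add_le`, `smul_le` and `sup_inf_hyp`.
-/

open scoped InnerProductSpace ComplexConjugate

set_option linter.unusedSectionVars false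
set_option linter.unusedVariables false

noncomputable section

namespace Pool.Agent.P.MP_d8da86_an.CR

universe u

section

variable {L : Type*} [CompleteLattice L] {o : L → L} {p : L} {V : Type*}
  [AddCommGroup V] {aff : V → L} {B : Type*} [CompleteBooleanAlgebra B] {j : B → L}
  {R : Type*} [CommRing R] [Module R V] {ε : B → R}

theorem p1_le (h : OM o) (hj : CenRep o (cov o p) j) {x y : L} (hx : x ≤ cov o p)
    (hl : ∀ z : B, z ≠ ⊥ → ∃ w, w ≠ ⊥ ∧ w ≤ z ∧ j w ⊓ x ≤ y) : x ≤ y := by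
  refine h.loc_le fun z hz h0 hzx => ?_
  have hc : cov o x ≤ cov o p := (h.cov_le_iff (h.cen_cov p)).2 hx
  obtain ⟨b, rfl⟩ := (hj.range z).2 ⟨hz, hzx.trans hc⟩
  obtain ⟨w, hw0, hwb, hw⟩ := hl b fun e => h0 ((hj.eq_bot_iff h).2 e)
  exact ⟨j w, hj.cen w, fun e => hw0 ((hj.eq_bot_iff h).1 e), (hj.le_iff _ _).2 hwb, hw⟩

theorem p1_eq (h : OM o) (hj : CenRep o (cov o p) j) {x y : L} (hx : x ≤ cov o p)
    (hy : y ≤ cov o p)
    (hl : ∀ z : B, z ≠ ⊥ → ∃ w, w ≠ ⊥ ∧ w ≤ z ∧ j w ⊓ x = j w ⊓ y) : x = y := by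
  refine le_antisymm (p1_le h hj hx fun z hz => ?_) (p1_le h hj hy fun z hz => ?_)
  · obtain ⟨w, h0, h1, h2⟩ := hl z hz
    exact ⟨w, h0, h1, h2.le.trans inf_le_right⟩
  · obtain ⟨w, h0, h1, h2⟩ := hl z hz
    exact ⟨w, h0, h1, h2.ge.trans inf_le_right⟩

theorem p1_cases (h : OM o) (hj : CenRep o (cov o p) j) {x y : L} (hx : x ≤ cov o p)
    (hy : y ≤ cov o p) (b : B) (h1 : j b ⊓ x = j b ⊓ y) (h2 : j bᶜ ⊓ x = j bᶜ ⊓ y) : x = y := by
  refine h.eq_of_cases (hj.cen b) h1 ?_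
  rw [hj.map_compl h (h.cen_cov p), inf_comm (cov o p), inf_assoc, inf_assoc,
    inf_eq_right.2 hx, inf_eq_right.2 hy] at h2
  exact h2

theorem p1_mix (h : OM o) {z X A A₁ A₂ x₁ x₂ : L} (hz : Cen o z) (hX : z ⊓ X = z ⊓ A)
    (hA : A ≤ A₁ ⊔ A₂) (h1 : z ⊓ x₁ = z ⊓ A₁) (h2 : z ⊓ x₂ = z ⊓ A₂) : z ⊓ X ≤ x₁ ⊔ x₂ := by
  rw [hX]
  refine (inf_le_inf_left z hA).trans ?_
  rw [h.inf_sup hz, ← h1, ← h2]
  exact sup_le_sup inf_le_right inf_le_right

theorem p1_dir (M : AM o p j ε aff) {w : B} {u v : V} (huv : ε w • u = ε w • v) :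
    j w ⊓ dr o p (aff u) p = j w ⊓ dr o p (aff v) p := by
  rw [← M.loc, ← M.loc, huv]

theorem p1_aff (M : AM o p j ε aff) (h : Geo o) (hp : Pt o p) (hj : CenRep o (cov o p) j)
    {w : B} {u v : V} (huv : ε w • u = ε w • v) : j w ⊓ aff u = j w ⊓ aff v := by
  refine (M.toTM.loc_iff h hp (hj.cen w)).1 ?_
  rw [← M.loc, smul_sub, huv, sub_self, M.toTM.dir_zero h]

theorem p1_aff_ne (M : AM o p j ε aff) (h : Geo o) (hp : Pt o p) (hj : CenRep o (cov o p) j)
    {w : B} {u : V} (h0 : j w ⊓ aff u = ⊥) : w = ⊥ := by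
  rw [h.toOM.inf_eq_bot_iff (hj.cen w), h.aff_cov hp (M.isAff u), inf_eq_left.2 (hj.le w)] at h0
  exact (hj.eq_bot_iff h.toOM).1 h0

/-- the characterisation of the point with given homogeneous coordinates -/
structure p1_Ch (o : L → L) (p : L) (j : B → L) (ε : B → R) (aff : V → L) (pt : R × V → L) :
    Prop where
  le : ∀ x, pt x ≤ cov o p
  isPt : ∀ x, Pt o (pt x)
  unit : ∀ (x : R × V) (w : B) (k : Rˣ), ε w * x.1 = ε w * k →
    j w ⊓ pt x = j w ⊓ aff ((↑k⁻¹ : R) • x.2)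
  zero : ∀ (x : R × V) (w : B), ε w * x.1 = 0 → j w ⊓ pt x = j w ⊓ dr o p (aff x.2) p

theorem p1_exists (M : AM o p j ε aff) (h : Geo o) (hp : Pt o p) (hj : CenRep o (cov o p) j) :
    ∃ pt : R × V → L, p1_Ch o p j ε aff pt := by
  choose z s h1 h2 h3 h4 using M.reg.qinv
  have hO := h.toOM
  refine ⟨fun x => j (z x.1) ⊓ aff (s x.1 • x.2) ⊔ j (z x.1)ᶜ ⊓ dr o p (aff x.2) p,
    fun x => sup_le (inf_le_left.trans (hj.le _)) (inf_le_left.trans (hj.le _)),
    fun x => ?_, fun x w k hk => ?_, fun x w h0 => ?_⟩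
  · rw [hj.map_compl hO (hO.cen_cov p), inf_comm (cov o p), inf_assoc]
    exact hO.pt_mix2 (hj.cen _) (M.isAff _).1 (hO.pt_mono (M.toTM.dir_pt h hp _) inf_le_right)
  · have hw : w ⊓ (z x.1)ᶜ = ⊥ := by
      refine M.reg.eq_bot_of_unit k ?_
      have e1 : ε (w ⊓ (z x.1)ᶜ) * x.1 = 0 := (h4 _ _).2 (by simp [inf_assoc])
      rw [M.reg.inf] at e1 ⊢
      linear_combination e1 - ε (z x.1)ᶜ * hk
    have hwz : w ≤ z x.1 := by
      rwa [← disjoint_iff, disjoint_compl_right_iff] at hw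
    rw [hO.inf_sup (hj.cen w), ← inf_assoc, ← inf_assoc, ← hj.map_inf hO, ← hj.map_inf hO, hw,
      hj.map_bot hO, bot_inf_eq, sup_bot_eq, inf_eq_left.2 hwz]
    refine p1_aff M h hp hj ?_
    rw [smul_smul, smul_smul]
    congr 1
    have e2 := M.reg.of_le hwz
    have e3 := h1 x.1
    have e4 := k.mul_inv
    linear_combination (-(ε w * s x.1)) * e4 - (s x.1 * (↑k⁻¹ : R)) * hk +
      (ε w * (↑k⁻¹ : R)) * e3 + (↑k⁻¹ : R) * e2
  · have hw : w ⊓ z x.1 = ⊥ := (h4 _ _).1 h0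
    have hwz : w ≤ (z x.1)ᶜ := le_compl_iff_disjoint_right.2 (disjoint_iff.2 hw)
    rw [hO.inf_sup (hj.cen w), ← inf_assoc, ← inf_assoc, ← hj.map_inf hO, ← hj.map_inf hO, hw,
      hj.map_bot hO, bot_inf_eq, bot_sup_eq, inf_eq_left.2 hwz]

variable {pt : R × V → L}

theorem p1_loc (C : p1_Ch o p j ε aff pt) (M : AM o p j ε aff) (h : Geo o) (hp : Pt o p)
    (hj : CenRep o (cov o p) j) (z : B) (x : R × V) : pt (ε z • x) = j z ⊓ pt x := by
  have hO := h.toOM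
  refine p1_eq hO hj (C.le _) (inf_le_right.trans (C.le _)) fun b hb => ?_
  by_cases hbz : b ⊓ z = ⊥
  · refine ⟨b, hb, le_rfl, ?_⟩
    have e : ε b * ε z = 0 := M.reg.of_disjoint (disjoint_iff.2 hbz)
    rw [C.zero _ b (by rw [Prod.smul_fst, smul_eq_mul, ← mul_assoc, e, zero_mul]),
      Prod.smul_snd, M.loc, ← inf_assoc, ← inf_assoc, ← hj.map_inf hO, hbz, hj.map_bot hO,
      bot_inf_eq, bot_inf_eq]
  · obtain ⟨w, hw0, hw, hd⟩ := M.reg.dich x.1 hbz
    have hwz : w ≤ z := hw.trans inf_le_right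
    have e : ε w * (ε z • x).1 = ε w * x.1 := by
      rw [Prod.smul_fst, smul_eq_mul, ← mul_assoc, M.reg.of_le hwz]
    have e' : j w ⊓ (j z ⊓ pt x) = j w ⊓ pt x := by
      rw [← inf_assoc, inf_eq_left.2 ((hj.le_iff _ _).2 hwz)]
    refine ⟨w, hw0, hw.trans inf_le_left, ?_⟩
    rw [e']
    rcases hd with h0 | ⟨k, hk⟩
    · rw [C.zero _ w (e.trans h0), C.zero _ w h0]
      exact p1_dir M (M.reg.smul_smul_of_le hwz _)
    · rw [C.unit _ w k (e.trans hk), C.unit _ w k hk]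
      refine p1_aff M h hp hj ?_
      rw [Prod.smul_snd, smul_comm (↑k⁻¹ : R) (ε z)]
      exact M.reg.smul_smul_of_le hwz _

theorem p1_base (C : p1_Ch o p j ε aff pt) (M : AM o p j ε aff) (h : Geo o)
    (hj : CenRep o (cov o p) j) : pt (1, 0) = p := by
  have e := C.unit (1, 0) ⊤ 1 (by simp)
  rwa [hj.map_top (h.toOM.cen_cov p), inf_eq_right.2 (C.le _), smul_zero, M.zero,
    inf_eq_right.2 (h.toOM.le_cov p)] at e

theorem p1_eq_zero (C : p1_Ch o p j ε aff pt) (M : AM o p j ε aff) (h : Geo o) (hp : Pt o p)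
    (hj : CenRep o (cov o p) j) (x : R × V) (h0 : pt x = ⊥) : x = 0 := by
  have h1 : x.1 = 0 := by
    obtain ⟨z, k, hk⟩ := M.reg.reg x.1
    have e := C.unit x z k (by rw [hk, ← mul_assoc, M.reg.idem])
    rw [h0, inf_bot_eq] at e
    rw [hk, p1_aff_ne M h hp hj e.symm, M.reg.bot, zero_mul]
  have e := C.zero x ⊤ (by rw [h1, mul_zero])
  rw [h0, inf_bot_eq, ← M.loc, M.reg.top, one_smul] at e
  exact Prod.ext h1 (M.toTM.eq_zero h hp e.symm)

theorem p1_surj (C : p1_Ch o p j ε aff pt) (M : AM o p j ε aff) (h : Proj o) (hp : Pt o p)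
    (hj : CenRep o (cov o p) j) (x : L) (hx : Pt o x) (hc : x ≤ cov o p) : ∃ v, pt v = x := by
  have hG := h.toGeo
  have hO := hG.toOM
  set z := cov o (x ⊓ o p) with hzdef
  have hz : Cen o z := hO.cen_cov _
  obtain ⟨v, hv⟩ := M.toTM.dir_surj h hp (hO.pt_mono hx (inf_le_right : z ⊓ x ≤ x))
    (hG.cov_inf_le hx (o p))
  rw [inf_eq_right.2 (inf_le_right.trans hc)] at hv
  obtain ⟨a, ha, hxa⟩ := hG.exists_aff hp (hO.pt_mono hx (inf_le_right : o z ⊓ x ≤ x))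
    (hG.o_cov_inf x (o p))
  obtain ⟨u, rfl⟩ := M.surj a ha
  obtain ⟨b, hb⟩ := (hj.range (cov o (o z ⊓ x))).2 ⟨hO.cen_cov _,
    (hO.cov_le_iff (hO.cen_cov p)).2 (inf_le_right.trans hc)⟩
  have hbz : j b ≤ o z := by
    rw [hb]
    exact (hO.cov_le_iff (hO.cen_o hz)).2 inf_le_left
  have hbv : ε b • v = 0 := by
    refine M.toTM.eq_zero hG hp ?_
    rw [M.loc, hv, ← inf_assoc, inf_comm (j b), (hO.le_o_iff hz).1 hbz, bot_inf_eq]
  refine ⟨(ε b, ε b • u + v), p1_cases hO hj (C.le _) hc b ?_ ?_⟩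
  · rw [C.unit _ b 1 (by simp [M.reg.idem])]
    have e : j b ⊓ x = j b ⊓ aff u := by
      rw [← inf_eq_left.2 hbz, inf_assoc, hxa, ← hb, inf_eq_left.2 hbz, ← inf_assoc, inf_idem]
    rw [e]
    refine p1_aff M hG hp hj ?_
    simp only [inv_one, Units.val_one, one_smul, smul_add, hbv, add_zero]
    exact M.reg.smul_smul_of_le le_rfl u
  · rw [C.zero _ bᶜ (by rw [mul_comm]; exact M.reg.mul_compl b)]
    have e1 : ε bᶜ • (ε b • u + v) = ε bᶜ • v := by
      rw [smul_add, smul_smul, mul_comm, M.reg.mul_compl, zero_smul, zero_add]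
    rw [p1_dir M e1, hv]
    have e2 : j bᶜ ⊓ (o z ⊓ x) = ⊥ := by
      refine le_bot_iff.1 ((inf_le_inf_left _ ((hO.le_cov _).trans hb.ge)).trans ?_)
      rw [← hj.map_inf hO, compl_inf_eq_bot, hj.map_bot hO]
    conv_rhs => rw [hz x, hO.inf_sup (hj.cen _), inf_comm x (o z), e2, sup_bot_eq, inf_comm x z]

theorem p1_smul_le (C : p1_Ch o p j ε aff pt) (M : AM o p j ε aff) (h : Geo o) (hp : Pt o p)
    (hj : CenRep o (cov o p) j) (t : R) (x : R × V) : pt (t • x) ≤ pt x := by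
  refine p1_le h.toOM hj (C.le _) fun b hb => ?_
  obtain ⟨w, hw0, hw, hd⟩ := M.reg.dich x.1 hb
  rcases hd with h0 | ⟨m, hm⟩
  · refine ⟨w, hw0, hw, ?_⟩
    rw [C.zero _ w (by rw [Prod.smul_fst, smul_eq_mul]; linear_combination t * h0)]
    refine (inf_le_inf_left _ (M.smul_le t x.2)).trans ?_
    rw [← C.zero _ w h0]
    exact inf_le_right
  · obtain ⟨w', hw0', hw', hd'⟩ := M.reg.dich t hw0
    have hm' : ε w' * x.1 = ε w' * m := by
      have := M.reg.of_le hw'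
      linear_combination ε w' * hm - (x.1 - m) * this
    refine ⟨w', hw0', hw'.trans hw, ?_⟩
    rcases hd' with h0 | ⟨k, hk⟩
    · rw [C.zero _ w' (by rw [Prod.smul_fst, smul_eq_mul]; linear_combination x.1 * h0),
        ← M.loc, Prod.smul_snd, smul_smul, h0, zero_smul, M.toTM.dir_zero h]
      exact bot_le
    · rw [C.unit _ w' (k * m) (by
        rw [Prod.smul_fst, smul_eq_mul, Units.val_mul]
        linear_combination x.1 * hk + k * hm')]
      have e : j w' ⊓ aff ((↑(k * m)⁻¹ : R) • (t • x).2) = j w' ⊓ aff ((↑m⁻¹ : R) • x.2) := by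
        refine p1_aff M h hp hj ?_
        rw [Prod.smul_snd, smul_smul, smul_smul, smul_smul, mul_inv_rev, Units.val_mul]
        congr 1
        have e4 := k.mul_inv
        linear_combination ((↑m⁻¹ : R) * (↑k⁻¹ : R)) * hk + (ε w' * (↑m⁻¹ : R)) * e4
      rw [e, ← C.unit _ w' m hm']
      exact inf_le_right

theorem p1_add_aux (C : p1_Ch o p j ε aff pt) (M : AM o p j ε aff) (h : Geo o)
    (hj : CenRep o (cov o p) j) {x y : R × V} {w : B} {k : Rˣ} (hx : ε w * x.1 = ε w * k)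
    (hy : ε w * y.1 = 0) : j w ⊓ pt (x + y) ≤ pt x ⊔ pt y := by
  refine p1_mix h.toOM (hj.cen w)
    (C.unit _ w k (by rw [Prod.fst_add]; linear_combination hx + hy)) ?_
    (C.unit _ w k hx) (C.zero _ w hy)
  rw [Prod.snd_add, smul_add]
  exact (M.toTM.aff_add_le h _ _).trans (sup_le_sup_left (M.smul_le _ _) _)

theorem p1_add_le (C : p1_Ch o p j ε aff pt) (M : AM o p j ε aff) (h : Geo o) (hp : Pt o p)
    (hj : CenRep o (cov o p) j) (x y : R × V) : pt (x + y) ≤ pt x ⊔ pt y := by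
  have hO := h.toOM
  refine p1_le hO hj (C.le _) fun b hb => ?_
  obtain ⟨w₁, h01, hw₁, d₁⟩ := M.reg.dich x.1 hb
  obtain ⟨w₂, h02, hw₂, d₂⟩ := M.reg.dich y.1 h01
  obtain ⟨w, h0, hw, d₃⟩ := M.reg.dich (x + y).1 h02
  refine ⟨w, h0, hw.trans (hw₂.trans hw₁), ?_⟩
  have down : ∀ {a : B} {r s : R}, w ≤ a → ε a * r = ε a * s → ε w * r = ε w * s := by
    intro a r s ha e
    have := M.reg.of_le ha
    linear_combination ε w * e - (r - s) * this
  have down0 : ∀ {a : B} {r : R}, w ≤ a → ε a * r = 0 → ε w * r = 0 := by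
    intro a r ha e
    have := M.reg.of_le ha
    linear_combination ε w * e - r * this
  rcases d₁ with x0 | ⟨k, hk⟩ <;> rcases d₂ with y0 | ⟨m, hm⟩
  · have x0' := down0 (hw.trans hw₂) x0
    have y0' := down0 hw y0
    refine p1_mix hO (hj.cen w) (C.zero _ w (by rw [Prod.fst_add]; linear_combination x0' + y0'))
      ?_ (C.zero _ w x0') (C.zero _ w y0')
    rw [Prod.snd_add]
    exact M.toTM.dir_add h _ _
  · rw [add_comm, sup_comm]
    exact p1_add_aux C M h hj (down hw hm) (down0 (hw.trans hw₂) x0)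
  · exact p1_add_aux C M h hj (down (hw.trans hw₂) hk) (down0 hw y0)
  · have hk' := down (hw.trans hw₂) hk
    have hm' := down hw hm
    have ek := k.mul_inv
    have em := m.mul_inv
    rcases d₃ with s0 | ⟨n, hn⟩
    · have e : ε w • (x + y).2 =
          ε w • (k : R) • ((↑k⁻¹ : R) • x.2 - (↑m⁻¹ : R) • y.2) := by
        rw [Prod.fst_add] at s0
        have e1 : ε w * k * (↑k⁻¹ : R) = ε w := by linear_combination ε w * ek
        have e2 : ε w * k * (↑m⁻¹ : R) = -ε w := by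
          linear_combination (↑m⁻¹ : R) * (s0 - hk' - hm') - ε w * em
        rw [Prod.snd_add, smul_smul, smul_sub, smul_smul, smul_smul, e1, e2, neg_smul,
          sub_neg_eq_add, smul_add]
      refine p1_mix hO (hj.cen w) ((C.zero _ w s0).trans (p1_dir M e)) ?_ (C.unit _ w k hk')
        (C.unit _ w m hm')
      refine (M.smul_le _ _).trans ?_
      rw [← M.dr_eq]
      exact inf_le_left
    · have e : ε w • (↑n⁻¹ : R) • (x + y).2 = ε w • ((↑k⁻¹ : R) • x.2 +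
          ((↑n⁻¹ : R) * m) • ((↑m⁻¹ : R) • y.2 - (↑k⁻¹ : R) • x.2)) := by
        rw [Prod.fst_add] at hn
        have en := n.mul_inv
        have e1 : ε w * (↑n⁻¹ : R) =
            ε w * (↑k⁻¹ : R) - ε w * ((↑n⁻¹ : R) * m * (↑k⁻¹ : R)) := by
          linear_combination ((↑n⁻¹ : R) * (↑k⁻¹ : R)) * (hn - hk' - hm') +
            (ε w * (↑k⁻¹ : R)) * en - (ε w * (↑n⁻¹ : R)) * ek
        have e2 : ε w * (↑n⁻¹ : R) = ε w * ((↑n⁻¹ : R) * m * (↑m⁻¹ : R)) := by
          linear_combination (-(ε w * (↑n⁻¹ : R))) * em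
        rw [Prod.snd_add, smul_smul, smul_add, smul_add, smul_sub, smul_sub]
        simp only [smul_smul]
        rw [← e2, add_sub_left_comm, ← sub_smul, ← e1, add_comm]
      refine p1_mix hO (hj.cen w) ((C.unit _ w n hn).trans (p1_aff M h hp hj e)) ?_
        (C.unit _ w k hk') (C.unit _ w m hm')
      refine (M.toTM.aff_add_le h _ _).trans (sup_le le_sup_left ((M.smul_le _ _).trans ?_))
      rw [← M.dr_eq, sup_comm]
      exact inf_le_left

theorem p1_span_unit (C : p1_Ch o p j ε aff pt) (M : AM o p j ε aff) (h : Geo o) (hp : Pt o p)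
    (hj : CenRep o (cov o p) j) {u v w : R × V} (hu : pt u ≤ pt v ⊔ pt w) {b : B} {k : Rˣ}
    (hk : ε b * v.1 = ε b * k) : ∃ r s : R, ε b • u = ε b • (r • v + s • w) := by
  have hO := h.toOM
  have ek := k.mul_inv
  have key : ∀ y : R × V, ε b * (y + (-(y.1 * (↑k⁻¹ : R))) • v).1 = 0 := by
    intro y
    rw [Prod.fst_add, Prod.smul_fst, smul_eq_mul]
    linear_combination (-(y.1 * (↑k⁻¹ : R))) * hk - (ε b * y.1) * ek
  set u' := u + (-(u.1 * (↑k⁻¹ : R))) • v with hu'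
  set w' := w + (-(w.1 * (↑k⁻¹ : R))) • v with hw'
  have h1 : pt w ≤ pt v ⊔ pt w' := by
    have e : w = (w.1 * (↑k⁻¹ : R)) • v + w' := by
      rw [hw', neg_smul]; abel
    conv_lhs => rw [e]
    exact (p1_add_le C M h hp hj _ _).trans (sup_le_sup_right (p1_smul_le C M h hp hj _ _) _)
  have h2 : pt u' ≤ pt v ⊔ pt w' :=
    (p1_add_le C M h hp hj _ _).trans (sup_le (hu.trans (sup_le le_sup_left h1))
      ((p1_smul_le C M h hp hj _ _).trans le_sup_left))
  have h3 : dr o p (aff (ε b • u'.2)) p ≤ dr o p (aff w'.2) p := by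
    rw [← h.sup_inf_hyp (M.isAff ((↑k⁻¹ : R) • v.2)) (Geo.dr_le o p (aff w'.2) p)]
    refine le_inf ?_ (Geo.dr_le o p _ p)
    rw [M.loc]
    exact p1_mix hO (hj.cen b) (C.zero _ b (key u)).symm h2 (C.unit _ b k hk).symm
      (C.zero _ b (key w)).symm
  obtain ⟨t, ht⟩ := M.span _ _ h3
  have h4 : ε b • u' = ε b • t • w' := by
    refine Prod.ext ?_ ?_
    · rw [Prod.smul_fst, Prod.smul_fst, Prod.smul_fst, smul_eq_mul, smul_eq_mul, smul_eq_mul,
        key u]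
      linear_combination (-t) * key w
    · rw [Prod.smul_snd, Prod.smul_snd, Prod.smul_snd, ← ht]
      exact (M.reg.smul_smul_of_le le_rfl _).symm
  refine ⟨u.1 * (↑k⁻¹ : R) - t * (w.1 * (↑k⁻¹ : R)), t, ?_⟩
  have e1 : u = u' + (u.1 * (↑k⁻¹ : R)) • v := by
    rw [hu', neg_smul]; abel
  have e2 : (u.1 * (↑k⁻¹ : R) - t * (w.1 * (↑k⁻¹ : R))) • v + t • w =
      t • w' + (u.1 * (↑k⁻¹ : R)) • v := by
    rw [hw', sub_smul, smul_add, neg_smul, smul_neg, smul_smul]; abel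
  rw [e2, smul_add, ← h4, ← smul_add, ← e1]

theorem p1_span (C : p1_Ch o p j ε aff pt) (M : AM o p j ε aff) (h : Geo o) (hp : Pt o p)
    (hj : CenRep o (cov o p) j) (u v w : R × V) (hu : pt u ≤ pt v ⊔ pt w) :
    ∃ r s : R, u = r • v + s • w := by
  have hO := h.toOM
  have hl : ∀ z : B, z ≠ ⊥ → z ≤ ⊤ → ∃ b, b ≠ ⊥ ∧ b ≤ z ∧
      ∃ c : R × R, ε b • u = ε b • (c.1 • v + c.2 • w) := by
    intro z hz _
    obtain ⟨b₁, h01, hb₁, d₁⟩ := M.reg.dich v.1 hz
    rcases d₁ with v0 | ⟨k, hk⟩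
    swap
    · obtain ⟨r, s, e⟩ := p1_span_unit C M h hp hj hu hk
      exact ⟨b₁, h01, hb₁, (r, s), e⟩
    obtain ⟨b₂, h02, hb₂, d₂⟩ := M.reg.dich w.1 h01
    rcases d₂ with w0 | ⟨k, hk⟩
    swap
    · obtain ⟨r, s, e⟩ := p1_span_unit C M h hp hj (hu.trans (sup_comm _ _).le) hk
      exact ⟨b₂, h02, hb₂.trans hb₁, (s, r), by rw [e, add_comm]⟩
    obtain ⟨b, h0, hb, d₃⟩ := M.reg.dich u.1 h02
    have v0' : ε b * v.1 = 0 := by
      have := M.reg.of_le (hb.trans hb₂)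
      linear_combination ε b * v0 - v.1 * this
    have w0' : ε b * w.1 = 0 := by
      have := M.reg.of_le hb
      linear_combination ε b * w0 - w.1 * this
    have h1 : j b ⊓ pt u ≤ dr o p (aff v.2) p ⊔ dr o p (aff w.2) p :=
      p1_mix hO (hj.cen b) rfl hu (C.zero _ b v0').symm (C.zero _ b w0').symm
    rcases d₃ with u0 | ⟨k, hk⟩
    · rw [C.zero _ b u0, ← M.loc] at h1
      obtain ⟨v₁, w₁, e, hv₁, hw₁⟩ := M.toTM.span2 h hp h1
      obtain ⟨r, rfl⟩ := M.span _ _ hv₁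
      obtain ⟨s, rfl⟩ := M.span _ _ hw₁
      refine ⟨b, h0, hb.trans (hb₂.trans hb₁), (r, s), Prod.ext ?_ ?_⟩
      · simp only [Prod.smul_fst, Prod.fst_add, smul_eq_mul]
        linear_combination u0 - r * v0' - s * w0'
      · simp only [Prod.smul_snd, Prod.snd_add]
        rw [← e]
        exact (M.reg.smul_smul_of_le le_rfl _).symm
    · rw [C.unit _ b k hk] at h1
      have h2 : j b ⊓ aff ((↑k⁻¹ : R) • u.2) = ⊥ := by
        refine le_bot_iff.1 ((le_inf inf_le_right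
          (h1.trans (sup_le (Geo.dr_le o p _ p) (Geo.dr_le o p _ p)))).trans ?_)
        exact (M.isAff _).2.inf_eq_bot.le
      exact absurd (p1_aff_ne M h hp hj h2) h0
  obtain ⟨c, S, -, hS, -, hc⟩ := (M.reg.bmod.prod M.reg.bmod M.reg).glue M.reg ⊤
    (fun b c => ε b • u = ε b • (c.1 • v + c.2 • w)) hl
  refine ⟨c.1, c.2, (M.reg.bmod.prod M.bm M.reg).eq_of_part M.reg hS fun b hb => ?_⟩
  obtain ⟨c', e, ec⟩ := hc b hb
  have e1 : ε b * c.1 = ε b * c'.1 := congrArg Prod.fst ec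
  have e2 : ε b * c.2 = ε b * c'.2 := congrArg Prod.snd ec
  rw [e, smul_add, smul_add, smul_smul, smul_smul, smul_smul, smul_smul, e1, e2]

end

theorem exists_PM {L : Type u} [CompleteLattice L] {o : L → L} {p : L} {V : Type u}
    [AddCommGroup V] {aff : V → L} {B : Type u} [CompleteBooleanAlgebra B] {j : B → L}
    {R : Type u} [CommRing R] [Module R V] {ε : B → R} (M : AM o p j ε aff) (h : Proj o)
    (hp : Spatial o p) (hj : CenRep o (cov o p) j) :
    ∃ (E : Type u) (_ : AddCommGroup E) (_ : Module R E) (pt : E → L) (e₀ : E),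
      PM o p j ε pt e₀ := by
  obtain ⟨pt, C⟩ := p1_exists M h.toGeo hp.1 hj
  exact ⟨R × V, inferInstance, inferInstance, pt, (1, 0), M.reg,
    M.reg.bmod.prod M.bm M.reg, p1_base C M h.toGeo hj, C.isPt, C.le, p1_surj C M h hp.1 hj,
    p1_loc C M h.toGeo hp.1 hj, p1_eq_zero C M h.toGeo hp.1 hj, p1_add_le C M h.toGeo hp.1 hj,
    p1_smul_le C M h.toGeo hp.1 hj, p1_span C M h.toGeo hp.1 hj⟩

end Pool.Agent.P.MP_d8da86_an.CR
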