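import Pool.Agent.P.MP_d8da86_an.C.T1b
import Pool.Agent.P.MP_d8da86_an.C.A1

/-!
Consequences of projective coordinates.
Hints. `affine_map`: g (pt (e0 + v)) = pt (e0 + φ v) and φ v - φ u is a multiple of v - u by
`Ax.dr_map`, `dir_eq`, `span1`. Put ψ v = φ v - φ 0 = k v • v. With e1, e2 from `exists_orth`:
locally v and u independent give the same factor (write ψ v - ψ u = c • (v - u)); a vector which is
locally a multiple of e1 is compared with e2. The factor k of e1 is a unit since φ is locally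
injective (`aff_loc`, `Ax.map_loc`, `Reg.isUnit_of_full`).
`tr_map`: (k - 1) • e1 and (k - 1) • e2 have points below d, use `cov_disj`.
-/

open scoped InnerProductSpace ComplexConjugate

set_option linter.unusedSectionVars false
set_option linter.unusedVariables false

noncomputable section

namespace Pool.Agent.P.MP_d8da86_an.CR

universe u

variable {L : Type*} [CompleteLattice L] {o : L → L} {p a x y d : L}
  {B : Type*} [CompleteBooleanAlgebra B] {j : B → L} {R : Type*} [CommRing R] {ε : B → R}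
  {E : Type*} [AddCommGroup E] [Module R E] {pt : E → L} {e₀ u v w : E} {g : L ≃o L}

namespace PM

theorem pt_zero (M : PM o p j ε pt e₀) (h : Geo o) (hj : CenRep o (cov o p) j) : pt 0 = ⊥ := by
  have h1 := M.loc ⊥ 0
  rw [smul_zero, hj.map_bot h.toOM, bot_inf_eq] at h1
  exact h1

theorem pt_unit (M : PM o p j ε pt e₀) (k : Rˣ) (v : E) : pt ((k : R) • v) = pt v := by
  refine le_antisymm (M.smul_le _ _) ?_
  have h1 : v = ((k⁻¹ : Rˣ) : R) • (k : R) • v := by
    rw [smul_smul, Units.inv_mul, one_smul]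
  calc pt v = pt (((k⁻¹ : Rˣ) : R) • (k : R) • v) := congrArg pt h1
    _ ≤ pt ((k : R) • v) := M.smul_le _ _

theorem pt_neg (M : PM o p j ε pt e₀) (v : E) : pt (-v) = pt v := by
  have h1 := M.pt_unit (-1) v
  rwa [Units.val_neg, Units.val_one, neg_one_smul] at h1

theorem sub_le (M : PM o p j ε pt e₀) (v w : E) : pt (v - w) ≤ pt v ⊔ pt w := by
  have h1 := M.add_le v (-w)
  rwa [M.pt_neg, ← sub_eq_add_neg] at h1

theorem add_mem (M : PM o p j ε pt e₀) (hv : pt v ≤ x) (hw : pt w ≤ x) : pt (v + w) ≤ x := by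
  exact (M.add_le v w).trans (sup_le hv hw)

theorem sub_mem (M : PM o p j ε pt e₀) (hv : pt v ≤ x) (hw : pt w ≤ x) : pt (v - w) ≤ x := by
  exact (M.sub_le v w).trans (sup_le hv hw)

theorem smul_mem (M : PM o p j ε pt e₀) (r : R) (hv : pt v ≤ x) : pt (r • v) ≤ x := by
  exact (M.smul_le r v).trans hv

theorem smul_zero_iff (M : PM o p j ε pt e₀) (h : Geo o) (hj : CenRep o (cov o p) j) (z : B)
    (v : E) : ε z • v = 0 ↔ j z ⊓ pt v = ⊥ := by
  rw [← M.loc]
  exact ⟨fun h0 => by rw [h0, M.pt_zero h hj], M.eq_zero _⟩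

theorem full_iff (M : PM o p j ε pt e₀) (h : Geo o) (hj : CenRep o (cov o p) j) (v : E) :
    Full ε v ↔ cov o (pt v) = cov o p := by
  have hO := h.toOM
  have h1 : cov o (pt v) ≤ cov o p := (hO.cov_le_iff (hO.cen_cov p)).2 (M.le_cov v)
  constructor
  · intro hf
    refine le_antisymm h1 (hO.le_of_o_inf (hO.cen_cov _) ?_)
    obtain ⟨z, hz⟩ := hj.exists_inf hO (hO.cen_cov p) (hO.cen_o (hO.cen_cov (pt v)))
    have h2 : j z ⊓ pt v = ⊥ := by
      rw [hz, eq_bot_iff, ← hO.o_inf_self (cov o (pt v))]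
      exact inf_le_inf inf_le_left (hO.le_cov _)
    have h3 := hf z ((M.smul_zero_iff h hj z v).2 h2)
    rw [← hz, h3, hj.map_bot hO]
  · intro hc z hz
    have h2 := (M.smul_zero_iff h hj z v).1 hz
    rw [hO.inf_eq_bot_iff (hj.cen z), hc, inf_eq_left.2 (hj.le z)] at h2
    exact (hj.eq_bot_iff hO).1 h2

theorem span1 (M : PM o p j ε pt e₀) (huv : pt u ≤ pt v) : ∃ r : R, u = r • v := by
  obtain ⟨r, s, hrs⟩ := M.span u v v (huv.trans le_sup_left)
  exact ⟨r + s, by rw [add_smul, hrs]⟩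

theorem split (M : PM o p j ε pt e₀) (h : Geo o) (v : E) (x : L) :
    ∃ a b, pt a ≤ x ∧ pt b ≤ o x ∧ v = a + b := by
  have hO := h.toOM
  have h1 : cov o (pt v) ≤ cov o p := (hO.cov_le_iff (hO.cen_cov p)).2 (M.le_cov v)
  obtain ⟨b, c, hb, hc, hbx, hcx, hb', hc', hv⟩ := h.split (M.isPt v) x
  obtain ⟨b', rfl⟩ := M.surj b hb (hb'.trans h1)
  obtain ⟨c', rfl⟩ := M.surj c hc (hc'.trans h1)
  obtain ⟨r, s, hrs⟩ := M.span v b' c' hv
  exact ⟨r • b', s • c', M.smul_mem r hbx, M.smul_mem s hcx, hrs⟩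

theorem le_of_vec (M : PM o p j ε pt e₀) (h : Geo o) (hx : x ≤ cov o p)
    (hl : ∀ v, pt v ≤ x → pt v ≤ y) : x ≤ y := by
  refine h.le_of_pts fun q hq hqx => ?_
  obtain ⟨v, rfl⟩ := M.surj q hq (hqx.trans hx)
  exact hl v hqx

theorem exists_orth (M : PM o p j ε pt e₀) (h : Geo o) (hp : Spatial o p)
    (hj : CenRep o (cov o p) j) :
    ∃ e₁ e₂, Orth ε (fun v w => pt v ≤ o (pt w)) e₀ e₁ e₂ := by
  have hO := h.toOM
  obtain ⟨-, q, r, hq, hr, hqp, hrp, hqr, hcq, hcr⟩ := hp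
  obtain ⟨e₁, h1⟩ := M.surj (cov o p ⊓ q) (hO.pt_mono hq inf_le_right) inf_le_left
  obtain ⟨e₂, h2⟩ := M.surj (cov o p ⊓ r) (hO.pt_mono hr inf_le_right) inf_le_left
  have h1' : pt e₁ ≤ q := h1.le.trans inf_le_right
  have h2' : pt e₂ ≤ r := h2.le.trans inf_le_right
  refine ⟨e₁, e₂, fun v w hvw => hO.perp_comm.1 hvw, fun v hv => M.eq_zero v ?_,
    fun u v w hu hv => M.add_mem hu hv, fun t v w hv => M.smul_mem t hv, fun v w => ?_,
    (M.full_iff h hj e₀).2 (by rw [M.base]), (M.full_iff h hj e₁).2 ?_,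
    (M.full_iff h hj e₂).2 ?_, ?_, ?_, ?_⟩
  · have h3 := hO.inf_eq_bot_of_perp hv
    rwa [inf_idem] at h3
  · obtain ⟨a, b, ha, hb, hab⟩ := M.split h v (pt w)
    obtain ⟨t, rfl⟩ := M.span1 ha
    refine ⟨t, ?_⟩
    rw [hab, add_sub_cancel_left]
    exact hb
  · rw [h1, hO.cov_inf (hO.cen_cov p), inf_eq_left.2 (hO.cov_iff.1 hcq)]
  · rw [h2, hO.cov_inf (hO.cen_cov p), inf_eq_left.2 (hO.cov_iff.1 hcr)]
  · show pt e₀ ≤ o (pt e₁)
    rw [M.base]
    exact hO.perp_comm.1 (h1'.trans hqp)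
  · show pt e₀ ≤ o (pt e₂)
    rw [M.base]
    exact hO.perp_comm.1 (h2'.trans hrp)
  · exact h1'.trans (hqr.trans (hO.anti h2'))

theorem p2_coef (M : PM o p j ε pt e₀) (h : Geo o) (hj : CenRep o (cov o p) j) {r : R}
    (hv : pt v ≤ o p) (hr : pt (r • e₀ + v) ≤ o p) : r = 0 := by
  have h1 := M.sub_mem hr hv
  rw [add_sub_cancel_right] at h1
  refine M.reg.eq_zero_of_full ((M.full_iff h hj e₀).2 (by rw [M.base])) (M.eq_zero _ ?_)
  rw [eq_bot_iff, ← h.inf_o p]
  exact le_inf (M.smul_mem r M.base.le) h1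

theorem aff_pt (M : PM o p j ε pt e₀) (h : Geo o) (hj : CenRep o (cov o p) j)
    (hv : pt v ≤ o p) : Aff o p (pt (e₀ + v)) := by
  have hO := h.toOM
  have hp : Pt o p := M.base ▸ M.isPt e₀
  refine h.aff_of hp (M.isPt _) ?_ ((M.full_iff h hj _).1 fun z hz => ?_).ge
  · obtain ⟨t, ht⟩ := M.surj (pt (e₀ + v) ⊓ o p) (hO.pt_mono (M.isPt _) inf_le_left)
      (inf_le_left.trans (M.le_cov _))
    obtain ⟨r, hr⟩ := M.span1 (ht.le.trans inf_le_left)
    have h1 : r = 0 := by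
      refine M.p2_coef h hj (M.smul_mem r hv) ?_
      rw [← smul_add, ← hr]
      exact ht.le.trans inf_le_right
    rw [← ht, hr, h1, zero_smul, M.pt_zero h hj]
  · refine M.reg.eq_bot z (M.p2_coef h hj (M.smul_mem (ε z) hv) ?_)
    rw [← smul_add, hz, M.pt_zero h hj]
    exact bot_le

theorem aff_surj (M : PM o p j ε pt e₀) (h : Geo o) (hj : CenRep o (cov o p) j)
    (ha : Aff o p a) : ∃ v, pt v ≤ o p ∧ a = pt (e₀ + v) := by
  have hO := h.toOM
  have hp : Pt o p := M.base ▸ M.isPt e₀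
  have hc := h.aff_cov hp ha
  obtain ⟨u, rfl⟩ := M.surj a ha.1 ((hO.le_cov a).trans hc.le)
  obtain ⟨a', b, ha', hb, hab⟩ := M.split h u p
  obtain ⟨r, rfl⟩ := M.span1 (ha'.trans M.base.ge)
  have hr : IsUnit r := by
    refine M.reg.isUnit_of_full fun z hz => (M.full_iff h hj u).2 hc z (M.eq_zero _ ?_)
    have h1 : ε z • u = ε z • b := by
      rw [hab, smul_add, smul_smul, hz, zero_smul, zero_add]
    rw [eq_bot_iff, ← ha.2.inf_eq_bot]
    exact le_inf (M.smul_le _ _) (h1 ▸ M.smul_mem _ hb)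
  obtain ⟨k, rfl⟩ := hr
  refine ⟨((k⁻¹ : Rˣ) : R) • b, M.smul_mem _ hb, ?_⟩
  rw [← M.pt_unit k⁻¹ u]
  congr 1
  rw [hab, smul_add, smul_smul, Units.inv_mul, one_smul]

theorem aff_loc (M : PM o p j ε pt e₀) (h : Geo o) (hj : CenRep o (cov o p) j)
    (hu : pt u ≤ o p) (hv : pt v ≤ o p) (z : B) :
    j z ⊓ pt (e₀ + u) = j z ⊓ pt (e₀ + v) ↔ ε z • u = ε z • v := by
  rw [← M.loc, ← M.loc]
  constructor
  · intro he
    obtain ⟨r, hr⟩ := M.span1 he.le
    have h1 : ε z - r * ε z = 0 := by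
      refine M.p2_coef h hj (M.sub_mem (M.smul_mem (ε z) hu) (M.smul_mem (r * ε z) hv)) ?_
      have h2 : (ε z - r * ε z) • e₀ + (ε z • u - (r * ε z) • v) =
          ε z • (e₀ + u) - r • ε z • (e₀ + v) := by
        module
      rw [h2, hr, sub_self, M.pt_zero h hj]
      exact bot_le
    rw [smul_smul, ← sub_eq_zero.1 h1, smul_add, smul_add] at hr
    exact add_left_cancel hr
  · intro he
    rw [smul_add, smul_add, he]

theorem aff_inj (M : PM o p j ε pt e₀) (h : Geo o) (hj : CenRep o (cov o p) j)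
    (hu : pt u ≤ o p) (hv : pt v ≤ o p) (he : pt (e₀ + u) = pt (e₀ + v)) : u = v := by
  have h1 := (M.aff_loc h hj hu hv ⊤).1 (by rw [he])
  rwa [M.reg.top, one_smul, one_smul] at h1

theorem dir_eq (M : PM o p j ε pt e₀) (h : Geo o) (hj : CenRep o (cov o p) j)
    (hu : pt u ≤ o p) (hv : pt v ≤ o p) :
    dr o p (pt (e₀ + u)) (pt (e₀ + v)) = pt (u - v) := by
  refine le_antisymm (M.le_of_vec h ?_ fun w hw => ?_) (le_inf ?_ (M.sub_mem hu hv))
  · exact inf_le_left.trans (sup_le (M.le_cov _) (M.le_cov _))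
  · obtain ⟨r, s, hrs⟩ := M.span w _ _ (hw.trans inf_le_left)
    have h2 : w = (r + s) • e₀ + (r • u + s • v) := by
      rw [hrs]
      module
    have h1 : r + s = 0 :=
      M.p2_coef h hj (M.add_mem (M.smul_mem r hu) (M.smul_mem s hv))
        (h2 ▸ hw.trans inf_le_right)
    have h3 : w = r • (u - v) := by
      rw [h2, h1, eq_neg_of_add_eq_zero_right h1]
      module
    rw [h3]
    exact M.smul_le _ _
  · have h1 := M.sub_le (e₀ + u) (e₀ + v)
    rwa [add_sub_add_left_eq_sub] at h1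

theorem le_line_iff (M : PM o p j ε pt e₀) (h : Geo o) (hj : CenRep o (cov o p) j)
    (hu : pt u ≤ o p) (hv : pt v ≤ o p) (hw : pt w ≤ o p) :
    pt (e₀ + v) ≤ pt (e₀ + u) ⊔ pt (e₀ + w) ↔ ∃ t : R, v - u = t • (w - u) := by
  constructor
  · intro hl
    obtain ⟨r, s, hrs⟩ := M.span _ _ _ hl
    have h1 : 1 - r - s = 0 := by
      refine M.p2_coef h hj
        (M.sub_mem (M.sub_mem hv (M.smul_mem r hu)) (M.smul_mem s hw)) ?_
      have h2 : (1 - r - s) • e₀ + (v - r • u - s • w) =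
          e₀ + v - (r • (e₀ + u) + s • (e₀ + w)) := by
        module
      rw [h2, ← hrs, sub_self, M.pt_zero h hj]
      exact bot_le
    have h3 : r = 1 - s := by linear_combination -h1
    refine ⟨s, ?_⟩
    have h4 : v - u = e₀ + v - (e₀ + u) := by abel
    rw [h4, hrs, h3]
    module
  · rintro ⟨t, ht⟩
    have h1 : e₀ + v = (1 - t) • (e₀ + u) + t • (e₀ + w) := by
      rw [eq_add_of_sub_eq ht]
      module
    rw [h1]
    exact M.add_mem (M.smul_mem _ le_sup_left) (M.smul_mem _ le_sup_right)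

end PM

end Pool.Agent.P.MP_d8da86_an.CR
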