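import Pool.Agent.P.MP_d8da86_an.C.R2

/-!
Ordered Boolean valued fields.
Hints. `sqrt`: r = s * s, star s = ± s locally; where star s = -s one has r = -(star s * s) ≤ 0
so r = 0 and s = 0 there; then change the sign of s by `total`. `cut`: `total` for r gives z0; take
z = z0 ⊔ (support of r)ᶜ. `cauchy_schwarz`: on the support of N = f v v use
0 ≤ f (N • w - f v w • v) (same) = N * (N * f w w - star (f v w) * f v w); off the support use the
vectors w - t • v to see f v w = 0 (for c = f v w, t = c * n with n = quasi-inverse of star c * c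
times (f w w + 1)).
-/

open scoped InnerProductSpace ComplexConjugate

set_option linter.unusedSectionVars false
set_option linter.unusedVariables false

noncomputable section

namespace Pool.Agent.P.MP_d8da86_an.CR

universe u

variable {B : Type*} [CompleteBooleanAlgebra B] {R : Type*} [CommRing R] [StarRing R]
  [PartialOrder R] [IsOrderedRing R] {ε : B → R} {r s t : R} {z : B}

namespace BC

theorem div_le (h : BC ε) (hr : 0 ≤ r) (hrs : r ≤ s) : ∃ t, 0 ≤ t ∧ t ≤ 1 ∧ r = t * s := by
  obtain ⟨z, q, hq, h1, h2, -, -⟩ := h.qinv_nonneg (hr.trans hrs)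
  have h3 : ε zᶜ * s = 0 := by
    linear_combination s * h.toReg.mul_compl z - ε zᶜ * h2
  have h4 : ε zᶜ * r = 0 :=
    le_antisymm (h3 ▸ mul_le_mul_of_nonneg_left hrs (h.eps_nonneg _))
      (mul_nonneg (h.eps_nonneg _) hr)
  refine ⟨r * q, mul_nonneg hr hq,
    (mul_le_mul_of_nonneg_right hrs hq).trans (h1.le.trans (h.eps_le_one z)), ?_⟩
  linear_combination h4 - r * h1 - r * h.toReg.add_compl z

theorem le_of_sq_le (h : BC ε) (hr : star r = r) (hs : 0 ≤ s) (hrs : r * r ≤ s * s) : r ≤ s := by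
  obtain ⟨z, h1, h2⟩ := h.total (s - r) (by rw [star_sub, hr, h.star_eq hs])
  have he := h.toReg.idem zᶜ
  have h3 : 0 ≤ ε zᶜ * (r - s) := by
    rw [← neg_sub s r, mul_neg]
    exact neg_nonneg.2 h2
  have h4 : 0 ≤ ε zᶜ * (r - s) * s := mul_nonneg h3 hs
  have h5 : 0 ≤ ε zᶜ * (s * s - r * r) := mul_nonneg (h.eps_nonneg _) (sub_nonneg.2 hrs)
  have h6 : ε zᶜ * (r - s) * (ε zᶜ * (r - s)) = 0 := by
    refine le_antisymm ?_ (mul_nonneg h3 h3)
    have h7 := neg_nonpos.2 (add_nonneg h5 (add_nonneg h4 h4))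
    refine le_of_eq_of_le ?_ h7
    linear_combination (r - s) * (r - s) * he
  have h8 := h.toReg.eq_zero_of_sq h6
  refine sub_nonneg.1 (h.nonneg_of_cases h1 (le_of_eq ?_))
  linear_combination h8

/-- real and imaginary parts -/
theorem re_im (h : BC ε) (r : R) : ∃ a b i : R, star a = a ∧ star b = b ∧ i * i = -1 ∧
    star i = -i ∧ r = a + i * b := by
  obtain ⟨i, hi, hsi⟩ := h.exI
  obtain ⟨k, hk⟩ := (h.isUnit_nat (n := 2) two_ne_zero).exists_left_inv
  have hk2 : k * 2 = 1 := by simpa using hk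
  have hk3 : star k * 2 = 1 := by
    have := congrArg star hk2
    rwa [star_mul, star_ofNat, star_one, mul_comm] at this
  have hsk : star k = k := by linear_combination k * hk3 - star k * hk2
  refine ⟨k * (r + star r), -(i * (k * (r - star r))), i, ?_, ?_, hi, hsi, ?_⟩
  · rw [star_mul, star_add, star_star, hsk]
    ring
  · rw [star_neg, star_mul, star_mul, star_sub, star_star, hsk, hsi]
    ring
  · linear_combination (k * (r - star r)) * hi - r * hk2

theorem cauchy_schwarz (h : BC ε) {K : Type*} [AddCommGroup K] [Module R K] {f : K → K → R}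
    (hf : IsForm f) (hp : ∀ v, 0 ≤ f v v) (v w : K) :
    star (f v w) * f v w ≤ f v v * f w w := by
  have hx : ∀ t : R, 0 ≤ f w w - t * star (f v w) - star t * f v w + star t * t * f v v := by
    intro t
    refine le_of_le_of_eq (hp (w - t • v)) ?_
    rw [hf.sub_left, hf.sub_right, hf.sub_right, hf.smul_left, hf.smul_left, hf.smul, hf.smul,
      hf.herm v w]
    ring
  obtain ⟨z, q, hq, h1, h2, h3, -⟩ := h.qinv_nonneg (hp v)
  obtain ⟨z', q', hq', h1', h2', -, -⟩ := h.qinv_nonneg (h.star_mul_nonneg (f v w))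
  have hM := hp w
  have hN := hp v
  generalize f v v = N at *
  generalize f w w = M at *
  generalize f v w = c at *
  have h4 : ε zᶜ * N = 0 := by
    linear_combination N * h.toReg.mul_compl z - ε zᶜ * h2
  have h5 : 0 ≤ N * M - ε z * (star c * c) := by
    refine le_of_le_of_eq (mul_nonneg hN (hx (q * c))) ?_
    rw [star_mul, h.star_eq hq]
    linear_combination (star c * c * (N * q + ε z - 2)) * h1 + (star c * c) * h.toReg.idem z
  have h6 : ε (zᶜ ⊓ z') = 0 := by
    have hg := h.eps_nonneg (zᶜ ⊓ z')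
    have hi := h.toReg.idem (zᶜ ⊓ z')
    have h7 := mul_nonneg hg (hx (ε zᶜ * (q' * (M + 1)) * c))
    rw [star_mul, star_mul, star_mul, star_add, star_one, h.star_eq hM, h.star_eq hq',
      h.star_ε] at h7
    refine le_antisymm (le_of_eq_of_le ?_
      (neg_nonpos.2 (add_nonneg h7 (add_nonneg (mul_nonneg hg hM) hg)))) hg
    have h8 := h.toReg.inf zᶜ z'
    generalize ε (zᶜ ⊓ z') = g at *
    linear_combination (-2 * g * ε zᶜ * (M + 1)) * h1' + (2 * g * (M + 1)) * h8 -
      (2 * (M + 1)) * hi +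
      (g * star c * (M + 1) * q' * ε zᶜ * q' * (M + 1) * c) * h4
  rw [h.toReg.inf] at h6
  refine sub_nonneg.1 (le_of_le_of_eq h5 ?_)
  linear_combination (star c * c) * h6 - ε zᶜ * h2' - (star c * c) * h.toReg.add_compl z

theorem form_add_le (h : BC ε) {K : Type*} [AddCommGroup K] [Module R K] {f : K → K → R}
    (hf : IsForm f) (hp : ∀ v, 0 ≤ f v v) (v w : K) :
    f (v + w) (v + w) ≤ 2 * f v v + 2 * f w w := by
  refine le_of_le_of_eq (le_add_of_nonneg_right (hp (v - w))) ?_
  rw [hf.add_left, hf.add, hf.add, hf.sub_left, hf.sub_right, hf.sub_right]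
  ring

/-- every vector is a multiple of a normalised vector -/
theorem normalise (h : BC ε) {E : Type*} [AddCommGroup E] [Module R E] {f : E → E → R}
    (hf : PD ε f) (v : E) : ∃ (u : E) (z : B) (a b : R), f u u = ε z ∧ u = a • v ∧ v = b • u ∧
      ε z • v = v := by
  obtain ⟨s, hs, hss⟩ := h.sqrt (hf.nonneg v)
  obtain ⟨z, q, hq, h1, h2, -, -⟩ := h.qinv_nonneg hs
  have h3 : ε zᶜ • v = 0 := by
    refine hf.aniso _ ?_
    rw [hf.toIsForm.smul, hf.toIsForm.smul_left, h.star_ε, ← hss]
    linear_combination (ε zᶜ * s * s) * h.toReg.mul_compl z - (ε zᶜ * ε zᶜ * s) * h2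
  have h4 : ε z • v = v := by
    have h5 := h.toReg.smul_add_compl z v
    rwa [h3, add_zero] at h5
  refine ⟨q • v, z, q, s, ?_, rfl, by rw [smul_smul, h1, h4], h4⟩
  rw [hf.toIsForm.smul, hf.toIsForm.smul_left, h.star_eq hq, ← hss]
  linear_combination (s * q + ε z) * h1 + h.toReg.idem z

end BC

end Pool.Agent.P.MP_d8da86_an.CR
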