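import Pool.Agent.P.MP_d8da86_an.C.P2b
import Pool.Agent.P.MP_d8da86_an.C.R2b
import Pool.Agent.P.MP_d8da86_an.C.F1

/-!
Coordinates with a form: adjoints, betweenness, continuity.
Hints. `ratio_star`: pt (s • e0 + v) perp pt (e0 + w) iff g (pt (s • e0 + v)) ≤ o (k.symm (pt (e0 + w))),
where k.symm has the ratio b⁻¹; with v = w = e1 and star s = -f e1 e1 this gives
star a * b⁻¹ = 1. `btw_iff`: with d = w - u, v - u = t • d, x = e0 + y, n = y - v perp d one has
f (n + t • d) (n + (t - 1) • d) = f n n + star t * (t - 1) * f d d. If this is zero replace t by its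
part on the support of f d d; then t = star t * t + f n n * (quasi-inverse) ≥ 0 and t * t ≤ t.
Conversely take a full vector n0 in the hyperplane perp to d (`Orth.exists_perp`), normalise it and
scale it by a square root of t * (1 - t) * f d d.
`ded_of_cont`: X = {pt (e0 + s • e1)}, s in S, Y the same for upper bounds, a = p.
`cont_of_ded`: translate a to the origin. If Y or X is empty take b = a. Fix y0; x = s x • y0 with
0 ≤ s x ≤ 1 supported on the support of y0, m = sup, b = m • y0. Check x, b, y locally and glue the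
coefficient (`Reg.glue`): where all x' vanish b = x; on the support of some x1 one has y = σ • y0
with σ ≥ s x' for all x' (there), so s x ≤ m ≤ σ there and `div_le`.
-/

open scoped InnerProductSpace ComplexConjugate

set_option linter.unusedSectionVars false
set_option linter.unusedVariables false

noncomputable section

namespace Pool.Agent.P.MP_d8da86_an.CR

universe u

variable {L : Type*} [CompleteLattice L] {o : L → L} {p : L}
  {B : Type*} [CompleteBooleanAlgebra B] {j : B → L} {R : Type*} [CommRing R] [StarRing R]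
  [PartialOrder R] [IsOrderedRing R] {ε : B → R} {E : Type*} [AddCommGroup E] [Module R E]
  {pt : E → L} {e₀ u v w : E} {f : E → E → R} {g k : L ≃o L}

namespace FM

theorem hyp_iff (M : FM o p j ε pt e₀ f) (h : Geo o) : pt v ≤ o p ↔ f e₀ v = 0 := by
  rw [M.perp, M.base, h.toOM.perp_comm]

theorem exists_unit_perp (M : FM o p j ε pt e₀ f) (h : Geo o) (hp : Spatial o p)
    (hj : CenRep o (cov o p) j) (hu : pt u ≤ o p) :
    ∃ n, pt n ≤ o p ∧ f n u = 0 ∧ f n n = 1 := by
  obtain ⟨e₁, e₂, hO⟩ := M.toPM.exists_orth h hp hj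
  obtain ⟨w, hw, hwu, hf⟩ := hO.exists_perp M.reg M.bm (u := u) (by rw [M.base]; exact hu)
  rw [M.base] at hw
  obtain ⟨n, z, a, b, h1, h2, -, h4⟩ := M.bc.normalise M.pd w
  have hz : zᶜ = ⊥ := hf _ (by rw [← h4, smul_smul, mul_comm, M.reg.mul_compl, zero_smul])
  refine ⟨n, h2 ▸ M.toPM.smul_mem a hw, ?_, ?_⟩
  · rw [h2, M.pd.toIsForm.smul_left, (M.perp w u).2 hwu, mul_zero]
  · rw [h1, compl_eq_bot.1 hz, M.reg.top]

theorem ratio_star (M : FM o p j ε pt e₀ f) (h : Geo o) (hp : Spatial o p)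
    (hj : CenRep o (cov o p) j) (hg : Ax o p g) (hk : Ax o p k) (hg0 : g p = p) (hk0 : k p = p)
    (hgk : ∀ x, k (o (g x)) = o x) {a b : R}
    (ha : ∀ v, pt v ≤ o p → g (pt (e₀ + v)) = pt (e₀ + a • v))
    (hb : ∀ v, pt v ≤ o p → k (pt (e₀ + v)) = pt (e₀ + b • v)) : b = star a := by
  have F := M.pd.toIsForm
  have h0 : pt (0 : E) ≤ o p := by rw [M.toPM.pt_zero h hj]; exact bot_le
  obtain ⟨n, hn, -, hnn⟩ := M.exists_unit_perp h hp hj h0
  obtain ⟨c, hc⟩ := M.toPM.ratio h hp hj hg hg0
  have hac : a = c := M.toPM.scalar_ext h hp hj fun v hv => by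
    refine M.toPM.aff_inj h hj (M.toPM.smul_mem _ hv) (M.toPM.smul_mem _ hv) ?_
    rw [← ha v hv]
    simpa only [one_smul] using hc 1 v hv
  have e1 : f e₀ n = 0 := (M.hyp_iff h).1 hn
  have e2 : f n e₀ = 0 := F.zero_symm e1
  have p1 : pt (e₀ + n) ≤ o (g (pt ((-a) • e₀ + n))) := by
    rw [hc _ n hn, ← hac, ← M.perp]
    simp only [F.add, F.add_left, F.smul, e1, e2, hnn, M.one]
    ring
  have p2 := k.monotone p1
  rw [hgk, hb n hn, ← M.perp] at p2
  simp only [F.add, F.add_left, F.smul, F.smul_left, e1, e2, hnn, M.one] at p2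
  have : star b = a := by linear_combination p2
  rw [← this, star_star]

theorem btw_iff (M : FM o p j ε pt e₀ f) (h : Geo o) (hp : Spatial o p)
    (hj : CenRep o (cov o p) j) (hu : pt u ≤ o p) (hv : pt v ≤ o p) (hw : pt w ≤ o p) :
    Btw o p (pt (e₀ + u)) (pt (e₀ + v)) (pt (e₀ + w)) ↔
      ∃ t : R, 0 ≤ t ∧ t ≤ 1 ∧ v - u = t • (w - u) := by
  have F := M.pd.toIsForm
  have P := M.toPM
  have key : ∀ (y : E) (t : R), v - u = t • (w - u) → f (y - v) (w - u) = 0 →
      f (u - y) (w - y) = f (y - v) (y - v) + star t * (t - 1) * f (w - u) (w - u) := by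
    intro y t ht hn
    have e1 : u - y = -(y - v + t • (w - u)) := by rw [← ht]; abel
    have e2 : w - y = -(y - v + (t - 1) • (w - u)) := by rw [sub_smul, one_smul, ← ht]; abel
    have hn' := F.zero_symm hn
    rw [e1, e2]
    generalize y - v = n at hn hn' ⊢
    generalize w - u = d at hn hn' ⊢
    simp only [F.neg_left, F.neg_right, F.add, F.add_left, F.smul, F.smul_left, hn, hn']
    ring
  have conv : ∀ y : E, f (v - y) (u - w) = f (y - v) (w - u) := fun y => by
    rw [← neg_sub y v, ← neg_sub w u, F.neg_left, F.neg_right, neg_neg]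
  constructor
  · rintro ⟨hl, x, hx, h1, h2⟩
    obtain ⟨t, ht⟩ := (P.le_line_iff h hj hu hv hw).1 hl
    obtain ⟨y, hy, rfl⟩ := P.aff_surj h hj hx
    change dr o p _ _ ≤ o (dr o p _ _) at h1 h2
    rw [P.dir_eq h hj hu hy, P.dir_eq h hj hw hy, ← M.perp] at h1
    rw [P.dir_eq h hj hv hy, P.dir_eq h hj hu hw, ← M.perp, conv] at h2
    rw [key y t ht h2] at h1
    obtain ⟨z, s, hs, q1, q2, -, -⟩ := M.bc.qinv_nonneg (M.pd.nonneg (w - u))
    have hN : 0 ≤ f (y - v) (y - v) * s := mul_nonneg (M.pd.nonneg _) hs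
    have hd : ε zᶜ • (w - u) = 0 := M.pd.aniso _ (by
      rw [F.smul, F.smul_left, ← q2, M.bc.star_ε]
      linear_combination (ε zᶜ * f (w - u) (w - u)) * M.reg.mul_compl z)
    have hd' : ε z • (w - u) = w - u := by
      have := M.reg.smul_add_compl z (w - u)
      rwa [hd, add_zero] at this
    have hi := M.reg.idem z
    have hst : star (ε z * t) = ε z * star t := by rw [star_mul', M.bc.star_ε]
    have e : star (ε z * t) = star (ε z * t) * (ε z * t) + f (y - v) (y - v) * s := by
      rw [hst]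
      linear_combination (-s) * h1 + (star t * (t - 1)) * q1 - (star t * t) * hi
    have p0 : 0 ≤ star (ε z * t) := by
      rw [e]
      exact add_nonneg (M.bc.star_mul_nonneg _) hN
    have hsa : star (ε z * t) = ε z * t := by
      have := M.bc.star_eq p0
      rw [star_star] at this
      exact this.symm
    rw [hsa] at e p0
    refine ⟨ε z * t, p0, ?_, by rw [ht, mul_comm, mul_smul, hd']⟩
    have hsb : star (1 - ε z * t) = 1 - ε z * t := by rw [star_sub, star_one, hsa]
    have e' : 1 - ε z * t = (1 - ε z * t) * (1 - ε z * t) + f (y - v) (y - v) * s := by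
      linear_combination e
    rw [← sub_nonneg, e']
    exact add_nonneg (M.bc.sq_nonneg hsb) hN
  · rintro ⟨t, t0, t1, ht⟩
    obtain ⟨n, hn, hnd, hnn⟩ := M.exists_unit_perp h hp hj (P.sub_mem hw hu)
    obtain ⟨c, c0, hc⟩ := M.bc.sqrt
      (mul_nonneg (mul_nonneg t0 (sub_nonneg.2 t1)) (M.pd.nonneg (w - u)))
    have hy : pt (v + c • n) ≤ o p := P.add_mem hv (P.smul_mem c hn)
    have e : v + c • n - v = c • n := add_sub_cancel_left _ _
    have h2 : f (v + c • n - v) (w - u) = 0 := by rw [e, F.smul_left, hnd, mul_zero]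
    refine ⟨(P.le_line_iff h hj hu hv hw).2 ⟨t, ht⟩, _, P.aff_pt h hj hy, ?_, ?_⟩
    · change dr o p _ _ ≤ o (dr o p _ _)
      rw [P.dir_eq h hj hu hy, P.dir_eq h hj hw hy, ← M.perp, key _ t ht h2, e, F.smul,
        F.smul_left, hnn, M.bc.star_eq c0, M.bc.star_eq t0]
      linear_combination hc
    · change dr o p _ _ ≤ o (dr o p _ _)
      rw [P.dir_eq h hj hv hy, P.dir_eq h hj hu hw, ← M.perp, conv, h2]

end FM

end Pool.Agent.P.MP_d8da86_an.CR
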