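import Pool.Agent.P.MP_d8da86_an.C.A1

/-!
Ordered Boolean valued fields.
Hints. `sqrt`: r = s * s, star s = ± s locally; where star s = -s one has r = -(star s * s) ≤ 0
so r = 0 and s = 0 there; then change the sign of s by `total`. `cut`: `total` for r gives z0; take
z = z0 ⊔ (support of r)ᶜ. `cauchy_schwarz`: on the support of N = f v v use
0 ≤ f (N • w - f v w • v) (same) = N * (N * f w w - star (f v w) * f v w); off the support use the
vectors w - t • v to see f v w = 0 (for c = f v w, t = c * n with n = quasi-inverse of star c * c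
times (f w w + 1)).
-/

open scoped InnerProductSpace ComplexConjugate

set_option linter.unusedSectionVars false
set_option linter.unusedVariables false

noncomputable section

namespace Pool.Agent.P.MP_d8da86_an.CR

universe u

variable {B : Type*} [CompleteBooleanAlgebra B] {R : Type*} [CommRing R] [StarRing R]
  [PartialOrder R] [IsOrderedRing R] {ε : B → R} {r s t : R} {z : B}

namespace BC

theorem star_mul_nonneg (h : BC ε) (t : R) : 0 ≤ star t * t := by
  exact (h.nonneg_iff _).2 ⟨t, rfl⟩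

theorem star_eq (h : BC ε) (hr : 0 ≤ r) : star r = r := by
  obtain ⟨t, rfl⟩ := (h.nonneg_iff _).1 hr
  rw [star_mul, star_star]

theorem star_eq_of_le (h : BC ε) (hr : star r = r) (hrs : r ≤ s) : star s = s := by
  have h1 := h.star_eq (sub_nonneg.2 hrs)
  rwa [star_sub, hr, sub_left_inj] at h1

theorem sq_nonneg (h : BC ε) (hr : star r = r) : 0 ≤ r * r := by
  have h1 := h.star_mul_nonneg r
  rwa [hr] at h1

theorem eq_zero_of_star (h : BC ε) (h0 : star t * t = 0) : t = 0 := by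
  obtain ⟨z, k, rfl⟩ := h.reg t
  have h1 : ε z * ((star k * k : Rˣ) : R) = 0 := by
    rw [← h0, Units.val_mul, Units.coe_star, star_mul', h.star_ε]
    linear_combination (-(star (k : R) * k)) * h.toReg.idem z
  rw [h.toReg.eq_bot_of_unit _ h1, h.toReg.bot, zero_mul]

theorem eps_nonneg (h : BC ε) (z : B) : 0 ≤ ε z := by
  have h1 := h.sq_nonneg (h.star_ε z)
  rwa [h.toReg.idem] at h1

theorem eps_le_one (h : BC ε) (z : B) : ε z ≤ 1 := by
  have h1 := h.eps_nonneg zᶜ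
  rwa [h.compl, sub_nonneg] at h1

theorem eps_mul_le (h : BC ε) (z : B) (hr : 0 ≤ r) : ε z * r ≤ r := by
  exact mul_le_of_le_one_left hr (h.eps_le_one z)

theorem sqrt (h : BC ε) (hr : 0 ≤ r) : ∃ s, 0 ≤ s ∧ s * s = r := by
  obtain ⟨s, rfl⟩ := h.sq r
  have h1 := h.star_eq hr
  rw [star_mul] at h1
  obtain ⟨z, h2, h3⟩ := h.toReg.split_mul (r := star s - s) (s := star s + s)
    (by linear_combination h1)
  have h4 : ε zᶜ * (s * s) = 0 := by
    apply le_antisymm _ (mul_nonneg (h.eps_nonneg _) hr)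
    have h5 := mul_nonneg (h.eps_nonneg zᶜ) (h.star_mul_nonneg s)
    have h6 : ε zᶜ * (s * s) = -(ε zᶜ * (star s * s)) := by linear_combination s * h3
    rw [h6]
    exact neg_nonpos.2 h5
  have h5 : ε zᶜ * s = 0 := h.toReg.eq_zero_of_sq (by linear_combination ε zᶜ * h4)
  have h6 : star s = s := by
    linear_combination h2 + h3 - 2 * h5 - (star s - s) * h.toReg.add_compl z
  obtain ⟨y, h7, h8⟩ := h.total s h6
  refine ⟨ε y * s - ε yᶜ * s, sub_nonneg.2 (h8.trans h7), ?_⟩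
  linear_combination (s * s) * h.toReg.idem y + (s * s) * h.toReg.idem yᶜ
    - 2 * (s * s) * h.toReg.mul_compl y + (s * s) * h.toReg.add_compl y

theorem inv_nonneg (h : BC ε) (k : Rˣ) (hk : 0 ≤ (k : R)) : 0 ≤ ((k⁻¹ : Rˣ) : R) := by
  have h1 : star ((k⁻¹ : Rˣ) : R) * k = 1 := by
    conv_lhs => rw [← h.star_eq hk, ← star_mul']
    rw [Units.inv_mul, star_one]
  have h2 := mul_nonneg hk (h.star_mul_nonneg ((k⁻¹ : Rˣ) : R))
  rwa [← mul_assoc, mul_comm (k : R), h1, one_mul] at h2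

theorem qinv_nonneg (h : BC ε) (hr : 0 ≤ r) : ∃ (z : B) (s : R), 0 ≤ s ∧ r * s = ε z ∧
    ε z * r = r ∧ ε z * s = s ∧ ∀ w, ε w * r = 0 ↔ w ⊓ z = ⊥ := by
  obtain ⟨z, s, h1, h2, h3, h4⟩ := h.toReg.qinv r
  refine ⟨z, s, ?_, h1, h2, h3, h4⟩
  have h5 : r * star s = ε z := by
    rw [← h.star_ε z, ← h1, star_mul', h.star_eq hr]
  have h6 := mul_nonneg hr (h.star_mul_nonneg s)
  rwa [← mul_assoc, h5, h3] at h6

theorem isUnit_of_le (h : BC ε) (hr : 1 ≤ r) : IsUnit r := by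
  refine h.toReg.isUnit_of_full fun z hz => h.eq_bot z (le_antisymm ?_ (h.eps_nonneg z))
  have h1 := mul_le_mul_of_nonneg_left hr (h.eps_nonneg z)
  rwa [mul_one, hz] at h1

theorem isUnit_nat (h : BC ε) {n : ℕ} (hn : n ≠ 0) : IsUnit (n : R) := by
  apply h.isUnit_of_le
  have h1 : ((1 : ℕ) : R) ≤ n := Nat.mono_cast (Nat.one_le_iff_ne_zero.2 hn)
  rwa [Nat.cast_one] at h1

theorem nonneg_of_mul (h : BC ε) (k : Rˣ) (hk : 0 ≤ (k : R)) (hr : 0 ≤ (k : R) * r) : 0 ≤ r := by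
  have h1 := mul_nonneg (h.inv_nonneg k hk) hr
  rwa [Units.inv_mul_cancel_left] at h1

theorem nonneg_of_cases (h : BC ε) (h1 : 0 ≤ ε z * r) (h2 : 0 ≤ ε zᶜ * r) : 0 ≤ r := by
  have h3 := add_nonneg h1 h2
  rwa [← add_mul, h.toReg.add_compl, one_mul] at h3

/-- the largest part on which `r` is nonnegative -/
theorem cut (h : BC ε) (hr : star r = r) : ∃ z, 0 ≤ ε z * r ∧ ε zᶜ * r ≤ 0 ∧
    ∀ w, 0 ≤ ε w * r ↔ w ≤ z := by
  obtain ⟨x, h1, h2⟩ := h.total r hr
  obtain ⟨y, s, -, h3, -, h4⟩ := h.toReg.qinv r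
  have h5 : ε yᶜ * r = 0 := (h4 _).2 compl_inf_eq_bot
  have h6 : ε (x ⊔ yᶜ) * r = ε x * r := by
    rw [h.toReg.sup]
    linear_combination (1 - ε x) * h5
  refine ⟨x ⊔ yᶜ, h6 ▸ h1, ?_, fun w => ⟨fun hw => ?_, fun hw => ?_⟩⟩
  · rwa [compl_sup, compl_compl, h.inf, mul_assoc, h3]
  · have h7 : ε (w ⊓ xᶜ) * r = 0 := by
      rw [h.inf]
      apply le_antisymm
      · rw [mul_assoc]
        exact mul_nonpos_of_nonneg_of_nonpos (h.eps_nonneg w) h2
      · rw [mul_comm (ε w), mul_assoc]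
        exact mul_nonneg (h.eps_nonneg _) hw
    have h8 := (h4 _).1 h7
    rw [inf_assoc, ← disjoint_iff, ← le_compl_iff_disjoint_right, compl_inf, compl_compl] at h8
    exact h8
  · rw [← h.toReg.of_le hw, mul_assoc, h6]
    exact mul_nonneg (h.eps_nonneg w) h1

theorem nonneg_sSup (h : BC ε) {S : Set B} (hS : ∀ w ∈ S, 0 ≤ ε w * r) :
    0 ≤ ε (sSup S) * r := by
  have h1 : ε (sSup S) * (star r - r) = 0 := by
    refine h.toReg.bmod.sSup_smul (v := star r - r) fun w hw => ?_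
    have h2 := h.star_eq (hS w hw)
    rw [star_mul', h.star_ε] at h2
    rw [smul_eq_mul, mul_sub, h2, sub_self]
  obtain ⟨z, -, -, h2⟩ := h.cut (r := ε (sSup S) * r) (by
    rw [star_mul', h.star_ε]
    linear_combination h1)
  have h3 := (h2 (sSup S)).2 (sSup_le fun w hw => (h2 w).1 (by
    rw [← mul_assoc, h.toReg.of_le (le_sSup hw)]
    exact hS w hw))
  rwa [← mul_assoc, h.toReg.idem] at h3

theorem loc_nonneg (h : BC ε)
    (hl : ∀ z, z ≠ ⊥ → ∃ w, w ≠ ⊥ ∧ w ≤ z ∧ 0 ≤ ε w * r) : 0 ≤ r := by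
  have h1 := h.nonneg_sSup (S := {w | 0 ≤ ε w * r}) (r := r) fun w hw => hw
  have h2 : sSup {w | 0 ≤ ε w * r} = ⊤ := by
    by_contra hc
    obtain ⟨w, h3, h4, h5⟩ := hl (sSup {w | 0 ≤ ε w * r})ᶜ (by rwa [Ne, compl_eq_bot])
    have h6 : w ≤ sSup {w | 0 ≤ ε w * r} := le_sSup (s := {w | 0 ≤ ε w * r}) h5
    exact h3 (le_bot_iff.1 ((le_inf h6 h4).trans inf_compl_eq_bot.le))
  rwa [h2, h.top, one_mul] at h1

theorem le_of_part (h : BC ε) {S : Set B} (hS : sSup S = ⊤)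
    (hl : ∀ w ∈ S, ε w * r ≤ ε w * s) : r ≤ s := by
  have h1 := h.nonneg_sSup (S := S) (r := s - r) fun w hw => by
    rw [mul_sub]
    exact sub_nonneg.2 (hl w hw)
  rwa [hS, h.top, one_mul, sub_nonneg] at h1

end BC

end Pool.Agent.P.MP_d8da86_an.CR
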