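import Pool.Agent.P.MP_d8da86_an.C.R2b

/-!
The complex scalars.
Hints. `arch_of_ded`: m = sup of the n * r, then m - r is an upper bound of the n * r.
`exists_alg`: R is a ℚ-algebra since the integers are units. For real t let ι t be the supremum
of the rationals below t (shift by an integer to make them nonnegative); it is the only element
between all q < t and all q' > t by `arch_of_ded`. Then ι is a monotone ring homomorphism
(`LinearOrderedField` lemmas do not apply, compare with rationals); extend to ℂ by i.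
-/

open scoped InnerProductSpace ComplexConjugate

set_option linter.unusedSectionVars false
set_option linter.unusedVariables false

noncomputable section

namespace Pool.Agent.P.MP_d8da86_an.CR

universe u

variable {B : Type*} [CompleteBooleanAlgebra B] {R : Type*} [CommRing R] [StarRing R]
  [PartialOrder R] [IsOrderedRing R] {ε : B → R}

theorem arch_of_ded (hd : Ded R) {r s : R} (hr : 0 ≤ r) (hl : ∀ n : ℕ, n * r ≤ s) : r = 0 := by
  obtain ⟨m, hm⟩ := hd (Set.range fun n : ℕ => (n : R) * r) (Set.range_nonempty _)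
    (by rintro _ ⟨n, rfl⟩; exact mul_nonneg (Nat.cast_nonneg n) hr)
    ⟨s, by rintro _ ⟨n, rfl⟩; exact hl n⟩
  have h1 : m ≤ m - r := hm.2 (by
    rintro _ ⟨n, rfl⟩
    have h2 : ((n + 1 : ℕ) : R) * r ≤ m := hm.1 ⟨n + 1, rfl⟩
    rw [le_sub_iff_add_le]
    calc (n : R) * r + r = ((n + 1 : ℕ) : R) * r := by push_cast; ring
      _ ≤ m := h2)
  exact le_antisymm ((le_sub_self_iff m).1 h1) hr

theorem r4_rat (h : BC ε) : ∃ ρ : ℚ →+* R, Monotone ρ := by
  have hu : ∀ y : nonZeroDivisors ℤ, IsUnit (Int.castRingHom R y) := by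
    rintro ⟨y, hy⟩
    have h0 : y.natAbs ≠ 0 := Int.natAbs_ne_zero.2 (nonZeroDivisors.ne_zero hy)
    have h1 := h.isUnit_nat h0
    show IsUnit ((y : ℤ) : R)
    rcases Int.natAbs_eq y with e | e
    · rw [e, Int.cast_natCast]
      exact h1
    · rw [e, Int.cast_neg, Int.cast_natCast]
      exact h1.neg
  refine ⟨IsLocalization.lift (S := ℚ) hu, ?_⟩
  generalize IsLocalization.lift (S := ℚ) hu = ρ
  have key : ∀ q : ℚ, 0 ≤ q → 0 ≤ ρ q := by
    intro q hq
    obtain ⟨k, hk⟩ := h.isUnit_nat q.den_ne_zero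
    refine h.nonneg_of_mul k (by rw [hk]; exact Nat.cast_nonneg _) ?_
    have e : (q.den : ℚ) * q = (q.num.toNat : ℕ) := by
      rw [Rat.den_mul_eq_num]
      exact_mod_cast (Int.toNat_of_nonneg (Rat.num_nonneg.2 hq)).symm
    rw [hk, ← map_natCast ρ, ← map_mul, e, map_natCast]
    exact Nat.cast_nonneg _
  intro a b hab
  have := key (b - a) (sub_nonneg.2 hab)
  rwa [map_sub, sub_nonneg] at this

theorem r4_small (hd : Ded R) {ρ : ℚ →+* R} (hρ : Monotone ρ) {d : R}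
    (hl : ∀ q : ℚ, 0 < q → d ≤ ρ q) : d ≤ 0 := by
  have h0 : ∀ q : ℚ, 0 ≤ q → 0 ≤ ρ q := fun q hq => by simpa using hρ hq
  obtain ⟨m, hm⟩ := hd ((fun q : ℚ => 1 - ρ q) '' Set.Ioc 0 1) ⟨_, 1, by simp, rfl⟩
    (by
      rintro _ ⟨q, hq, rfl⟩
      simpa using hρ hq.2)
    ⟨1, by
      rintro _ ⟨q, hq, rfl⟩
      simpa using h0 q hq.1.le⟩
  have h1 : m ≤ 1 := hm.2 (by
    rintro _ ⟨q, hq, rfl⟩
    simpa using h0 q hq.1.le)
  have h2 : 1 - m = 0 := by
    refine arch_of_ded hd (sub_nonneg.2 h1) (s := 1) fun n => ?_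
    rcases Nat.eq_zero_or_pos n with rfl | hn
    · simp
    have hn1 : (1 : ℚ) ≤ n := by exact_mod_cast hn
    have h3 : 1 - ρ (n : ℚ)⁻¹ ≤ m :=
      hm.1 ⟨_, ⟨by positivity, inv_le_one_of_one_le₀ hn1⟩, rfl⟩
    have h4 : 1 - m ≤ ρ (n : ℚ)⁻¹ := sub_le_comm.1 h3
    calc (n : R) * (1 - m) ≤ n * ρ (n : ℚ)⁻¹ := mul_le_mul_of_nonneg_left h4 (Nat.cast_nonneg n)
      _ = 1 := by
        rw [← map_natCast ρ, ← map_mul, mul_inv_cancel₀ (by positivity), map_one]
  have h5 : m ≤ 1 - d := hm.2 (by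
    rintro _ ⟨q, hq, rfl⟩
    exact sub_le_sub_left (hl q hq.1) 1)
  rw [← sub_eq_zero.1 h2] at h5
  exact (le_sub_self_iff 1).1 h5

theorem r4_le (hd : Ded R) {ρ : ℚ →+* R} (hρ : Monotone ρ) {t : ℝ} {x y : R}
    (hx : ∀ q : ℚ, t < q → x ≤ ρ q) (hy : ∀ q : ℚ, (q : ℝ) < t → ρ q ≤ y) : x ≤ y := by
  rw [← sub_nonpos]
  refine r4_small hd hρ fun q hq => ?_
  have hq1 : (0 : ℝ) < q := by exact_mod_cast hq
  obtain ⟨a, ha1, ha2⟩ := exists_rat_btwn (show t - q < t by linarith)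
  have h1 := hx (a + q) (by push_cast; linarith)
  rw [map_add] at h1
  calc x - y ≤ ρ a + ρ q - ρ a := sub_le_sub h1 (hy a ha2)
    _ = ρ q := by ring

theorem r4_cut (hd : Ded R) {ρ : ℚ →+* R} (hρ : Monotone ρ) (t : ℝ) :
    ∃ x : R, (∀ q : ℚ, (q : ℝ) ≤ t → ρ q ≤ x) ∧ ∀ q : ℚ, t ≤ q → x ≤ ρ q := by
  obtain ⟨a, ha⟩ := exists_rat_lt t
  obtain ⟨b, hb⟩ := exists_rat_gt t
  have hub : ∀ q : ℚ, t ≤ q → ρ q - ρ a ∈
      upperBounds ((fun q : ℚ => ρ q - ρ a) '' {q | a ≤ q ∧ (q : ℝ) ≤ t}) := by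
    rintro q hq _ ⟨c, hc, rfl⟩
    exact sub_le_sub_right (hρ (by exact_mod_cast hc.2.trans hq)) _
  obtain ⟨m, hm⟩ := hd ((fun q : ℚ => ρ q - ρ a) '' {q | a ≤ q ∧ (q : ℝ) ≤ t})
    ⟨_, a, ⟨le_rfl, ha.le⟩, rfl⟩
    (by
      rintro _ ⟨q, hq, rfl⟩
      exact sub_nonneg.2 (hρ hq.1))
    ⟨_, hub b hb.le⟩
  refine ⟨m + ρ a, fun q hq => ?_, fun q hq => le_sub_iff_add_le.1 (hm.2 (hub q hq))⟩
  rcases le_total a q with h | h
  · exact sub_le_iff_le_add.1 (hm.1 ⟨q, ⟨h, hq⟩, rfl⟩)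
  · exact (hρ h).trans (sub_le_iff_le_add.1 (hm.1 ⟨a, ⟨le_rfl, ha.le⟩, rfl⟩))

theorem r4_real (h : BC ε) (hd : Ded R) : ∃ ι : ℝ →+* R, ∀ t, 0 ≤ t → 0 ≤ ι t := by
  obtain ⟨ρ, hρ⟩ := r4_rat h
  choose ι h1 h2 using r4_cut hd hρ
  have uniq : ∀ (t : ℝ) (x : R), (∀ q : ℚ, (q : ℝ) < t → ρ q ≤ x) → (∀ q : ℚ, t < q → x ≤ ρ q) →
      ι t = x := fun t x hl hu =>
    le_antisymm (r4_le hd hρ (fun q hq => h2 t q hq.le) hl)
      (r4_le hd hρ hu fun q hq => h1 t q hq.le)
  have hq : ∀ q : ℚ, ι q = ρ q := fun q => le_antisymm (h2 q q le_rfl) (h1 q q le_rfl)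
  have hadd : ∀ s t, ι (s + t) = ι s + ι t := by
    intro s t
    refine uniq _ _ (fun q hq => ?_) fun q hq => ?_
    · obtain ⟨a, ha1, ha2⟩ := exists_rat_btwn (show q - t < s by linarith)
      calc ρ q = ρ a + ρ (q - a) := by rw [map_sub]; ring
        _ ≤ ι s + ι t := add_le_add (h1 s a ha2.le) (h1 t _ (by push_cast; linarith))
    · obtain ⟨a, ha1, ha2⟩ := exists_rat_btwn (show s < q - t by linarith)
      calc ι s + ι t ≤ ρ a + ρ (q - a) :=
            add_le_add (h2 s a ha1.le) (h2 t _ (by push_cast; linarith))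
        _ = ρ q := by rw [map_sub]; ring
  have hpos : ∀ t, 0 ≤ t → 0 ≤ ι t := fun t ht => by simpa using h1 t 0 (by simpa using ht)
  let f : ℝ →+ R := AddMonoidHom.mk' ι hadd
  have hsub : ∀ s t, ι (s - t) = ι s - ι t := map_sub f
  have hneg : ∀ s, ι (-s) = -ι s := map_neg f
  have hmono : ∀ s t, s ≤ t → ι s ≤ ι t := fun s t hst => by
    have := hpos (t - s) (sub_nonneg.2 hst)
    rwa [hsub, sub_nonneg] at this
  have hqm : ∀ (q : ℚ) (t : ℝ), ι (q * t) = ρ q * ι t := by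
    intro q t
    let _ : Algebra ℚ R := ρ.toAlgebra
    have := map_rat_smul f q t
    rw [Rat.smul_def, Algebra.smul_def] at this
    exact this
  have hmul0 : ∀ s t, 0 ≤ t → ι (s * t) = ι s * ι t := by
    intro s t ht
    obtain ⟨n, hn⟩ := exists_rat_gt t
    have hn0 : (0 : ℝ) < n := ht.trans_lt hn
    have hn1 : 0 < n := by exact_mod_cast hn0
    have key : ∀ q : ℚ, 0 < q → ι (s * t) - ι s * ι t ≤ ρ q ∧ ι s * ι t - ι (s * t) ≤ ρ q := by
      intro q hq0
      have hq1 : (0 : ℝ) < q / n := div_pos (by exact_mod_cast hq0) hn0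
      obtain ⟨a, ha1, ha2⟩ := exists_rat_btwn (show s - q / n < s by linarith)
      have hb : s ≤ ((a + q / n : ℚ) : ℝ) := by push_cast; linarith
      have e1 : ρ a * ι t ≤ ι s * ι t := mul_le_mul_of_nonneg_right (h1 s a ha2.le) (hpos t ht)
      have e2 : ι s * ι t ≤ ρ (a + q / n) * ι t :=
        mul_le_mul_of_nonneg_right (h2 s _ hb) (hpos t ht)
      have e3 : ρ a * ι t ≤ ι (s * t) := by
        rw [← hqm]
        exact hmono _ _ (mul_le_mul_of_nonneg_right ha2.le ht)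
      have e4 : ι (s * t) ≤ ρ (a + q / n) * ι t := by
        rw [← hqm]
        exact hmono _ _ (mul_le_mul_of_nonneg_right hb ht)
      have e5 : ρ (a + q / n) * ι t - ρ a * ι t ≤ ρ q := by
        have h0 : 0 ≤ ρ (q / n) := by simpa using hρ (div_pos hq0 hn1).le
        calc ρ (a + q / n) * ι t - ρ a * ι t = ρ (q / n) * ι t := by rw [map_add]; ring
          _ ≤ ρ (q / n) * ρ n := mul_le_mul_of_nonneg_left (h2 t n hn.le) h0
          _ = ρ q := by rw [← map_mul, div_mul_cancel₀ _ hn1.ne']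
      exact ⟨(sub_le_sub e4 e1).trans e5, (sub_le_sub e2 e3).trans e5⟩
    exact le_antisymm (sub_nonpos.1 (r4_small hd hρ fun q hq => (key q hq).1))
      (sub_nonpos.1 (r4_small hd hρ fun q hq => (key q hq).2))
  have hmul : ∀ s t, ι (s * t) = ι s * ι t := by
    intro s t
    rcases le_total 0 t with ht | ht
    · exact hmul0 s t ht
    · have := hmul0 s (-t) (neg_nonneg.2 ht)
      rw [mul_neg, hneg, hneg, mul_neg] at this
      exact neg_injective this
  exact ⟨{ toFun := ι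
           map_one' := by simpa using hq 1
           map_mul' := hmul
           map_zero' := map_zero f
           map_add' := hadd }, hpos⟩

theorem BC.exists_alg (h : BC ε) (hd : Ded R) : ∃ _ : Algebra ℂ R, BC1 ε := by
  obtain ⟨ι, hι⟩ := r4_real h hd
  obtain ⟨i, hi, hs⟩ := h.exI
  have hst : ∀ t, star (ι t) = ι t := by
    intro t
    rcases le_total 0 t with ht | ht
    · exact h.star_eq (hι t ht)
    · have := h.star_eq (hι (-t) (neg_nonneg.2 ht))
      rw [map_neg, star_neg] at this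
      exact neg_injective this
  let φ : ℂ →+* R :=
    { toFun := fun c => ι c.re + i * ι c.im
      map_one' := by simp
      map_mul' := fun a b => by
        simp only [Complex.mul_re, Complex.mul_im, map_sub, map_add, map_mul]
        linear_combination (-(ι a.im * ι b.im)) * hi
      map_zero' := by simp
      map_add' := fun a b => by
        simp only [Complex.add_re, Complex.add_im, map_add]
        ring }
  let _ : Algebra ℂ R := φ.toAlgebra
  refine ⟨inferInstance, h, hd, fun c => ?_, fun t ht => ?_⟩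
  · show star (ι c.re + i * ι c.im) = ι (conj c).re + i * ι (conj c).im
    rw [star_add, star_mul', hs, hst, hst, Complex.conj_re, Complex.conj_im, map_neg]
    ring
  · show 0 ≤ ι (t : ℂ).re + i * ι (t : ℂ).im
    simpa using hι t ht

end Pool.Agent.P.MP_d8da86_an.CR
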