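import Pool.Agent.P.MP_d8da86_an.C.R4

/-!
The Boolean valued complex numbers: archimedean property, bounded elements, limits.
Hints. `loc_bdd`: let z n be the `cut` of n - r. Below the complement y of the join of the z n one
has n * ε y ≤ ε y * r for all n, so ε y = 0 by `arch_of_ded`. `lim_real`: the elements
a n - cR (2 * C / 2 ^ n) increase and are bounded by every a k + cR (2 * C / 2 ^ k); shift by the
first one and take the supremum. `lim`: real and imaginary parts.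
-/

open scoped InnerProductSpace ComplexConjugate

set_option linter.unusedSectionVars false
set_option linter.unusedVariables false

noncomputable section

namespace Pool.Agent.P.MP_d8da86_an.CR

universe u

variable {B : Type*} [CompleteBooleanAlgebra B] {R : Type*} [CommRing R] [StarRing R]
  [PartialOrder R] [IsOrderedRing R] [Algebra ℂ R] {ε : B → R} {r s : R}

theorem cR_add (a b : ℝ) : cR R (a + b) = cR R a + cR R b := by
  rw [cR, Complex.ofReal_add, map_add]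

theorem cR_mul (a b : ℝ) : cR R (a * b) = cR R a * cR R b := by
  rw [cR, Complex.ofReal_mul, map_mul]

theorem cR_sub (a b : ℝ) : cR R (a - b) = cR R a - cR R b := by
  rw [cR, Complex.ofReal_sub, map_sub]

theorem cR_neg (a : ℝ) : cR R (-a) = -cR R a := by
  rw [cR, Complex.ofReal_neg, map_neg]

theorem cR_nat (n : ℕ) : cR R n = n := by
  rw [cR, Complex.ofReal_natCast, map_natCast]

theorem cR_zero : cR R 0 = 0 := by
  rw [cR, Complex.ofReal_zero, map_zero]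

theorem cR_one : cR R 1 = 1 := by
  rw [cR, Complex.ofReal_one, map_one]

theorem isUnit_cR {a : ℝ} (ha : a ≠ 0) : IsUnit (cR R a) :=
  (IsUnit.mk0 (a : ℂ) (Complex.ofReal_ne_zero.2 ha)).map (algebraMap ℂ R)

theorem r5_inv {a : ℝ} (ha : a ≠ 0) : cR R a * cR R a⁻¹ = 1 := by
  rw [← cR_mul, mul_inv_cancel₀ ha, cR_one]

namespace BC1

theorem star_cR (h : BC1 ε) (a : ℝ) : star (cR R a) = cR R a := by
  rw [cR, h.star_alg, Complex.conj_ofReal]

theorem cR_mono (h : BC1 ε) {a b : ℝ} (hab : a ≤ b) : cR R a ≤ cR R b := by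
  have := h.alg_nonneg (b - a) (sub_nonneg.2 hab)
  rw [← sub_nonneg, ← cR_sub]
  exact this

theorem arch (h : BC1 ε) (hr : 0 ≤ r) (hl : ∀ t : ℝ, 0 < t → r ≤ cR R t * s) : r = 0 := by
  refine arch_of_ded h.ded hr (s := s) fun n => ?_
  rcases Nat.eq_zero_or_pos n with rfl | hn
  · have := hl 1 one_pos
    rw [cR_one, one_mul] at this
    rw [Nat.cast_zero, zero_mul]
    exact hr.trans this
  · have hn' : (0 : ℝ) < n := by exact_mod_cast hn
    have := mul_le_mul_of_nonneg_left (hl _ (inv_pos.2 hn')) (Nat.cast_nonneg (α := R) n)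
    rwa [← mul_assoc, ← cR_nat (R := R) n, r5_inv hn'.ne', one_mul, cR_nat] at this

theorem le_of_forall (h : BC1 ε) (hl : ∀ t : ℝ, 0 < t → r ≤ s + cR R t) : r ≤ s := by
  have hl' : ∀ t : ℝ, 0 < t → 0 ≤ cR R t - (r - s) := fun t ht => by
    rw [sub_nonneg, sub_le_iff_le_add']
    exact hl t ht
  have hs : star (r - s) = r - s := by
    have := h.toBC.star_eq (hl' 1 one_pos)
    rw [star_sub, h.star_cR] at this
    exact sub_right_injective this
  obtain ⟨z, h1, h2⟩ := h.total _ hs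
  have h3 : ε z * (r - s) = 0 := by
    refine h.arch h1 (s := 1) fun t ht => ?_
    have a1 := mul_nonneg (h.toBC.eps_nonneg z) (hl' t ht)
    rw [mul_sub, sub_nonneg] at a1
    rw [mul_one]
    exact a1.trans (h.toBC.eps_mul_le z (h.alg_nonneg t ht.le))
  have h4 : r - s = ε zᶜ * (r - s) := by
    linear_combination h3 - (r - s) * h.toReg.add_compl z
  rw [← h4] at h2
  exact sub_nonpos.1 h2

theorem loc_bdd (h : BC1 ε) (hr : star r = r) {z : B} (hz : z ≠ ⊥) :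
    ∃ w, w ≠ ⊥ ∧ w ≤ z ∧ ∃ t : ℝ, 0 < t ∧ ε w * r ≤ cR R t := by
  by_contra hc
  refine hz (h.eq_bot z (arch_of_ded h.ded (h.toBC.eps_nonneg z) (s := ε z * r) fun n => ?_))
  have hn : (0 : ℝ) < n + 1 := by positivity
  obtain ⟨y, h1, h2⟩ := h.total (cR R (n + 1) - r) (by rw [star_sub, h.star_cR, hr])
  have h3 : z ⊓ y = ⊥ := by
    by_contra h3
    refine hc ⟨z ⊓ y, h3, inf_le_left, n + 1, hn, ?_⟩
    have a1 := mul_nonneg (h.toBC.eps_nonneg z) h1
    rw [← mul_assoc, ← h.inf, mul_sub, sub_nonneg] at a1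
    exact a1.trans (h.toBC.eps_mul_le _ (h.alg_nonneg _ hn.le))
  have h4 : z ≤ yᶜ := le_compl_iff_disjoint_right.2 (disjoint_iff.2 h3)
  have a1 := mul_nonpos_of_nonneg_of_nonpos (h.toBC.eps_nonneg z) h2
  rw [← mul_assoc, h.toReg.of_le h4, mul_sub, sub_nonpos, cR_add, cR_nat, cR_one] at a1
  refine le_trans ?_ a1
  rw [mul_comm, mul_add, mul_one]
  exact le_add_of_nonneg_right (h.toBC.eps_nonneg z)

theorem loc_pos (h : BC1 ε) (k : Rˣ) (hk : 0 ≤ (k : R)) {z : B} (hz : z ≠ ⊥) :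
    ∃ w, w ≠ ⊥ ∧ w ≤ z ∧ ∃ t : ℝ, 0 < t ∧ ε w * cR R t ≤ ε w * k := by
  obtain ⟨w, h1, h2, t, ht, h3⟩ := h.loc_bdd (h.toBC.star_eq (h.toBC.inv_nonneg k hk)) hz
  refine ⟨w, h1, h2, t⁻¹, inv_pos.2 ht, ?_⟩
  have h4 : 0 ≤ ε w * k * cR R t⁻¹ :=
    mul_nonneg (mul_nonneg (h.toBC.eps_nonneg w) hk) (h.alg_nonneg _ (inv_pos.2 ht).le)
  have h5 := mul_le_mul_of_nonneg_left h3 h4
  have e1 : ε w * k * cR R t⁻¹ * (ε w * ((k⁻¹ : Rˣ) : R)) = ε w * cR R t⁻¹ := by
    linear_combination (ε w * ε w * cR R t⁻¹) * k.mul_inv + cR R t⁻¹ * h.toReg.idem w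
  have e2 : ε w * k * cR R t⁻¹ * cR R t = ε w * k := by
    linear_combination (ε w * k) * r5_inv (R := R) ht.ne'
  rwa [e1, e2] at h5

theorem lim_real (h : BC1 ε) (a : ℕ → R) (ha : ∀ n, star (a n) = a n) {C : ℝ}
    (h1 : ∀ n, a (n + 1) - a n ≤ cR R (C / 2 ^ n))
    (h2 : ∀ n, a n - a (n + 1) ≤ cR R (C / 2 ^ n)) :
    ∃ r, star r = r ∧ ∀ n, r - a n ≤ cR R (2 * C / 2 ^ n) ∧ a n - r ≤ cR R (2 * C / 2 ^ n) := by
  have e1 : ∀ n : ℕ, cR R (2 * C / 2 ^ n) = cR R (2 * C / 2 ^ (n + 1)) + cR R (C / 2 ^ n) :=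
    fun n => by
      rw [← cR_add]
      congr 1
      field_simp
      ring
  have e2 : ∀ n : ℕ, 0 ≤ cR R (2 * C / 2 ^ n) := fun n => by
    have a1 := add_le_add (h1 n) (h2 n)
    rw [sub_add_sub_cancel, sub_self, ← cR_add] at a1
    convert a1 using 2
    ring
  have hb : Monotone fun n => a n - cR R (2 * C / 2 ^ n) := monotone_nat_of_le_succ fun n => by
    rw [← sub_nonneg, e1 n]
    convert sub_nonneg.2 (h2 n) using 1
    ring
  have hc : Antitone fun n => a n + cR R (2 * C / 2 ^ n) := antitone_nat_of_succ_le fun n => by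
    rw [← sub_nonneg, e1 n]
    convert sub_nonneg.2 (h1 n) using 1
    ring
  have hbc : ∀ n k, a n - cR R (2 * C / 2 ^ n) ≤ a k + cR R (2 * C / 2 ^ k) := fun n k =>
    calc a n - cR R (2 * C / 2 ^ n) ≤ a (max n k) - cR R (2 * C / 2 ^ max n k) :=
          hb (le_max_left n k)
      _ ≤ a (max n k) := sub_le_self _ (e2 _)
      _ ≤ a (max n k) + cR R (2 * C / 2 ^ max n k) := le_add_of_nonneg_right (e2 _)
      _ ≤ a k + cR R (2 * C / 2 ^ k) := hc (le_max_right n k)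
  have hub : ∀ k, a k + cR R (2 * C / 2 ^ k) - (a 0 - cR R (2 * C / 2 ^ 0)) ∈ upperBounds
      (Set.range fun n => a n - cR R (2 * C / 2 ^ n) - (a 0 - cR R (2 * C / 2 ^ 0))) := by
    rintro k _ ⟨n, rfl⟩
    exact sub_le_sub_right (hbc n k) _
  obtain ⟨m, hm⟩ := h.ded _ (Set.range_nonempty _) (by
    rintro _ ⟨n, rfl⟩
    exact sub_nonneg.2 (hb (Nat.zero_le n))) ⟨_, hub 0⟩
  have hm0 : 0 ≤ m := by
    have := hm.1 ⟨0, rfl⟩
    simpa using this
  refine ⟨m + (a 0 - cR R (2 * C / 2 ^ 0)), ?_, fun n => ⟨?_, ?_⟩⟩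
  · rw [star_add, star_sub, h.toBC.star_eq hm0, ha, h.star_cR]
  · rw [← sub_nonneg]
    convert sub_nonneg.2 (hm.2 (hub n)) using 1
    ring
  · rw [← sub_nonneg]
    convert sub_nonneg.2 (hm.1 ⟨n, rfl⟩) using 1
    ring

theorem r5_step (h : BC1 ε) (x : ℕ → R) (hx : ∀ n, star (x n) = x n) {C : ℝ} (hC : 0 ≤ C)
    (h1 : ∀ n, (x (n + 1) - x n) * (x (n + 1) - x n) ≤ cR R (C / 4 ^ n)) :
    ∃ r, star r = r ∧ ∀ n, (r - x n) * (r - x n) ≤ cR R (4 * C / 4 ^ n) := by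
  have e4 : ∀ n : ℕ, (4 : ℝ) ^ n = 2 ^ n * 2 ^ n := fun n => by
    rw [← mul_pow]
    norm_num
  have e1 : ∀ n : ℕ, cR R (C / 4 ^ n) = cR R (√C / 2 ^ n) * cR R (√C / 2 ^ n) := fun n => by
    rw [← cR_mul, div_mul_div_comm, Real.mul_self_sqrt hC, e4]
  have e2 : ∀ n : ℕ, cR R (4 * C / 4 ^ n) = cR R (2 * √C / 2 ^ n) * cR R (2 * √C / 2 ^ n) :=
    fun n => by
      rw [← cR_mul, div_mul_div_comm, mul_mul_mul_comm, Real.mul_self_sqrt hC, e4]
      norm_num
  have p : ∀ n : ℕ, 0 ≤ cR R (√C / 2 ^ n) := fun n => h.alg_nonneg _ (by positivity)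
  obtain ⟨r, hr, h2⟩ := h.lim_real x hx (C := √C)
    (fun n => h.toBC.le_of_sq_le (by rw [star_sub, hx, hx]) (p n) (by rw [← e1]; exact h1 n))
    (fun n => h.toBC.le_of_sq_le (by rw [star_sub, hx, hx]) (p n) (by
      rw [← e1]
      convert h1 n using 1
      ring))
  refine ⟨r, hr, fun n => ?_⟩
  rw [← sub_nonneg, e2]
  convert mul_nonneg (sub_nonneg.2 (h2 n).1) (sub_nonneg.2 (h2 n).2) using 1
  ring

theorem lim (h : BC1 ε) (a : ℕ → R) {C : ℝ} (hC : 0 ≤ C)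
    (h1 : ∀ n, star (a (n + 1) - a n) * (a (n + 1) - a n) ≤ cR R (C / 4 ^ n)) :
    ∃ r, ∀ n, star (r - a n) * (r - a n) ≤ cR R (8 * C / 4 ^ n) := by
  obtain ⟨i, hi, hs⟩ := h.exI
  have h2 : 2 * cR R 2⁻¹ = 1 := by
    have := r5_inv (R := R) (two_ne_zero (α := ℝ))
    rwa [show cR R 2 = 2 by exact_mod_cast cR_nat (R := R) 2] at this
  obtain ⟨x, hx⟩ : ∃ x : ℕ → R, ∀ n, x n = cR R 2⁻¹ * (a n + star (a n)) := ⟨_, fun _ => rfl⟩
  obtain ⟨y, hy⟩ : ∃ y : ℕ → R, ∀ n, y n = cR R 2⁻¹ * i * (star (a n) - a n) :=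
    ⟨_, fun _ => rfl⟩
  have sx : ∀ n, star (x n) = x n := fun n => by
    rw [hx, star_mul', star_add, star_star, h.star_cR, add_comm]
  have sy : ∀ n, star (y n) = y n := fun n => by
    rw [hy, star_mul', star_mul', star_sub, star_star, h.star_cR, hs]
    ring
  have ea : ∀ n, a n = x n + i * y n := fun n => by
    rw [hx, hy]
    linear_combination (-a n) * h2 - cR R 2⁻¹ * (star (a n) - a n) * hi
  have key : ∀ u v : R, star u = u → star v = v →
      star (u + i * v) * (u + i * v) = u * u + v * v := fun u v hu hv => by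
    rw [star_add, star_mul', hu, hv, hs]
    linear_combination (-v * v) * hi
  have h3 : ∀ n, (x (n + 1) - x n) * (x (n + 1) - x n) + (y (n + 1) - y n) * (y (n + 1) - y n) ≤
      cR R (C / 4 ^ n) := fun n => by
    rw [← key _ _ (by rw [star_sub, sx, sx]) (by rw [star_sub, sy, sy])]
    have e : a (n + 1) - a n = x (n + 1) - x n + i * (y (n + 1) - y n) := by
      rw [ea, ea n]
      ring
    rw [← e]
    exact h1 n
  obtain ⟨u, hu, h4⟩ := h.r5_step x sx hC fun n =>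
    (le_add_of_nonneg_right (h.toBC.sq_nonneg (by rw [star_sub, sy, sy]))).trans (h3 n)
  obtain ⟨v, hv, h5⟩ := h.r5_step y sy hC fun n =>
    (le_add_of_nonneg_left (h.toBC.sq_nonneg (by rw [star_sub, sx, sx]))).trans (h3 n)
  refine ⟨u + i * v, fun n => ?_⟩
  have e : u + i * v - a n = u - x n + i * (v - y n) := by
    rw [ea]
    ring
  rw [e, key _ _ (by rw [star_sub, hu, sx]) (by rw [star_sub, hv, sy])]
  refine (add_le_add (h4 n) (h5 n)).trans_eq ?_
  rw [← cR_add]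
  congr 1
  ring

end BC1

end Pool.Agent.P.MP_d8da86_an.CR
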