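import Pool.Agent.P.MP_d8da86_an.C.R5

/-!
The Boolean valued complex numbers: archimedean property, bounded elements, limits.
Hints. `loc_bdd`: let z n be the `cut` of n - r. Below the complement y of the join of the z n one
has n * ε y ≤ ε y * r for all n, so ε y = 0 by `arch_of_ded`. `lim_real`: the elements
a n - cR (2 * C / 2 ^ n) increase and are bounded by every a k + cR (2 * C / 2 ^ k); shift by the
first one and take the supremum. `lim`: real and imaginary parts.
-/

open scoped InnerProductSpace ComplexConjugate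

set_option linter.unusedSectionVars false
set_option linter.unusedVariables false

noncomputable section

namespace Pool.Agent.P.MP_d8da86_an.CR

universe u

variable {B : Type*} [CompleteBooleanAlgebra B] {R : Type*} [CommRing R] [StarRing R]
  [PartialOrder R] [IsOrderedRing R] [Algebra ℂ R] {ε : B → R} {r s : R}

namespace BC1

theorem bdR_add (h : BC1 ε) (hr : BdR r) (hs : BdR s) : BdR (r + s) := by
  obtain ⟨a, ha⟩ := hr
  obtain ⟨b, hb⟩ := hs
  refine ⟨a + a + (b + b), ?_⟩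
  have h1 := h.toBC.star_mul_nonneg (r - s)
  have e : star (r + s) * (r + s) =
      star r * r + star r * r + (star s * s + star s * s) - star (r - s) * (r - s) := by
    rw [star_add, star_sub]; ring
  rw [e, cR_add, cR_add, cR_add]
  exact (sub_le_self _ h1).trans (add_le_add (add_le_add ha ha) (add_le_add hb hb))

theorem bdR_mul (h : BC1 ε) (hr : BdR r) (hs : BdR s) : BdR (r * s) := by
  obtain ⟨a, ha⟩ := hr
  obtain ⟨b, hb⟩ := hs
  refine ⟨a * b, ?_⟩
  have e : star (r * s) * (r * s) = star r * r * (star s * s) := by rw [star_mul]; ring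
  rw [e, cR_mul]
  exact mul_le_mul ha hb (h.toBC.star_mul_nonneg s) ((h.toBC.star_mul_nonneg r).trans ha)

theorem bdR_star (h : BC1 ε) (hr : BdR r) : BdR (star r) := by
  obtain ⟨a, ha⟩ := hr
  exact ⟨a, by rwa [star_star, mul_comm]⟩

theorem bdR_alg (h : BC1 ε) (c : ℂ) : BdR (algebraMap ℂ R c) := by
  refine ⟨Complex.normSq c, le_of_eq ?_⟩
  rw [h.star_alg, ← map_mul, ← Complex.normSq_eq_conj_mul_self]

theorem bdR_eps (h : BC1 ε) (z : B) : BdR (ε z) := by
  refine ⟨1, ?_⟩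
  rw [h.star_ε, h.toBC.toReg.idem, cR_one]
  exact h.toBC.eps_le_one z

theorem bdR_iff (h : BC1 ε) (hr : star r = r) :
    BdR r ↔ ∃ t : ℝ, -cR R t ≤ r ∧ r ≤ cR R t := by
  constructor
  · rintro ⟨t, ht⟩
    have h0 : 0 ≤ cR R (|t| + 1) := h.alg_nonneg _ (by positivity)
    have h1 : r * r ≤ cR R (|t| + 1) * cR R (|t| + 1) := by
      rw [hr] at ht
      rw [← cR_mul]
      exact ht.trans (h.cR_mono (by nlinarith [le_abs_self t, abs_nonneg t]))
    refine ⟨|t| + 1, neg_le.1 (h.toBC.le_of_sq_le (by rw [star_neg, hr]) h0 ?_),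
      h.toBC.le_of_sq_le hr h0 h1⟩
    rwa [neg_mul_neg]
  · rintro ⟨t, h1, h2⟩
    refine ⟨t * t, ?_⟩
    have h3 := mul_nonneg (sub_nonneg.2 h1) (sub_nonneg.2 h2)
    have e : (r - -cR R t) * (cR R t - r) = cR R t * cR R t - r * r := by ring
    rw [hr, cR_mul]
    exact sub_nonneg.1 (e ▸ h3)

theorem bdR_of_le (h : BC1 ε) (hr : 0 ≤ r) {t : ℝ} (ht : r ≤ cR R t) : BdR r := by
  refine ⟨t * t, ?_⟩
  rw [h.toBC.star_eq hr, cR_mul]
  exact mul_le_mul ht ht hr (hr.trans ht)

section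

variable {K : Type*} [AddCommGroup K] [Module R K] {f : K → K → R} {v w : K}

theorem form_tri (h : BC1 ε) (hf : IsForm f) (hp : ∀ v, 0 ≤ f v v) {a b : ℝ} (ha : 0 < a)
    (hb : 0 < b) (hv : f v v ≤ cR R (a ^ 2)) (hw : f w w ≤ cR R (b ^ 2)) :
    f (v + w) (v + w) ≤ cR R ((a + b) ^ 2) := by
  have h1 : star (f v w) * f v w ≤ cR R (a * b) * cR R (a * b) := by
    refine (h.toBC.cauchy_schwarz hf hp v w).trans
      ((mul_le_mul hv hw (hp w) ((hp v).trans hv)).trans (le_of_eq ?_))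
    rw [← cR_mul, ← cR_mul, show a ^ 2 * b ^ 2 = a * b * (a * b) by ring]
  have h0 : 0 ≤ cR R (a * b) := h.alg_nonneg _ (by positivity)
  have h2 : f v w + star (f v w) ≤ cR R (a * b) + cR R (a * b) := by
    refine h.toBC.le_of_sq_le (by rw [star_add, star_star, add_comm]) (add_nonneg h0 h0) ?_
    have h3 := h.toBC.star_mul_nonneg (f v w - star (f v w))
    have e1 : (f v w + star (f v w)) * (f v w + star (f v w)) =
        star (f v w) * f v w + star (f v w) * f v w + (star (f v w) * f v w +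
          star (f v w) * f v w) - star (f v w - star (f v w)) * (f v w - star (f v w)) := by
      rw [star_sub, star_star]; ring
    have e2 : (cR R (a * b) + cR R (a * b)) * (cR R (a * b) + cR R (a * b)) =
        cR R (a * b) * cR R (a * b) + cR R (a * b) * cR R (a * b) +
          (cR R (a * b) * cR R (a * b) + cR R (a * b) * cR R (a * b)) := by ring
    rw [e1, e2]
    exact (sub_le_self _ h3).trans (add_le_add (add_le_add h1 h1) (add_le_add h1 h1))
  have e3 : f (v + w) (v + w) = f v v + f w w + (f v w + star (f v w)) := by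
    rw [hf.add_left, hf.add, hf.add, hf.herm]; ring
  rw [e3, show (a + b) ^ 2 = a ^ 2 + b ^ 2 + (a * b + a * b) by ring, cR_add, cR_add, cR_add]
  exact add_le_add (add_le_add hv hw) h2

theorem bd_zero (h : BC1 ε) (hf : IsForm f) : Bd f 0 := by
  exact ⟨0, by rw [hf.zero_right, cR_zero]⟩

theorem bd_add (h : BC1 ε) (hf : IsForm f) (hp : ∀ v, 0 ≤ f v v) (hv : Bd f v) (hw : Bd f w) :
    Bd f (v + w) := by
  obtain ⟨a, ha⟩ := hv
  obtain ⟨b, hb⟩ := hw
  refine ⟨a + a + (b + b), (h.toBC.form_add_le hf hp v w).trans ?_⟩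
  rw [two_mul, two_mul, cR_add, cR_add, cR_add]
  exact add_le_add (add_le_add ha ha) (add_le_add hb hb)

theorem bd_smul (h : BC1 ε) (hf : IsForm f) (hp : ∀ v, 0 ≤ f v v) (hr : BdR r) (hv : Bd f v) :
    Bd f (r • v) := by
  obtain ⟨a, ha⟩ := hr
  obtain ⟨b, hb⟩ := hv
  refine ⟨a * b, ?_⟩
  rw [hf.smul_left, hf.smul, ← mul_assoc, cR_mul]
  exact mul_le_mul ha hb (hp v) ((h.toBC.star_mul_nonneg r).trans ha)

theorem bd_sub (h : BC1 ε) (hf : IsForm f) (hp : ∀ v, 0 ≤ f v v) (hv : Bd f v) (hw : Bd f w) :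
    Bd f (v - w) := by
  obtain ⟨b, hb⟩ := hw
  rw [sub_eq_add_neg]
  exact h.bd_add hf hp hv ⟨b, by rwa [hf.neg_left, hf.neg_right, neg_neg]⟩

theorem bdR_form (h : BC1 ε) (hf : IsForm f) (hp : ∀ v, 0 ≤ f v v) (hv : Bd f v)
    (hw : Bd f w) : BdR (f v w) := by
  obtain ⟨a, ha⟩ := hv
  obtain ⟨b, hb⟩ := hw
  refine ⟨a * b, (h.toBC.cauchy_schwarz hf hp v w).trans ?_⟩
  rw [cR_mul]
  exact mul_le_mul ha hb (hp w) ((hp v).trans ha)

theorem bd_of_perp (h : BC1 ε) (hf : IsForm f) (hp : ∀ v, 0 ≤ f v v) (hvw : f v w = 0)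
    (hb : Bd f (v + w)) : Bd f v ∧ Bd f w := by
  obtain ⟨a, ha⟩ := hb
  rw [hf.add_left, hf.add, hf.add, hvw, hf.zero_symm hvw, add_zero, zero_add] at ha
  exact ⟨⟨a, (le_add_of_nonneg_right (hp w)).trans ha⟩, a, (le_add_of_nonneg_left (hp v)).trans ha⟩

end

end BC1

end Pool.Agent.P.MP_d8da86_an.CR
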