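import Pool.Agent.P.MP_d8da86_an.C.R5b

/-!
The integral.
Hints. `exists_int`: W = the real vector space of bounded self-adjoint elements (R is an
ℝ-module through ℂ). If a finite sum of c z • ε z is nonnegative then the sum of c z * μ z is
nonnegative (induction on the finite set, splitting along one z: prove it for the sums of
c z • ε (z ⊓ y) + d • ε y for all y and d). This defines a positive functional on the span of the
ε z; extend it to W by `riesz_extension`, to all self-adjoint elements or all of R by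
`LinearMap.exists_extend`, and put m r = m0 (re r) + i * m0 (im r) with
re r = (r + star r) / 2. `faithful`: r ≥ cR t * ε z for z the `cut` of r - cR t.
-/

open scoped InnerProductSpace ComplexConjugate

set_option linter.unusedSectionVars false
set_option linter.unusedVariables false

noncomputable section

namespace Pool.Agent.P.MP_d8da86_an.CR

universe u

variable {B : Type*} [CompleteBooleanAlgebra B] {R : Type*} [CommRing R] [StarRing R]
  [PartialOrder R] [IsOrderedRing R] [Algebra ℂ R] {ε : B → R} {μ : B → ℝ} {m : R →ₗ[ℂ] ℂ} {r : R}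

theorem BMeas.bot (hμ : BMeas μ) : μ ⊥ = 0 := by
  have := hμ.add ⊥ ⊥ (inf_idem _)
  rw [sup_idem] at this
  linarith

theorem BMeas.nonneg (hμ : BMeas μ) (z : B) : 0 ≤ μ z := by
  by_cases hz : z = ⊥
  · rw [hz, hμ.bot]
  · exact (hμ.pos z hz).le

theorem BMeas.mono (hμ : BMeas μ) : Monotone μ := by
  intro a b hab
  have := hμ.add a (b \ a) inf_sdiff_self_right
  rw [sup_sdiff_cancel_right hab] at this
  linarith [hμ.nonneg (b \ a)]

theorem BMeas.sup_le (hμ : BMeas μ) (a b : B) : μ (a ⊔ b) ≤ μ a + μ b := by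
  have := hμ.add a (b \ a) inf_sdiff_self_right
  rw [sup_sdiff_self_right] at this
  linarith [hμ.mono (sdiff_le : b \ a ≤ b)]

theorem BMeas.iSup_le (hμ : BMeas μ) (z : ℕ → B) {c : ℝ}
    (hc : ∀ n, ∑ k ∈ Finset.range n, μ (z k) ≤ c) : μ (⨆ k, z k) ≤ c := by
  have h1 : ∀ n, μ ((Finset.range n).sup z) ≤ ∑ k ∈ Finset.range n, μ (z k) := fun n => by
    induction n with
    | zero => simp [hμ.bot]
    | succ n ih =>
      rw [Finset.sum_range_succ, Finset.range_add_one, Finset.sup_insert]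
      linarith [hμ.sup_le (z n) ((Finset.range n).sup z)]
  have h2 : Monotone fun n => (Finset.range n).sup z := fun a b hab =>
    Finset.sup_mono (Finset.range_mono hab)
  have h3 := (hμ.lub _ (Set.range_nonempty _) h2.directed_le.directedOn_range).2
    (show c ∈ upperBounds _ by
      rintro _ ⟨_, ⟨n, rfl⟩, rfl⟩
      exact (h1 n).trans (hc n))
  refine (hμ.mono (_root_.iSup_le fun k => ?_)).trans h3
  exact le_sSup_of_le ⟨k + 1, rfl⟩ (Finset.le_sup (f := z) (Finset.self_mem_range_succ k))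

theorem r6_key (h : BC1 ε) (hμ : BMeas μ) (c : B → ℝ) (s : Finset B) : ∀ (y : B) (d : ℝ),
    0 ≤ ∑ z ∈ s, cR R (c z) * ε (z ⊓ y) + cR R d * ε y →
      0 ≤ ∑ z ∈ s, c z * μ (z ⊓ y) + d * μ y := by
  classical
  induction s using Finset.induction_on with
  | empty =>
    intro y d h0
    rw [Finset.sum_empty, zero_add] at h0 ⊢
    rcases le_or_gt 0 d with hd | hd
    · exact mul_nonneg hd (hμ.nonneg y)
    · have h1 : 0 ≤ cR R (-d) * ε y :=
        mul_nonneg (h.alg_nonneg _ (neg_nonneg.2 hd.le)) (h.toBC.eps_nonneg y)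
      rw [cR_neg, neg_mul, neg_nonneg] at h1
      have h2 := (isUnit_cR hd.ne).mul_right_eq_zero.1 (le_antisymm h1 h0)
      rw [h.eq_bot y h2, hμ.bot, mul_zero]
  | insert a s ha ih =>
    intro y d h0
    rw [Finset.sum_insert ha] at h0 ⊢
    have e1 : ∀ b z : B, ε b * (cR R (c z) * ε (z ⊓ y)) = cR R (c z) * ε (z ⊓ (b ⊓ y)) :=
      fun b z => by
        rw [inf_left_comm, h.inf b]
        ring
    have e2 : ∀ x : B, μ x = μ (a ⊓ x) + μ (aᶜ ⊓ x) := fun x => by
      rw [← hμ.add _ _ (by rw [inf_inf_inf_comm, inf_compl_eq_bot, bot_inf_eq]), ← inf_sup_right,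
        sup_compl_eq_top, top_inf_eq]
    have h1 := ih (a ⊓ y) (d + c a) (by
      refine (mul_nonneg (h.toBC.eps_nonneg a) h0).trans_eq ?_
      rw [mul_add, mul_add, Finset.mul_sum, cR_add, e1, ← inf_assoc, inf_idem,
        Finset.sum_congr rfl fun z _ => e1 a z, h.inf a y]
      ring)
    have h2 := ih (aᶜ ⊓ y) d (by
      refine (mul_nonneg (h.toBC.eps_nonneg aᶜ) h0).trans_eq ?_
      rw [mul_add, mul_add, Finset.mul_sum, e1, ← inf_assoc, inf_compl_eq_bot, bot_inf_eq,
        h.toReg.bot, Finset.sum_congr rfl fun z _ => e1 aᶜ z, h.inf aᶜ y]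
      ring)
    have e3 : ∑ z ∈ s, c z * μ (z ⊓ y) =
        ∑ z ∈ s, c z * μ (z ⊓ (a ⊓ y)) + ∑ z ∈ s, c z * μ (z ⊓ (aᶜ ⊓ y)) := by
      rw [← Finset.sum_add_distrib]
      refine Finset.sum_congr rfl fun z _ => ?_
      rw [e2 (z ⊓ y), inf_left_comm a, inf_left_comm aᶜ, mul_add]
    rw [e3, e2 y]
    linarith

theorem r6_smul (t : ℝ) (r : R) : t • r = cR R t * r :=
  Algebra.smul_def (t : ℂ) r

/-- bounded self-adjoint elements -/
def r6_W (h : BC1 ε) : Submodule ℝ R where
  carrier := {r | star r = r ∧ BdR r}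
  zero_mem' := ⟨star_zero R, by simpa using h.bdR_alg 0⟩
  add_mem' := fun ha hb => ⟨by rw [star_add, ha.1, hb.1], h.bdR_add ha.2 hb.2⟩
  smul_mem' := fun t r hr => by
    rw [r6_smul]
    exact ⟨by rw [star_mul', h.star_cR, hr.1], h.bdR_mul (h.bdR_alg _) hr.2⟩

theorem r6_real (h : BC1 ε) (hμ : BMeas μ) :
    ∃ g : R →ₗ[ℝ] ℝ, (∀ z, g (ε z) = μ z) ∧ ∀ r, BdR r → 0 ≤ r → 0 ≤ g r := by
  let e : B → r6_W h := fun z => ⟨ε z, h.star_ε z, h.bdR_eps z⟩
  let L := Finsupp.linearCombination ℝ e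
  let M := Finsupp.linearCombination ℝ μ
  have key : ∀ c, 0 ≤ (L c).1 → 0 ≤ M c := fun c hc => by
    have := r6_key h hμ c c.support ⊤ 0 (by
      simpa [L, e, Finsupp.linearCombination_apply, Finsupp.sum, r6_smul, cR_zero] using hc)
    simpa [M, Finsupp.linearCombination_apply, Finsupp.sum] using this
  obtain ⟨g₀, hg₀⟩ : M ∈ LinearMap.range L.dualMap := by
    rw [LinearMap.range_dualMap_eq_dualAnnihilator_ker, Submodule.mem_dualAnnihilator]
    intro c hc
    have h0 : L c = 0 := hc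
    have h1 := key c (by simp [h0])
    have h2 := key (-c) (by simp [h0])
    rw [map_neg] at h2
    linarith
  have hg : ∀ c, g₀ (L c) = M c := fun c => DFunLike.congr_fun hg₀ c
  let s : PointedCone ℝ (r6_W h) :=
    { carrier := {w | 0 ≤ w.1}
      zero_mem' := le_rfl
      add_mem' := fun ha hb => add_nonneg ha hb
      smul_mem' := fun t w hw => by
        change 0 ≤ t.1 • w.1
        rw [r6_smul]
        exact mul_nonneg (h.alg_nonneg _ t.2) hw }
  obtain ⟨g₁, h1, h2⟩ := riesz_extension s (g₀.toPMap (LinearMap.range L)) (by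
    rintro ⟨_, c, rfl⟩ hc
    exact (key c hc).trans_eq (hg c).symm) (fun y => by
      obtain ⟨t, ht, -⟩ := (h.bdR_iff y.2.1).1 y.2.2
      refine ⟨⟨_, Finsupp.single ⊤ t, rfl⟩, ?_⟩
      change 0 ≤ (L (Finsupp.single ⊤ t)).1 + y.1
      simpa [L, e, r6_smul, h.top] using neg_le_iff_add_nonneg'.1 ht)
  obtain ⟨g, hg'⟩ := g₁.exists_extend
  have h3 : ∀ w : r6_W h, g w.1 = g₁ w := fun w => DFunLike.congr_fun hg' w
  refine ⟨g, fun z => ?_, fun r hr h0 => ?_⟩
  · have h4 : g₁ (L (Finsupp.single z 1)) = g₀ (L (Finsupp.single z 1)) :=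
      h1 ⟨_, Finsupp.single z 1, rfl⟩
    rw [hg] at h4
    rw [show ε z = (e z).1 from rfl, h3]
    simpa [L, M] using h4
  · exact (h2 ⟨r, h.toBC.star_eq h0, hr⟩ h0).trans_eq (h3 _).symm

theorem BC1.exists_int (h : BC1 ε) (hμ : BMeas μ) : ∃ m : R →ₗ[ℂ] ℂ, IsInt ε μ m := by
  obtain ⟨g, h1, h2⟩ := r6_real h hμ
  let φ : R →ₗ[ℝ] ℝ :=
    { toFun := fun r => g (r + star r) / 2
      map_add' := fun a b => by
        rw [star_add, add_add_add_comm, map_add, add_div]
      map_smul' := fun t a => by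
        rw [RingHom.id_apply, smul_eq_mul, ← mul_div_assoc, ← smul_eq_mul t, ← map_smul, smul_add,
          r6_smul, r6_smul, star_mul', h.star_cR] }
  have p1 : ∀ r, φ (star r) = φ r := fun r => by
    change g _ / 2 = g _ / 2
    rw [star_star, add_comm]
  have p2 : ∀ r, star r = r → φ r = g r := fun r hr => by
    change g _ / 2 = _
    rw [hr, map_add, add_self_div_two]
  have p3 : ∀ r, φ (Complex.I • star r) = -φ (Complex.I • r) := fun r => by
    rw [← p1, ← map_neg, Algebra.smul_def, Algebra.smul_def, star_mul', h.star_alg, star_star,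
      Complex.conj_I, map_neg, neg_mul]
  have e : ∀ r, (Module.Dual.extendRCLike φ r : ℂ) = φ r - Complex.I * φ (Complex.I • r) :=
    fun r => rfl
  refine ⟨Module.Dual.extendRCLike φ, fun r => ?_, fun r hr h0 => ?_, fun z => ?_⟩
  · rw [e, e, p1, p3]
    simp
  · rw [e, p2 r (h.toBC.star_eq h0)]
    simpa using h2 r hr h0
  · have := p3 (ε z)
    rw [h.star_ε] at this
    rw [e, p2 _ (h.star_ε z), h1, show φ (Complex.I • ε z) = 0 by linarith]
    simp

end Pool.Agent.P.MP_d8da86_an.CR
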