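import Pool.Agent.P.MP_d8da86_an.C.Stmt2
import Pool.Agent.P.MP_d8da86_an.C.H6
import Pool.Agent.P.MP_d8da86_an.Main

/-!
Central subspaces and blocks of a normal operator: definitions.
-/

open scoped InnerProductSpace ComplexConjugate

set_option linter.unusedSectionVars false
set_option linter.unusedVariables false

noncomputable section

namespace Pool.Agent.P.MP_d8da86_an.CR

universe u

variable {H : Type*} [NormedAddCommGroup H] [InnerProductSpace ℂ H] [CompleteSpace H]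
  {A : H →L[ℂ] H} {K K₁ K₂ M : Submodule ℂ H} {l : ℂ}

/-- `K` reduces `A` and its projection leaves every invariant subspace invariant -/
def Cz (A : H →L[ℂ] H) (K : Submodule ℂ H) : Prop :=
  K ∈ Lat A ∧ Kᗮ ∈ Lat A ∧ ∀ M ∈ Lat A, Red K M

/-- every invariant subspace of `K` is reducing -/
def RedOn (A : H →L[ℂ] H) (K : Submodule ℂ H) : Prop := ∀ M ∈ Lat A, M ≤ K → Mᗮ ∈ Lat A

/-- a minimal central subspace on which `A` is not reductive -/
def Blk (A : H →L[ℂ] H) (K : Submodule ℂ H) : Prop :=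
  Cz A K ∧ ¬ RedOn A K ∧ ∀ K', Cz A K' → K' ≤ K → K' = ⊥ ∨ K' = K

/-- evaluation of polynomials at `l` is carried by a vector of `K` orthogonal to the eigenspace -/
def Ev (A : H →L[ℂ] H) (K : Submodule ℂ H) (l : ℂ) : Prop :=
  ∃ x ∈ K, ∃ y : H, ⟪y, x⟫_ℂ ≠ 0 ∧ y ∈ (cyc A (A x - l • x))ᗮ ∧
    ∀ ξ, A ξ = l • ξ → ⟪ξ, x⟫_ℂ = 0

end Pool.Agent.P.MP_d8da86_an.CR
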