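import Pool.Agent.P.MP_d8da86_an.C.S0

/-!
Points at which the Cauchy transform does not vanish.
Hints. `pos_points`: see `exists_point` in ../Kernel and the first half of
`exists_bpe`; the set of l with the stated property is measurable (countably many atoms,
`Measurable.lintegral_prod_right`, `StronglyMeasurable.integral_prod_right`), and the proof of
`exists_point` shows that it is not null; alternatively take G as a measurable subset.
-/

open scoped InnerProductSpace ComplexConjugate

set_option linter.unusedSectionVars false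
set_option linter.unusedVariables false

noncomputable section

namespace Pool.Agent.P.MP_d8da86_an.CR

universe u

open MeasureTheory

variable {H : Type*} [NormedAddCommGroup H] [InnerProductSpace ℂ H] [CompleteSpace H]
  {X : Type} [MeasurableSpace X]

open Filter Metric Real in
theorem pos_points {ι : Type} [Fintype ι] (ν : ι → Measure X) [∀ i, IsFiniteMeasure (ν i)]
    (c : ι → ℂ) {Z : X → ℂ} (hZ : BM Z) (h0 : ∑ i, c i * ∫ _, (1 : ℂ) ∂(ν i) = 0)
    (h1 : ∑ i, c i * ∫ x, conj (Z x) * Z x ∂(ν i) ≠ 0) :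
    ∃ G : Set ℂ, MeasurableSet G ∧ volume G ≠ 0 ∧ ∀ l ∈ G,
      (∀ i, ν i {x | Z x = l} = 0 ∧ Integrable (fun x => (Z x - l)⁻¹) (ν i)) ∧
        ∑ i, c i * ∫ x, (Z x - l)⁻¹ ∂(ν i) ≠ 0 := by
  obtain ⟨R, hR⟩ := hZ.2
  have hm : Measurable fun p : ℂ × X => ‖p.1 - Z p.2‖⁻¹ :=
    (measurable_fst.sub (hZ.1.comp measurable_snd)).norm.inv
  have hi : ∀ i, Integrable (fun p : ℂ × X => ‖p.1 - Z p.2‖⁻¹)
      ((volume.restrict (ball (0 : ℂ) R)).prod (ν i)) := fun i => by
    rw [integrable_prod_iff' hm.aestronglyMeasurable]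
    refine ⟨Eventually.of_forall fun x => (integrableOn_inv_sub (hR x)).1, ?_⟩
    refine Integrable.of_bound (hm.norm.stronglyMeasurable.integral_prod_left').aestronglyMeasurable
      (∫ u in ball (0 : ℂ) (2 * R), ‖u‖⁻¹) (Eventually.of_forall fun x => ?_)
    rw [Real.norm_of_nonneg (integral_nonneg fun _ => norm_nonneg _)]
    simpa using (integrableOn_inv_sub (hR x)).2
  have hk : ∀ i, Integrable (fun p : ℂ × X => p.1 / (p.1 - Z p.2))
      ((volume.restrict (ball (0 : ℂ) R)).prod (ν i)) := fun i => by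
    refine ((hi i).const_mul R).mono'
      (measurable_fst.div (measurable_fst.sub (hZ.1.comp measurable_snd))).aestronglyMeasurable ?_
    have : ∀ᵐ p ∂((volume.restrict (ball (0 : ℂ) R)).prod (ν i)), p.1 ∈ ball (0 : ℂ) R :=
      Measure.quasiMeasurePreserving_fst.ae (ae_restrict_mem measurableSet_ball)
    filter_upwards [this] with p hp
    rw [mem_ball_zero_iff] at hp
    rw [norm_div, div_eq_mul_inv]
    exact mul_le_mul_of_nonneg_right hp.le (by positivity)
  have a1 : ∀ᵐ l ∂(volume.restrict (ball (0 : ℂ) R)), ∀ i, ν i {x | Z x = l} = 0 := by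
    refine ae_restrict_of_ae (ae_all_iff.2 fun i => ?_)
    filter_upwards [(Measure.countable_meas_level_set_pos (μ := ν i) hZ.1).ae_notMem volume]
      with l hl
    simpa using hl
  have a2 : ∀ᵐ l ∂(volume.restrict (ball (0 : ℂ) R)), ∀ i,
      Integrable (fun x => (Z x - l)⁻¹) (ν i) := by
    refine ae_all_iff.2 fun i => ?_
    filter_upwards [(hi i).prod_right_ae] with l hl
    refine hl.mono' (hZ.1.sub_const l).inv.aestronglyMeasurable (Eventually.of_forall fun x => ?_)
    rw [norm_inv, norm_sub_rev]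
  obtain ⟨N, hN1, hN2, hN3⟩ := exists_measurable_superset_of_null (ae_iff.1 (a1.and a2))
  have hF : Measurable fun l : ℂ => ∑ i, c i * ∫ x, (Z x - l)⁻¹ ∂(ν i) :=
    Finset.measurable_sum _ fun i _ => Measurable.const_mul
      (((hZ.1.comp measurable_snd).sub measurable_fst).inv.stronglyMeasurable.integral_prod_right'
        (ν := ν i)).measurable _
  refine ⟨Nᶜ ∩ {l | ∑ i, c i * ∫ x, (Z x - l)⁻¹ ∂(ν i) ≠ 0},
    hN2.compl.inter (hF (measurableSet_singleton 0).compl), fun hG => ?_, fun l hl => ⟨?_, hl.2⟩⟩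
  swap
  · have h2 := not_not.1 fun h => hl.1 (hN1 h)
    exact fun i => ⟨h2.1 i, h2.2 i⟩
  have a3 : ∫ l in ball (0 : ℂ) R, ∑ i, c i * ∫ x, l / (l - Z x) ∂(ν i) = 0 := by
    refine integral_eq_zero_of_ae ?_
    filter_upwards [measure_eq_zero_iff_ae_notMem.1 hN3,
      ae_restrict_of_ae (measure_eq_zero_iff_ae_notMem.1 hG)] with l h1 h2
    have hcon : ∑ i, c i * ∫ x, (Z x - l)⁻¹ ∂(ν i) = 0 := not_not.1 fun h => h2 ⟨h1, h⟩
    have e : ∀ i, c i * ∫ x, l / (l - Z x) ∂(ν i) = -l * (c i * ∫ x, (Z x - l)⁻¹ ∂(ν i)) :=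
      fun i => by
        rw [mul_left_comm, ← integral_const_mul (-l)]
        congr 2
        funext x
        rw [← neg_sub (Z x), div_neg, div_eq_mul_inv, neg_mul]
    simp only [e]
    rw [← Finset.mul_sum, hcon, mul_zero]
    rfl
  rw [integral_finsetSum _ fun i _ => ((hk i).integral_prod_left).const_mul _] at a3
  have a4 : ∀ i, ∫ l in ball (0 : ℂ) R, c i * ∫ x, l / (l - Z x) ∂(ν i) =
      π * R ^ 2 * (c i * ∫ _, (1 : ℂ) ∂(ν i)) - π * (c i * ∫ x, conj (Z x) * Z x ∂(ν i)) :=
    fun i => by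
      rw [integral_const_mul, integral_integral_swap (hk i)]
      simp only [integral_kernel (hR _)]
      rw [mul_left_comm, mul_left_comm (π : ℂ), ← mul_sub, ← integral_const_mul (π * R ^ 2 : ℂ),
        ← integral_const_mul (π : ℂ), ← integral_sub ((integrable_const _).const_mul _)
          (((hZ.star.mul hZ).integrable _).const_mul _)]
      congr 2
      funext x
      rw [Complex.conj_mul']
      push_cast
      ring
  simp only [a4] at a3
  rw [Finset.sum_sub_distrib, ← Finset.mul_sum, ← Finset.mul_sum, h0, mul_zero, zero_sub,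
    neg_eq_zero, mul_eq_zero] at a3
  exact a3.elim (Complex.ofReal_ne_zero.2 Real.pi_ne_zero) h1

end Pool.Agent.P.MP_d8da86_an.CR
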