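import Pool.Agent.P.MP_d8da86_an.C.S0

/-!
The Boolean algebra of central subspaces.
Hints. Red K M is equivalent to Commute (pr K) (pr M) (`red_iff_commute`), which is symmetric, so
it says that pr M maps K into K. `not_redOn_of_ev`: N = cyc (A x - l x) ≤ K; if it is reducing then
ξ = x - pr N x satisfies A ξ = l • ξ, so ξ = 0 and x ∈ N. `ev_disj`: on cyc (x1 + x2) one has
⟪y1, pr K1 ξ⟫ * ⟪y2, x2⟫ = ⟪y2, pr K2 ξ⟫ * ⟪y1, x1⟫ (true for A ^ n (x1 + x2), where ⟪yi, A ^ n xi⟫ =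
l ^ n * ⟪yi, xi⟫), and x1 is in this subspace.
-/

open scoped InnerProductSpace ComplexConjugate

set_option linter.unusedSectionVars false
set_option linter.unusedVariables false

noncomputable section

namespace Pool.Agent.P.MP_d8da86_an.CR

universe u

variable {H : Type*} [NormedAddCommGroup H] [InnerProductSpace ℂ H] [CompleteSpace H]
  {A : H →L[ℂ] H} {K K₁ K₂ M : Submodule ℂ H} {l : ℂ}

theorem s3_sup_lat {ι : Sort*} {F : ι → Submodule ℂ H} {T : H →L[ℂ] H}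
    (h : ∀ i, ∀ x ∈ F i, T x ∈ F i) : (⨆ i, F i).topologicalClosure ∈ Lat T := by
  refine clo_mem_Lat fun x hx => Submodule.le_topologicalClosure _ ?_
  have h1 : (⨆ i, F i) ≤ (⨆ i, F i).comap (T : H →ₗ[ℂ] H) :=
    iSup_le fun i y hy => (le_iSup F i) (h i y hy)
  exact h1 hx

theorem s3_mem_orth_iSup {ι : Sort*} {F : ι → Submodule ℂ H} {x : H} :
    x ∈ (⨆ i, F i)ᗮ ↔ ∀ i, x ∈ (F i)ᗮ := by
  constructor
  · intro hx i
    exact Submodule.orthogonal_le (le_iSup F i) hx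
  · intro hx
    have h1 : (⨆ i, F i) ≤ LinearMap.ker ((innerSL ℂ x : H →L[ℂ] ℂ) : H →ₗ[ℂ] ℂ) :=
      iSup_le fun i u hu => mem_orth'.1 (hx i) u hu
    exact mem_orth'.2 fun u hu => h1 hu

theorem s3_pow {x y : H} (hy : y ∈ (cyc A (A x - l • x))ᗮ) (n : ℕ) :
    ⟪y, (A ^ n) x⟫_ℂ = l ^ n * ⟪y, x⟫_ℂ := by
  induction n with
  | zero => simp
  | succ n ih =>
    have h1 := mem_orth_cyc.1 hy n
    have h2 : (A ^ (n + 1)) x = (A ^ n) (A x) := by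
      rw [pow_succ]
      rfl
    rw [map_sub, map_smul, inner_sub_right, inner_smul_right, ih, ← h2] at h1
    rw [sub_eq_zero.1 h1]
    ring

theorem cz_bot (A : H →L[ℂ] H) : Cz A ⊥ := by
  refine ⟨bot_mem_Lat A, ?_, fun M hM ξ hξ => ⟨0, M.zero_mem, Submodule.zero_mem _, ?_⟩⟩
  · rw [Submodule.bot_orthogonal_eq_top]
    exact top_mem_Lat A
  · rw [Submodule.bot_orthogonal_eq_top]
    trivial

theorem cz_top (A : H →L[ℂ] H) : Cz A ⊤ := by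
  refine ⟨top_mem_Lat A, ?_, fun M hM ξ hξ => ⟨ξ, hξ, trivial, ?_⟩⟩
  · rw [Submodule.top_orthogonal_eq_bot]
    exact bot_mem_Lat A
  · rw [sub_self]
    exact Submodule.zero_mem _

theorem Cz.orth (h : Cz A K) : Cz A Kᗮ := by
  refine ⟨h.2.1, ?_, fun M hM ξ hξ => ?_⟩
  · rw [orth_orth h.1.1]
    exact h.1
  · obtain ⟨a, ha, haK, hb⟩ := h.2.2 M hM ξ hξ
    refine ⟨ξ - a, M.sub_mem hξ ha, hb, ?_⟩
    rw [orth_orth h.1.1, sub_sub_cancel]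
    exact haK

theorem Cz.commute (h : Cz A K) : Commute (pr K) A := by
  exact (isProj_pr h.1.1).commute h.1.2 h.2.1.2

theorem Cz.inf (h₁ : Cz A K₁) (h₂ : Cz A K₂) : Cz A (K₁ ⊓ K₂) := by
  have hc : IsClosed ((K₁ ⊓ K₂ : Submodule ℂ H) : Set H) := h₁.1.1.inter h₂.1.1
  have e : pr (K₁ ⊓ K₂) = pr K₁ * pr K₂ :=
    pr_inf h₁.1.1 h₂.1.1 ((red_iff_commute h₁.1.1 h₂.1.1).1 (h₁.2.2 _ h₂.1))
  refine ⟨inf_mem_Lat h₁.1 h₂.1, ⟨Submodule.isClosed_orthogonal _, fun x hx => ?_⟩,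
    fun M hM => (red_iff hc).2 fun ξ hξ => ?_⟩
  · have h1 : Commute (1 - pr (K₁ ⊓ K₂)) A := by
      rw [e]
      exact (Commute.one_left A).sub_left (h₁.commute.mul_left h₂.commute)
    exact ((isProj_pr hc).orth hc).inv_of_commute h1 hx
  · rw [e]
    exact (red_iff h₁.1.1).1 (h₁.2.2 M hM) _ ((red_iff h₂.1.1).1 (h₂.2.2 M hM) ξ hξ)

theorem Cz.pr_inf (h₁ : Cz A K₁) (hM : M ∈ Lat A) : pr (K₁ ⊓ M) = pr K₁ * pr M := by
  exact CR.pr_inf h₁.1.1 hM.1 ((red_iff_commute h₁.1.1 hM.1).1 (h₁.2.2 _ hM))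

theorem cz_iSup {ι : Sort*} {F : ι → Submodule ℂ H} (h : ∀ i, Cz A (F i)) :
    Cz A (⨆ i, F i).topologicalClosure := by
  have hc : IsClosed (((⨆ i, F i).topologicalClosure : Submodule ℂ H) : Set H) :=
    Submodule.isClosed_topologicalClosure _
  refine ⟨s3_sup_lat fun i => (h i).1.2, ⟨Submodule.isClosed_orthogonal _, fun x hx => ?_⟩,
    fun M hM => ?_⟩
  · rw [orth_clo] at hx ⊢
    exact s3_mem_orth_iSup.2 fun i => (h i).2.1.2 x (s3_mem_orth_iSup.1 hx i)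
  · have h1 : (⨆ i, F i).topologicalClosure ∈ Lat (pr M) :=
      s3_sup_lat fun i x hx => (isProj_pr (h i).1.1).inv_of_commute
        ((red_iff_commute (h i).1.1 hM.1).1 ((h i).2.2 M hM)) hx
    exact (red_iff_commute hc hM.1).2
      ((red_iff_commute hM.1 hc).1 ((red_iff hM.1).2 h1.2)).symm

theorem cz_iInf {ι : Sort*} {F : ι → Submodule ℂ H} (h : ∀ i, Cz A (F i)) :
    Cz A (⨅ i, F i) := by
  have h1 := (cz_iSup (F := fun i => (F i)ᗮ) fun i => (h i).orth).orth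
  have e : ((⨆ i, (F i)ᗮ).topologicalClosure)ᗮ = ⨅ i, F i := by
    rw [orth_clo]
    ext x
    rw [s3_mem_orth_iSup, Submodule.mem_iInf]
    refine forall_congr' fun i => ?_
    rw [orth_orth (h i).1.1]
  rwa [e] at h1

theorem Cz.le_orth (h₁ : Cz A K₁) (hM : M ∈ Lat A) (h0 : K₁ ⊓ M = ⊥) : M ≤ K₁ᗮ := by
  intro ξ hξ
  obtain ⟨a, ha, haK, hb⟩ := h₁.2.2 M hM ξ hξ
  have h1 : a ∈ K₁ ⊓ M := ⟨haK, ha⟩
  rw [h0, Submodule.mem_bot] at h1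
  rwa [h1, sub_zero] at hb

theorem not_redOn_of_ev (h1 : K ∈ Lat A) (h : Ev A K l) : ¬ RedOn A K := by
  intro hR
  obtain ⟨x, hx, y, hyx, hy, hev⟩ := h
  have hN := cyc_mem_Lat A (A x - l • x)
  have hle : cyc A (A x - l • x) ≤ K := cyc_le h1 (K.sub_mem (h1.2 x hx) (K.smul_mem l hx))
  have hN' := hR _ hN hle
  have hself := self_mem_cyc A (A x - l • x)
  generalize cyc A (A x - l • x) = N at hN hN' hy hself
  have hP := isProj_pr hN.1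
  have a1 : A (x - pr N x) - l • (x - pr N x) ∈ N := by
    have e : A (x - pr N x) - l • (x - pr N x) =
        (A x - l • x) - (A (pr N x) - l • pr N x) := by
      rw [map_sub, smul_sub]
      abel
    rw [e]
    exact N.sub_mem hself (N.sub_mem (hN.2 _ (hP.mem x)) (N.smul_mem l (hP.mem x)))
  have a2 : A (x - pr N x) - l • (x - pr N x) ∈ Nᗮ :=
    Nᗮ.sub_mem (hN'.2 _ (hP.sub x)) (Nᗮ.smul_mem l (hP.sub x))
  have a3 := hev _ (sub_eq_zero.1 (eq_zero_of_mem_orth a1 a2))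
  have a4 : ⟪x - pr N x, pr N x⟫_ℂ = 0 := mem_orth'.1 (hP.sub x) _ (hP.mem x)
  have a5 : x - pr N x = 0 := by
    refine inner_self_eq_zero (𝕜 := ℂ).1 ?_
    rw [inner_sub_right, a3, a4, sub_zero]
  have a6 : x ∈ N := by
    rw [sub_eq_zero.1 a5]
    exact hP.mem x
  exact hyx (mem_orth'.1 hy x a6)

theorem ev_disj (h₁ : Cz A K₁) (h₂ : Cz A K₂) (h0 : K₁ ⊓ K₂ = ⊥) (e₁ : Ev A K₁ l)
    (e₂ : Ev A K₂ l) : False := by
  obtain ⟨x₁, hx₁, y₁, hyx₁, hy₁, -⟩ := e₁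
  obtain ⟨x₂, hx₂, y₂, hyx₂, hy₂, -⟩ := e₂
  have o₁ : K₂ ≤ K₁ᗮ := h₁.le_orth h₂.1 h0
  have o₂ : K₁ ≤ K₂ᗮ := h₂.le_orth h₁.1 (by rw [inf_comm]; exact h0)
  have P₁ := isProj_pr h₁.1.1
  have P₂ := isProj_pr h₂.1.1
  have q₁ : ∀ a ∈ K₁, ∀ b ∈ K₂, pr K₁ (a + b) = a := fun a ha b hb => by
    rw [map_add, P₁.self ha, P₁.zero (o₁ hb), add_zero]
  have q₂ : ∀ a ∈ K₁, ∀ b ∈ K₂, pr K₂ (a + b) = b := fun a ha b hb => by
    rw [map_add, P₂.self hb, P₂.zero (o₂ ha), zero_add]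
  have hw : ∀ ξ, ⟪conj ⟪y₂, x₂⟫_ℂ • pr K₁ y₁ - conj ⟪y₁, x₁⟫_ℂ • pr K₂ y₂, ξ⟫_ℂ =
      ⟪y₂, x₂⟫_ℂ * ⟪y₁, pr K₁ ξ⟫_ℂ - ⟪y₁, x₁⟫_ℂ * ⟪y₂, pr K₂ ξ⟫_ℂ := by
    intro ξ
    rw [inner_sub_left, inner_smul_left, inner_smul_left, Complex.conj_conj, Complex.conj_conj,
      P₁.symm, P₂.symm]
  have hw' : conj ⟪y₂, x₂⟫_ℂ • pr K₁ y₁ - conj ⟪y₁, x₁⟫_ℂ • pr K₂ y₂ ∈ (cyc A (x₁ + x₂))ᗮ := by
    refine mem_orth_cyc.2 fun n => ?_
    rw [hw, map_add, q₁ _ (pow_mem h₁.1.2 hx₁ n) _ (pow_mem h₂.1.2 hx₂ n),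
      q₂ _ (pow_mem h₁.1.2 hx₁ n) _ (pow_mem h₂.1.2 hx₂ n), s3_pow hy₁, s3_pow hy₂]
    ring
  have hx : x₁ ∈ cyc A (x₁ + x₂) := by
    have h3 := (red_iff h₁.1.1).1 (h₁.2.2 _ (cyc_mem_Lat A (x₁ + x₂))) _ (self_mem_cyc A _)
    rwa [q₁ _ hx₁ _ hx₂] at h3
  have h4 := mem_orth'.1 hw' x₁ hx
  rw [hw, P₁.self hx₁, P₂.zero (o₂ hx₁), inner_zero_right, mul_zero, sub_zero] at h4
  exact mul_ne_zero hyx₂ hyx₁ h4

end Pool.Agent.P.MP_d8da86_an.CR
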