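import Pool.Agent.P.MP_d8da86_an.C.S3

/-!
Separation by a vertical line.
Hints. Take E, Z from `exists_setup`. For v ∈ K the vector u = E.Pr {re Z < θ + δ} v lies in K and
∫ (re Z - θ - δ) dμ u ≥ 0 with a negative integrand, so u = 0. Hence all μ v live on
S = {δ ≤ |re Z - θ|}, the operator E.Φ (S.indicator (if 0 < re (Z - θ) then 1 else 0)) is pr K, and
`Ctx.sign` of ../Alg applies (with `Ctx.of_bm`).
-/

open scoped InnerProductSpace ComplexConjugate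

set_option linter.unusedSectionVars false
set_option linter.unusedVariables false

noncomputable section

namespace Pool.Agent.P.MP_d8da86_an.CR

universe u

variable {H : Type*} [NormedAddCommGroup H] [InnerProductSpace ℂ H] [CompleteSpace H]
  {A : H →L[ℂ] H} {K K₁ K₂ M : Submodule ℂ H} {l : ℂ}

section

open MeasureTheory Filter

variable {X : Type} [MeasurableSpace X]

theorem s7_null (E : SpecCalc X H) {g : X → ℝ} (hm : Measurable g)
    (hi : ∀ ξ, Integrable g (E.μ ξ)) {v : H}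
    (h : 0 ≤ ∫ x, g x ∂(E.μ (E.Pr {x | g x < 0} v))) : E.μ v {x | g x < 0} = 0 := by
  have hs : MeasurableSet {x | g x < 0} := measurableSet_lt hm measurable_const
  have h1 : E.μ (E.Pr {x | g x < 0} v) {x | g x < 0}ᶜ = 0 :=
    E.null_apply' (BM.indicator_one hs) v hs.compl fun x hx => Set.indicator_of_notMem hx _
  rw [← E.Pr_eq_zero_iff hs]
  generalize E.Pr {x | g x < 0} v = u at h h1
  have h2 : ∀ᵐ x ∂(E.μ u), g x < 0 := h1
  have h3 : ∀ᵐ x ∂(E.μ u), 0 ≤ -g x := h2.mono fun x hx => by linarith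
  have h4 : ∫ x, -g x ∂(E.μ u) = 0 := by
    refine le_antisymm ?_ (integral_nonneg_of_ae h3)
    rw [integral_neg]
    linarith
  have h5 : ∀ᵐ x ∂(E.μ u), -g x = 0 :=
    (integral_eq_zero_iff_of_nonneg_ae h3 (hi u).neg).1 h4
  have h6 : ∀ᵐ x ∂(E.μ u), False := by
    filter_upwards [h2, h5] with x hx hx'
    linarith
  refine E.eq_zero_of_null ?_
  rw [ae_iff] at h6
  simpa using h6

theorem s7_int (E : SpecCalc X H) {Z : X → ℂ} (hZ : BM Z) (ξ : H) :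
    Integrable (fun x => (Z x).re) (E.μ ξ) := by
  haveI := E.fin
  exact (hZ.integrable (E.μ ξ)).re

theorem s7_re (E : SpecCalc X H) {Z : X → ℂ} (hZ : BM Z) (c : ℝ) (ξ : H) :
    ∫ x, ((Z x).re - c) ∂(E.μ ξ) = (⟪ξ, E.Φ Z ξ⟫_ℂ).re - c * ‖ξ‖ ^ 2 := by
  haveI := E.fin
  rw [integral_sub (s7_int E hZ ξ) (integrable_const c), integral_const, E.mass, E.inner _ hZ,
    smul_eq_mul, mul_comm]
  congr 1
  exact integral_re (hZ.integrable (E.μ ξ))

theorem s7_low (E : SpecCalc X H) {Z : X → ℂ} (hZ : BM Z) {c : ℝ} {v : H}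
    (hK : ∀ s, MeasurableSet s → E.Pr s v ∈ K)
    (h : ∀ ξ ∈ K, c * ‖ξ‖ ^ 2 ≤ (⟪ξ, E.Φ Z ξ⟫_ℂ).re) : ∀ᵐ x ∂(E.μ v), c ≤ (Z x).re := by
  haveI := E.fin
  have hm : Measurable fun x => (Z x).re - c :=
    (Complex.measurable_re.comp hZ.1).sub_const c
  have h1 := s7_null E hm (fun ξ => (s7_int E hZ ξ).sub (integrable_const c)) (v := v) (by
    rw [s7_re E hZ]
    exact sub_nonneg.2 (h _ (hK _ (measurableSet_lt hm measurable_const))))
  rw [ae_iff]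
  refine measure_mono_null (fun x hx => ?_) h1
  have h2 : ¬ c ≤ (Z x).re := hx
  change (Z x).re - c < 0
  linarith [not_le.1 h2]

theorem s7_up (E : SpecCalc X H) {Z : X → ℂ} (hZ : BM Z) {c : ℝ} {v : H}
    (hK : ∀ s, MeasurableSet s → E.Pr s v ∈ K)
    (h : ∀ ξ ∈ K, (⟪ξ, E.Φ Z ξ⟫_ℂ).re ≤ c * ‖ξ‖ ^ 2) : ∀ᵐ x ∂(E.μ v), (Z x).re ≤ c := by
  have h1 := s7_low E ((BM.const (-1)).mul hZ) (c := -c) hK fun ξ hξ => by
    rw [E.map_smul _ hZ, ContinuousLinearMap.smul_apply, inner_smul_right]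
    have := h ξ hξ
    simp only [neg_mul, one_mul, Complex.neg_re]
    linarith
  refine h1.mono fun x hx => ?_
  simp only [neg_mul, one_mul, Complex.neg_re] at hx
  linarith

end

theorem cz_of_sep (hA : IsStarNormal A) (h1 : K ∈ Lat A) (h2 : Kᗮ ∈ Lat A) {θ δ : ℝ}
    (hδ : 0 < δ) (h3 : ∀ ξ ∈ K, (θ + δ) * ‖ξ‖ ^ 2 ≤ (⟪ξ, A ξ⟫_ℂ).re)
    (h4 : ∀ ξ ∈ Kᗮ, (⟪ξ, A ξ⟫_ℂ).re ≤ (θ - δ) * ‖ξ‖ ^ 2) : Cz A K := by
  obtain ⟨X, _, E, Z, hZ, rfl, hc⟩ := exists_setup A hA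
  have hP := isProj_pr h1.1
  have hP' := hP.orth h1.1
  have hcm : Commute (pr K) (E.Φ Z) := hP.commute h1.2 h2.2
  have hcm' : Commute (1 - pr K) (E.Φ Z) := (Commute.one_left _).sub_left hcm
  have a1 : ∀ v ∈ K, ∀ᵐ x ∂(E.μ v), θ + δ ≤ (Z x).re := fun v hv =>
    s7_low E hZ (fun s hs => hP.inv_of_commute (hc _ hcm _ (BM.indicator_one hs)) hv) h3
  have a2 : ∀ v ∈ Kᗮ, ∀ᵐ x ∂(E.μ v), (Z x).re ≤ θ - δ := fun v hv =>
    s7_up E hZ (fun s hs => hP'.inv_of_commute (hc _ hcm' _ (BM.indicator_one hs)) hv) h4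
  have hw : BM fun x => Z x - (θ : ℂ) := hZ.sub (BM.const _)
  have hre : Measurable fun x => (Z x - (θ : ℂ)).re := Complex.measurable_re.comp hw.1
  have hS : MeasurableSet {x | δ ≤ |(Z x - (θ : ℂ)).re|} :=
    measurableSet_le measurable_const hre.abs
  have b1 : ∀ x, θ + δ ≤ (Z x).re → x ∈ {x | δ ≤ |(Z x - (θ : ℂ)).re|} := fun x hx => by
    change δ ≤ |(Z x - (θ : ℂ)).re|
    rw [Complex.sub_re, Complex.ofReal_re]
    exact le_trans (by linarith) (le_abs_self _)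
  have b2 : ∀ x, (Z x).re ≤ θ - δ → x ∈ {x | δ ≤ |(Z x - (θ : ℂ)).re|} := fun x hx => by
    change δ ≤ |(Z x - (θ : ℂ)).re|
    rw [Complex.sub_re, Complex.ofReal_re]
    exact le_trans (by linarith) (neg_le_abs _)
  have b3 : ∀ x ∈ {x | δ ≤ |(Z x - (θ : ℂ)).re|}, δ ≤ |(Z x - (θ : ℂ)).re| := fun x hx => hx
  generalize {x | δ ≤ |(Z x - (θ : ℂ)).re|} = S at hS b1 b2 b3
  have hsupp : ∀ v, E.μ v Sᶜ = 0 := fun v => by
    have e : v = pr K v + (v - pr K v) := by abel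
    rw [e]
    exact E.null_add hS.compl ((a1 _ (hP.mem v)).mono b1) ((a2 _ (hP.sub v)).mono b2)
  refine ⟨h1, h2, fun M hM => (red_iff h1.1).2 fun ξ hξ => ?_⟩
  have c : Ctx E M S := ⟨hS, hM.1, fun v _ => hsupp v⟩
  have hs := c.sign (c.sub (c.of_bm hZ hM.2) (c.const (θ : ℂ))) hδ b3
  have hb := hs.bm c
  have hm := hs.2.2 ξ hξ
  have e1 : E.Φ (S.indicator fun x => if 0 < (Z x - (θ : ℂ)).re then 1 else 0) (pr K ξ) =
      pr K ξ := by
    rw [E.congr_ae hb (BM.const 1) ?_, E.one, ContinuousLinearMap.one_apply]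
    refine (a1 _ (hP.mem ξ)).mono fun x hx => ?_
    rw [Set.indicator_of_mem (b1 x hx), if_pos]
    rw [Complex.sub_re, Complex.ofReal_re]
    linarith
  have e2 : E.Φ (S.indicator fun x => if 0 < (Z x - (θ : ℂ)).re then 1 else 0) (ξ - pr K ξ) =
      0 := by
    rw [E.apply_eq_zero_iff hb]
    refine (a2 _ (hP.sub ξ)).mono fun x hx => ?_
    rw [Set.indicator_of_mem (b2 x hx), if_neg]
    rw [Complex.sub_re, Complex.ofReal_re]
    linarith
  rw [map_sub, e1, sub_eq_zero] at e2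
  rwa [e2] at hm

/-- the operator can be moved into any vertical strip -/
theorem exists_strip (hA : IsStarNormal A) {c r : ℝ} (hr : 0 < r) :
    ∃ T : H →L[ℂ] H, IsStarNormal T ∧ Lat T = Lat A ∧ ‖T‖ ≤ |c| + r ∧
      ∀ ξ, (c - r) * ‖ξ‖ ^ 2 ≤ (⟪ξ, T ξ⟫_ℂ).re ∧ (⟪ξ, T ξ⟫_ℂ).re ≤ (c + r) * ‖ξ‖ ^ 2 := by
  have h0 : 0 < ‖A‖ + 1 := by positivity
  obtain ⟨t, ht, hta⟩ : ∃ t : ℝ, 0 < t ∧ t * ‖A‖ ≤ r := by
    refine ⟨r / (‖A‖ + 1), by positivity, ?_⟩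
    rw [div_mul_eq_mul_div, div_le_iff₀ h0]
    nlinarith [norm_nonneg A]
  have ht' : (t : ℂ) ≠ 0 := Complex.ofReal_ne_zero.2 ht.ne'
  have hap : ∀ ξ : H, ((c : ℂ) • (1 : H →L[ℂ] H) + (t : ℂ) • A) ξ = (c : ℂ) • ξ + (t : ℂ) • A ξ :=
    fun ξ => rfl
  refine ⟨(c : ℂ) • (1 : H →L[ℂ] H) + (t : ℂ) • A, ⟨?_⟩, ?_, ?_, fun ξ => ?_⟩
  · have h1 : Commute (star A) A := hA.star_comm_self
    rw [star_add, star_smul, star_smul, star_one]
    exact (((Commute.one_left _).smul_left _).add_left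
      ((((Commute.one_right _).smul_right _).add_right (h1.smul_right _)).smul_left _))
  · ext M
    refine and_congr_right fun _ => ⟨fun h x hx => ?_, fun h x hx => ?_⟩
    · have h1 := M.smul_mem (t : ℂ)⁻¹ (M.sub_mem (h x hx) (M.smul_mem (c : ℂ) hx))
      rwa [hap, add_sub_cancel_left, smul_smul, inv_mul_cancel₀ ht', one_smul] at h1
    · rw [hap]
      exact M.add_mem (M.smul_mem _ hx) (M.smul_mem _ (h x hx))
  · refine (norm_add_le _ _).trans (add_le_add ?_ ?_)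
    · rw [norm_smul, Complex.norm_real, Real.norm_eq_abs]
      exact mul_le_of_le_one_right (abs_nonneg c) ContinuousLinearMap.norm_id_le
    · rwa [norm_smul, Complex.norm_real, Real.norm_of_nonneg ht.le]
  · have h1 : (⟪ξ, ((c : ℂ) • (1 : H →L[ℂ] H) + (t : ℂ) • A) ξ⟫_ℂ).re =
        c * ‖ξ‖ ^ 2 + t * (⟪ξ, A ξ⟫_ℂ).re := by
      rw [hap, inner_add_right, inner_smul_right, inner_smul_right, Complex.add_re,
        Complex.re_ofReal_mul, Complex.re_ofReal_mul, ← @inner_self_eq_norm_sq ℂ]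
      rfl
    have h2 : |(⟪ξ, A ξ⟫_ℂ).re| ≤ ‖A‖ * ‖ξ‖ ^ 2 := by
      refine (Complex.abs_re_le_norm _).trans ((norm_inner_le_norm _ _).trans ?_)
      have := mul_le_mul_of_nonneg_left (A.le_opNorm ξ) (norm_nonneg ξ)
      nlinarith
    have h3 := abs_le.1 h2
    have h4 : t * (‖A‖ * ‖ξ‖ ^ 2) ≤ r * ‖ξ‖ ^ 2 := by
      rw [← mul_assoc]
      exact mul_le_mul_of_nonneg_right hta (sq_nonneg _)
    have h5 := mul_le_mul_of_nonneg_left h3.1 ht.le
    have h6 := mul_le_mul_of_nonneg_left h3.2 ht.le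
    rw [h1]
    constructor <;> linarith

end Pool.Agent.P.MP_d8da86_an.CR
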