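import Pool.Agent.P.MP_d8da86_an.Defs

/-!
The order-theoretic criterion. Throughout, `o` is an orthocomplementation of the lattice `L`.
-/

namespace Pool.Agent.P.MP_d8da86_an.CR

variable {L : Type*} [CompleteLattice L] (o : L → L)

/-- `z` is central. -/
def Cen (z : L) : Prop := ∀ x, x = x ⊓ z ⊔ x ⊓ o z

/-- `p` is a point: every element below `p` is cut out of `p` by a central element. -/
def Pt (p : L) : Prop := ∀ x ≤ p, ∃ z, Cen o z ∧ x = p ⊓ z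

/-- `a` lies below every central element above `b`. -/
def Cov (a b : L) : Prop := ∀ z, Cen o z → b ≤ z → a ≤ z

/-- `m` is a nonnegative additive function on the centre which preserves directed suprema. -/
def Meas (m : L → ℝ) : Prop :=
  (∀ z, Cen o z → 0 ≤ m z) ∧
  (∀ z w, Cen o z → Cen o w → z ⊓ w = ⊥ → m (z ⊔ w) = m z + m w) ∧
  ∀ D : Set L, (∀ z ∈ D, Cen o z) → D.Nonempty → DirectedOn (· ≤ ·) D →
    IsLUB (m '' D) (m (sSup D))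

/-- `p` is a point and `o p` contains two orthogonal points whose central covers contain `p`. -/
def Spatial (p : L) : Prop :=
  Pt o p ∧ ∃ q r, Pt o q ∧ Pt o r ∧ q ≤ o p ∧ r ≤ o p ∧ q ≤ o r ∧ Cov o p q ∧ Cov o p r

/-- `a` is an affine point for the hyperplane `o p`. -/
def Aff (p a : L) : Prop := Pt o a ∧ IsCompl a (o p)

/-- The automorphism `g` fixes every element below `o p`. -/
def Ax (p : L) (g : L ≃o L) : Prop := ∀ x ≤ o p, g x = x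

/-- `b` lies between `a` and `c`: it is on the line `ac` and is the foot of the altitude of a
right triangle with hypotenuse `ac`. -/
def Btw (p a b c : L) : Prop :=
  b ≤ a ⊔ c ∧ ∃ x, Aff o p x ∧ (a ⊔ x) ⊓ o p ≤ o ((c ⊔ x) ⊓ o p) ∧
    (b ⊔ x) ⊓ o p ≤ o ((a ⊔ c) ⊓ o p)

/-- The axioms for the pair `(L, o)`. -/
structure Axioms : Prop where
  anti : Antitone o
  invol : Function.Involutive o
  inf_o : ∀ a, a ⊓ o a = ⊥
  om : ∀ a b, a ≤ b → a ⊔ b ⊓ o a = b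
  dense : ∀ x, x ≠ ⊥ → ∃ p, Pt o p ∧ p ≠ ⊥ ∧ p ≤ x
  cover : ∀ p x, Pt o p → Pt o ((x ⊔ p) ⊓ o x)
  gen : ∃ e : ℕ → L, (∀ n, Cen o (e n)) ∧ ∀ S : Set L, (∀ n, e n ∈ S) → (∀ z ∈ S, o z ∈ S) →
    (∀ T ⊆ S, sSup T ∈ S) → ∀ z, Cen o z → z ∈ S
  meas : ∀ z, Cen o z → z ≠ ⊥ → ∃ m, Meas o m ∧ 0 < m z
  line : ∀ p q, Pt o p → Pt o q → p ≤ o q → Cov o p q → Cov o q p →
    ∃ c : ℝ → L, (∀ t, Pt o (c t) ∧ c t ≤ p ⊔ q ∧ Cov o p (c t)) ∧
      (∀ s t, s ≠ t → c s ⊓ c t = ⊥) ∧ ∀ x, Pt o x → x ≤ p ⊔ q → x = ⨆ t, x ⊓ c t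
  elation : ∀ p, Spatial o p → ∀ a b, Aff o p a → Aff o p b →
    ∃ g, Ax o p g ∧ g a = b ∧ ∀ x, (a ⊔ b) ⊓ o p ≤ x → g x = x
  homology : ∀ p, Spatial o p → ∀ a b, Aff o p a → Aff o p b → a ⊓ p = ⊥ → b ⊓ p = ⊥ →
    b ≤ p ⊔ a → ∃ g, Ax o p g ∧ g p = p ∧ g a = b
  comm : ∀ p, Spatial o p → ∀ g k, Ax o p g → Ax o p k → g p = p → k p = p →
    ∀ x, g (k x) = k (g x)
  sq : ∀ p, Spatial o p → ∀ g, Ax o p g → g p = p →
    ∃ k, Ax o p k ∧ k p = p ∧ ∀ x, k (k x) = g x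
  cont : ∀ p, Spatial o p → ∀ (X Y : Set L) (a : L), (∀ x ∈ X, Aff o p x) →
    (∀ y ∈ Y, Aff o p y) → Aff o p a → (∀ x ∈ X, ∀ y ∈ Y, Btw o p a x y) →
    ∃ b, Aff o p b ∧ ∀ x ∈ X, ∀ y ∈ Y, Btw o p x b y

/-- The criterion: some map `o` satisfies the axioms. -/
def Crit (L : Type*) [CompleteLattice L] : Prop := ∃ o : L → L, Axioms o

end Pool.Agent.P.MP_d8da86_an.CR
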