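import Pool.Agent.P.MP_d8da86_an.C.Stmt

namespace Pool.Agent.P.MP_d8da86_an.CR

universe u

/-- `L` is order-isomorphic to `Lat A` for a normal operator `A` on a nonzero Hilbert space. -/
def Attainable (L : Type u) [PartialOrder L] : Prop :=
  ∃ (H : Type u) (_ : NormedAddCommGroup H) (_ : InnerProductSpace ℂ H) (_ : CompleteSpace H)
    (_ : Nontrivial H) (A : H →L[ℂ] H), IsStarNormal A ∧ Nonempty (L ≃o Lat A)

/-- `M` is not a product of two complete lattices with more than one element. -/
def Irred (M : Type u) [CompleteLattice M] : Prop :=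
  ∀ (M₁ M₂ : Type u) [CompleteLattice M₁] [CompleteLattice M₂], Nonempty (M ≃o M₁ × M₂) →
    Subsingleton M₁ ∨ Subsingleton M₂

/-- `M` is relatively complemented. -/
def RelCompl (M : Type u) [CompleteLattice M] : Prop :=
  ∀ a x b : M, a ≤ x → x ≤ b → ∃ y, x ⊓ y = a ∧ x ⊔ y = b

end Pool.Agent.P.MP_d8da86_an.CR
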