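import Pool.Agent.P.MP_d8da86_an.C.O3b

/-!
Affine points and axial automorphisms.
Hints. `aff_of`: a ≤ p ⊔ o p, `exch`. `sup_dr`: `veb'` with y = o p. `off_dir`: mix q and r
(off cov (q ⊓ d) take q; q ⊓ d and r ⊓ d have disjoint covers by `cov_disj`). `aff_dir`: a third
point on the line a ⊔ d, mixed with a off cov d. `off_pt`: e from `off_dir`, c from `aff_dir`
for e; t = c ⊓ (a ⊔ d) has t ⊓ a = ⊥, `exch` gives cov t ⊓ e ≤ (a ⊔ d) ⊓ o p = d.
`Ax.cen`: g z is central (`cen_map`), g z ⊓ o p = z ⊓ o p and cov (o p) = ⊤.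
`Ax.fix_off`: g c ≤ (g a ⊔ dr a c) ⊓ (g b ⊔ dr b c), and z ⊓ (a ⊔ c) ⊓ (b ⊔ c) = z ⊓ c by
`modular` and `exch`. `Ax.two_fix`: take c1 off the line a ⊔ b (`off_pt`), it is fixed; an
affine c is locally off the line a ⊔ b, or equal to a, or off the line a ⊔ c1.
-/

open scoped InnerProductSpace ComplexConjugate

set_option linter.unusedSectionVars false
set_option linter.unusedVariables false

noncomputable section

namespace Pool.Agent.P.MP_d8da86_an.CR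

universe u

variable {L : Type*} [CompleteLattice L] {o : L → L} {a b c d e x y z w p : L} {g k : L ≃o L}

namespace Geo

theorem aff_cov (h : Geo o) (hp : Pt o p) (ha : Aff o p a) : cov o a = cov o p := by
  apply le_antisymm
  · exact h.cov_le_of_le_sup (x := o p) (by rw [h.toOM.sup_o]; exact le_top) ha.2.inf_eq_bot
  · exact h.cov_le_of_le_sup (x := o p) (by rw [ha.2.sup_eq_top]; exact le_top) (h.inf_o p)

theorem aff_of (h : Geo o) (hp : Pt o p) (ha : Pt o a) (h0 : a ⊓ o p = ⊥)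
    (hc : cov o p ≤ cov o a) : Aff o p a := by
  refine ⟨ha, disjoint_iff.2 h0, codisjoint_iff.2 (top_le_iff.1 ?_)⟩
  have h1 : cov o a ⊓ p ≤ a ⊔ o p :=
    h.exch hp (x := o p) (by rw [h.toOM.sup_o]; exact le_top) h0
  have h2 : p ≤ a ⊔ o p := le_trans (le_inf ((h.toOM.le_cov p).trans hc) le_rfl) h1
  rw [← h.toOM.sup_o p]
  exact sup_le h2 le_sup_right

theorem aff_self (h : Geo o) (hp : Pt o p) : Aff o p p := by
  exact h.aff_of hp hp (h.inf_o p) le_rfl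

theorem aff_eq_of_le (h : Geo o) (hp : Pt o p) (ha : Aff o p a) (hb : Aff o p b) (hz : Cen o z)
    (hl : z ⊓ a ≤ b) : z ⊓ a = z ⊓ b := by
  refine h.toOM.pt_eq_of_cov (h.toOM.pt_mono hb.1 inf_le_right) (le_inf inf_le_left hl) ?_
  rw [h.toOM.cov_inf hz, h.toOM.cov_inf hz, h.aff_cov hp ha, h.aff_cov hp hb]

theorem t1_mix (h : Geo o) (hp : Pt o p) (hz : Cen o z) (ha : Pt o a) (hb : Pt o b)
    (ha0 : a ⊓ o p = ⊥) (hb0 : b ⊓ o p = ⊥) (hca : z ⊓ cov o p ≤ cov o a)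
    (hcb : o z ⊓ cov o p ≤ cov o b) : Aff o p (z ⊓ a ⊔ o z ⊓ b) := by
  refine h.aff_of hp (h.toOM.pt_mix2 hz ha hb) ?_ (h.toOM.le_of_cases hz ?_ ?_)
  · refine h.toOM.eq_of_cases hz ?_ ?_
    · rw [← inf_assoc, h.toOM.inf_mix2 hz, inf_assoc, ha0]
    · rw [← inf_assoc, h.toOM.o_inf_mix2 hz, inf_assoc, hb0]
  · refine le_trans ?_ (h.toOM.cov_mono le_sup_left)
    rw [h.toOM.cov_inf hz]
    exact le_inf inf_le_left hca
  · refine le_trans ?_ (h.toOM.cov_mono le_sup_right)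
    rw [h.toOM.cov_inf (h.toOM.cen_o hz)]
    exact le_inf inf_le_left hcb

theorem aff_mix2 (h : Geo o) (hp : Pt o p) (hz : Cen o z) (ha : Aff o p a) (hb : Aff o p b) :
    Aff o p (z ⊓ a ⊔ o z ⊓ b) := by
  refine h.t1_mix hp hz ha.1 hb.1 ha.2.inf_eq_bot hb.2.inf_eq_bot ?_ ?_
  · rw [h.aff_cov hp ha]; exact inf_le_right
  · rw [h.aff_cov hp hb]; exact inf_le_right

theorem aff_mix (h : Geo o) (hp : Pt o p) {S : Set L} (hS : Part o S) {f : L → L}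
    (hf : ∀ w ∈ S, Aff o p (f w)) : ∃ a, Aff o p a ∧ (∀ w ∈ S, w ⊓ a = w ⊓ f w) ∧
      o (sSup S) ⊓ a = o (sSup S) ⊓ p := by
  have hs : Cen o (sSup S) := h.toOM.cen_sSup hS.1
  have hm : Pt o (mix S f) :=
    h.toOM.pt_mix hS fun w hw => h.toOM.pt_mono (hf w hw).1 inf_le_right
  have h1 : ∀ w ∈ S, w ⊓ (sSup S ⊓ mix S f ⊔ o (sSup S) ⊓ p) = w ⊓ f w := by
    intro w hw
    have hw' : w ⊓ sSup S = w := inf_eq_left.2 (le_sSup hw)
    calc w ⊓ (sSup S ⊓ mix S f ⊔ o (sSup S) ⊓ p)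
        = w ⊓ (sSup S ⊓ (sSup S ⊓ mix S f ⊔ o (sSup S) ⊓ p)) := by rw [← inf_assoc, hw']
      _ = w ⊓ (sSup S ⊓ mix S f) := by rw [h.toOM.inf_mix2 hs]
      _ = w ⊓ mix S f := by rw [← inf_assoc, hw']
      _ = w ⊓ f w := h.toOM.inf_mix hS f hw
  have h2 : o (sSup S) ⊓ (sSup S ⊓ mix S f ⊔ o (sSup S) ⊓ p) = o (sSup S) ⊓ p :=
    h.toOM.o_inf_mix2 hs _ _
  refine ⟨sSup S ⊓ mix S f ⊔ o (sSup S) ⊓ p, ?_, h1, h2⟩
  refine h.aff_of hp (h.toOM.pt_mix2 hs hm hp) ?_ (le_of_eq ?_)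
  · refine h.toOM.eq_of_part hS (fun w hw => ?_) ?_
    · rw [← inf_assoc, h1 w hw, inf_assoc, (hf w hw).2.inf_eq_bot]
    · rw [← inf_assoc, h2, inf_assoc, h.inf_o p]
  · refine h.toOM.eq_of_part hS (fun w hw => ?_) ?_
    · rw [← h.toOM.cov_inf (hS.1 w hw) (_ ⊔ _), h1 w hw, h.toOM.cov_inf (hS.1 w hw),
        h.aff_cov hp (hf w hw)]
    · rw [← h.toOM.cov_inf (h.toOM.cen_o hs) (_ ⊔ _), h2, h.toOM.cov_inf (h.toOM.cen_o hs)]

/-- a point which misses the hyperplane is a part of an affine point -/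
theorem exists_aff (h : Geo o) (hp : Pt o p) (hx : Pt o x) (h0 : x ⊓ o p = ⊥) :
    ∃ a, Aff o p a ∧ x = cov o x ⊓ a := by
  have hz : Cen o (cov o x) := h.toOM.cen_cov x
  refine ⟨cov o x ⊓ x ⊔ o (cov o x) ⊓ p,
    h.t1_mix hp hz hx hp h0 (h.inf_o p) inf_le_left inf_le_right, ?_⟩
  rw [h.toOM.inf_mix2 hz]
  exact (inf_eq_right.2 (h.toOM.le_cov x)).symm

theorem dr_comm (o : L → L) (p a b : L) : dr o p a b = dr o p b a := by
  unfold dr
  rw [sup_comm]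

theorem dr_le (o : L → L) (p a b : L) : dr o p a b ≤ o p := by
  exact inf_le_right

theorem dr_pt (h : Geo o) (ha : Aff o p a) (hb : Aff o p b) : Pt o (dr o p a b) := by
  exact (h.veb' ha.1 hb.1 (y := o p) (by rw [ha.2.sup_eq_top]; exact le_top)
    ha.2.inf_eq_bot).1

theorem sup_dr (h : Geo o) (ha : Aff o p a) (hb : Aff o p b) : a ⊔ dr o p a b = a ⊔ b := by
  apply le_antisymm
  · exact sup_le le_sup_left inf_le_left
  · exact sup_le le_sup_left (h.veb' ha.1 hb.1 (y := o p)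
      (by rw [ha.2.sup_eq_top]; exact le_top) ha.2.inf_eq_bot).2

theorem dr_le_cov (h : Geo o) (hp : Pt o p) (ha : Aff o p a) (hb : Aff o p b) :
    dr o p a b ≤ cov o p := by
  refine le_trans inf_le_left (sup_le ?_ ?_)
  · rw [← h.aff_cov hp ha]; exact h.toOM.le_cov a
  · rw [← h.aff_cov hp hb]; exact h.toOM.le_cov b

theorem dr_loc (h : Geo o) (hp : Pt o p) (ha : Aff o p a) (hb : Aff o p b) (hz : Cen o z) :
    z ⊓ dr o p a b = ⊥ ↔ z ⊓ a = z ⊓ b := by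
  constructor
  · intro h0
    refine (h.aff_eq_of_le hp hb ha hz ?_).symm
    have h1 : b ≤ a ⊔ dr o p a b := by rw [h.sup_dr ha hb]; exact le_sup_right
    calc z ⊓ b ≤ z ⊓ (a ⊔ dr o p a b) := inf_le_inf_left z h1
      _ = z ⊓ a := by rw [h.toOM.inf_sup hz, h0, sup_bot_eq]
      _ ≤ a := inf_le_right
  · intro h0
    unfold dr
    rw [← inf_assoc, h.toOM.inf_sup hz, ← h0, sup_idem, inf_assoc, ha.2.inf_eq_bot, inf_bot_eq]

theorem dr_congr (h : Geo o) (hz : Cen o z) {a' b' : L} (ha : z ⊓ a = z ⊓ a')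
    (hb : z ⊓ b = z ⊓ b') : z ⊓ dr o p a b = z ⊓ dr o p a' b' := by
  unfold dr
  rw [← inf_assoc, ← inf_assoc, h.toOM.inf_sup hz, h.toOM.inf_sup hz, ha, hb]

theorem sup_inf_hyp (h : Geo o) (ha : Aff o p a) (hd : d ≤ o p) : (a ⊔ d) ⊓ o p = d := by
  rw [sup_comm, h.modular ha.1 hd, ha.2.inf_eq_bot, sup_bot_eq]

theorem dr_le_of (h : Geo o) (ha : Aff o p a) (hz : Cen o z) (hd : d ≤ o p)
    (hb : z ⊓ b ≤ a ⊔ d) : z ⊓ dr o p a b ≤ d := by
  rw [← h.sup_inf_hyp ha hd]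
  unfold dr
  rw [← inf_assoc, h.toOM.inf_sup hz]
  exact inf_le_inf_right _ (sup_le (inf_le_right.trans le_sup_left) hb)

theorem dr_tri (h : Geo o) (ha : Aff o p a) (hb : Aff o p b) (hc : Aff o p c) :
    dr o p a c ≤ dr o p a b ⊔ dr o p b c := by
  have hD : dr o p a b ⊔ dr o p b c ≤ o p := sup_le (dr_le o p a b) (dr_le o p b c)
  have h1 : b ≤ a ⊔ dr o p a b := by rw [h.sup_dr ha hb]; exact le_sup_right
  have h2 : c ≤ b ⊔ dr o p b c := by rw [h.sup_dr hb hc]; exact le_sup_right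
  have h3 : c ≤ a ⊔ (dr o p a b ⊔ dr o p b c) := by
    rw [← sup_assoc]
    exact h2.trans (sup_le_sup_right h1 _)
  have h4 := h.dr_le_of ha h.toOM.cen_top hD (b := c) (inf_le_right.trans h3)
  rwa [top_inf_eq] at h4

/-- distinct affine points have a direction of full cover -/
theorem cov_dr (h : Geo o) (hp : Pt o p) (ha : Aff o p a) (hb : Aff o p b) :
    cov o (dr o p a b) = cov o p ⊓ o (cov o (a ⊓ b)) := by
  have hu : Cen o (cov o (a ⊓ b)) := h.toOM.cen_cov _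
  have hv : Cen o (cov o (dr o p a b)) := h.toOM.cen_cov _
  apply le_antisymm
  · refine (h.toOM.cov_le_iff (h.toOM.cen_inf (h.toOM.cen_cov p) (h.toOM.cen_o hu))).2 ?_
    refine le_inf (h.dr_le_cov hp ha hb) ((h.toOM.le_o_iff hu).2 ?_)
    exact (h.dr_loc hp ha hb hu).2 (h.aff_eq_of_le hp ha hb hu (h.cov_inf_le ha.1 b))
  · refine h.toOM.le_of_o_inf hv ?_
    have h1 : o (cov o (dr o p a b)) ⊓ dr o p a b = ⊥ :=
      le_bot_iff.1 ((inf_le_inf_left _ (h.toOM.le_cov _)).trans (h.toOM.o_inf_self _).le)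
    have h2 := (h.dr_loc hp ha hb (h.toOM.cen_o hv)).1 h1
    have h3 : o (cov o (dr o p a b)) ⊓ a ≤ a ⊓ b :=
      le_inf inf_le_right (h2.le.trans inf_le_right)
    have h4 := h.toOM.cov_mono h3
    rw [h.toOM.cov_inf (h.toOM.cen_o hv), h.aff_cov hp ha] at h4
    rw [← inf_assoc]
    exact le_bot_iff.1 ((inf_le_inf_right _ h4).trans (h.inf_o _).le)

theorem cov_hyp (h : Geo o) (hp : Spatial o p) : cov o (o p) = ⊤ := by
  obtain ⟨-, q, r, -, -, hq, -, -, hc, -⟩ := hp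
  refine top_le_iff.1 ?_
  rw [← h.toOM.sup_o p]
  exact sup_le (hc _ (h.toOM.cen_cov _) (hq.trans (h.toOM.le_cov _))) (h.toOM.le_cov _)

theorem off_dir (h : Geo o) (hp : Spatial o p) (hd : Pt o d) :
    ∃ e, Pt o e ∧ e ≤ o p ∧ cov o e = cov o p ∧ e ⊓ d = ⊥ := by
  obtain ⟨hp, q, r, hq, hr, hq', hr', hqr, hcq, hcr⟩ := hp
  have hu : Cen o (cov o (q ⊓ d)) := h.toOM.cen_cov _
  have hcp : Cen o (cov o p) := h.toOM.cen_cov _
  have hcq' := h.toOM.cov_iff.1 hcq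
  have hcr' := h.toOM.cov_iff.1 hcr
  refine ⟨cov o p ⊓ (cov o (q ⊓ d) ⊓ r ⊔ o (cov o (q ⊓ d)) ⊓ q),
    h.toOM.pt_mono (h.toOM.pt_mix2 hu hr hq) inf_le_right, ?_, ?_, ?_⟩
  · exact inf_le_right.trans (sup_le (inf_le_right.trans hr') (inf_le_right.trans hq'))
  · rw [h.toOM.cov_inf hcp]
    refine inf_eq_left.2 (h.toOM.le_of_cases hu ?_ ?_)
    · refine le_trans ?_ (h.toOM.cov_mono le_sup_left)
      rw [h.toOM.cov_inf hu]
      exact inf_le_inf_left _ hcr'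
    · refine le_trans ?_ (h.toOM.cov_mono le_sup_right)
      rw [h.toOM.cov_inf (h.toOM.cen_o hu)]
      exact inf_le_inf_left _ hcq'
  · have h0 : cov o (q ⊓ d) ⊓ cov o (r ⊓ d) = ⊥ := by
      refine h.cov_disj hd inf_le_right inf_le_right (le_bot_iff.1 ?_)
      exact (inf_le_inf inf_le_left inf_le_left).trans (h.toOM.inf_eq_bot_of_perp hqr).le
    rw [inf_assoc]
    refine le_bot_iff.1 (inf_le_right.trans (h.toOM.le_of_cases hu ?_ ?_))
    · rw [← inf_assoc, h.toOM.inf_mix2 hu, inf_assoc]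
      exact (inf_le_inf_left _ (h.toOM.le_cov _)).trans h0.le
    · rw [← inf_assoc, h.toOM.o_inf_mix2 hu]
      exact (h.o_cov_inf q d).le

end Geo

namespace Proj

theorem aff_dir (h : Proj o) (hp : Pt o p) (ha : Aff o p a) (hd : Pt o d) (hd' : d ≤ o p) :
    ∃ c, Aff o p c ∧ dr o p a c = cov o p ⊓ d := by
  have hG := h.toGeo
  have hO := hG.toOM
  have had : a ⊓ d = ⊥ := le_bot_iff.1 ((inf_le_inf_left a hd').trans ha.2.inf_eq_bot.le)
  obtain ⟨c, hc, hcl, hcc, hca, hcd⟩ := h.third a d ha.1 hd had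
  have hz : Cen o (cov o d) := hO.cen_cov d
  have hc0 : c ⊓ o p = ⊥ := by
    refine le_bot_iff.1 (le_trans (le_inf inf_le_left ?_) hcd.le)
    rw [← hG.sup_inf_hyp ha hd']
    exact inf_le_inf_right _ hcl
  have hA : Aff o p (cov o d ⊓ c ⊔ o (cov o d) ⊓ a) := by
    refine hG.t1_mix hp hz hc ha.1 hc0 ha.2.inf_eq_bot ?_ ?_
    · rw [hcc, hG.aff_cov hp ha, inf_comm]
    · rw [hG.aff_cov hp ha]; exact inf_le_right
  refine ⟨_, hA, ?_⟩
  refine hO.pt_eq_of_cov (hO.pt_mono hd inf_le_right)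
    (le_inf (hG.dr_le_cov hp ha hA) (hO.le_of_cases hz ?_ ?_)) ?_
  · refine hG.dr_le_of ha hz hd' ?_
    rw [hO.inf_mix2 hz]
    exact inf_le_right.trans hcl
  · rw [(hG.dr_loc hp ha hA (hO.cen_o hz)).2 (hO.o_inf_mix2 hz c a).symm]
    exact bot_le
  · rw [hO.cov_inf (hO.cen_cov p), hG.cov_dr hp ha hA]
    refine inf_le_inf_left _ ((hO.le_o_iff (hO.cen_cov _)).2 ?_)
    rw [inf_comm, ← hO.inf_eq_bot_iff hz, inf_left_comm, hO.inf_mix2 hz]
    refine le_bot_iff.1 (le_trans ?_ hca.le)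
    exact le_inf (inf_le_right.trans inf_le_right) inf_le_left

theorem off_pt (h : Proj o) (hp : Spatial o p) (ha : Aff o p a) (hd : Pt o d) (hd' : d ≤ o p) :
    ∃ c, Aff o p c ∧ c ⊓ (a ⊔ d) = ⊥ := by
  have hG := h.toGeo
  have hO := hG.toOM
  obtain ⟨e, he, he', hec, hed⟩ := hG.off_dir hp hd
  obtain ⟨c, hc, hdr⟩ := h.aff_dir hp.1 ha he he'
  refine ⟨c, hc, hO.cov_eq_bot.1 ?_⟩
  have hz : Cen o (cov o (c ⊓ (a ⊔ d))) := hO.cen_cov _
  have h1 := hG.dr_le_of ha hz hd' (hG.cov_inf_le hc.1 (a ⊔ d))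
  rw [hdr, ← hec, inf_eq_right.2 (hO.le_cov e)] at h1
  have h2 : cov o (c ⊓ (a ⊔ d)) ⊓ e = ⊥ :=
    le_bot_iff.1 (le_trans (le_inf inf_le_right h1) hed.le)
  rw [hO.inf_eq_bot_iff hz, hec, ← hG.aff_cov hp.1 hc] at h2
  rw [← h2]
  exact (inf_eq_left.2 (hO.cov_mono inf_le_left)).symm

end Proj

end Pool.Agent.P.MP_d8da86_an.CR
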