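import Pool.Agent.P.MP_d8da86_an.C.T1b

/-!
Translations.
Hints. `trOn_fix`: off cov d every affine point is fixed. Below cov d take c1 off the line
f ⊔ d (`off_pt`); g c1 ≤ (c1 ⊔ d) ⊓ (f ⊔ c1) = c1 locally, then `two_fix`.
`IsTr.dr_eq`: both sides lie below d and have the same cover by `trOn_fix`.
`IsTr.uniq`: where g f = f both are the identity; elsewhere both have the direction
D = dr f (g f), so g.trans k.symm satisfies TrOn for D and fixes f.
`IsTr.trans`: D = dr p (k (g p)); show TrOn ⊤ D with `loc_le`. If the product has a fixed affine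
point f below some nonzero w ≤ z then g = k.symm below w by `uniq`. Otherwise let
D' = dr a (k (g a)), z ≤ cov D, cov D'. If w ⊓ D' ⊓ D = ⊥ then D' ≤ dr p a ⊔ D, `exch` gives
w ⊓ a ≤ D' ⊔ (p ⊔ D), and `veb'` gives the point f = w ⊓ (a ⊔ D') ⊓ (p ⊔ D) which is fixed, misses
o p and has cover w: contradiction with `exists_aff`.
`IsTr.comm`: the commutator is a translation with direction below both directions. Where the
directions agree use a third translation t with another direction: g commutes with t and with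
k t.
-/

open scoped InnerProductSpace ComplexConjugate

set_option linter.unusedSectionVars false
set_option linter.unusedVariables false

noncomputable section

namespace Pool.Agent.P.MP_d8da86_an.CR

universe u

variable {L : Type*} [CompleteLattice L] {o : L → L} {a b c d f x y z w p : L} {g k : L ≃o L}

/-- two different lines through `c` meet only in `c` -/
theorem t2_meet (h : Geo o) (hc : Pt o c) (hd : Pt o d) (hf : Aff o p f) (hd' : d ≤ o p)
    (h0 : c ⊓ (f ⊔ d) = ⊥) : (c ⊔ d) ⊓ (c ⊔ f) = c := by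
  have hO : OM o := h.toOM
  rw [h.modular hd (le_sup_left : c ≤ c ⊔ f)]
  have t0 : d ⊓ (c ⊔ f) ⊓ f = ⊥ := by
    rw [eq_bot_iff, ← hf.2.inf_eq_bot]
    exact le_inf inf_le_right (inf_le_left.trans (inf_le_left.trans hd'))
  have t1 := h.exch hc (inf_le_right : d ⊓ (c ⊔ f) ≤ c ⊔ f) t0
  have t2 := h.cov_le_of_le_sup (inf_le_right : d ⊓ (c ⊔ f) ≤ c ⊔ f) t0
  have t3 : cov o (d ⊓ (c ⊔ f)) ⊓ c = ⊥ := by
    rw [eq_bot_iff, ← h0]
    refine le_inf inf_le_right (t1.trans ?_)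
    exact sup_le (inf_le_left.trans le_sup_right) le_sup_left
  rw [hO.inf_eq_bot_iff (hO.cen_cov _), inf_eq_left.2 t2, hO.cov_eq_bot] at t3
  rw [t3, sup_bot_eq]

theorem trOn_fix (h : Proj o) (hp : Spatial o p) (hg : Ax o p g) (hz : Cen o z) (hd : Pt o d)
    (hd' : d ≤ o p) (ht : TrOn o p z g d) (hf : Aff o p f) (h1 : z ⊓ g f = z ⊓ f) (x : L) :
    z ⊓ g x = z ⊓ x := by
  have hG : Geo o := h.toGeo
  have hO : OM o := hG.toOM
  obtain ⟨c, hc, hc0⟩ := h.off_pt hp hf hd hd'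
  have e1 : z ⊓ g c ≤ c ⊔ d := ht c hc
  have e2 : z ⊓ g c ≤ c ⊔ f := by
    calc z ⊓ g c ≤ z ⊓ (g f ⊔ dr o p f c) := inf_le_inf_left _ (hg.le_sup hG hf hc)
      _ = z ⊓ f ⊔ z ⊓ dr o p f c := by rw [hO.inf_sup hz, h1]
      _ ≤ f ⊔ dr o p f c := sup_le_sup inf_le_right inf_le_right
      _ = c ⊔ f := by rw [hG.sup_dr hf hc, sup_comm]
  have e3 : z ⊓ g c ≤ c := (le_inf e1 e2).trans (t2_meet hG hc.1 hd hf hd' hc0).le
  have e4 := hG.aff_eq_of_le hp.1 (hg.aff hG hc) hc hz e3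
  refine hg.two_fix h hp hz hf hc h1 e4 ?_ x
  rw [eq_bot_iff, ← hc0]
  exact le_inf inf_le_right (inf_le_left.trans (inf_le_right.trans le_sup_left))

namespace IsTr

theorem refl (h : Proj o) (p : L) : IsTr o p (OrderIso.refl L) := by
  refine ⟨Ax.refl o p, ⊥, h.toGeo.toOM.pt_bot, bot_le, fun a _ => ?_⟩
  simp

theorem dr_eq (hg : IsTr o p g) (h : Proj o) (hp : Spatial o p) (ha : Aff o p a)
    (hb : Aff o p b) : dr o p a (g a) = dr o p b (g b) := by
  have hG : Geo o := h.toGeo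
  have hO : OM o := hG.toOM
  obtain ⟨hx, d, hd, hd', ht⟩ := hg
  have k1 : ∀ a, Aff o p a → dr o p a (g a) ≤ d := fun a ha => by
    have := hG.dr_le_of ha hO.cen_top hd' (ht a ha)
    rwa [top_inf_eq] at this
  have k2 : ∀ a b, Aff o p a → Aff o p b →
      cov o (dr o p b (g b)) ≤ cov o (dr o p a (g a)) := fun a b ha hb => by
    have hv : Cen o (o (cov o (dr o p a (g a)))) := hO.cen_o (hO.cen_cov _)
    have e1 : o (cov o (dr o p a (g a))) ⊓ dr o p a (g a) = ⊥ := by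
      rw [← hO.le_o_iff hv, hO.oo]
      exact hO.le_cov _
    have e2 := (hG.dr_loc hp.1 ha (hx.aff hG ha) hv).1 e1
    have e3 := trOn_fix h hp hx hv hd hd'
      (fun c hc => (inf_le_inf_right _ le_top).trans (ht c hc)) ha e2.symm b
    have e4 := (hG.dr_loc hp.1 hb (hx.aff hG hb) hv).2 e3.symm
    rw [hO.cov_le_iff (hO.cen_cov _)]
    exact hO.le_of_o_inf (hO.cen_cov _) e4
  rw [hO.pt_eq hd (k1 a ha), hO.pt_eq hd (k1 b hb), le_antisymm (k2 b a hb ha) (k2 a b ha hb)]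

theorem symm (hg : IsTr o p g) (h : Proj o) : IsTr o p g.symm := by
  have hG : Geo o := h.toGeo
  have hO : OM o := hG.toOM
  obtain ⟨hx, d, hd, hd', ht⟩ := hg
  refine ⟨hx.symm, d, hd, hd', fun a ha => ?_⟩
  have ha' : Aff o p (g.symm a) := hx.symm.aff hG ha
  have e1 := hG.dr_le_of ha' hO.cen_top hd' (ht _ ha')
  rw [top_inf_eq, g.apply_symm_apply, Geo.dr_comm] at e1
  calc ⊤ ⊓ g.symm a ≤ a ⊔ g.symm a := inf_le_right.trans le_sup_right
    _ = a ⊔ dr o p a (g.symm a) := (hG.sup_dr ha ha').symm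
    _ ≤ a ⊔ d := sup_le_sup_left e1 _

theorem conj_ax (hg : IsTr o p g) (hk : Ax o p k) (h : Proj o) :
    IsTr o p ((k.symm.trans g).trans k) := by
  have hG : Geo o := h.toGeo
  obtain ⟨hx, d, hd, hd', ht⟩ := hg
  refine ⟨(hk.symm.trans hx).trans hk, d, hd, hd', fun a ha => ?_⟩
  have e1 := ht _ (hk.symm.aff hG ha)
  rw [top_inf_eq] at e1 ⊢
  have e2 := k.monotone e1
  rwa [k.map_sup, k.apply_symm_apply, hk d hd'] at e2

theorem uniq (hg : IsTr o p g) (hk : IsTr o p k) (h : Proj o) (hp : Spatial o p) (hz : Cen o z)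
    (hf : Aff o p f) (h1 : z ⊓ g f = z ⊓ k f) (x : L) : z ⊓ g x = z ⊓ k x := by
  have hG : Geo o := h.toGeo
  have hO : OM o := hG.toOM
  have hD : z ⊓ dr o p f (g f) = z ⊓ dr o p f (k f) := hG.dr_congr hz rfl h1
  have ht : TrOn o p z (g.trans k.symm) (dr o p f (g f)) := by
    intro a ha
    have hb : Aff o p (g a) := hg.1.aff hG ha
    have hc : Aff o p (k.symm (g a)) := hk.1.symm.aff hG hb
    have e1 : g a ≤ a ⊔ dr o p f (g f) := by
      rw [← hg.dr_eq h hp ha hf, hG.sup_dr ha hb]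
      exact le_sup_right
    have e2 : k.symm (g a) ≤ g a ⊔ dr o p f (k f) := by
      rw [← hk.dr_eq h hp hc hf, k.apply_symm_apply, Geo.dr_comm, hG.sup_dr hb hc]
      exact le_sup_right
    calc z ⊓ k.symm (g a) ≤ z ⊓ (g a ⊔ dr o p f (k f)) := inf_le_inf_left _ e2
      _ = z ⊓ g a ⊔ z ⊓ dr o p f (g f) := by rw [hO.inf_sup hz, hD]
      _ ≤ a ⊔ dr o p f (g f) :=
          sup_le (inf_le_right.trans e1) (inf_le_right.trans le_sup_right)
  have e3 : z ⊓ (g.trans k.symm) f = z ⊓ f := by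
    change z ⊓ k.symm (g f) = z ⊓ f
    rw [← hk.1.symm.map_loc hG hp hz, h1, hk.1.symm.map_loc hG hp hz, k.symm_apply_apply]
  have e4 : z ⊓ k.symm (g x) = z ⊓ x :=
    trOn_fix h hp (hg.1.trans hk.1.symm) hz (hG.dr_pt hf (hg.1.aff hG hf)) (Geo.dr_le o p _ _)
      ht hf e3 x
  have e5 := congrArg k e4
  rwa [hk.1.map_loc hG hp hz, hk.1.map_loc hG hp hz, k.apply_symm_apply] at e5

end IsTr

end Pool.Agent.P.MP_d8da86_an.CR
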