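import Pool.Agent.P.MP_d8da86_an.C.T2

/-!
Translations.
Hints. `trOn_fix`: off cov d every affine point is fixed. Below cov d take c1 off the line
f ⊔ d (`off_pt`); g c1 ≤ (c1 ⊔ d) ⊓ (f ⊔ c1) = c1 locally, then `two_fix`.
`IsTr.dr_eq`: both sides lie below d and have the same cover by `trOn_fix`.
`IsTr.uniq`: where g f = f both are the identity; elsewhere both have the direction
D = dr f (g f), so g.trans k.symm satisfies TrOn for D and fixes f.
`IsTr.trans`: D = dr p (k (g p)); show TrOn ⊤ D with `loc_le`. If the product has a fixed affine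
point f below some nonzero w ≤ z then g = k.symm below w by `uniq`. Otherwise let
D' = dr a (k (g a)), z ≤ cov D, cov D'. If w ⊓ D' ⊓ D = ⊥ then D' ≤ dr p a ⊔ D, `exch` gives
w ⊓ a ≤ D' ⊔ (p ⊔ D), and `veb'` gives the point f = w ⊓ (a ⊔ D') ⊓ (p ⊔ D) which is fixed, misses
o p and has cover w: contradiction with `exists_aff`.
`IsTr.comm`: the commutator is a translation with direction below both directions. Where the
directions agree use a third translation t with another direction: g commutes with t and with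
k t.
-/

open scoped InnerProductSpace ComplexConjugate

set_option linter.unusedSectionVars false
set_option linter.unusedVariables false

noncomputable section

namespace Pool.Agent.P.MP_d8da86_an.CR

universe u

variable {L : Type*} [CompleteLattice L] {o : L → L} {a b c d f x y z w p : L} {g k : L ≃o L}

namespace IsTr

theorem trans (hg : IsTr o p g) (hk : IsTr o p k) (h : Proj o) (hp : Spatial o p) :
    IsTr o p (g.trans k) := by
  have G := h.toGeo
  have M := G.toOM
  have hpp : Pt o p := hp.1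
  have hu : Ax o p (g.trans k) := hg.1.trans hk.1
  have ap : Aff o p p := G.aff_self hpp
  have hline : ∀ c, Aff o p c →
      (g.trans k) (c ⊔ dr o p c ((g.trans k) c)) = c ⊔ dr o p c ((g.trans k) c) := by
    intro c hc
    have huc := hu.aff G hc
    rw [OrderIso.map_sup, hu _ (Geo.dr_le o p _ _), G.sup_dr hc huc,
      Geo.dr_comm o p c, G.sup_dr huc hc, sup_comm]
  refine ⟨hu, dr o p p ((g.trans k) p), G.dr_pt ap (hu.aff G ap), Geo.dr_le o p _ _, ?_⟩
  intro a ha
  rw [top_inf_eq]
  have hua := hu.aff G ha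
  have hup := hu.aff G ap
  refine M.loc_le fun z hz hz0 hzc => ?_
  rw [G.aff_cov hpp hua] at hzc
  by_cases hfix : ∃ w f, Cen o w ∧ w ≠ ⊥ ∧ w ≤ z ∧ Aff o p f ∧ w ⊓ (g.trans k) f = w ⊓ f
  · obtain ⟨w, f, hw, hw0, hwz, hf, he⟩ := hfix
    refine ⟨w, hw, hw0, hwz, ?_⟩
    have e1 : w ⊓ g f = w ⊓ k.symm f := by
      have := congrArg k.symm he
      rw [hk.1.symm.map_loc G hp hw, hk.1.symm.map_loc G hp hw] at this
      simpa using this
    have e2 := hg.uniq (hk.symm h) h hp hw hf e1 a
    have e3 : w ⊓ (g.trans k) a = w ⊓ a := by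
      have := congrArg k e2
      rw [hk.1.map_loc G hp hw, hk.1.map_loc G hp hw] at this
      simpa using this
    rw [e3]
    exact inf_le_right.trans le_sup_left
  · obtain ⟨w, hw, hw0, hwz, hcase⟩ :=
      G.pt_dich (G.dr_pt ha hua) (dr o p p ((g.trans k) p)) hz hz0
    have hale : (g.trans k) a ≤ a ⊔ dr o p a ((g.trans k) a) := by
      rw [G.sup_dr ha hua]; exact le_sup_right
    rcases hcase with h1 | ⟨h1, h2⟩
    · refine ⟨w, hw, hw0, hwz, ?_⟩
      refine (inf_le_inf_left w hale).trans ?_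
      rw [M.inf_sup hw]
      exact sup_le_sup inf_le_right h1
    · exfalso
      apply hfix
      set D := dr o p p ((g.trans k) p) with hD
      set D' := dr o p a ((g.trans k) a) with hD'
      have hDo : D ≤ o p := Geo.dr_le o p _ _
      have hD'o : D' ≤ o p := Geo.dr_le o p _ _
      have hD'pt : Pt o D' := G.dr_pt ha hua
      have t1 : D' ≤ dr o p p a ⊔ D := by
        have a1 := G.dr_tri ha ap hua
        have a2 := G.dr_tri ap hup hua
        rw [hu.dr_map] at a2
        rw [Geo.dr_comm o p a p] at a1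
        exact a1.trans (sup_le le_sup_left (a2.trans (sup_le le_sup_right le_sup_left)))
      have t2 : w ⊓ dr o p p a ≤ w ⊓ D' ⊔ D := by
        have := G.exch (G.dr_pt ap ha) (inf_le_right.trans t1 : w ⊓ D' ≤ _) h2
        rwa [M.cov_inf hw, inf_eq_left.2 h1] at this
      have t3 : w ⊓ a ≤ w ⊓ D' ⊔ (p ⊔ D) := by
        have a1 : a ≤ p ⊔ dr o p p a := by rw [G.sup_dr ap ha]; exact le_sup_right
        refine (inf_le_inf_left w a1).trans ?_
        rw [M.inf_sup hw]
        refine sup_le (inf_le_right.trans (le_sup_left.trans le_sup_right)) (t2.trans ?_)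
        exact sup_le_sup_left le_sup_right _
      have t4 : w ⊓ D' ⊓ (p ⊔ D) = ⊥ := by
        refine le_bot_iff.1 (le_trans ?_ h2.le)
        refine le_inf inf_le_left ?_
        refine le_trans ?_ (G.sup_inf_hyp ap hDo).le
        exact le_inf inf_le_right (inf_le_left.trans (inf_le_right.trans hD'o))
      obtain ⟨hf0, hf1⟩ := G.veb' (M.pt_mono hD'pt inf_le_right) (M.pt_mono ha.1 inf_le_right) t3 t4
      set f₀ := (w ⊓ D' ⊔ w ⊓ a) ⊓ (p ⊔ D) with hf₀
      have t5 : f₀ ⊓ o p = ⊥ := by
        refine le_bot_iff.1 (le_trans ?_ h2.le)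
        refine le_inf ?_ ?_
        · rw [← G.sup_inf_hyp ha (inf_le_right.trans hD'o : w ⊓ D' ≤ o p)]
          exact inf_le_inf_right _
            (inf_le_left.trans (sup_le le_sup_right (inf_le_right.trans le_sup_left)))
        · rw [← G.sup_inf_hyp ap hDo]
          exact inf_le_inf_right _ inf_le_right
      have t6 : f₀ ≠ ⊥ := by
        intro h0
        rw [h0, sup_bot_eq] at hf1
        have a1 : w ⊓ a = ⊥ := by
          refine le_bot_iff.1 (le_trans ?_ ha.2.inf_eq_bot.le)
          exact le_inf inf_le_right (hf1.trans (inf_le_right.trans hD'o))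
        rw [M.inf_eq_bot_iff hw, G.aff_cov hpp ha, inf_eq_left.2 (hwz.trans hzc)] at a1
        exact hw0 a1
      have t7 : f₀ ≤ w := inf_le_left.trans (sup_le inf_le_left inf_le_left)
      have t8 : (g.trans k) f₀ = f₀ := by
        have e : w ⊓ D' ⊔ w ⊓ a = w ⊓ (a ⊔ D') := by rw [M.inf_sup hw, sup_comm]
        rw [hf₀, e, OrderIso.map_inf, hu.map_loc G hp hw, hline a ha, hline p ap]
      obtain ⟨f, hf, hfe⟩ := G.exists_aff hpp hf0 t5
      refine ⟨cov o f₀, f, M.cen_cov _, fun h0 => t6 (M.cov_eq_bot.1 h0),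
        ((M.cov_le_iff hw).2 t7).trans hwz, hf, ?_⟩
      rw [← hu.map_loc G hp (M.cen_cov _), ← hfe, t8]

end IsTr

theorem ElAx.exists_tr (he : ElAx o p) (h : Proj o) (ha : Aff o p a) (hb : Aff o p b) :
    ∃ g, IsTr o p g ∧ g a = b := by
  obtain ⟨g, hg, hab, hx⟩ := he a b ha hb
  refine ⟨g, ⟨hg, dr o p a b, h.toGeo.dr_pt ha hb, Geo.dr_le o p a b, fun c _ => ?_⟩, hab⟩
  rw [top_inf_eq, ← hx (c ⊔ dr o p a b) le_sup_right]
  exact g.monotone le_sup_left

theorem t2b_comm_loc (hg : IsTr o p g) (hk : IsTr o p k) (h : Proj o) (hp : Spatial o p)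
    (hw : Cen o w) (h0 : w ⊓ dr o p p (g p) ⊓ dr o p p (k p) = ⊥) (x : L) :
    w ⊓ g (k x) = w ⊓ k (g x) := by
  have G := h.toGeo
  have hpp : Pt o p := hp.1
  have ap : Aff o p p := G.aff_self hpp
  have agp := hg.1.aff G ap
  have akp := hk.1.aff G ap
  have hA := hg.1.aff G akp
  have hB := hk.1.aff G agp
  have t1 : dr o p (g (k p)) (k (g p)) ≤ dr o p p (k p) := by
    have := G.dr_tri hA agp hB
    rwa [hg.1.dr_map, hk.dr_eq h hp agp ap, Geo.dr_comm o p (k p) p, sup_idem] at this
  have t2 : dr o p (g (k p)) (k (g p)) ≤ dr o p p (g p) := by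
    have := G.dr_tri hA akp hB
    rwa [hk.1.dr_map, Geo.dr_comm o p (g (k p)) (k p), hg.dr_eq h hp akp ap, sup_idem] at this
  have t3 : w ⊓ dr o p (g (k p)) (k (g p)) = ⊥ := by
    refine le_bot_iff.1 (le_trans ?_ h0.le)
    exact le_inf (inf_le_inf_left w t2) (inf_le_right.trans t1)
  exact (hk.trans hg h hp).uniq (hg.trans hk h hp) h hp hw ap
    ((G.dr_loc hpp hA hB hw).1 t3) x

theorem IsTr.comm (hg : IsTr o p g) (hk : IsTr o p k) (h : Proj o) (hp : Spatial o p)
    (he : ElAx o p) (x : L) : g (k x) = k (g x) := by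
  have G := h.toGeo
  have M := G.toOM
  have hpp : Pt o p := hp.1
  have ap : Aff o p p := G.aff_self hpp
  have agp := hg.1.aff G ap
  have akp := hk.1.aff G ap
  refine M.loc_eq fun z hz hz0 => ?_
  obtain ⟨w, hw, hw0, hwz, hcase⟩ := G.pt_dich (G.dr_pt ap akp) (dr o p p (g p)) hz hz0
  refine ⟨w, hw, hw0, hwz, ?_⟩
  rcases hcase with h1 | ⟨-, h2⟩
  · obtain ⟨e, he1, he2, he3, he4⟩ := G.off_dir hp (G.dr_pt ap agp)
    obtain ⟨c, hc, hce⟩ := h.aff_dir hpp ap he1 he2
    rw [inf_eq_right.2 (he3 ▸ M.le_cov e)] at hce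
    obtain ⟨t, ht, htp⟩ := he.exists_tr h ap hc
    have atp : Aff o p (t p) := ht.1.aff G ap
    have aktp : Aff o p (k (t p)) := hk.1.aff G atp
    have hte : dr o p p (t p) = e := by rw [htp, hce]
    have c1 : ∀ y, g (t y) = t (g y) := by
      intro y
      have := t2b_comm_loc hg ht h hp M.cen_top
        (by rw [top_inf_eq, hte, inf_comm, he4]) y
      simpa using this
    have c2 : w ⊓ dr o p p (g p) ⊓ dr o p p (k (t p)) = ⊥ := by
      set s := dr o p p (k (t p)) ⊓ (w ⊓ dr o p p (g p)) with hs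
      have hcs : Cen o (cov o s) := M.cen_cov s
      have a1 : cov o s ⊓ dr o p p (k (t p)) ≤ w ⊓ dr o p p (g p) :=
        G.cov_inf_le (G.dr_pt ap aktp) _
      have a2 : cov o s ≤ w := (M.cov_le_iff hw).2 (inf_le_right.trans inf_le_left)
      have a3 : e ≤ dr o p p (k (t p)) ⊔ dr o p p (k p) := by
        have := G.dr_tri ap aktp atp
        rwa [hte, Geo.dr_comm o p (k (t p)) (t p), hk.dr_eq h hp atp ap] at this
      have a4 : cov o s ⊓ e = ⊥ := by
        refine le_bot_iff.1 (le_trans ?_ he4.le)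
        refine le_inf inf_le_right ((inf_le_inf_left _ a3).trans ?_)
        rw [M.inf_sup hcs]
        exact sup_le (a1.trans inf_le_right) ((inf_le_inf_right _ a2).trans h1)
      have a5 : cov o s ≤ cov o p :=
        (M.cov_le_iff (M.cen_cov p)).2 (inf_le_left.trans (G.dr_le_cov hpp ap aktp))
      rw [M.inf_eq_bot_iff hcs, he3, inf_eq_left.2 a5, M.cov_eq_bot] at a4
      rw [inf_comm]
      exact a4
    have c3 := t2b_comm_loc hg (ht.trans hk h hp) h hp hw c2 (t.symm x)
    simp only [OrderIso.trans_apply, OrderIso.apply_symm_apply] at c3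
    rw [c3, ← c1, OrderIso.apply_symm_apply]
  · exact t2b_comm_loc hg hk h hp hw (by rw [inf_right_comm]; exact h2) x

end Pool.Agent.P.MP_d8da86_an.CR
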