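import Pool.Agent.P.MP_d8da86_an.C.T2b

/-!
The group of translations, and first facts on directions.
Hints. `exists_TM`: V = Additive of the subgroup of translations in L ≃o L, aff t = t p,
dr (s p) (t p) = dr ((s - t) p) p by `Ax.dr_map`, hom by conjugation.
`TM.exists_loc`: loc v is the vector of the affine point z ⊓ aff v ⊔ o z ⊓ p; for additivity the
defect has direction below z and below o z. `TM.span2`: aff u ≤ dir w ⊔ (p ⊔ dir v), `veb` gives a
point f ≤ p ⊔ dir v with aff u ≤ dir w ⊔ f; f is affine.
-/

open scoped InnerProductSpace ComplexConjugate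

set_option linter.unusedSectionVars false
set_option linter.unusedVariables false

noncomputable section

namespace Pool.Agent.P.MP_d8da86_an.CR

universe u

/-- the group of translations -/
def t3_grp {L : Type u} [CompleteLattice L] {o : L → L} {p : L} (h : Proj o)
    (hp : Spatial o p) : Subgroup (L ≃o L) where
  carrier := {g | IsTr o p g}
  one_mem' := IsTr.refl h p
  mul_mem' := fun hg hk => IsTr.trans hk hg h hp
  inv_mem' := fun hg => IsTr.symm hg h

/-- conjugation of translations by an axial automorphism -/
def t3_conj {L : Type u} [CompleteLattice L] {o : L → L} {p : L} (h : Proj o)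
    (hp : Spatial o p) {g : L ≃o L} (hg : Ax o p g) : t3_grp h hp →* t3_grp h hp where
  toFun t := ⟨g * t.1 * g⁻¹, IsTr.conj_ax t.2 hg h⟩
  map_one' := Subtype.ext (by simp)
  map_mul' s t := Subtype.ext (by simp [mul_assoc])

theorem exists_TM {L : Type u} [CompleteLattice L] {o : L → L} {p : L} (h : Proj o)
    (hp : Spatial o p) (he : ElAx o p) :
    ∃ (V : Type u) (_ : AddCommGroup V) (aff : V → L), TM o p aff := by
  have hcomm : ∀ s t : t3_grp h hp, s * t = t * s := fun s t =>
    Subtype.ext (OrderIso.ext (funext fun x => IsTr.comm s.2 t.2 h hp he x))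
  let _ : CommGroup (t3_grp h hp) :=
    { (inferInstance : Group (t3_grp h hp)) with mul_comm := hcomm }
  have hpp : Aff o p p := h.toGeo.aff_self hp.1
  refine ⟨Additive (t3_grp h hp), inferInstance, fun v => (Additive.toMul v).1 p,
    rfl, ?_, ?_, ?_, ?_, ?_⟩
  · intro v
    exact Ax.aff (Additive.toMul v).2.1 h.toGeo hpp
  · intro a ha
    obtain ⟨g, hg, hga⟩ := he.exists_tr h hpp ha
    exact ⟨Additive.ofMul ⟨g, hg⟩, hga⟩
  · intro v hv
    have key := IsTr.uniq (Additive.toMul v).2 (IsTr.refl h p) h hp h.toOM.cen_top hpp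
      (congrArg (⊤ ⊓ ·) hv)
    have e : Additive.toMul v = 1 := Subtype.ext (OrderIso.ext (funext fun x => by
      have := key x
      rwa [top_inf_eq, top_inf_eq] at this))
    exact e
  · intro u v
    have e1 : Additive.toMul (u - v) = (Additive.toMul v)⁻¹ * Additive.toMul u := by
      rw [toMul_sub, div_eq_mul_inv, hcomm]
    have e2 := Ax.dr_map (IsTr.symm (Additive.toMul v).2 h).1 ((Additive.toMul u).1 p)
      ((Additive.toMul v).1 p)
    rw [OrderIso.symm_apply_apply] at e2
    simp only [e1]
    exact e2.symm
  · intro g hg hgp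
    refine ⟨MonoidHom.toAdditive (t3_conj h hp hg), fun v => ?_⟩
    have e : g.symm p = p := by rw [OrderIso.symm_apply_eq, hgp]
    change g ((Additive.toMul v).1 p) = g ((Additive.toMul v).1 (g.symm p))
    rw [e]

end Pool.Agent.P.MP_d8da86_an.CR
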