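import Pool.Agent.P.MP_d8da86_an.C.T3

/-!
The group of translations, and first facts on directions.
Hints. `exists_TM`: V = Additive of the subgroup of translations in L ≃o L, aff t = t p,
dr (s p) (t p) = dr ((s - t) p) p by `Ax.dr_map`, hom by conjugation.
`TM.exists_loc`: loc v is the vector of the affine point z ⊓ aff v ⊔ o z ⊓ p; for additivity the
defect has direction below z and below o z. `TM.span2`: aff u ≤ dir w ⊔ (p ⊔ dir v), `veb` gives a
point f ≤ p ⊔ dir v with aff u ≤ dir w ⊔ f; f is affine.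
-/

open scoped InnerProductSpace ComplexConjugate

set_option linter.unusedSectionVars false
set_option linter.unusedVariables false

noncomputable section

namespace Pool.Agent.P.MP_d8da86_an.CR

universe u

variable {L : Type*} [CompleteLattice L] {o : L → L} {p z d : L} {V : Type*} [AddCommGroup V]
  {aff : V → L} {u v w : V}

namespace TM

theorem dir_pt (M : TM o p aff) (h : Geo o) (hp : Pt o p) (v : V) : Pt o (dr o p (aff v) p) := by
  exact h.dr_pt (M.isAff v) (h.aff_self hp)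

theorem dir_zero (M : TM o p aff) (h : Geo o) : dr o p (aff 0) p = ⊥ := by
  rw [M.zero, dr, sup_idem, h.inf_o]

theorem eq_zero (M : TM o p aff) (h : Geo o) (hp : Pt o p) (h0 : dr o p (aff v) p = ⊥) :
    v = 0 := by
  refine M.inj v ?_
  have := (h.dr_loc hp (M.isAff v) (h.aff_self hp) h.toOM.cen_top).1 (by rw [h0, inf_bot_eq])
  simpa using this

theorem aff_inj (M : TM o p aff) (h : Geo o) (hp : Pt o p) : Function.Injective aff := by
  intro u v huv
  refine sub_eq_zero.1 (M.eq_zero h hp ?_)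
  rw [← M.dr_eq, huv, M.dr_eq, sub_self, M.dir_zero h]

theorem dir_neg (M : TM o p aff) (v : V) : dr o p (aff (-v)) p = dr o p (aff v) p := by
  rw [← zero_sub, ← M.dr_eq, M.zero, Geo.dr_comm]

theorem dir_add (M : TM o p aff) (h : Geo o) (u v : V) :
    dr o p (aff (u + v)) p ≤ dr o p (aff u) p ⊔ dr o p (aff v) p := by
  have h1 := h.dr_tri (M.isAff (u + v)) (M.isAff v) (M.isAff 0)
  rwa [M.dr_eq (u + v) v, add_sub_cancel_right, M.zero] at h1

theorem aff_add_le (M : TM o p aff) (h : Geo o) (u v : V) :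
    aff (u + v) ≤ aff u ⊔ dr o p (aff v) p := by
  have h1 := h.sup_dr (M.isAff u) (M.isAff (u + v))
  rw [M.dr_eq, sub_add_cancel_left, M.dir_neg] at h1
  rw [h1]
  exact le_sup_right

theorem loc_iff (M : TM o p aff) (h : Geo o) (hp : Pt o p) (hz : Cen o z) :
    z ⊓ dr o p (aff (u - v)) p = ⊥ ↔ z ⊓ aff u = z ⊓ aff v := by
  rw [← M.dr_eq]
  exact h.dr_loc hp (M.isAff u) (M.isAff v) hz

theorem dir_surj (M : TM o p aff) (h : Proj o) (hp : Pt o p) (hd : Pt o d) (hd' : d ≤ o p) :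
    ∃ v, dr o p (aff v) p = cov o p ⊓ d := by
  obtain ⟨c, hc, he⟩ := h.aff_dir hp (h.toGeo.aff_self hp) hd hd'
  obtain ⟨v, rfl⟩ := M.surj c hc
  exact ⟨v, by rw [Geo.dr_comm, he]⟩

/-- a vector of full support which is nowhere parallel to `d` -/
theorem exists_off (M : TM o p aff) (h : Proj o) (hp : Spatial o p) (hd : Pt o d) :
    ∃ v, cov o (dr o p (aff v) p) = cov o p ∧ dr o p (aff v) p ⊓ d = ⊥ := by
  obtain ⟨e, he, h1, h2, h3⟩ := h.toGeo.off_dir hp hd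
  obtain ⟨v, hv⟩ := M.dir_surj h hp.1 he h1
  have h4 : cov o p ⊓ e = e := inf_eq_right.2 (h2 ▸ h.toOM.le_cov e)
  exact ⟨v, by rw [hv, h4, h2], by rw [hv, h4, h3]⟩

theorem t3b_sub (M : TM o p aff) (h : Geo o) (hz : Cen o z) (h1 : z ⊓ dr o p (aff u) p = ⊥)
    (h2 : z ⊓ dr o p (aff v) p = ⊥) : z ⊓ dr o p (aff (u - v)) p = ⊥ := by
  rw [sub_eq_add_neg, ← le_bot_iff]
  refine (inf_le_inf_left z (M.dir_add h u (-v))).trans ?_
  rw [h.toOM.inf_sup hz, M.dir_neg, h1, h2, sup_idem]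

theorem exists_loc (M : TM o p aff) (h : Geo o) (hp : Pt o p) (hz : Cen o z) :
    ∃ l : V →+ V, ∀ v, dr o p (aff (l v)) p = z ⊓ dr o p (aff v) p ∧
      z ⊓ dr o p (aff (l v - v)) p = ⊥ := by
  have hz' := h.toOM.cen_o hz
  choose l hl using fun v => M.surj _ (h.aff_mix2 hp hz (M.isAff v) (h.aff_self hp))
  have h1 : ∀ v, z ⊓ aff (l v) = z ⊓ aff v := fun v => by rw [hl, h.toOM.inf_mix2 hz]
  have h2 : ∀ v, z ⊓ dr o p (aff (l v - v)) p = ⊥ := fun v => (M.loc_iff h hp hz).2 (h1 v)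
  have h3 : ∀ v, o z ⊓ dr o p (aff (l v)) p = ⊥ := fun v =>
    (h.dr_loc hp (M.isAff _) (h.aff_self hp) hz').2 (by rw [hl, h.toOM.o_inf_mix2 hz])
  have hadd : ∀ u v, l (u + v) = l u + l v := by
    intro u v
    refine sub_eq_zero.1 (M.eq_zero h hp (h.toOM.eq_of_cases hz ?_ ?_))
    · have e : l (u + v) - (l u + l v) = l (u + v) - (u + v) - (l u - u) - (l v - v) := by abel
      rw [inf_bot_eq, e]
      exact M.t3b_sub h hz (M.t3b_sub h hz (h2 _) (h2 _)) (h2 _)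
    · rw [inf_bot_eq, ← sub_sub]
      exact M.t3b_sub h hz' (M.t3b_sub h hz' (h3 _) (h3 _)) (h3 _)
  refine ⟨AddMonoidHom.mk' l hadd, fun v => ⟨h.toOM.eq_of_cases hz ?_ ?_, h2 v⟩⟩
  · rw [← inf_assoc, inf_idem]
    exact h.dr_congr hz (h1 v) rfl
  · rw [← inf_assoc, h.toOM.o_inf_self, bot_inf_eq]
    exact h3 v

theorem exists_mix (M : TM o p aff) (h : Geo o) (hp : Pt o p) {S : Set L} (hS : Part o S)
    (f : L → V) : ∃ v, ∀ w ∈ S, w ⊓ dr o p (aff (v - f w)) p = ⊥ := by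
  obtain ⟨a, ha, h1, -⟩ := h.aff_mix hp hS (f := fun w => aff (f w)) fun w _ => M.isAff _
  obtain ⟨v, rfl⟩ := M.surj a ha
  exact ⟨v, fun w hw => (M.loc_iff h hp (hS.1 w hw)).2 (h1 w hw)⟩

theorem span2 (M : TM o p aff) (h : Geo o) (hp : Pt o p)
    (hu : dr o p (aff u) p ≤ dr o p (aff v) p ⊔ dr o p (aff w) p) :
    ∃ v₁ w₁, u = v₁ + w₁ ∧ dr o p (aff v₁) p ≤ dr o p (aff v) p ∧
      dr o p (aff w₁) p ≤ dr o p (aff w) p := by
  have hpp := h.aff_self hp
  have hu0 : aff u ⊓ o p = ⊥ := (M.isAff u).2.inf_eq_bot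
  have h1 : aff u ≤ dr o p (aff w) p ⊔ (p ⊔ dr o p (aff v) p) := by
    have e := h.sup_dr hpp (M.isAff u)
    rw [Geo.dr_comm] at e
    calc aff u ≤ p ⊔ aff u := le_sup_right
      _ = p ⊔ dr o p (aff u) p := e.symm
      _ ≤ p ⊔ (dr o p (aff v) p ⊔ dr o p (aff w) p) := sup_le_sup_left hu p
      _ = _ := by rw [← sup_assoc, sup_comm]
  obtain ⟨b, hb, h2, -, h4⟩ := h.veb (M.dir_pt h hp w) (M.isAff u).1 h1
  have hbp : b ≤ cov o p :=
    h2.trans (sup_le (h.toOM.le_cov p) (h.dr_le_cov hp (M.isAff v) hpp))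
  have hb0 : b ⊓ o p = ⊥ := by
    have hc := h.toOM.cen_cov (b ⊓ o p)
    have e1 : cov o (b ⊓ o p) ⊓ aff u ≤ o p := by
      refine (inf_le_inf_left _ h4).trans ?_
      rw [h.toOM.inf_sup hc]
      exact sup_le (inf_le_right.trans (Geo.dr_le o p _ _)) (h.cov_inf_le hb _)
    have e2 : cov o (b ⊓ o p) ⊓ aff u = ⊥ := le_bot_iff.1 (hu0 ▸ le_inf inf_le_right e1)
    rw [h.toOM.inf_eq_bot_iff hc, h.aff_cov hp (M.isAff u), inf_eq_left.2
      ((h.toOM.cov_le_iff (h.toOM.cen_cov p)).2 (inf_le_left.trans hbp))] at e2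
    exact h.toOM.cov_eq_bot.1 e2
  have hcv : cov o p ≤ cov o b := by
    rw [← h.aff_cov hp (M.isAff u)]
    exact h.cov_le_of_le_sup (by rwa [sup_comm] at h4)
      (le_bot_iff.1 (hu0 ▸ inf_le_inf_left _ (Geo.dr_le o p _ _)))
  have hab := h.aff_of hp hb hb0 hcv
  obtain ⟨v₁, rfl⟩ := M.surj b hab
  refine ⟨v₁, u - v₁, by abel, ?_, ?_⟩
  · have := h.dr_le_of (b := aff v₁) hpp h.toOM.cen_top (Geo.dr_le o p (aff v) p)
      (by rwa [top_inf_eq])
    rwa [top_inf_eq, Geo.dr_comm] at this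
  · have := h.dr_le_of (b := aff u) hab h.toOM.cen_top (Geo.dr_le o p (aff w) p)
      (by rwa [top_inf_eq, sup_comm])
    rwa [top_inf_eq, Geo.dr_comm, M.dr_eq] at this

end TM

end Pool.Agent.P.MP_d8da86_an.CR
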