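import Pool.Agent.P.MP_d8da86_an.C.T3b

/-!
The ring of direction preserving endomorphisms.
Hints. `dp_zero`: if z ⊓ dir u ⊓ dir v = ⊥ and z ≤ cov (dir v) then r u = r (u + v) has direction
below dir u ⊓ dir (u + v), which misses z. For u parallel to v use `exists_off` and the first step
twice (first for the third vector t, then with t in the place of v). To get from r v = 0 below z
use that r commutes with the maps of `exists_loc`.
`dp_homology`: z = cov (dir u); replace u, v below o z by a fixed vector of full support, apply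
HoAx to the affine points, `TM.hom` for g and g.symm.
`exists_AM`: R is the subring of `AddMonoid.End V` of the r with dir (r v) ≤ dir v, ε b is the map
of `exists_loc` for j b. Every r is ε b * (unit from a homology) by `dp_homology` and `dp_zero`
applied to a vector v0 of full support; commutativity follows from CommAx; an element r is
determined by r v0 and every vector parallel to v0 is r v0, which gives mixing in R.
-/

open scoped InnerProductSpace ComplexConjugate

set_option linter.unusedSectionVars false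
set_option linter.unusedVariables false

noncomputable section

namespace Pool.Agent.P.MP_d8da86_an.CR

universe u

section

variable {L : Type*} [CompleteLattice L] {o : L → L} {p z : L} {V : Type*} [AddCommGroup V]
  {aff : V → L} {u v : V}

theorem t4_step (M : TM o p aff) (h : Geo o) (hp : Pt o p) (r : V →+ V)
    (hr : ∀ v, dr o p (aff (r v)) p ≤ dr o p (aff v) p) (hz : Cen o z)
    (h1 : z ≤ cov o (dr o p (aff v) p)) (h0 : z ⊓ dr o p (aff (r v)) p = ⊥)
    (h2 : z ⊓ dr o p (aff u) p ⊓ dr o p (aff v) p = ⊥) :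
    z ⊓ dr o p (aff (r u)) p = ⊥ := by
  have hom := h.toOM
  have e1 : r u = r (u + v) + -(r v) := by rw [map_add]; abel
  have a1 : dr o p (aff (r u)) p ≤ dr o p (aff (r (u + v))) p ⊔ dr o p (aff (r v)) p := by
    have := M.dir_add h (r (u + v)) (-(r v))
    rwa [M.dir_neg, ← e1] at this
  have a2 : z ⊓ dr o p (aff (r u)) p ≤ dr o p (aff (u + v)) p := by
    refine (inf_le_inf_left z a1).trans ?_
    rw [hom.inf_sup hz, h0, sup_bot_eq]
    exact inf_le_right.trans (hr _)
  have a3 : z ⊓ dr o p (aff (r u)) p ≤ dr o p (aff u) p := inf_le_right.trans (hr _)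
  generalize hy : z ⊓ dr o p (aff (r u)) p = y at a2 a3 ⊢
  have hyz : y ≤ z := hy ▸ inf_le_left
  have hw := hom.cen_cov y
  have hwz : cov o y ≤ z := (hom.cov_le_iff hz).2 hyz
  have b1 : y = cov o y ⊓ dr o p (aff u) p := hom.pt_eq (M.dir_pt h hp u) a3
  have b2 : y = cov o y ⊓ dr o p (aff (u + v)) p := hom.pt_eq (M.dir_pt h hp (u + v)) a2
  have e2 : v = (u + v) + -u := by abel
  have c1 : dr o p (aff v) p ≤ dr o p (aff (u + v)) p ⊔ dr o p (aff u) p := by
    have := M.dir_add h (u + v) (-u)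
    rwa [M.dir_neg, ← e2] at this
  have c2 : cov o y ⊓ dr o p (aff v) p ≤ dr o p (aff u) p := by
    refine (inf_le_inf_left _ c1).trans ?_
    rw [hom.inf_sup hw, ← b1, ← b2, sup_idem]
    exact a3
  have c3 : cov o y ⊓ dr o p (aff v) p = ⊥ := by
    rw [← le_bot_iff, ← h2]
    exact le_inf (le_inf (inf_le_left.trans hwz) c2) inf_le_right
  rw [hom.inf_eq_bot_iff hw, inf_eq_left.2 (hwz.trans h1)] at c3
  exact hom.cov_eq_bot.1 c3

theorem t4_miss (M : TM o p aff) (h : Geo o) (hp : Pt o p) (hz : Cen o z)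
    (h1 : z ≤ cov o (dr o p (aff v) p)) : z ⊓ (aff v ⊓ p) = ⊥ := by
  have hom := h.toOM
  rw [h.cov_dr hp (M.isAff v) (h.aff_self hp)] at h1
  rw [← le_bot_iff, ← hom.o_inf_self (cov o (aff v ⊓ p))]
  exact inf_le_inf (h1.trans inf_le_right) (hom.le_cov _)

theorem t4_mix_miss (M : TM o p aff) (h : Geo o) (hp : Pt o p) (hz : Cen o z) {t : V}
    (h1 : z ≤ cov o (dr o p (aff v) p)) (ht : cov o (dr o p (aff t) p) = cov o p) :
    (z ⊓ aff v ⊔ o z ⊓ aff t) ⊓ p = ⊥ := by
  have hom := h.toOM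
  rw [← le_bot_iff]
  refine hom.le_of_cases hz ?_ ?_
  · rw [← inf_assoc, hom.inf_mix2 hz, inf_assoc]
    exact (t4_miss M h hp hz h1).le
  · rw [← inf_assoc, hom.o_inf_mix2 hz, inf_assoc]
    have h2 := t4_miss M h hp (hom.cen_cov p) ht.ge
    rw [← h2]
    exact le_inf ((inf_le_right.trans inf_le_right).trans (hom.le_cov p)) inf_le_right

theorem TM.dp_zero (M : TM o p aff) (h : Proj o) (hp : Spatial o p) (r : V →+ V)
    (hr : ∀ v, dr o p (aff (r v)) p ≤ dr o p (aff v) p) (hz : Cen o z)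
    (h1 : z ≤ cov o (dr o p (aff v) p)) (h0 : z ⊓ dr o p (aff (r v)) p = ⊥) (u : V) :
    z ⊓ dr o p (aff (r u)) p = ⊥ := by
  have hg := h.toGeo
  have hom := hg.toOM
  have hpt := hp.1
  obtain ⟨t, ht1, ht2⟩ := M.exists_off h hp (M.dir_pt hg hpt v)
  have hzt : z ≤ cov o (dr o p (aff t) p) := by
    rw [ht1]
    refine h1.trans ((hom.cov_le_iff (hom.cen_cov p)).2 ?_)
    exact hg.dr_le_cov hpt (M.isAff v) (hg.aff_self hpt)
  have ht0 : z ⊓ dr o p (aff (r t)) p = ⊥ :=
    t4_step M hg hpt r hr hz h1 h0 (by rw [inf_assoc, ht2, inf_bot_eq])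
  have hc := hom.cen_cov (dr o p (aff u) p ⊓ dr o p (aff v) p)
  rw [← le_bot_iff]
  refine hom.le_of_cases hc ?_ ?_
  · rw [← inf_assoc]
    refine (t4_step M hg hpt r hr (hom.cen_inf hc hz) (inf_le_right.trans hzt) ?_ ?_).le
    · rw [inf_assoc, ht0, inf_bot_eq]
    · rw [← le_bot_iff, ← ht2]
      refine le_inf inf_le_right (inf_le_left.trans ?_)
      exact (inf_le_inf_right _ inf_le_left).trans (hg.cov_inf_le (M.dir_pt hg hpt u) _)
  · rw [← inf_assoc]
    refine (t4_step M hg hpt r hr (hom.cen_inf (hom.cen_o hc) hz) (inf_le_right.trans h1)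
      ?_ ?_).le
    · rw [inf_assoc, h0, inf_bot_eq]
    · rw [← le_bot_iff, ← hg.o_cov_inf (dr o p (aff u) p) (dr o p (aff v) p)]
      exact inf_le_inf_right _ (inf_le_inf_right _ inf_le_left)

theorem TM.dp_homology (M : TM o p aff) (h : Proj o) (hp : Spatial o p) (hh : HoAx o p)
    (huv : dr o p (aff u) p ≤ dr o p (aff v) p) :
    ∃ (g : L ≃o L) (φ ψ : V →+ V), Ax o p g ∧ g p = p ∧ (∀ t, g (aff t) = aff (φ t)) ∧
      (∀ t, φ (ψ t) = t) ∧ (∀ t, ψ (φ t) = t) ∧
      (∀ t, dr o p (aff (φ t)) p = dr o p (aff t) p) ∧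
      (∀ t, dr o p (aff (ψ t)) p = dr o p (aff t) p) ∧
      cov o (dr o p (aff u) p) ⊓ dr o p (aff (φ v - u)) p = ⊥ := by
  have hg := h.toGeo
  have hom := hg.toOM
  have hpt := hp.1
  have hpa := hg.aff_self hpt
  obtain ⟨t, ht1, -⟩ := M.exists_off h hp hom.pt_bot
  have hz := hom.cen_cov (dr o p (aff u) p)
  have hzv : cov o (dr o p (aff u) p) ≤ cov o (dr o p (aff v) p) := hom.cov_mono huv
  have hzu : cov o (dr o p (aff u) p) ≤ cov o (dr o p (aff u) p) := le_rfl
  generalize hzz : cov o (dr o p (aff u) p) = z at hz hzv ⊢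
  have hzu' : z ≤ cov o (dr o p (aff u) p) := hzz.ge
  have ha := hg.aff_mix2 hpt hz (M.isAff v) (M.isAff t)
  have hb := hg.aff_mix2 hpt hz (M.isAff u) (M.isAff t)
  have hup : aff u ≤ p ⊔ aff v := by
    have e1 := hg.sup_dr hpa (M.isAff u)
    have e2 := hg.sup_dr hpa (M.isAff v)
    rw [Geo.dr_comm] at e1 e2
    exact le_sup_right.trans (e1.ge.trans ((sup_le_sup_left huv p).trans e2.le))
  have hba : z ⊓ aff u ⊔ o z ⊓ aff t ≤ p ⊔ (z ⊓ aff v ⊔ o z ⊓ aff t) := by
    refine sup_le ?_ (le_sup_right.trans le_sup_right)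
    refine (inf_le_inf_left z hup).trans ?_
    rw [hom.inf_sup hz]
    exact sup_le_sup inf_le_right le_sup_left
  obtain ⟨g, hax, hgp, hgab⟩ := hh _ _ ha hb (t4_mix_miss M hg hpt hz hzv ht1)
    (t4_mix_miss M hg hpt hz hzu' ht1) hba
  have hgp' : g.symm p = p := by
    conv_lhs => rw [← hgp]
    exact g.symm_apply_apply p
  obtain ⟨φ, hφ⟩ := M.hom g hax hgp
  obtain ⟨ψ, hψ⟩ := M.hom g.symm hax.symm hgp'
  refine ⟨g, φ, ψ, hax, hgp, hφ, fun s => ?_, fun s => ?_, fun s => ?_, fun s => ?_, ?_⟩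
  · apply M.aff_inj hg hpt
    rw [← hφ, ← hψ, g.apply_symm_apply]
  · apply M.aff_inj hg hpt
    rw [← hψ, ← hφ, g.symm_apply_apply]
  · have := hax.dr_map (aff s) p
    rwa [hgp, hφ] at this
  · have := hax.symm.dr_map (aff s) p
    rwa [hgp', hψ] at this
  · rw [M.loc_iff hg hpt hz, ← hφ, ← hax.map_loc hg hp hz, ← hom.inf_mix2 hz (aff v) (aff t),
      hax.map_loc hg hp hz, hgab, hom.inf_mix2 hz]

end

end Pool.Agent.P.MP_d8da86_an.CR
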