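import Pool.Agent.P.MP_d8da86_an.C.T4

/-!
The ring of direction preserving endomorphisms.
Hints. `dp_zero`: if z ⊓ dir u ⊓ dir v = ⊥ and z ≤ cov (dir v) then r u = r (u + v) has direction
below dir u ⊓ dir (u + v), which misses z. For u parallel to v use `exists_off` and the first step
twice (first for the third vector t, then with t in the place of v). To get from r v = 0 below z
use that r commutes with the maps of `exists_loc`.
`dp_homology`: z = cov (dir u); replace u, v below o z by a fixed vector of full support, apply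
HoAx to the affine points, `TM.hom` for g and g.symm.
`exists_AM`: R is the subring of `AddMonoid.End V` of the r with dir (r v) ≤ dir v, ε b is the map
of `exists_loc` for j b. Every r is ε b * (unit from a homology) by `dp_homology` and `dp_zero`
applied to a vector v0 of full support; commutativity follows from CommAx; an element r is
determined by r v0 and every vector parallel to v0 is r v0, which gives mixing in R.
-/

open scoped InnerProductSpace ComplexConjugate

set_option linter.unusedSectionVars false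
set_option linter.unusedVariables false

noncomputable section

namespace Pool.Agent.P.MP_d8da86_an.CR

universe u

section

variable {L : Type*} [CompleteLattice L] {o : L → L} {p z w : L} {V : Type*} [AddCommGroup V]
  {aff : V → L}

theorem t4b_le_cov (M : TM o p aff) (h : Geo o) (hp : Pt o p) (v : V) :
    dr o p (aff v) p ≤ cov o p := h.dr_le_cov hp (M.isAff v) (h.aff_self hp)

theorem t4b_add (M : TM o p aff) (h : Geo o) (hz : Cen o z) {u v : V}
    (hu : z ⊓ dr o p (aff u) p = ⊥) (hv : z ⊓ dr o p (aff v) p = ⊥) :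
    z ⊓ dr o p (aff (u + v)) p = ⊥ := by
  refine le_bot_iff.1 ((inf_le_inf_left z (M.dir_add h u v)).trans ?_)
  rw [h.toOM.inf_sup hz, hu, hv, sup_idem]

theorem t4b_sub (M : TM o p aff) (h : Geo o) (hz : Cen o z) {u v : V}
    (hu : z ⊓ dr o p (aff u) p = ⊥) (hv : z ⊓ dr o p (aff v) p = ⊥) :
    z ⊓ dr o p (aff (u - v)) p = ⊥ := by
  rw [sub_eq_add_neg]
  exact t4b_add M h hz hu (by rw [M.dir_neg]; exact hv)

theorem t4b_mono {x : L} (hwz : w ≤ z) (h0 : z ⊓ x = ⊥) : w ⊓ x = ⊥ :=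
  le_bot_iff.1 ((inf_le_inf_right x hwz).trans h0.le)

theorem t4b_mono' {x y : L} (hxy : x ≤ y) (h0 : z ⊓ y = ⊥) : z ⊓ x = ⊥ :=
  le_bot_iff.1 ((inf_le_inf_left z hxy).trans h0.le)

theorem t4b_off (h : Geo o) {x : L} (hx : x ≤ z) : o z ⊓ x = ⊥ :=
  t4b_mono' hx (h.toOM.o_inf_self z)

/-- the localisation of a vector is unique -/
theorem t4b_uniq (M : TM o p aff) (h : Geo o) (hp : Pt o p) (hz : Cen o z) {l : V →+ V}
    (hl : ∀ v, dr o p (aff (l v)) p = z ⊓ dr o p (aff v) p ∧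
      z ⊓ dr o p (aff (l v - v)) p = ⊥) {u v : V}
    (h1 : z ⊓ dr o p (aff (u - v)) p = ⊥) (h2 : dr o p (aff u) p ≤ z) : l v = u := by
  refine sub_eq_zero.1 (M.eq_zero h hp ?_)
  have a1 : z ⊓ dr o p (aff (l v - u)) p = ⊥ := by
    have := t4b_sub M h hz (hl v).2 h1
    rwa [sub_sub_sub_cancel_right] at this
  have a2 : o z ⊓ dr o p (aff (l v - u)) p = ⊥ :=
    t4b_sub M h (h.toOM.cen_o hz) (t4b_off h (by rw [(hl v).1]; exact inf_le_left)) (t4b_off h h2)
  rw [hz (dr o p (aff (l v - u)) p), inf_comm _ z, inf_comm _ (o z), a1, a2, sup_idem]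

theorem t4b_comm (M : TM o p aff) (h : Geo o) (hp : Pt o p) (hz : Cen o z) {l : V →+ V}
    (hl : ∀ v, dr o p (aff (l v)) p = z ⊓ dr o p (aff v) p ∧
      z ⊓ dr o p (aff (l v - v)) p = ⊥) {r : V →+ V}
    (hr : ∀ v, dr o p (aff (r v)) p ≤ dr o p (aff v) p) (v : V) : l (r v) = r (l v) := by
  refine t4b_uniq M h hp hz hl ?_ ?_
  · rw [← map_sub]
    exact t4b_mono' (hr _) (hl v).2
  · exact (hr _).trans (by rw [(hl v).1]; exact inf_le_left)

/-- the ring of direction preserving endomorphisms -/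
def t4b_ring (M : TM o p aff) (h : Geo o) : Subring (AddMonoid.End V) where
  carrier := {r | ∀ v, dr o p (aff (r v)) p ≤ dr o p (aff v) p}
  one_mem' := fun v => le_rfl
  mul_mem' := fun {a b} ha hb v => (ha (b v)).trans (hb v)
  zero_mem' := fun v => by
    have : dr o p (aff 0) p = ⊥ := M.dir_zero h
    exact this.le.trans bot_le
  add_mem' := fun {a b} ha hb v => (M.dir_add h (a v) (b v)).trans (sup_le (ha v) (hb v))
  neg_mem' := fun {a} ha v => (M.dir_neg (a v)).le.trans (ha v)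

theorem t4b_det (M : TM o p aff) (h : Proj o) (hp : Spatial o p) {v₀ : V}
    (hv : cov o (dr o p (aff v₀) p) = cov o p) {r s : t4b_ring M h.toGeo}
    (h0 : r.1 v₀ = s.1 v₀) : r = s := by
  refine sub_eq_zero.1 (Subtype.ext (AddMonoidHom.ext fun u => ?_))
  have h1 : (r - s).1 v₀ = 0 := sub_eq_zero.2 h0
  have h2 := M.dp_zero h hp (r - s).1 (r - s).2 (h.toOM.cen_cov p) hv.ge
    (by
      have : dr o p (aff ((r - s).1 v₀)) p = ⊥ := by rw [h1]; exact M.dir_zero h.toGeo
      exact le_bot_iff.1 (inf_le_right.trans this.le)) u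
  rw [inf_eq_right.2 (t4b_le_cov M h.toGeo hp.1 _)] at h2
  exact M.eq_zero h.toGeo hp.1 h2

theorem t4b_part {B : Type*} [CompleteBooleanAlgebra B] {j : B → L} (h : OM o)
    (hj : CenRep o w j) {S : Set B} (hS : S.Pairwise Disjoint) : Part o (j '' S) := by
  refine ⟨?_, ?_⟩
  · rintro _ ⟨a, -, rfl⟩
    exact hj.cen a
  · rintro _ ⟨a, ha, rfl⟩ _ ⟨b, hb, rfl⟩ hab
    have hne : a ≠ b := fun e => hab (by rw [e])
    rw [← hj.map_inf h, disjoint_iff.1 (hS ha hb hne), hj.map_bot h]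

theorem t4b_mix (M : TM o p aff) (h : Geo o) (hp : Pt o p) {B : Type*}
    [CompleteBooleanAlgebra B] {j : B → L} (hj : CenRep o w j) {S : Set B}
    (hS : S.Pairwise Disjoint) (f : B → V) :
    ∃ v, ∀ a ∈ S, j a ⊓ dr o p (aff (v - f a)) p = ⊥ := by
  obtain ⟨v, hv⟩ := M.exists_mix h hp (t4b_part h.toOM hj hS)
    fun x => f (Function.invFun j x)
  refine ⟨v, fun a ha => ?_⟩
  have := hv (j a) ⟨a, ha, rfl⟩
  rwa [Function.leftInverse_invFun hj.inj a] at this

end

theorem exists_AM {L : Type u} [CompleteLattice L] {o : L → L} {p : L} {V : Type u}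
    [AddCommGroup V] {aff : V → L} {B : Type u} [CompleteBooleanAlgebra B] {j : B → L}
    (M : TM o p aff) (h : Proj o) (hp : Spatial o p) (hh : HoAx o p) (hc : CommAx o p)
    (hj : CenRep o (cov o p) j) :
    ∃ (R : Type u) (_ : CommRing R) (_ : Module R V) (ε : B → R), AM o p j ε aff := by
  have hG := h.toGeo
  have hO := hG.toOM
  have hcp := hO.cen_cov p
  choose l hl using fun b : B => M.exists_loc hG hp.1 (hj.cen b)
  obtain ⟨v₀, hv₀, -⟩ := M.exists_off h hp hO.pt_bot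
  let ε : B → t4b_ring M hG := fun b => ⟨l b, fun v => by
    show dr o p (aff (l b v)) p ≤ _
    rw [(hl b v).1]; exact inf_le_right⟩
  have hsupp : ∀ v : V, ∃ s : B, j s = cov o (dr o p (aff v) p) := fun v =>
    (hj.range _).2 ⟨hO.cen_cov _, (hO.cov_le_iff hcp).2 (t4b_le_cov M hG hp.1 v)⟩
  have hzero : ∀ (b : B) (v : V), l b v = 0 ↔ j b ⊓ dr o p (aff v) p = ⊥ := fun b v => by
    rw [← (hl b v).1]
    exact ⟨fun e => by rw [e]; exact M.dir_zero hG, M.eq_zero hG hp.1⟩
  have hspan : ∀ u v : V, dr o p (aff u) p ≤ dr o p (aff v) p →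
      ∃ (b : B) (k : (t4b_ring M hG)ˣ) (g : L ≃o L), Ax o p g ∧ g p = p ∧
        (∀ t, g (aff t) = aff (k.1.1 t)) ∧ (ε b * k).1 v = u := by
    intro u v huv
    obtain ⟨g, φ, ψ, hg, hgp, hφ, h1, h2, h3, h4, h5⟩ := M.dp_homology h hp hh huv
    obtain ⟨b, hb⟩ := hsupp u
    refine ⟨b, ⟨⟨φ, fun t => (h3 t).le⟩, ⟨ψ, fun t => (h4 t).le⟩,
      Subtype.ext (AddMonoidHom.ext h1), Subtype.ext (AddMonoidHom.ext h2)⟩, g, hg, hgp, hφ, ?_⟩
    show l b (φ v) = u
    refine t4b_uniq M hG hp.1 (hj.cen b) (hl b) ?_ ?_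
    · rw [← neg_sub, M.dir_neg, hb]; exact h5
    · rw [hb]; exact hO.le_cov _
  have hreg : ∀ r : t4b_ring M hG, ∃ (b : B) (k : (t4b_ring M hG)ˣ) (g : L ≃o L),
      Ax o p g ∧ g p = p ∧ (∀ t, g (aff t) = aff (k.1.1 t)) ∧ r = ε b * k := by
    intro r
    obtain ⟨b, k, g, h1, h2, h3, h4⟩ := hspan (r.1 v₀) v₀ (r.2 v₀)
    exact ⟨b, k, g, h1, h2, h3, t4b_det M h hp hv₀ h4.symm⟩
  have hcen : ∀ (b : B) (r : t4b_ring M hG), ε b * r = r * ε b := fun b r =>
    Subtype.ext (AddMonoidHom.ext fun v => t4b_comm M hG hp.1 (hj.cen b) (hl b) r.2 v)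
  have hcomm : ∀ r s : t4b_ring M hG, r * s = s * r := by
    intro r s
    obtain ⟨b, k, g, g1, g2, g3, rfl⟩ := hreg r
    obtain ⟨b', k', g', g1', g2', g3', rfl⟩ := hreg s
    have hk : (k : t4b_ring M hG) * k' = k' * k := by
      refine Subtype.ext (AddMonoidHom.ext fun t => M.aff_inj hG hp.1 ?_)
      show aff (k.1.1 (k'.1.1 t)) = aff (k'.1.1 (k.1.1 t))
      rw [← g3, ← g3', ← g3', ← g3]
      exact hc g g' g1 g1' g2 g2' _
    calc ε b * k * (ε b' * k') = ε b * (ε b' * (k * k')) := by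
          rw [mul_assoc, ← mul_assoc (k : t4b_ring M hG), ← hcen, mul_assoc]
      _ = ε b' * k' * (ε b * k) := by
          rw [hk, ← mul_assoc (ε b'), ← mul_assoc (ε b), hcen b, mul_assoc, mul_assoc]
  let _ : CommRing (t4b_ring M hG) := { (inferInstance : Ring (t4b_ring M hG)) with
    mul_comm := hcomm }
  refine ⟨t4b_ring M hG, inferInstance, (inferInstance : Module (t4b_ring M hG) V), ε,
    { toTM := M
      reg := ⟨?_, fun a b => ?_, fun a => ?_, fun a ha => ?_, fun r => ?_, fun S hS f => ?_⟩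
      bm := ⟨fun v => ?_, fun S hS f => ?_⟩
      loc := fun z v => (hl z v).1
      smul_le := fun r v => r.2 v
      span := fun u v huv => ?_ }⟩
  · refine Subtype.ext (AddMonoidHom.ext fun v => ?_)
    show l ⊤ v = v
    refine t4b_uniq M hG hp.1 (hj.cen _) (hl _) ?_ ?_
    · rw [sub_self, M.dir_zero hG, inf_bot_eq]
    · rw [hj.map_top hcp]; exact t4b_le_cov M hG hp.1 v
  · refine Subtype.ext (AddMonoidHom.ext fun v => ?_)
    show l (a ⊓ b) v = l a (l b v)
    refine t4b_uniq M hG hp.1 (hj.cen _) (hl _) ?_ ?_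
    · have := t4b_add M hG (hj.cen (a ⊓ b))
        (t4b_mono ((hj.le_iff _ _).2 inf_le_left) (hl a (l b v)).2)
        (t4b_mono ((hj.le_iff _ _).2 inf_le_right) (hl b v).2)
      rwa [sub_add_sub_cancel] at this
    · rw [(hl a _).1, (hl b _).1, hj.map_inf hO]
      exact inf_le_inf_left _ inf_le_left
  · refine Subtype.ext (AddMonoidHom.ext fun v => ?_)
    show l aᶜ v = v - l a v
    refine t4b_uniq M hG hp.1 (hj.cen _) (hl _) ?_ ?_
    · rw [sub_sub_cancel_left, M.dir_neg, hj.map_compl hO hcp]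
      exact t4b_mono inf_le_right (t4b_off hG (by rw [(hl a v).1]; exact inf_le_left))
    · rw [hj.map_compl hO hcp]
      refine le_inf (t4b_le_cov M hG hp.1 _) ((hO.le_o_iff (hj.cen a)).2 ?_)
      rw [← neg_sub, M.dir_neg]
      exact (hl a v).2
  · have h1 : l a v₀ = 0 := congrArg (fun r : t4b_ring M hG => r.1 v₀) ha
    rw [hzero, hO.inf_eq_bot_iff (hj.cen a), hv₀, inf_eq_left.2 (hj.le a)] at h1
    exact (hj.eq_bot_iff hO).1 h1
  · obtain ⟨b, k, g, -, -, -, e⟩ := hreg r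
    exact ⟨b, k, e⟩
  · obtain ⟨v, hv⟩ := t4b_mix M hG hp.1 hj hS fun a => (f a).1 v₀
    have h1 : dr o p (aff (l (sSup S) v)) p ≤ dr o p (aff v₀) p := by
      rw [(hl _ v).1, hj.map_sSup hO]
      refine hO.le_of_part (t4b_part hO hj hS) inf_le_left ?_
      rintro _ ⟨a, ha, rfl⟩
      have h2 := M.dir_add hG (v - (f a).1 v₀) ((f a).1 v₀)
      rw [sub_add_cancel] at h2
      refine (inf_le_inf_left _ (inf_le_right.trans h2)).trans ?_
      rw [hO.inf_sup (hj.cen a), hv a ha, bot_sup_eq]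
      exact inf_le_right.trans ((f a).2 v₀)
    obtain ⟨b, k, g, -, -, -, e⟩ := hspan _ _ h1
    refine ⟨ε b * k, fun a ha => t4b_det M h hp hv₀ ?_⟩
    show l a ((ε b * k).1 v₀) = l a ((f a).1 v₀)
    rw [e, ← sub_eq_zero, ← map_sub, hzero]
    have := t4b_add M hG (hj.cen a)
      (t4b_mono ((hj.le_iff _ _).2 (le_sSup ha)) (hl (sSup S) v).2) (hv a ha)
    rwa [sub_add_sub_cancel] at this
  · obtain ⟨s, hs⟩ := hsupp v
    refine ⟨s, fun z => ?_⟩
    show l z v = 0 ↔ _
    rw [hzero, hO.inf_eq_bot_iff (hj.cen z), ← hs, ← hj.map_inf hO, hj.eq_bot_iff hO]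
  · obtain ⟨v, hv⟩ := t4b_mix M hG hp.1 hj hS f
    refine ⟨v, fun a ha => ?_⟩
    show l a v = l a (f a)
    rw [← sub_eq_zero, ← map_sub, hzero]
    exact hv a ha
  · obtain ⟨b, k, g, -, -, -, e⟩ := hspan u v huv
    exact ⟨ε b * k, e.symm⟩

end Pool.Agent.P.MP_d8da86_an.CR
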